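import Mathlib

/-!
# SOSC BILIN: from cut norm to operator norm (Bilu–Linial)

Let `a : ι → ι → ℝ` with `|∑_{u ∈ X, v ∈ Y} a u v| ≤ α √(|X||Y|)` for all `X, Y`, and absolute row and
column sums at most `R`.

(1) If `0 ≤ f ≤ 1`, `0 ≤ g ≤ 1` are supported on `X`, `Y` then
`|∑∑ a u v f u g v| ≤ α √(|X||Y|)`: for fixed `g` the form is linear in `f`, so its maximum over
`0 ≤ f ≤ 1_X` is attained at an indicator function of a subset of `X` (the set where the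
coefficient `∑_v a u v g v` is positive); then the same for `g`.  Apply to `a` and `-a`.

(2) Let `F, H ≥ 0`, `‖F‖² = ∑ F², ‖H‖²`.  For `F u > 0` let `ℓ(u) ∈ ℤ` with
`2^{-ℓ(u)-1} < F u ≤ 2^{-ℓ(u)}`, and `ℓ'(v)` the same for `H`.  `X_i = {ℓ = i}`, `Y_j = {ℓ' = j}`.
Near pairs `|i - j| ≤ γ`: by (1) applied to `2^i F 1_{X_i}`, `2^j H 1_{Y_j}`, the block
contributes at most `2^{-i} 2^{-j} α √(|X_i||Y_j|) ≤ 4 α ‖F 1_{X_i}‖ ‖H 1_{Y_j}‖`, and
`∑_{|i-j| ≤ γ} x_i y_j ≤ (2γ+1) ‖x‖ ‖y‖`.  Far pairs: if `ℓ'(v) > ℓ(u) + γ` then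
`H v ≤ 2^{-γ} F u`, so these contribute at most `∑_u 2^{-γ} F u² ∑_v |a u v| ≤ 2^{-γ} R ‖F‖²`;
similarly the pairs with `ℓ(u) > ℓ'(v) + γ` contribute at most `2^{-γ} R ‖H‖²`.  So
`|∑∑ a F H| ≤ 4 α (2γ+1) ‖F‖ ‖H‖ + 2^{-γ} R (‖F‖² + ‖H‖²)`; by homogeneity (scale `F`, `H` to
norm 1; trivial if one of them is 0) `≤ (4 α (2γ+1) + 2 R 2^{-γ}) ‖F‖ ‖H‖`.

(3) General `F, H`: `F = F⁺ - F⁻`, four terms, `(‖F⁺‖ + ‖F⁻‖)(‖H⁺‖ + ‖H⁻‖) ≤ 2 ‖F‖ ‖H‖`.
-/

set_option autoImplicit false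
set_option linter.unusedSectionVars false

namespace Pool.Agent.SOSC

open Finset

variable {ι : Type*} [Fintype ι] [DecidableEq ι]

omit [DecidableEq ι] in
private lemma lin_max (X : Finset ι) (f c : ι → ℝ) (hf : ∀ u, 0 ≤ f u ∧ f u ≤ 1)
    (hfX : ∀ u, u ∉ X → f u = 0) : ∃ X' ⊆ X, ∑ u, c u * f u ≤ ∑ u ∈ X', c u := by
  classical
  refine ⟨X.filter (fun u => 0 < c u), filter_subset _ _, ?_⟩
  rw [← sum_subset (subset_univ X) (fun u _ hu => by rw [hfX u hu, mul_zero]), sum_filter]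
  refine sum_le_sum fun u hu => ?_
  split_ifs with h
  · exact mul_le_of_le_one_right h.le (hf u).2
  · exact mul_nonpos_of_nonpos_of_nonneg (not_lt.1 h) (hf u).1

omit [DecidableEq ι] in
private lemma cube_le (a : ι → ι → ℝ) (α : ℝ) (hα : 0 ≤ α)
    (h : ∀ X Y : Finset ι, ∑ u ∈ X, ∑ v ∈ Y, a u v ≤ α * Real.sqrt (X.card * Y.card))
    (X Y : Finset ι) (f g : ι → ℝ) (hf : ∀ u, 0 ≤ f u ∧ f u ≤ 1) (hg : ∀ u, 0 ≤ g u ∧ g u ≤ 1)
    (hfX : ∀ u, u ∉ X → f u = 0) (hgY : ∀ u, u ∉ Y → g u = 0) :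
    ∑ u, ∑ v, a u v * f u * g v ≤ α * Real.sqrt (X.card * Y.card) := by
  obtain ⟨X', hX', h1⟩ := lin_max X f (fun u => ∑ v, a u v * g v) hf hfX
  obtain ⟨Y', hY', h2⟩ := lin_max Y g (fun v => ∑ u ∈ X', a u v) hg hgY
  have e1 : ∑ u, ∑ v, a u v * f u * g v = ∑ u, (∑ v, a u v * g v) * f u := by
    refine sum_congr rfl fun u _ => ?_
    rw [sum_mul]
    exact sum_congr rfl fun v _ => by ring
  have e2 : ∑ u ∈ X', ∑ v, a u v * g v = ∑ v, (∑ u ∈ X', a u v) * g v := by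
    rw [sum_comm]
    exact sum_congr rfl fun v _ => by rw [sum_mul]
  rw [e1]
  refine h1.trans ?_
  rw [e2]
  refine h2.trans ?_
  rw [sum_comm]
  refine (h X' Y').trans ?_
  have h3 : (X'.card : ℝ) ≤ X.card := by exact_mod_cast card_le_card hX'
  have h4 : (Y'.card : ℝ) ≤ Y.card := by exact_mod_cast card_le_card hY'
  exact mul_le_mul_of_nonneg_left (Real.sqrt_le_sqrt (mul_le_mul h3 h4 (by positivity)
    (by positivity))) hα

theorem bilin_cube (a : ι → ι → ℝ) (α : ℝ) (hα : 0 ≤ α)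
    (h : ∀ X Y : Finset ι, |∑ u ∈ X, ∑ v ∈ Y, a u v| ≤ α * Real.sqrt (X.card * Y.card))
    (X Y : Finset ι) (f g : ι → ℝ) (hf : ∀ u, 0 ≤ f u ∧ f u ≤ 1) (hg : ∀ u, 0 ≤ g u ∧ g u ≤ 1)
    (hfX : ∀ u, u ∉ X → f u = 0) (hgY : ∀ u, u ∉ Y → g u = 0) :
    |∑ u, ∑ v, a u v * f u * g v| ≤ α * Real.sqrt (X.card * Y.card) := by
  rw [abs_le]
  constructor
  · have h1 := cube_le (fun u v => -a u v) α hα (fun X Y => by
      simp only [sum_neg_distrib]
      exact (neg_le_abs _).trans (h X Y)) X Y f g hf hg hfX hgY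
    simp only [neg_mul, sum_neg_distrib] at h1
    linarith
  · exact cube_le a α hα (fun X Y => (le_abs_self _).trans (h X Y)) X Y f g hf hg hfX hgY

private noncomputable def lv (x : ℝ) : ℤ := Int.log 2 x

private lemma lv_le {x : ℝ} (hx : 0 < x) : (2 : ℝ) ^ (lv x) ≤ x := by
  have := Int.zpow_log_le_self (b := 2) (by norm_num) hx
  exact_mod_cast this

private lemma lt_lv (x : ℝ) : x < (2 : ℝ) ^ (lv x + 1) := by
  have := Int.lt_zpow_succ_log_self (b := 2) (by norm_num) x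
  exact_mod_cast this

private lemma block (a : ι → ι → ℝ) (α : ℝ) (hα : 0 ≤ α)
    (h : ∀ X Y : Finset ι, |∑ u ∈ X, ∑ v ∈ Y, a u v| ≤ α * Real.sqrt (X.card * Y.card))
    (F H : ι → ℝ) (hF : ∀ u, 0 ≤ F u) (hH : ∀ v, 0 ≤ H v) (i j : ℤ) :
    |∑ u, ∑ v, a u v * (if lv (F u) = i then F u else 0) * (if lv (H v) = j then H v else 0)| ≤
      2 * α * (∑ u, (if lv (F u) = i then F u else 0) ^ 2 +
        ∑ v, (if lv (H v) = j then H v else 0) ^ 2) := by
  have gen : ∀ (G : ι → ℝ) (hG : ∀ u, 0 ≤ G u) (l : ℤ),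
      (∀ u, 0 ≤ (if lv (G u) = l then G u else 0) / 2 ^ (l + 1) ∧
        (if lv (G u) = l then G u else 0) / 2 ^ (l + 1) ≤ (1 : ℝ)) ∧
      (∀ u, u ∉ univ.filter (fun u => 0 < G u ∧ lv (G u) = l) →
        (if lv (G u) = l then G u else 0) / 2 ^ (l + 1) = (0 : ℝ)) ∧
      ((univ.filter (fun u => 0 < G u ∧ lv (G u) = l)).card : ℝ) * (2 ^ l) ^ 2 ≤
        ∑ u, (if lv (G u) = l then G u else 0) ^ 2 := by
    intro G hG l
    have hp : (0 : ℝ) < 2 ^ (l + 1) := by positivity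
    refine ⟨fun u => ⟨?_, ?_⟩, ?_, ?_⟩
    · split_ifs
      · exact div_nonneg (hG u) hp.le
      · simp
    · split_ifs with hu
      · rw [div_le_one hp, ← hu]
        exact (lt_lv _).le
      · simp
    · intro u hu
      rw [mem_filter] at hu
      split_ifs with h1
      · have : G u = 0 := by
          by_contra hne
          exact hu ⟨mem_univ _, lt_of_le_of_ne (hG u) (Ne.symm hne), h1⟩
        rw [this]; simp
      · simp
    · rw [← nsmul_eq_mul, ← sum_const]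
      refine (sum_le_sum (f := fun _ => ((2 : ℝ) ^ l) ^ 2)
        (g := fun u => (if lv (G u) = l then G u else 0) ^ 2) ?_).trans
        (sum_le_sum_of_subset_of_nonneg (filter_subset _ _) fun u _ _ => sq_nonneg _)
      intro u hu
      rw [mem_filter] at hu
      have h1 := lv_le hu.2.1
      simp only [hu.2.2, if_true]
      rw [hu.2.2] at h1
      exact pow_le_pow_left₀ (by positivity) h1 2
  obtain ⟨f1, f2, f3⟩ := gen F hF i
  obtain ⟨g1, g2, g3⟩ := gen H hH j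
  set P := ∑ u, (if lv (F u) = i then F u else 0) ^ 2 with hP
  set Q := ∑ v, (if lv (H v) = j then H v else 0) ^ 2 with hQ
  have hP0 : 0 ≤ P := sum_nonneg fun _ _ => sq_nonneg _
  have hQ0 : 0 ≤ Q := sum_nonneg fun _ _ => sq_nonneg _
  have hc := bilin_cube a α hα h _ _ _ _ f1 g1 f2 g2
  set x : ℝ := ((univ.filter (fun u => 0 < F u ∧ lv (F u) = i)).card : ℝ) with hx
  set y : ℝ := ((univ.filter (fun u => 0 < H u ∧ lv (H u) = j)).card : ℝ) with hy
  have hx0 : 0 ≤ x := by positivity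
  have hy0 : 0 ≤ y := by positivity
  have hi : (0 : ℝ) < 2 ^ i := by positivity
  have hj : (0 : ℝ) < 2 ^ j := by positivity
  have hi1 : (2 : ℝ) ^ (i + 1) = 2 * 2 ^ i := by rw [zpow_add_one₀ (by norm_num)]; ring
  have hj1 : (2 : ℝ) ^ (j + 1) = 2 * 2 ^ j := by rw [zpow_add_one₀ (by norm_num)]; ring
  have e : ∑ u, ∑ v, a u v * (if lv (F u) = i then F u else 0) *
      (if lv (H v) = j then H v else 0) = (2 ^ (i + 1) * 2 ^ (j + 1)) *
      ∑ u, ∑ v, a u v * ((if lv (F u) = i then F u else 0) / 2 ^ (i + 1)) *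
        ((if lv (H v) = j then H v else 0) / 2 ^ (j + 1)) := by
    rw [mul_sum]
    refine sum_congr rfl fun u _ => ?_
    rw [mul_sum]
    refine sum_congr rfl fun v _ => ?_
    field_simp
  rw [e, abs_mul, abs_of_pos (by positivity)]
  have h5 : Real.sqrt (x * y) * (2 ^ i * 2 ^ j) ≤ (P + Q) / 2 := by
    have h6 : Real.sqrt (x * y) * (2 ^ i * 2 ^ j) = Real.sqrt ((x * (2 ^ i) ^ 2) * (y * (2 ^ j) ^ 2)) := by
      rw [show (x * ((2 : ℝ) ^ i) ^ 2) * (y * (2 ^ j) ^ 2) = (x * y) * (2 ^ i * 2 ^ j) ^ 2 by ring,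
        Real.sqrt_mul (mul_nonneg hx0 hy0) ((2 ^ i * 2 ^ j) ^ 2), Real.sqrt_sq (by positivity)]
    rw [h6]
    have h7 : (x * ((2 : ℝ) ^ i) ^ 2) * (y * (2 ^ j) ^ 2) ≤ P * Q :=
      mul_le_mul f3 g3 (by positivity) hP0
    rw [Real.sqrt_le_left (by positivity)]
    nlinarith [sq_nonneg (P - Q)]
  calc (2 : ℝ) ^ (i + 1) * 2 ^ (j + 1) * |_| ≤ 2 ^ (i + 1) * 2 ^ (j + 1) * (α * Real.sqrt (x * y)) :=
        mul_le_mul_of_nonneg_left hc (by positivity)
    _ = 4 * α * (Real.sqrt (x * y) * (2 ^ i * 2 ^ j)) := by rw [hi1, hj1]; ring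
    _ ≤ 4 * α * ((P + Q) / 2) := mul_le_mul_of_nonneg_left h5 (by positivity)
    _ = _ := by ring

omit [DecidableEq ι] in
private lemma sum4_comm {κ μ : Type*} (I : Finset κ) (J : Finset μ) (T : ι → ι → κ → μ → ℝ) :
    ∑ u, ∑ v, ∑ i ∈ I, ∑ j ∈ J, T u v i j = ∑ i ∈ I, ∑ j ∈ J, ∑ u, ∑ v, T u v i j := by
  calc ∑ u, ∑ v, ∑ i ∈ I, ∑ j ∈ J, T u v i j
      = ∑ u, ∑ i ∈ I, ∑ v, ∑ j ∈ J, T u v i j := sum_congr rfl fun u _ => sum_comm
    _ = ∑ i ∈ I, ∑ u, ∑ v, ∑ j ∈ J, T u v i j := sum_comm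
    _ = ∑ i ∈ I, ∑ u, ∑ j ∈ J, ∑ v, T u v i j :=
        sum_congr rfl fun i _ => sum_congr rfl fun u _ => sum_comm
    _ = _ := sum_congr rfl fun i _ => sum_comm

private lemma count_near (J : Finset ℤ) (i : ℤ) (γ : ℕ) :
    ((J.filter (fun j => |i - j| ≤ (γ : ℤ))).card : ℝ) ≤ 2 * γ + 1 := by
  have h : (J.filter (fun j => |i - j| ≤ (γ : ℤ))).card ≤ 2 * γ + 1 := by
    have h1 : J.filter (fun j => |i - j| ≤ (γ : ℤ)) ⊆ Finset.Icc (i - γ) (i + γ) := by
      intro j hj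
      rw [mem_filter, abs_le] at hj
      rw [mem_Icc]
      constructor <;> omega
    refine (card_le_card h1).trans ?_
    rw [Int.card_Icc]
    omega
  exact_mod_cast h

private lemma near_bound (a : ι → ι → ℝ) (α : ℝ) (γ : ℕ) (hα : 0 ≤ α)
    (h : ∀ X Y : Finset ι, |∑ u ∈ X, ∑ v ∈ Y, a u v| ≤ α * Real.sqrt (X.card * Y.card))
    (F H : ι → ℝ) (hF : ∀ u, 0 ≤ F u) (hH : ∀ v, 0 ≤ H v) :
    |∑ u, ∑ v, a u v * (if |lv (F u) - lv (H v)| ≤ (γ : ℤ) then F u * H v else 0)| ≤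
      2 * α * (2 * γ + 1) * (∑ u, F u ^ 2 + ∑ v, H v ^ 2) := by
  set I := univ.image (fun u => lv (F u)) with hI
  set J := univ.image (fun v => lv (H v)) with hJ
  have key : ∀ u v, a u v * (if |lv (F u) - lv (H v)| ≤ (γ : ℤ) then F u * H v else 0) =
      ∑ i ∈ I, ∑ j ∈ J, (if |i - j| ≤ (γ : ℤ) then
        a u v * (if lv (F u) = i then F u else 0) * (if lv (H v) = j then H v else 0) else 0) := by
    intro u v
    rw [Finset.sum_eq_single (lv (F u)), Finset.sum_eq_single (lv (H v))]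
    · simp only [if_true]
      split_ifs <;> ring
    · intro j _ hj
      rw [if_neg (Ne.symm hj)]
      simp
    · intro hj
      exact absurd (mem_image_of_mem _ (mem_univ v)) hj
    · intro i _ hi
      refine sum_eq_zero fun j _ => ?_
      rw [if_neg (Ne.symm hi)]
      simp
    · intro hi
      exact absurd (mem_image_of_mem _ (mem_univ u)) hi
  simp_rw [key]
  rw [sum4_comm]
  have e1 : ∀ i j, ∑ u, ∑ v, (if |i - j| ≤ (γ : ℤ) then
        a u v * (if lv (F u) = i then F u else 0) * (if lv (H v) = j then H v else 0) else 0) =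
      if |i - j| ≤ (γ : ℤ) then ∑ u, ∑ v,
        a u v * (if lv (F u) = i then F u else 0) * (if lv (H v) = j then H v else 0) else 0 := by
    intro i j
    split_ifs <;> simp
  simp_rw [e1]
  set P : ℤ → ℝ := fun i => ∑ u, (if lv (F u) = i then F u else 0) ^ 2 with hP
  set Q : ℤ → ℝ := fun j => ∑ v, (if lv (H v) = j then H v else 0) ^ 2 with hQ
  have hP0 : ∀ i, 0 ≤ P i := fun i => sum_nonneg fun _ _ => sq_nonneg _
  have hQ0 : ∀ i, 0 ≤ Q i := fun i => sum_nonneg fun _ _ => sq_nonneg _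
  have hPs : ∑ i ∈ I, P i = ∑ u, F u ^ 2 := by
    rw [hP, sum_comm]
    refine sum_congr rfl fun u _ => ?_
    rw [Finset.sum_eq_single (lv (F u))]
    · simp
    · intro i _ hi
      rw [if_neg (Ne.symm hi)]; simp
    · intro hi
      exact absurd (mem_image_of_mem _ (mem_univ u)) hi
  have hQs : ∑ j ∈ J, Q j = ∑ v, H v ^ 2 := by
    rw [hQ, sum_comm]
    refine sum_congr rfl fun u _ => ?_
    rw [Finset.sum_eq_single (lv (H u))]
    · simp
    · intro i _ hi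
      rw [if_neg (Ne.symm hi)]; simp
    · intro hi
      exact absurd (mem_image_of_mem _ (mem_univ u)) hi
  have h1 : |∑ i ∈ I, ∑ j ∈ J, (if |i - j| ≤ (γ : ℤ) then ∑ u, ∑ v,
        a u v * (if lv (F u) = i then F u else 0) * (if lv (H v) = j then H v else 0) else 0)| ≤
      ∑ i ∈ I, ∑ j ∈ J, (if |i - j| ≤ (γ : ℤ) then 2 * α * (P i + Q j) else 0) := by
    refine (abs_sum_le_sum_abs _ _).trans (sum_le_sum fun i _ => ?_)
    refine (abs_sum_le_sum_abs _ _).trans (sum_le_sum fun j _ => ?_)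
    split_ifs with hij
    · exact block a α hα h F H hF hH i j
    · simp
  refine h1.trans ?_
  have h2 : ∑ i ∈ I, ∑ j ∈ J, (if |i - j| ≤ (γ : ℤ) then 2 * α * (P i + Q j) else 0) =
      2 * α * (∑ i ∈ I, ((J.filter (fun j => |i - j| ≤ (γ : ℤ))).card : ℝ) * P i +
        ∑ j ∈ J, ((I.filter (fun i => |j - i| ≤ (γ : ℤ))).card : ℝ) * Q j) := by
    have h3 : ∀ i, ∑ j ∈ J, (if |i - j| ≤ (γ : ℤ) then 2 * α * (P i + Q j) else 0) =
        2 * α * (((J.filter (fun j => |i - j| ≤ (γ : ℤ))).card : ℝ) * P i) +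
        2 * α * ∑ j ∈ J, (if |j - i| ≤ (γ : ℤ) then Q j else 0) := by
      intro i
      rw [← nsmul_eq_mul, ← sum_const, sum_filter, mul_sum, mul_sum, ← sum_add_distrib]
      refine sum_congr rfl fun j _ => ?_
      rw [abs_sub_comm j i]
      split_ifs <;> ring
    simp_rw [h3]
    rw [sum_add_distrib, ← mul_sum, ← mul_sum, mul_add]
    congr 2
    rw [sum_comm]
    refine sum_congr rfl fun j _ => ?_
    rw [← nsmul_eq_mul, ← sum_const, sum_filter]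
  rw [h2]
  have h4 : ∑ i ∈ I, ((J.filter (fun j => |i - j| ≤ (γ : ℤ))).card : ℝ) * P i ≤
      (2 * γ + 1) * ∑ u, F u ^ 2 := by
    rw [← hPs, mul_sum]
    exact sum_le_sum fun i _ => mul_le_mul_of_nonneg_right (count_near J i γ) (hP0 i)
  have h5 : ∑ j ∈ J, ((I.filter (fun i => |j - i| ≤ (γ : ℤ))).card : ℝ) * Q j ≤
      (2 * γ + 1) * ∑ v, H v ^ 2 := by
    rw [← hQs, mul_sum]
    exact sum_le_sum fun i _ => mul_le_mul_of_nonneg_right (count_near I i γ) (hQ0 i)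
  calc _ ≤ 2 * α * ((2 * γ + 1) * ∑ u, F u ^ 2 + (2 * γ + 1) * ∑ v, H v ^ 2) :=
        mul_le_mul_of_nonneg_left (add_le_add h4 h5) (by positivity)
    _ = _ := by ring

private lemma far_le {x y : ℝ} (hx : 0 ≤ x) (hy : 0 ≤ y) (γ : ℕ) :
    (if (γ : ℤ) < lv x - lv y then x * y else 0) ≤ x ^ 2 / 2 ^ γ := by
  split_ifs with h
  · rcases hx.eq_or_lt with h0 | h0
    · rw [← h0]; simp
    · have h1 := lv_le h0
      have h2 := lt_lv y
      have h3 : (2 : ℝ) ^ (lv y + 1) ≤ 2 ^ (lv x - γ) :=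
        zpow_le_zpow_right₀ (by norm_num) (by omega)
      have h4 : (2 : ℝ) ^ (lv x - γ) = 2 ^ (lv x) / 2 ^ γ := by
        rw [zpow_sub₀ (by norm_num), zpow_natCast]
      have h5 : y ≤ x / 2 ^ γ := by
        rw [h4] at h3
        have h6 : (2 : ℝ) ^ (lv x) / 2 ^ γ ≤ x / 2 ^ γ := by gcongr
        linarith
      calc x * y ≤ x * (x / 2 ^ γ) := mul_le_mul_of_nonneg_left h5 hx
        _ = _ := by ring
  · positivity

private lemma nonneg_bound (a : ι → ι → ℝ) (α R : ℝ) (γ : ℕ) (hα : 0 ≤ α) (hR : 0 ≤ R)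
    (h : ∀ X Y : Finset ι, |∑ u ∈ X, ∑ v ∈ Y, a u v| ≤ α * Real.sqrt (X.card * Y.card))
    (hrow : ∀ u, ∑ v, |a u v| ≤ R) (hcol : ∀ v, ∑ u, |a u v| ≤ R) (F H : ι → ℝ)
    (hF : ∀ u, 0 ≤ F u) (hH : ∀ v, 0 ≤ H v) :
    |∑ u, ∑ v, a u v * F u * H v| ≤ (2 * α * (2 * γ + 1) + R / 2 ^ γ) *
      (∑ u, F u ^ 2 + ∑ v, H v ^ 2) := by
  have e : ∑ u, ∑ v, a u v * F u * H v =
      ∑ u, ∑ v, a u v * (if |lv (F u) - lv (H v)| ≤ (γ : ℤ) then F u * H v else 0) +
      (∑ u, ∑ v, a u v * (if (γ : ℤ) < lv (F u) - lv (H v) then F u * H v else 0) +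
      ∑ u, ∑ v, a u v * (if (γ : ℤ) < lv (H v) - lv (F u) then H v * F u else 0)) := by
    rw [← sum_add_distrib, ← sum_add_distrib]
    refine sum_congr rfl fun u _ => ?_
    rw [← sum_add_distrib, ← sum_add_distrib]
    refine sum_congr rfl fun v _ => ?_
    by_cases h1 : (γ : ℤ) < lv (F u) - lv (H v)
    · have h2 : ¬ |lv (F u) - lv (H v)| ≤ (γ : ℤ) := by rw [abs_le]; omega
      have h3 : ¬ (γ : ℤ) < lv (H v) - lv (F u) := by omega
      rw [if_pos h1, if_neg h2, if_neg h3]; ring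
    · by_cases h3 : (γ : ℤ) < lv (H v) - lv (F u)
      · have h2 : ¬ |lv (F u) - lv (H v)| ≤ (γ : ℤ) := by rw [abs_le]; omega
        rw [if_neg h1, if_neg h2, if_pos h3]; ring
      · have h2 : |lv (F u) - lv (H v)| ≤ (γ : ℤ) := by rw [abs_le]; omega
        rw [if_neg h1, if_pos h2, if_neg h3]; ring
  have n1 := near_bound a α γ hα h F H hF hH
  have h2γ : (0 : ℝ) < 2 ^ γ := by positivity
  have n2 : |∑ u, ∑ v, a u v * (if (γ : ℤ) < lv (F u) - lv (H v) then F u * H v else 0)| ≤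
      R / 2 ^ γ * ∑ u, F u ^ 2 := by
    refine (abs_sum_le_sum_abs _ _).trans ?_
    rw [mul_sum]
    refine sum_le_sum fun u _ => ?_
    refine (abs_sum_le_sum_abs _ _).trans ?_
    calc ∑ v, |a u v * (if (γ : ℤ) < lv (F u) - lv (H v) then F u * H v else 0)|
        ≤ ∑ v, |a u v| * (F u ^ 2 / 2 ^ γ) := by
          refine sum_le_sum fun v _ => ?_
          rw [abs_mul]
          refine mul_le_mul_of_nonneg_left ?_ (abs_nonneg _)
          rw [abs_of_nonneg]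
          · exact far_le (hF u) (hH v) γ
          · split_ifs
            · exact mul_nonneg (hF u) (hH v)
            · exact le_rfl
      _ = (∑ v, |a u v|) * (F u ^ 2 / 2 ^ γ) := by rw [sum_mul]
      _ ≤ R * (F u ^ 2 / 2 ^ γ) := mul_le_mul_of_nonneg_right (hrow u) (by positivity)
      _ = _ := by ring
  have n3 : |∑ u, ∑ v, a u v * (if (γ : ℤ) < lv (H v) - lv (F u) then H v * F u else 0)| ≤
      R / 2 ^ γ * ∑ v, H v ^ 2 := by
    rw [sum_comm]
    refine (abs_sum_le_sum_abs _ _).trans ?_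
    rw [mul_sum]
    refine sum_le_sum fun v _ => ?_
    refine (abs_sum_le_sum_abs _ _).trans ?_
    calc ∑ u, |a u v * (if (γ : ℤ) < lv (H v) - lv (F u) then H v * F u else 0)|
        ≤ ∑ u, |a u v| * (H v ^ 2 / 2 ^ γ) := by
          refine sum_le_sum fun u _ => ?_
          rw [abs_mul]
          refine mul_le_mul_of_nonneg_left ?_ (abs_nonneg _)
          rw [abs_of_nonneg]
          · exact far_le (hH v) (hF u) γ
          · split_ifs
            · exact mul_nonneg (hH v) (hF u)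
            · exact le_rfl
      _ = (∑ u, |a u v|) * (H v ^ 2 / 2 ^ γ) := by rw [sum_mul]
      _ ≤ R * (H v ^ 2 / 2 ^ γ) := mul_le_mul_of_nonneg_right (hcol v) (by positivity)
      _ = _ := by ring
  rw [e]
  refine (abs_add_le _ _).trans ?_
  have := abs_add_le
    (∑ u, ∑ v, a u v * (if (γ : ℤ) < lv (F u) - lv (H v) then F u * H v else 0))
    (∑ u, ∑ v, a u v * (if (γ : ℤ) < lv (H v) - lv (F u) then H v * F u else 0))
  linarith

private lemma gen_bound (a : ι → ι → ℝ) (α R : ℝ) (γ : ℕ) (hα : 0 ≤ α) (hR : 0 ≤ R)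
    (h : ∀ X Y : Finset ι, |∑ u ∈ X, ∑ v ∈ Y, a u v| ≤ α * Real.sqrt (X.card * Y.card))
    (hrow : ∀ u, ∑ v, |a u v| ≤ R) (hcol : ∀ v, ∑ u, |a u v| ≤ R) (F H : ι → ℝ) :
    |∑ u, ∑ v, a u v * F u * H v| ≤ 2 * (2 * α * (2 * γ + 1) + R / 2 ^ γ) *
      (∑ u, F u ^ 2 + ∑ v, H v ^ 2) := by
  set C := 2 * α * (2 * γ + 1) + R / 2 ^ γ with hC
  have key := fun (F H : ι → ℝ) => nonneg_bound a α R γ hα hR h hrow hcol F H
  have hsq : ∀ x : ℝ, (max x 0) ^ 2 + (max (-x) 0) ^ 2 = x ^ 2 := by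
    intro x
    rcases le_total 0 x with h0 | h0
    · rw [max_eq_left h0, max_eq_right (by linarith)]; ring
    · rw [max_eq_right h0, max_eq_left (by linarith)]; ring
  have hdec : ∀ x : ℝ, x = max x 0 - max (-x) 0 := by
    intro x
    rcases le_total 0 x with h0 | h0
    · rw [max_eq_left h0, max_eq_right (by linarith)]; ring
    · rw [max_eq_right h0, max_eq_left (by linarith)]; ring
  have k1 := key (fun u => max (F u) 0) (fun v => max (H v) 0) (fun u => le_max_right _ _)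
    (fun v => le_max_right _ _)
  have k2 := key (fun u => max (F u) 0) (fun v => max (-H v) 0) (fun u => le_max_right _ _)
    (fun v => le_max_right _ _)
  have k3 := key (fun u => max (-F u) 0) (fun v => max (H v) 0) (fun u => le_max_right _ _)
    (fun v => le_max_right _ _)
  have k4 := key (fun u => max (-F u) 0) (fun v => max (-H v) 0) (fun u => le_max_right _ _)
    (fun v => le_max_right _ _)
  have e : ∑ u, ∑ v, a u v * F u * H v =
      ∑ u, ∑ v, a u v * max (F u) 0 * max (H v) 0 - ∑ u, ∑ v, a u v * max (F u) 0 * max (-H v) 0 -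
      ∑ u, ∑ v, a u v * max (-F u) 0 * max (H v) 0 +
      ∑ u, ∑ v, a u v * max (-F u) 0 * max (-H v) 0 := by
    rw [← sum_sub_distrib, ← sum_sub_distrib, ← sum_add_distrib]
    refine sum_congr rfl fun u _ => ?_
    rw [← sum_sub_distrib, ← sum_sub_distrib, ← sum_add_distrib]
    refine sum_congr rfl fun v _ => ?_
    conv_lhs => rw [hdec (F u), hdec (H v)]
    ring
  have hFs : ∑ u, F u ^ 2 = ∑ u, max (F u) 0 ^ 2 + ∑ u, max (-F u) 0 ^ 2 := by
    rw [← sum_add_distrib]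
    exact sum_congr rfl fun u _ => (hsq _).symm
  have hHs : ∑ u, H u ^ 2 = ∑ u, max (H u) 0 ^ 2 + ∑ u, max (-H u) 0 ^ 2 := by
    rw [← sum_add_distrib]
    exact sum_congr rfl fun u _ => (hsq _).symm
  rw [e, hFs, hHs]
  rw [abs_le] at k1 k2 k3 k4 ⊢
  constructor <;> linarith [k1.1, k1.2, k2.1, k2.2, k3.1, k3.2, k4.1, k4.2]

theorem bilin_bound (a : ι → ι → ℝ) (α R : ℝ) (γ : ℕ) (hα : 0 ≤ α) (hR : 0 ≤ R)
    (h : ∀ X Y : Finset ι, |∑ u ∈ X, ∑ v ∈ Y, a u v| ≤ α * Real.sqrt (X.card * Y.card))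
    (hrow : ∀ u, ∑ v, |a u v| ≤ R) (hcol : ∀ v, ∑ u, |a u v| ≤ R) (F H : ι → ℝ) :
    |∑ u, ∑ v, a u v * F u * H v| ≤ (8 * α * (2 * γ + 1) + 4 * R / 2 ^ γ) *
      (Real.sqrt (∑ u, F u ^ 2) * Real.sqrt (∑ v, H v ^ 2)) := by
  set A := Real.sqrt (∑ u, F u ^ 2) with hA
  set B := Real.sqrt (∑ v, H v ^ 2) with hB
  have hA2 : A ^ 2 = ∑ u, F u ^ 2 := Real.sq_sqrt (sum_nonneg fun _ _ => sq_nonneg _)
  have hB2 : B ^ 2 = ∑ u, H u ^ 2 := Real.sq_sqrt (sum_nonneg fun _ _ => sq_nonneg _)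
  have hA0 : 0 ≤ A := Real.sqrt_nonneg _
  have hB0 : 0 ≤ B := Real.sqrt_nonneg _
  rcases hA0.eq_or_lt with h0 | h0
  · have hz : ∀ u, F u = 0 := by
      intro u
      have h1 : ∑ u, F u ^ 2 = 0 := by rw [← hA2, ← h0]; ring
      have h2 := (sum_eq_zero_iff_of_nonneg (fun _ _ => sq_nonneg _)).1 h1 u (mem_univ u)
      exact pow_eq_zero_iff (by norm_num) |>.1 h2
    rw [← h0]
    simp [hz]
  rcases hB0.eq_or_lt with h1 | h1
  · have hz : ∀ u, H u = 0 := by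
      intro u
      have h3 : ∑ u, H u ^ 2 = 0 := by rw [← hB2, ← h1]; ring
      have h2 := (sum_eq_zero_iff_of_nonneg (fun _ _ => sq_nonneg _)).1 h3 u (mem_univ u)
      exact pow_eq_zero_iff (by norm_num) |>.1 h2
    rw [← h1]
    simp [hz]
  have hg := gen_bound a α R γ hα hR h hrow hcol (fun u => F u / A) (fun v => H v / B)
  have e1 : ∑ u, ∑ v, a u v * (F u / A) * (H v / B) = (∑ u, ∑ v, a u v * F u * H v) / (A * B) := by
    rw [sum_div]
    refine sum_congr rfl fun u _ => ?_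
    rw [sum_div]
    refine sum_congr rfl fun v _ => ?_
    field_simp
  have e2 : ∑ u, (F u / A) ^ 2 = 1 := by
    simp_rw [div_pow]
    rw [← sum_div, ← hA2, div_self (by positivity)]
  have e3 : ∑ u, (H u / B) ^ 2 = 1 := by
    simp_rw [div_pow]
    rw [← sum_div, ← hB2, div_self (by positivity)]
  rw [e1, e2, e3, abs_div, abs_of_pos (mul_pos h0 h1), div_le_iff₀ (mul_pos h0 h1)] at hg
  refine hg.trans (le_of_eq ?_)
  ring

end Pool.Agent.SOSC
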