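import Pool.Agent.SOSC.PInd

/-!
# SOSC BLOCK: integrating `F * ind π`

## ev_prod_link
Let `Z` be a finite set, `g : V → V` with `g v ∉ Z` for `v ∈ Z`, and let `F` depend only on `S`,
`S ∩ Z = ∅`.  Then `E[F ∏_{v ∈ Z} 1[c v = c (g v)]] = E[F] / k^|Z|`.  Induction on `Z`: for
`v ∈ Z` the other factors and `F` do not depend on the colour of `v` (`v ∉ S`, and
`v ≠ g v'` for `v' ∈ Z`), and `av v (1[c v = c (g v)]) = 1/k` (`g v ≠ v`).

## block
Choose for every vertex `v` a representative `rep v` of its class, the same for all elements of the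
class, and in `S` if the class meets `S`.  So `π (rep v) v` and `rep (rep v) = rep v`.
`Z = {v ∉ S : rep v ≠ v}`.  For `v ∈ Z`, `rep v ∉ Z`.  If `ind π c = 1` then `c v = c (rep v)` for
all `v`, so `ind π ≤ ∏_{v ∈ Z} 1[c v = c (rep v)]`, and (1) follows from `ev_prod_link`.
(2) If `v ∉ S`, `v ∉ Z` then `v = rep v`, so the class of `v` does not meet `S` (otherwise
`rep v ∈ S`).  (3) If `v, w ∉ S ∪ Z` and `π v w` then `v = rep v = rep w = w`.
-/

set_option autoImplicit false
set_option linter.unusedSectionVars false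

namespace Pool.Agent.SOSC

open Finset

variable {V : Type*} [Fintype V] [DecidableEq V] {k : ℕ}

theorem ev_prod_link [NeZero k] {S Z : Finset V} (hSZ : Disjoint S Z) {F : Fn V k}
    (hF : DepOn S F) (g : V → V) (hg : ∀ v ∈ Z, g v ∉ Z) :
    ev (fun c => F c * ∏ v ∈ Z, (if c v = c (g v) then 1 else 0)) = ev F / (k : ℝ) ^ Z.card := by
  have hk : (k : ℝ) ≠ 0 := Nat.cast_ne_zero.2 (NeZero.ne k)
  induction Z using Finset.induction_on with
  | empty => simp
  | insert v Z hv ih =>
    have hgv : g v ∉ insert v Z := hg v (mem_insert_self v Z)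
    have hgvv : g v ≠ v := fun h => hgv (by rw [h]; exact mem_insert_self v Z)
    have hvS : v ∉ S := fun h => (Finset.disjoint_left.1 hSZ h) (mem_insert_self v Z)
    have ih' := ih (hSZ.mono_right (subset_insert v Z))
      (fun u hu h => hg u (mem_insert_of_mem hu) (mem_insert_of_mem h))
    have hdep : DepOn (univ.erase v)
        (fun c : V → Fin k => F c * ∏ u ∈ Z, (if c u = c (g u) then (1 : ℝ) else 0)) := by
      intro c c' hc
      have hc' : ∀ u, u ≠ v → c u = c' u := fun u hu => hc u (mem_erase.2 ⟨hu, mem_univ u⟩)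
      have h1 : F c = F c' := hF c c' fun u hu => hc' u fun h => hvS (h ▸ hu)
      have h2 : ∏ u ∈ Z, (if c u = c (g u) then (1 : ℝ) else 0) =
          ∏ u ∈ Z, (if c' u = c' (g u) then (1 : ℝ) else 0) := by
        refine prod_congr rfl fun u hu => ?_
        have h3 : u ≠ v := fun h => hv (h ▸ hu)
        have h4 : g u ≠ v := fun h => hg u (mem_insert_of_mem hu) (by
          rw [h]
          exact mem_insert_self v Z)
        rw [hc' u h3, hc' (g u) h4]
      simp only [h1, h2]
    have hav : ∀ c : V → Fin k, av v (fun c : V → Fin k =>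
        (if c v = c (g v) then (1 : ℝ) else 0)) c = 1 / k := by
      intro c
      unfold av
      have h1 : ∀ i : Fin k, (if Function.update c v i v = Function.update c v i (g v) then
          (1 : ℝ) else 0) = if i = c (g v) then 1 else 0 := by
        intro i
        rw [Function.update_self, Function.update_of_ne hgvv]
      simp only [h1]
      simp
    have e1 : ∀ c : V → Fin k, F c * ∏ u ∈ insert v Z, (if c u = c (g u) then (1 : ℝ) else 0) =
        (F c * ∏ u ∈ Z, (if c u = c (g u) then (1 : ℝ) else 0)) *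
          (if c v = c (g v) then 1 else 0) := by
      intro c
      rw [prod_insert hv]
      ring
    rw [ev_congr e1, ← ev_av v, av_mul (S := univ.erase v) (by simp) hdep]
    simp only [hav]
    rw [ev_mul_const, ih', card_insert_of_notMem hv, pow_succ]
    field_simp

theorem block [NeZero k] (π : Setoid V) (S : Finset V) : ∃ Z : Finset V, Disjoint S Z ∧
    (∀ F : Fn V k, DepOn S F → (∀ c, 0 ≤ F c) →
      ev (fun c => F c * ind π c) ≤ ev F / (k : ℝ) ^ Z.card) ∧
    (∀ v, v ∉ S → v ∉ Z → ∀ u, π u v → u ∉ S) ∧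
    (∀ v w, v ∉ S → w ∉ S → v ∉ Z → w ∉ Z → π v w → v = w) := by
  classical
  let R : Quotient π → V := fun q =>
    if h : ∃ u, u ∈ S ∧ (Quotient.mk π u) = q then h.choose else q.out
  have hR : ∀ q, Quotient.mk π (R q) = q := by
    intro q
    by_cases h : ∃ u, u ∈ S ∧ (Quotient.mk π u) = q
    · simp only [R, dif_pos h]
      exact h.choose_spec.2
    · simp only [R, dif_neg h]
      exact q.out_eq
  have hRS : ∀ q, (∃ u, u ∈ S ∧ (Quotient.mk π u) = q) → R q ∈ S := by
    intro q h
    simp only [R, dif_pos h]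
    exact h.choose_spec.1
  let rep : V → V := fun v => R (Quotient.mk π v)
  have hrr : ∀ v, rep (rep v) = rep v := by
    intro v
    show R (Quotient.mk π (R (Quotient.mk π v))) = R (Quotient.mk π v)
    rw [hR]
  have hrep : ∀ v, π v (rep v) := by
    intro v
    exact Quotient.exact (hR (Quotient.mk π v)).symm
  have hclass : ∀ u v, π u v → rep u = rep v := by
    intro u v h
    show R (Quotient.mk π u) = R (Quotient.mk π v)
    rw [Quotient.sound h]
  refine ⟨univ.filter (fun v => v ∉ S ∧ rep v ≠ v), ?_, ?_, ?_, ?_⟩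
  · rw [Finset.disjoint_left]
    intro v hv h
    exact (mem_filter.1 h).2.1 hv
  · intro F hF hF0
    have hdis : Disjoint S (univ.filter (fun v => v ∉ S ∧ rep v ≠ v)) := by
      rw [Finset.disjoint_left]
      intro v hv h
      exact (mem_filter.1 h).2.1 hv
    rw [← ev_prod_link hdis hF rep (fun v _ h => (mem_filter.1 h).2.2 (hrr v))]
    apply ev_mono
    intro c
    apply mul_le_mul_of_nonneg_left _ (hF0 c)
    unfold ind
    split_ifs with h
    · apply le_of_eq
      symm
      apply prod_eq_one
      intro v _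
      rw [if_pos (h v (rep v) (hrep v))]
    · apply prod_nonneg
      intro v _
      split_ifs
      · exact zero_le_one
      · exact le_refl _
  · intro v hvS hvZ u huv huS
    have h1 : rep v = v := by
      by_contra hcon
      exact hvZ (mem_filter.2 ⟨mem_univ v, hvS, hcon⟩)
    apply hvS
    rw [← h1]
    exact hRS _ ⟨u, huS, Quotient.sound huv⟩
  · intro v w hvS hwS hvZ hwZ hvw
    have h1 : rep v = v := by
      by_contra hcon
      exact hvZ (mem_filter.2 ⟨mem_univ v, hvS, hcon⟩)
    have h2 : rep w = w := by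
      by_contra hcon
      exact hwZ (mem_filter.2 ⟨mem_univ w, hwS, hcon⟩)
    rw [← h1, ← h2]
    exact hclass v w hvw

end Pool.Agent.SOSC
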