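import Pool.Agent.SOSC.Fam

/-!
# SOSC FAM2: densities of unions without edges

* `dens_union`: `h_A h_B` is a density for `A ∪ B`.  It depends only on `A ∪ B`; if `c` is not
  proper on `A ∪ B` the monochromatic edge is inside `A` or inside `B`.  Let `w ∈ W_T`,
  `T ⊆ A ∪ B`, `T_A = T ∩ A`, `T_B = T ∩ B`.  `E[w h_A h_B] = E[h_B avS A (w h_A)]`.  For fixed `c`
  the function `d ↦ w (A.piecewise d c)` equals `d ↦ w (T_A.piecewise d c)` (`w` depends only on
  `T`), which is in `W_{T_A}` by `IsW.slice`, so `avS A (w h_A) c = avS A (w rho θ A) c` by
  `IsDens.pair`.  The function `u = avS A (w rho θ A)` is in `W_{T_B}`: it depends only on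
  `T \ A = T_B`, vanishes if `c` is improper on `T_B`, and `av v u = avS A (rho θ A * av v w) = 0`
  for `v ∈ T_B` (averages commute).  So `E[h_B u] = E[rho θ B u] = E[w rho θ A rho θ B]`.
-/

set_option autoImplicit false
set_option linter.unusedSectionVars false

namespace Pool.Agent.SOSC

open Finset

variable {V : Type*} [Fintype V] [DecidableEq V] {k : ℕ}

private theorem av_avS {v : V} {A : Finset V} (hv : v ∉ A) (f : Fn V k) :
    av v (avS A f) = avS A (av v f) := by
  funext c
  simp only [av, avS]
  have h1 : ∀ d : V → Fin k, ∀ i : Fin k,
      f (A.piecewise d (Function.update c v i)) = f (Function.update (A.piecewise d c) v i) := by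
    intro d i
    congr 1
    funext u
    by_cases huv : u = v
    · subst huv; simp [hv]
    · by_cases huF : u ∈ A
      · simp [huF, huv]
      · simp [huF, huv]
  rw [div_eq_mul_inv, ← ev_sum, ← ev_mul_const]
  refine ev_congr fun d => ?_
  rw [div_eq_mul_inv]
  congr 1
  exact sum_congr rfl fun i _ => h1 d i

theorem dens_union [NeZero k] (G : SimpleGraph V) {D : ℕ} (hD : 1 ≤ D)
    (hk : (4 * D * 2 ^ D) ^ 2 ≤ k) (θ : Fin k → ℝ) {A B : Finset V} (hAB : Disjoint A B)
    (hS : (A ∪ B).card ≤ D) (hadj : ∀ u ∈ A, ∀ v ∈ B, ¬ G.Adj u v) (c : V → Fin k) :
    dens G θ (A ∪ B) c = dens G θ A c * dens G θ B c := by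
  classical
  have hA := dens_spec G hD hk θ (S := A) ((card_le_card subset_union_left).trans hS)
  have hB := dens_spec G hD hk θ (S := B) ((card_le_card subset_union_right).trans hS)
  have hU := dens_spec G hD hk θ hS
  have key : IsDens G θ (A ∪ B) (fun c => dens G θ A c * dens G θ B c) := by
    refine ⟨(hA.dep.mono subset_union_left).mul (hB.dep.mono subset_union_right), ?_, ?_⟩
    · intro c hc
      by_cases h1 : Proper G A c
      · by_cases h2 : Proper G B c
        · exfalso
          apply hc
          intro x hx y hy hxy
          rcases mem_union.1 hx with hx | hx <;> rcases mem_union.1 hy with hy | hy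
          · exact h1 x hx y hy hxy
          · exact absurd hxy (hadj x hx y hy)
          · exact absurd hxy.symm (hadj y hy x hx)
          · exact h2 x hx y hy hxy
        · simp only [hB.prop c h2, mul_zero]
      · simp only [hA.prop c h1, zero_mul]
    · intro T hT w hw
      have e1 : ev (fun c => w c * (dens G θ A c * dens G θ B c)) =
          ev (fun c => dens G θ B c * avS A (fun c => w c * dens G θ A c) c) := by
        rw [← avS_mul hAB.symm hB.dep, ev_avS]
        exact ev_congr fun c => by ring
      have e2 : ∀ c, avS A (fun c => w c * dens G θ A c) c =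
          avS A (fun c => w c * rho θ A c) c := by
        intro c
        simp only [avS]
        have h1 : ∀ d : V → Fin k, w (A.piecewise d c) = w ((T ∩ A).piecewise d c) := by
          intro d
          apply hw.dep
          intro v hv
          by_cases hvA : v ∈ A
          · simp [hv, hvA]
          · simp [hvA]
        have h2 : ∀ d : V → Fin k, dens G θ A (A.piecewise d c) = dens G θ A d := by
          intro d
          apply hA.dep
          intro v hv
          simp [hv]
        have h3 : ∀ d : V → Fin k, rho θ A (A.piecewise d c) = rho θ A d := by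
          intro d
          apply depOn_rho θ A
          intro v hv
          simp [hv]
        rw [ev_congr (fun d => by rw [h1 d, h2 d] : ∀ d : V → Fin k,
          w (A.piecewise d c) * dens G θ A (A.piecewise d c) =
            w ((T ∩ A).piecewise d c) * dens G θ A d),
          ev_congr (fun d => by rw [h1 d, h3 d] : ∀ d : V → Fin k,
          w (A.piecewise d c) * rho θ A (A.piecewise d c) =
            w ((T ∩ A).piecewise d c) * rho θ A d)]
        exact hA.pair (T ∩ A) inter_subset_right _ (hw.slice inter_subset_left c)
      have hu : IsW G (T \ A) (avS A (fun c => w c * rho θ A c)) := by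
        refine ⟨?_, ?_, ?_⟩
        · have h1 : DepOn (T ∪ A) (fun c => w c * rho θ A c) :=
            (hw.dep.mono subset_union_left).mul ((depOn_rho θ A).mono subset_union_right)
          have h2 := h1.avS A
          rwa [union_sdiff_right] at h2
        · intro c hc
          simp only [avS]
          have h1 : ∀ d : V → Fin k, w (A.piecewise d c) * rho θ A (A.piecewise d c) = 0 := by
            intro d
            rw [hw.prop, zero_mul]
            intro h
            apply hc
            intro x hx y hy hxy
            have h2 := h x (mem_sdiff.1 hx).1 y (mem_sdiff.1 hy).1 hxy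
            simpa [(mem_sdiff.1 hx).2, (mem_sdiff.1 hy).2] using h2
          rw [ev_congr h1, ev_zero]
        · intro v hv
          have hvA := (mem_sdiff.1 hv).2
          rw [av_avS hvA]
          have h1 : av v (fun c => w c * rho θ A c) = fun _ => 0 := by
            have h2 := av_mul hvA (depOn_rho (k := k) θ A) w
            rw [hw.pure v (mem_sdiff.1 hv).1] at h2
            rw [show (fun c => w c * rho θ A c) = fun c => rho θ A c * w c from
              funext fun c => mul_comm _ _, h2]
            funext c
            simp
          rw [h1]
          funext c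
          simp [avS, ev_zero]
      have hTB : T \ A ⊆ B := by
        intro x hx
        rcases mem_union.1 (hT (mem_sdiff.1 hx).1) with h | h
        · exact absurd h (mem_sdiff.1 hx).2
        · exact h
      have e3 : ev (fun c => dens G θ B c * avS A (fun c => w c * dens G θ A c) c) =
          ev (fun c => avS A (fun c => w c * rho θ A c) c * dens G θ B c) :=
        ev_congr fun c => by rw [e2 c, mul_comm]
      rw [e1, e3, hB.pair (T \ A) hTB _ hu]
      rw [ev_congr (fun c => mul_comm _ _ : ∀ c, avS A (fun c => w c * rho θ A c) c * rho θ B c =
        rho θ B c * avS A (fun c => w c * rho θ A c) c), ← avS_mul hAB.symm (depOn_rho θ B), ev_avS]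
      refine ev_congr fun c => ?_
      unfold rho
      rw [prod_union hAB]
      ring
  rw [IsDens.unique hU key]

end Pool.Agent.SOSC
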