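import Pool.Agent.SOSC.Fam

/-!
# SOSC FAM5: densities against slices of elements of `W_S`

* `dens_slice`: `d ↦ w (Y.piecewise d c)` is in `W_Y` (`IsW.slice`); use `IsDens.pair`
  (`avS Y f c = ev (fun d => f (Y.piecewise d c))`, and `dens G θ Y`, `rho θ Y` depend only on `Y`).
* `avS_rho`: expand `∏_{v ∈ Y} (1 + θ(c v))`; or by induction on `Y`: for `v ∈ Y`,
  `av v (w * (1 + θ(c v)) * g) = av v (w * θ(c v) * g)` if `g` does not depend on the colour of
  `v`, because `av v (w g) = g av v w = 0`.
-/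

set_option autoImplicit false
set_option linter.unusedSectionVars false

namespace Pool.Agent.SOSC

open Finset

variable {V : Type*} [Fintype V] [DecidableEq V] {k : ℕ}

private theorem fam5_rho (θ : Fin k → ℝ) (Y : Finset V) : DepOn Y (rho θ Y : Fn V k) := by
  intro c c' hc
  unfold rho
  exact prod_congr rfl fun v hv => by rw [hc v hv]

private theorem fam5_pw {Y : Finset V} {f : Fn V k} (hf : DepOn Y f) (d c : V → Fin k) :
    f (Y.piecewise d c) = f d :=
  hf _ _ fun v hv => by simp [hv]

theorem dens_slice [NeZero k] (G : SimpleGraph V) {D : ℕ} (hD : 1 ≤ D)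
    (hk : (4 * D * 2 ^ D) ^ 2 ≤ k) (θ : Fin k → ℝ) {S Y : Finset V} (hY : Y ⊆ S)
    (hYD : Y.card ≤ D) {w : Fn V k} (hw : IsW G S w) :
    avS Y (fun c => w c * dens G θ Y c) = avS Y (fun c => w c * rho θ Y c) := by
  have hs := dens_spec G hD hk θ hYD
  funext c
  have h := hs.pair Y (Subset.refl Y) _ (hw.slice hY c)
  have h1 : avS Y (fun c => w c * dens G θ Y c) c =
      ev (fun d => w (Y.piecewise d c) * dens G θ Y d) := by
    refine ev_congr fun d => ?_
    show w (Y.piecewise d c) * dens G θ Y (Y.piecewise d c) = _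
    rw [fam5_pw hs.dep]
  have h2 : avS Y (fun c => w c * rho θ Y c) c =
      ev (fun d => w (Y.piecewise d c) * rho θ Y d) := by
    refine ev_congr fun d => ?_
    show w (Y.piecewise d c) * rho θ Y (Y.piecewise d c) = _
    rw [fam5_pw (fam5_rho θ Y)]
  rw [h1, h2]
  exact h

private theorem fam5_zero [NeZero k] {Y : Finset V} {v : V} (hv : v ∈ Y) {f : Fn V k}
    (hf : av v f = 0) : avS Y f = 0 := by
  funext c
  have h1 : avS Y f c = ev (av v (fun d => f (Y.piecewise d c))) := by
    rw [ev_av]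
    rfl
  have h2 : av v (fun d => f (Y.piecewise d c)) = fun _ => 0 := by
    funext d
    have h3 := congrFun hf (Y.piecewise d c)
    simp only [av, Pi.zero_apply] at h3 ⊢
    rw [← h3]
    congr 1
    refine sum_congr rfl fun i _ => ?_
    congr 1
    funext u
    by_cases huv : u = v
    · subst huv; simp [hv]
    · by_cases huY : u ∈ Y <;> simp [huY, huv]
  rw [h1, h2, ev_zero]
  rfl

theorem avS_rho [NeZero k] (G : SimpleGraph V) (θ : Fin k → ℝ) {S Y : Finset V} (hY : Y ⊆ S)
    {w : Fn V k} (hw : IsW G S w) :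
    avS Y (fun c => w c * rho θ Y c) = avS Y (fun c => w c * ∏ v ∈ Y, θ (c v)) := by
  have e1 : ∀ c : V → Fin k, w c * rho θ Y c =
      ∑ T ∈ Y.powerset, w c * ∏ v ∈ T, θ (c v) := by
    intro c
    unfold rho
    rw [prod_one_add, mul_sum]
  rw [avS_congr e1, avS_sum]
  funext c
  rw [sum_eq_single Y]
  · intro T hT hne
    have hTY : T ⊆ Y := mem_powerset.1 hT
    obtain ⟨v, hvY, hvT⟩ : ∃ v, v ∈ Y ∧ v ∉ T := by
      by_contra hcon
      push Not at hcon
      exact hne (Subset.antisymm hTY hcon)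
    have hdep : DepOn T (fun c : V → Fin k => ∏ u ∈ T, θ (c u)) := by
      intro c c' hc
      exact prod_congr rfl fun u hu => by rw [hc u hu]
    have h1 : av v (fun c : V → Fin k => w c * ∏ u ∈ T, θ (c u)) = 0 := by
      have e2 : (fun c : V → Fin k => w c * ∏ u ∈ T, θ (c u)) =
          fun c => (∏ u ∈ T, θ (c u)) * w c := by
        funext c
        ring
      rw [e2, av_mul hvT hdep, hw.pure v (hY hvY)]
      funext c
      simp
    rw [fam5_zero hvY h1]
    rfl
  · intro h
    exact absurd (mem_powerset.2 (Subset.refl Y)) h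

end Pool.Agent.SOSC
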