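import Pool.Agent.SOSC.Form
import Pool.Agent.SOSC.Fam2
import Pool.Agent.SOSC.Fam5

/-!
# SOSC CANON: splitting off the far components

## canon_eq
`θ = ε τ`, `S = U ∪ F`, `T = U' ∪ F'`.  By `dens_union` twice (no edges between `U ∪ U'`, `F`,
`F'`), `dens G θ (S ∪ T) = dens(U ∪ U') dens(F) dens(F')`.  `p dens(F)` does not depend on the
colours of `F'`, `q dens(F')` not on those of `F`, `dens(U ∪ U')` on neither.  So
`E[p q dens] = E[dens(U ∪ U') avS F (p dens F) avS F' (q dens F')]`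
(`ev_avS`, `avS_mul`; `avS F (p dens F)` depends only on `U`), and by `dens_slice`, `avS_rho`,
`avS F (p dens G θ F) = avS F (p ∏_{v ∈ F} ε τ(c v)) = ε^|F| cn τ F p`.

## canon_unique
Call `Y ⊆ S \ T` closed if there is no edge between `Y` and `(S ∪ T) \ Y`.  Unions of closed sets
are closed; let `F₀` be the union of all closed subsets of `S \ T`, `F₀'` the same for `T \ S`.
Existence: `Free G (S \ F₀) (T \ F₀') F₀ F₀'` is immediate.  `Adm`: let `Y ≠ ∅`,
`Y ⊆ (S \ F₀) \ (T \ F₀')`; then `Y ⊆ S \ T` (`F₀' ∩ S = ∅`).  If `Y` had no edge to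
`((S \ F₀) ∪ (T \ F₀')) \ Y` then it had no edge to `(S ∪ T) \ Y` (there is none to `F₀`, `F₀'`),
so `Y ⊆ F₀`, contradiction.  Same for the other side.
Uniqueness: let `(F, F')` have the four properties.  `F ∩ T = ∅` and `F` has no edge to
`(S ∪ T) \ F` by `Free`, so `F ⊆ F₀`.  If `Y = F₀ \ F ≠ ∅` then `Y ⊆ (S \ F) \ (T \ F')` and `Y`
has no edge to `((S \ F) ∪ (T \ F')) \ Y` (`F₀` is closed), contradicting `Adm`.  So `F = F₀`, and
`F' = F₀'`.
-/

set_option autoImplicit false
set_option linter.unusedSectionVars false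

namespace Pool.Agent.SOSC

open Finset

variable {V : Type*} [Fintype V] [DecidableEq V] {k : ℕ}

theorem canon_depOn_prod (τ : Fin k → ℝ) (F : Finset V) :
    DepOn F (fun c : V → Fin k => ∏ v ∈ F, τ (c v)) := by
  intro c c' hc
  exact prod_congr rfl fun v hv => by rw [hc v hv]

theorem cn_dep {G : SimpleGraph V} (τ : Fin k → ℝ) {S F : Finset V} (hF : F ⊆ S) {f : Fn V k}
    (hf : IsW G S f) : DepOn (S \ F) (cn τ F f) := by
  unfold cn
  exact (hf.dep.mul ((canon_depOn_prod τ F).mono hF)).avS F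

/-- Averaging over one far component. -/
theorem avS_far [NeZero k] (G : SimpleGraph V) {D : ℕ} (hD : 1 ≤ D)
    (hk : (4 * D * 2 ^ D) ^ 2 ≤ k) (ε : ℝ) (τ : Fin k → ℝ) {S F : Finset V} (hF : F ⊆ S)
    (hFD : F.card ≤ D) {p : Fn V k} (hp : IsW G S p) :
    avS F (fun c => p c * dens G (fun i => ε * τ i) F c) = fun c => ε ^ F.card * cn τ F p c := by
  rw [dens_slice G hD hk _ hF hFD hp, avS_rho G _ hF hp]
  have h1 : ∀ c : V → Fin k, p c * ∏ v ∈ F, (ε * τ (c v)) =
      ε ^ F.card * (p c * ∏ v ∈ F, τ (c v)) := by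
    intro c
    rw [prod_mul_distrib, prod_const]
    ring
  rw [avS_congr h1, avS_smul]
  rfl

theorem canon_eq [NeZero k] (G : SimpleGraph V) {D : ℕ} (hD : 1 ≤ D)
    (hk : (4 * D * 2 ^ D) ^ 2 ≤ k) (ε : ℝ) (τ : Fin k → ℝ) {U U' F F' : Finset V}
    (hfree : Free G U U' F F') (hcard : ((U ∪ F) ∪ (U' ∪ F')).card ≤ D) {p q : Fn V k}
    (hp : IsW G (U ∪ F) p) (hq : IsW G (U' ∪ F') q) :
    ev (fun c => p c * q c * dens G (fun i => ε * τ i) ((U ∪ F) ∪ (U' ∪ F')) c) =
      ε ^ (F.card + F'.card) *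
        ev (fun c => cn τ F p c * cn τ F' q c * dens G (fun i => ε * τ i) (U ∪ U') c) := by
  obtain ⟨hd1, hd2, hd3, ha1, ha2, ha3⟩ := hfree
  set θ : Fin k → ℝ := fun i => ε * τ i with hθ
  have hset : (U ∪ F) ∪ (U' ∪ F') = (U ∪ U') ∪ (F ∪ F') := by
    ext x; simp only [mem_union]; tauto
  have hsubF : F ⊆ (U ∪ F) ∪ (U' ∪ F') := fun x hx => by simp [hx]
  have hsubF' : F' ⊆ (U ∪ F) ∪ (U' ∪ F') := fun x hx => by simp [hx]
  have hsubW : U ∪ U' ⊆ (U ∪ F) ∪ (U' ∪ F') := by rw [hset]; exact subset_union_left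
  have hFD : F.card ≤ D := (card_le_card hsubF).trans hcard
  have hFD' : F'.card ≤ D := (card_le_card hsubF').trans hcard
  have hWD : (U ∪ U').card ≤ D := (card_le_card hsubW).trans hcard
  have hdW : Disjoint (U ∪ U') (F ∪ F') := by
    rw [disjoint_union_right]; exact ⟨hd1.symm, hd2.symm⟩
  have hcard2 : ((U ∪ U') ∪ (F ∪ F')).card ≤ D := by rw [← hset]; exact hcard
  have e1 : ∀ c : V → Fin k, dens G θ ((U ∪ F) ∪ (U' ∪ F')) c =
      dens G θ (U ∪ U') c * (dens G θ F c * dens G θ F' c) := by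
    intro c
    rw [hset, dens_union G hD hk θ hdW hcard2 ?_ c,
      dens_union G hD hk θ hd3 ((card_le_card subset_union_right).trans hcard2) ha3 c]
    intro u hu v hv
    rcases mem_union.1 hv with h | h
    · exact fun huv => ha1 v h u hu huv.symm
    · exact fun huv => ha2 v h u hu huv.symm
  have depW : DepOn (U ∪ U') (dens G θ (U ∪ U')) := (dens_spec G hD hk θ hWD).dep
  have depF' : DepOn F' (dens G θ F') := (dens_spec G hD hk θ hFD').dep
  -- first step: average over `F`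
  set g : Fn V k := fun c => dens G θ (U ∪ U') c * (q c * dens G θ F' c) with hg
  have hgdep : DepOn ((U ∪ U') ∪ F') g := by
    refine (depW.mono subset_union_left).mul ((hq.dep.mono ?_).mul (depF'.mono subset_union_right))
    intro x hx
    simp only [mem_union] at hx ⊢
    tauto
  have hdisj : Disjoint ((U ∪ U') ∪ F') F := by
    rw [disjoint_union_left]; exact ⟨hd1.symm, hd3.symm⟩
  have e2 : ev (fun c => p c * q c * dens G θ ((U ∪ F) ∪ (U' ∪ F')) c) =
      ev (fun c => g c * (ε ^ F.card * cn τ F p c)) := by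
    have h1 : ∀ c : V → Fin k, p c * q c * dens G θ ((U ∪ F) ∪ (U' ∪ F')) c =
        g c * (p c * dens G θ F c) := by
      intro c; rw [e1 c, hg]; ring
    rw [ev_congr h1, ← ev_avS F, avS_mul hdisj hgdep,
      avS_far G hD hk ε τ subset_union_right hFD hp]
  -- second step: average over `F'`
  have hcdep : DepOn U (cn τ F p) := by
    refine (cn_dep τ subset_union_right hp).mono ?_
    intro x hx
    simp only [mem_sdiff, mem_union] at hx
    tauto
  set g' : Fn V k := fun c => cn τ F p c * dens G θ (U ∪ U') c with hg'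
  have hg'dep : DepOn (U ∪ U') g' := (hcdep.mono subset_union_left).mul depW
  have e3 : ev (fun c => g' c * (q c * dens G θ F' c)) =
      ev (fun c => g' c * (ε ^ F'.card * cn τ F' q c)) := by
    rw [← ev_avS F', avS_mul hd2.symm hg'dep, avS_far G hD hk ε τ subset_union_right hFD' hq]
  rw [e2]
  have h2 : ∀ c : V → Fin k, g c * (ε ^ F.card * cn τ F p c) =
      ε ^ F.card * (g' c * (q c * dens G θ F' c)) := by
    intro c; rw [hg, hg']; ring
  rw [ev_congr h2, ev_smul, e3]
  have h3 : ∀ c : V → Fin k, g' c * (ε ^ F'.card * cn τ F' q c) =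
      ε ^ F'.card * (cn τ F p c * cn τ F' q c * dens G θ (U ∪ U') c) := by
    intro c; rw [hg']; ring
  rw [ev_congr h3, ev_smul, pow_add]
  ring

open Classical in
/-- The largest subset of `S \ T` without edges to the rest of `S ∪ T`. -/
noncomputable def clo (G : SimpleGraph V) (S T : Finset V) : Finset V :=
  ((S \ T).powerset.filter
    (fun Y => ∀ y ∈ Y, ∀ x ∈ (S ∪ T) \ Y, ¬ G.Adj y x)).biUnion id

theorem clo_sub (G : SimpleGraph V) (S T : Finset V) : clo G S T ⊆ S \ T := by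
  classical
  intro x hx
  simp only [clo, mem_biUnion, mem_filter, mem_powerset, id] at hx
  obtain ⟨Y, hY, hxY⟩ := hx
  exact hY.1 hxY

theorem clo_closed (G : SimpleGraph V) (S T : Finset V) :
    ∀ y ∈ clo G S T, ∀ x ∈ (S ∪ T) \ clo G S T, ¬ G.Adj y x := by
  classical
  intro y hy x hx
  have hy' := hy
  simp only [clo, mem_biUnion, mem_filter, mem_powerset, id] at hy
  obtain ⟨Y, hY, hyY⟩ := hy
  refine hY.2 y hyY x ?_
  rw [mem_sdiff] at hx ⊢
  refine ⟨hx.1, fun hxY => hx.2 ?_⟩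
  simp only [clo, mem_biUnion, mem_filter, mem_powerset, id]
  exact ⟨Y, hY, hxY⟩

theorem sub_clo {G : SimpleGraph V} {S T Y : Finset V} (hY : Y ⊆ S \ T)
    (h : ∀ y ∈ Y, ∀ x ∈ (S ∪ T) \ Y, ¬ G.Adj y x) : Y ⊆ clo G S T := by
  classical
  intro y hy
  simp only [clo, mem_biUnion, mem_filter, mem_powerset, id]
  exact ⟨Y, ⟨hY, h⟩, hy⟩

/-- Half of the admissibility. -/
theorem half_adm (G : SimpleGraph V) (S T : Finset V) {Y : Finset V} (hne : Y.Nonempty)
    (hY : Y ⊆ (S \ clo G S T) \ (T \ clo G T S)) :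
    ∃ y ∈ Y, ∃ x ∈ ((S \ clo G S T) ∪ (T \ clo G T S)) \ Y, G.Adj y x := by
  by_contra hcon
  push Not at hcon
  have h1 := clo_sub G S T
  have h2 := clo_sub G T S
  have hYS : Y ⊆ S \ T := by
    intro y hy
    have := hY hy
    simp only [mem_sdiff, not_and, not_not] at this ⊢
    refine ⟨this.1.1, fun hT => ?_⟩
    have h3 := h2 (this.2 hT)
    simp only [mem_sdiff] at h3
    exact h3.2 this.1.1
  have hsub : Y ⊆ clo G S T := by
    refine sub_clo hYS fun y hy x hx => ?_
    have hyS := mem_sdiff.1 (hYS hy)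
    have hyc : y ∉ clo G S T := by
      have := hY hy
      simp only [mem_sdiff] at this
      exact this.1.2
    have hyc' : y ∉ clo G T S := fun h => (mem_sdiff.1 (h2 h)).2 hyS.1
    rw [mem_sdiff] at hx
    by_cases hx1 : x ∈ clo G S T
    · intro hadj
      exact clo_closed G S T x hx1 y (mem_sdiff.2 ⟨mem_union_left _ hyS.1, hyc⟩) hadj.symm
    by_cases hx2 : x ∈ clo G T S
    · intro hadj
      exact clo_closed G T S x hx2 y (mem_sdiff.2 ⟨mem_union_right _ hyS.1, hyc'⟩) hadj.symm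
    refine hcon y hy x ?_
    simp only [mem_sdiff, mem_union] at hx ⊢
    tauto
  obtain ⟨y, hy⟩ := hne
  have := hY hy
  simp only [mem_sdiff] at this
  exact this.1.2 (hsub hy)

/-- Half of the uniqueness. -/
theorem half_unique (G : SimpleGraph V) (S T : Finset V) {F F' : Finset V} (hF : F ⊆ S)
    (hF' : F' ⊆ T)
    (hadm : ∀ Y : Finset V, Y.Nonempty → Y ⊆ (S \ F) \ (T \ F') →
      ∃ y ∈ Y, ∃ x ∈ ((S \ F) ∪ (T \ F')) \ Y, G.Adj y x)
    (hd1 : Disjoint F ((S \ F) ∪ (T \ F'))) (hd3 : Disjoint F F')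
    (ha1 : ∀ x ∈ F, ∀ y ∈ (S \ F) ∪ (T \ F'), ¬ G.Adj x y)
    (ha3 : ∀ x ∈ F, ∀ y ∈ F', ¬ G.Adj x y) : F = clo G S T := by
  have hFT : ∀ x ∈ F, x ∉ T := by
    intro x hx hT
    have h1 : x ∉ F' := disjoint_left.1 hd3 hx
    exact disjoint_left.1 hd1 hx (mem_union_right _ (mem_sdiff.2 ⟨hT, h1⟩))
  have hsub : F ⊆ clo G S T := by
    refine sub_clo (fun x hx => mem_sdiff.2 ⟨hF hx, hFT x hx⟩) fun y hy x hx => ?_
    rw [mem_sdiff, mem_union] at hx
    by_cases hxF' : x ∈ F'
    · exact ha3 y hy x hxF'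
    · refine ha1 y hy x ?_
      simp only [mem_union, mem_sdiff]
      tauto
  refine subset_antisymm hsub ?_
  by_contra hne
  have hYne : (clo G S T \ F).Nonempty := by
    rw [nonempty_iff_ne_empty]
    intro h
    exact hne (sdiff_eq_empty_iff_subset.1 h)
  have hc := clo_sub G S T
  obtain ⟨y, hy, x, hx, hadj⟩ := hadm (clo G S T \ F) hYne (by
    intro y hy
    rw [mem_sdiff] at hy
    have := mem_sdiff.1 (hc hy.1)
    simp only [mem_sdiff]
    tauto)
  rw [mem_sdiff] at hy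
  refine clo_closed G S T y hy.1 x ?_ hadj
  simp only [mem_sdiff, mem_union] at hx ⊢
  tauto

theorem canon_unique (G : SimpleGraph V) (S T : Finset V) :
    ∃! x : Finset V × Finset V, x.1 ⊆ S ∧ x.2 ⊆ T ∧ Adm G (S \ x.1) (T \ x.2) ∧
      Free G (S \ x.1) (T \ x.2) x.1 x.2 := by
  have h1 := clo_sub G S T
  have h2 := clo_sub G T S
  have c1 := clo_closed G S T
  have c2 := clo_closed G T S
  refine ⟨(clo G S T, clo G T S), ⟨?_, ?_, ⟨?_, ?_⟩, ?_, ?_, ?_, ?_, ?_, ?_⟩, ?_⟩
  · exact h1.trans sdiff_subset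
  · exact h2.trans sdiff_subset
  · intro Y hne hY
    exact half_adm G S T hne hY
  · intro Y hne hY
    have := half_adm G T S hne hY
    rwa [union_comm (T \ _)] at this
  · rw [disjoint_left]
    intro x hx hx'
    have := mem_sdiff.1 (h1 hx)
    simp only [mem_union, mem_sdiff] at hx'
    tauto
  · rw [disjoint_left]
    intro x hx hx'
    have := mem_sdiff.1 (h2 hx)
    simp only [mem_union, mem_sdiff] at hx'
    tauto
  · rw [disjoint_left]
    intro x hx hx'
    exact (mem_sdiff.1 (h1 hx)).2 (mem_sdiff.1 (h2 hx')).1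
  · intro x hx y hy
    refine c1 x hx y ?_
    have hT : y ∈ S \ clo G S T ∨ y ∈ T := by
      simp only [mem_union, mem_sdiff] at hy ⊢
      tauto
    have : y ∉ clo G S T := by
      intro h
      have := mem_sdiff.1 (h1 h)
      simp only [mem_union, mem_sdiff] at hy
      tauto
    simp only [mem_union, mem_sdiff] at hy ⊢
    tauto
  · intro x hx y hy
    refine c2 x hx y ?_
    have : y ∉ clo G T S := by
      intro h
      have := mem_sdiff.1 (h2 h)
      simp only [mem_union, mem_sdiff] at hy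
      tauto
    simp only [mem_union, mem_sdiff] at hy ⊢
    tauto
  · intro x hx y hy
    refine c1 x hx y ?_
    have := mem_sdiff.1 (h2 hy)
    have : y ∉ clo G S T := fun h => this.2 (mem_sdiff.1 (h1 h)).1
    simp only [mem_union, mem_sdiff]
    tauto
  · rintro ⟨F, F'⟩ ⟨hF, hF', hadm, hd1, hd2, hd3, ha1, ha2, ha3⟩
    simp only at hF hF' hadm hd1 hd2 hd3 ha1 ha2 ha3
    have e1 : F = clo G S T := half_unique G S T hF hF' hadm.1 hd1 hd3 ha1 ha3
    have e2 : F' = clo G T S := by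
      refine half_unique G T S hF' hF ?_ ?_ hd3.symm ?_ ?_
      · intro Y hne hY
        have := hadm.2 Y hne hY
        rwa [union_comm (S \ F)] at this
      · rwa [union_comm]
      · rwa [union_comm]
      · exact fun x hx y hy h => ha3 y hy x hx h.symm
    rw [e1, e2]

end Pool.Agent.SOSC
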