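import Pool.Agent.SOSC.Form

/-!
# SOSC PT: the tilted family `pt ε τ q`

* `cn_isW`: `cn τ F f = avS F (f ∏_{v ∈ F} τ(c v))`; depends only on `(U ∪ F) \ F = U`
  (`DepOn.avS`); if `c` is improper on `U` then every `F.piecewise d c` is improper on `U ∪ F`
  (`F` is disjoint from `U`); for `v ∈ U`, `av v` commutes with `avS F` and with the factor
  `∏_{v ∈ F} τ`, and `av v f = 0`.
* `cn_sq_le`: Jensen (`ev_avS_sq_le`) and `|∏ τ| ≤ B^|F|`.
* `pt_fam`: sums of elements of `W_U`; if `|U| > r` all `q (U ∪ F)` vanish.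
* `pt_zero`: for `τ = 0` only `F = ∅` contributes.
* `pt_nrm_le`: `n = |V|`, `ε² n ≤ κ²`.  `pt_U = ∑_{m ≤ r} ∑_{|F| = m} ε^m cn_F(q_{U∪F})` (terms with
  `|F| > r` vanish), so by Cauchy–Schwarz
  `‖pt_U‖² ≤ (r+1) ∑_m (∑_{|F|=m} ε^{2m}) (∑_{|F|=m} ‖cn_F(q_{U∪F})‖²)
   ≤ (r+1) ∑_m κ^{2m} B^{2m} ∑_{|F|=m} ‖q_{U∪F}‖² ≤ (r+1)(1+κB)^{2r} ∑_F ‖q_{U∪F}‖²`
  (at most `n^m` sets `F` of size `m`).  Sum over `U`: every `S` with `q_S ≠ 0` is `U ∪ F`
  (disjoint) in `2^|S| ≤ 2^r` ways.
-/

set_option autoImplicit false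
set_option linter.unusedSectionVars false

namespace Pool.Agent.SOSC

open Finset

variable {V : Type*} [Fintype V] [DecidableEq V] {k : ℕ}

theorem pt_depOn_prod (τ : Fin k → ℝ) (F : Finset V) :
    DepOn F (fun c : V → Fin k => ∏ v ∈ F, τ (c v)) := by
  intro c c' hc
  exact prod_congr rfl fun v hv => by rw [hc v hv]

theorem av_avS_comm [NeZero k] (v : V) (F : Finset V) (f : Fn V k) :
    av v (avS F f) = avS F (av v f) := by
  induction F using Finset.induction_on with
  | empty => rw [avS_empty, avS_empty]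
  | insert u F hu ih => rw [avS_insert hu, avS_insert hu, ← ih, av_comm]

theorem avS_zero' [NeZero k] (F : Finset V) : avS F (fun _ : V → Fin k => (0 : ℝ)) = 0 := by
  funext c
  simp [avS, ev_const]

theorem cn_isW [NeZero k] (G : SimpleGraph V) (τ : Fin k → ℝ) {U F : Finset V}
    (hUF : Disjoint U F) {f : Fn V k} (hf : IsW G (U ∪ F) f) : IsW G U (cn τ F f) where
  dep := by
    unfold cn
    have h := (hf.dep.mul ((pt_depOn_prod τ F).mono subset_union_right)).avS F
    refine h.mono ?_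
    intro x hx
    simp only [mem_sdiff, mem_union] at hx
    tauto
  prop := by
    intro c hc
    unfold cn avS
    have h : ∀ d : V → Fin k, f (F.piecewise d c) * ∏ v ∈ F, τ (F.piecewise d c v) = 0 := by
      intro d
      rw [hf.prop, zero_mul]
      intro h
      apply hc
      intro u hu v hv huv
      have := h u (mem_union_left _ hu) v (mem_union_left _ hv) huv
      have h1 : u ∉ F := disjoint_left.1 hUF hu
      have h2 : v ∉ F := disjoint_left.1 hUF hv
      simpa [h1, h2] using this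
    rw [ev_congr h, ev_zero]
  pure := by
    intro v hv
    have hvF : v ∉ F := disjoint_left.1 hUF hv
    unfold cn
    rw [av_avS_comm]
    have h1 : av v (fun c : V → Fin k => f c * ∏ v ∈ F, τ (c v)) = fun _ => 0 := by
      have h2 : (fun c : V → Fin k => f c * ∏ v ∈ F, τ (c v)) =
          fun c => (∏ v ∈ F, τ (c v)) * f c := by funext c; ring
      rw [h2, av_mul hvF (pt_depOn_prod τ F) f, hf.pure v (mem_union_left _ hv)]
      funext c
      simp
    rw [h1, avS_zero']

theorem abs_prod_le_pow {τ : Fin k → ℝ} {B : ℝ} (hτ : ∀ i, |τ i| ≤ B) (F : Finset V)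
    (c : V → Fin k) : |∏ v ∈ F, τ (c v)| ≤ B ^ F.card := by
  rw [abs_prod, ← prod_const]
  exact prod_le_prod (fun v _ => abs_nonneg _) fun v _ => hτ _

theorem cn_sq_le [NeZero k] {τ : Fin k → ℝ} {B : ℝ} (hτ : ∀ i, |τ i| ≤ B) (F : Finset V)
    (f : Fn V k) : ev (fun c => cn τ F f c ^ 2) ≤ B ^ (2 * F.card) * ev (fun c => f c ^ 2) := by
  unfold cn
  refine (ev_avS_sq_le F _).trans ?_
  rw [← ev_smul]
  refine ev_mono fun c => ?_
  rw [mul_pow, mul_comm (f c ^ 2), mul_comm 2, pow_mul B]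
  refine mul_le_mul_of_nonneg_right ?_ (sq_nonneg _)
  have h := abs_prod_le_pow hτ F c
  calc (∏ v ∈ F, τ (c v)) ^ 2 = |∏ v ∈ F, τ (c v)| ^ 2 := (sq_abs _).symm
    _ ≤ (B ^ F.card) ^ 2 := pow_le_pow_left₀ (abs_nonneg _) h 2

theorem cn_zero [NeZero k] (τ : Fin k → ℝ) (F : Finset V) : cn τ F (0 : Fn V k) = 0 := by
  unfold cn
  have : (fun c : V → Fin k => (0 : Fn V k) c * ∏ v ∈ F, τ (c v)) = fun _ => 0 := by
    funext c; simp
  rw [this, avS_zero']

theorem pt_fam [NeZero k] {G : SimpleGraph V} {r : ℕ} {q : Finset V → Fn V k} (hq : Fam G r q)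
    (ε : ℝ) (τ : Fin k → ℝ) : Fam G r (pt ε τ q) where
  w := by
    intro U
    unfold pt
    refine IsW.sum fun F hF => IsW.smul _ (cn_isW G τ ?_ (hq.w (U ∪ F)))
    rw [mem_powerset] at hF
    rw [disjoint_right]
    intro x hx
    exact (mem_sdiff.1 (hF hx)).2
  big := by
    intro U hU
    funext c
    unfold pt
    refine sum_eq_zero fun F _ => ?_
    rw [hq.big (U ∪ F) (lt_of_lt_of_le hU (card_le_card subset_union_left)), cn_zero]
    simp

theorem pt_zero [NeZero k] (ε : ℝ) (q : Finset V → Fn V k) :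
    pt ε (fun _ => 0) q = q := by
  funext U c
  unfold pt
  rw [sum_eq_single_of_mem ∅ (empty_mem_powerset _)]
  · unfold cn
    have : (fun c : V → Fin k => q (U ∪ ∅) c * ∏ v ∈ (∅ : Finset V), (0 : ℝ)) = q U := by
      funext c; simp
    rw [this, avS_empty]
    simp
  · intro F _ hF
    unfold cn
    have : (fun c : V → Fin k => q (U ∪ F) c * ∏ v ∈ F, (0 : ℝ)) = fun _ => 0 := by
      funext c
      rw [prod_const, zero_pow (card_ne_zero.2 (nonempty_iff_ne_empty.2 hF)), mul_zero]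
    rw [this, avS_zero']
    simp

/-- Number of small sets with weights. -/
theorem sum_inv_pow_le (s : Finset V) (r : ℕ) :
    ∑ F ∈ s.powerset.filter (fun F => F.card ≤ r), ((Fintype.card V : ℝ)⁻¹) ^ F.card ≤ r + 1 := by
  classical
  have h1 : ∑ F ∈ s.powerset.filter (fun F => F.card ≤ r), ((Fintype.card V : ℝ)⁻¹) ^ F.card =
      ∑ m ∈ range (r + 1), ∑ F ∈ s.powersetCard m, ((Fintype.card V : ℝ)⁻¹) ^ F.card := by
    rw [← sum_fiberwise_of_maps_to (g := fun F : Finset V => F.card) (t := range (r + 1))]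
    · refine sum_congr rfl fun m hm => ?_
      refine sum_congr ?_ fun _ _ => rfl
      ext F
      simp only [mem_filter, mem_powerset, mem_powersetCard]
      rw [mem_range] at hm
      constructor
      · rintro ⟨⟨a, b⟩, c⟩; exact ⟨a, c⟩
      · rintro ⟨a, c⟩; exact ⟨⟨a, by omega⟩, c⟩
    · intro F hF
      rw [mem_filter] at hF
      exact mem_range.2 (by omega)
  rw [h1]
  calc ∑ m ∈ range (r + 1), ∑ F ∈ s.powersetCard m, ((Fintype.card V : ℝ)⁻¹) ^ F.card
      ≤ ∑ m ∈ range (r + 1), (1 : ℝ) := by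
        refine sum_le_sum fun m _ => ?_
        rw [sum_congr rfl fun F hF => by rw [(mem_powersetCard.1 hF).2], sum_const,
          card_powersetCard, nsmul_eq_mul]
        have h2 : (s.card.choose m : ℝ) ≤ (Fintype.card V : ℝ) ^ m := by
          have h3 : s.card.choose m ≤ s.card ^ m := Nat.choose_le_pow _ _
          have h4 : s.card ^ m ≤ Fintype.card V ^ m := Nat.pow_le_pow_left (card_le_univ s) m
          exact_mod_cast h3.trans h4
        calc (s.card.choose m : ℝ) * ((Fintype.card V : ℝ)⁻¹) ^ m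
            ≤ (Fintype.card V : ℝ) ^ m * ((Fintype.card V : ℝ)⁻¹) ^ m :=
              mul_le_mul_of_nonneg_right h2 (by positivity)
          _ = ((Fintype.card V : ℝ) * (Fintype.card V : ℝ)⁻¹) ^ m := by rw [mul_pow]
          _ ≤ 1 := pow_le_one₀ (by positivity) mul_inv_le_one
    _ = r + 1 := by simp

/-- Every set is a disjoint union in `2^|S|` ways. -/
theorem sum_union_reindex (g : Finset V → ℝ) :
    ∑ U : Finset V, ∑ F ∈ (univ \ U).powerset, g (U ∪ F) =
      ∑ S : Finset V, 2 ^ S.card * g S := by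
  classical
  have h1 : ∀ S : Finset V, 2 ^ S.card * g S = ∑ _U ∈ S.powerset, g S := by
    intro S
    rw [sum_const, card_powerset, nsmul_eq_mul]
    push_cast
    ring
  rw [sum_congr rfl fun S _ => h1 S, sum_sigma', sum_sigma']
  refine sum_bij' (fun x _ => ⟨x.1 ∪ x.2, x.1⟩) (fun x _ => ⟨x.2, x.1 \ x.2⟩) ?_ ?_ ?_ ?_ ?_
  · rintro ⟨U, F⟩ _
    simp only [mem_sigma, mem_univ, true_and, mem_powerset]
    exact subset_union_left
  · rintro ⟨S, U⟩ h
    simp only [mem_sigma, mem_univ, true_and, mem_powerset] at h ⊢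
    exact sdiff_subset_sdiff (subset_univ _) (Subset.refl _)
  · rintro ⟨U, F⟩ h
    simp only [mem_sigma, mem_univ, true_and, mem_powerset] at h
    have : (U ∪ F) \ U = F := by
      ext x
      simp only [mem_sdiff, mem_union]
      constructor
      · rintro ⟨h1 | h1, h2⟩
        · exact absurd h1 h2
        · exact h1
      · intro hx
        exact ⟨Or.inr hx, (mem_sdiff.1 (h hx)).2⟩
    simp only [this]
  · rintro ⟨S, U⟩ h
    simp only [mem_sigma, mem_univ, true_and, mem_powerset] at h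
    have : U ∪ S \ U = S := union_sdiff_of_subset h
    simp only [this]
  · rintro ⟨U, F⟩ _
    rfl

theorem pt_nrm_le [NeZero k] {G : SimpleGraph V} {r : ℕ} {q : Finset V → Fn V k}
    (hq : Fam G r q) {ε κ B : ℝ} (hκ : 0 ≤ κ) (hε : ε ^ 2 * Fintype.card V ≤ κ ^ 2)
    {τ : Fin k → ℝ} (hB : 0 ≤ B) (hτ : ∀ i, |τ i| ≤ B) :
    nrm (pt ε τ q) ≤ (r + 1) * (1 + κ * B) ^ (2 * r) * 2 ^ r * nrm q := by
  classical
  set n : ℝ := (Fintype.card V : ℝ) with hn
  have hn0 : 0 ≤ n := by rw [hn]; positivity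
  have hKB : 0 ≤ κ * B := mul_nonneg hκ hB
  -- bound for one set
  have hU : ∀ U : Finset V, ev (fun c => pt ε τ q U c ^ 2) ≤
      (r + 1) * (1 + κ * B) ^ (2 * r) *
        ∑ F ∈ (univ \ U).powerset, ev (fun c => q (U ∪ F) c ^ 2) := by
    intro U
    set P := (univ \ U).powerset.filter (fun F : Finset V => F.card ≤ r) with hP
    have e1 : ∀ c : V → Fin k, pt ε τ q U c =
        ∑ F ∈ P, ε ^ F.card * cn τ F (q (U ∪ F)) c := by
      intro c
      unfold pt
      rw [hP, sum_filter_of_ne]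
      intro F _ hne
      by_contra hF
      push Not at hF
      apply hne
      rw [hq.big (U ∪ F) (lt_of_lt_of_le hF (card_le_card subset_union_right)), cn_zero]
      simp
    have e2 : ∀ c : V → Fin k, pt ε τ q U c ^ 2 ≤
        (r + 1) * ∑ F ∈ P, (κ ^ 2) ^ F.card * cn τ F (q (U ∪ F)) c ^ 2 := by
      intro c
      rw [e1 c]
      have h1 : ∀ F ∈ P, ε ^ F.card * cn τ F (q (U ∪ F)) c =
          ((Real.sqrt n)⁻¹) ^ F.card *
            ((Real.sqrt n) ^ F.card * (ε ^ F.card * cn τ F (q (U ∪ F)) c)) := by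
        intro F _
        have h2 : ((Real.sqrt n)⁻¹) ^ F.card * (Real.sqrt n) ^ F.card = 1 := by
          rw [← mul_pow]
          by_cases hc : F.card = 0
          · rw [hc, pow_zero]
          · have h3 : 0 < Fintype.card V := lt_of_lt_of_le (Nat.pos_of_ne_zero hc) (card_le_univ F)
            have h4 : 0 < n := by rw [hn]; exact_mod_cast h3
            rw [inv_mul_cancel₀ (Real.sqrt_pos.2 h4).ne', one_pow]
        rw [← mul_assoc, h2, one_mul]
      rw [sum_congr rfl h1]
      refine (sum_mul_sq_le_sq_mul_sq _ _ _).trans ?_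
      have h5 : ∑ F ∈ P, (((Real.sqrt n)⁻¹) ^ F.card) ^ 2 ≤ (r : ℝ) + 1 := by
        refine le_trans (le_of_eq (sum_congr rfl fun F _ => ?_)) (sum_inv_pow_le (univ \ U) r)
        rw [← pow_mul, mul_comm, pow_mul, inv_pow, Real.sq_sqrt hn0]
      refine mul_le_mul h5 ?_ (sum_nonneg fun F _ => sq_nonneg _) (by positivity)
      refine sum_le_sum fun F _ => ?_
      have h6 : ((Real.sqrt n) ^ F.card * (ε ^ F.card * cn τ F (q (U ∪ F)) c)) ^ 2 =
          (ε ^ 2 * n) ^ F.card * cn τ F (q (U ∪ F)) c ^ 2 := by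
        have h7 : (Real.sqrt n ^ F.card) ^ 2 = n ^ F.card := by
          rw [← pow_mul, mul_comm, pow_mul, Real.sq_sqrt hn0]
        calc _ = (Real.sqrt n ^ F.card) ^ 2 * ((ε ^ F.card) ^ 2) * cn τ F (q (U ∪ F)) c ^ 2 := by
              ring
          _ = _ := by rw [h7, mul_pow, ← pow_mul, ← pow_mul, mul_comm F.card 2]; ring
      rw [h6]
      refine mul_le_mul_of_nonneg_right ?_ (sq_nonneg _)
      exact pow_le_pow_left₀ (by positivity) hε _
    calc ev (fun c => pt ε τ q U c ^ 2)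
        ≤ ev (fun c => (r + 1) * ∑ F ∈ P, (κ ^ 2) ^ F.card * cn τ F (q (U ∪ F)) c ^ 2) :=
          ev_mono e2
      _ = (r + 1) * ∑ F ∈ P, (κ ^ 2) ^ F.card * ev (fun c => cn τ F (q (U ∪ F)) c ^ 2) := by
          rw [ev_smul, ev_sum]
          congr 1
          exact sum_congr rfl fun F _ => ev_smul _ _
      _ ≤ (r + 1) * ∑ F ∈ P, (1 + κ * B) ^ (2 * r) * ev (fun c => q (U ∪ F) c ^ 2) := by
          refine mul_le_mul_of_nonneg_left (sum_le_sum fun F hF => ?_) (by positivity)
          have hFr : F.card ≤ r := (mem_filter.1 hF).2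
          have h8 := cn_sq_le hτ F (q (U ∪ F))
          calc (κ ^ 2) ^ F.card * ev (fun c => cn τ F (q (U ∪ F)) c ^ 2)
              ≤ (κ ^ 2) ^ F.card * (B ^ (2 * F.card) * ev (fun c => q (U ∪ F) c ^ 2)) :=
                mul_le_mul_of_nonneg_left h8 (by positivity)
            _ = (κ * B) ^ (2 * F.card) * ev (fun c => q (U ∪ F) c ^ 2) := by
                rw [mul_pow κ B (2 * F.card), pow_mul κ]; ring
            _ ≤ (1 + κ * B) ^ (2 * F.card) * ev (fun c => q (U ∪ F) c ^ 2) := by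
                refine mul_le_mul_of_nonneg_right ?_ (ev_nonneg fun c => sq_nonneg _)
                exact pow_le_pow_left₀ hKB (by linarith) _
            _ ≤ (1 + κ * B) ^ (2 * r) * ev (fun c => q (U ∪ F) c ^ 2) := by
                refine mul_le_mul_of_nonneg_right ?_ (ev_nonneg fun c => sq_nonneg _)
                exact pow_le_pow_right₀ (by linarith) (by omega)
      _ = (r + 1) * (1 + κ * B) ^ (2 * r) * ∑ F ∈ P, ev (fun c => q (U ∪ F) c ^ 2) := by
          rw [← mul_sum]; ring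
      _ ≤ (r + 1) * (1 + κ * B) ^ (2 * r) *
          ∑ F ∈ (univ \ U).powerset, ev (fun c => q (U ∪ F) c ^ 2) := by
          refine mul_le_mul_of_nonneg_left ?_ (by positivity)
          exact sum_le_sum_of_subset_of_nonneg (filter_subset _ _)
            fun F _ _ => ev_nonneg fun c => sq_nonneg _
  calc nrm (pt ε τ q) = ∑ U, ev (fun c => pt ε τ q U c ^ 2) := rfl
    _ ≤ ∑ U, (r + 1) * (1 + κ * B) ^ (2 * r) *
        ∑ F ∈ (univ \ U).powerset, ev (fun c => q (U ∪ F) c ^ 2) := sum_le_sum fun U _ => hU U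
    _ = (r + 1) * (1 + κ * B) ^ (2 * r) * ∑ S : Finset V, 2 ^ S.card * ev (fun c => q S c ^ 2) := by
        rw [← mul_sum, sum_union_reindex (fun S => ev (fun c => q S c ^ 2))]
    _ ≤ (r + 1) * (1 + κ * B) ^ (2 * r) * ∑ S : Finset V, 2 ^ r * ev (fun c => q S c ^ 2) := by
        refine mul_le_mul_of_nonneg_left (sum_le_sum fun S _ => ?_) (by positivity)
        by_cases hS : r < S.card
        · rw [hq.big S hS]
          have : (fun c : V → Fin k => (0 : Fn V k) c ^ 2) = fun _ => 0 := by funext c; simp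
          rw [this, ev_zero]
          simp
        · refine mul_le_mul_of_nonneg_right ?_ (ev_nonneg fun c => sq_nonneg _)
          exact pow_le_pow_right₀ (by norm_num) (by omega)
    _ = (r + 1) * (1 + κ * B) ^ (2 * r) * 2 ^ r * nrm q := by
        rw [← mul_sum]; unfold nrm; ring

end Pool.Agent.SOSC
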