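import Pool.Agent.SOSC.Form
import Pool.Agent.SOSC.Fam2
import Pool.Agent.SOSC.Fam5

/-!
# SOSC VANISH: `E[p q dens G 0 (S ∪ T)] = 0` unless `Adm G S T`

By symmetry (`adm_symm`, exchange `p` and `q`) there is a nonempty `Y ⊆ S \ T` without edges to
`R = (S ∪ T) \ Y`.  By `dens_union`, `dens G 0 (S ∪ T) = dens G 0 Y * dens G 0 R`.  `q` and
`dens G 0 R` do not depend on the colours of `Y`.  So
`E[p q dens (S ∪ T)] = E[q dens R avS Y (p dens Y)]` (`ev_avS`, `avS_mul`) and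
`avS Y (p dens G 0 Y) = avS Y (p rho 0 Y) = avS Y p = 0` (`dens_slice` with `θ = 0`, `rho 0 Y = 1`;
`p` is pure in some `y ∈ Y`: `avS_insert`, averages commute — or use `avS_rho` with `θ = 0`:
`∏_{v ∈ Y} 0 = 0` as `Y ≠ ∅`).
-/

set_option autoImplicit false
set_option linter.unusedSectionVars false

namespace Pool.Agent.SOSC

open Finset

variable {V : Type*} [Fintype V] [DecidableEq V] {k : ℕ}

theorem adm_symm {G : SimpleGraph V} {S T : Finset V} : Adm G S T ↔ Adm G T S := by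
  unfold Adm
  rw [union_comm T S]
  exact ⟨fun h => ⟨h.2, h.1⟩, fun h => ⟨h.2, h.1⟩⟩

private lemma vanish_aux [NeZero k] (G : SimpleGraph V) {D : ℕ} (hD : 1 ≤ D)
    (hk : (4 * D * 2 ^ D) ^ 2 ≤ k) {S T : Finset V} (hST : (S ∪ T).card ≤ D) {p q : Fn V k}
    (hp : IsW G S p) (hq : IsW G T q) {Y : Finset V} (hY : Y.Nonempty) (hYS : Y ⊆ S \ T)
    (hno : ∀ y ∈ Y, ∀ x ∈ (S ∪ T) \ Y, ¬ G.Adj y x) :
    ev (fun c => p c * q c * dens G 0 (S ∪ T) c) = 0 := by
  set R := (S ∪ T) \ Y with hR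
  have hYU : Y ⊆ S ∪ T := fun y hy => mem_union_left _ (mem_sdiff.1 (hYS hy)).1
  have hU : Y ∪ R = S ∪ T := union_sdiff_of_subset hYU
  have hdis : Disjoint Y R := disjoint_sdiff
  have hRD : R.card ≤ D := (card_le_card sdiff_subset).trans hST
  have hYD : Y.card ≤ D := (card_le_card hYU).trans hST
  have hTR : T ⊆ R := by
    intro v hv
    rw [hR, mem_sdiff]
    exact ⟨mem_union_right _ hv, fun h => (mem_sdiff.1 (hYS h)).2 hv⟩
  have hun : ∀ c : V → Fin k, dens G 0 (S ∪ T) c = dens G 0 Y c * dens G 0 R c := by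
    intro c
    rw [← hU]
    exact dens_union G hD hk 0 hdis (by rw [hU]; exact hST) hno c
  have hdR : DepOn R (dens G 0 R : Fn V k) := (dens_spec G hD hk 0 hRD).dep
  have hg : DepOn R (fun c => q c * dens G 0 R c) := (hq.dep.mono hTR).mul hdR
  have h1 : ev (fun c => p c * q c * dens G 0 (S ∪ T) c) =
      ev (fun c => (q c * dens G 0 R c) * (p c * dens G 0 Y c)) := by
    refine ev_congr fun c => ?_
    rw [hun]
    ring
  have h2 : avS Y (fun c => p c * dens G 0 Y c) = fun _ => 0 := by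
    rw [dens_slice G hD hk 0 (fun y hy => (mem_sdiff.1 (hYS hy)).1) hYD hp,
      avS_rho G 0 (fun y hy => (mem_sdiff.1 (hYS hy)).1) hp]
    obtain ⟨y, hy⟩ := hY
    have h3 : ∀ c : V → Fin k, p c * ∏ v ∈ Y, (0 : Fin k → ℝ) (c v) = 0 := by
      intro c
      rw [Finset.prod_eq_zero hy (by rfl), mul_zero]
    rw [avS_congr h3]
    funext c
    exact ev_zero
  rw [h1, ← ev_avS Y, avS_mul hdis.symm hg, h2]
  simp [ev_zero]

theorem vanish_of_not_adm [NeZero k] (G : SimpleGraph V) {D : ℕ} (hD : 1 ≤ D)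
    (hk : (4 * D * 2 ^ D) ^ 2 ≤ k) {S T : Finset V} (hST : (S ∪ T).card ≤ D) {p q : Fn V k}
    (hp : IsW G S p) (hq : IsW G T q) (h : ¬ Adm G S T) :
    ev (fun c => p c * q c * dens G 0 (S ∪ T) c) = 0 := by
  unfold Adm at h
  rw [not_and_or] at h
  rcases h with h | h
  · push Not at h
    obtain ⟨Y, hY, hYS, hno⟩ := h
    exact vanish_aux G hD hk hST hp hq hY hYS hno
  · push Not at h
    obtain ⟨Y, hY, hYT, hno⟩ := h
    rw [union_comm S T] at hno hST ⊢
    have := vanish_aux G hD hk hST hq hp hY hYT hno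
    rw [← this]
    refine ev_congr fun c => ?_
    ring

end Pool.Agent.SOSC
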