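import Pool.Agent.SOSC.Canon
import Pool.Agent.SOSC.Vanish
import Pool.Agent.SOSC.Pt

/-!
# SOSC COMPARE1: the two forms as sums over quadruples

`tm θ U U' F F' = ε^(|F|+|F'|) E[cn_F(q_{U∪F}) cn_F'(q_{U'∪F'}) dens G θ (U ∪ U')]`.

## frm_eq_quad (`θ = ε τ`)
For each `(S, T)` let `(F, F')` be the pair of `canon_unique`, `U = S \ F`, `U' = T \ F'`;
`canon_eq` (if `|S|, |T| ≤ r`, otherwise both sides are `0`) gives the term `tm θ U U' F F'`.  The
map `(S, T) ↦ (U, U', F, F')` is a bijection onto the set of quadruples with `F ⊆ univ \ U`,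
`F' ⊆ univ \ U'`, `Adm G U U'`, `Free G U U' F F'`; inverse `S = U ∪ F`, `T = U' ∪ F'`
(`(U ∪ F) \ F = U`).

## frm_pt_eq_quad
Expand `pt_U pt_U'`; the terms with `¬ Adm G U U'`: the whole term
`E[pt_U pt_U' dens G 0 (U ∪ U')]` vanishes by `vanish_of_not_adm` (`pt_fam`; if `|U| > r` or
`|U'| > r` then `pt = 0`).
-/

set_option autoImplicit false
set_option linter.unusedSectionVars false

namespace Pool.Agent.SOSC

open Finset

variable {V : Type*} [Fintype V] [DecidableEq V] {k : ℕ}

/-- One term of the expansion. -/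
noncomputable def tm (G : SimpleGraph V) (ε : ℝ) (τ : Fin k → ℝ) (q : Finset V → Fn V k)
    (θ : Fin k → ℝ) (U U' F F' : Finset V) : ℝ :=
  ε ^ (F.card + F'.card) *
    ev (fun c => cn τ F (q (U ∪ F)) c * cn τ F' (q (U' ∪ F')) c * dens G θ (U ∪ U') c)

/-- splitting a set into two disjoint parts -/
private theorem compare1_split (g : Finset V → Finset V → ℝ) :
    ∑ S : Finset V, ∑ F ∈ S.powerset, g (S \ F) F =
      ∑ U : Finset V, ∑ F ∈ (univ \ U).powerset, g U F := by
  rw [sum_sigma', sum_sigma']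
  refine sum_bij' (fun x _ => ⟨x.1 \ x.2, x.2⟩) (fun x _ => ⟨x.1 ∪ x.2, x.2⟩) ?_ ?_ ?_ ?_ ?_
  · rintro ⟨S, F⟩ hx
    rw [mem_sigma, mem_powerset]
    refine ⟨mem_univ _, fun x hx => ?_⟩
    simp only [mem_sdiff, mem_univ, true_and, not_and, not_not]
    intro _
    exact hx
  · rintro ⟨U, F⟩ hx
    rw [mem_sigma, mem_powerset]
    exact ⟨mem_univ _, subset_union_right⟩
  · rintro ⟨S, F⟩ hx
    rw [mem_sigma, mem_powerset] at hx
    have : (S \ F) ∪ F = S := sdiff_union_of_subset hx.2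
    show (⟨(S \ F) ∪ F, F⟩ : Σ _ : Finset V, Finset V) = ⟨S, F⟩
    rw [this]
  · rintro ⟨U, F⟩ hx
    rw [mem_sigma, mem_powerset] at hx
    have : (U ∪ F) \ F = U := by
      ext x
      simp only [mem_sdiff, mem_union]
      constructor
      · rintro ⟨h1 | h1, h2⟩
        · exact h1
        · exact absurd h1 h2
      · intro h1
        refine ⟨Or.inl h1, fun h2 => ?_⟩
        exact (mem_sdiff.1 (hx.2 h2)).2 h1
    show (⟨(U ∪ F) \ F, F⟩ : Σ _ : Finset V, Finset V) = ⟨U, F⟩
    rw [this]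
  · rintro ⟨S, F⟩ hx
    rfl

private theorem compare1_cn0 (τ : Fin k → ℝ) (F : Finset V) (c : V → Fin k) :
    cn τ F (0 : Fn V k) c = 0 := by
  unfold cn avS
  simp [ev_zero]

/-- the terms with `q (U ∪ F) = 0` or `q (U' ∪ F') = 0` vanish -/
private theorem compare1_tm0 (G : SimpleGraph V) (ε : ℝ) (τ : Fin k → ℝ) (q : Finset V → Fn V k)
    (θ : Fin k → ℝ) (U U' F F' : Finset V) (h : q (U ∪ F) = 0 ∨ q (U' ∪ F') = 0) :
    tm G ε τ q θ U U' F F' = 0 := by
  unfold tm
  have : ∀ c, cn τ F (q (U ∪ F)) c * cn τ F' (q (U' ∪ F')) c * dens G θ (U ∪ U') c = 0 := by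
    intro c
    rcases h with h | h
    · rw [h, compare1_cn0, zero_mul, zero_mul]
    · rw [h, compare1_cn0, mul_zero, zero_mul]
  rw [ev_congr this, ev_zero, mul_zero]

open Classical in
private theorem compare1_term [NeZero k] (G : SimpleGraph V) {r : ℕ} (hr : 1 ≤ r)
    (hk : (4 * (2 * r) * 2 ^ (2 * r)) ^ 2 ≤ k) (ε : ℝ) (τ : Fin k → ℝ)
    {q : Finset V → Fn V k} (hq : Fam G r q) (S T : Finset V) :
    ev (fun c => q S c * q T c * dens G (fun i => ε * τ i) (S ∪ T) c) =
      ∑ F ∈ S.powerset, ∑ F' ∈ T.powerset,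
        (if Adm G (S \ F) (T \ F') ∧ Free G (S \ F) (T \ F') F F' then
          tm G ε τ q (fun i => ε * τ i) (S \ F) (T \ F') F F' else 0) := by
  obtain ⟨⟨F0, F0'⟩, ⟨h1, h2, h3, h4⟩, huniq⟩ := canon_unique G S T
  dsimp only at h1 h2 h3 h4
  have e1 : ∀ F ∈ S.powerset, ∀ F' ∈ T.powerset, (F, F') ≠ (F0, F0') →
      (if Adm G (S \ F) (T \ F') ∧ Free G (S \ F) (T \ F') F F' then
          tm G ε τ q (fun i => ε * τ i) (S \ F) (T \ F') F F' else 0) = 0 := by
    intro F hF F' hF' hne
    rw [if_neg]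
    rintro ⟨h5, h6⟩
    exact hne (huniq (F, F') ⟨mem_powerset.1 hF, mem_powerset.1 hF', h5, h6⟩)
  rw [sum_eq_single F0, sum_eq_single F0', if_pos ⟨h3, h4⟩]
  · have hS : (S \ F0) ∪ F0 = S := sdiff_union_of_subset h1
    have hT : (T \ F0') ∪ F0' = T := sdiff_union_of_subset h2
    by_cases hc : S.card ≤ r ∧ T.card ≤ r
    · have hcard : (((S \ F0) ∪ F0) ∪ ((T \ F0') ∪ F0')).card ≤ 2 * r := by
        rw [hS, hT]
        refine (card_union_le _ _).trans ?_
        omega
      have h := canon_eq G (by omega : 1 ≤ 2 * r) hk ε τ h4 hcard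
        (by rw [hS]; exact hq.w S) (by rw [hT]; exact hq.w T)
      rw [hS, hT] at h
      unfold tm
      rw [hS, hT]
      exact h
    · have h0 : q S = 0 ∨ q T = 0 := by
        by_cases h5 : S.card ≤ r
        · right
          exact hq.big T (by
            by_contra h6
            exact hc ⟨h5, by omega⟩)
        · left
          exact hq.big S (by omega)
      rw [compare1_tm0 G ε τ q _ _ _ _ _ (by rw [hS, hT]; exact h0)]
      have h7 : ∀ c, q S c * q T c * dens G (fun i => ε * τ i) (S ∪ T) c = 0 := by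
        intro c
        rcases h0 with h | h
        · rw [h]
          simp
        · rw [h]
          simp
      rw [ev_congr h7, ev_zero]
  · intro F' hF' hne
    exact e1 F0 (mem_powerset.2 h1) F' hF' fun h => hne (congrArg Prod.snd h)
  · intro h
    exact absurd (mem_powerset.2 h2) h
  · intro F hF hne
    exact sum_eq_zero fun F' hF' => e1 F hF F' hF' fun h => hne (congrArg Prod.fst h)
  · intro h
    exact absurd (mem_powerset.2 h1) h

open Classical in
theorem frm_eq_quad [NeZero k] (G : SimpleGraph V) {r : ℕ} (hr : 1 ≤ r)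
    (hk : (4 * (2 * r) * 2 ^ (2 * r)) ^ 2 ≤ k) (ε : ℝ) (τ : Fin k → ℝ)
    {q : Finset V → Fn V k} (hq : Fam G r q) :
    frm G (fun i => ε * τ i) q =
      ∑ U, ∑ U', ∑ F ∈ (univ \ U).powerset, ∑ F' ∈ (univ \ U').powerset,
        (if Adm G U U' ∧ Free G U U' F F' then
          tm G ε τ q (fun i => ε * τ i) U U' F F' else 0) := by
  unfold frm
  have h1 : ∀ S T : Finset V, ev (fun c => q S c * q T c * dens G (fun i => ε * τ i) (S ∪ T) c) =
      ∑ F ∈ S.powerset, ∑ F' ∈ T.powerset,
        (if Adm G (S \ F) (T \ F') ∧ Free G (S \ F) (T \ F') F F' then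
          tm G ε τ q (fun i => ε * τ i) (S \ F) (T \ F') F F' else 0) := fun S T =>
    compare1_term G hr hk ε τ hq S T
  simp only [h1]
  have h2 : ∀ S : Finset V, ∑ T : Finset V, ∑ F ∈ S.powerset, ∑ F' ∈ T.powerset,
        (if Adm G (S \ F) (T \ F') ∧ Free G (S \ F) (T \ F') F F' then
          tm G ε τ q (fun i => ε * τ i) (S \ F) (T \ F') F F' else 0) =
      ∑ F ∈ S.powerset, (fun U F => ∑ U' : Finset V, ∑ F' ∈ (univ \ U').powerset,
        (if Adm G U U' ∧ Free G U U' F F' then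
          tm G ε τ q (fun i => ε * τ i) U U' F F' else 0)) (S \ F) F := by
    intro S
    rw [sum_comm]
    refine sum_congr rfl fun F _ => ?_
    exact compare1_split fun U' F' => (if Adm G (S \ F) U' ∧ Free G (S \ F) U' F F' then
          tm G ε τ q (fun i => ε * τ i) (S \ F) U' F F' else 0)
  simp only [h2]
  rw [compare1_split fun U F => ∑ U' : Finset V, ∑ F' ∈ (univ \ U').powerset,
        (if Adm G U U' ∧ Free G U U' F F' then
          tm G ε τ q (fun i => ε * τ i) U U' F F' else 0)]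
  refine sum_congr rfl fun U _ => ?_
  rw [sum_comm]

open Classical in
theorem frm_pt_eq_quad [NeZero k] (G : SimpleGraph V) {r : ℕ} (hr : 1 ≤ r)
    (hk : (4 * (2 * r) * 2 ^ (2 * r)) ^ 2 ≤ k) (ε : ℝ) (τ : Fin k → ℝ)
    {q : Finset V → Fn V k} (hq : Fam G r q) :
    frm G (fun _ => 0) (pt ε τ q) =
      ∑ U, ∑ U', ∑ F ∈ (univ \ U).powerset, ∑ F' ∈ (univ \ U').powerset,
        (if Adm G U U' then tm G ε τ q (fun _ => 0) U U' F F' else 0) := by
  unfold frm
  refine sum_congr rfl fun U _ => sum_congr rfl fun U' _ => ?_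
  by_cases hA : Adm G U U'
  · simp only [if_pos hA]
    have h1 : ∀ c, pt ε τ q U c * pt ε τ q U' c * dens G (fun _ => 0) (U ∪ U') c =
        ∑ F ∈ (univ \ U).powerset, ∑ F' ∈ (univ \ U').powerset,
          ε ^ (F.card + F'.card) * (cn τ F (q (U ∪ F)) c * cn τ F' (q (U' ∪ F')) c *
            dens G (fun _ => 0) (U ∪ U') c) := by
      intro c
      unfold pt
      rw [sum_mul_sum, sum_mul]
      refine sum_congr rfl fun F _ => ?_
      rw [sum_mul]
      refine sum_congr rfl fun F' _ => ?_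
      rw [pow_add]
      ring
    rw [ev_congr h1, ev_sum]
    refine sum_congr rfl fun F _ => ?_
    rw [show (fun c => ∑ F' ∈ (univ \ U').powerset,
          ε ^ (F.card + F'.card) * (cn τ F (q (U ∪ F)) c * cn τ F' (q (U' ∪ F')) c *
            dens G (fun _ => 0) (U ∪ U') c)) = (fun c => ∑ F' ∈ (univ \ U').powerset,
          (fun F' => fun c => ε ^ (F.card + F'.card) * (cn τ F (q (U ∪ F)) c *
            cn τ F' (q (U' ∪ F')) c * dens G (fun _ => 0) (U ∪ U') c)) F' c) from rfl, ev_sum]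
    refine sum_congr rfl fun F' _ => ?_
    unfold tm
    rw [← ev_smul]
  · simp only [if_neg hA, sum_const_zero]
    have hf := pt_fam hq ε τ
    by_cases hc : U.card ≤ r ∧ U'.card ≤ r
    · exact vanish_of_not_adm G (by omega : 1 ≤ 2 * r) hk
        ((card_union_le _ _).trans (by omega)) (hf.w U) (hf.w U') hA
    · have h0 : pt ε τ q U = 0 ∨ pt ε τ q U' = 0 := by
        by_cases h5 : U.card ≤ r
        · right
          exact hf.big U' (by
            by_contra h6
            exact hc ⟨h5, by omega⟩)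
        · left
          exact hf.big U (by omega)
      have h7 : ∀ c, pt ε τ q U c * pt ε τ q U' c * dens G (fun _ => 0) (U ∪ U') c = 0 := by
        intro c
        rcases h0 with h | h
        · rw [h]
          simp
        · rw [h]
          simp
      rw [ev_congr h7, ev_zero]

end Pool.Agent.SOSC
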