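import Pool.Agent.SOSC.Form

/-!
# SOSC COUNT: counting the sets `T` with `Adm G S T`; Schur test

## Att
`Att G S X`: the set `X` is obtained from `∅` by adding one by one vertices outside `S` adjacent to
`S` or to a previous vertex.

## att_of_adm
Let `X = T \ S`.  Take a maximal `X' ⊆ X` with `Att G S X'` (`∅` is one).  If `X' ≠ X`, the set
`Y = X \ X'` is nonempty, so by `Adm` some `y ∈ Y` is adjacent to some
`x ∈ (S ∪ T) \ Y = S ∪ X'`, and `insert y X'` is larger.  Contradiction.

## card_att
The number of `X` with `Att G S X`, `|X| = b` is at most `((|S| + b) Δ)^b`: induction on `b`; every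
such `X`, `b ≥ 1`, is `insert x X'` with `Att G S X'`, `|X'| = b - 1`, `x` in the neighbourhood of
`S ∪ X'`, which has at most `(|S| + b - 1) Δ` elements.

## card_adm
`T` is determined by `T ∩ S` (at most `2^|S|` possibilities) and `T \ S`; `|S| ≤ r`, `b ≤ r` (if
`b > r` there is no such `T`).

## schur
Cauchy–Schwarz: `(∑_{N i j} x_i y_j)² ≤ (∑_{N i j} x_i²)(∑_{N i j} y_j²) ≤ (R ∑ x_i²)(C ∑ y_j²)`
(restrict all sums to `x_i ≠ 0`, `y_j ≠ 0`).
-/

set_option autoImplicit false
set_option linter.unusedSectionVars false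

namespace Pool.Agent.SOSC

open Finset

variable {V : Type*} [Fintype V] [DecidableEq V] {k : ℕ}

/-- Sets built from `∅` by adding vertices adjacent to `S` or to previous vertices. -/
inductive Att (G : SimpleGraph V) (S : Finset V) : Finset V → Prop
  | empty : Att G S ∅
  | step {X : Finset V} {x u : V} : Att G S X → x ∉ S → x ∉ X → u ∈ S ∪ X → G.Adj x u →
      Att G S (insert x X)

theorem att_of_adm {G : SimpleGraph V} {S T : Finset V} (h : Adm G S T) : Att G S (T \ S) := by
  have key : ∀ n ≤ (T \ S).card, ∃ X' ⊆ T \ S, Att G S X' ∧ X'.card = n := by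
    intro n
    induction n with
    | zero => exact fun _ => ⟨∅, empty_subset _, Att.empty, card_empty⟩
    | succ n ih =>
      intro hn
      obtain ⟨X', hX, hA, hc⟩ := ih (by omega)
      have hne : ((T \ S) \ X').Nonempty := by
        rw [← card_pos, card_sdiff_of_subset hX]; omega
      obtain ⟨y, hy, x, hx, hyx⟩ := h.2 _ hne sdiff_subset
      rw [mem_sdiff, mem_sdiff] at hy
      have hx' : x ∈ S ∪ X' := by
        simp only [mem_sdiff, mem_union, not_and, not_not] at hx ⊢
        tauto
      refine ⟨insert y X', ?_, Att.step hA hy.1.2 hy.2 hx' hyx, by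
        rw [card_insert_of_notMem hy.2, hc]⟩
      intro z hz
      rcases mem_insert.1 hz with rfl | hz
      · exact mem_sdiff.2 hy.1
      · exact hX hz
  obtain ⟨X', hX, hA, hc⟩ := key _ le_rfl
  rw [← eq_of_subset_of_card_le hX hc.ge]
  exact hA

open Classical in
theorem card_att {G : SimpleGraph V} {Δ : ℕ} (hΔ : MaxDeg G Δ) (S : Finset V) (b : ℕ) :
    (univ.filter (fun X : Finset V => Att G S X ∧ X.card = b)).card ≤ ((S.card + b) * Δ) ^ b := by
  induction b with
  | zero =>
    rw [pow_zero]
    refine card_le_one.2 fun X hX Y hY => ?_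
    rw [mem_filter] at hX hY
    rw [card_eq_zero.1 hX.2.2, card_eq_zero.1 hY.2.2]
  | succ b ih =>
    set F := univ.filter (fun X : Finset V => Att G S X ∧ X.card = b) with hF
    have hsub : univ.filter (fun X : Finset V => Att G S X ∧ X.card = b + 1) ⊆
        F.biUnion (fun X' => ((S ∪ X').biUnion (fun u => nb G u)).image (fun x => insert x X')) := by
      intro X hX
      rw [mem_filter] at hX
      obtain ⟨-, hA, hc⟩ := hX
      cases hA with
      | empty => simp at hc
      | @step X' x u hA' hxS hxX hu hadj =>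
        rw [card_insert_of_notMem hxX] at hc
        rw [mem_biUnion]
        refine ⟨X', ?_, ?_⟩
        · rw [hF, mem_filter]
          exact ⟨mem_univ _, hA', by omega⟩
        · rw [mem_image]
          refine ⟨x, ?_, rfl⟩
          rw [mem_biUnion]
          exact ⟨u, hu, by unfold nb; rw [mem_filter]; exact ⟨mem_univ _, hadj.symm⟩⟩
    refine le_trans (card_le_card hsub) ?_
    refine le_trans (card_biUnion_le_card_mul F _ ((S.card + b) * Δ) ?_) ?_
    · intro X' hX'
      rw [hF, mem_filter] at hX'
      refine le_trans card_image_le ?_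
      refine le_trans (card_biUnion_le_card_mul _ _ Δ fun u _ => hΔ u) ?_
      apply Nat.mul_le_mul_right
      exact le_trans (card_union_le _ _) (by rw [hX'.2.2])
    · rw [pow_succ]
      apply Nat.mul_le_mul
      · refine le_trans ih (Nat.pow_le_pow_left ?_ _)
        apply Nat.mul_le_mul_right
        omega
      · apply Nat.mul_le_mul_right
        omega

open Classical in
theorem card_adm {G : SimpleGraph V} {Δ r : ℕ} (hΔ : MaxDeg G Δ) {S : Finset V}
    (hS : S.card ≤ r) (b : ℕ) :
    (univ.filter (fun T : Finset V => T.card ≤ r ∧ Adm G S T ∧ (T \ S).card = b)).card ≤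
      2 ^ r * (2 * r * Δ) ^ b := by
  by_cases hb : r < b
  · have : univ.filter (fun T : Finset V => T.card ≤ r ∧ Adm G S T ∧ (T \ S).card = b) = ∅ := by
      rw [filter_eq_empty_iff]
      rintro T - ⟨h1, -, h3⟩
      have := card_le_card (sdiff_subset (s := T) (t := S))
      omega
    rw [this, card_empty]
    exact Nat.zero_le _
  push Not at hb
  have hinj : (univ.filter (fun T : Finset V => T.card ≤ r ∧ Adm G S T ∧ (T \ S).card = b)).card ≤
      (S.powerset ×ˢ (univ.filter (fun X : Finset V => Att G S X ∧ X.card = b))).card := by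
    refine card_le_card_of_injOn (fun T => (T ∩ S, T \ S)) ?_ ?_
    · intro T hT
      rw [mem_coe, mem_filter] at hT
      rw [mem_coe, mem_product, mem_powerset, mem_filter]
      exact ⟨inter_subset_right, mem_univ _, att_of_adm hT.2.2.1, hT.2.2.2⟩
    · intro T _ T' _ hTT
      simp only [Prod.mk.injEq] at hTT
      rw [← sdiff_union_inter T S, ← sdiff_union_inter T' S, hTT.1, hTT.2]
  refine le_trans hinj ?_
  rw [card_product, card_powerset]
  apply Nat.mul_le_mul
  · exact Nat.pow_le_pow_right (by norm_num) hS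
  · refine le_trans (card_att hΔ S b) (Nat.pow_le_pow_left ?_ _)
    apply Nat.mul_le_mul_right
    omega

theorem schur {ι κ : Type*} [Fintype ι] [Fintype κ] (N : ι → κ → Prop)
    [∀ i j, Decidable (N i j)] (x : ι → ℝ) (y : κ → ℝ) (R C : ℝ) (hR : 0 ≤ R) (hC : 0 ≤ C)
    (hrow : ∀ i, x i ≠ 0 → ((univ.filter (fun j => N i j)).card : ℝ) ≤ R)
    (hcol : ∀ j, y j ≠ 0 → ((univ.filter (fun i => N i j)).card : ℝ) ≤ C) :
    ∑ i, ∑ j, (if N i j then |x i| * |y j| else 0) ≤
      Real.sqrt (R * C) * (Real.sqrt (∑ i, x i ^ 2) * Real.sqrt (∑ j, y j ^ 2)) := by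
  have h1 : ∑ i, ∑ j, (if N i j then |x i| * |y j| else 0) =
      ∑ p : ι × κ, (if N p.1 p.2 then |x p.1| else 0) * (if N p.1 p.2 then |y p.2| else 0) := by
    rw [← univ_product_univ, sum_product]
    refine sum_congr rfl fun i _ => sum_congr rfl fun j _ => ?_
    by_cases h : N i j <;> simp [h]
  have h2 : ∑ p : ι × κ, (if N p.1 p.2 then |x p.1| else 0) ^ 2 ≤ R * ∑ i, x i ^ 2 := by
    rw [← univ_product_univ, sum_product, mul_sum]
    refine sum_le_sum fun i _ => ?_
    have e : ∑ j, (if N i j then |x i| else 0) ^ 2 =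
        ((univ.filter (fun j => N i j)).card : ℝ) * x i ^ 2 := by
      have : ∀ j, (if N i j then |x i| else 0) ^ 2 = if N i j then x i ^ 2 else 0 := by
        intro j
        split_ifs <;> simp
      simp only [this]
      rw [← sum_filter, sum_const, nsmul_eq_mul]
    simp only
    rw [e]
    by_cases hx : x i = 0
    · simp [hx]
    · exact mul_le_mul_of_nonneg_right (hrow i hx) (sq_nonneg _)
  have h3 : ∑ p : ι × κ, (if N p.1 p.2 then |y p.2| else 0) ^ 2 ≤ C * ∑ j, y j ^ 2 := by
    rw [← univ_product_univ, sum_product_right, mul_sum]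
    refine sum_le_sum fun j _ => ?_
    have e : ∑ i, (if N i j then |y j| else 0) ^ 2 =
        ((univ.filter (fun i => N i j)).card : ℝ) * y j ^ 2 := by
      have : ∀ i, (if N i j then |y j| else 0) ^ 2 = if N i j then y j ^ 2 else 0 := by
        intro i
        split_ifs <;> simp
      simp only [this]
      rw [← sum_filter, sum_const, nsmul_eq_mul]
    simp only
    rw [e]
    by_cases hy : y j = 0
    · simp [hy]
    · exact mul_le_mul_of_nonneg_right (hcol j hy) (sq_nonneg _)
  rw [h1]
  refine le_trans (Real.sum_mul_le_sqrt_mul_sqrt _ _ _) ?_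
  have hX : 0 ≤ ∑ i, x i ^ 2 := sum_nonneg fun i _ => sq_nonneg _
  have hY : 0 ≤ ∑ j, y j ^ 2 := sum_nonneg fun i _ => sq_nonneg _
  calc _ ≤ Real.sqrt (R * ∑ i, x i ^ 2) * Real.sqrt (C * ∑ j, y j ^ 2) := by
        gcongr
    _ = _ := by
        rw [Real.sqrt_mul hR, Real.sqrt_mul hC, Real.sqrt_mul hR]; ring

end Pool.Agent.SOSC
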