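import Pool.Agent.SOSC.Fam

/-!
# SOSC FAM4: crude bounds for the densities

* `sq_le_ev` : there are `k^(n - |S|)` colourings which agree with `c` on `S`, and `h` has the same
  value on them.
* `dens_close`: apply `exists_dens` to `ρ = rho θ S - 1`; the resulting `F P` has the same integrals
  against `W_T` as `dens G θ S - dens G 0 S`, so they are equal by `eq_zero_of_orth`.  Since
  `|rho θ S c - 1| ≤ (1+η)^D - 1 ≤ 2^D η`, `E[(F P)²] ≤ 2^(D+1) (2^D η)²`, and `sq_le_ev` gives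
  `|F P|² ≤ k^D 2^(D+1) 4^D η² ≤ (k^D 2^(2D+1) η)²`.
* `dens_bound`: the same with `ρ = rho θ S`, `|ρ| ≤ 2^D`.
-/

set_option autoImplicit false
set_option linter.unusedSectionVars false

namespace Pool.Agent.SOSC

open Finset

variable {V : Type*} [Fintype V] [DecidableEq V] {k : ℕ}

private theorem le_ev [NeZero k] : ∀ (n : ℕ) (S : Finset V) (f : Fn V k), S.card = n →
    DepOn S f → (∀ c, 0 ≤ f c) → ∀ c, f c ≤ (k : ℝ) ^ n * ev f := by
  have hk : (0 : ℝ) < k := by
    have := NeZero.ne k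
    positivity
  intro n
  induction n with
  | zero =>
    intro S f hS hf _ c
    have hS0 : S = ∅ := card_eq_zero.1 hS
    subst hS0
    have h1 : ev f = f c := by
      rw [ev_congr (g := fun _ => f c) (fun d => hf d c (by simp)), ev_const]
    rw [pow_zero, one_mul, h1]
  | succ n ih =>
    intro S f hS hf h0 c
    obtain ⟨v, hv⟩ : S.Nonempty := by
      rw [← card_pos]; omega
    have h1 : f c ≤ k * av v f c := by
      unfold av
      rw [mul_div_cancel₀ _ hk.ne']
      have h2 : f (Function.update c v (c v)) ≤ ∑ i : Fin k, f (Function.update c v i) :=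
        single_le_sum (f := fun i => f (Function.update c v i)) (fun i _ => h0 _) (mem_univ (c v))
      rwa [Function.update_eq_self] at h2
    have h2 := ih (S.erase v) (av v f) (by rw [card_erase_of_mem hv, hS]; rfl) (hf.av v)
      (fun c => div_nonneg (sum_nonneg fun i _ => h0 _) hk.le) c
    rw [ev_av] at h2
    calc f c ≤ k * av v f c := h1
      _ ≤ k * ((k : ℝ) ^ n * ev f) := mul_le_mul_of_nonneg_left h2 hk.le
      _ = (k : ℝ) ^ (n + 1) * ev f := by ring

theorem sq_le_ev [NeZero k] {D : ℕ} {S : Finset V} (hS : S.card ≤ D) {h : Fn V k}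
    (hh : DepOn S h) (c : V → Fin k) : h c ^ 2 ≤ (k : ℝ) ^ D * ev (fun c => h c ^ 2) := by
  have hk : (1 : ℝ) ≤ k := by
    have := Nat.one_le_iff_ne_zero.2 (NeZero.ne k)
    exact_mod_cast this
  have h1 := le_ev S.card S (fun c => h c ^ 2) rfl (fun c c' hc => by simp only [hh c c' hc])
    (fun c => sq_nonneg _) c
  refine h1.trans ?_
  exact mul_le_mul_of_nonneg_right (pow_le_pow_right₀ hk hS) (ev_nonneg fun c => sq_nonneg _)

private theorem key_bound [NeZero k] (G : SimpleGraph V) {D : ℕ} (hD : 1 ≤ D)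
    (hk : (4 * D * 2 ^ D) ^ 2 ≤ k) {S : Finset V} (hS : S.card ≤ D) {h ρ : Fn V k}
    (hdep : DepOn S h) (hprop : ∀ c, ¬ Proper G S c → h c = 0)
    (hpair : ∀ T ⊆ S, ∀ w : Fn V k, IsW G T w → ev (fun c => w c * h c) = ev (fun c => w c * ρ c))
    {B : ℝ} (hB : ∀ c, |ρ c| ≤ B) (c : V → Fin k) : |h c| ≤ (k : ℝ) ^ D * 2 ^ (D + 1) * B := by
  have hk1 : (1 : ℝ) ≤ k := by
    have := Nat.one_le_iff_ne_zero.2 (NeZero.ne k)
    exact_mod_cast this
  have hB0 : 0 ≤ B := (abs_nonneg _).trans (hB c)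
  obtain ⟨w, hw1, hw2, hw3⟩ := exists_dens G D hD hk S hS ρ
  set g : Fn V k := fun c => (∑ T' ∈ S.powerset, w T' c) * pind G S c with hg
  have hgdep : DepOn S g := by
    refine DepOn.mul (DepOn.sum fun T hT => ?_) (depOn_pind G S)
    exact (hw1 T (mem_powerset.1 hT)).dep.mono (mem_powerset.1 hT)
  have hgprop : ∀ c, ¬ Proper G S c → g c = 0 := by
    intro c hc
    simp [hg, pind, hc]
  have h0 : (fun c => h c - g c) = (0 : Fn V k) := by
    refine eq_zero_of_orth G S _ (hdep.sub hgdep) ?_ ?_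
    · intro c hc
      rw [hprop c hc, hgprop c hc, sub_zero]
    · intro T hT u hu
      have e1 : ev (fun c => u c * (h c - g c)) = ev (fun c => u c * h c) -
          ev (fun c => u c * g c) := by
        rw [← ev_sub]
        exact ev_congr fun c => by ring
      rw [e1, hpair T hT u hu, hw2 T hT u hu, sub_self]
  have hhg : h = g := by
    funext c
    have := congrFun h0 c
    exact sub_eq_zero.1 this
  have h1 := sq_le_ev hS hdep c
  have h2 : ev (fun c => h c ^ 2) ≤ 2 ^ (D + 1) * B ^ 2 := by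
    rw [hhg]
    refine hw3.trans (mul_le_mul_of_nonneg_left ?_ (by positivity))
    calc ev (fun c => ρ c ^ 2) ≤ ev (fun _ : V → Fin k => B ^ 2) :=
          ev_mono fun c => by
            rw [← sq_abs]
            exact pow_le_pow_left₀ (abs_nonneg _) (hB c) 2
      _ = B ^ 2 := ev_const _
  have hkD : (1 : ℝ) ≤ (k : ℝ) ^ D := one_le_pow₀ hk1
  have h2D : (1 : ℝ) ≤ 2 ^ (D + 1) := one_le_pow₀ (by norm_num)
  have h3 : h c ^ 2 ≤ ((k : ℝ) ^ D * 2 ^ (D + 1) * B) ^ 2 := by
    calc h c ^ 2 ≤ (k : ℝ) ^ D * (2 ^ (D + 1) * B ^ 2) :=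
          h1.trans (mul_le_mul_of_nonneg_left h2 (by positivity))
      _ = ((k : ℝ) ^ D * 2 ^ (D + 1)) * B ^ 2 := by ring
      _ ≤ ((k : ℝ) ^ D * 2 ^ (D + 1)) ^ 2 * B ^ 2 := by
          refine mul_le_mul_of_nonneg_right ?_ (sq_nonneg _)
          have h4 : (1 : ℝ) ≤ (k : ℝ) ^ D * 2 ^ (D + 1) := one_le_mul_of_one_le_of_one_le hkD h2D
          nlinarith
      _ = _ := by ring
  exact abs_le_of_sq_le_sq h3 (by positivity)

private theorem rho_close {θ : Fin k → ℝ} {η : ℝ} (hη0 : 0 ≤ η) (hη : η ≤ 1)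
    (hθ : ∀ i, |θ i| ≤ η) (S : Finset V) (c : V → Fin k) :
    |rho θ S c - 1| ≤ (2 ^ S.card - 1) * η ∧ |rho θ S c| ≤ 2 ^ S.card := by
  induction S using Finset.induction_on with
  | empty => simp [rho]
  | insert v S hv ih =>
    have e1 : rho θ (insert v S) c = (1 + θ (c v)) * rho θ S c := by
      unfold rho
      rw [prod_insert hv]
    rw [e1, card_insert_of_notMem hv]
    have h1 : |1 + θ (c v)| ≤ 2 := by
      calc |1 + θ (c v)| ≤ |(1 : ℝ)| + |θ (c v)| := abs_add_le _ _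
        _ ≤ 2 := by rw [abs_one]; linarith [hθ (c v)]
    constructor
    · have e2 : (1 + θ (c v)) * rho θ S c - 1 = (rho θ S c - 1) + θ (c v) * rho θ S c := by ring
      rw [e2]
      calc |(rho θ S c - 1) + θ (c v) * rho θ S c|
          ≤ |rho θ S c - 1| + |θ (c v) * rho θ S c| := abs_add_le _ _
        _ = |rho θ S c - 1| + |θ (c v)| * |rho θ S c| := by rw [abs_mul]
        _ ≤ (2 ^ S.card - 1) * η + η * 2 ^ S.card :=
            add_le_add ih.1 (mul_le_mul (hθ _) ih.2 (abs_nonneg _) hη0)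
        _ = _ := by rw [pow_succ]; ring
    · rw [abs_mul, pow_succ, mul_comm ((2 : ℝ) ^ S.card)]
      exact mul_le_mul h1 ih.2 (abs_nonneg _) (by norm_num)

theorem dens_close [NeZero k] (G : SimpleGraph V) {D : ℕ} (hD : 1 ≤ D)
    (hk : (4 * D * 2 ^ D) ^ 2 ≤ k) {θ : Fin k → ℝ} {η : ℝ} (hη : η ≤ 1) (hθ : ∀ i, |θ i| ≤ η)
    {S : Finset V} (hS : S.card ≤ D) (c : V → Fin k) :
    |dens G θ S c - dens G 0 S c| ≤ (k : ℝ) ^ D * 2 ^ (2 * D + 1) * η := by
  have hη0 : 0 ≤ η := (abs_nonneg _).trans (hθ ⟨0, Nat.pos_of_ne_zero (NeZero.ne k)⟩)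
  have d1 := dens_spec G hD hk θ hS
  have d2 := dens_spec G hD hk (0 : Fin k → ℝ) hS
  have h2D : (2 : ℝ) ^ S.card ≤ 2 ^ D := pow_le_pow_right₀ (by norm_num) hS
  have h := key_bound G hD hk hS (h := fun c => dens G θ S c - dens G 0 S c)
    (ρ := fun c => rho θ S c - rho 0 S c) (d1.dep.sub d2.dep)
    (fun c hc => by simp only [d1.prop c hc, d2.prop c hc, sub_zero])
    (fun T hT w hw => by
      have e1 : ev (fun c => w c * (dens G θ S c - dens G 0 S c)) =
          ev (fun c => w c * dens G θ S c) - ev (fun c => w c * dens G 0 S c) := by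
        rw [← ev_sub]; exact ev_congr fun c => by ring
      have e2 : ev (fun c => w c * (rho θ S c - rho 0 S c)) =
          ev (fun c => w c * rho θ S c) - ev (fun c => w c * rho 0 S c) := by
        rw [← ev_sub]; exact ev_congr fun c => by ring
      rw [e1, e2, d1.pair T hT w hw, d2.pair T hT w hw])
    (B := 2 ^ D * η) (fun c => by
      have h1 := (rho_close hη0 hη hθ S c).1
      have e1 : rho (0 : Fin k → ℝ) S c = 1 := by simp [rho]
      rw [e1]
      refine h1.trans ?_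
      have : (2 : ℝ) ^ S.card - 1 ≤ 2 ^ D := by linarith
      exact mul_le_mul_of_nonneg_right this hη0) c
  refine h.trans (le_of_eq ?_)
  have : (2 : ℝ) ^ (2 * D + 1) = 2 ^ (D + 1) * 2 ^ D := by rw [← pow_add]; congr 1; ring
  rw [this]; ring

theorem dens_bound [NeZero k] (G : SimpleGraph V) {D : ℕ} (hD : 1 ≤ D)
    (hk : (4 * D * 2 ^ D) ^ 2 ≤ k) {θ : Fin k → ℝ} (hθ : ∀ i, |θ i| ≤ 1)
    {S : Finset V} (hS : S.card ≤ D) (c : V → Fin k) :
    |dens G θ S c| ≤ (k : ℝ) ^ D * 2 ^ (2 * D + 1) := by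
  have d1 := dens_spec G hD hk θ hS
  have h2D : (2 : ℝ) ^ S.card ≤ 2 ^ D := pow_le_pow_right₀ (by norm_num) hS
  have h := key_bound G hD hk hS d1.dep d1.prop d1.pair
    (B := 2 ^ D) (fun c => (rho_close zero_le_one le_rfl hθ S c).2.trans h2D) c
  refine h.trans (le_of_eq ?_)
  have : (2 : ℝ) ^ (2 * D + 1) = 2 ^ (D + 1) * 2 ^ D := by rw [← pow_add]; congr 1; ring
  rw [this]; ring

end Pool.Agent.SOSC
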