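import Pool.Agent.SOSC.Compare1
import Pool.Agent.SOSC.Count
import Pool.Agent.SOSC.Fam4

/-!
# SOSC COMPARE2: `|frm G (ε τ) q - frm G 0 (pt ε τ q)| ≤ K n^{-1/2} nrm q`

`ε = κ/√n`, `x_S = (E[q_S²])^{1/2}`, `∑ x_S² = nrm q`, `D = 2r`, `A = k^D 2^(2D+1)`.
By `frm_eq_quad`, `frm_pt_eq_quad` the difference is the sum over the quadruples with `Adm G U U'`,
`F ∩ U = ∅`, `F' ∩ U' = ∅` of
* `tm (ετ) - tm 0` if `Free`: absolute value at most
  `ε^(m+m') B^(m+m') A (ε B) x_{U∪F} x_{U'∪F'}` (`m = |F|`, `m' = |F'|`; `dens_close` with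
  `η = ε B ≤ 1`, `|E[f g h]| ≤ sup|h| ‖f‖ ‖g‖`, `cn_sq_le`);
* `- tm 0` if not `Free`: absolute value at most `ε^(m+m') B^(m+m') A x_{U∪F} x_{U'∪F'}`
  (`dens_bound`).
All terms vanish unless `|U ∪ F| ≤ r`, `|U' ∪ F'| ≤ r`.

Counting.  Let `K_A = (r+1) 2^r (2rΔ+1)^r`, a bound for the number of `U'` with `|U'| ≤ r`,
`Adm G U U'` for given `U`, `|U| ≤ r` (`card_adm` summed over `b ≤ r`), and vice versa.
The number of `F'` with `|F'| = m'` is at most `n^m'`; the number of those which meet a given set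
of `z` elements is at most `z n^(m'-1)`.
Not free (given `F ∩ U = ∅`, `F' ∩ U' = ∅`) implies one of: (i) `F` meets `N[U ∪ U']`
(at most `2r(Δ+1)` vertices), (ii) `F'` meets `N[U ∪ U']`, (iii) `F` meets `N[F']` (equivalently
`F'` meets `N[F]`; at most `r(Δ+1)` vertices).  (`N[X]` = `X` and its neighbours.)
Apply `schur` for fixed `(m, m')` with index sets `{(U,F)}`, `{(U',F')}` and `x_{(U,F)} = x_{U∪F}`
(set it to `0` unless `F ∩ U = ∅`, `|F| = m`); `∑_{(U,F)} x_{(U,F)}² ≤ 2^r nrm q`.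
* Free terms: rows `≤ K_A n^m'`, columns `≤ K_A n^m`: total `≤ A B^(m+m'+1) ε^(m+m'+1) K_A n^((m+m')/2) 2^r nrm q
  = A B^.. κ^(m+m'+1) K_A 2^r n^{-1/2} nrm q`.
* (i): rows `≤ K_A n^m'`, columns (for fixed `(U',F')`) `≤ K_A 2r(Δ+1) n^(m-1)`: total
  `≤ A B^(m+m') ε^(m+m') K_A 2r(Δ+1) n^((m+m'-1)/2) 2^r nrm q ≤ (const) n^{-1/2} nrm q`; (ii) the same.
* (iii): rows `≤ K_A r(Δ+1) n^(m'-1)`, columns `≤ K_A r(Δ+1) n^(m-1)`: `≤ (const) n^{-1} nrm q`.
Sum over `m, m' ≤ r`.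
-/

set_option autoImplicit false
set_option linter.unusedSectionVars false

namespace Pool.Agent.SOSC

open Finset

variable {V : Type*} [Fintype V] [DecidableEq V] {k : ℕ}

/-! ### counting without decidability -/

open Classical in
/-- number of elements with a property -/
noncomputable def cnt {α : Type*} [Fintype α] (p : α → Prop) : ℕ := (univ.filter p).card

theorem cnt_eq {α : Type*} [Fintype α] (p : α → Prop) [DecidablePred p] :
    (univ.filter p).card = cnt p := by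
  unfold cnt
  congr

theorem cnt_mono {α : Type*} [Fintype α] {p q : α → Prop} (h : ∀ a, p a → q a) :
    cnt p ≤ cnt q := by
  classical
  unfold cnt
  refine card_le_card fun a ha => ?_
  rw [mem_filter] at ha ⊢
  exact ⟨ha.1, h a ha.2⟩

open Classical in
/-- indicator weight -/
noncomputable def iw (p : Prop) (a : ℝ) : ℝ := if p then a else 0

theorem iw_pos {p : Prop} (h : p) (a : ℝ) : iw p a = a := if_pos h

theorem iw_neg {p : Prop} (h : ¬ p) (a : ℝ) : iw p a = 0 := if_neg h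

theorem iw_nonneg {p : Prop} {a : ℝ} (h : 0 ≤ a) : 0 ≤ iw p a := by
  unfold iw; split_ifs
  · exact h
  · exact le_rfl

/-! ### neighbourhoods and counting -/

/-- closed neighbourhood -/
noncomputable def NBH (G : SimpleGraph V) (X : Finset V) : Finset V :=
  X ∪ X.biUnion (fun x => nb G x)

theorem mem_NBH {G : SimpleGraph V} {X : Finset V} {v : V} :
    v ∈ NBH G X ↔ v ∈ X ∨ ∃ x ∈ X, G.Adj x v := by
  classical
  unfold NBH nb
  rw [mem_union, mem_biUnion]
  simp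

theorem NBH_card {G : SimpleGraph V} {Δ : ℕ} (hΔ : MaxDeg G Δ) (X : Finset V) :
    (NBH G X).card ≤ X.card * (Δ + 1) := by
  unfold NBH
  refine le_trans (card_union_le _ _) ?_
  have := card_biUnion_le_card_mul X (fun x => nb G x) Δ fun x _ => hΔ x
  calc X.card + (X.biUnion fun x => nb G x).card ≤ X.card + X.card * Δ := by omega
    _ = _ := by ring

/-- number of admissible sets -/
def KAd (r Δ : ℕ) : ℕ := (r + 1) * (2 ^ r * (2 * r * Δ + 1) ^ r)

theorem card_ka {G : SimpleGraph V} {Δ r : ℕ} (hΔ : MaxDeg G Δ) {S : Finset V}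
    (hS : S.card ≤ r) : cnt (fun T : Finset V => T.card ≤ r ∧ Adm G S T) ≤ KAd r Δ := by
  classical
  rw [← cnt_eq]
  have hsub : univ.filter (fun T : Finset V => T.card ≤ r ∧ Adm G S T) ⊆
      (range (r + 1)).biUnion (fun b =>
        univ.filter (fun T : Finset V => T.card ≤ r ∧ Adm G S T ∧ (T \ S).card = b)) := by
    intro T hT
    rw [mem_filter] at hT
    rw [mem_biUnion]
    refine ⟨(T \ S).card, ?_, ?_⟩
    · rw [mem_range]
      have := card_le_card (sdiff_subset (s := T) (t := S))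
      omega
    · rw [mem_filter]
      exact ⟨mem_univ _, hT.2.1, hT.2.2, rfl⟩
  refine le_trans (card_le_card hsub) ?_
  refine le_trans (card_biUnion_le_card_mul _ _ (2 ^ r * (2 * r * Δ + 1) ^ r) ?_) ?_
  · intro b hb
    rw [mem_range] at hb
    have h := card_adm hΔ hS b
    rw [cnt_eq] at h ⊢
    refine le_trans h ?_
    apply Nat.mul_le_mul_left
    calc (2 * r * Δ) ^ b ≤ (2 * r * Δ + 1) ^ b := Nat.pow_le_pow_left (by omega) _
      _ ≤ (2 * r * Δ + 1) ^ r := Nat.pow_le_pow_right (by omega) (by omega)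
  · rw [card_range]
    exact le_rfl

theorem card_F (m : ℕ) : cnt (fun F : Finset V => F.card = m) ≤ Fintype.card V ^ m := by
  classical
  rw [← cnt_eq]
  have : univ.filter (fun F : Finset V => F.card = m) ⊆ powersetCard m univ := by
    intro F hF
    rw [mem_filter] at hF
    rw [mem_powersetCard]
    exact ⟨subset_univ _, hF.2⟩
  refine le_trans (card_le_card this) ?_
  rw [card_powersetCard, card_univ]
  exact Nat.choose_le_pow _ _

theorem card_meet (hn : 0 < Fintype.card V) (Z : Finset V) (m : ℕ) :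
    (cnt (fun F : Finset V => F.card = m ∧ ∃ v ∈ F, v ∈ Z) : ℝ) ≤
      Z.card * (Fintype.card V : ℝ) ^ m / Fintype.card V := by
  classical
  rw [← cnt_eq]
  have hn' : (0 : ℝ) < Fintype.card V := by exact_mod_cast hn
  rcases Nat.eq_zero_or_pos m with hm | hm
  · have : univ.filter (fun F : Finset V => F.card = m ∧ ∃ v ∈ F, v ∈ Z) = ∅ := by
      rw [filter_eq_empty_iff]
      rintro F - ⟨h1, v, hv, -⟩
      rw [hm, card_eq_zero] at h1
      rw [h1] at hv
      exact absurd hv (notMem_empty _)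
    rw [this]
    simp only [card_empty, Nat.cast_zero]
    positivity
  · obtain ⟨m', rfl⟩ : ∃ m', m = m' + 1 := ⟨m - 1, by omega⟩
    have hsub : univ.filter (fun F : Finset V => F.card = m' + 1 ∧ ∃ v ∈ F, v ∈ Z) ⊆
        (Z ×ˢ powersetCard m' univ).image (fun p => insert p.1 p.2) := by
      intro F hF
      rw [mem_filter] at hF
      obtain ⟨-, hc, v, hv, hvZ⟩ := hF
      rw [mem_image]
      refine ⟨(v, F.erase v), ?_, insert_erase hv⟩
      rw [mem_product, mem_powersetCard]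
      exact ⟨hvZ, subset_univ _, by rw [card_erase_of_mem hv, hc]; rfl⟩
    have h1 : (univ.filter (fun F : Finset V => F.card = m' + 1 ∧ ∃ v ∈ F, v ∈ Z)).card ≤
        Z.card * Fintype.card V ^ m' := by
      refine le_trans (card_le_card hsub) (le_trans card_image_le ?_)
      rw [card_product, card_powersetCard, card_univ]
      exact Nat.mul_le_mul_left _ (Nat.choose_le_pow _ _)
    have h2 : (Z.card * (Fintype.card V : ℝ) ^ (m' + 1) / Fintype.card V) =
        Z.card * (Fintype.card V : ℝ) ^ m' := by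
      rw [pow_succ]; field_simp
    rw [h2]
    exact_mod_cast h1

theorem card_pairs (P : Finset V → Prop) (Q : Finset V → Finset V → Prop) {a : ℕ} {b : ℝ}
    (h1 : cnt P ≤ a) (hb : 0 ≤ b) (h2 : ∀ T, P T → (cnt (fun F => Q T F) : ℝ) ≤ b) :
    (cnt (fun p : Finset V × Finset V => P p.1 ∧ Q p.1 p.2) : ℝ) ≤ a * b := by
  classical
  rw [← cnt_eq] at h1
  rw [← cnt_eq]
  have hsub : univ.filter (fun p : Finset V × Finset V => P p.1 ∧ Q p.1 p.2) ⊆
      (univ.filter P).biUnion (fun T => (univ.filter (fun F => Q T F)).image (fun F => (T, F))) := by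
    rintro ⟨T, F⟩ h
    rw [mem_filter] at h
    rw [mem_biUnion]
    refine ⟨T, mem_filter.2 ⟨mem_univ _, h.2.1⟩, ?_⟩
    rw [mem_image]
    exact ⟨F, mem_filter.2 ⟨mem_univ _, h.2.2⟩, rfl⟩
  have h3 : (univ.filter (fun p : Finset V × Finset V => P p.1 ∧ Q p.1 p.2)).card ≤
      ∑ T ∈ univ.filter P, (univ.filter (fun F => Q T F)).card := by
    refine le_trans (card_le_card hsub) (le_trans card_biUnion_le ?_)
    exact sum_le_sum fun T _ => card_image_le
  calc ((univ.filter (fun p : Finset V × Finset V => P p.1 ∧ Q p.1 p.2)).card : ℝ) ≤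
      ((∑ T ∈ univ.filter P, (univ.filter (fun F => Q T F)).card : ℕ) : ℝ) := by exact_mod_cast h3
    _ = ∑ T ∈ univ.filter P, ((univ.filter (fun F => Q T F)).card : ℝ) := by push_cast; rfl
    _ ≤ ∑ T ∈ univ.filter P, b := sum_le_sum fun T hT => by
        have := h2 T (mem_filter.1 hT).2
        rwa [← cnt_eq] at this
    _ = (univ.filter P).card * b := by rw [sum_const, nsmul_eq_mul]
    _ ≤ a * b := by
        have : ((univ.filter P).card : ℝ) ≤ a := by exact_mod_cast h1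
        gcongr

/-! ### the weights -/

open Classical in
/-- the weight of the pair `(U, F)` -/
noncomputable def yy (x : Finset V → ℝ) (m : ℕ) (p : Finset V × Finset V) : ℝ :=
  if Disjoint p.1 p.2 ∧ p.2.card = m then x (p.1 ∪ p.2) else 0

theorem yy_nonneg {x : Finset V → ℝ} (hx : ∀ S, 0 ≤ x S) (m : ℕ) (p : Finset V × Finset V) :
    0 ≤ yy x m p := by
  unfold yy; split_ifs
  · exact hx _
  · exact le_rfl

theorem yy_card {x : Finset V → ℝ} {r : ℕ} (hxr : ∀ S : Finset V, r < S.card → x S = 0) {m : ℕ}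
    {p : Finset V × Finset V} (h : yy x m p ≠ 0) : p.1.card ≤ r ∧ p.2.card ≤ r := by
  unfold yy at h
  split_ifs at h with h1
  · have h2 : (p.1 ∪ p.2).card ≤ r := by
      by_contra hc
      exact h (hxr _ (by omega))
    rw [card_union_of_disjoint h1.1] at h2
    constructor <;> omega
  · exact absurd rfl h

theorem yy_sum {x : Finset V → ℝ} {r : ℕ} (hxr : ∀ S : Finset V, r < S.card → x S = 0)
    (m : ℕ) : ∑ p, yy x m p ^ 2 ≤ 2 ^ r * ∑ S, x S ^ 2 := by
  classical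
  have h1 : ∑ p, yy x m p ^ 2 ≤
      ∑ p ∈ univ.filter (fun p : Finset V × Finset V => Disjoint p.1 p.2), x (p.1 ∪ p.2) ^ 2 := by
    rw [sum_filter]
    refine sum_le_sum fun p _ => ?_
    unfold yy
    by_cases hd : Disjoint p.1 p.2
    · by_cases hm : p.2.card = m
      · rw [if_pos ⟨hd, hm⟩, if_pos hd]
      · rw [if_neg (fun h => hm h.2), if_pos hd]
        have := sq_nonneg (x (p.1 ∪ p.2))
        simpa using this
    · rw [if_neg (fun h => hd h.1), if_neg hd]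
      simp
  have h2 : ∑ p ∈ univ.filter (fun p : Finset V × Finset V => Disjoint p.1 p.2),
      x (p.1 ∪ p.2) ^ 2 = ∑ s ∈ (univ : Finset (Finset V)).sigma (fun S => S.powerset),
        x s.1 ^ 2 := by
    refine sum_bij' (fun p _ => ⟨p.1 ∪ p.2, p.2⟩) (fun s _ => (s.1 \ s.2, s.2)) ?_ ?_ ?_ ?_ ?_
    · intro p _
      rw [mem_sigma]
      exact ⟨mem_univ _, mem_powerset.2 subset_union_right⟩
    · intro s _
      rw [mem_filter]
      exact ⟨mem_univ _, sdiff_disjoint⟩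
    · intro p hp
      rw [mem_filter] at hp
      simp only
      rw [union_sdiff_cancel_right hp.2]
    · rintro ⟨S, F⟩ hs
      rw [mem_sigma, mem_powerset] at hs
      simp only at hs ⊢
      rw [sdiff_union_of_subset hs.2]
    · intro p _
      rfl
  refine le_trans h1 ?_
  rw [h2, sum_sigma, mul_sum]
  refine sum_le_sum fun S _ => ?_
  simp only
  rw [sum_const, card_powerset, nsmul_eq_mul]
  by_cases hS : r < S.card
  · rw [hxr S hS]; simp
  · have h3 : (2 : ℝ) ^ S.card ≤ 2 ^ r := pow_le_pow_right₀ (by norm_num) (by omega)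
    push_cast
    gcongr

/-- Schur test for pairs -/
theorem sch {x : Finset V → ℝ} (hx : ∀ S, 0 ≤ x S) {r : ℕ}
    (hxr : ∀ S : Finset V, r < S.card → x S = 0) (hn : 0 < Fintype.card V) {m m' : ℕ}
    (N : Finset V × Finset V → Finset V × Finset V → Prop) {R C P : ℝ} (hR : 0 ≤ R) (hC : 0 ≤ C)
    (hP : 0 ≤ P) (hRC : R * C ≤ P ^ 2 * (Fintype.card V : ℝ) ^ (m + m') / Fintype.card V)
    (hrow : ∀ i, yy x m i ≠ 0 → (cnt (fun j => N i j) : ℝ) ≤ R)
    (hcol : ∀ j, yy x m' j ≠ 0 → (cnt (fun i => N i j) : ℝ) ≤ C) :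
    ∑ i, ∑ j, iw (N i j) (yy x m i * yy x m' j) ≤
      P * Real.sqrt (Fintype.card V) ^ (m + m') / Real.sqrt (Fintype.card V) *
        (2 ^ r * ∑ S, x S ^ 2) := by
  have hn' : (0 : ℝ) < Fintype.card V := by exact_mod_cast hn
  classical
  have h := schur N (yy x m) (yy x m') R C hR hC
    (fun i hi => by rw [cnt_eq]; exact hrow i hi) (fun j hj => by rw [cnt_eq]; exact hcol j hj)
  simp only [abs_of_nonneg (yy_nonneg hx _ _)] at h
  have h' : ∑ i, ∑ j, iw (N i j) (yy x m i * yy x m' j) =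
      ∑ i, ∑ j, (if N i j then yy x m i * yy x m' j else 0) := by
    refine sum_congr rfl fun i _ => sum_congr rfl fun j _ => ?_
    by_cases hN : N i j
    · rw [iw_pos hN, if_pos hN]
    · rw [iw_neg hN, if_neg hN]
  rw [h']
  refine le_trans h ?_
  have hXX : 0 ≤ ∑ S, x S ^ 2 := sum_nonneg fun S _ => sq_nonneg _
  apply mul_le_mul ?_ ?_ (by positivity) (by positivity)
  · rw [Real.sqrt_le_iff]
    refine ⟨by positivity, le_trans hRC (le_of_eq ?_)⟩
    rw [div_pow, mul_pow, ← pow_mul, mul_comm (m + m') 2, pow_mul, Real.sq_sqrt hn'.le]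
  · have h1 := yy_sum hxr m
    have h2 := yy_sum hxr m'
    have hXX2 : 0 ≤ 2 ^ r * ∑ S, x S ^ 2 := by positivity
    calc Real.sqrt (∑ i, yy x m i ^ 2) * Real.sqrt (∑ j, yy x m' j ^ 2) ≤
        Real.sqrt (2 ^ r * ∑ S, x S ^ 2) * Real.sqrt (2 ^ r * ∑ S, x S ^ 2) := by gcongr
      _ = _ := Real.mul_self_sqrt hXX2

/-! ### one term -/

theorem ev_prod_le {f g h : Fn V k} {M : ℝ} (hM : ∀ c, |h c| ≤ M) :
    |ev (fun c => f c * g c * h c)| ≤
      M * (Real.sqrt (ev fun c => f c ^ 2) * Real.sqrt (ev fun c => g c ^ 2)) := by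
  have h1 := abs_ev_mul_le (fun c => |f c|) (fun c => |g c|)
  simp only [sq_abs] at h1
  have hM0 : 0 ≤ M ∨ IsEmpty (V → Fin k) := by
    by_cases hne : Nonempty (V → Fin k)
    · exact Or.inl (le_trans (abs_nonneg _) (hM hne.some))
    · exact Or.inr (not_nonempty_iff.1 hne)
  rcases hM0 with hM0 | hE
  · calc |ev (fun c => f c * g c * h c)| ≤ ev (fun c => |f c * g c * h c|) := abs_ev_le _
      _ ≤ ev (fun c => M * (|f c| * |g c|)) := by
          refine ev_mono fun c => ?_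
          rw [abs_mul, abs_mul, mul_comm M]
          exact mul_le_mul_of_nonneg_left (hM c) (by positivity)
      _ = M * ev (fun c => |f c| * |g c|) := ev_smul _ _
      _ ≤ _ := mul_le_mul_of_nonneg_left (le_trans (le_abs_self _) h1) hM0
  · have e : ∀ f : Fn V k, ev f = 0 := by
      intro f
      simp [ev]
    simp [e]

theorem tm_le [NeZero k] {ε B : ℝ} (hε : 0 ≤ ε) (hB : 0 ≤ B) {τ : Fin k → ℝ}
    (hτ : ∀ i, |τ i| ≤ B) {p q h : Fn V k} {M : ℝ} (hM0 : 0 ≤ M) (hM : ∀ c, |h c| ≤ M)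
    (F F' : Finset V) :
    |ε ^ (F.card + F'.card) * ev (fun c => cn τ F p c * cn τ F' q c * h c)| ≤
      M * (ε * B) ^ (F.card + F'.card) *
        (Real.sqrt (ev fun c => p c ^ 2) * Real.sqrt (ev fun c => q c ^ 2)) := by
  have hs : ∀ (F : Finset V) (f : Fn V k), Real.sqrt (ev fun c => cn τ F f c ^ 2) ≤
      B ^ F.card * Real.sqrt (ev fun c => f c ^ 2) := by
    intro F f
    rw [Real.sqrt_le_iff]
    refine ⟨by positivity, ?_⟩
    rw [mul_pow, Real.sq_sqrt (ev_nonneg fun c => sq_nonneg _), ← pow_mul, mul_comm F.card 2]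
    exact cn_sq_le hτ F f
  rw [abs_mul, abs_of_nonneg (by positivity : 0 ≤ ε ^ (F.card + F'.card))]
  have h1 := ev_prod_le (f := cn τ F p) (g := cn τ F' q) hM
  calc ε ^ (F.card + F'.card) * |ev (fun c => cn τ F p c * cn τ F' q c * h c)| ≤
      ε ^ (F.card + F'.card) * (M * ((B ^ F.card * Real.sqrt (ev fun c => p c ^ 2)) *
        (B ^ F'.card * Real.sqrt (ev fun c => q c ^ 2)))) := by
        refine mul_le_mul_of_nonneg_left (le_trans h1 ?_) (by positivity)
        refine mul_le_mul_of_nonneg_left ?_ hM0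
        exact mul_le_mul (hs F p) (hs F' q) (Real.sqrt_nonneg _) (by positivity)
    _ = _ := by rw [mul_pow, pow_add, pow_add]; ring

theorem cn_zero' (τ : Fin k → ℝ) (F : Finset V) : cn τ F (0 : Fn V k) = 0 := by
  funext c
  simp [cn, avS, ev_zero]

theorem not_free_cases {G : SimpleGraph V} {U U' F F' : Finset V} (h : ¬ Free G U U' F F') :
    (∃ v ∈ F, v ∈ NBH G (U ∪ U')) ∨ (∃ v ∈ F', v ∈ NBH G (U ∪ U')) ∨
      (∃ v ∈ F, v ∈ NBH G F') := by
  by_contra hc
  push Not at hc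
  obtain ⟨c1, c2, c3⟩ := hc
  apply h
  simp only [mem_NBH, not_or, not_exists, not_and] at c1 c2 c3
  refine ⟨?_, ?_, ?_, ?_, ?_, ?_⟩
  · exact disjoint_left.2 fun v hv hv' => (c1 v hv).1 hv'
  · exact disjoint_left.2 fun v hv hv' => (c2 v hv).1 hv'
  · exact disjoint_left.2 fun v hv hv' => (c3 v hv).1 hv'
  · exact fun x hx y hy hxy => (c1 x hx).2 y hy hxy.symm
  · exact fun x hx y hy hxy => (c2 x hx).2 y hy hxy.symm
  · exact fun x hx y hy hxy => (c3 x hx).2 y hy hxy.symm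

theorem meet_symm {G : SimpleGraph V} {F F' : Finset V} (h : ∃ v ∈ F, v ∈ NBH G F') :
    ∃ v ∈ F', v ∈ NBH G F := by
  obtain ⟨v, hv, hv'⟩ := h
  rw [mem_NBH] at hv'
  rcases hv' with h' | ⟨x, hx, hxv⟩
  · exact ⟨v, h', mem_NBH.2 (Or.inl hv)⟩
  · exact ⟨x, hx, mem_NBH.2 (Or.inr ⟨v, hv, hxv.symm⟩)⟩

/-! ### the relations -/

/-- basic relation -/
def R0 (G : SimpleGraph V) (r m m' : ℕ) (i j : Finset V × Finset V) : Prop :=
  i.1.card ≤ r ∧ j.1.card ≤ r ∧ Adm G i.1 j.1 ∧ i.2.card = m ∧ j.2.card = m'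

theorem R0_row {G : SimpleGraph V} {Δ r : ℕ} (hΔ : MaxDeg G Δ) {m m' : ℕ}
    {i : Finset V × Finset V} (hi : i.1.card ≤ r) (T : Finset V → Finset V → Prop) {b : ℝ}
    (hb : 0 ≤ b) (hT : ∀ U, U.card ≤ r →
      (cnt (fun F : Finset V => F.card = m' ∧ T U F) : ℝ) ≤ b) :
    (cnt (fun j => R0 G r m m' i j ∧ T j.1 j.2) : ℝ) ≤ KAd r Δ * b := by
  have h := card_pairs (fun U : Finset V => U.card ≤ r ∧ Adm G i.1 U)
    (fun U F => F.card = m' ∧ T U F) (a := KAd r Δ) (b := b) (card_ka hΔ hi) hb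
    (fun U hU => hT U hU.1)
  refine le_trans ?_ h
  have : cnt (fun j => R0 G r m m' i j ∧ T j.1 j.2) ≤
      cnt (fun p : Finset V × Finset V => (p.1.card ≤ r ∧ Adm G i.1 p.1) ∧
        (p.2.card = m' ∧ T p.1 p.2)) := by
    refine cnt_mono fun j hj => ?_
    obtain ⟨⟨-, h2, h3, -, h5⟩, h6⟩ := hj
    exact ⟨⟨h2, h3⟩, h5, h6⟩
  exact_mod_cast this

theorem R0_col {G : SimpleGraph V} {Δ r : ℕ} (hΔ : MaxDeg G Δ) {m m' : ℕ}
    {j : Finset V × Finset V} (hj : j.1.card ≤ r) (T : Finset V → Finset V → Prop) {b : ℝ}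
    (hb : 0 ≤ b) (hT : ∀ U, U.card ≤ r →
      (cnt (fun F : Finset V => F.card = m ∧ T U F) : ℝ) ≤ b) :
    (cnt (fun i => R0 G r m m' i j ∧ T i.1 i.2) : ℝ) ≤ KAd r Δ * b := by
  have h := card_pairs (fun U : Finset V => U.card ≤ r ∧ Adm G j.1 U)
    (fun U F => F.card = m ∧ T U F) (a := KAd r Δ) (b := b) (card_ka hΔ hj) hb
    (fun U hU => hT U hU.1)
  refine le_trans ?_ h
  have : cnt (fun i => R0 G r m m' i j ∧ T i.1 i.2) ≤
      cnt (fun p : Finset V × Finset V => (p.1.card ≤ r ∧ Adm G j.1 p.1) ∧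
        (p.2.card = m ∧ T p.1 p.2)) := by
    refine cnt_mono fun i hi => ?_
    obtain ⟨⟨h1, -, h3, h4, -⟩, h6⟩ := hi
    exact ⟨⟨h1, adm_symm.1 h3⟩, h4, h6⟩
  exact_mod_cast this

theorem card_F_true (m : ℕ) : (cnt (fun F : Finset V => F.card = m ∧ True) : ℝ) ≤
    (Fintype.card V : ℝ) ^ m := by
  have h := card_F (V := V) m
  have h2 : cnt (fun F : Finset V => F.card = m ∧ True) ≤ cnt (fun F : Finset V => F.card = m) :=
    cnt_mono fun F hF => hF.1
  exact_mod_cast le_trans h2 h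

theorem card_meet_le (hn : 0 < Fintype.card V) {Z : Finset V} {z : ℕ} (hZ : Z.card ≤ z) (m : ℕ) :
    (cnt (fun F : Finset V => F.card = m ∧ ∃ v ∈ F, v ∈ Z) : ℝ) ≤
      z * (Fintype.card V : ℝ) ^ m / Fintype.card V := by
  refine le_trans (card_meet hn Z m) ?_
  have : (Z.card : ℝ) ≤ z := by exact_mod_cast hZ
  gcongr

section sums

variable {G : SimpleGraph V} {x : Finset V → ℝ} {r Δ m m' : ℕ}

theorem sum0 (hx : ∀ S, 0 ≤ x S) (hxr : ∀ S : Finset V, r < S.card → x S = 0)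
    (hn : 0 < Fintype.card V) (hΔ : MaxDeg G Δ) :
    ∑ i, ∑ j, iw (R0 G r m m' i j) (yy x m i * yy x m' j) ≤
      KAd r Δ * Real.sqrt (Fintype.card V) * Real.sqrt (Fintype.card V) ^ (m + m') /
        Real.sqrt (Fintype.card V) * (2 ^ r * ∑ S, x S ^ 2) := by
  have hn' : (0 : ℝ) < Fintype.card V := by exact_mod_cast hn
  have h := sch hx hxr hn (m := m) (m' := m') (R0 G r m m')
    (R := KAd r Δ * (Fintype.card V : ℝ) ^ m') (C := KAd r Δ * (Fintype.card V : ℝ) ^ m)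
    (P := KAd r Δ * Real.sqrt (Fintype.card V)) (by positivity) (by positivity) (by positivity)
    (le_of_eq (by rw [mul_pow, Real.sq_sqrt hn'.le, pow_add]; field_simp)) ?_ ?_
  · exact h
  · intro i hi
    have h1 := R0_row hΔ (m := m) (m' := m') (yy_card hxr hi).1 (fun _ _ => True)
      (b := (Fintype.card V : ℝ) ^ m') (by positivity) (fun U _ => card_F_true m')
    refine le_trans ?_ h1
    exact Nat.cast_le.2 (cnt_mono fun j hj => ⟨hj, trivial⟩)
  · intro j hj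
    have h1 := R0_col hΔ (m := m) (m' := m') (yy_card hxr hj).1 (fun _ _ => True)
      (b := (Fintype.card V : ℝ) ^ m) (by positivity) (fun U _ => card_F_true m)
    refine le_trans ?_ h1
    exact Nat.cast_le.2 (cnt_mono fun i hi => ⟨hi, trivial⟩)

theorem sum1 (hx : ∀ S, 0 ≤ x S) (hxr : ∀ S : Finset V, r < S.card → x S = 0)
    (hn : 0 < Fintype.card V) (hΔ : MaxDeg G Δ) (hr : 1 ≤ r) :
    ∑ i, ∑ j, iw (R0 G r m m' i j ∧ ∃ v ∈ i.2, v ∈ NBH G (i.1 ∪ j.1))
      (yy x m i * yy x m' j) ≤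
      (KAd r Δ * (2 * r * (Δ + 1) : ℕ)) * Real.sqrt (Fintype.card V) ^ (m + m') /
        Real.sqrt (Fintype.card V) * (2 ^ r * ∑ S, x S ^ 2) := by
  have hn' : (0 : ℝ) < Fintype.card V := by exact_mod_cast hn
  have hz1 : (1 : ℝ) ≤ (2 * r * (Δ + 1) : ℕ) := by
    have : 1 ≤ 2 * r * (Δ + 1) := Nat.mul_pos (by omega) (by omega)
    exact_mod_cast this
  set z := 2 * r * (Δ + 1) with hz
  refine sch hx hxr hn (m := m) (m' := m')
    (fun i j => R0 G r m m' i j ∧ ∃ v ∈ i.2, v ∈ NBH G (i.1 ∪ j.1))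
    (R := KAd r Δ * (Fintype.card V : ℝ) ^ m')
    (C := KAd r Δ * (z * (Fintype.card V : ℝ) ^ m / Fintype.card V))
    (P := KAd r Δ * z) (by positivity) (by positivity) (by positivity) ?_ ?_ ?_
  · have e : (KAd r Δ * (Fintype.card V : ℝ) ^ m') *
        (KAd r Δ * (z * (Fintype.card V : ℝ) ^ m / Fintype.card V)) =
        ((KAd r Δ : ℝ) ^ 2 * z) * (Fintype.card V : ℝ) ^ (m + m') / Fintype.card V := by
      rw [pow_add]; field_simp
    rw [e]
    have : (KAd r Δ : ℝ) ^ 2 * z ≤ (KAd r Δ * z) ^ 2 := by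
      rw [mul_pow]
      apply mul_le_mul_of_nonneg_left _ (by positivity)
      nlinarith
    gcongr
  · intro i hi
    have h1 := R0_row hΔ (m := m) (m' := m') (yy_card hxr hi).1 (fun _ _ => True)
      (b := (Fintype.card V : ℝ) ^ m') (by positivity) (fun U _ => card_F_true m')
    refine le_trans ?_ h1
    exact Nat.cast_le.2 (cnt_mono fun j hj => ⟨hj.1, trivial⟩)
  · intro j hj
    have hjr := (yy_card hxr hj).1
    refine R0_col hΔ (m := m) (m' := m') hjr (fun U F => ∃ v ∈ F, v ∈ NBH G (U ∪ j.1))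
      (by positivity) (fun U hU => card_meet_le hn ?_ m)
    refine le_trans (NBH_card hΔ _) ?_
    rw [hz]
    apply Nat.mul_le_mul_right
    exact le_trans (card_union_le _ _) (by omega)

theorem sum2 (hx : ∀ S, 0 ≤ x S) (hxr : ∀ S : Finset V, r < S.card → x S = 0)
    (hn : 0 < Fintype.card V) (hΔ : MaxDeg G Δ) (hr : 1 ≤ r) :
    ∑ i, ∑ j, iw (R0 G r m m' i j ∧ ∃ v ∈ j.2, v ∈ NBH G (i.1 ∪ j.1))
      (yy x m i * yy x m' j) ≤
      (KAd r Δ * (2 * r * (Δ + 1) : ℕ)) * Real.sqrt (Fintype.card V) ^ (m + m') /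
        Real.sqrt (Fintype.card V) * (2 ^ r * ∑ S, x S ^ 2) := by
  have hn' : (0 : ℝ) < Fintype.card V := by exact_mod_cast hn
  have hz1 : (1 : ℝ) ≤ (2 * r * (Δ + 1) : ℕ) := by
    have : 1 ≤ 2 * r * (Δ + 1) := Nat.mul_pos (by omega) (by omega)
    exact_mod_cast this
  set z := 2 * r * (Δ + 1) with hz
  refine sch hx hxr hn (m := m) (m' := m')
    (fun i j => R0 G r m m' i j ∧ ∃ v ∈ j.2, v ∈ NBH G (i.1 ∪ j.1))
    (R := KAd r Δ * (z * (Fintype.card V : ℝ) ^ m' / Fintype.card V))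
    (C := KAd r Δ * (Fintype.card V : ℝ) ^ m)
    (P := KAd r Δ * z) (by positivity) (by positivity) (by positivity) ?_ ?_ ?_
  · have e : (KAd r Δ * (z * (Fintype.card V : ℝ) ^ m' / Fintype.card V)) *
        (KAd r Δ * (Fintype.card V : ℝ) ^ m) =
        ((KAd r Δ : ℝ) ^ 2 * z) * (Fintype.card V : ℝ) ^ (m + m') / Fintype.card V := by
      rw [pow_add]; field_simp
    rw [e]
    have : (KAd r Δ : ℝ) ^ 2 * z ≤ (KAd r Δ * z) ^ 2 := by
      rw [mul_pow]
      apply mul_le_mul_of_nonneg_left _ (by positivity)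
      nlinarith
    gcongr
  · intro i hi
    have hir := (yy_card hxr hi).1
    refine R0_row hΔ (m := m) (m' := m') hir (fun U F => ∃ v ∈ F, v ∈ NBH G (i.1 ∪ U))
      (by positivity) (fun U hU => card_meet_le hn ?_ m')
    refine le_trans (NBH_card hΔ _) ?_
    rw [hz]
    apply Nat.mul_le_mul_right
    exact le_trans (card_union_le _ _) (by omega)
  · intro j hj
    have h1 := R0_col hΔ (m := m) (m' := m') (yy_card hxr hj).1 (fun _ _ => True)
      (b := (Fintype.card V : ℝ) ^ m) (by positivity) (fun U _ => card_F_true m)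
    refine le_trans ?_ h1
    exact Nat.cast_le.2 (cnt_mono fun i hi => ⟨hi.1, trivial⟩)

theorem sum3 (hx : ∀ S, 0 ≤ x S) (hxr : ∀ S : Finset V, r < S.card → x S = 0)
    (hn : 0 < Fintype.card V) (hΔ : MaxDeg G Δ) :
    ∑ i, ∑ j, iw (R0 G r m m' i j ∧ ∃ v ∈ i.2, v ∈ NBH G j.2)
      (yy x m i * yy x m' j) ≤
      (KAd r Δ * (2 * r * (Δ + 1) : ℕ)) * Real.sqrt (Fintype.card V) ^ (m + m') /
        Real.sqrt (Fintype.card V) * (2 ^ r * ∑ S, x S ^ 2) := by
  have hn' : (0 : ℝ) < Fintype.card V := by exact_mod_cast hn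
  have hn1 : (1 : ℝ) ≤ Fintype.card V := by exact_mod_cast hn
  set z := 2 * r * (Δ + 1) with hz
  refine sch hx hxr hn (m := m) (m' := m')
    (fun i j => R0 G r m m' i j ∧ ∃ v ∈ i.2, v ∈ NBH G j.2)
    (R := KAd r Δ * (z * (Fintype.card V : ℝ) ^ m' / Fintype.card V))
    (C := KAd r Δ * (z * (Fintype.card V : ℝ) ^ m / Fintype.card V))
    (P := KAd r Δ * z) (by positivity) (by positivity) (by positivity) ?_ ?_ ?_
  · have e : (KAd r Δ * (z * (Fintype.card V : ℝ) ^ m' / Fintype.card V)) *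
        (KAd r Δ * (z * (Fintype.card V : ℝ) ^ m / Fintype.card V)) =
        (KAd r Δ * z) ^ 2 * (Fintype.card V : ℝ) ^ (m + m') / Fintype.card V /
          Fintype.card V := by
      rw [pow_add]; field_simp
    rw [e]
    exact div_le_self (by positivity) hn1
  · intro i hi
    have hir := (yy_card hxr hi).1
    have hir2 := (yy_card hxr hi).2
    have h1 := R0_row hΔ (m := m) (m' := m') hir (fun U F => ∃ v ∈ F, v ∈ NBH G i.2)
      (b := z * (Fintype.card V : ℝ) ^ m' / Fintype.card V)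
      (by positivity) (fun U hU => card_meet_le hn
        (le_trans (NBH_card hΔ _) (by rw [hz]; exact Nat.mul_le_mul_right _ (by omega))) m')
    refine le_trans ?_ h1
    exact Nat.cast_le.2 (cnt_mono fun j hj => ⟨hj.1, meet_symm hj.2⟩)
  · intro j hj
    have hjr := (yy_card hxr hj).1
    have hjr2 := (yy_card hxr hj).2
    exact R0_col hΔ (m := m) (m' := m') hjr (fun U F => ∃ v ∈ F, v ∈ NBH G j.2)
      (b := z * (Fintype.card V : ℝ) ^ m / Fintype.card V)
      (by positivity) (fun U hU => card_meet_le hn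
        (le_trans (NBH_card hΔ _) (by rw [hz]; exact Nat.mul_le_mul_right _ (by omega))) m)

end sums

/-- the bound of one quadruple -/
noncomputable def WW (G : SimpleGraph V) (r : ℕ) (x : Finset V → ℝ) (A e : ℝ) (m m' : ℕ)
    (i j : Finset V × Finset V) : ℝ :=
  A * e ^ (m + m' + 1) * iw (R0 G r m m' i j) (yy x m i * yy x m' j) +
  A * e ^ (m + m') * iw (R0 G r m m' i j ∧ ∃ v ∈ i.2, v ∈ NBH G (i.1 ∪ j.1))
    (yy x m i * yy x m' j) +
  A * e ^ (m + m') * iw (R0 G r m m' i j ∧ ∃ v ∈ j.2, v ∈ NBH G (i.1 ∪ j.1))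
    (yy x m i * yy x m' j) +
  A * e ^ (m + m') * iw (R0 G r m m' i j ∧ ∃ v ∈ i.2, v ∈ NBH G j.2)
    (yy x m i * yy x m' j)

theorem WW_nonneg {G : SimpleGraph V} {r : ℕ} {x : Finset V → ℝ} (hx : ∀ S, 0 ≤ x S) {A e : ℝ}
    (hA : 0 ≤ A) (he : 0 ≤ e) (m m' : ℕ) (i j : Finset V × Finset V) :
    0 ≤ WW G r x A e m m' i j := by
  have h0 : 0 ≤ yy x m i * yy x m' j := mul_nonneg (yy_nonneg hx _ _) (yy_nonneg hx _ _)
  have h1 := iw_nonneg (p := R0 G r m m' i j) h0
  have h2 := iw_nonneg (p := R0 G r m m' i j ∧ ∃ v ∈ i.2, v ∈ NBH G (i.1 ∪ j.1)) h0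
  have h3 := iw_nonneg (p := R0 G r m m' i j ∧ ∃ v ∈ j.2, v ∈ NBH G (i.1 ∪ j.1)) h0
  have h4 := iw_nonneg (p := R0 G r m m' i j ∧ ∃ v ∈ i.2, v ∈ NBH G j.2) h0
  unfold WW
  positivity

open Classical in
/-- pointwise bound -/
theorem quad_le [NeZero k] (G : SimpleGraph V) {r : ℕ} (hr : 1 ≤ r)
    (hk : (4 * (2 * r) * 2 ^ (2 * r)) ^ 2 ≤ k) {ε B : ℝ} (hε : 0 ≤ ε) (hB : 0 ≤ B)
    (hεB : ε * B ≤ 1) {τ : Fin k → ℝ} (hτ : ∀ i, |τ i| ≤ B) {q : Finset V → Fn V k}
    (hq : Fam G r q) {U U' F F' : Finset V} (hF : Disjoint U F) (hF' : Disjoint U' F') :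
    |(if Adm G U U' ∧ Free G U U' F F' then tm G ε τ q (fun i => ε * τ i) U U' F F' else 0) -
      (if Adm G U U' then tm G ε τ q (fun _ => 0) U U' F F' else 0)| ≤
    ∑ m ∈ range (r + 1), ∑ m' ∈ range (r + 1),
      WW G r (fun S => Real.sqrt (ev fun c => q S c ^ 2)) ((k : ℝ) ^ (2 * r) * 2 ^ (2 * (2 * r) + 1))
        (ε * B) m m' (U, F) (U', F') := by
  set x : Finset V → ℝ := fun S => Real.sqrt (ev fun c => q S c ^ 2) with hx
  set A : ℝ := (k : ℝ) ^ (2 * r) * 2 ^ (2 * (2 * r) + 1) with hA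
  have hA0 : 0 ≤ A := by rw [hA]; positivity
  have hx0 : ∀ S, 0 ≤ x S := fun S => Real.sqrt_nonneg _
  have he : 0 ≤ ε * B := mul_nonneg hε hB
  have hnn : 0 ≤ ∑ m ∈ range (r + 1), ∑ m' ∈ range (r + 1), WW G r x A (ε * B) m m' (U, F) (U', F') :=
    sum_nonneg fun m _ => sum_nonneg fun m' _ => WW_nonneg hx0 hA0 he m m' _ _
  by_cases hAdm : Adm G U U'
  swap
  · rw [if_neg (fun h => hAdm h.1), if_neg hAdm, sub_zero, abs_zero]; exact hnn
  rw [if_pos hAdm]
  -- the case of large sets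
  by_cases h1 : r < (U ∪ F).card
  · have hz : ∀ θ : Fin k → ℝ, tm G ε τ q θ U U' F F' = 0 := by
      intro θ
      unfold tm
      rw [hq.big _ h1, cn_zero']
      simp [ev_zero]
    rw [hz, hz]
    simpa using hnn
  by_cases h2 : r < (U' ∪ F').card
  · have hz : ∀ θ : Fin k → ℝ, tm G ε τ q θ U U' F F' = 0 := by
      intro θ
      unfold tm
      rw [hq.big _ h2, cn_zero']
      simp [ev_zero]
    rw [hz, hz]
    simpa using hnn
  push Not at h1 h2
  have c1 := card_union_of_disjoint hF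
  have c2 := card_union_of_disjoint hF'
  have hUr : U.card ≤ r := by omega
  have hUr' : U'.card ≤ r := by omega
  have hFr : F.card ∈ range (r + 1) := mem_range.2 (by omega)
  have hFr' : F'.card ∈ range (r + 1) := mem_range.2 (by omega)
  have hUU : (U ∪ U').card ≤ 2 * r := le_trans (card_union_le _ _) (by omega)
  have hsing : WW G r x A (ε * B) F.card F'.card (U, F) (U', F') ≤
      ∑ m ∈ range (r + 1), ∑ m' ∈ range (r + 1), WW G r x A (ε * B) m m' (U, F) (U', F') :=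
    le_trans (single_le_sum (f := fun m' => WW G r x A (ε * B) F.card m' (U, F) (U', F'))
        (fun m' _ => WW_nonneg hx0 hA0 he _ m' _ _) hFr')
      (single_le_sum (f := fun m => ∑ m' ∈ range (r + 1), WW G r x A (ε * B) m m' (U, F) (U', F'))
        (fun m _ => sum_nonneg fun m' _ => WW_nonneg hx0 hA0 he m m' _ _) hFr)
  refine le_trans ?_ hsing
  have hR0 : R0 G r F.card F'.card (U, F) (U', F') := ⟨hUr, hUr', hAdm, rfl, rfl⟩
  have hy : yy x F.card (U, F) = x (U ∪ F) := by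
    unfold yy; exact if_pos ⟨hF, rfl⟩
  have hy' : yy x F'.card (U', F') = x (U' ∪ F') := by
    unfold yy; exact if_pos ⟨hF', rfl⟩
  have h0 : 0 ≤ x (U ∪ F) * x (U' ∪ F') := mul_nonneg (hx0 _) (hx0 _)
  unfold WW
  rw [hy, hy', iw_pos hR0]
  have i1 := iw_nonneg (p := R0 G r F.card F'.card (U, F) (U', F') ∧
    ∃ v ∈ (U, F).2, v ∈ NBH G ((U, F).1 ∪ (U', F').1)) h0
  have i2 := iw_nonneg (p := R0 G r F.card F'.card (U, F) (U', F') ∧
    ∃ v ∈ (U', F').2, v ∈ NBH G ((U, F).1 ∪ (U', F').1)) h0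
  have i3 := iw_nonneg (p := R0 G r F.card F'.card (U, F) (U', F') ∧
    ∃ v ∈ (U, F).2, v ∈ NBH G (U', F').2) h0
  have hc0 : 0 ≤ A * (ε * B) ^ (F.card + F'.card + 1) := by positivity
  have hc1 : 0 ≤ A * (ε * B) ^ (F.card + F'.card) := by positivity
  by_cases hFree : Free G U U' F F'
  · rw [if_pos ⟨hAdm, hFree⟩]
    have e1 : tm G ε τ q (fun i => ε * τ i) U U' F F' - tm G ε τ q (fun _ => 0) U U' F F' =
        ε ^ (F.card + F'.card) * ev (fun c => cn τ F (q (U ∪ F)) c * cn τ F' (q (U' ∪ F')) c *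
          (dens G (fun i => ε * τ i) (U ∪ U') c - dens G 0 (U ∪ U') c)) := by
      unfold tm
      rw [← mul_sub, ← ev_sub]
      congr 1
      refine ev_congr fun c => ?_
      rw [mul_sub]
      rfl
    have hθ : ∀ i, |ε * τ i| ≤ ε * B := by
      intro i
      rw [abs_mul, abs_of_nonneg hε]
      exact mul_le_mul_of_nonneg_left (hτ i) hε
    have e2 := tm_le hε hB hτ (p := q (U ∪ F)) (q := q (U' ∪ F'))
      (h := fun c => dens G (fun i => ε * τ i) (U ∪ U') c - dens G 0 (U ∪ U') c)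
      (M := A * (ε * B)) (by positivity)
      (fun c => dens_close G (by omega : 1 ≤ 2 * r) hk hεB hθ hUU c) F F'
    rw [e1]
    refine le_trans e2 ?_
    have e3 : A * (ε * B) * (ε * B) ^ (F.card + F'.card) *
        (Real.sqrt (ev fun c => q (U ∪ F) c ^ 2) * Real.sqrt (ev fun c => q (U' ∪ F') c ^ 2)) =
        A * (ε * B) ^ (F.card + F'.card + 1) * (x (U ∪ F) * x (U' ∪ F')) := by
      rw [pow_succ]; ring
    rw [e3]
    have j1 := mul_nonneg hc1 i1
    have j2 := mul_nonneg hc1 i2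
    have j3 := mul_nonneg hc1 i3
    linarith
  · rw [if_neg (fun h => hFree h.2), zero_sub, abs_neg]
    have hθ0 : ∀ i : Fin k, |(fun _ : Fin k => (0 : ℝ)) i| ≤ 1 := by
      intro i; simp
    have e2 := tm_le hε hB hτ (p := q (U ∪ F)) (q := q (U' ∪ F'))
      (h := dens G (fun _ => 0) (U ∪ U')) (M := A) hA0
      (fun c => dens_bound G (by omega : 1 ≤ 2 * r) hk hθ0 hUU c) F F'
    refine le_trans e2 ?_
    have j0 : 0 ≤ A * (ε * B) ^ (F.card + F'.card + 1) * (x (U ∪ F) * x (U' ∪ F')) :=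
      mul_nonneg hc0 h0
    have j1 := mul_nonneg hc1 i1
    have j2 := mul_nonneg hc1 i2
    have j3 := mul_nonneg hc1 i3
    rcases not_free_cases hFree with h | h | h
    · rw [iw_pos (p := R0 G r F.card F'.card (U, F) (U', F') ∧
        ∃ v ∈ (U, F).2, v ∈ NBH G ((U, F).1 ∪ (U', F').1)) ⟨hR0, h⟩]
      linarith
    · rw [iw_pos (p := R0 G r F.card F'.card (U, F) (U', F') ∧
        ∃ v ∈ (U', F').2, v ∈ NBH G ((U, F).1 ∪ (U', F').1)) ⟨hR0, h⟩]
      linarith
    · rw [iw_pos (p := R0 G r F.card F'.card (U, F) (U', F') ∧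
        ∃ v ∈ (U, F).2, v ∈ NBH G (U', F').2) ⟨hR0, h⟩]
      linarith

/-- sum over all pairs -/
theorem WW_sum {G : SimpleGraph V} {r Δ : ℕ} (hr : 1 ≤ r) (hΔ : MaxDeg G Δ)
    (hn : 0 < Fintype.card V) {x : Finset V → ℝ} (hx : ∀ S, 0 ≤ x S)
    (hxr : ∀ S : Finset V, r < S.card → x S = 0) {A κ B : ℝ} (hA : 0 ≤ A) (hκB : 1 ≤ κ * B)
    {m m' : ℕ} (hm : m ≤ r) (hm' : m' ≤ r) :
    ∑ i, ∑ j, WW G r x A (κ / Real.sqrt (Fintype.card V) * B) m m' i j ≤
      4 * (A * (κ * B) ^ (2 * r + 1) * (KAd r Δ * (2 * r * (Δ + 1) : ℕ))) /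
        Real.sqrt (Fintype.card V) * (2 ^ r * ∑ S, x S ^ 2) := by
  have hn' : (0 : ℝ) < Fintype.card V := by exact_mod_cast hn
  set s := Real.sqrt (Fintype.card V) with hs
  have hs0 : 0 < s := Real.sqrt_pos.2 hn'
  set X := 2 ^ r * ∑ S, x S ^ 2 with hX
  have hX0 : 0 ≤ X := by
    have : 0 ≤ ∑ S, x S ^ 2 := sum_nonneg fun S _ => sq_nonneg _
    rw [hX]; positivity
  have hz1 : (1 : ℝ) ≤ (2 * r * (Δ + 1) : ℕ) := by
    have : 1 ≤ 2 * r * (Δ + 1) := Nat.mul_pos (by omega) (by omega)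
    exact_mod_cast this
  set z : ℝ := ((2 * r * (Δ + 1) : ℕ) : ℝ) with hz
  set e := κ / s * B with he
  have hκ0 : 0 < κ * B := by linarith
  have hes : e * s = κ * B := by rw [he]; field_simp
  have he0 : 0 < e := by
    have : e = κ * B / s := by rw [he]; ring
    rw [this]; positivity
  have hpw : ∀ a : ℕ, a ≤ 2 * r + 1 → (κ * B) ^ a ≤ (κ * B) ^ (2 * r + 1) := fun a ha =>
    pow_le_pow_right₀ hκB ha
  have hsplit : ∑ i, ∑ j, WW G r x A e m m' i j =
      A * e ^ (m + m' + 1) * (∑ i, ∑ j, iw (R0 G r m m' i j) (yy x m i * yy x m' j)) +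
      A * e ^ (m + m') * (∑ i, ∑ j, iw (R0 G r m m' i j ∧ ∃ v ∈ i.2, v ∈ NBH G (i.1 ∪ j.1))
        (yy x m i * yy x m' j)) +
      A * e ^ (m + m') * (∑ i, ∑ j, iw (R0 G r m m' i j ∧ ∃ v ∈ j.2, v ∈ NBH G (i.1 ∪ j.1))
        (yy x m i * yy x m' j)) +
      A * e ^ (m + m') * (∑ i, ∑ j, iw (R0 G r m m' i j ∧ ∃ v ∈ i.2, v ∈ NBH G j.2)
        (yy x m i * yy x m' j)) := by
    unfold WW
    simp only [sum_add_distrib, mul_sum]
  rw [hsplit]
  have k0 := sum0 (m := m) (m' := m') hx hxr hn hΔ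
  have k1 := sum1 (m := m) (m' := m') hx hxr hn hΔ hr
  have k2 := sum2 (m := m) (m' := m') hx hxr hn hΔ hr
  have k3 := sum3 (m := m) (m' := m') hx hxr hn hΔ
  have hK0 : (0 : ℝ) ≤ KAd r Δ := Nat.cast_nonneg _
  have l0 : A * e ^ (m + m' + 1) * (∑ i, ∑ j, iw (R0 G r m m' i j) (yy x m i * yy x m' j)) ≤
      A * (κ * B) ^ (2 * r + 1) * (KAd r Δ * z) / s * X := by
    calc _ ≤ A * e ^ (m + m' + 1) * (KAd r Δ * s * s ^ (m + m') / s * X) :=
          mul_le_mul_of_nonneg_left k0 (by positivity)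
      _ = A * (e * s) ^ (m + m' + 1) * (KAd r Δ * 1) / s * X := by
          have e1 : (e * s) ^ (m + m' + 1) = e ^ (m + m' + 1) * (s ^ (m + m') * s) := by
            rw [mul_pow e s, pow_succ s]
          rw [e1]
          clear_value e
          field_simp
      _ ≤ A * (κ * B) ^ (2 * r + 1) * (KAd r Δ * z) / s * X := by
          rw [hes]
          have := hpw (m + m' + 1) (by omega)
          gcongr
  have l1 : ∀ Q : ℝ, Q ≤ (KAd r Δ * z) * s ^ (m + m') / s * X →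
      A * e ^ (m + m') * Q ≤ A * (κ * B) ^ (2 * r + 1) * (KAd r Δ * z) / s * X := by
    intro Q hQ
    calc A * e ^ (m + m') * Q ≤ A * e ^ (m + m') * ((KAd r Δ * z) * s ^ (m + m') / s * X) :=
          mul_le_mul_of_nonneg_left hQ (by positivity)
      _ = A * (e * s) ^ (m + m') * (KAd r Δ * z) / s * X := by
          rw [mul_pow e s]; ring
      _ ≤ A * (κ * B) ^ (2 * r + 1) * (KAd r Δ * z) / s * X := by
          rw [hes]
          have := hpw (m + m') (by omega)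
          gcongr
  have m1 := l1 _ k1
  have m2 := l1 _ k2
  have m3 := l1 _ k3
  calc _ ≤ A * (κ * B) ^ (2 * r + 1) * (KAd r Δ * z) / s * X +
        A * (κ * B) ^ (2 * r + 1) * (KAd r Δ * z) / s * X +
        A * (κ * B) ^ (2 * r + 1) * (KAd r Δ * z) / s * X +
        A * (κ * B) ^ (2 * r + 1) * (KAd r Δ * z) / s * X := by linarith
    _ = _ := by ring

theorem compare (r k Δ : ℕ) (κ B : ℝ) (hr : 1 ≤ r) (hk : (4 * (2 * r) * 2 ^ (2 * r)) ^ 2 ≤ k)
    (hκ : 1 ≤ κ) (hB : 1 ≤ B) [NeZero k] :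
    ∃ K : ℝ, 0 ≤ K ∧ ∀ n : ℕ, 1 ≤ n → κ / Real.sqrt n * B ≤ 1 → ∀ G : SimpleGraph (Fin n),
      MaxDeg G Δ → ∀ τ : Fin k → ℝ, (∀ i, |τ i| ≤ B) →
      ∀ q : Finset (Fin n) → Fn (Fin n) k, Fam G r q →
      |frm G (fun i => κ / Real.sqrt n * τ i) q -
        frm G (fun _ => 0) (pt (κ / Real.sqrt n) τ q)| ≤ K / Real.sqrt n * nrm q := by
  classical
  set A : ℝ := (k : ℝ) ^ (2 * r) * 2 ^ (2 * (2 * r) + 1) with hA
  have hA0 : 0 ≤ A := by rw [hA]; positivity
  have hκB : 1 ≤ κ * B := one_le_mul_of_one_le_of_one_le hκ hB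
  refine ⟨(r + 1) ^ 2 * (4 * (A * (κ * B) ^ (2 * r + 1) *
    (KAd r Δ * (2 * r * (Δ + 1) : ℕ)))) * 2 ^ r, by positivity, ?_⟩
  intro n hn hsmall G hΔ τ hτ q hq
  have hn' : (0 : ℝ) < n := by exact_mod_cast hn
  have hs0 : 0 < Real.sqrt n := Real.sqrt_pos.2 hn'
  set ε := κ / Real.sqrt n with hε
  have hε0 : 0 ≤ ε := by rw [hε]; positivity
  have hB0 : 0 ≤ B := by linarith
  set x : Finset (Fin n) → ℝ := fun S => Real.sqrt (ev fun c => q S c ^ 2) with hx
  have hx0 : ∀ S, 0 ≤ x S := fun S => Real.sqrt_nonneg _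
  have hxr : ∀ S : Finset (Fin n), r < S.card → x S = 0 := by
    intro S hS
    rw [hx]
    simp only [hq.big S hS]
    simp [ev_zero]
  have hnrm : ∑ S, x S ^ 2 = nrm q := by
    unfold nrm
    exact sum_congr rfl fun S _ => Real.sq_sqrt (ev_nonneg fun c => sq_nonneg _)
  have hcard : 0 < Fintype.card (Fin n) := by rw [Fintype.card_fin]; omega
  have hWn := fun m m' (i j : Finset (Fin n) × Finset (Fin n)) =>
    WW_nonneg (G := G) (r := r) hx0 hA0 (mul_nonneg hε0 hB0) m m' i j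
  rw [frm_eq_quad G hr hk ε τ hq, frm_pt_eq_quad G hr hk ε τ hq]
  simp only [← sum_sub_distrib]
  have step1 : |∑ U, ∑ U', ∑ F ∈ (univ \ U).powerset, ∑ F' ∈ (univ \ U').powerset,
      ((if Adm G U U' ∧ Free G U U' F F' then tm G ε τ q (fun i => ε * τ i) U U' F F' else 0) -
      (if Adm G U U' then tm G ε τ q (fun _ => 0) U U' F F' else 0))| ≤
      ∑ U, ∑ U', ∑ F, ∑ F', ∑ m ∈ range (r + 1), ∑ m' ∈ range (r + 1),
        WW G r x A (ε * B) m m' (U, F) (U', F') := by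
    refine le_trans (abs_sum_le_sum_abs _ _) (sum_le_sum fun U _ => ?_)
    refine le_trans (abs_sum_le_sum_abs _ _) (sum_le_sum fun U' _ => ?_)
    refine le_trans (abs_sum_le_sum_abs _ _) ?_
    refine le_trans (sum_le_sum (g := fun F => ∑ F', ∑ m ∈ range (r + 1), ∑ m' ∈ range (r + 1),
        WW G r x A (ε * B) m m' (U, F) (U', F')) fun F hF => ?_)
      (sum_le_sum_of_subset_of_nonneg (subset_univ _) fun F _ _ =>
        sum_nonneg fun F' _ => sum_nonneg fun m _ => sum_nonneg fun m' _ => hWn m m' _ _)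
    refine le_trans (abs_sum_le_sum_abs _ _) ?_
    refine le_trans (sum_le_sum (g := fun F' => ∑ m ∈ range (r + 1), ∑ m' ∈ range (r + 1),
        WW G r x A (ε * B) m m' (U, F) (U', F')) fun F' hF' => ?_)
      (sum_le_sum_of_subset_of_nonneg (subset_univ _) fun F' _ _ =>
        sum_nonneg fun m _ => sum_nonneg fun m' _ => hWn m m' _ _)
    rw [mem_powerset] at hF hF'
    have hd : Disjoint U F := disjoint_left.2 fun v hv hvF => (mem_sdiff.1 (hF hvF)).2 hv
    have hd' : Disjoint U' F' := disjoint_left.2 fun v hv hvF => (mem_sdiff.1 (hF' hvF)).2 hv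
    exact quad_le G hr hk hε0 hB0 hsmall hτ hq hd hd'
  have step2 : ∑ U, ∑ U', ∑ F, ∑ F', ∑ m ∈ range (r + 1), ∑ m' ∈ range (r + 1),
        WW G r x A (ε * B) m m' (U, F) (U', F') =
      ∑ m ∈ range (r + 1), ∑ m' ∈ range (r + 1), ∑ i, ∑ j, WW G r x A (ε * B) m m' i j := by
    have s1 : ∑ U, ∑ U', ∑ F, ∑ F', ∑ m ∈ range (r + 1), ∑ m' ∈ range (r + 1),
        WW G r x A (ε * B) m m' (U, F) (U', F') =
        ∑ i : Finset (Fin n) × Finset (Fin n), ∑ j : Finset (Fin n) × Finset (Fin n),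
          ∑ m ∈ range (r + 1), ∑ m' ∈ range (r + 1), WW G r x A (ε * B) m m' i j := by
      rw [Fintype.sum_prod_type]
      refine sum_congr rfl fun U _ => ?_
      rw [sum_comm]
      refine sum_congr rfl fun F _ => ?_
      rw [Fintype.sum_prod_type]
    rw [s1]
    have s2 : ∀ i : Finset (Fin n) × Finset (Fin n), ∑ j : Finset (Fin n) × Finset (Fin n),
          ∑ m ∈ range (r + 1), ∑ m' ∈ range (r + 1), WW G r x A (ε * B) m m' i j =
          ∑ m ∈ range (r + 1), ∑ m' ∈ range (r + 1), ∑ j, WW G r x A (ε * B) m m' i j := by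
      intro i
      rw [sum_comm]
      exact sum_congr rfl fun m _ => sum_comm
    simp only [s2]
    rw [sum_comm]
    exact sum_congr rfl fun m _ => sum_comm
  have step3 : ∀ m ∈ range (r + 1), ∀ m' ∈ range (r + 1),
      ∑ i, ∑ j, WW G r x A (ε * B) m m' i j ≤
      4 * (A * (κ * B) ^ (2 * r + 1) * (KAd r Δ * (2 * r * (Δ + 1) : ℕ))) /
        Real.sqrt n * (2 ^ r * nrm q) := by
    intro m hm m' hm'
    rw [mem_range] at hm hm'
    have h := WW_sum (m := m) (m' := m') hr hΔ hcard hx0 hxr hA0 hκB (by omega) (by omega)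
    rw [Fintype.card_fin, hnrm] at h
    exact h
  refine le_trans step1 ?_
  rw [step2]
  refine le_trans (sum_le_sum fun m hm => sum_le_sum fun m' hm' => step3 m hm m' hm') ?_
  simp only [sum_const, card_range, nsmul_eq_mul]
  push_cast
  apply le_of_eq
  ring

end Pool.Agent.SOSC
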