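import Pool.Agent.SOSC.Count

/-!
# SOSC COUNT2: the pairs with a leading cover

* `adm_of_lead`: for nonempty `Y ⊆ S \ T` and `y ∈ Y`, the neighbour of `y` in `T \ S` is in
  `(S ∪ T) \ Y`; same with `S`, `T` exchanged.
* `adm_of_mat`: `Mat` implies `Lead`.
* `dset_card`: for each of the at most `|T|²` pairs `t ≠ t'` in `T` there is at most one common
  neighbour (`four`) and at most one `s ≠ t'` with `t ~ s`, `s ~ y ~ t'`, `y ≠ t` (`six`).
* `lead_cases`: let `Lead G S T`, not `Mat G S T`.  By symmetry some `s ∈ S \ T`, with a neighbour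
  `t ∈ T \ S` (Lead), has a second neighbour `y ∈ S ∪ T`, `y ≠ t`.  If `y ∈ T` then `s ∈ Dset G T`
  (common neighbour of `t, y`).  Otherwise `y ∈ S \ T` has a neighbour `t' ∈ T \ S` (Lead);
  `t' ≠ t` since there is no triangle `s, y, t`; `y ≠ t`, `s ≠ t'` as `t, t' ∈ T`, `s, y ∉ T`; so
  `s ∈ Dset G T`.  (Careful: `¬ Mat` gives a vertex for which EVERY neighbour `t ∈ T \ S` has some
  other neighbour in `S ∪ T`; take `t` from `Lead`.)
* `card_lead`: `S` is determined by `S ∩ T` (at most `2^r`), one element `s ∈ (S \ T) ∩ Dset G T`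
  (at most `2 r²`) and the remaining `a - 1` elements of `S \ T`, which are in the union of the
  neighbourhoods of the vertices of `T` (at most `r Δ` elements): at most `(r Δ)^(a-1)` sets.
-/

set_option autoImplicit false
set_option linter.unusedSectionVars false

namespace Pool.Agent.SOSC

open Finset

variable {V : Type*} [Fintype V] [DecidableEq V] {k : ℕ}

theorem lead_of_mat {G : SimpleGraph V} {S T : Finset V} (h : Mat G S T) : Lead G S T := by
  refine ⟨fun s hs => ?_, fun t ht => ?_⟩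
  · obtain ⟨t, ht, hst, -⟩ := h.1 s hs
    exact ⟨t, ht, hst⟩
  · obtain ⟨s, hs, hst, -⟩ := h.2 t ht
    exact ⟨s, hs, hst⟩

theorem adm_of_lead {G : SimpleGraph V} {S T : Finset V} (h : Lead G S T) : Adm G S T := by
  refine ⟨fun Y hY hYS => ?_, fun Y hY hYT => ?_⟩
  · obtain ⟨y, hy⟩ := hY
    obtain ⟨t, ht, hyt⟩ := h.1 y (hYS hy)
    rw [mem_sdiff] at ht
    refine ⟨y, hy, t, ?_, hyt⟩
    rw [mem_sdiff, mem_union]
    exact ⟨Or.inr ht.1, fun h' => ht.2 (mem_sdiff.1 (hYS h')).1⟩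
  · obtain ⟨y, hy⟩ := hY
    obtain ⟨t, ht, hyt⟩ := h.2 y (hYT hy)
    rw [mem_sdiff] at ht
    refine ⟨y, hy, t, ?_, hyt⟩
    rw [mem_sdiff, mem_union]
    exact ⟨Or.inl ht.1, fun h' => ht.2 (mem_sdiff.1 (hYT h')).1⟩

theorem dset_card {G : SimpleGraph V} (hG : Sparse6 G) (T : Finset V) :
    (Dset G T).card ≤ 2 * T.card ^ 2 := by
  classical
  set A : V × V → Finset V := fun p =>
    univ.filter (fun s => p.1 ≠ p.2 ∧ G.Adj s p.1 ∧ G.Adj s p.2) with hA
  set B : V × V → Finset V := fun p =>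
    univ.filter (fun s => p.1 ≠ p.2 ∧ G.Adj s p.1 ∧ s ≠ p.2 ∧ ∃ y, y ≠ p.1 ∧ G.Adj s y ∧
      G.Adj y p.2) with hB
  have hsub : Dset G T ⊆ (T ×ˢ T).biUnion (fun p => A p ∪ B p) := by
    intro s hs
    unfold Dset at hs
    rw [mem_filter] at hs
    obtain ⟨-, t, ht, t', ht', hne, hst, h⟩ := hs
    rw [mem_biUnion]
    refine ⟨(t, t'), mem_product.2 ⟨ht, ht'⟩, ?_⟩
    rw [mem_union]
    rcases h with h | ⟨h1, h2⟩
    · left; rw [hA]; simp only [mem_filter]; exact ⟨mem_univ _, hne, hst, h⟩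
    · right; rw [hB]; simp only [mem_filter]; exact ⟨mem_univ _, hne, hst, h1, h2⟩
  refine le_trans (card_le_card hsub) ?_
  refine le_trans (card_biUnion_le_card_mul _ _ 2 ?_) (by rw [card_product]; exact le_of_eq (by ring))
  intro p _
  have hA1 : (A p).card ≤ 1 := by
    refine card_le_one.2 fun s hs s' hs' => ?_
    rw [hA] at hs hs'
    simp only [mem_filter] at hs hs'
    exact hG.four p.1 p.2 s s' hs.2.1 hs.2.2.1.symm hs.2.2.2 hs'.2.2.1.symm hs'.2.2.2
  have hB1 : (B p).card ≤ 1 := by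
    refine card_le_one.2 fun s hs s' hs' => ?_
    rw [hB] at hs hs'
    simp only [mem_filter] at hs hs'
    obtain ⟨-, h1, h2, h3, y, h4, h5, h6⟩ := hs
    obtain ⟨-, -, h2', h3', y', h4', h5', h6'⟩ := hs'
    exact hG.six p.1 p.2 s y s' y' h1 h2.symm h5 h6 h4 h3 h2'.symm h5' h6' h4' h3'
  exact le_trans (card_union_le _ _) (by omega)

theorem lead_case_one {G : SimpleGraph V} (hG : Sparse6 G) {S T : Finset V} (h : Lead G S T)
    {s : V} (hs : s ∈ S \ T)
    (hm : ∀ t ∈ T \ S, ¬ (G.Adj s t ∧ ∀ x ∈ S ∪ T, G.Adj s x → x = t)) : s ∈ Dset G T := by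
  classical
  obtain ⟨t, ht, hst⟩ := h.1 s hs
  have h1 := hm t ht
  push Not at h1
  obtain ⟨y, hy, hsy, hyt⟩ := h1 hst
  rw [mem_sdiff] at hs ht
  unfold Dset
  rw [mem_filter]
  refine ⟨mem_univ _, ?_⟩
  by_cases hyT : y ∈ T
  · exact ⟨t, ht.1, y, hyT, hyt.symm, hst, Or.inl hsy⟩
  · have hyS : y ∈ S := by
      rcases mem_union.1 hy with h' | h'
      · exact h'
      · exact absurd h' hyT
    obtain ⟨t', ht', hyt'⟩ := h.1 y (mem_sdiff.2 ⟨hyS, hyT⟩)
    rw [mem_sdiff] at ht'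
    refine ⟨t, ht.1, t', ht'.1, ?_, hst, Or.inr ⟨?_, y, ?_, hsy, hyt'⟩⟩
    · rintro rfl
      exact hG.three s y t hsy hyt' hst.symm
    · rintro rfl
      exact hs.2 ht'.1
    · rintro rfl
      exact hyT ht.1

theorem lead_cases {G : SimpleGraph V} (hG : Sparse6 G) {S T : Finset V} (h : Lead G S T)
    (hm : ¬ Mat G S T) : (∃ s ∈ S \ T, s ∈ Dset G T) ∨ (∃ t ∈ T \ S, t ∈ Dset G S) := by
  by_contra hc
  push Not at hc
  apply hm
  refine ⟨fun s hs => ?_, fun t ht => ?_⟩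
  · by_contra hn
    push Not at hn
    refine hc.1 s hs (lead_case_one hG h hs fun t ht hh => ?_)
    obtain ⟨x, hx, hx1, hx2⟩ := hn t ht hh.1
    exact hx2 (hh.2 x hx hx1)
  · by_contra hn
    push Not at hn
    refine hc.2 t ht (lead_case_one hG ⟨h.2, h.1⟩ ht fun s hs hh => ?_)
    obtain ⟨x, hx, hx1, hx2⟩ := hn s hs hh.1
    rw [union_comm] at hx
    exact hx2 (hh.2 x hx hx1)

open Classical in
theorem card_lead {G : SimpleGraph V} (hG : Sparse6 G) {Δ r : ℕ} (hΔ : MaxDeg G Δ)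
    {T : Finset V} (hT : T.card ≤ r) (a : ℕ) :
    (univ.filter (fun S : Finset V => S.card ≤ r ∧ Lead G S T ∧ (S \ T).card = a ∧
      ∃ s ∈ S \ T, s ∈ Dset G T)).card ≤ 2 ^ r * (2 * r ^ 2) * (r * Δ) ^ (a - 1) := by
  set Z := T.biUnion (fun t => nb G t) with hZ
  have hZc : Z.card ≤ r * Δ := by
    refine le_trans (card_biUnion_le_card_mul _ _ Δ fun t _ => hΔ t) ?_
    exact Nat.mul_le_mul_right _ hT
  have hsub : univ.filter (fun S : Finset V => S.card ≤ r ∧ Lead G S T ∧ (S \ T).card = a ∧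
      ∃ s ∈ S \ T, s ∈ Dset G T) ⊆
      (T.powerset ×ˢ (Dset G T ×ˢ powersetCard (a - 1) Z)).image
        (fun p => p.1 ∪ insert p.2.1 p.2.2) := by
    intro S hS
    rw [mem_filter] at hS
    obtain ⟨-, -, hL, ha, s, hs, hsD⟩ := hS
    rw [mem_image]
    refine ⟨(S ∩ T, s, (S \ T).erase s), ?_, ?_⟩
    · rw [mem_product, mem_product, mem_powerset, mem_powersetCard]
      refine ⟨inter_subset_right, hsD, ?_, ?_⟩
      · intro x hx
        obtain ⟨t, ht, hxt⟩ := hL.1 x (mem_of_mem_erase hx)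
        rw [hZ, mem_biUnion]
        refine ⟨t, (mem_sdiff.1 ht).1, ?_⟩
        unfold nb
        rw [mem_filter]
        exact ⟨mem_univ _, hxt.symm⟩
      · rw [card_erase_of_mem hs, ha]
    · simp only
      rw [insert_erase hs, union_comm, sdiff_union_inter]
  refine le_trans (card_le_card hsub) (le_trans card_image_le ?_)
  rw [card_product, card_product, card_powerset, card_powersetCard]
  have h1 : 2 ^ T.card ≤ 2 ^ r := Nat.pow_le_pow_right (by norm_num) hT
  have h2 : (Dset G T).card ≤ 2 * r ^ 2 :=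
    le_trans (dset_card hG T) (Nat.mul_le_mul_left _ (Nat.pow_le_pow_left hT 2))
  have h3 : Z.card.choose (a - 1) ≤ (r * Δ) ^ (a - 1) :=
    le_trans (Nat.choose_le_pow _ _) (Nat.pow_le_pow_left hZc _)
  calc 2 ^ T.card * ((Dset G T).card * Z.card.choose (a - 1)) ≤
      2 ^ r * ((2 * r ^ 2) * (r * Δ) ^ (a - 1)) := by gcongr
    _ = _ := by ring

end Pool.Agent.SOSC
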