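import Mathlib

/-!
# SOSC = MP_211dc5_lc: sum-of-squares lower bounds for colouring sparse random graphs

Basic definitions and tools.  Overview: /team-store/sosc_blueprint.md.

`V` is the (finite) vertex set, `k` the number of colours, a colouring is a map `c : V → Fin k`,
`Fn V k` is the space of real functions of a colouring.  `ev f` is the average of `f` over all
colourings, `av v f` the average over the colour of `v`, `avS F f` the average over the colours of
all the vertices of `F`.
-/

set_option autoImplicit false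
set_option linter.unusedSectionVars false

namespace Pool.Agent.SOSC

open Finset

variable {V : Type*} [Fintype V] [DecidableEq V] {k : ℕ}

/-- Real functions of a colouring. -/
abbrev Fn (V : Type*) (k : ℕ) := (V → Fin k) → ℝ

/-- Average over all colourings. -/
noncomputable def ev (f : Fn V k) : ℝ := (∑ c, f c) / (k : ℝ) ^ Fintype.card V

/-- Average over the colour of `v`. -/
noncomputable def av (v : V) (f : Fn V k) : Fn V k :=
  fun c => (∑ i : Fin k, f (Function.update c v i)) / k

/-- Average over the colours of all vertices of `F`. -/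
noncomputable def avS (F : Finset V) (f : Fn V k) : Fn V k :=
  fun c => ev (fun d => f (F.piecewise d c))

/-- `f` depends only on the colours of the vertices of `S`. -/
def DepOn (S : Finset V) (f : Fn V k) : Prop := ∀ c c', (∀ v ∈ S, c v = c' v) → f c = f c'

/-- The colouring is proper on `G[S]`. -/
def Proper (G : SimpleGraph V) (S : Finset V) (c : V → Fin k) : Prop :=
  ∀ u ∈ S, ∀ v ∈ S, G.Adj u v → c u ≠ c v

open Classical in
/-- Indicator of the colourings which are proper on `S`. -/
noncomputable def pind (G : SimpleGraph V) (S : Finset V) : Fn V k :=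
  fun c => if Proper G S c then 1 else 0

/-- The space `W_S`: functions of the colours of `S` which vanish if the colouring of `G[S]` is not
proper and have average `0` in each variable of `S`. -/
structure IsW (G : SimpleGraph V) (S : Finset V) (f : Fn V k) : Prop where
  dep : DepOn S f
  prop : ∀ c, ¬ Proper G S c → f c = 0
  pure : ∀ v ∈ S, av v f = 0

/-- The weight `∏_{v ∈ S} (1 + θ(c v))`. -/
noncomputable def rho (θ : Fin k → ℝ) (S : Finset V) : Fn V k := fun c => ∏ v ∈ S, (1 + θ (c v))

/-- `h` is the (signed) density on the colours of `S`: it depends only on `S`, vanishes on improper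
colourings of `G[S]` and has the same integrals as `∏ (1 + θ(c v))` against all elements of all
spaces `W_T`, `T ⊆ S`. -/
structure IsDens (G : SimpleGraph V) (θ : Fin k → ℝ) (S : Finset V) (h : Fn V k) : Prop where
  dep : DepOn S h
  prop : ∀ c, ¬ Proper G S c → h c = 0
  pair : ∀ T ⊆ S, ∀ w : Fn V k, IsW G T w →
    ev (fun c => w c * h c) = ev (fun c => w c * rho θ S c)

open Classical in
/-- The density of `S` (if it exists). -/
noncomputable def dens (G : SimpleGraph V) (θ : Fin k → ℝ) (S : Finset V) : Fn V k :=
  if H : ∃ h, IsDens G θ S h then H.choose else 0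

/-! ### `ev` -/

theorem ev_add (f g : Fn V k) : ev (fun c => f c + g c) = ev f + ev g := by
  simp only [ev, sum_add_distrib, add_div]

theorem ev_sub (f g : Fn V k) : ev (fun c => f c - g c) = ev f - ev g := by
  simp only [ev, sum_sub_distrib, sub_div]

theorem ev_neg (f : Fn V k) : ev (fun c => - f c) = - ev f := by
  simp only [ev, sum_neg_distrib, neg_div]

theorem ev_smul (a : ℝ) (f : Fn V k) : ev (fun c => a * f c) = a * ev f := by
  simp only [ev, ← mul_sum, mul_div_assoc]

theorem ev_mul_const (a : ℝ) (f : Fn V k) : ev (fun c => f c * a) = ev f * a := by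
  simp only [ev, ← sum_mul, div_mul_eq_mul_div]

theorem ev_sum {ι : Type*} (s : Finset ι) (f : ι → Fn V k) :
    ev (fun c => ∑ i ∈ s, f i c) = ∑ i ∈ s, ev (f i) := by
  simp only [ev]
  rw [sum_comm, sum_div]

theorem ev_zero : ev (fun _ : V → Fin k => (0 : ℝ)) = 0 := by
  simp [ev]

theorem ev_congr {f g : Fn V k} (h : ∀ c, f c = g c) : ev f = ev g := by
  rw [funext h]

theorem ev_mono {f g : Fn V k} (h : ∀ c, f c ≤ g c) : ev f ≤ ev g := by
  unfold ev
  exact div_le_div_of_nonneg_right (sum_le_sum fun c _ => h c) (by positivity)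

theorem ev_nonneg {f : Fn V k} (h : ∀ c, 0 ≤ f c) : 0 ≤ ev f := by
  unfold ev
  exact div_nonneg (sum_nonneg fun c _ => h c) (by positivity)

theorem abs_ev_le (f : Fn V k) : |ev f| ≤ ev (fun c => |f c|) := by
  unfold ev
  rw [abs_div, abs_of_nonneg (by positivity : (0:ℝ) ≤ (k : ℝ) ^ Fintype.card V)]
  exact div_le_div_of_nonneg_right (abs_sum_le_sum_abs _ _) (by positivity)

theorem ev_const [NeZero k] (a : ℝ) : ev (fun _ : V → Fin k => a) = a := by
  have hk : (k : ℝ) ≠ 0 := Nat.cast_ne_zero.2 (NeZero.ne k)
  simp only [ev, sum_const, card_univ, Fintype.card_pi, Fintype.card_fin, prod_const, nsmul_eq_mul,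
    Nat.cast_pow]
  field_simp

/-- Cauchy–Schwarz. -/
theorem ev_mul_sq_le (f g : Fn V k) :
    (ev fun c => f c * g c) ^ 2 ≤ (ev fun c => f c ^ 2) * (ev fun c => g c ^ 2) := by
  simp only [ev]
  rw [div_pow, div_mul_div_comm, sq ((k : ℝ) ^ Fintype.card V)]
  exact div_le_div_of_nonneg_right (sum_mul_sq_le_sq_mul_sq _ _ _) (by positivity)

theorem abs_ev_mul_le (f g : Fn V k) :
    |ev fun c => f c * g c| ≤ Real.sqrt (ev fun c => f c ^ 2) * Real.sqrt (ev fun c => g c ^ 2) := by
  rw [← Real.sqrt_mul (ev_nonneg fun c => sq_nonneg _)]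
  exact Real.abs_le_sqrt (ev_mul_sq_le f g)

/-- Weighted Cauchy–Schwarz. -/
theorem ev_abs_mul_abs_mul_le (f g w : Fn V k) (hw : ∀ c, 0 ≤ w c) :
    (ev fun c => |f c| * |g c| * w c) ≤
      Real.sqrt (ev fun c => f c ^ 2 * w c) * Real.sqrt (ev fun c => g c ^ 2 * w c) := by
  have h := abs_ev_mul_le (fun c => |f c| * Real.sqrt (w c)) (fun c => |g c| * Real.sqrt (w c))
  have h1 : ∀ c, |f c| * Real.sqrt (w c) * (|g c| * Real.sqrt (w c)) = |f c| * |g c| * w c := by
    intro c
    have := Real.mul_self_sqrt (hw c)
    calc _ = |f c| * |g c| * (Real.sqrt (w c) * Real.sqrt (w c)) := by ring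
      _ = _ := by rw [this]
  have h2 : ∀ f : Fn V k, ∀ c, (|f c| * Real.sqrt (w c)) ^ 2 = f c ^ 2 * w c := by
    intro f c
    rw [mul_pow, sq_abs, Real.sq_sqrt (hw c)]
  simp only [h1, h2] at h
  exact (le_abs_self _).trans h

theorem eq_zero_of_ev_sq [NeZero k] {f : Fn V k} (h : (ev fun c => f c ^ 2) = 0) : f = 0 := by
  have hk : (k : ℝ) ≠ 0 := Nat.cast_ne_zero.2 (NeZero.ne k)
  have h1 : (∑ c, f c ^ 2) = 0 := by
    have h2 : (k : ℝ) ^ Fintype.card V ≠ 0 := pow_ne_zero _ hk
    unfold ev at h
    rcases div_eq_zero_iff.1 h with h3 | h3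
    · exact h3
    · exact absurd h3 h2
  rw [sum_eq_zero_iff_of_nonneg fun c _ => sq_nonneg _] at h1
  funext c
  exact pow_eq_zero_iff (two_ne_zero) |>.1 (h1 c (mem_univ c))

/-! ### `av` -/

theorem ev_av [NeZero k] (v : V) (f : Fn V k) : ev (av v f) = ev f := by
  have hk : (k : ℝ) ≠ 0 := Nat.cast_ne_zero.2 (NeZero.ne k)
  simp only [ev, av]
  congr 1
  rw [← sum_div, div_eq_iff hk]
  have h1 : (∑ c : V → Fin k, ∑ i : Fin k, f (Function.update c v i)) =
      ∑ c : V → Fin k, ∑ _i : Fin k, f c := by
    rw [← sum_product', ← sum_product']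
    refine sum_bij' (fun x _ => (Function.update x.1 v x.2, x.1 v))
      (fun x _ => (Function.update x.1 v x.2, x.1 v)) ?_ ?_ ?_ ?_ ?_
    · intro x _; simp
    · intro x _; simp
    · intro x _; simp
    · intro x _; simp
    · intro x _; simp
  rw [h1]
  simp [mul_comm, mul_sum]

theorem av_add (v : V) (f g : Fn V k) : av v (fun c => f c + g c) = fun c => av v f c + av v g c := by
  funext c
  simp only [av, sum_add_distrib, add_div]

theorem av_sub (v : V) (f g : Fn V k) : av v (fun c => f c - g c) = fun c => av v f c - av v g c := by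
  funext c
  simp only [av, sum_sub_distrib, sub_div]

theorem av_smul (v : V) (a : ℝ) (f : Fn V k) : av v (fun c => a * f c) = fun c => a * av v f c := by
  funext c
  simp only [av, ← mul_sum, mul_div_assoc]

theorem av_sum {ι : Type*} (v : V) (s : Finset ι) (f : ι → Fn V k) :
    av v (fun c => ∑ i ∈ s, f i c) = fun c => ∑ i ∈ s, av v (f i) c := by
  funext c
  simp only [av]
  rw [sum_comm, sum_div]

/-- If `f` does not depend on the colour of `v` then `av v f = f`. -/
theorem av_of_dep [NeZero k] {S : Finset V} {v : V} (hv : v ∉ S) {f : Fn V k} (hf : DepOn S f) :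
    av v f = f := by
  have hk : (k : ℝ) ≠ 0 := Nat.cast_ne_zero.2 (NeZero.ne k)
  funext c
  have h1 : ∀ i : Fin k, f (Function.update c v i) = f c := by
    intro i
    apply hf
    intro u hu
    have : u ≠ v := fun h => hv (h ▸ hu)
    simp [this]
  simp only [av, h1, sum_const, card_univ, Fintype.card_fin, nsmul_eq_mul]
  field_simp

/-- A factor which does not depend on the colour of `v` can be taken out. -/
theorem av_mul {S : Finset V} {v : V} (hv : v ∉ S) {g : Fn V k} (hg : DepOn S g) (f : Fn V k) :
    av v (fun c => g c * f c) = fun c => g c * av v f c := by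
  funext c
  have h1 : ∀ i : Fin k, g (Function.update c v i) = g c := by
    intro i
    apply hg
    intro u hu
    have : u ≠ v := fun h => hv (h ▸ hu)
    simp [this]
  simp only [av, h1, ← mul_sum, mul_div_assoc]

theorem DepOn.mono {S T : Finset V} {f : Fn V k} (hf : DepOn S f) (h : S ⊆ T) : DepOn T f :=
  fun c c' hc => hf c c' fun v hv => hc v (h hv)

theorem DepOn.mul {S : Finset V} {f g : Fn V k} (hf : DepOn S f) (hg : DepOn S g) :
    DepOn S (fun c => f c * g c) := fun c c' hc => by simp only [hf c c' hc, hg c c' hc]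

theorem DepOn.add {S : Finset V} {f g : Fn V k} (hf : DepOn S f) (hg : DepOn S g) :
    DepOn S (fun c => f c + g c) := fun c c' hc => by simp only [hf c c' hc, hg c c' hc]

theorem DepOn.sub {S : Finset V} {f g : Fn V k} (hf : DepOn S f) (hg : DepOn S g) :
    DepOn S (fun c => f c - g c) := fun c c' hc => by simp only [hf c c' hc, hg c c' hc]

theorem DepOn.smul {S : Finset V} (a : ℝ) {f : Fn V k} (hf : DepOn S f) :
    DepOn S (fun c => a * f c) := fun c c' hc => by simp only [hf c c' hc]

theorem DepOn.sum {ι : Type*} {S : Finset V} {s : Finset ι} {f : ι → Fn V k}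
    (hf : ∀ i ∈ s, DepOn S (f i)) : DepOn S (fun c => ∑ i ∈ s, f i c) :=
  fun c c' hc => sum_congr rfl fun i hi => hf i hi c c' hc

theorem DepOn.const (S : Finset V) (a : ℝ) : DepOn S (fun _ : V → Fin k => a) :=
  fun _ _ _ => rfl

theorem DepOn.av {S : Finset V} {f : Fn V k} (hf : DepOn S f) (v : V) :
    DepOn (S.erase v) (av v f) := by
  intro c c' hc
  simp only [SOSC.av]
  congr 1
  refine sum_congr rfl fun i _ => hf _ _ ?_
  intro u hu
  by_cases huv : u = v
  · subst huv; simp
  · simp [huv, hc u (mem_erase.2 ⟨huv, hu⟩)]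

theorem depOn_pind (G : SimpleGraph V) (S : Finset V) : DepOn S (pind G S : Fn V k) := by
  classical
  intro c c' hc
  have : Proper G S c ↔ Proper G S c' := by
    constructor
    · intro h u hu v hv huv
      rw [← hc u hu, ← hc v hv]; exact h u hu v hv huv
    · intro h u hu v hv huv
      rw [hc u hu, hc v hv]; exact h u hu v hv huv
  simp [pind, this]

theorem pind_mul_self (G : SimpleGraph V) (S : Finset V) (c : V → Fin k) :
    pind G S c * pind G S c = pind G S c := by
  unfold pind; split_ifs <;> simp

theorem pind_nonneg (G : SimpleGraph V) (S : Finset V) (c : V → Fin k) : 0 ≤ pind G S c := by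
  unfold pind; split_ifs <;> simp

theorem pind_le_one (G : SimpleGraph V) (S : Finset V) (c : V → Fin k) : pind G S c ≤ 1 := by
  unfold pind; split_ifs <;> simp

theorem av_comm (u v : V) (f : Fn V k) : av u (av v f) = av v (av u f) := by
  by_cases h : u = v
  · rw [h]
  funext c
  simp only [av, sum_div, div_div]
  rw [sum_comm]
  refine sum_congr rfl fun i _ => sum_congr rfl fun j _ => ?_
  rw [Function.update_comm h]

/-- The average of a product `g * f` with `g` independent of `v` and `f` pure in `v` is `0`. -/
theorem ev_mul_pure [NeZero k] {S : Finset V} {v : V} (hv : v ∉ S) {g f : Fn V k}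
    (hg : DepOn S g) (hf : av v f = 0) : ev (fun c => g c * f c) = 0 := by
  rw [← ev_av v, av_mul hv hg f, hf]
  simp [ev_zero]

/-! ### `avS` -/

theorem avS_empty [NeZero k] (f : Fn V k) : avS ∅ f = f := by
  funext c
  simp [avS, ev_const]

theorem avS_congr {F : Finset V} {f g : Fn V k} (h : ∀ c, f c = g c) : avS F f = avS F g := by
  rw [funext h]

theorem avS_add (F : Finset V) (f g : Fn V k) :
    avS F (fun c => f c + g c) = fun c => avS F f c + avS F g c := by
  funext c
  exact ev_add _ _

theorem avS_smul (F : Finset V) (a : ℝ) (f : Fn V k) :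
    avS F (fun c => a * f c) = fun c => a * avS F f c := by
  funext c
  exact ev_smul _ _

theorem avS_sum {ι : Type*} (F : Finset V) (s : Finset ι) (f : ι → Fn V k) :
    avS F (fun c => ∑ i ∈ s, f i c) = fun c => ∑ i ∈ s, avS F (f i) c := by
  funext c
  exact ev_sum _ _

theorem DepOn.avS {S : Finset V} {f : Fn V k} (hf : DepOn S f) (F : Finset V) :
    DepOn (S \ F) (avS F f) := by
  intro c c' hc
  refine ev_congr fun d => hf _ _ ?_
  intro u hu
  by_cases huF : u ∈ F
  · simp [huF]
  · simp [huF, hc u (mem_sdiff.2 ⟨hu, huF⟩)]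

/-- A factor which does not depend on the colours of `F` can be taken out. -/
theorem avS_mul {S F : Finset V} (hSF : Disjoint S F) {g : Fn V k} (hg : DepOn S g) (f : Fn V k) :
    avS F (fun c => g c * f c) = fun c => g c * avS F f c := by
  funext c
  simp only [avS]
  rw [← ev_smul]
  refine ev_congr fun d => ?_
  congr 1
  apply hg
  intro u hu
  have : u ∉ F := Finset.disjoint_left.1 hSF hu
  simp [this]

theorem avS_insert [NeZero k] {v : V} {F : Finset V} (hv : v ∉ F) (f : Fn V k) :
    avS (insert v F) f = av v (avS F f) := by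
  funext c
  simp only [avS, av]
  have h1 : ∀ d : V → Fin k, ∀ i : Fin k,
      f ((insert v F).piecewise (Function.update d v i) c) =
        f (F.piecewise d (Function.update c v i)) := by
    intro d i
    congr 1
    funext u
    by_cases huv : u = v
    · subst huv; simp [hv]
    · by_cases huF : u ∈ F
      · simp [huF, huv]
      · simp [huF, huv]
  have h2 := ev_av v (fun d => f ((insert v F).piecewise d c))
  have h3 : ∀ d, av v (fun d => f ((insert v F).piecewise d c)) d =
      (∑ i : Fin k, f (F.piecewise d (Function.update c v i))) / k := by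
    intro d
    simp only [av, h1]
  rw [← h2, ev_congr h3, ← ev_sum, div_eq_mul_inv, ← ev_mul_const]
  exact ev_congr fun d => by rw [div_eq_mul_inv]

theorem ev_avS [NeZero k] (F : Finset V) (f : Fn V k) : ev (avS F f) = ev f := by
  induction F using Finset.induction_on with
  | empty => rw [avS_empty]
  | insert v F hv ih => rw [avS_insert hv, ev_av, ih]

theorem avS_univ (f : Fn V k) (c : V → Fin k) : avS univ f c = ev f := by
  unfold avS
  refine ev_congr fun d => ?_
  congr 1
  funext u
  simp

/-- If `f` does not depend on the colours of `F` then `avS F f = f`. -/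
theorem avS_of_dep [NeZero k] {S F : Finset V} (hSF : Disjoint S F) {f : Fn V k}
    (hf : DepOn S f) : avS F f = f := by
  have := avS_mul hSF hf (fun _ => 1)
  simp only [mul_one] at this
  rw [this]
  funext c
  have h2 : avS F (fun _ : V → Fin k => (1 : ℝ)) c = 1 := by simp [avS, ev_const]
  rw [h2, mul_one]

/-- If `f` depends only on the colours of `F` then `avS F f` is the constant `ev f`. -/
theorem avS_eq_ev [NeZero k] {F : Finset V} {f : Fn V k} (hf : DepOn F f) (c : V → Fin k) :
    avS F f c = ev f := by
  refine ev_congr fun d => hf _ _ fun v hv => by simp [hv]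

/-- Functions of disjoint sets of colours are independent. -/
theorem ev_mul_indep [NeZero k] {A B : Finset V} (hAB : Disjoint A B) {f g : Fn V k}
    (hf : DepOn A f) (hg : DepOn B g) : ev (fun c => f c * g c) = ev f * ev g := by
  rw [← ev_avS B, avS_mul hAB hf g]
  rw [← ev_mul_const]
  exact ev_congr fun c => by rw [avS_eq_ev hg]

/-- Jensen: averaging contracts the square norm. -/
theorem avS_sq_le [NeZero k] (F : Finset V) (f : Fn V k) (c : V → Fin k) :
    (avS F f c) ^ 2 ≤ avS F (fun c => f c ^ 2) c := by
  have h := ev_mul_sq_le (fun _ : V → Fin k => (1 : ℝ)) (fun d => f (F.piecewise d c))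
  simp only [one_mul, one_pow, ev_const] at h
  exact h

theorem ev_avS_sq_le [NeZero k] (F : Finset V) (f : Fn V k) :
    (ev fun c => avS F f c ^ 2) ≤ ev fun c => f c ^ 2 := by
  calc (ev fun c => avS F f c ^ 2) ≤ ev (avS F (fun c => f c ^ 2)) :=
        ev_mono fun c => avS_sq_le F f c
    _ = _ := ev_avS F _

/-! ### The spaces `W_S` -/

theorem IsW.zero (G : SimpleGraph V) (S : Finset V) : IsW G S (0 : Fn V k) where
  dep := fun _ _ _ => rfl
  prop := fun _ _ => rfl
  pure := fun v _ => by funext c; simp [av]

theorem IsW.add {G : SimpleGraph V} {S : Finset V} {f g : Fn V k} (hf : IsW G S f)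
    (hg : IsW G S g) : IsW G S (fun c => f c + g c) where
  dep := hf.dep.add hg.dep
  prop := fun c hc => by simp [hf.prop c hc, hg.prop c hc]
  pure := fun v hv => by rw [av_add, hf.pure v hv, hg.pure v hv]; funext c; simp

theorem IsW.smul {G : SimpleGraph V} {S : Finset V} (a : ℝ) {f : Fn V k} (hf : IsW G S f) :
    IsW G S (fun c => a * f c) where
  dep := hf.dep.smul a
  prop := fun c hc => by simp [hf.prop c hc]
  pure := fun v hv => by rw [av_smul, hf.pure v hv]; funext c; simp

theorem IsW.sum {ι : Type*} {G : SimpleGraph V} {S : Finset V} {s : Finset ι} {f : ι → Fn V k}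
    (hf : ∀ i ∈ s, IsW G S (f i)) : IsW G S (fun c => ∑ i ∈ s, f i c) where
  dep := DepOn.sum fun i hi => (hf i hi).dep
  prop := fun c hc => sum_eq_zero fun i hi => (hf i hi).prop c hc
  pure := fun v hv => by
    rw [av_sum]; funext c
    exact sum_eq_zero fun i hi => by rw [(hf i hi).pure v hv]; rfl

/-- Value `0` if two adjacent vertices of `S` have the same colour. -/
theorem IsW.eq_zero {G : SimpleGraph V} {S : Finset V} {f : Fn V k} (hf : IsW G S f)
    {u v : V} (hu : u ∈ S) (hv : v ∈ S) (huv : G.Adj u v) {c : V → Fin k} (hc : c u = c v) :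
    f c = 0 :=
  hf.prop c fun h => h u hu v hv huv hc

/-- Slices of elements of `W_S` are elements of `W_Y`, `Y ⊆ S`. -/
theorem IsW.slice {G : SimpleGraph V} {S Y : Finset V} (hY : Y ⊆ S) {f : Fn V k}
    (hf : IsW G S f) (c : V → Fin k) : IsW G Y (fun d => f (Y.piecewise d c)) where
  dep := fun d d' hd => hf.dep _ _ fun v _ => by
    by_cases h : v ∈ Y
    · simp [h, hd v h]
    · simp [h]
  prop := fun d hd => by
    apply hf.prop
    intro h
    apply hd
    intro u hu v hv huv
    have := h u (hY hu) v (hY hv) huv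
    simpa [hu, hv] using this
  pure := fun v hv => by
    funext d
    have h := congrFun (hf.pure v (hY hv)) (Y.piecewise d c)
    simp only [av, Pi.zero_apply] at h ⊢
    rw [← h]
    congr 1
    refine sum_congr rfl fun i _ => ?_
    congr 1
    funext u
    by_cases huv : u = v
    · subst huv; simp [hv]
    · by_cases huY : u ∈ Y <;> simp [huY, huv]

end Pool.Agent.SOSC
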