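import Pool.Agent.SOSC.Pt

/-!
# SOSC DERIV: `sgm (pt ε τ q) U i` is a derivative of `pt ε τ q U`

`ctr t j = t j - (∑ t)/k`.

## cn_ctr
For `f ∈ W_{U ∪ F}` (pure on `F`): `cn (ctr t) F f = cn t F f`.  Expand
`∏_{v∈F} (t(c v) - t̄) = ∑_{A ⊆ F} (-t̄)^|F \ A| ∏_{v ∈ A} t(c v)`; for `A ≠ F` the term
`avS F (f ∏_{A} t)` vanishes because `av v f = 0` for `v ∈ F \ A` (`avS_insert`,
`av_mul`).  Or replace the factors one after the other.

## pt_poly
Put `Q = ∑_{F ⊆ univ \ U} ε^|F| k^{-n} ∑_d q_{U∪F}(F.piecewise d c) ∏_{v ∈ F} (if d v = i then X else C (t (d v)))`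
(sum over `|F| ≤ r` only, the others vanish).  `natDegree Q ≤ r`.  By `cn_ctr`,
`Q(s) = pt ε (ctr (update t i s)) q U c`.
Derivative at `s = t i`: the product rule gives
`Q'(t i) = ∑_F ε^|F| ∑_{v ∈ F} avS F (q_{U∪F} 1[c v = i] ∏_{w ∈ F \ v} t(c w))`, and
`avS F (g 1[c v = i]) (c) = (1/k) avS (F \ v) (g) (c[v ↦ i])` (with `g(c[v ↦ i])`), so, with
`F = insert v F'`,
`Q'(t i) = (ε/k) ∑_{v ∉ U} ∑_{F' ∩ (U ∪ v) = ∅} ε^|F'| cn t F' (q_{(U ∪ v) ∪ F'}) (c[v ↦ i])
 = (ε/k) ∑_{v ∉ U} pt_{U ∪ v}(c[v ↦ i])` (again `cn_ctr`).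
-/

set_option autoImplicit false
set_option linter.unusedSectionVars false

namespace Pool.Agent.SOSC

open Finset

variable {V : Type*} [Fintype V] [DecidableEq V] {k : ℕ}

/-- Centering. -/
noncomputable def ctr (t : Fin k → ℝ) : Fin k → ℝ := fun j => t j - (∑ i, t i) / k

theorem sum_ctr [NeZero k] (t : Fin k → ℝ) : ∑ i, ctr t i = 0 := by
  have hk : (k : ℝ) ≠ 0 := Nat.cast_ne_zero.2 (NeZero.ne k)
  simp only [ctr, sum_sub_distrib, sum_const, card_univ, Fintype.card_fin, nsmul_eq_mul]
  field_simp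
  ring

private theorem deriv_zero [NeZero k] {Y : Finset V} {v : V} (hv : v ∈ Y) {f : Fn V k}
    (hf : av v f = 0) : avS Y f = 0 := by
  funext c
  have h1 : avS Y f c = ev (av v (fun d => f (Y.piecewise d c))) := by
    rw [ev_av]
    rfl
  have h2 : av v (fun d => f (Y.piecewise d c)) = fun _ => 0 := by
    funext d
    have h3 := congrFun hf (Y.piecewise d c)
    simp only [av, Pi.zero_apply] at h3 ⊢
    rw [← h3]
    congr 1
    refine sum_congr rfl fun i _ => ?_
    congr 1
    funext u
    by_cases huv : u = v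
    · subst huv; simp [hv]
    · by_cases huY : u ∈ Y <;> simp [huY, huv]
  rw [h1, h2, ev_zero]
  rfl

private theorem deriv_shift [NeZero k] {F : Finset V} {f : Fn V k} (hf : ∀ v ∈ F, av v f = 0)
    (τ : Fin k → ℝ) (b : ℝ) :
    avS F (fun c => f c * ∏ v ∈ F, (τ (c v) + b)) =
      avS F (fun c => f c * ∏ v ∈ F, τ (c v)) := by
  have e1 : ∀ c : V → Fin k, f c * ∏ v ∈ F, (τ (c v) + b) =
      ∑ A ∈ F.powerset, b ^ (F \ A).card * ((∏ v ∈ A, τ (c v)) * f c) := by
    intro c
    rw [prod_add, mul_sum]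
    refine sum_congr rfl fun A _ => ?_
    rw [prod_const]
    ring
  rw [avS_congr e1, avS_sum]
  funext c
  rw [sum_eq_single F]
  · rw [avS_smul]
    have e2 : (F \ F).card = 0 := by simp
    simp only [e2, pow_zero, one_mul]
    rw [avS_congr (fun c => mul_comm (∏ v ∈ F, τ (c v)) (f c))]
  · intro A hA hne
    have hAF : A ⊆ F := mem_powerset.1 hA
    obtain ⟨v, hvF, hvA⟩ : ∃ v, v ∈ F ∧ v ∉ A := by
      by_contra hcon
      push Not at hcon
      exact hne (Subset.antisymm hAF hcon)
    have hdep : DepOn A (fun c : V → Fin k => ∏ u ∈ A, τ (c u)) := by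
      intro c c' hc
      exact prod_congr rfl fun u hu => by rw [hc u hu]
    have h1 : av v (fun c : V → Fin k => (∏ u ∈ A, τ (c u)) * f c) = 0 := by
      rw [av_mul hvA hdep, hf v hvF]
      funext c
      simp
    rw [avS_smul]
    simp only
    rw [deriv_zero hvF h1]
    simp
  · intro h
    exact absurd (mem_powerset.2 (Subset.refl F)) h

theorem cn_ctr [NeZero k] (G : SimpleGraph V) (t : Fin k → ℝ) {U F : Finset V}
    (hUF : Disjoint U F) {f : Fn V k} (hf : IsW G (U ∪ F) f) : cn (ctr t) F f = cn t F f := by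
  unfold cn
  have h := deriv_shift (F := F) (f := f) (fun v hv => hf.pure v (mem_union_right U hv)) t
    (-((∑ i, t i) / k))
  rw [← h]
  rfl

/-- integrating over the colour of `v` against `1[c v = i]` -/
private theorem deriv_single [NeZero k] {F : Finset V} {v : V} (hv : v ∈ F) (i : Fin k)
    (g : Fn V k) (c : V → Fin k) :
    avS F (fun c => g c * (if c v = i then 1 else 0)) c =
      1 / k * avS (F.erase v) g (Function.update c v i) := by
  have h1 : F = insert v (F.erase v) := (insert_erase hv).symm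
  have h2 : avS F (fun c => g c * (if c v = i then 1 else 0)) =
      av v (avS (F.erase v) (fun c => g c * (if c v = i then 1 else 0))) := by
    conv_lhs => rw [h1]
    exact avS_insert (notMem_erase v F) _
  have hdep : DepOn {v} (fun c : V → Fin k => if c v = i then (1 : ℝ) else 0) := by
    intro c c' hc
    simp only [hc v (mem_singleton_self v)]
  have hdis : Disjoint ({v} : Finset V) (F.erase v) := by
    rw [Finset.disjoint_singleton_left]
    exact notMem_erase v F
  have h3 : avS (F.erase v) (fun c => g c * (if c v = i then 1 else 0)) =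
      fun c => (if c v = i then 1 else 0) * avS (F.erase v) g c := by
    rw [avS_congr (fun c => mul_comm (g c) _)]
    exact avS_mul hdis hdep g
  rw [h2, h3]
  unfold av
  simp only [Function.update_self, ite_mul, one_mul, zero_mul]
  rw [sum_ite_eq' univ i, if_pos (mem_univ i)]
  ring

/-- the factor of `v` -/
private noncomputable def dfac (t : Fin k → ℝ) (i : Fin k) (d : V → Fin k) (v : V) :
    Polynomial ℝ := if d v = i then Polynomial.X else Polynomial.C (t (d v))

private noncomputable def dQF (q : Finset V → Fn V k) (ε : ℝ) (t : Fin k → ℝ) (i : Fin k)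
    (U : Finset V) (c : V → Fin k) (F : Finset V) : Polynomial ℝ :=
  Polynomial.C (ε ^ F.card * ((k : ℝ) ^ Fintype.card V)⁻¹) *
    ∑ d : V → Fin k, Polynomial.C (q (U ∪ F) (F.piecewise d c)) * ∏ v ∈ F, dfac t i d v

private theorem dfac_eval (t : Fin k → ℝ) (i : Fin k) (d : V → Fin k) (v : V) (s : ℝ) :
    (dfac t i d v).eval s = Function.update t i s (d v) := by
  unfold dfac
  rw [Function.update_apply]
  split_ifs <;> simp

private theorem dfac_eval_self (t : Fin k → ℝ) (i : Fin k) (d : V → Fin k) (v : V) :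
    (dfac t i d v).eval (t i) = t (d v) := by
  rw [dfac_eval, Function.update_eq_self]

private theorem dfac_deriv (t : Fin k → ℝ) (i : Fin k) (d : V → Fin k) (v : V) (s : ℝ) :
    (dfac t i d v).derivative.eval s = if d v = i then 1 else 0 := by
  unfold dfac
  split_ifs <;> simp

private theorem dfac_deg (t : Fin k → ℝ) (i : Fin k) (d : V → Fin k) (v : V) :
    (dfac t i d v).natDegree ≤ 1 := by
  unfold dfac
  split_ifs <;> simp

private theorem dcn_eq (τ : Fin k → ℝ) (F : Finset V) (f : Fn V k) (c : V → Fin k) :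
    cn τ F f c = ((k : ℝ) ^ Fintype.card V)⁻¹ *
      ∑ d : V → Fin k, f (F.piecewise d c) * ∏ v ∈ F, τ (d v) := by
  unfold cn avS ev
  rw [div_eq_inv_mul]
  congr 1
  refine sum_congr rfl fun d _ => ?_
  show f (F.piecewise d c) * ∏ v ∈ F, τ ((F.piecewise d c) v) = _
  congr 1
  refine prod_congr rfl fun v hv => ?_
  rw [Finset.piecewise_eq_of_mem F d c hv]

private theorem dQF_eval (q : Finset V → Fn V k) (ε : ℝ) (t : Fin k → ℝ) (i : Fin k)
    (U : Finset V) (c : V → Fin k) (F : Finset V) (s : ℝ) :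
    (dQF q ε t i U c F).eval s =
      ε ^ F.card * cn (Function.update t i s) F (q (U ∪ F)) c := by
  unfold dQF
  rw [dcn_eq, Polynomial.eval_mul, Polynomial.eval_C, Polynomial.eval_finsetSum, mul_assoc]
  congr 2
  refine sum_congr rfl fun d _ => ?_
  rw [Polynomial.eval_mul, Polynomial.eval_C, Polynomial.eval_prod]
  rw [prod_congr rfl fun v _ => dfac_eval t i d v s]

private theorem dQF_deg {G : SimpleGraph V} {r : ℕ} {q : Finset V → Fn V k} (hq : Fam G r q)
    (ε : ℝ) (t : Fin k → ℝ) (i : Fin k) (U : Finset V) (c : V → Fin k) (F : Finset V) :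
    (dQF q ε t i U c F).natDegree ≤ r := by
  unfold dQF
  by_cases hF : F.card ≤ r
  · refine (Polynomial.natDegree_C_mul_le _ _).trans ?_
    apply Polynomial.natDegree_sum_le_of_forall_le
    intro d _
    refine (Polynomial.natDegree_C_mul_le _ _).trans ?_
    refine (Polynomial.natDegree_prod_le _ _).trans ?_
    refine (sum_le_sum fun v _ => dfac_deg t i d v).trans ?_
    simpa using hF
  · have h1 : q (U ∪ F) = 0 := by
      apply hq.big
      have : F.card ≤ (U ∪ F).card := card_le_card subset_union_right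
      omega
    simp [h1]

private theorem dQF_deriv [NeZero k] (q : Finset V → Fn V k) (ε : ℝ) (t : Fin k → ℝ) (i : Fin k)
    (U : Finset V) (c : V → Fin k) (F : Finset V) :
    (dQF q ε t i U c F).derivative.eval (t i) =
      ∑ v ∈ F, ε ^ F.card * (1 / k * cn t (F.erase v) (q (U ∪ F)) (Function.update c v i)) := by
  have h1 : ∀ v ∈ F, 1 / (k : ℝ) * cn t (F.erase v) (q (U ∪ F)) (Function.update c v i) =
      ((k : ℝ) ^ Fintype.card V)⁻¹ * ∑ d : V → Fin k, q (U ∪ F) (F.piecewise d c) *
        ((∏ w ∈ F.erase v, t (d w)) * (if d v = i then 1 else 0)) := by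
    intro v hv
    unfold cn
    rw [← deriv_single hv i]
    unfold avS ev
    rw [div_eq_inv_mul]
    congr 1
    refine sum_congr rfl fun d _ => ?_
    have e2 : (F.piecewise d c) v = d v := Finset.piecewise_eq_of_mem F d c hv
    have e3 : ∏ w ∈ F.erase v, t ((F.piecewise d c) w) = ∏ w ∈ F.erase v, t (d w) :=
      prod_congr rfl fun w hw => by
        rw [Finset.piecewise_eq_of_mem F d c (mem_of_mem_erase hw)]
    simp only [e2, e3]
    ring
  rw [sum_congr rfl fun v hv => by rw [h1 v hv]]
  unfold dQF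
  rw [Polynomial.derivative_C_mul, Polynomial.eval_mul, Polynomial.eval_C,
    Polynomial.derivative_sum, Polynomial.eval_finsetSum, mul_assoc, ← mul_sum, ← mul_sum,
    sum_comm]
  congr 2
  refine sum_congr rfl fun d _ => ?_
  rw [Polynomial.derivative_C_mul, Polynomial.eval_mul, Polynomial.eval_C,
    Polynomial.derivative_prod_finset, Polynomial.eval_finsetSum, mul_sum]
  refine sum_congr rfl fun v _ => ?_
  rw [Polynomial.eval_mul, Polynomial.eval_prod, dfac_deriv]
  congr 2
  exact prod_congr rfl fun w _ => dfac_eval_self t i d w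

theorem pt_poly [NeZero k] {G : SimpleGraph V} {r : ℕ} {q : Finset V → Fn V k} (hq : Fam G r q)
    (ε : ℝ) (t : Fin k → ℝ) (i : Fin k) (U : Finset V) (c : V → Fin k) :
    ∃ Q : Polynomial ℝ, Q.natDegree ≤ r ∧
      (∀ s : ℝ, Q.eval s = pt ε (ctr (Function.update t i s)) q U c) ∧
      Q.derivative.eval (t i) = ε / k * sgm (pt ε (ctr t) q) U i c := by
  refine ⟨∑ F ∈ (univ \ U).powerset, dQF q ε t i U c F, ?_, ?_, ?_⟩
  · apply Polynomial.natDegree_sum_le_of_forall_le
    intro F _
    exact dQF_deg hq ε t i U c F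
  · intro s
    rw [Polynomial.eval_finsetSum]
    unfold pt
    refine sum_congr rfl fun F hF => ?_
    have hdis : Disjoint U F := by
      rw [Finset.disjoint_left]
      intro x hx hxF
      exact (mem_sdiff.1 (mem_powerset.1 hF hxF)).2 hx
    rw [dQF_eval, cn_ctr G _ hdis (hq.w (U ∪ F))]
  · rw [Polynomial.derivative_sum, Polynomial.eval_finsetSum,
      sum_congr rfl fun F _ => dQF_deriv q ε t i U c F]
    unfold sgm pt
    rw [mul_sum]
    have h1 : ∀ u ∈ univ \ U, ε / k * ∑ F ∈ (univ \ insert u U).powerset,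
        ε ^ F.card * cn (ctr t) F (q (insert u U ∪ F)) (Function.update c u i) =
        ∑ F ∈ (univ \ insert u U).powerset,
          ε ^ (F.card + 1) * (1 / k * cn t F (q (insert u U ∪ F)) (Function.update c u i)) := by
      intro u _
      rw [mul_sum]
      refine sum_congr rfl fun F hF => ?_
      have hdis : Disjoint (insert u U) F := by
        rw [Finset.disjoint_left]
        intro x hx hxF
        exact (mem_sdiff.1 (mem_powerset.1 hF hxF)).2 hx
      rw [cn_ctr G _ hdis (hq.w (insert u U ∪ F)), pow_succ]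
      ring
    rw [sum_congr rfl h1, sum_sigma', sum_sigma']
    refine sum_bij' (fun x _ => ⟨x.2, x.1.erase x.2⟩) (fun y _ => ⟨insert y.1 y.2, y.1⟩)
      ?_ ?_ ?_ ?_ ?_
    · rintro ⟨F, v⟩ hx
      rw [mem_sigma] at hx ⊢
      obtain ⟨hF, hv⟩ := hx
      have hFU := mem_powerset.1 hF
      refine ⟨hFU hv, mem_powerset.2 fun x hx => ?_⟩
      have hx1 := mem_of_mem_erase hx
      have hx2 := ne_of_mem_erase hx
      rw [mem_sdiff, mem_insert, not_or]
      exact ⟨mem_univ x, hx2, (mem_sdiff.1 (hFU hx1)).2⟩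
    · rintro ⟨u, F⟩ hx
      rw [mem_sigma] at hx ⊢
      obtain ⟨hu, hF⟩ := hx
      have hFU := mem_powerset.1 hF
      refine ⟨mem_powerset.2 fun x hx => ?_, mem_insert_self _ _⟩
      rcases mem_insert.1 hx with h | h
      · rw [h]
        exact hu
      · have h2 := (mem_sdiff.1 (hFU h)).2
        rw [mem_insert, not_or] at h2
        exact mem_sdiff.2 ⟨mem_univ x, h2.2⟩
    · rintro ⟨F, v⟩ hx
      rw [mem_sigma] at hx
      obtain ⟨hF, hv⟩ := hx
      simp only
      rw [insert_erase hv]
    · rintro ⟨u, F⟩ hx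
      rw [mem_sigma] at hx
      obtain ⟨hu, hF⟩ := hx
      have huF : u ∉ F := fun h => by
        have := (mem_sdiff.1 (mem_powerset.1 hF h)).2
        exact this (mem_insert_self u U)
      simp only
      rw [erase_insert huF]
    · rintro ⟨F, v⟩ hx
      rw [mem_sigma] at hx
      obtain ⟨hF, hv⟩ := hx
      simp only
      have e1 : insert v U ∪ F.erase v = U ∪ F := by
        rw [insert_union, ← union_insert, insert_erase hv]
      rw [e1, card_erase_add_one hv]

end Pool.Agent.SOSC
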