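import Pool.Agent.SOSC.Spectral
import Pool.Agent.SOSC.Count2

/-!
# SOSC MATSUM: the sum over all matched pairs with `m` edges

By `reindex` with `X S T = E[q_S q_T dens G 0 (S ∪ T)]`, `m · (sum) = ∑_{(S,T) matched, |S \ T| = m-1}
(inner sum)`.  If `S.card ≥ r` or `T.card ≥ r` the inner sum is `0` (`q` vanishes above size `r`:
`insert u S` has `S.card + 1` elements as `u ∉ S`).  Otherwise `edge_sum_bound`.

M-part: `∑_{(S,T)} √(nS S) √(nS T)` over the matched pairs with `|S \ T| = |T \ S| = m - 1`,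
`|S|,|T| ≤ r`: by `schur` with `R = C = 2^r (2rΔ)^(m-1)` (`adm_of_lead`, `lead_of_mat`, `card_adm`) at
most `2^r (2rΔ)^(m-1) ∑_S nS S`, and `∑_S nS S = ∑_{S'} |S'| E[q_{S'}²] ≤ r nrm q`
(`(S, u) ↔ (S' = insert u S, u ∈ S')`).  So the M-part is at most
`2^r CE M k^{-m} 2^r (2rΔ)^(m-1) r nrm q ≤ C3 r (Δ/k)^m (M/Δ) nrm q ≤ C3 r (Δ/k)^r (M/Δ) nrm q`.

P-part: every `S` occurs in at most `2^r (2rΔ)^(m-1) ≤ 2^r (2rΔ)^r` pairs `(S, T)`, so
`∑_{(S,T)} (f S + f T) ≤ 2 · 2^r (2rΔ)^r ∑_S f S` for `f ≥ 0`; `∑_S sgS S = sig q`.  Total at most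
`2^r CE (P/n) 2^(r+1) (2rΔ)^r (sig q + 2r(Δ+1) r nrm q) ≤ K3 r Δ P / n (sig q + nrm q)`.
(`1/m ≤ 1`.)
-/

set_option autoImplicit false
set_option linter.unusedSectionVars false

namespace Pool.Agent.SOSC

open Finset

variable {V : Type*} [Fintype V] [DecidableEq V] {k : ℕ}

/-- Constant of the spectral part. -/
noncomputable def C3 (r : ℕ) : ℝ := r * 4 ^ r * (2 * r) ^ r * CE (2 * r)

/-- Constant of the Perron part. -/
noncomputable def K3 (r Δ : ℕ) (P : ℝ) : ℝ :=
  2 * 4 ^ r * CE (2 * r) * P * (2 * r * Δ) ^ r * (1 + 2 * r ^ 2 * (Δ + 1))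

theorem nS_nonneg (q : Finset V → Fn V k) (S : Finset V) : 0 ≤ nS q S :=
  sum_nonneg fun _ _ => ev_nonneg fun _ => sq_nonneg _

theorem sgS_nonneg (q : Finset V → Fn V k) (S : Finset V) : 0 ≤ sgS q S :=
  sum_nonneg fun _ _ => ev_nonneg fun _ => sq_nonneg _

theorem sum_insert_reindex (f : Finset V → ℝ) :
    ∑ S : Finset V, ∑ u ∈ univ \ S, f (insert u S) = ∑ S : Finset V, (S.card : ℝ) * f S := by
  classical
  have h1 : ∀ S : Finset V, ∑ u ∈ univ \ S, f (insert u S) =
      ∑ u : V, if u ∉ S then f (insert u S) else 0 := by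
    intro S
    rw [← sum_filter]
    refine sum_congr ?_ fun _ _ => rfl
    ext u; simp
  have h2 : ∀ S : Finset V, (S.card : ℝ) * f S = ∑ u : V, if u ∈ S then f S else 0 := by
    intro S
    rw [← sum_filter, sum_const, nsmul_eq_mul]
    congr 2
    simp
  simp only [h1, h2]
  rw [sum_comm, sum_comm (f := fun (S : Finset V) (u : V) => if u ∈ S then f S else 0)]
  refine sum_congr rfl fun u _ => ?_
  rw [← sum_filter, ← sum_filter]
  refine sum_bij' (fun S _ => insert u S) (fun S _ => S.erase u) ?_ ?_ ?_ ?_ ?_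
  · intro S hS; simp
  · intro S hS; simp
  · intro S hS
    simp only [mem_filter, mem_univ, true_and] at hS
    exact erase_insert hS
  · intro S hS
    simp only [mem_filter, mem_univ, true_and] at hS
    exact insert_erase hS
  · intro S hS; rfl

theorem sum_nS_le {G : SimpleGraph V} {r : ℕ} {q : Finset V → Fn V k} (hq : Fam G r q) :
    ∑ S, nS q S ≤ r * nrm q := by
  unfold nS nrm
  rw [sum_insert_reindex (fun S => ev (fun c => q S c ^ 2)), mul_sum]
  refine sum_le_sum fun S _ => ?_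
  by_cases h : S.card ≤ r
  · exact mul_le_mul_of_nonneg_right (by exact_mod_cast h) (ev_nonneg fun c => sq_nonneg _)
  · rw [hq.big S (by omega)]
    have : (fun c : V → Fin k => (0 : Fn V k) c ^ 2) = fun _ => 0 := by funext c; simp
    rw [this, ev_zero]
    simp

open Classical in
/-- The relation used in the Schur test. -/
def NN (G : SimpleGraph V) (r m : ℕ) (S T : Finset V) : Prop :=
  Mat G S T ∧ (S \ T).card = m - 1 ∧ S.card + 1 ≤ r ∧ T.card + 1 ≤ r

open Classical in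
theorem row_NN {G : SimpleGraph V} {r Δ m : ℕ} (hΔ : MaxDeg G Δ) (S : Finset V) :
    (univ.filter (fun T => NN G r m S T)).card ≤ 2 ^ r * (2 * r * Δ) ^ (m - 1) := by
  by_cases hS : S.card ≤ r
  · refine (card_le_card ?_).trans (card_adm hΔ hS (m - 1))
    intro T hT
    obtain ⟨h1, h2, h3, h4⟩ := (mem_filter.1 hT).2
    refine mem_filter.2 ⟨mem_univ _, by omega, adm_of_lead (lead_of_mat h1), ?_⟩
    rw [← mat_card h1]; exact h2
  · have : univ.filter (fun T => NN G r m S T) = ∅ := by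
      refine filter_eq_empty_iff.2 ?_
      rintro T - ⟨h1, h2, h3, h4⟩
      omega
    rw [this]; simp

open Classical in
theorem col_NN {G : SimpleGraph V} {r Δ m : ℕ} (hΔ : MaxDeg G Δ) (T : Finset V) :
    (univ.filter (fun S => NN G r m S T)).card ≤ 2 ^ r * (2 * r * Δ) ^ (m - 1) := by
  by_cases hT : T.card ≤ r
  · refine (card_le_card ?_).trans (card_adm hΔ hT (m - 1))
    intro S hS
    obtain ⟨h1, h2, h3, h4⟩ := (mem_filter.1 hS).2
    exact mem_filter.2 ⟨mem_univ _, by omega, adm_of_lead (lead_of_mat (mat_symm.1 h1)), h2⟩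
  · have : univ.filter (fun S => NN G r m S T) = ∅ := by
      refine filter_eq_empty_iff.2 ?_
      rintro S - ⟨h1, h2, h3, h4⟩
      omega
    rw [this]; simp

open Classical in
theorem mat_sum_bound [NeZero k] (G : SimpleGraph V) {r Δ : ℕ} {M P : ℝ} (hr : 1 ≤ r)
    (hM : 0 ≤ M) (hP : 0 ≤ P) (hk : K0 (2 * r) ≤ k) (hkΔ : k ≤ Δ) (hΔ : MaxDeg G Δ)
    (hspec : Spec G M P) {q : Finset V → Fn V k} (hq : Fam G r q) {m : ℕ} (hm : 1 ≤ m)
    (hmr : m ≤ r) :
    |∑ S, ∑ T, (if Mat G S T ∧ (S \ T).card = m then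
        ev (fun c => q S c * q T c * dens G 0 (S ∪ T) c) else 0)| ≤
      C3 r * ((Δ : ℝ) / k) ^ r * (M / Δ) * nrm q +
        K3 r Δ P / Fintype.card V * (sig q + nrm q) := by
  have hk1 : (1 : ℝ) ≤ k := one_le_k
  have hkΔ' : (k : ℝ) ≤ Δ := by exact_mod_cast hkΔ
  have hΔ1 : (1 : ℝ) ≤ Δ := hk1.trans hkΔ'
  have hr' : (1 : ℝ) ≤ r := by exact_mod_cast hr
  have hm' : (1 : ℝ) ≤ m := by exact_mod_cast hm
  have hnrm : 0 ≤ nrm q := sum_nonneg fun S _ => ev_nonneg fun c => sq_nonneg _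
  have hPn : 0 ≤ P / Fintype.card V := by positivity
  set R : ℝ := 2 ^ r * (2 * r * Δ) ^ (m - 1) with hR
  have hR0 : 0 ≤ R := by positivity
  have hrow : ∀ S : Finset V, ((univ.filter (fun T => NN G r m S T)).card : ℝ) ≤ R := by
    intro S; have := row_NN (r := r) (m := m) hΔ S; rw [hR]; exact_mod_cast this
  have hcol : ∀ T : Finset V, ((univ.filter (fun S => NN G r m S T)).card : ℝ) ≤ R := by
    intro T; have := col_NN (r := r) (m := m) hΔ T; rw [hR]; exact_mod_cast this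
  set b : Finset V → Finset V → ℝ := fun S T =>
    2 ^ r * CE (2 * r) * (M / (k : ℝ) ^ m *
          (Real.sqrt (nS q S) * Real.sqrt (nS q T)) +
        P / Fintype.card V * (sgS q S + sgS q T + 2 * r * (Δ + 1) * (nS q S + nS q T))) with hb
  -- bound each inner sum
  have hinner : ∀ S T : Finset V, |(if Mat G S T ∧ (S \ T).card = m - 1 then
        ∑ u, ∑ v, (if G.Adj u v ∧ Alw G (S ∪ T) u ∧ Alw G (S ∪ T) v then
          ev (fun c => q (insert u S) c * q (insert v T) c *
            dens G 0 (insert u S ∪ insert v T) c) else 0) else 0)| ≤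
      if NN G r m S T then b S T else 0 := by
    intro S T
    by_cases h1 : Mat G S T ∧ (S \ T).card = m - 1
    · rw [if_pos h1]
      by_cases h2 : S.card + 1 ≤ r ∧ T.card + 1 ≤ r
      · rw [if_pos (show NN G r m S T from ⟨h1.1, h1.2, h2.1, h2.2⟩)]
        have h3 := edge_sum_bound G hr hM hP hk hΔ hspec hq h2.1 h2.2 h1.1
        have h4 : (S \ T).card + 1 = m := by omega
        rw [h4] at h3
        exact h3
      · have h5 : ∑ u, ∑ v, (if G.Adj u v ∧ Alw G (S ∪ T) u ∧ Alw G (S ∪ T) v then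
          ev (fun c => q (insert u S) c * q (insert v T) c *
            dens G 0 (insert u S ∪ insert v T) c) else 0) = 0 := by
          refine sum_eq_zero fun u _ => sum_eq_zero fun v _ => ?_
          by_cases h6 : G.Adj u v ∧ Alw G (S ∪ T) u ∧ Alw G (S ∪ T) v
          · rw [if_pos h6]
            have hu : u ∉ S := fun h => h6.2.1.1 (mem_union_left _ h)
            have hv : v ∉ T := fun h => h6.2.2.1 (mem_union_right _ h)
            have h7 : q (insert u S) = 0 ∨ q (insert v T) = 0 := by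
              rw [not_and_or] at h2
              rcases h2 with h2 | h2
              · left; apply hq.big; rw [card_insert_of_notMem hu]; omega
              · right; apply hq.big; rw [card_insert_of_notMem hv]; omega
            have h8 : (fun c => q (insert u S) c * q (insert v T) c *
                dens G 0 (insert u S ∪ insert v T) c) = fun _ : V → Fin k => (0 : ℝ) := by
              funext c
              rcases h7 with h7 | h7 <;> simp [h7]
            rw [h8, ev_zero]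
          · rw [if_neg h6]
        rw [h5, abs_zero, if_neg]
        rintro ⟨_, _, h8, h9⟩
        exact h2 ⟨h8, h9⟩
    · rw [if_neg h1, abs_zero, if_neg]
      rintro ⟨h8, h9, _, _⟩
      exact h1 ⟨h8, h9⟩
  have hre := reindex G (fun S T => ev (fun c => q S c * q T c * dens G 0 (S ∪ T) c)) hm
  set X := ∑ S, ∑ T, (if Mat G S T ∧ (S \ T).card = m then
        ev (fun c => q S c * q T c * dens G 0 (S ∪ T) c) else 0) with hX
  have hX1 : |X| ≤ ∑ S, ∑ T, (if NN G r m S T then b S T else 0) := by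
    have h1 : |(m : ℝ) * X| ≤ ∑ S, ∑ T, (if NN G r m S T then b S T else 0) := by
      rw [hre]
      refine (abs_sum_le_sum_abs _ _).trans (sum_le_sum fun S _ => ?_)
      exact (abs_sum_le_sum_abs _ _).trans (sum_le_sum fun T _ => hinner S T)
    rw [abs_mul, abs_of_nonneg (by positivity : (0:ℝ) ≤ m)] at h1
    refine le_trans ?_ h1
    exact le_mul_of_one_le_left (abs_nonneg _) hm'
  -- split the sum
  have hsplit : ∑ S, ∑ T, (if NN G r m S T then b S T else 0) =
      2 ^ r * CE (2 * r) * (M / (k : ℝ) ^ m) *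
        ∑ S, ∑ T, (if NN G r m S T then |Real.sqrt (nS q S)| * |Real.sqrt (nS q T)| else 0) +
      2 ^ r * CE (2 * r) * (P / Fintype.card V) *
        ((∑ S, ∑ T, if NN G r m S T then (sgS q S + 2 * r * (Δ + 1) * nS q S) else 0) +
         ∑ S, ∑ T, if NN G r m S T then (sgS q T + 2 * r * (Δ + 1) * nS q T) else 0) := by
    simp only [mul_sum, ← sum_add_distrib, mul_add]
    refine sum_congr rfl fun S _ => sum_congr rfl fun T _ => ?_
    split_ifs
    · rw [hb, abs_of_nonneg (Real.sqrt_nonneg _), abs_of_nonneg (Real.sqrt_nonneg _)]; ring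
    · ring
  have hA : ∑ S, ∑ T, (if NN G r m S T then |Real.sqrt (nS q S)| * |Real.sqrt (nS q T)| else 0) ≤
      R * (r * nrm q) := by
    have h1 := schur (fun S T : Finset V => NN G r m S T) (fun S => Real.sqrt (nS q S))
      (fun S => Real.sqrt (nS q S)) R R hR0 hR0 (fun S _ => hrow S) (fun T _ => hcol T)
    refine h1.trans ?_
    rw [Real.sqrt_mul_self hR0]
    have h2 : ∑ S, Real.sqrt (nS q S) ^ 2 = ∑ S, nS q S :=
      sum_congr rfl fun S _ => Real.sq_sqrt (nS_nonneg q S)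
    rw [h2, Real.mul_self_sqrt (sum_nonneg fun S _ => nS_nonneg q S)]
    exact mul_le_mul_of_nonneg_left (sum_nS_le hq) hR0
  set f : Finset V → ℝ := fun S => sgS q S + 2 * r * (Δ + 1) * nS q S with hf
  have hf0 : ∀ S, 0 ≤ f S := fun S => by
    have := nS_nonneg q S; have := sgS_nonneg q S; rw [hf]; positivity
  have hB : ∑ S, ∑ T, (if NN G r m S T then f S else 0) ≤ R * ∑ S, f S := by
    rw [mul_sum]
    refine sum_le_sum fun S _ => ?_
    rw [← sum_filter, sum_const, nsmul_eq_mul]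
    exact mul_le_mul_of_nonneg_right (hrow S) (hf0 S)
  have hC : ∑ S, ∑ T, (if NN G r m S T then f T else 0) ≤ R * ∑ S, f S := by
    rw [sum_comm, mul_sum]
    refine sum_le_sum fun T _ => ?_
    rw [← sum_filter, sum_const, nsmul_eq_mul]
    exact mul_le_mul_of_nonneg_right (hcol T) (hf0 T)
  have hfs : ∑ S, f S ≤ sig q + 2 * r * (Δ + 1) * (r * nrm q) := by
    rw [hf, sum_add_distrib, ← mul_sum]
    refine add_le_add (le_of_eq rfl) (mul_le_mul_of_nonneg_left (sum_nS_le hq) (by positivity))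
  -- powers
  have hratio : (1 : ℝ) ≤ Δ / k := by rw [le_div_iff₀ (by linarith)]; linarith
  have hM1 : 2 ^ r * CE (2 * r) * (M / (k : ℝ) ^ m) * (R * (r * nrm q)) ≤
      C3 r * ((Δ : ℝ) / k) ^ r * (M / Δ) * nrm q := by
    have e1 : (Δ : ℝ) ^ (m - 1) / (k : ℝ) ^ m = ((Δ : ℝ) / k) ^ m / Δ := by
      rw [div_pow]
      obtain ⟨l, rfl⟩ : ∃ l, m = l + 1 := ⟨m - 1, by omega⟩
      simp only [Nat.add_sub_cancel]
      rw [pow_succ (Δ : ℝ)]
      field_simp
    have e2 : (2 * (r : ℝ)) ^ (m - 1) ≤ (2 * r) ^ r :=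
      pow_le_pow_right₀ (by linarith) (by omega)
    have e3 : ((Δ : ℝ) / k) ^ m ≤ ((Δ : ℝ) / k) ^ r := pow_le_pow_right₀ hratio hmr
    have e4 : (4 : ℝ) ^ r = 2 ^ r * 2 ^ r := by rw [← mul_pow]; norm_num
    calc 2 ^ r * CE (2 * r) * (M / (k : ℝ) ^ m) * (R * (r * nrm q))
        = (r * 4 ^ r * CE (2 * r) * M * nrm q) * ((2 * (r : ℝ)) ^ (m - 1)) *
          ((Δ : ℝ) ^ (m - 1) / (k : ℝ) ^ m) := by rw [hR, mul_pow, e4]; ring
      _ = (r * 4 ^ r * CE (2 * r) * M * nrm q) * ((2 * (r : ℝ)) ^ (m - 1)) *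
          (((Δ : ℝ) / k) ^ m / Δ) := by rw [e1]
      _ ≤ (r * 4 ^ r * CE (2 * r) * M * nrm q) * ((2 * (r : ℝ)) ^ r) *
          (((Δ : ℝ) / k) ^ r / Δ) := by gcongr
      _ = C3 r * ((Δ : ℝ) / k) ^ r * (M / Δ) * nrm q := by rw [C3]; ring
  have hR1 : R ≤ 2 ^ r * (2 * r * Δ) ^ r := by
    rw [hR]
    refine mul_le_mul_of_nonneg_left (pow_le_pow_right₀ ?_ (by omega)) (by positivity)
    nlinarith
  have hsig : 0 ≤ sig q := sum_nonneg fun S _ => sgS_nonneg q S
  have hP1 : 2 ^ r * CE (2 * r) * (P / Fintype.card V) * (R * ∑ S, f S + R * ∑ S, f S) ≤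
      K3 r Δ P / Fintype.card V * (sig q + nrm q) := by
    have e4 : (4 : ℝ) ^ r = 2 ^ r * 2 ^ r := by rw [← mul_pow]; norm_num
    have e5 : ∑ S, f S ≤ (1 + 2 * r ^ 2 * (Δ + 1)) * (sig q + nrm q) := by
      refine hfs.trans ?_
      have : 0 ≤ 2 * (r:ℝ) ^ 2 * (Δ + 1) * sig q := by positivity
      nlinarith
    have e6 : 0 ≤ ∑ S, f S := sum_nonneg fun S _ => hf0 S
    calc 2 ^ r * CE (2 * r) * (P / Fintype.card V) * (R * ∑ S, f S + R * ∑ S, f S)
        = (2 ^ r * CE (2 * r) * (P / Fintype.card V) * 2) * (R * ∑ S, f S) := by ring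
      _ ≤ (2 ^ r * CE (2 * r) * (P / Fintype.card V) * 2) *
          ((2 ^ r * (2 * r * Δ) ^ r) * ((1 + 2 * r ^ 2 * (Δ + 1)) * (sig q + nrm q))) := by
          refine mul_le_mul_of_nonneg_left ?_ (by positivity)
          exact mul_le_mul hR1 e5 e6 (by positivity)
      _ = K3 r Δ P / Fintype.card V * (sig q + nrm q) := by rw [K3, e4]; ring
  calc |X| ≤ _ := hX1
    _ = _ := hsplit
    _ ≤ 2 ^ r * CE (2 * r) * (M / (k : ℝ) ^ m) * (R * (r * nrm q)) +
        2 ^ r * CE (2 * r) * (P / Fintype.card V) * (R * ∑ S, f S + R * ∑ S, f S) := by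
        refine add_le_add (mul_le_mul_of_nonneg_left hA (by positivity)) ?_
        exact mul_le_mul_of_nonneg_left (add_le_add hB hC) (by positivity)
    _ ≤ _ := add_le_add hM1 hP1

end Pool.Agent.SOSC
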