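import Pool.Agent.SOSC.Off
import Pool.Agent.SOSC.MatSum

/-!
# SOSC DET0: lower bound for the form `frm G 0 q`

Split `frm G 0 q = ∑_{S,T}` into `S = T`, `S ≠ T` not matched, and matched with
`m = |S \ T| ≥ 1` (`Mat G S T` and `S ≠ T` imply `1 ≤ |S \ T| ≤ r` whenever `|S| ≤ r`: if
`S \ T = ∅` then `T \ S = ∅` by `mat_card`, so `S = T`; terms with `|S| > r` vanish).
Diagonal: `est_diag` (`dens G 0 (S ∪ S) = dens G 0 S`):
`∑_S E[q_S² dens] ≥ (1 - (2r+1) CE (2r)/k) nrm q`, and `1/k ≤ 1/√k ≤ (Δ/k)^r (1/√k)`.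
Off-diagonal: `off_bound`, `mat_sum_bound` for `m = 1, …, r`.
Constants: `C0 r = C1 r + r C3 r + (2r+1) CE (2r)`.
-/

set_option autoImplicit false
set_option linter.unusedSectionVars false

namespace Pool.Agent.SOSC

open Finset

variable {V : Type*} [Fintype V] [DecidableEq V] {k : ℕ}

/-- Constant of the lower bound. -/
noncomputable def C0 (r : ℕ) : ℝ := C1 r + r * C3 r + (2 * r + 1) * CE (2 * r)

/-- The terms of the form. -/
noncomputable def eT (G : SimpleGraph V) (q : Finset V → Fn V k) (S T : Finset V) : ℝ :=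
  ev (fun c => q S c * q T c * dens G 0 (S ∪ T) c)

theorem eT_big {G : SimpleGraph V} {r : ℕ} {q : Finset V → Fn V k} (hq : Fam G r q)
    {S : Finset V} (hS : r < S.card) (T : Finset V) : eT G q S T = 0 := by
  unfold eT
  rw [hq.big S hS]
  simp [ev_zero]

open Classical in
theorem eT_split {G : SimpleGraph V} {r : ℕ} {q : Finset V → Fn V k} (hq : Fam G r q)
    (S T : Finset V) :
    eT G q S T = (if S = T then eT G q S T else 0) +
      (if S ≠ T ∧ ¬ Mat G S T then eT G q S T else 0) +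
      ∑ m ∈ Icc 1 r, (if Mat G S T ∧ (S \ T).card = m then eT G q S T else 0) := by
  by_cases hST : S = T
  · subst hST
    have : ∑ m ∈ Icc 1 r, (if Mat G S S ∧ (S \ S).card = m then eT G q S S else 0) = 0 := by
      refine sum_eq_zero fun m hm => if_neg ?_
      rw [sdiff_self]
      rw [mem_Icc] at hm
      rintro ⟨-, h⟩
      simp at h
      omega
    rw [this, if_pos rfl, if_neg (by tauto)]
    ring
  by_cases hM : Mat G S T
  · rw [if_neg hST, if_neg (by tauto)]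
    by_cases hS : r < S.card
    · rw [eT_big hq hS T]
      simp
    · have hc := mat_card hM
      have h1 : 1 ≤ (S \ T).card := by
        rw [Nat.one_le_iff_ne_zero]
        intro h0
        have h0' : (T \ S).card = 0 := by omega
        rw [card_eq_zero, sdiff_eq_empty_iff_subset] at h0 h0'
        exact hST (subset_antisymm h0 h0')
      have h2 : (S \ T).card ≤ r := (card_le_card sdiff_subset).trans (by omega)
      rw [sum_eq_single_of_mem (S \ T).card (mem_Icc.2 ⟨h1, h2⟩)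
        (fun b _ hb => if_neg fun h => hb h.2.symm), if_pos ⟨hM, rfl⟩]
      ring
  · have : ∑ m ∈ Icc 1 r, (if Mat G S T ∧ (S \ T).card = m then eT G q S T else 0) = 0 :=
      sum_eq_zero fun m _ => if_neg fun h => hM h.1
    rw [this, if_neg hST, if_pos ⟨hST, hM⟩]
    ring

theorem det0 [NeZero k] (G : SimpleGraph V) {r Δ : ℕ} {M P : ℝ} (hr : 1 ≤ r)
    (hM : 0 ≤ M) (hP : 0 ≤ P) (hk : K0 (2 * r) ≤ k) (hkΔ : k ≤ Δ) (hΔ : MaxDeg G Δ)
    (hG : Sparse6 G) (hspec : Spec G M P) {q : Finset V → Fn V k} (hq : Fam G r q) :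
    (1 - C0 r * ((Δ : ℝ) / k) ^ r * (1 / Real.sqrt k + 1 / Real.sqrt Δ + M / Δ)) * nrm q -
        r * K3 r Δ P / Fintype.card V * (sig q + nrm q) ≤ frm G 0 q := by
  classical
  have hk1 : (1 : ℝ) ≤ k := one_le_k
  have hk0 : (0 : ℝ) < k := by linarith
  have hkΔ' : (k : ℝ) ≤ Δ := by exact_mod_cast hkΔ
  have hn : 0 ≤ nrm q := sum_nonneg fun S _ => ev_nonneg fun c => sq_nonneg _
  have hsig : 0 ≤ sig q := sum_nonneg fun U _ => sum_nonneg fun i _ => ev_nonneg fun c =>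
    sq_nonneg _
  have hsplit : frm G 0 q = ∑ S, eT G q S S +
      ∑ S, ∑ T, (if S ≠ T ∧ ¬ Mat G S T then eT G q S T else 0) +
      ∑ m ∈ Icc 1 r, ∑ S, ∑ T, (if Mat G S T ∧ (S \ T).card = m then eT G q S T else 0) := by
    have h1 : frm G 0 q = ∑ S, ∑ T, eT G q S T := rfl
    rw [h1]
    have h2 : ∀ S : Finset V, ∑ T, eT G q S T = eT G q S S +
        ∑ T, (if S ≠ T ∧ ¬ Mat G S T then eT G q S T else 0) +
        ∑ m ∈ Icc 1 r, ∑ T, (if Mat G S T ∧ (S \ T).card = m then eT G q S T else 0) := by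
      intro S
      rw [sum_congr rfl fun T _ => eT_split hq S T, sum_add_distrib, sum_add_distrib,
        sum_comm (t := Icc 1 r), sum_ite_eq univ S (fun T => eT G q S T)]
      simp
    rw [sum_congr rfl fun S _ => h2 S, sum_add_distrib, sum_add_distrib, sum_comm (t := Icc 1 r)]
  -- diagonal
  have hdiag : (1 - (2 * r + 1) * CE (2 * r) / k) * nrm q ≤ ∑ S, eT G q S S := by
    unfold nrm
    rw [mul_sum]
    refine sum_le_sum fun S _ => ?_
    by_cases hS : r < S.card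
    · rw [eT_big hq hS, hq.big S hS]
      have : (fun c : V → Fin k => (0 : Fn V k) c ^ 2) = fun _ => 0 := by funext c; simp
      rw [this, ev_zero]
      simp
    · have h := est_diag G (D := 2 * r) (by omega) hk (S := S) (by omega) (hq.w S)
      have h' := (abs_le.1 h).1
      unfold eT
      rw [union_self]
      push_cast at h'
      linarith
  -- off
  have hoff : -(C1 r * ((Δ : ℝ) / k) ^ r * (1 / Real.sqrt k + 1 / Real.sqrt Δ) * nrm q) ≤
      ∑ S, ∑ T, (if S ≠ T ∧ ¬ Mat G S T then eT G q S T else 0) := by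
    have h := off_bound G hr hk hkΔ hΔ hG hq
    have h2 : |∑ S, ∑ T, (if S ≠ T ∧ ¬ Mat G S T then eT G q S T else 0)| ≤
        ∑ S, ∑ T, (if S ≠ T ∧ ¬ Mat G S T then
          |ev (fun c => q S c * q T c * dens G 0 (S ∪ T) c)| else 0) := by
      refine (abs_sum_le_sum_abs _ _).trans (sum_le_sum fun S _ => ?_)
      refine (abs_sum_le_sum_abs _ _).trans (sum_le_sum fun T _ => ?_)
      split_ifs
      · exact le_rfl
      · simp
    exact (abs_le.1 (h2.trans h)).1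
  -- matched
  have hmat : -(r * (C3 r * ((Δ : ℝ) / k) ^ r * (M / Δ) * nrm q +
      K3 r Δ P / Fintype.card V * (sig q + nrm q))) ≤
      ∑ m ∈ Icc 1 r, ∑ S, ∑ T, (if Mat G S T ∧ (S \ T).card = m then eT G q S T else 0) := by
    have h : |∑ m ∈ Icc 1 r, ∑ S, ∑ T,
        (if Mat G S T ∧ (S \ T).card = m then eT G q S T else 0)| ≤
        ∑ m ∈ Icc 1 r, (C3 r * ((Δ : ℝ) / k) ^ r * (M / Δ) * nrm q +
      K3 r Δ P / Fintype.card V * (sig q + nrm q)) := by
      refine (abs_sum_le_sum_abs _ _).trans (sum_le_sum fun m hm => ?_)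
      rw [mem_Icc] at hm
      exact mat_sum_bound G hr hM hP hk hkΔ hΔ hspec hq hm.1 hm.2
    rw [sum_const, Nat.card_Icc, nsmul_eq_mul] at h
    simp only [Nat.add_sub_cancel] at h
    exact (abs_le.1 h).1
  have hratio : (1 : ℝ) ≤ ((Δ : ℝ) / k) ^ r := by
    refine one_le_pow₀ ?_
    rw [le_div_iff₀ hk0]; linarith
  have hsk : (1 : ℝ) / k ≤ 1 / Real.sqrt k := by
    refine one_div_le_one_div_of_le (Real.sqrt_pos.2 hk0) ?_
    rw [Real.sqrt_le_left (by linarith)]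
    nlinarith
  have h4 : (2 * (r : ℝ) + 1) * CE (2 * r) / k ≤
      (2 * r + 1) * CE (2 * r) * ((Δ : ℝ) / k) ^ r *
        (1 / Real.sqrt k + 1 / Real.sqrt Δ + M / Δ) := by
    have h5 : (1 : ℝ) / k ≤ ((Δ : ℝ) / k) ^ r * (1 / Real.sqrt k + 1 / Real.sqrt Δ + M / Δ) := by
      have h6 : (1 : ℝ) / k ≤ 1 / Real.sqrt k + 1 / Real.sqrt Δ + M / Δ := by
        have : 0 ≤ 1 / Real.sqrt (Δ : ℝ) := by positivity
        have : 0 ≤ M / (Δ : ℝ) := by positivity
        linarith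
      have h7 : 0 ≤ 1 / Real.sqrt k + 1 / Real.sqrt Δ + M / Δ := by positivity
      nlinarith
    calc (2 * (r : ℝ) + 1) * CE (2 * r) / k = (2 * r + 1) * CE (2 * r) * (1 / k) := by ring
      _ ≤ (2 * r + 1) * CE (2 * r) * (((Δ : ℝ) / k) ^ r *
        (1 / Real.sqrt k + 1 / Real.sqrt Δ + M / Δ)) :=
          mul_le_mul_of_nonneg_left h5 (by positivity)
      _ = _ := by ring
  have h8 : C1 r * ((Δ : ℝ) / k) ^ r * (1 / Real.sqrt k + 1 / Real.sqrt Δ) ≤
      C1 r * ((Δ : ℝ) / k) ^ r * (1 / Real.sqrt k + 1 / Real.sqrt Δ + M / Δ) := by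
    refine mul_le_mul_of_nonneg_left ?_ (by unfold C1; positivity)
    have : 0 ≤ M / (Δ : ℝ) := by positivity
    linarith
  have h9 : r * (C3 r * ((Δ : ℝ) / k) ^ r * (M / Δ)) ≤
      r * C3 r * ((Δ : ℝ) / k) ^ r * (1 / Real.sqrt k + 1 / Real.sqrt Δ + M / Δ) := by
    have : M / (Δ : ℝ) ≤ 1 / Real.sqrt k + 1 / Real.sqrt Δ + M / Δ := by
      have : 0 ≤ 1 / Real.sqrt (Δ : ℝ) := by positivity
      have : 0 ≤ 1 / Real.sqrt (k : ℝ) := by positivity
      linarith
    calc r * (C3 r * ((Δ : ℝ) / k) ^ r * (M / Δ)) = r * C3 r * ((Δ : ℝ) / k) ^ r * (M / Δ) := by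
          ring
      _ ≤ _ := mul_le_mul_of_nonneg_left this (by unfold C3; positivity)
  have h10 : C0 r * ((Δ : ℝ) / k) ^ r * (1 / Real.sqrt k + 1 / Real.sqrt Δ + M / Δ) =
      C1 r * ((Δ : ℝ) / k) ^ r * (1 / Real.sqrt k + 1 / Real.sqrt Δ + M / Δ) +
      r * C3 r * ((Δ : ℝ) / k) ^ r * (1 / Real.sqrt k + 1 / Real.sqrt Δ + M / Δ) +
      (2 * r + 1) * CE (2 * r) * ((Δ : ℝ) / k) ^ r *
        (1 / Real.sqrt k + 1 / Real.sqrt Δ + M / Δ) := by
    unfold C0; ring
  have h11 : (1 - C0 r * ((Δ : ℝ) / k) ^ r *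
      (1 / Real.sqrt k + 1 / Real.sqrt Δ + M / Δ)) * nrm q ≤
      (1 - (2 * r + 1) * CE (2 * r) / k -
        C1 r * ((Δ : ℝ) / k) ^ r * (1 / Real.sqrt k + 1 / Real.sqrt Δ) -
        r * (C3 r * ((Δ : ℝ) / k) ^ r * (M / Δ))) * nrm q := by
    refine mul_le_mul_of_nonneg_right ?_ hn
    rw [h10]
    linarith
  rw [hsplit]
  have h12 : r * K3 r Δ P / Fintype.card V * (sig q + nrm q) =
      r * (K3 r Δ P / Fintype.card V * (sig q + nrm q)) := by ring
  rw [h12]
  nlinarith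

end Pool.Agent.SOSC
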