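import Pool.Agent.SOSC.Part

/-!
# SOSC: definitions for the quadratic form

A polynomial of degree `≤ r` in normal form is a family `q` of functions `q S ∈ W_S`, `q S = 0` for
`|S| > r` (`Fam G r q`).
-/

set_option autoImplicit false
set_option linter.unusedSectionVars false

namespace Pool.Agent.SOSC

open Finset

variable {V : Type*} [Fintype V] [DecidableEq V] {k : ℕ}

/-- Every vertex of `S \ T` has a neighbour in `T \ S` and conversely. -/
def Lead (G : SimpleGraph V) (S T : Finset V) : Prop :=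
  (∀ s ∈ S \ T, ∃ t ∈ T \ S, G.Adj s t) ∧ (∀ t ∈ T \ S, ∃ s ∈ S \ T, G.Adj t s)

/-- No nonempty subset of `S \ T` or of `T \ S` is closed under adjacency in `S ∪ T`. -/
def Adm (G : SimpleGraph V) (S T : Finset V) : Prop :=
  (∀ Y : Finset V, Y.Nonempty → Y ⊆ S \ T → ∃ y ∈ Y, ∃ x ∈ (S ∪ T) \ Y, G.Adj y x) ∧
  (∀ Y : Finset V, Y.Nonempty → Y ⊆ T \ S → ∃ y ∈ Y, ∃ x ∈ (S ∪ T) \ Y, G.Adj y x)

/-- Every vertex of `S \ T` has exactly one neighbour in `S ∪ T`, and it is in `T \ S`; and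
conversely. -/
def Mat (G : SimpleGraph V) (S T : Finset V) : Prop :=
  (∀ s ∈ S \ T, ∃ t ∈ T \ S, G.Adj s t ∧ ∀ x ∈ S ∪ T, G.Adj s x → x = t) ∧
  (∀ t ∈ T \ S, ∃ s ∈ S \ T, G.Adj t s ∧ ∀ x ∈ S ∪ T, G.Adj t x → x = s)

open Classical in
/-- The neighbours of `v`. -/
noncomputable def nb (G : SimpleGraph V) (v : V) : Finset V := univ.filter (fun u => G.Adj v u)

/-- Maximum degree at most `Δ`. -/
def MaxDeg (G : SimpleGraph V) (Δ : ℕ) : Prop := ∀ v, (nb G v).card ≤ Δ

/-- No triangle, no cycle of length four, and (together with these) no cycle of length six. -/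
structure Sparse6 (G : SimpleGraph V) : Prop where
  three : ∀ a b c, G.Adj a b → G.Adj b c → ¬ G.Adj c a
  four : ∀ a c b b', a ≠ c → G.Adj a b → G.Adj b c → G.Adj a b' → G.Adj b' c → b = b'
  six : ∀ t t' s y s' y', t ≠ t' → G.Adj t s → G.Adj s y → G.Adj y t' → y ≠ t → s ≠ t' →
    G.Adj t s' → G.Adj s' y' → G.Adj y' t' → y' ≠ t → s' ≠ t' → s = s'

open Classical in
/-- Vertices determined by two vertices of `T`: common neighbours, and the first inner vertices of
paths of length three. -/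
noncomputable def Dset (G : SimpleGraph V) (T : Finset V) : Finset V :=
  univ.filter (fun s => ∃ t ∈ T, ∃ t' ∈ T, t ≠ t' ∧ G.Adj s t ∧
    (G.Adj s t' ∨ (s ≠ t' ∧ ∃ y, y ≠ t ∧ G.Adj s y ∧ G.Adj y t')))

open Classical in
/-- The spectral condition. -/
def Spec (G : SimpleGraph V) (M P : ℝ) : Prop := ∀ F H : V → ℝ,
  |∑ u, ∑ v, if G.Adj u v then F u * H v else 0| ≤
    M * (Real.sqrt (∑ u, F u ^ 2) * Real.sqrt (∑ v, H v ^ 2)) +
      P / Fintype.card V * (|∑ u, F u| * |∑ v, H v|)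

/-- Families in normal form of degree at most `r`. -/
structure Fam (G : SimpleGraph V) (r : ℕ) (q : Finset V → Fn V k) : Prop where
  w : ∀ S, IsW G S (q S)
  big : ∀ S : Finset V, r < S.card → q S = 0

/-- The square norm of a family. -/
noncomputable def nrm (q : Finset V → Fn V k) : ℝ := ∑ S, ev (fun c => q S c ^ 2)

/-- `σ_U(q)(i) = ∑_{u ∉ U} q_{U ∪ u}(c[u ↦ i])`. -/
noncomputable def sgm (q : Finset V → Fn V k) (U : Finset V) (i : Fin k) : Fn V k :=
  fun c => ∑ u ∈ univ \ U, q (insert u U) (Function.update c u i)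

/-- The Perron part of a family. -/
noncomputable def sig (q : Finset V → Fn V k) : ℝ :=
  ∑ U, ∑ i : Fin k, ev (fun c => sgm q U i c ^ 2)

/-- The quadratic form. -/
noncomputable def frm (G : SimpleGraph V) (θ : Fin k → ℝ) (q : Finset V → Fn V k) : ℝ :=
  ∑ S, ∑ T, ev (fun c => q S c * q T c * dens G θ (S ∪ T) c)

open Classical in
/-- Indicator that matched vertices have the same colour. -/
noncomputable def JJ (G : SimpleGraph V) (S T : Finset V) : Fn V k :=
  fun c => ∏ s ∈ S \ T, ∏ t ∈ T \ S, if G.Adj s t then (if c s = c t then 1 else 0) else 1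

/-- `u` is not in `X` and has no neighbour in `X`. -/
def Alw (G : SimpleGraph V) (X : Finset V) (u : V) : Prop := u ∉ X ∧ ∀ x ∈ X, ¬ G.Adj u x

/-- Contraction of `f` with `τ` over the colours of `F`. -/
noncomputable def cn (τ : Fin k → ℝ) (F : Finset V) (f : Fn V k) : Fn V k :=
  avS F (fun c => f c * ∏ v ∈ F, τ (c v))

/-- The tilted family `q^τ_U = ∑_{F ∩ U = ∅} ε^|F| cn_F(q_{U ∪ F})`. -/
noncomputable def pt (ε : ℝ) (τ : Fin k → ℝ) (q : Finset V → Fn V k) (U : Finset V) : Fn V k :=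
  fun c => ∑ F ∈ (univ \ U).powerset, ε ^ F.card * cn τ F (q (U ∪ F)) c

/-- `F`, `F'` are disjoint from and not adjacent to `U ∪ U'` and to each other. -/
def Free (G : SimpleGraph V) (U U' F F' : Finset V) : Prop :=
  Disjoint F (U ∪ U') ∧ Disjoint F' (U ∪ U') ∧ Disjoint F F' ∧
  (∀ x ∈ F, ∀ y ∈ U ∪ U', ¬ G.Adj x y) ∧ (∀ x ∈ F', ∀ y ∈ U ∪ U', ¬ G.Adj x y) ∧
  (∀ x ∈ F, ∀ y ∈ F', ¬ G.Adj x y)

end Pool.Agent.SOSC
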