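import Pool.Agent.SOSC.Part

/-!
# SOSC NU: the number `nu G π` of disconnected classes

* `nu_bot`: singletons are connected.
* `nu_delv_le`: the classes of `delv v π` are `{v}`, `b \ {v}` (if nonempty; `b` the class of `v`
  in `π`) and the other classes of `π`.  `{v}` is connected, so at most one disconnected class of
  `delv v π` is not a disconnected class of `π`.
* `nu_sup_pr_le`: if `π u v` then `π ⊔ pr u v = π`.  Otherwise the classes of `π ⊔ pr u v` are
  `[u] ∪ [v]` and the classes of `π` other than `[u]`, `[v]`.  If `[u] ∪ [v]` is disconnected then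
  `[u]` or `[v]` is disconnected, because the union of two connected sets with an edge between them
  is connected (`SimpleGraph.induce_connected_adj_union`).  So there is an injection from the
  disconnected classes of `π ⊔ pr u v` to those of `π`.
* `nu_le_card`: disconnected classes have at least two elements, so they are contained in `S`, and
  they are disjoint: choose an element in each.
* `one_le_nu`: `π ≠ ⊥` has a class with two different elements; it contains no edge, so it is not
  connected.
* `nu_ge`: if `A` is a set of vertices in different classes of `π` all of which are disconnected,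
  then `A.card ≤ nu G π`.
* `exists_adj_of_connected`: in a connected induced subgraph with at least two vertices every
  vertex has a neighbour.
* `nu_zero_conn`: if `nu G π = 0` every class is connected.
The set in the definition of `nu` is finite (`Set.toFinite`).
-/

set_option autoImplicit false
set_option linter.unusedSectionVars false

namespace Pool.Agent.SOSC

open Finset

variable {V : Type*} [Fintype V] [DecidableEq V] {k : ℕ}


/-- the disconnected classes -/
private def Bad (G : SimpleGraph V) (π : Setoid V) : Set (Set V) :=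
  {b : Set V | b ∈ π.classes ∧ ¬ (G.induce b).Connected}

private theorem nu_eq (G : SimpleGraph V) (π : Setoid V) : nu G π = (Bad G π).ncard := rfl

private theorem bad_fin (G : SimpleGraph V) (π : Setoid V) : (Bad G π).Finite := Set.toFinite _

private theorem conn_singleton (G : SimpleGraph V) (v : V) : (G.induce ({v} : Set V)).Connected := by
  rw [SimpleGraph.connected_iff]
  refine ⟨?_, ⟨⟨v, rfl⟩⟩⟩
  rintro ⟨a, ha⟩ ⟨b, hb⟩
  rw [Set.mem_singleton_iff] at ha hb
  subst ha
  subst hb
  exact SimpleGraph.Reachable.refl _

private theorem bad_of (G : SimpleGraph V) (π : Setoid V) {x : V}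
    (h : ¬ (G.induce {y : V | π y x}).Connected) : {y : V | π y x} ∈ Bad G π :=
  ⟨π.mem_classes x, h⟩

private theorem cls_eq (π : Setoid V) {x y : V} (h : π x y) :
    {z : V | π z x} = {z : V | π z y} := by
  ext z
  exact ⟨fun hz => π.trans hz h, fun hz => π.trans hz (π.symm h)⟩

/-- A vertex of a connected class with at least two elements has a neighbour in the class. -/
private theorem exists_adj_aux (G : SimpleGraph V) {π : Setoid V} {x y : V} (hxy : π y x)
    (hne : y ≠ x) (hc : (G.induce {z : V | π z x}).Connected) : ∃ z, π z x ∧ G.Adj x z := by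
  obtain ⟨w⟩ := hc.preconnected ⟨x, π.refl x⟩ ⟨y, hxy⟩
  cases w with
  | nil => exact absurd rfl hne
  | @cons _ z _ h p =>
    obtain ⟨z, hz⟩ := z
    exact ⟨z, hz, h⟩

private theorem not_connected_aux (G : SimpleGraph V) {π : Setoid V} {x y : V} (hxy : π y x)
    (hne : y ≠ x) (h : ∀ a b, π a x → π b x → ¬ G.Adj a b) :
    ¬ (G.induce {z : V | π z x}).Connected := by
  intro hc
  obtain ⟨z, hz, hadj⟩ := exists_adj_aux G hxy hne hc
  exact h x z (π.refl x) hz hadj

theorem nu_bot (G : SimpleGraph V) : nu G (⊥ : Setoid V) = 0 := by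
  rw [nu_eq, Set.ncard_eq_zero (bad_fin G _), Set.eq_empty_iff_forall_notMem]
  rintro b ⟨⟨y, rfl⟩, hb⟩
  apply hb
  have : {x : V | (⊥ : Setoid V) x y} = {y} := by
    ext x
    simp only [Set.mem_setOf_eq, Set.mem_singleton_iff]
    exact Iff.rfl
  rw [this]
  exact conn_singleton G y

theorem nu_delv_le (G : SimpleGraph V) (v : V) (π : Setoid V) :
    nu G (delv v π) ≤ nu G π + 1 := by
  rw [nu_eq, nu_eq]
  have h : Bad G (delv v π) ⊆ insert ({y : V | π y v} \ {v}) (Bad G π) := by
    rintro b ⟨⟨y, rfl⟩, hb⟩
    by_cases hy : y = v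
    · exfalso
      apply hb
      have : {x : V | (delv v π) x y} = {v} := by
        ext x
        simp only [Set.mem_setOf_eq, Set.mem_singleton_iff]
        constructor
        · rintro (h | h)
          · rw [h, hy]
          · exact absurd hy h.2.1
        · intro h
          exact Or.inl (h.trans hy.symm)
      rw [this]
      exact conn_singleton G v
    · have e1 : {x : V | (delv v π) x y} = {x : V | π x y} \ {v} := by
        ext x
        simp only [Set.mem_setOf_eq, Set.mem_sdiff, Set.mem_singleton_iff]
        constructor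
        · rintro (h | h)
          · subst h
            exact ⟨π.refl _, hy⟩
          · exact ⟨h.2.2, h.1⟩
        · rintro ⟨h1, h2⟩
          exact Or.inr ⟨h2, hy, h1⟩
      by_cases hv : π v y
      · left
        rw [e1, cls_eq π hv]
      · right
        have e2 : {x : V | π x y} \ {v} = {x : V | π x y} := by
          ext x
          simp only [Set.mem_setOf_eq, Set.mem_sdiff, Set.mem_singleton_iff]
          constructor
          · exact fun h => h.1
          · intro h
            refine ⟨h, ?_⟩
            rintro rfl
            exact hv h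
        rw [e1, e2] at hb ⊢
        exact bad_of G π hb
  exact (Set.ncard_le_ncard h (Set.toFinite _)).trans (Set.ncard_insert_le _ _)

/-- the partition in which the classes of `u` and `v` are merged -/
private def mrg (π : Setoid V) (u v : V) : Setoid V where
  r x y := π x y ∨ ((π x u ∨ π x v) ∧ (π y u ∨ π y v))
  iseqv := by
    refine ⟨fun x => Or.inl (π.refl x), ?_, ?_⟩
    · rintro x y (h | h)
      · exact Or.inl (π.symm h)
      · exact Or.inr ⟨h.2, h.1⟩
    · rintro x y z (h | h) (h' | h')
      · exact Or.inl (π.trans h h')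
      · refine Or.inr ⟨?_, h'.2⟩
        rcases h'.1 with h1 | h1
        · exact Or.inl (π.trans h h1)
        · exact Or.inr (π.trans h h1)
      · refine Or.inr ⟨h.1, ?_⟩
        rcases h.2 with h1 | h1
        · exact Or.inl (π.trans (π.symm h') h1)
        · exact Or.inr (π.trans (π.symm h') h1)
      · exact Or.inr ⟨h.1, h'.2⟩

private theorem mrg_iff (π : Setoid V) (u v x y : V) :
    (mrg π u v) x y ↔ π x y ∨ ((π x u ∨ π x v) ∧ (π y u ∨ π y v)) := Iff.rfl

private theorem pr_iff (u v x y : V) :
    (pr u v) x y ↔ x = y ∨ (x = u ∧ y = v) ∨ (x = v ∧ y = u) := Iff.rfl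

private theorem sup_pr (π : Setoid V) (u v : V) : π ⊔ pr u v = mrg π u v := by
  apply le_antisymm
  · refine sup_le ?_ ?_
    · intro x y h
      exact Or.inl h
    · intro x y h
      rcases (pr_iff u v x y).mp h with rfl | ⟨rfl, rfl⟩ | ⟨rfl, rfl⟩
      · exact Or.inl (π.refl _)
      · exact Or.inr ⟨Or.inl (π.refl _), Or.inr (π.refl _)⟩
      · exact Or.inr ⟨Or.inr (π.refl _), Or.inl (π.refl _)⟩
  · intro x y h
    have hl : π ≤ π ⊔ pr u v := le_sup_left
    have hr : pr u v ≤ π ⊔ pr u v := le_sup_right
    have huv : (π ⊔ pr u v) u v := hr ((pr_iff u v u v).mpr (Or.inr (Or.inl ⟨rfl, rfl⟩)))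
    have hxu : ∀ z, (π z u ∨ π z v) → (π ⊔ pr u v) z u := by
      rintro z (hz | hz)
      · exact hl hz
      · exact (π ⊔ pr u v).trans (hl hz) ((π ⊔ pr u v).symm huv)
    rcases (mrg_iff π u v x y).mp h with h | ⟨h1, h2⟩
    · exact hl h
    · exact (π ⊔ pr u v).trans (hxu x h1) ((π ⊔ pr u v).symm (hxu y h2))

theorem nu_sup_pr_le (G : SimpleGraph V) {u v : V} (huv : G.Adj u v) (π : Setoid V) :
    nu G (π ⊔ pr u v) ≤ nu G π := by
  rw [sup_pr, nu_eq, nu_eq]
  set B0 : Set V := {x : V | π x u} ∪ {x : V | π x v} with hB0
  -- the classes of the merged partition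
  have hcls : ∀ b ∈ Bad G (mrg π u v), b = B0 ∨
      ∃ y, b = {x : V | π x y} ∧ ¬ π y u ∧ ¬ π y v ∧ b ∈ Bad G π := by
    rintro b ⟨⟨y, rfl⟩, hb⟩
    by_cases hy : π y u ∨ π y v
    · left
      ext x
      simp only [Set.mem_setOf_eq, hB0, Set.mem_union]
      rw [mrg_iff]
      constructor
      · rintro (h | h)
        · rcases hy with h1 | h1
          · exact Or.inl (π.trans h h1)
          · exact Or.inr (π.trans h h1)
        · exact h.1
      · intro h
        exact Or.inr ⟨h, hy⟩
    · right
      have e : {x : V | (mrg π u v) x y} = {x : V | π x y} := by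
        ext x
        simp only [Set.mem_setOf_eq]
        rw [mrg_iff]
        constructor
        · rintro (h | h)
          · exact h
          · exact absurd h.2 hy
        · exact fun h => Or.inl h
      rw [e] at hb ⊢
      exact ⟨y, rfl, fun h => hy (Or.inl h), fun h => hy (Or.inr h), bad_of G π hb⟩
  by_cases hB : B0 ∈ Bad G (mrg π u v)
  · -- one of the two classes is disconnected
    have hw : ∃ w, (π w u ∨ π w v) ∧ {x : V | π x w} ∈ Bad G π := by
      by_contra hc
      push Not at hc
      have h1 : (G.induce {x : V | π x u}).Connected := by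
        by_contra h
        exact hc u (Or.inl (π.refl u)) (bad_of G π h)
      have h2 : (G.induce {x : V | π x v}).Connected := by
        by_contra h
        exact hc v (Or.inr (π.refl v)) (bad_of G π h)
      apply hB.2
      exact SimpleGraph.connected_induce_union h1.preconnected h2.preconnected (π.refl u)
        (π.refl v) huv
    obtain ⟨w, hwuv, hwB⟩ := hw
    have hsub : Bad G (mrg π u v) ⊆ insert B0 (Bad G π \ {{x : V | π x w}}) := by
      intro b hb
      rcases hcls b hb with h | ⟨y, hy, h1, h2, h3⟩
      · exact Or.inl h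
      · right
        refine ⟨h3, ?_⟩
        intro hbw
        rw [Set.mem_singleton_iff, hy] at hbw
        have h4 : w ∈ {x : V | π x y} := by
          rw [hbw]
          exact π.refl w
        have h5 : π y w := π.symm h4
        rcases hwuv with h6 | h6
        · exact h1 (π.trans h5 h6)
        · exact h2 (π.trans h5 h6)
    have h1 := Set.ncard_le_ncard hsub (Set.toFinite _)
    have h2 := Set.ncard_insert_le B0 (Bad G π \ {{x : V | π x w}})
    have h3 := Set.ncard_diff_singleton_add_one hwB (bad_fin G π)
    omega
  · refine Set.ncard_le_ncard ?_ (bad_fin G π)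
    intro b hb
    rcases hcls b hb with h | ⟨y, hy, h1, h2, h3⟩
    · rw [h] at hb
      exact absurd hb hB
    · exact h3

theorem nu_le_card (G : SimpleGraph V) {S : Finset V} {π : Setoid V} (h : SuppOn S π) :
    nu G π ≤ S.card := by
  rw [nu_eq]
  have hsub : Bad G π ⊆ (fun y => {x : V | π x y}) '' (S : Set V) := by
    rintro b ⟨⟨y, rfl⟩, hb⟩
    refine ⟨y, ?_, rfl⟩
    have h1 : ∃ z, π z y ∧ z ≠ y := by
      by_contra hc
      push Not at hc
      apply hb
      have : {x : V | π x y} = {y} := by
        ext x
        simp only [Set.mem_setOf_eq, Set.mem_singleton_iff]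
        constructor
        · exact fun hx => hc x hx
        · rintro rfl
          exact π.refl _
      rw [this]
      exact conn_singleton G y
    obtain ⟨z, hz, hne⟩ := h1
    rcases h z y hz with h2 | h2
    · exact absurd h2 hne
    · exact h2.2
  calc (Bad G π).ncard ≤ ((fun y => {x : V | π x y}) '' (S : Set V)).ncard :=
        Set.ncard_le_ncard hsub (Set.toFinite _)
    _ ≤ (S : Set V).ncard := Set.ncard_image_le (Set.toFinite _)
    _ = S.card := Set.ncard_coe_finset S

theorem one_le_nu (G : SimpleGraph V) {π : Setoid V} (h : π ≠ ⊥)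
    (hadj : ∀ u v, G.Adj u v → ¬ π u v) : 1 ≤ nu G π := by
  have h1 : ∃ x y, π y x ∧ y ≠ x := by
    by_contra hc
    push Not at hc
    apply h
    rw [eq_bot_iff]
    intro x y hxy
    exact hc y x hxy
  obtain ⟨x, y, hxy, hne⟩ := h1
  have h2 : {z : V | π z x} ∈ Bad G π := by
    apply bad_of
    refine not_connected_aux G hxy hne ?_
    intro a b ha hb hab
    exact hadj a b hab (π.trans ha (π.symm hb))
  rw [nu_eq, Nat.one_le_iff_ne_zero]
  exact (Set.ncard_pos (bad_fin G π)).mpr ⟨_, h2⟩ |>.ne'

theorem nu_ge (G : SimpleGraph V) (π : Setoid V) (A : Finset V)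
    (h1 : ∀ x ∈ A, ∀ y ∈ A, π x y → x = y)
    (h2 : ∀ x ∈ A, ¬ (G.induce {y : V | π y x}).Connected) : A.card ≤ nu G π := by
  rw [nu_eq, ← Set.ncard_coe_finset A]
  refine Set.ncard_le_ncard_of_injOn (fun x => {y : V | π y x}) ?_ ?_ (bad_fin G π)
  · intro x hx
    exact bad_of G π (h2 x hx)
  · intro x hx y hy hxy
    apply h1 x hx y hy
    have h3 : x ∈ {z : V | π z x} := π.refl x
    rw [show {z : V | π z x} = {z : V | π z y} from hxy] at h3
    exact h3

theorem nu_zero_conn (G : SimpleGraph V) {π : Setoid V} (h : nu G π = 0) (x : V) :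
    (G.induce {y : V | π y x}).Connected := by
  by_contra hc
  have h1 := bad_of G π hc
  rw [nu_eq, Set.ncard_eq_zero (bad_fin G π)] at h
  rw [h] at h1
  exact h1

/-- A vertex of a connected class with at least two elements has a neighbour in the class. -/
theorem exists_adj_of_connected (G : SimpleGraph V) {π : Setoid V} {x y : V} (hxy : π y x)
    (hne : y ≠ x) (hc : (G.induce {z : V | π z x}).Connected) : ∃ z, π z x ∧ G.Adj x z :=
  exists_adj_aux G hxy hne hc

/-- A class with at least two elements and without edges is not connected. -/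
theorem not_connected_of_no_edge (G : SimpleGraph V) {π : Setoid V} {x y : V} (hxy : π y x)
    (hne : y ≠ x) (h : ∀ a b, π a x → π b x → ¬ G.Adj a b) :
    ¬ (G.induce {z : V | π z x}).Connected :=
  not_connected_aux G hxy hne h

end Pool.Agent.SOSC
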