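import Pool.Agent.SOSC.PInd
import Pool.Agent.SOSC.Nu

/-!
# SOSC REC: the coefficient bound `|a S π| ≤ CA D / k ^ ν(π)`

Fix `D`, `N = NP D`.  Show by induction on `m = S.card ≤ D` that
`|a S π| k ^ ν(π) ≤ (2 KK D)^m`, `ν = nu G`.

`m = 0`: `S = ∅`; only `π = ⊥` is supported on `∅` (`suppOn_empty`), `a ∅ ⊥ = 1`, `ν(⊥) = 0`.

`m ≥ 1`.  Let `B = (2 KK D)^(m-1)` (bound for the sets `S.erase v`), `A(π) = |a S π| k^ν(π)` and
`M = max_π A(π)` (finite maximum over all setoids, `A(π) = 0` if `π` is not supported on `S`).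
For `π` supported on `S` put `e(π) = ν(π) (N+1) + #{π' : π' ≤ π}`.  All `π' ≤ π` are supported on
`S`, so `1 ≤ #{π' ≤ π} ≤ N` (`card_suppOn`), and `ν(π) ≤ D` (`nu_le_card`), so
`e(π) + 1 ≤ (D+1)(N+1)`.

Claim: `A(π) ≤ (N+1)^(e(π)+1) (B + M/k)` for all `π` supported on `S`.
Strong induction on `e(π)`.
(1) `π` is single at some `v ∈ S`.  Then `π` is supported on `S.erase v` (`suppOn_erase`), and
`marg` gives `|a S π| ≤ |a (S.erase v) π| + (1/k) ∑_{π' : ¬Single π' v, delv v π' = π} |a S π'|`.
Multiply by `k^ν(π)`.  The first term gives at most `B`.  For the others (at most `N` terms `π'`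
supported on `S`) `ν(π) = ν(delv v π') ≤ ν(π') + 1` (`nu_delv_le`).
If `ν(π') + 1 = ν(π)` the term is `A(π')`, and
`e(π') ≤ (ν(π) - 1)(N+1) + N < e(π)`, so `A(π') ≤ (N+1)^(e(π')+1) (B + M/k) ≤ (N+1)^(e(π)) (B + M/k)`.
If `ν(π) ≤ ν(π')` the term is at most `A(π')/k ≤ M/k`.
Total: `A(π) ≤ B + N (N+1)^(e(π)) (B + M/k) + N M/k ≤ (N+1)^(e(π)+1) (B + M/k)`
(`1 + N (N+1)^e ≤ (N+1)^(e+1)` and `N (N+1)^e + N ≤ (N+1)^(e+1)` for `e ≥ 1`).
In every case a single term is at most `(N+1)^(e(π)) (B+M/k)` or `M/k`, so at most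
`(N+1)^(e(π)) (B + M/k)`: so `A(π) ≤ B + N (N+1)^(e(π)) (B+M/k) ≤ (N+1)^(e(π)+1) (B+M/k)`.
(2) `π` is single at no `v ∈ S`, but `π u v` for some adjacent `u, v` (they are in `S`).
`edge` with `σ = π`: the term `π' = π` of the sum is `a S π` (`π ⊔ pr u v = π`), so
`|a S π| ≤ ∑_{π' ≠ π, π' ⊔ pr u v = π} |a S π'|`, at most `N` terms, `π' < π` and
`ν(π) ≤ ν(π')` (`nu_sup_pr_le`).  If `ν(π') = ν(π)` the term (times `k^ν(π)`) is `A(π')` with
`e(π') < e(π)` (`#{≤ π'} < #{≤ π}`), otherwise it is at most `M/k`.  As before.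
(3) Otherwise `a S π = 0` by `typeC`.

Hence `M ≤ KK D (B + M/k)` (`(N+1)^(e(π)+1) ≤ KK D`), and `k ≥ 2 KK D` gives
`M ≤ 2 (KK D) B = (2 KK D)^m`.  (`M < ∞` is used to absorb `(KK D/k) M ≤ M/2`.)
Finally `(2 KK D)^m ≤ (2 KK D)^D = CA D`.
-/

set_option autoImplicit false
set_option linter.unusedSectionVars false

namespace Pool.Agent.SOSC

open Finset

variable {V : Type*} [Fintype V] [DecidableEq V] {k : ℕ}

private theorem step_bound (G : SimpleGraph V) (k D : ℕ) (hk : 2 * KK D ≤ k)
    (a : Finset V → Setoid V → ℝ) (ha : CoefSys G k D a) (S : Finset V) (hS : S.card ≤ D)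
    (hne : S.Nonempty) {B : ℝ} (hB : 0 ≤ B)
    (ih : ∀ v ∈ S, ∀ π, |a (S.erase v) π| * (k : ℝ) ^ nu G π ≤ B) (π : Setoid V) :
    |a S π| * (k : ℝ) ^ nu G π ≤ 2 * KK D * B := by
  classical
  set N : ℕ := NP D with hN
  have hKK : 1 ≤ KK D := Nat.one_le_pow _ _ (Nat.succ_pos _)
  have hk1 : (1 : ℝ) ≤ k := by
    have : 1 ≤ k := by omega
    exact_mod_cast this
  have hk0 : (0 : ℝ) < k := by linarith
  set A : Setoid V → ℝ := fun π => |a S π| * (k : ℝ) ^ nu G π with hA
  have hA0 : ∀ π, 0 ≤ A π := fun π => by simp only [hA]; positivity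
  obtain ⟨π₀, hmax⟩ := Finite.exists_max A
  set M : ℝ := A π₀ with hM
  have hM0 : 0 ≤ M := hA0 π₀
  set R : ℝ := B + M / k with hR
  have hR0 : 0 ≤ R := by positivity
  have hMR : M / k ≤ R := by rw [hR]; linarith
  set F : Finset (Setoid V) := univ.filter (fun π => SuppOn S π) with hF
  have hFN : F.card ≤ N := card_suppOn hS
  set L : Setoid V → ℕ := fun π => (univ.filter (· ≤ π)).card with hL
  have hL1 : ∀ π, 1 ≤ L π := fun π => card_pos.2 ⟨π, by simp⟩
  have hLN : ∀ π, SuppOn S π → L π ≤ N := by
    intro π hπ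
    refine le_trans (card_le_card ?_) hFN
    intro σ hσ
    rw [mem_filter] at hσ
    exact mem_filter.2 ⟨mem_univ _, suppOn_of_le hσ.2 hπ⟩
  have hLlt : ∀ π σ, π < σ → L π < L σ := by
    intro π σ h
    refine card_lt_card ⟨?_, ?_⟩
    · intro τ hτ
      rw [mem_filter] at hτ ⊢
      exact ⟨mem_univ _, hτ.2.trans h.le⟩
    · intro hcon
      have h1 : σ ∈ univ.filter (· ≤ π) := hcon (by simp)
      rw [mem_filter] at h1
      exact absurd h1.2 (not_le_of_gt h)
  set e : Setoid V → ℕ := fun π => nu G π * (N + 1) + L π with he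
  have hNR : (1 : ℝ) ≤ (N : ℝ) + 1 := by
    have : (0 : ℝ) ≤ N := Nat.cast_nonneg N
    linarith
  have hpow1 : ∀ n : ℕ, (1 : ℝ) ≤ ((N : ℝ) + 1) ^ n := fun n => one_le_pow₀ hNR
  have claim : ∀ n : ℕ, ∀ π, SuppOn S π → e π = n → A π ≤ ((N : ℝ) + 1) ^ (n + 1) * R := by
    intro n
    induction n using Nat.strong_induction_on with
    | _ n IH =>
    intro π hπ hen
    set T : ℝ := ((N : ℝ) + 1) ^ n * R with hT
    have hT0 : 0 ≤ T := by positivity
    have hRT : R ≤ T := by
      rw [hT]
      exact le_mul_of_one_le_left hR0 (hpow1 n)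
    have hlt : ∀ π', SuppOn S π' → e π' < n → A π' ≤ T := by
      intro π' h1 h2
      refine (IH (e π') h2 π' h1 rfl).trans ?_
      rw [hT]
      exact mul_le_mul_of_nonneg_right (pow_le_pow_right₀ hNR h2) hR0
    have hfin : B + N * T ≤ ((N : ℝ) + 1) ^ (n + 1) * R := by
      have h1 : ((N : ℝ) + 1) ^ (n + 1) * R = T + N * T := by rw [hT, pow_succ]; ring
      rw [h1]
      have : B ≤ R := by
        rw [hR]
        have : 0 ≤ M / k := by positivity
        linarith
      linarith
    by_cases h1 : ∃ v ∈ S, Single π v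
    · obtain ⟨v, hv, hsv⟩ := h1
      have h2 := ha.marg S hS v hv π (suppOn_erase hπ hsv)
      set g : Setoid V → ℝ := fun π' => if ¬ Single π' v ∧ delv v π' = π then a S π' else 0
        with hg
      have h3 : |a S π| ≤ |a (S.erase v) π| + (1 / (k : ℝ)) * ∑ π' : Setoid V, |g π'| := by
        have h4 : a S π = a (S.erase v) π - (1 / (k : ℝ)) * ∑ π' : Setoid V, g π' := by
          rw [h2]; ring
        rw [h4]
        refine (abs_sub _ _).trans ?_
        rw [abs_mul, abs_of_nonneg (by positivity : (0 : ℝ) ≤ 1 / (k : ℝ))]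
        have := abs_sum_le_sum_abs g univ
        have h5 : (1 / (k : ℝ)) * |∑ π', g π'| ≤ (1 / (k : ℝ)) * ∑ π', |g π'| :=
          mul_le_mul_of_nonneg_left this (by positivity)
        linarith
      have h4 : ∑ π' : Setoid V, |g π'| = ∑ π' ∈ F, |g π'| := by
        rw [hF, sum_filter]
        refine sum_congr rfl fun π' _ => ?_
        by_cases hs : SuppOn S π'
        · rw [if_pos hs]
        · rw [if_neg hs]
          simp only [hg, ha.supp S hS π' hs, ite_self, abs_zero]
      have h5 : ∀ π' ∈ F, (1 / (k : ℝ)) * |g π'| * (k : ℝ) ^ nu G π ≤ T := by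
        intro π' hπ'
        have hs : SuppOn S π' := (mem_filter.1 hπ').2
        by_cases hc : ¬ Single π' v ∧ delv v π' = π
        · have hgv : g π' = a S π' := if_pos hc
          rw [hgv]
          have hnu : nu G π ≤ nu G π' + 1 := by
            rw [← hc.2]
            exact nu_delv_le G v π'
          rcases Nat.lt_or_ge (nu G π') (nu G π) with hlt' | hge
          · have heq : nu G π = nu G π' + 1 := by omega
            have h6 : (1 / (k : ℝ)) * |a S π'| * (k : ℝ) ^ nu G π = A π' := by
              simp only [hA]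
              rw [heq, pow_succ]
              field_simp
            rw [h6]
            apply hlt π' hs
            rw [← hen]
            simp only [he]
            have h7 := hLN π' hs
            have h8 := hL1 π
            rw [heq, Nat.add_mul, one_mul]
            omega
          · refine le_trans ?_ (hMR.trans hRT)
            have h6 : (k : ℝ) ^ nu G π ≤ (k : ℝ) ^ nu G π' := pow_le_pow_right₀ hk1 hge
            calc (1 / (k : ℝ)) * |a S π'| * (k : ℝ) ^ nu G π ≤
                (1 / (k : ℝ)) * |a S π'| * (k : ℝ) ^ nu G π' :=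
                  mul_le_mul_of_nonneg_left h6 (by positivity)
              _ = A π' / k := by simp only [hA]; ring
              _ ≤ M / k := div_le_div_of_nonneg_right (hmax π') hk0.le
        · have hgv : g π' = 0 := if_neg hc
          rw [hgv, abs_zero, mul_zero, zero_mul]
          exact hT0
      calc A π = |a S π| * (k : ℝ) ^ nu G π := rfl
        _ ≤ (|a (S.erase v) π| + (1 / (k : ℝ)) * ∑ π' : Setoid V, |g π'|) *
              (k : ℝ) ^ nu G π := mul_le_mul_of_nonneg_right h3 (by positivity)
        _ = |a (S.erase v) π| * (k : ℝ) ^ nu G π +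
              ∑ π' ∈ F, (1 / (k : ℝ)) * |g π'| * (k : ℝ) ^ nu G π := by
            rw [h4, add_mul, mul_sum, sum_mul]
        _ ≤ B + ∑ π' ∈ F, T := add_le_add (ih v hv π) (sum_le_sum h5)
        _ = B + F.card * T := by rw [sum_const, nsmul_eq_mul]
        _ ≤ B + N * T := by
            have : (F.card : ℝ) ≤ N := by exact_mod_cast hFN
            have := mul_le_mul_of_nonneg_right this hT0
            linarith
        _ ≤ _ := hfin
    · by_cases h2 : ∃ u v, G.Adj u v ∧ π u v
      · obtain ⟨u, v, huv, hπuv⟩ := h2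
        have huvS : u ∈ S ∧ v ∈ S := by
          rcases hπ u v hπuv with h | h
          · exact absurd h huv.ne
          · exact h
        have h3 := ha.edge S hS u huvS.1 v huvS.2 huv π
        set g : Setoid V → ℝ := fun π' => if π' ⊔ pr u v = π then a S π' else 0 with hg
        have hself : π ⊔ pr u v = π := by
          apply sup_eq_left.2
          intro x y hxy
          rcases hxy with rfl | ⟨rfl, rfl⟩ | ⟨rfl, rfl⟩
          · exact π.refl x
          · exact hπuv
          · exact π.symm hπuv
        have h4 : ∑ π' : Setoid V, g π' = ∑ π' ∈ F, g π' := by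
          rw [hF, sum_filter]
          refine sum_congr rfl fun π' _ => ?_
          by_cases hs : SuppOn S π'
          · rw [if_pos hs]
          · rw [if_neg hs]
            simp only [hg, ha.supp S hS π' hs, ite_self]
        have hπF : π ∈ F := mem_filter.2 ⟨mem_univ _, hπ⟩
        have h5 : a S π = - ∑ π' ∈ F.erase π, g π' := by
          have h6 : ∑ π' ∈ F, g π' = 0 := by rw [← h4]; exact h3
          rw [← add_sum_erase F g hπF] at h6
          have h7 : g π = a S π := if_pos hself
          rw [h7] at h6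
          linarith
        have h6 : ∀ π' ∈ F.erase π, |g π'| * (k : ℝ) ^ nu G π ≤ T := by
          intro π' hπ'
          rw [mem_erase] at hπ'
          have hs : SuppOn S π' := (mem_filter.1 hπ'.2).2
          by_cases hc : π' ⊔ pr u v = π
          · have hgv : g π' = a S π' := if_pos hc
            rw [hgv]
            have hnu : nu G π ≤ nu G π' := by
              rw [← hc]
              exact nu_sup_pr_le G huv π'
            have hlt' : π' < π := lt_of_le_of_ne (hc ▸ le_sup_left) hπ'.1
            rcases hnu.eq_or_lt with heq | hlt''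
            · have h7 : |a S π'| * (k : ℝ) ^ nu G π = A π' := by
                simp only [hA]
                rw [heq]
              rw [h7]
              apply hlt π' hs
              rw [← hen]
              simp only [he]
              have h8 := hLlt π' π hlt'
              rw [heq]
              omega
            · refine le_trans ?_ (hMR.trans hRT)
              have h7 : (k : ℝ) ^ (nu G π + 1) ≤ (k : ℝ) ^ nu G π' :=
                pow_le_pow_right₀ hk1 hlt''
              have h8 : (k : ℝ) ^ nu G π ≤ (k : ℝ) ^ nu G π' / k := by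
                rw [le_div_iff₀ hk0, ← pow_succ]
                exact h7
              calc |a S π'| * (k : ℝ) ^ nu G π ≤ |a S π'| * ((k : ℝ) ^ nu G π' / k) :=
                    mul_le_mul_of_nonneg_left h8 (abs_nonneg _)
                _ = A π' / k := by simp only [hA]; ring
                _ ≤ M / k := div_le_div_of_nonneg_right (hmax π') hk0.le
          · have hgv : g π' = 0 := if_neg hc
            rw [hgv, abs_zero, zero_mul]
            exact hT0
        calc A π = |a S π| * (k : ℝ) ^ nu G π := rfl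
          _ ≤ (∑ π' ∈ F.erase π, |g π'|) * (k : ℝ) ^ nu G π := by
              rw [h5, abs_neg]
              exact mul_le_mul_of_nonneg_right (abs_sum_le_sum_abs _ _) (by positivity)
          _ = ∑ π' ∈ F.erase π, |g π'| * (k : ℝ) ^ nu G π := by rw [sum_mul]
          _ ≤ ∑ π' ∈ F.erase π, T := sum_le_sum h6
          _ = (F.erase π).card * T := by rw [sum_const, nsmul_eq_mul]
          _ ≤ N * T := by
              have : ((F.erase π).card : ℝ) ≤ N := by
                exact_mod_cast (card_le_card (erase_subset π F)).trans hFN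
              exact mul_le_mul_of_nonneg_right this hT0
          _ ≤ B + N * T := by linarith
          _ ≤ _ := hfin
      · have h3 : a S π = 0 := by
          refine ha.typeC S hS hne π ?_ ?_
          · intro v hv hs
            exact h1 ⟨v, hv, hs⟩
          · intro u v huv hs
            exact h2 ⟨u, v, huv, hs⟩
        have h4 : A π = 0 := by
          simp only [hA, h3, abs_zero, zero_mul]
        rw [h4]
        positivity
  have hbound : ∀ π, A π ≤ KK D * R := by
    intro π
    by_cases hπ : SuppOn S π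
    · refine (claim (e π) π hπ rfl).trans ?_
      refine mul_le_mul_of_nonneg_right ?_ hR0
      have h1 : (KK D : ℝ) = ((N : ℝ) + 1) ^ ((D + 1) * (N + 1) + 1) := by
        unfold KK
        push_cast
        rw [hN]
      rw [h1]
      apply pow_le_pow_right₀ hNR
      simp only [he]
      have h2 := hLN π hπ
      have h3 : nu G π ≤ D := (nu_le_card G hπ).trans hS
      have h4 : nu G π * (N + 1) ≤ D * (N + 1) := Nat.mul_le_mul_right _ h3
      have h5 : (D + 1) * (N + 1) = D * (N + 1) + (N + 1) := by ring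
      omega
    · have h4 : A π = 0 := by
        simp only [hA, ha.supp S hS π hπ, abs_zero, zero_mul]
      rw [h4]
      positivity
  have hKR : (2 : ℝ) * KK D ≤ k := by exact_mod_cast hk
  have h1 : M ≤ KK D * (B + M / k) := hbound π₀
  have h2 : (KK D : ℝ) * (M / k) ≤ M / 2 := by
    rw [mul_div_assoc', div_le_div_iff₀ hk0 (by norm_num)]
    nlinarith
  have h3 : M ≤ 2 * KK D * B := by
    rw [mul_add] at h1
    linarith
  exact (hmax π).trans h3

theorem coef_bound (G : SimpleGraph V) (k D : ℕ) (hD : 1 ≤ D) (hk : 2 * KK D ≤ k)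
    (a : Finset V → Setoid V → ℝ) (ha : CoefSys G k D a) (S : Finset V) (hS : S.card ≤ D)
    (π : Setoid V) : |a S π| ≤ (CA D : ℝ) / (k : ℝ) ^ nu G π := by
  have _ := hD
  have hKK : 1 ≤ KK D := Nat.one_le_pow _ _ (Nat.succ_pos _)
  have hKR : (1 : ℝ) ≤ KK D := by exact_mod_cast hKK
  have hk0 : (0 : ℝ) < k := by
    have : 0 < k := by omega
    exact_mod_cast this
  have main : ∀ m : ℕ, m ≤ D → ∀ S : Finset V, S.card = m → ∀ π,
      |a S π| * (k : ℝ) ^ nu G π ≤ (2 * KK D : ℝ) ^ m := by
    intro m
    induction m with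
    | zero =>
      intro _ S hS π
      have hS0 : S = ∅ := card_eq_zero.1 hS
      subst hS0
      by_cases hπ : π = ⊥
      · rw [hπ, ha.base, nu_bot]
        simp
      · have : a ∅ π = 0 := ha.supp ∅ (by simp) π fun h => hπ (suppOn_empty h)
        rw [this]
        simp
    | succ m IH =>
      intro hm S hS π
      have hne : S.Nonempty := by
        rw [← card_pos, hS]
        exact Nat.succ_pos m
      have h1 := step_bound G k D hk a ha S (hS ▸ hm) hne (B := (2 * KK D : ℝ) ^ m) (by positivity)
        (fun v hv σ => IH (by omega) (S.erase v) (by rw [card_erase_of_mem hv, hS]; rfl) σ) π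
      rw [pow_succ, mul_comm ((2 * KK D : ℝ) ^ m)]
      exact h1
  have h1 := main S.card hS S rfl π
  rw [le_div_iff₀ (by positivity)]
  refine h1.trans ?_
  have h2 : (CA D : ℝ) = (2 * KK D : ℝ) ^ D := by
    unfold CA
    push_cast
    rfl
  rw [h2]
  exact pow_le_pow_right₀ (by linarith) hS

end Pool.Agent.SOSC
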