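import Pool.Agent.SOSC.PSys2
import Pool.Agent.SOSC.Rec
import Pool.Agent.SOSC.Block
import Pool.Agent.SOSC.Form

/-!
# SOSC EST: estimates for `E[p q dens G 0 (S ∪ T)]`, `p ∈ W_S`, `q ∈ W_T`

Let `a` be the coefficient system of `coefs_exist`; `|a S π| ≤ CA D / k^ν(π)` (`coef_bound`),
`a S π = 0` unless `SuppOn S π`, at most `NP D` such `π` (`card_suppOn`), `CE D = NP D * CA D`.

## est_sup
`|dens G 0 S c| ≤ ∑_π |a S π| ≤ NP D * CA D`.

## est_diag
(1) `marg` with `τ = ⊥`: `|a (S.erase v) ⊥ - a S ⊥| ≤ (1/k) CE D`; by induction on `|S|`,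
`|a S ⊥ - 1| ≤ D CE D / k`.  (2) `π ≠ ⊥` supported on `S`: if `π u v` for adjacent `u, v` (in
`S`) then `p² ind π = 0`.  Otherwise `ν(π) ≥ 1` (`one_le_nu`), so `|a S π| ≤ CA D / k` and
`0 ≤ E[p² ind π] ≤ E[p²]`.  Sum: `|E[p² h] - E[p²]| ≤ (D CE D/k + NP D CA D/k) E[p²]`.

## est_off
`X = S ∪ T`, `a = |S \ T|`, `b = |T \ S|`, `E[p q h] = ∑_π a_π E[p q ind π]`, `π` supported on `X`.
(i) If some `v ∈ S \ T` is single for `π` then `E[p q ind π] = 0` (`ev_mul_pure`: `q`, `ind π` do not
depend on the colour of `v`; `π` is supported on `X.erase v`, `suppOn_erase`); similarly for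
`v ∈ T \ S`.
(ii) If `π x y` for adjacent `x, y`, both in `S` or both in `T`, then `p q ind π = 0`.
(iii) Let `π` be neither of type (i) nor of type (ii) (good).  Cauchy–Schwarz
(`ev_abs_mul_abs_mul_le` with weight `ind π`) and `block` for `S` and `T` (sets `Z, Z'`):
`|E[p q ind π]| ≤ (E[p² ind π])^{1/2} (E[q² ind π])^{1/2} ≤ ‖p‖ ‖q‖ k^{-(|Z|+|Z'|)/2}`.
Let `O = (T \ S) \ Z`, `O' = (S \ T) \ Z'`; `|Z| ≥ b - |O|`, `|Z'| ≥ a - |O'|`.
The class of `v ∈ O` does not meet `S` (block (2)), so it is contained in `T \ S` (classes with at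
least two elements are contained in `X`); it has at least two elements (not single) and no edge
(ii), so it is disconnected (`not_connected_of_no_edge`).  Similarly for `O'` (classes in `S \ T`).
Different elements of `O ∪ O'` are in different classes.  By `nu_ge`, `|O| + |O'| ≤ ν(π)`.
So `|Z| + |Z'| ≥ a + b - ν(π)` and
`|a_π E[p q ind π]| ≤ CA D k^{-ν} k^{-(a+b-ν)/2} ‖p‖ ‖q‖ = CA D k^{-(a+b)/2 - ν/2} ‖p‖ ‖q‖`.
If `ν(π) = 0` then `Lead G S T`: `v ∈ S \ T` is not single, its class is connected
(`nu_zero_conn`), so it has a neighbour `y` in its class (`exists_adj_of_connected`), `y ∈ X`,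
and `y ∉ S` by (ii), so `y ∈ T \ S`.  Similarly for `v ∈ T \ S`.  So if `Lead G S T` fails, all
good `π` have `ν(π) ≥ 1` and the bound has the additional factor `k^{-1/2}`.
Sum over at most `NP D` partitions.
-/

set_option autoImplicit false
set_option linter.unusedSectionVars false

namespace Pool.Agent.SOSC

open Finset

variable {V : Type*} [Fintype V] [DecidableEq V] {k : ℕ}

/-! ### Tools -/

open Classical in
theorem sum_suppOn_le {D : ℕ} {S : Finset V} (hS : S.card ≤ D) (g : Setoid V → ℝ) {B : ℝ}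
    (hB : 0 ≤ B) (h0 : ∀ π, ¬ SuppOn S π → g π = 0) (h1 : ∀ π, SuppOn S π → |g π| ≤ B) :
    |∑ π, g π| ≤ NP D * B := by
  have h2 : ∑ π, g π = ∑ π ∈ univ.filter (fun π : Setoid V => SuppOn S π), g π := by
    rw [sum_filter]
    refine sum_congr rfl fun π _ => ?_
    by_cases h : SuppOn S π
    · simp [h]
    · simp [h, h0 π h]
  rw [h2]
  calc |∑ π ∈ univ.filter (fun π : Setoid V => SuppOn S π), g π|
      ≤ ∑ π ∈ univ.filter (fun π : Setoid V => SuppOn S π), |g π| := abs_sum_le_sum_abs _ _
    _ ≤ ∑ _π ∈ univ.filter (fun π : Setoid V => SuppOn S π), B :=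
        sum_le_sum fun π hπ => h1 π (mem_filter.1 hπ).2
    _ = (univ.filter (fun π : Setoid V => SuppOn S π)).card * B := by
        rw [sum_const, nsmul_eq_mul]
    _ ≤ NP D * B := mul_le_mul_of_nonneg_right (by exact_mod_cast card_suppOn hS) hB

theorem one_le_k [NeZero k] : (1 : ℝ) ≤ k := by
  exact_mod_cast Nat.one_le_iff_ne_zero.2 (NeZero.ne k)

theorem coef_le' [NeZero k] (G : SimpleGraph V) {D : ℕ} (hD : 1 ≤ D) (hk : K0 D ≤ k)
    {a : Finset V → Setoid V → ℝ} (ha : CoefSys G k D a) {S : Finset V} (hS : S.card ≤ D)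
    (π : Setoid V) : |a S π| ≤ CA D := by
  have h := coef_bound G k D hD (le_trans (le_max_right _ _) hk) a ha S hS π
  refine h.trans (div_le_self (by positivity) ?_)
  exact one_le_pow₀ one_le_k

theorem coef_le_div [NeZero k] (G : SimpleGraph V) {D : ℕ} (hD : 1 ≤ D) (hk : K0 D ≤ k)
    {a : Finset V → Setoid V → ℝ} (ha : CoefSys G k D a) {S : Finset V} (hS : S.card ≤ D)
    {π : Setoid V} (hν : 1 ≤ nu G π) : |a S π| ≤ CA D / k := by
  have h := coef_bound G k D hD (le_trans (le_max_right _ _) hk) a ha S hS π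
  refine h.trans ?_
  have hk1 : (1 : ℝ) ≤ k := one_le_k
  apply div_le_div_of_nonneg_left (by positivity) (by linarith)
  calc (k : ℝ) = (k : ℝ) ^ 1 := (pow_one _).symm
    _ ≤ (k : ℝ) ^ nu G π := pow_le_pow_right₀ hk1 hν

theorem est_sup [NeZero k] (G : SimpleGraph V) {D : ℕ} (hD : 1 ≤ D) (hk : K0 D ≤ k)
    {S : Finset V} (hS : S.card ≤ D) (c : V → Fin k) : |dens G 0 S c| ≤ CE D := by
  obtain ⟨a, ha, hc⟩ := coefs_exist G (k := k) hD (le_trans (le_max_left _ _) hk)
  rw [(hc S hS).2 c]
  have h := sum_suppOn_le hS (fun π => a S π * ind π c) (B := CA D) (by positivity)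
    (fun π hπ => by rw [(hc S hS).1 π hπ, zero_mul])
    (fun π _ => by
      rw [abs_mul, abs_of_nonneg (ind_nonneg π c)]
      calc |a S π| * ind π c ≤ CA D * 1 :=
            mul_le_mul (coef_le' G hD hk ha hS π) (ind_le_one π c) (ind_nonneg π c) (by positivity)
        _ = CA D := mul_one _)
  refine h.trans (le_of_eq ?_)
  simp [CE]

/-- The coefficient of the trivial partition. -/
theorem coef_bot [NeZero k] (G : SimpleGraph V) {D : ℕ} (hD : 1 ≤ D) (hk : K0 D ≤ k)
    {a : Finset V → Setoid V → ℝ} (ha : CoefSys G k D a) (S : Finset V) (hS : S.card ≤ D) :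
    |a S ⊥ - 1| ≤ S.card * (CE D / k) := by
  classical
  induction S using Finset.induction_on with
  | empty => simp [ha.base]
  | insert v S hv ih =>
    have hcard : (insert v S).card = S.card + 1 := card_insert_of_notMem hv
    have hS' : S.card ≤ D := by omega
    have h1 := ha.marg (insert v S) hS v (mem_insert_self v S) ⊥ (suppOn_bot _)
    rw [erase_insert hv] at h1
    have h2 : |∑ π : Setoid V, if ¬ Single π v ∧ delv v π = ⊥ then a (insert v S) π else 0| ≤
        NP D * CA D := by
      refine sum_suppOn_le hS _ (by positivity) (fun π hπ => ?_) (fun π _ => ?_)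
      · split_ifs with h
        · exact ha.supp _ hS π hπ
        · rfl
      · split_ifs with h
        · exact coef_le' G hD hk ha hS π
        · simp
    have h3 := ih hS'
    have hk1 : (1 : ℝ) ≤ k := one_le_k
    have h4 : a (insert v S) ⊥ - 1 = (a S ⊥ - 1) - (1 / (k : ℝ)) *
        ∑ π : Setoid V, if ¬ Single π v ∧ delv v π = ⊥ then a (insert v S) π else 0 := by
      rw [h1]; ring
    rw [h4, hcard]
    have h5 : |(1 / (k : ℝ)) *
        ∑ π : Setoid V, if ¬ Single π v ∧ delv v π = ⊥ then a (insert v S) π else 0| ≤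
        CE D / k := by
      rw [abs_mul, abs_of_nonneg (by positivity : (0 : ℝ) ≤ 1 / k)]
      calc 1 / (k : ℝ) * |∑ π : Setoid V,
            if ¬ Single π v ∧ delv v π = ⊥ then a (insert v S) π else 0|
          ≤ 1 / (k : ℝ) * (NP D * CA D) := mul_le_mul_of_nonneg_left h2 (by positivity)
        _ = CE D / k := by simp only [CE, Nat.cast_mul]; ring
    calc |(a S ⊥ - 1) - (1 / (k : ℝ)) *
        ∑ π : Setoid V, if ¬ Single π v ∧ delv v π = ⊥ then a (insert v S) π else 0|
        ≤ |a S ⊥ - 1| + |(1 / (k : ℝ)) *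
        ∑ π : Setoid V, if ¬ Single π v ∧ delv v π = ⊥ then a (insert v S) π else 0| :=
          abs_sub _ _
      _ ≤ S.card * (CE D / k) + CE D / k := add_le_add h3 h5
      _ = ((S.card + 1 : ℕ) : ℝ) * (CE D / k) := by push_cast; ring

/-- If `π` identifies two adjacent vertices of `S` then `p * ind π = 0`. -/
theorem mul_ind_eq_zero {G : SimpleGraph V} {S : Finset V} {p : Fn V k} (hp : IsW G S p)
    {π : Setoid V} {u v : V} (hu : u ∈ S) (hv : v ∈ S) (huv : G.Adj u v) (hπ : π u v)
    (c : V → Fin k) : p c * ind π c = 0 := by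
  classical
  unfold ind
  split_ifs with h
  · rw [hp.eq_zero hu hv huv (h u v hπ), zero_mul]
  · rw [mul_zero]

theorem est_diag [NeZero k] (G : SimpleGraph V) {D : ℕ} (hD : 1 ≤ D) (hk : K0 D ≤ k)
    {S : Finset V} (hS : S.card ≤ D) {p : Fn V k} (hp : IsW G S p) :
    |ev (fun c => p c * p c * dens G 0 S c) - ev (fun c => p c ^ 2)| ≤
      (D + 1) * CE D / k * ev (fun c => p c ^ 2) := by
  classical
  obtain ⟨a, ha, hc⟩ := coefs_exist G (k := k) hD (le_trans (le_max_left _ _) hk)
  have hk1 : (1 : ℝ) ≤ k := one_le_k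
  have hE : 0 ≤ ev (fun c => p c ^ 2) := ev_nonneg fun c => sq_nonneg _
  -- expansion
  have h1 : ev (fun c => p c * p c * dens G 0 S c) =
      ∑ π, a S π * ev (fun c => p c ^ 2 * ind π c) := by
    rw [← sum_congr rfl (fun π _ => ev_smul (a S π) (fun c => p c ^ 2 * ind π c)), ← ev_sum]
    refine ev_congr fun c => ?_
    rw [(hc S hS).2 c, mul_sum]
    exact sum_congr rfl fun π _ => by ring
  have h2 : ∀ π : Setoid V, π ≠ ⊥ → |a S π * ev (fun c => p c ^ 2 * ind π c)| ≤
      CA D / k * ev (fun c => p c ^ 2) := by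
    intro π hπ
    by_cases hs : SuppOn S π
    · by_cases hadj : ∀ u v, G.Adj u v → ¬ π u v
      · have hν := one_le_nu G hπ hadj
        have h3 := coef_le_div G hD hk ha hS hν
        have h4 : |ev (fun c => p c ^ 2 * ind π c)| ≤ ev (fun c => p c ^ 2) := by
          rw [abs_of_nonneg (ev_nonneg fun c => mul_nonneg (sq_nonneg _) (ind_nonneg _ _))]
          refine ev_mono fun c => ?_
          exact mul_le_of_le_one_right (sq_nonneg _) (ind_le_one _ _)
        rw [abs_mul]
        exact mul_le_mul h3 h4 (abs_nonneg _) (by positivity)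
      · push Not at hadj
        obtain ⟨u, v, huv, hπuv⟩ := hadj
        have huvS : u ∈ S ∧ v ∈ S := by
          rcases hs u v hπuv with h | h
          · exact absurd h huv.ne
          · exact h
        have h5 : (fun c => p c ^ 2 * ind π c) = fun _ : V → Fin k => (0 : ℝ) := by
          funext c
          have := mul_ind_eq_zero hp huvS.1 huvS.2 huv hπuv c
          rw [sq, mul_assoc, this, mul_zero]
        rw [h5, ev_zero, mul_zero, abs_zero]
        positivity
    · rw [(hc S hS).1 π hs, zero_mul, abs_zero]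
      positivity
  have h6 : ev (fun c => p c ^ 2 * ind (⊥ : Setoid V) c) = ev (fun c => p c ^ 2) :=
    ev_congr fun c => by rw [ind_bot, mul_one]
  have h7 : ev (fun c => p c * p c * dens G 0 S c) - ev (fun c => p c ^ 2) =
      (a S ⊥ - 1) * ev (fun c => p c ^ 2) +
        ∑ π, (if π = ⊥ then 0 else a S π * ev (fun c => p c ^ 2 * ind π c)) := by
    have h8 : ∑ π, a S π * ev (fun c => p c ^ 2 * ind π c) =
        a S ⊥ * ev (fun c => p c ^ 2) +
        ∑ π, (if π = ⊥ then 0 else a S π * ev (fun c => p c ^ 2 * ind π c)) := by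
      rw [← h6]
      rw [← Finset.add_sum_erase univ _ (mem_univ (⊥ : Setoid V))]
      congr 1
      rw [← Finset.add_sum_erase univ (fun π : Setoid V =>
        if π = ⊥ then 0 else a S π * ev (fun c => p c ^ 2 * ind π c)) (mem_univ (⊥ : Setoid V))]
      rw [if_pos rfl, zero_add]
      refine sum_congr rfl fun π hπ => ?_
      rw [if_neg (ne_of_mem_erase hπ)]
    rw [h1, h8]; ring
  have h9 : |∑ π, (if π = ⊥ then 0 else a S π * ev (fun c => p c ^ 2 * ind π c))| ≤
      NP D * (CA D / k * ev (fun c => p c ^ 2)) := by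
    refine sum_suppOn_le hS _ (by positivity) (fun π hπ => ?_) (fun π _ => ?_)
    · rw [(hc S hS).1 π hπ, zero_mul, ite_self]
    · split_ifs with h
      · rw [abs_zero]; positivity
      · exact h2 π h
  have h10 := coef_bot G hD hk ha S hS
  rw [h7]
  calc |(a S ⊥ - 1) * ev (fun c => p c ^ 2) +
        ∑ π, (if π = ⊥ then 0 else a S π * ev (fun c => p c ^ 2 * ind π c))|
      ≤ |(a S ⊥ - 1) * ev (fun c => p c ^ 2)| +
        |∑ π, (if π = ⊥ then 0 else a S π * ev (fun c => p c ^ 2 * ind π c))| := abs_add_le _ _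
    _ ≤ (D * (CE D / k)) * ev (fun c => p c ^ 2) + NP D * (CA D / k * ev (fun c => p c ^ 2)) := by
        refine add_le_add ?_ h9
        rw [abs_mul, abs_of_nonneg hE]
        refine mul_le_mul_of_nonneg_right (h10.trans ?_) hE
        exact mul_le_mul_of_nonneg_right (by exact_mod_cast hS) (by positivity)
    _ = (D + 1) * CE D / k * ev (fun c => p c ^ 2) := by
        simp only [CE, Nat.cast_mul]; ring

/-- The combinatorial inequality for good partitions: `a + b ≤ |Z| + |Z'| + ν(π)`. -/
theorem good_count (G : SimpleGraph V) {S T : Finset V} {π : Setoid V}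
    (hs : SuppOn (S ∪ T) π) (h1 : ∀ v ∈ S \ T, ¬ Single π v) (h2 : ∀ v ∈ T \ S, ¬ Single π v)
    (h3 : ∀ x ∈ S, ∀ y ∈ S, G.Adj x y → ¬ π x y) (h4 : ∀ x ∈ T, ∀ y ∈ T, G.Adj x y → ¬ π x y)
    {Z Z' : Finset V}
    (hZ1 : ∀ v, v ∉ S → v ∉ Z → ∀ u, π u v → u ∉ S)
    (hZ2 : ∀ v w, v ∉ S → w ∉ S → v ∉ Z → w ∉ Z → π v w → v = w)
    (hZ1' : ∀ v, v ∉ T → v ∉ Z' → ∀ u, π u v → u ∉ T)
    (hZ2' : ∀ v w, v ∉ T → w ∉ T → v ∉ Z' → w ∉ Z' → π v w → v = w) :
    (S \ T).card + (T \ S).card ≤ Z.card + Z'.card + nu G π := by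
  have hdisj : Disjoint ((T \ S) \ Z) ((S \ T) \ Z') := by
    rw [Finset.disjoint_left]
    intro v hv hv'
    simp only [mem_sdiff] at hv hv'
    exact hv.1.2 hv'.1.1
  have hnu : (((T \ S) \ Z) ∪ ((S \ T) \ Z')).card ≤ nu G π := by
    apply nu_ge
    · intro x hx y hy hxy
      simp only [mem_union, mem_sdiff] at hx hy
      rcases hx with hx | hx <;> rcases hy with hy | hy
      · exact hZ2 x y hx.1.2 hy.1.2 hx.2 hy.2 hxy
      · exact absurd hy.1.1 (hZ1 x hx.1.2 hx.2 y (π.symm hxy))
      · exact absurd hx.1.1 (hZ1 y hy.1.2 hy.2 x hxy)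
      · exact hZ2' x y hx.1.2 hy.1.2 hx.2 hy.2 hxy
    · intro x hx
      simp only [mem_union, mem_sdiff] at hx
      rcases hx with hx | hx
      · -- class contained in `T \ S`
        have hns := h2 x (mem_sdiff.2 hx.1)
        simp only [Single, not_forall] at hns
        obtain ⟨y, hy, hne⟩ := hns
        refine not_connected_of_no_edge G hy hne fun a b ha hb hab => ?_
        have hclass : ∀ z, π z x → z ∈ T := by
          intro z hz
          have hzS := hZ1 x hx.1.2 hx.2 z hz
          rcases hs z x hz with h | h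
          · rw [h]; exact hx.1.1
          · rcases mem_union.1 h.1 with h' | h'
            · exact absurd h' hzS
            · exact h'
        exact h4 a (hclass a ha) b (hclass b hb) hab (π.trans ha (π.symm hb))
      · have hns := h1 x (mem_sdiff.2 hx.1)
        simp only [Single, not_forall] at hns
        obtain ⟨y, hy, hne⟩ := hns
        refine not_connected_of_no_edge G hy hne fun a b ha hb hab => ?_
        have hclass : ∀ z, π z x → z ∈ S := by
          intro z hz
          have hzT := hZ1' x hx.1.2 hx.2 z hz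
          rcases hs z x hz with h | h
          · rw [h]; exact hx.1.1
          · rcases mem_union.1 h.1 with h' | h'
            · exact h'
            · exact absurd h' hzT
        exact h3 a (hclass a ha) b (hclass b hb) hab (π.trans ha (π.symm hb))
  rw [card_union_of_disjoint hdisj] at hnu
  have e1 := Finset.le_card_sdiff Z (T \ S)
  have e2 := Finset.le_card_sdiff Z' (S \ T)
  omega

/-- If all classes of a good partition are connected there is a leading cover. -/
theorem lead_of_nu_zero (G : SimpleGraph V) {S T : Finset V} {π : Setoid V}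
    (hs : SuppOn (S ∪ T) π) (h1 : ∀ v ∈ S \ T, ¬ Single π v) (h2 : ∀ v ∈ T \ S, ¬ Single π v)
    (h3 : ∀ x ∈ S, ∀ y ∈ S, G.Adj x y → ¬ π x y) (h4 : ∀ x ∈ T, ∀ y ∈ T, G.Adj x y → ¬ π x y)
    (hν : nu G π = 0) : Lead G S T := by
  constructor
  · intro s hsm
    have hns := h1 s hsm
    simp only [Single, not_forall] at hns
    obtain ⟨y, hy, hne⟩ := hns
    obtain ⟨z, hz, hsz⟩ := exists_adj_of_connected G hy hne (nu_zero_conn G hν s)
    have hzS : z ∉ S := fun h => h3 s (mem_sdiff.1 hsm).1 z h hsz (π.symm hz)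
    have hzX : z ∈ S ∪ T := by
      rcases hs z s hz with h | h
      · exact absurd h hsz.ne'
      · exact h.1
    refine ⟨z, mem_sdiff.2 ⟨?_, hzS⟩, hsz⟩
    rcases mem_union.1 hzX with h | h
    · exact absurd h hzS
    · exact h
  · intro t htm
    have hns := h2 t htm
    simp only [Single, not_forall] at hns
    obtain ⟨y, hy, hne⟩ := hns
    obtain ⟨z, hz, htz⟩ := exists_adj_of_connected G hy hne (nu_zero_conn G hν t)
    have hzT : z ∉ T := fun h => h4 t (mem_sdiff.1 htm).1 z h htz (π.symm hz)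
    have hzX : z ∈ S ∪ T := by
      rcases hs z t hz with h | h
      · exact absurd h htz.ne'
      · exact h.1
    refine ⟨z, mem_sdiff.2 ⟨?_, hzT⟩, htz⟩
    rcases mem_union.1 hzX with h | h
    · exact h
    · exact absurd h hzT

theorem sqrt_div_pow {x : ℝ} (k z : ℕ) :
    Real.sqrt (x / (k : ℝ) ^ z) = Real.sqrt x / Real.sqrt k ^ z := by
  rw [Real.sqrt_div' _ (by positivity)]
  congr 1
  rw [Real.sqrt_eq_iff_mul_self_eq (by positivity) (by positivity)]
  rw [← mul_pow, Real.mul_self_sqrt (by positivity)]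

/-- Bound for one partition. -/
theorem est_one [NeZero k] (G : SimpleGraph V) {D : ℕ} (hD : 1 ≤ D) (hk : K0 D ≤ k)
    {a : Finset V → Setoid V → ℝ} (ha : CoefSys G k D a)
    {S T : Finset V} (hST : (S ∪ T).card ≤ D) {p q : Fn V k} (hp : IsW G S p) (hq : IsW G T q)
    {π : Setoid V} (hs : SuppOn (S ∪ T) π) {e : ℝ}
    (he : e = Real.sqrt (ev fun c => p c ^ 2) * Real.sqrt (ev fun c => q c ^ 2)) :
    |a (S ∪ T) π * ev (fun c => p c * q c * ind π c)| ≤
      CA D / Real.sqrt k ^ ((S \ T).card + (T \ S).card) * e ∧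
    (¬ Lead G S T → |a (S ∪ T) π * ev (fun c => p c * q c * ind π c)| ≤
      CA D / Real.sqrt k ^ ((S \ T).card + (T \ S).card) * (1 / Real.sqrt k) * e) := by
  have hk1 : (1 : ℝ) ≤ k := one_le_k
  have hsk : (1 : ℝ) ≤ Real.sqrt k := by
    rw [show (1 : ℝ) = Real.sqrt 1 from Real.sqrt_one.symm]
    exact Real.sqrt_le_sqrt hk1
  have he0 : 0 ≤ e := by rw [he]; positivity
  by_cases hz : ev (fun c => p c * q c * ind π c) = 0
  · rw [hz, mul_zero, abs_zero]
    constructor
    · positivity
    · intro _; positivity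
  -- the partition is good
  have h1 : ∀ v ∈ S \ T, ¬ Single π v := by
    intro v hv hsing
    apply hz
    have hv' := mem_sdiff.1 hv
    have hdep : DepOn ((S ∪ T).erase v) (fun c => q c * ind π c) := by
      refine DepOn.mul (hq.dep.mono ?_) (depOn_ind (suppOn_erase hs hsing))
      intro x hx
      exact mem_erase.2 ⟨fun h => hv'.2 (h ▸ hx), mem_union_right _ hx⟩
    have := ev_mul_pure (notMem_erase v (S ∪ T)) hdep (hp.pure v hv'.1)
    rw [← this]
    exact ev_congr fun c => by ring
  have h2 : ∀ v ∈ T \ S, ¬ Single π v := by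
    intro v hv hsing
    apply hz
    have hv' := mem_sdiff.1 hv
    have hdep : DepOn ((S ∪ T).erase v) (fun c => p c * ind π c) := by
      refine DepOn.mul (hp.dep.mono ?_) (depOn_ind (suppOn_erase hs hsing))
      intro x hx
      exact mem_erase.2 ⟨fun h => hv'.2 (h ▸ hx), mem_union_left _ hx⟩
    have := ev_mul_pure (notMem_erase v (S ∪ T)) hdep (hq.pure v hv'.1)
    rw [← this]
    exact ev_congr fun c => by ring
  have h3 : ∀ x ∈ S, ∀ y ∈ S, G.Adj x y → ¬ π x y := by
    intro x hx y hy hxy hπ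
    apply hz
    have : (fun c => p c * q c * ind π c) = fun _ : V → Fin k => (0 : ℝ) := by
      funext c
      have := mul_ind_eq_zero hp hx hy hxy hπ c
      calc p c * q c * ind π c = (p c * ind π c) * q c := by ring
        _ = 0 := by rw [this, zero_mul]
    rw [this, ev_zero]
  have h4 : ∀ x ∈ T, ∀ y ∈ T, G.Adj x y → ¬ π x y := by
    intro x hx y hy hxy hπ
    apply hz
    have : (fun c => p c * q c * ind π c) = fun _ : V → Fin k => (0 : ℝ) := by
      funext c
      have := mul_ind_eq_zero hq hx hy hxy hπ c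
      calc p c * q c * ind π c = (q c * ind π c) * p c := by ring
        _ = 0 := by rw [this, zero_mul]
    rw [this, ev_zero]
  obtain ⟨Z, _, hZ, hZ1, hZ2⟩ := block (k := k) π S
  obtain ⟨Z', _, hZ', hZ1', hZ2'⟩ := block (k := k) π T
  have hcount := good_count G hs h1 h2 h3 h4 hZ1 hZ2 hZ1' hZ2'
  -- Cauchy–Schwarz
  have hE : |ev (fun c => p c * q c * ind π c)| ≤
      e / Real.sqrt k ^ (Z.card + Z'.card) := by
    have e1 : |ev (fun c => p c * q c * ind π c)| ≤ ev (fun c => |p c| * |q c| * ind π c) := by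
      refine (abs_ev_le _).trans (le_of_eq (ev_congr fun c => ?_))
      rw [abs_mul, abs_mul, abs_of_nonneg (ind_nonneg π c)]
    have e2 := ev_abs_mul_abs_mul_le p q (ind π) (fun c => ind_nonneg π c)
    have e3 : Real.sqrt (ev fun c => p c ^ 2 * ind π c) ≤
        Real.sqrt (ev fun c => p c ^ 2) / Real.sqrt k ^ Z.card := by
      rw [← sqrt_div_pow]
      refine Real.sqrt_le_sqrt (hZ (fun c => p c ^ 2) ?_ (fun c => sq_nonneg _))
      intro c c' hc
      simp only [hp.dep c c' hc]
    have e4 : Real.sqrt (ev fun c => q c ^ 2 * ind π c) ≤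
        Real.sqrt (ev fun c => q c ^ 2) / Real.sqrt k ^ Z'.card := by
      rw [← sqrt_div_pow]
      refine Real.sqrt_le_sqrt (hZ' (fun c => q c ^ 2) ?_ (fun c => sq_nonneg _))
      intro c c' hc
      simp only [hq.dep c c' hc]
    calc |ev (fun c => p c * q c * ind π c)| ≤ _ := e1
      _ ≤ _ := e2
      _ ≤ (Real.sqrt (ev fun c => p c ^ 2) / Real.sqrt k ^ Z.card) *
          (Real.sqrt (ev fun c => q c ^ 2) / Real.sqrt k ^ Z'.card) :=
          mul_le_mul e3 e4 (Real.sqrt_nonneg _) (by positivity)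
      _ = e / Real.sqrt k ^ (Z.card + Z'.card) := by
          rw [he, pow_add, div_mul_div_comm]
  have hA := coef_bound G k D hD (le_trans (le_max_right _ _) hk) a ha (S ∪ T) hST π
  have hkpow : (k : ℝ) ^ nu G π = Real.sqrt k ^ (2 * nu G π) := by
    rw [pow_mul, Real.sq_sqrt (by positivity)]
  have hprod : |a (S ∪ T) π * ev (fun c => p c * q c * ind π c)| ≤
      CA D * e / Real.sqrt k ^ (2 * nu G π + (Z.card + Z'.card)) := by
    rw [abs_mul]
    calc |a (S ∪ T) π| * |ev (fun c => p c * q c * ind π c)|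
        ≤ (CA D / (k : ℝ) ^ nu G π) * (e / Real.sqrt k ^ (Z.card + Z'.card)) :=
          mul_le_mul hA hE (abs_nonneg _) (by positivity)
      _ = CA D * e / Real.sqrt k ^ (2 * nu G π + (Z.card + Z'.card)) := by
          rw [hkpow, div_mul_div_comm, ← pow_add]
  constructor
  · refine hprod.trans ?_
    rw [div_mul_eq_mul_div]
    refine div_le_div_of_nonneg_left (by positivity) (by positivity) ?_
    exact pow_le_pow_right₀ hsk (by omega)
  · intro hlead
    have hν : 1 ≤ nu G π := by
      by_contra hcon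
      exact hlead (lead_of_nu_zero G hs h1 h2 h3 h4 (by omega))
    refine hprod.trans ?_
    have : CA D / Real.sqrt k ^ ((S \ T).card + (T \ S).card) * (1 / Real.sqrt k) * e =
        CA D * e / Real.sqrt k ^ ((S \ T).card + (T \ S).card + 1) := by
      rw [pow_succ]; field_simp
    rw [this]
    refine div_le_div_of_nonneg_left (by positivity) (by positivity) ?_
    exact pow_le_pow_right₀ hsk (by omega)

open Classical in
theorem est_off [NeZero k] (G : SimpleGraph V) {D : ℕ} (hD : 1 ≤ D) (hk : K0 D ≤ k)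
    {S T : Finset V} (hST : (S ∪ T).card ≤ D) {p q : Fn V k} (hp : IsW G S p) (hq : IsW G T q) :
    |ev (fun c => p c * q c * dens G 0 (S ∪ T) c)| ≤
      CE D / Real.sqrt k ^ ((S \ T).card + (T \ S).card) *
        (if Lead G S T then 1 else 1 / Real.sqrt k) *
        (Real.sqrt (ev fun c => p c ^ 2) * Real.sqrt (ev fun c => q c ^ 2)) := by
  obtain ⟨a, ha, hc⟩ := coefs_exist G (k := k) hD (le_trans (le_max_left _ _) hk)
  have h1 : ev (fun c => p c * q c * dens G 0 (S ∪ T) c) =
      ∑ π, a (S ∪ T) π * ev (fun c => p c * q c * ind π c) := by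
    rw [← sum_congr rfl (fun π _ => ev_smul (a (S ∪ T) π) (fun c => p c * q c * ind π c)),
      ← ev_sum]
    refine ev_congr fun c => ?_
    rw [(hc _ hST).2 c, mul_sum]
    exact sum_congr rfl fun π _ => by ring
  set e := Real.sqrt (ev fun c => p c ^ 2) * Real.sqrt (ev fun c => q c ^ 2) with he
  have he0 : 0 ≤ e := by rw [he]; positivity
  have h2 : ∀ π, SuppOn (S ∪ T) π → |a (S ∪ T) π * ev (fun c => p c * q c * ind π c)| ≤
      CA D / Real.sqrt k ^ ((S \ T).card + (T \ S).card) *
        (if Lead G S T then 1 else 1 / Real.sqrt k) * e := by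
    intro π hs
    have h := est_one G hD hk ha hST hp hq hs he
    split_ifs with hl
    · rw [mul_one]; exact h.1
    · exact h.2 hl
  have h3 := sum_suppOn_le hST (fun π => a (S ∪ T) π * ev (fun c => p c * q c * ind π c))
    (B := CA D / Real.sqrt k ^ ((S \ T).card + (T \ S).card) *
        (if Lead G S T then 1 else 1 / Real.sqrt k) * e)
    (by split_ifs <;> positivity)
    (fun π hπ => by rw [(hc _ hST).1 π hπ, zero_mul]) h2
  rw [h1]
  refine h3.trans (le_of_eq ?_)
  simp only [CE, Nat.cast_mul]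
  ring

end Pool.Agent.SOSC
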