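import Pool.Agent.SOSC.LA

/-!
# SOSC EXIST: existence of densities, spanning

## exists_dens
`X = ∏_{T ∈ S.powerset} W_T` is a finite dimensional real vector space (take the submodule of
`Finset V → Fn V k` (or of `S.powerset → Fn V k`) of the families with `IsW G T (w T)` for `T ⊆ S`
and `w T = 0` for the other `T`).  For `w ∈ X` put `F_w = ∑_{T ⊆ S} w_T`.  The bilinear form
`B(w, w') = E[F_w F_w' P]`, `P = pind G S`, is positive definite by `near_orth`
(`B(w, w) = 0` implies `∑ ‖w_T‖² = 0`, so all `w_T = 0`, `eq_zero_of_ev_sq`).  Hence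
`w ↦ B(w, ·)` is an injective linear map from `X` to its dual, so it is surjective
(`LinearMap.injective_iff_surjective_of_finrank_eq_finrank`, `Subspace.dual_finrank_eq`), and there
is `w` with `B(w, w') = E[F_w' ρ]` for all `w' ∈ X`.  Taking `w'` with the single component
`u ∈ W_T` gives the second claim.

Norm: `h = F_w P`, `h² = F_w² P`.  With `w' = w`: `E[F_w² P] = E[F_w ρ] ≤ ‖F_w‖ ‖ρ‖`.  Cauchy–Schwarz
(at most `2^D` summands) and `near_orth`: `‖F_w‖² ≤ 2^D ∑ ‖w_T‖² ≤ 2^(D+1) E[F_w² P]`.  So
`E[F_w² P]² ≤ 2^(D+1) E[F_w² P] ‖ρ‖²`, i.e. `E[h²] = E[F_w² P] ≤ 2^(D+1) ‖ρ‖²`.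

## spanning
Apply `exists_dens` with `ρ = f P`.  Then `F_w P` and `f P` depend only on `S` (`f` does), vanish on
improper colourings and have the same integrals against every `u ∈ W_T`, `T ⊆ S`; by
`eq_zero_of_orth` their difference is `0`, i.e. `f = F_w` on the colourings proper on `S`.
-/

set_option autoImplicit false
set_option linter.unusedSectionVars false

namespace Pool.Agent.SOSC

open Finset

variable {V : Type*} [Fintype V] [DecidableEq V] {k : ℕ}

/-- The space of families of elements of the spaces `W_T`, `T ⊆ S`. -/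
private def famSub (G : SimpleGraph V) (S : Finset V) (k : ℕ) :
    Submodule ℝ (Finset V → Fn V k) where
  carrier := {w | (∀ T ⊆ S, IsW G T (w T)) ∧ ∀ T, ¬ T ⊆ S → w T = 0}
  zero_mem' := ⟨fun T _ => IsW.zero G T, fun _ _ => rfl⟩
  add_mem' := by
    rintro a b ⟨ha, ha'⟩ ⟨hb, hb'⟩
    exact ⟨fun T hT => (ha T hT).add (hb T hT), fun T hT => by
      rw [Pi.add_apply, ha' T hT, hb' T hT, add_zero]⟩
  smul_mem' := by
    rintro r a ⟨ha, ha'⟩
    exact ⟨fun T hT => (ha T hT).smul r, fun T hT => by
      rw [Pi.smul_apply, ha' T hT, smul_zero]⟩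

private def FF (S : Finset V) (w : Finset V → Fn V k) : Fn V k := fun c => ∑ T ∈ S.powerset, w T c

private lemma FF_add (S : Finset V) (w w' : Finset V → Fn V k) (c : V → Fin k) :
    FF S (w + w') c = FF S w c + FF S w' c := by
  simp [FF, sum_add_distrib]

private lemma FF_smul (S : Finset V) (r : ℝ) (w : Finset V → Fn V k) (c : V → Fin k) :
    FF S (r • w) c = r * FF S w c := by
  simp [FF, mul_sum]

private lemma FF_single (S T : Finset V) (hT : T ⊆ S) (u : Fn V k) (c : V → Fin k) :
    FF S (Pi.single T u) c = u c := by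
  classical
  unfold FF
  rw [sum_eq_single T]
  · simp
  · intro T' _ hne
    rw [Pi.single_eq_of_ne hne]
    rfl
  · intro h
    exact absurd (mem_powerset.2 hT) h

theorem exists_dens [NeZero k] (G : SimpleGraph V) (D : ℕ) (hD : 1 ≤ D)
    (hk : (4 * D * 2 ^ D) ^ 2 ≤ k) (S : Finset V) (hS : S.card ≤ D) (ρ : Fn V k) :
    ∃ w : Finset V → Fn V k, (∀ T ⊆ S, IsW G T (w T)) ∧
      (∀ T ⊆ S, ∀ u : Fn V k, IsW G T u →
        ev (fun c => u c * ((∑ T' ∈ S.powerset, w T' c) * pind G S c)) = ev (fun c => u c * ρ c)) ∧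
      ev (fun c => ((∑ T' ∈ S.powerset, w T' c) * pind G S c) ^ 2) ≤
        2 ^ (D + 1) * ev (fun c => ρ c ^ 2) := by
  classical
  set B : famSub G S k →ₗ[ℝ] Module.Dual ℝ (famSub G S k) :=
    LinearMap.mk₂ ℝ (fun w w' => ev fun c => FF S (w : Finset V → Fn V k) c *
      FF S (w' : Finset V → Fn V k) c * pind G S c)
      (fun a b w => by
        rw [← ev_add]
        exact ev_congr fun c => by rw [Submodule.coe_add, FF_add]; ring)
      (fun r a w => by
        rw [smul_eq_mul, ← ev_smul]
        exact ev_congr fun c => by rw [Submodule.coe_smul, FF_smul]; ring)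
      (fun w a b => by
        rw [← ev_add]
        exact ev_congr fun c => by rw [Submodule.coe_add, FF_add]; ring)
      (fun r w a => by
        rw [smul_eq_mul, ← ev_smul]
        exact ev_congr fun c => by rw [Submodule.coe_smul, FF_smul]; ring) with hB
  have hBapp : ∀ w w' : famSub G S k, B w w' = ev fun c => FF S (w : Finset V → Fn V k) c *
      FF S (w' : Finset V → Fn V k) c * pind G S c := fun _ _ => rfl
  set L : Module.Dual ℝ (famSub G S k) :=
    { toFun := fun w => ev fun c => FF S (w : Finset V → Fn V k) c * ρ c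
      map_add' := fun a b => by
        rw [← ev_add]
        exact ev_congr fun c => by rw [Submodule.coe_add, FF_add]; ring
      map_smul' := fun r a => by
        rw [RingHom.id_apply, smul_eq_mul, ← ev_smul]
        exact ev_congr fun c => by rw [Submodule.coe_smul, FF_smul]; ring } with hL
  have hLapp : ∀ w : famSub G S k, L w = ev fun c => FF S (w : Finset V → Fn V k) c * ρ c :=
    fun _ => rfl
  have hself : ∀ w : famSub G S k, (1 / 2) * ∑ T ∈ S.powerset,
      (ev fun c => (w : Finset V → Fn V k) T c ^ 2) ≤ B w w := by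
    intro w
    have h1 := near_orth G D hD hk S hS (w : Finset V → Fn V k) w.2.1
    rw [hBapp]
    refine h1.trans (le_of_eq (ev_congr fun c => ?_))
    rw [sq]
    rfl
  have hinj : Function.Injective B := by
    rw [← LinearMap.ker_eq_bot, LinearMap.ker_eq_bot']
    intro w hw
    have h1 := hself w
    rw [hw, LinearMap.zero_apply] at h1
    have h2 : ∑ T ∈ S.powerset, (ev fun c => (w : Finset V → Fn V k) T c ^ 2) = 0 := by
      have h3 : 0 ≤ ∑ T ∈ S.powerset, (ev fun c => (w : Finset V → Fn V k) T c ^ 2) :=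
        sum_nonneg fun T _ => ev_nonneg fun c => sq_nonneg _
      linarith
    rw [sum_eq_zero_iff_of_nonneg fun T _ => ev_nonneg fun c => sq_nonneg _] at h2
    apply Subtype.ext
    funext T
    by_cases hT : T ⊆ S
    · exact eq_zero_of_ev_sq (h2 T (mem_powerset.2 hT))
    · exact w.2.2 T hT
  have hsurj : Function.Surjective B :=
    (LinearMap.injective_iff_surjective_of_finrank_eq_finrank
      (Subspace.dual_finrank_eq (K := ℝ) (V := famSub G S k)).symm).1 hinj
  obtain ⟨w, hw⟩ := hsurj L
  have hFF : ∀ c, FF S (w : Finset V → Fn V k) c =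
      ∑ T' ∈ S.powerset, (w : Finset V → Fn V k) T' c := fun _ => rfl
  refine ⟨w, w.2.1, ?_, ?_⟩
  · intro T hT u hu
    have hmem : (Pi.single T u : Finset V → Fn V k) ∈ famSub G S k := by
      constructor
      · intro T' _
        by_cases h : T' = T
        · subst h
          rw [Pi.single_eq_same]
          exact hu
        · rw [Pi.single_eq_of_ne h]
          exact IsW.zero G T'
      · intro T' hT'
        have hne : T' ≠ T := by
          rintro rfl
          exact hT' hT
        rw [Pi.single_eq_of_ne hne]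
    have h1 := congrArg (fun l : Module.Dual ℝ (famSub G S k) => l ⟨_, hmem⟩) hw
    simp only [hBapp, hLapp] at h1
    rw [ev_congr (fun c => by rw [FF_single S T hT u c, ← hFF c]; ring :
      ∀ c, u c * ((∑ T' ∈ S.powerset, (w : Finset V → Fn V k) T' c) * pind G S c) =
        FF S (w : Finset V → Fn V k) c * FF S (Pi.single T u) c * pind G S c), h1]
    exact ev_congr fun c => by rw [FF_single S T hT u c]
  · set A : ℝ := B w w with hA
    have hA1 : ev (fun c => ((∑ T' ∈ S.powerset, (w : Finset V → Fn V k) T' c) *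
        pind G S c) ^ 2) = A := by
      rw [hA, hBapp]
      refine ev_congr fun c => ?_
      rw [← hFF c, mul_pow, sq (pind G S c), pind_mul_self, sq]
    have hA2 : A = ev fun c => FF S (w : Finset V → Fn V k) c * ρ c := by
      rw [hA, hw, hLapp]
    have hF : ev (fun c => FF S (w : Finset V → Fn V k) c ^ 2) ≤ 2 ^ (D + 1) * A := by
      have h1 : ∀ c, FF S (w : Finset V → Fn V k) c ^ 2 ≤
          2 ^ D * ∑ T ∈ S.powerset, (w : Finset V → Fn V k) T c ^ 2 := by
        intro c
        have h2 := sq_sum_le_card_mul_sum_sq (s := S.powerset)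
          (f := fun T => (w : Finset V → Fn V k) T c)
        refine h2.trans (mul_le_mul_of_nonneg_right ?_ (sum_nonneg fun T _ => sq_nonneg _))
        rw [card_powerset]
        push_cast
        exact pow_le_pow_right₀ (by norm_num) hS
      have h2 := ev_mono h1
      rw [ev_smul, ev_sum] at h2
      have h3 := hself w
      rw [pow_succ]
      have h4 : (0 : ℝ) < 2 ^ D := by positivity
      calc _ ≤ _ := h2
        _ ≤ 2 ^ D * (2 * A) := by
          refine mul_le_mul_of_nonneg_left ?_ h4.le
          rw [hA]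
          linarith
        _ = _ := by ring
    have hA0 : 0 ≤ A := by
      rw [← hA1]
      exact ev_nonneg fun c => sq_nonneg _
    have hCS := ev_mul_sq_le (FF S (w : Finset V → Fn V k)) ρ
    rw [← hA2] at hCS
    have hρ : 0 ≤ ev (fun c => ρ c ^ 2) := ev_nonneg fun c => sq_nonneg _
    rw [hA1]
    rcases hA0.eq_or_lt with h0 | h0
    · rw [← h0]
      positivity
    · have h5 : A * A ≤ A * (2 ^ (D + 1) * ev (fun c => ρ c ^ 2)) := by
        calc A * A = A ^ 2 := by ring
          _ ≤ _ := hCS
          _ ≤ (2 ^ (D + 1) * A) * ev (fun c => ρ c ^ 2) := mul_le_mul_of_nonneg_right hF hρ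
          _ = _ := by ring
      exact le_of_mul_le_mul_left h5 h0

theorem spanning [NeZero k] (G : SimpleGraph V) (D : ℕ) (hD : 1 ≤ D)
    (hk : (4 * D * 2 ^ D) ^ 2 ≤ k) (S : Finset V) (hS : S.card ≤ D) (f : Fn V k)
    (hf : DepOn S f) :
    ∃ w : Finset V → Fn V k, (∀ T ⊆ S, IsW G T (w T)) ∧
      ∀ c, Proper G S c → f c = ∑ T ∈ S.powerset, w T c := by
  classical
  obtain ⟨w, hw, horth, -⟩ := exists_dens G D hD hk S hS (fun c => f c * pind G S c)
  refine ⟨w, hw, ?_⟩
  have h0 : (fun c => (∑ T' ∈ S.powerset, w T' c) * pind G S c - f c * pind G S c) = 0 := by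
    refine eq_zero_of_orth G S _ ?_ ?_ ?_
    · refine DepOn.sub (DepOn.mul (DepOn.sum fun T hT => ?_) (depOn_pind G S))
        (hf.mul (depOn_pind G S))
      exact (hw T (mem_powerset.1 hT)).dep.mono (mem_powerset.1 hT)
    · intro c hc
      simp [pind, hc]
    · intro T hT u hu
      have h1 := horth T hT u hu
      rw [ev_congr (fun c => by ring : ∀ c, u c * ((∑ T' ∈ S.powerset, w T' c) * pind G S c -
        f c * pind G S c) = u c * ((∑ T' ∈ S.powerset, w T' c) * pind G S c) -
          u c * (f c * pind G S c)), ev_sub, h1, sub_self]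
  intro c hc
  have h1 := congrFun h0 c
  simp only [pind, hc, if_true, mul_one, Pi.zero_apply] at h1
  linarith

end Pool.Agent.SOSC
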