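import Pool.Agent.SOSC.Exist

/-!
# SOSC FAM1: the densities `dens G θ S`, `|S| ≤ D`: basic properties

* `IsDens.unique`: the difference of two densities depends only on `S`, vanishes on improper
  colourings and is orthogonal to all `W_T`, `T ⊆ S`; apply `eq_zero_of_orth`.
* `dens_spec`: `exists_dens` with `ρ = rho θ S`: the function `F P` (`F = ∑ w_T`, `P = pind G S`)
  is a density (`F` depends only on `S` since `w_T` depends on `T ⊆ S`; `P = 0` on improper
  colourings).
* `dens_av` (`∑ θ i = 0`): `av v (dens G θ S)` is a density for `S.erase v`: it depends only on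
  `S.erase v` (`DepOn.av`), vanishes on improper colourings (a colouring which is improper on
  `S.erase v` stays improper on `S` after recolouring `v`), and for `w ∈ W_T`, `T ⊆ S.erase v`,
  `E[w av_v h] = E[av_v (w h)] = E[w h] = E[w rho θ S] = E[av_v (w rho θ S)] = E[w rho θ (S.erase v)]`,
  because `rho θ S = (1 + θ(c v)) rho θ (S.erase v)` and `av_v (1 + θ(c v)) = 1`.
* `dens_empty`: the constant `1` is a density for `∅`.
-/

set_option autoImplicit false
set_option linter.unusedSectionVars false

namespace Pool.Agent.SOSC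

open Finset

variable {V : Type*} [Fintype V] [DecidableEq V] {k : ℕ}

theorem IsDens.unique [NeZero k] {G : SimpleGraph V} {θ : Fin k → ℝ} {S : Finset V}
    {h h' : Fn V k} (hh : IsDens G θ S h) (hh' : IsDens G θ S h') : h = h' := by
  have h0 : (fun c => h c - h' c) = 0 := by
    refine eq_zero_of_orth G S _ (hh.dep.sub hh'.dep) ?_ ?_
    · intro c hc
      simp only [hh.prop c hc, hh'.prop c hc, sub_zero]
    · intro T hT w hw
      rw [ev_congr (fun c => by ring : ∀ c, w c * (h c - h' c) = w c * h c - w c * h' c), ev_sub,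
        hh.pair T hT w hw, hh'.pair T hT w hw, sub_self]
  funext c
  have := congrFun h0 c
  simp only [Pi.zero_apply] at this
  linarith

theorem depOn_rho (θ : Fin k → ℝ) (S : Finset V) : DepOn S (rho θ S : Fn V k) := by
  intro c c' hc
  unfold rho
  exact prod_congr rfl fun v hv => by rw [hc v hv]

theorem isDens_dens {G : SimpleGraph V} {θ : Fin k → ℝ} {S : Finset V}
    (h : ∃ h : Fn V k, IsDens G θ S h) : IsDens G θ S (dens G θ S) := by
  unfold dens
  rw [dif_pos h]
  exact h.choose_spec

theorem dens_spec [NeZero k] (G : SimpleGraph V) {D : ℕ} (hD : 1 ≤ D)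
    (hk : (4 * D * 2 ^ D) ^ 2 ≤ k) (θ : Fin k → ℝ) {S : Finset V} (hS : S.card ≤ D) :
    IsDens G θ S (dens G θ S) := by
  classical
  obtain ⟨w, hw, horth, -⟩ := exists_dens G D hD hk S hS (rho θ S)
  refine isDens_dens ⟨fun c => (∑ T' ∈ S.powerset, w T' c) * pind G S c, ?_, ?_, horth⟩
  · refine DepOn.mul (DepOn.sum fun T hT => ?_) (depOn_pind G S)
    exact (hw T (mem_powerset.1 hT)).dep.mono (mem_powerset.1 hT)
  · intro c hc
    simp [pind, hc]

theorem dens_av [NeZero k] (G : SimpleGraph V) {D : ℕ} (hD : 1 ≤ D)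
    (hk : (4 * D * 2 ^ D) ^ 2 ≤ k) {θ : Fin k → ℝ} (hθ : ∑ i, θ i = 0) {S : Finset V}
    (hS : S.card ≤ D) {v : V} (hv : v ∈ S) : av v (dens G θ S) = dens G θ (S.erase v) := by
  have hk0 : (k : ℝ) ≠ 0 := Nat.cast_ne_zero.2 (NeZero.ne k)
  have h1 := dens_spec G hD hk θ hS
  have h2 := dens_spec G hD hk θ (S := S.erase v) ((card_le_card (erase_subset v S)).trans hS)
  refine IsDens.unique (G := G) (θ := θ) (S := S.erase v) ⟨h1.dep.av v, ?_, ?_⟩ h2
  · intro c hc
    simp only [av]
    rw [sum_eq_zero fun i _ => h1.prop _ (not_proper_update hc i), zero_div]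
  · intro T hT w hw
    have hvT : v ∉ T := fun hvT => (notMem_erase v S) (hT hvT)
    have e1 := av_mul hvT hw.dep (dens G θ S)
    have e2 := h1.pair T (hT.trans (erase_subset v S)) w hw
    have e3 : ev (fun c => w c * av v (dens G θ S) c) = ev (fun c => w c * dens G θ S c) := by
      rw [← ev_av v (fun c => w c * dens G θ S c), e1]
    rw [e3, e2]
    have hdep : DepOn (S.erase v) (fun c => w c * rho θ (S.erase v) c) :=
      (hw.dep.mono hT).mul (depOn_rho θ _)
    have e4 : ∀ c : V → Fin k, w c * rho θ S c =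
        (w c * rho θ (S.erase v) c) * (1 + θ (c v)) := by
      intro c
      have : rho θ S c = (1 + θ (c v)) * rho θ (S.erase v) c := by
        unfold rho
        rw [mul_prod_erase S (fun u => 1 + θ (c u)) hv]
      rw [this]
      ring
    rw [ev_congr e4, ← ev_av v, av_mul (notMem_erase v S) hdep]
    refine ev_congr fun c => ?_
    have e5 : av v (fun c : V → Fin k => 1 + θ (c v)) c = 1 := by
      simp only [av, Function.update_self]
      rw [sum_add_distrib, hθ, add_zero]
      simp [hk0]
    rw [e5, mul_one]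

theorem dens_empty [NeZero k] (G : SimpleGraph V) (θ : Fin k → ℝ) (c : V → Fin k) :
    dens G θ ∅ c = 1 := by
  have h1 : IsDens G θ ∅ (fun _ : V → Fin k => (1 : ℝ)) := by
    refine ⟨DepOn.const _ _, ?_, ?_⟩
    · intro c hc
      exact absurd (fun u hu => absurd hu (notMem_empty u)) hc
    · intro T _ w _
      exact ev_congr fun c => by simp [rho]
  rw [IsDens.unique (isDens_dens ⟨_, h1⟩) h1]

end Pool.Agent.SOSC
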