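import Pool.Agent.SOSC.Fam

/-!
# SOSC FAM3: density of an edge, invariance under permutations of the colours

* `dens_edge`: check the four cases `T = ∅, {u}, {v}, {u,v}` for `(k/(k-1)) (1 - 1[c u = c v])`:
  `E[1[c u = c v]] = 1/k`; for `w ∈ W_{u}`: `E[w] = 0` and `E[w 1[c u = c v]] = E[w]/k = 0`
  (average over the colour of `v`); for `w ∈ W_{u,v}`: `E[w] = 0` and `w 1[c u = c v] = 0`.
* `dens_perm`: `c ↦ h (g ∘ c)` is again a density for `θ = 0` (`rho 0 S = 1`): change of variables
  `c ↦ g⁻¹ ∘ c`; `w ∘ g⁻¹ ∈ W_T`.
-/

set_option autoImplicit false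
set_option linter.unusedSectionVars false

namespace Pool.Agent.SOSC

open Finset

variable {V : Type*} [Fintype V] [DecidableEq V] {k : ℕ}

private theorem rho_zero (S : Finset V) (c : V → Fin k) : rho 0 S c = 1 := by
  simp [rho]

theorem dens_edge [NeZero k] (G : SimpleGraph V) {D : ℕ} (hD : 2 ≤ D)
    (hk : (4 * D * 2 ^ D) ^ 2 ≤ k) {u v : V} (huv : G.Adj u v) (c : V → Fin k) :
    dens G 0 {u, v} c = (k / (k - 1 : ℝ)) * (1 - if c u = c v then 1 else 0) := by
  have hk2 : 2 ≤ k := by
    refine le_trans ?_ hk
    have h1 : 1 ≤ 2 ^ D := Nat.one_le_two_pow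
    have h2 : 8 ≤ 4 * D * 2 ^ D := by nlinarith
    nlinarith
  have hkR : (2 : ℝ) ≤ k := by exact_mod_cast hk2
  have hk0 : (k : ℝ) ≠ 0 := by positivity
  have hk1 : (k : ℝ) - 1 ≠ 0 := by linarith
  have hne : u ≠ v := huv.ne
  have h1 := dens_spec G (by omega : 1 ≤ D) hk 0 (S := {u, v}) ((card_le_two).trans hD)
  have h2 : IsDens G 0 {u, v} (fun c : V → Fin k =>
      (k / (k - 1 : ℝ)) * (1 - if c u = c v then 1 else 0)) := by
    refine ⟨?_, ?_, ?_⟩
    · intro c c' hc
      simp only [hc u (by simp), hc v (by simp)]
    · intro c hc
      have : c u = c v := by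
        by_contra hcon
        apply hc
        intro x hx y hy hxy
        simp only [mem_insert, mem_singleton] at hx hy
        rcases hx with rfl | rfl <;> rcases hy with rfl | rfl
        · exact absurd hxy G.irrefl
        · exact hcon
        · exact fun h => hcon h.symm
        · exact absurd hxy G.irrefl
      simp [this]
    · intro T hT w hw
      have e1 : ev (fun c => w c * ((k / (k - 1 : ℝ)) * (1 - if c u = c v then 1 else 0))) =
          (k / (k - 1 : ℝ)) * (ev w - ev (fun c => w c * (if c u = c v then 1 else 0))) := by
        rw [← ev_sub, ← ev_smul]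
        exact ev_congr fun c => by ring
      have e2 : ev (fun c => w c * rho 0 {u, v} c) = ev w :=
        ev_congr fun c => by rw [rho_zero, mul_one]
      rw [e1, e2]
      by_cases hv : v ∈ T
      · by_cases hu : u ∈ T
        · have e3 : ev w = 0 := by
            rw [← ev_av u, hw.pure u hu]
            exact ev_zero
          have e5 : ∀ c, w c * (if c u = c v then (1 : ℝ) else 0) = 0 := by
            intro c
            split_ifs with h
            · rw [hw.eq_zero hu hv huv h, zero_mul]
            · rw [mul_zero]
          have e4 : ev (fun c => w c * (if c u = c v then (1 : ℝ) else 0)) = 0 := by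
            rw [ev_congr e5, ev_zero]
          rw [e3, e4]
          ring
        · have e3 := ev_mul_eq_ind hu hne hw.dep
          rw [e3]
          field_simp
      · have e3 := ev_mul_eq_ind hv hne.symm hw.dep
        rw [ev_congr (fun c => by simp only [eq_comm] : ∀ c, w c * (if c u = c v then (1 : ℝ) else 0) =
          w c * (if c v = c u then 1 else 0)), e3]
        field_simp
  rw [IsDens.unique h1 h2]

private theorem ev_perm (g : Equiv.Perm (Fin k)) (f : Fn V k) :
    ev (fun c => f (fun v => g (c v))) = ev f := by
  unfold ev
  congr 1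
  exact Equiv.sum_comp (Equiv.piCongrRight fun _ : V => g) f

theorem dens_perm [NeZero k] (G : SimpleGraph V) {D : ℕ} (hD : 1 ≤ D)
    (hk : (4 * D * 2 ^ D) ^ 2 ≤ k) {S : Finset V} (hS : S.card ≤ D) (g : Equiv.Perm (Fin k))
    (c : V → Fin k) : dens G 0 S (fun v => g (c v)) = dens G 0 S c := by
  have h1 := dens_spec G hD hk 0 hS
  have h2 : IsDens G 0 S (fun c : V → Fin k => dens G 0 S (fun v => g (c v))) := by
    refine ⟨?_, ?_, ?_⟩
    · intro c c' hc
      apply h1.dep
      intro v hv
      simp only [hc v hv]
    · intro c hc
      apply h1.prop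
      intro h
      apply hc
      intro x hx y hy hxy hxy'
      exact h x hx y hy hxy (by simp only [hxy'])
    · intro T hT w hw
      have hw' : IsW G T (fun c : V → Fin k => w (fun v => g.symm (c v))) := by
        refine ⟨?_, ?_, ?_⟩
        · intro c c' hc
          apply hw.dep
          intro v hv
          simp only [hc v hv]
        · intro c hc
          apply hw.prop
          intro h
          apply hc
          intro x hx y hy hxy hxy'
          exact h x hx y hy hxy (by simp only [hxy'])
        · intro v hv
          funext c
          have h3 := congrFun (hw.pure v hv) (fun x => g.symm (c x))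
          simp only [av, Pi.zero_apply] at h3 ⊢
          rw [← h3]
          congr 1
          rw [← Equiv.sum_comp g.symm
            (fun i => w (Function.update (fun x => g.symm (c x)) v i))]
          refine sum_congr rfl fun i _ => ?_
          congr 1
          funext x
          by_cases hx : x = v
          · subst hx; simp
          · simp [hx]
      have e1 := h1.pair T hT _ hw'
      have e2 : ev (fun c => w c * dens G 0 S (fun v => g (c v))) =
          ev (fun c => w (fun v => g.symm (c v)) * dens G 0 S c) := by
        rw [← ev_perm g (fun c => w (fun v => g.symm (c v)) * dens G 0 S c)]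
        refine ev_congr fun c => ?_
        simp
      have e3 : ev (fun c => w (fun v => g.symm (c v)) * rho 0 S c) =
          ev (fun c => w c * rho 0 S c) := by
        rw [← ev_perm g (fun c => w (fun v => g.symm (c v)) * rho 0 S c)]
        refine ev_congr fun c => ?_
        simp [rho_zero]
      rw [e2, e1, e3]
  have h3 := IsDens.unique h2 h1
  exact congrFun h3 c

end Pool.Agent.SOSC
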