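import Pool.Agent.SOSC.RandDefs
import Pool.Agent.SOSC.Form

/-!
# SOSC GCOL: the bad set is colourable with few colours

* `bad_colour`: for nonempty `X ⊆ T`: the pair `(X, X)` is balanced (`α ≤ Δ`), so the number of edges
  inside `X` is `eL G X X ≤ (d/n) |bx X X| + α |X| ≤ (d/n) |X|²/2 + α |X| ≤ (1 + α) |X|`
  (`|bx X X| ≤ |X|²/2`, `d |X| ≤ 2n`).  So some vertex of `X` has at most `2 + 2α < K` neighbours in
  `X`, i.e. fewer than `K`.  Greedy colouring (induction on `|X|`, remove such a vertex) gives a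
  proper colouring of `G[T]` with `K` colours (`0 < K`).
-/

set_option autoImplicit false
set_option linter.unusedSectionVars false

namespace Pool.Agent.SOSC

open Finset

open Classical in
theorem gcol_sum_deg {n : ℕ} (G : SimpleGraph (Fin n)) (X : Finset (Fin n)) :
    ∑ v ∈ X, (X.filter (fun u => G.Adj v u)).card = 2 * eL G X X := by
  have h1 : ∑ v ∈ X, (X.filter (fun u => G.Adj v u)).card =
      ((X ×ˢ X).filter (fun x => G.Adj x.1 x.2)).card := by
    rw [card_filter, sum_product]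
    exact sum_congr rfl fun v _ => by rw [card_filter]
  have h2 : (X ×ˢ X).filter (fun x => G.Adj x.1 x.2) =
      (X ×ˢ X).filter (fun x => x.1 < x.2 ∧ G.Adj x.1 x.2) ∪
      (X ×ˢ X).filter (fun x => x.2 < x.1 ∧ G.Adj x.1 x.2) := by
    ext x
    simp only [mem_filter, mem_union]
    constructor
    · rintro ⟨ha, hb⟩
      rcases lt_trichotomy x.1 x.2 with h | h | h
      · exact Or.inl ⟨ha, h, hb⟩
      · exact absurd h hb.ne
      · exact Or.inr ⟨ha, h, hb⟩
    · rintro (⟨ha, hb, hc⟩ | ⟨ha, hb, hc⟩)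
      · exact ⟨ha, hc⟩
      · exact ⟨ha, hc⟩
  have h3 : ((X ×ˢ X).filter (fun x => x.2 < x.1 ∧ G.Adj x.1 x.2)).card =
      ((X ×ˢ X).filter (fun x => x.1 < x.2 ∧ G.Adj x.1 x.2)).card := by
    refine card_bij (fun x _ => (x.2, x.1)) ?_ ?_ ?_
    · rintro ⟨a, b⟩ h
      simp only [mem_filter, mem_product] at h ⊢
      exact ⟨⟨h.1.2, h.1.1⟩, h.2.1, h.2.2.symm⟩
    · rintro ⟨a, b⟩ _ ⟨a', b'⟩ _ h
      simp only [Prod.mk.injEq] at h
      simp [h.1, h.2]
    · rintro ⟨a, b⟩ h
      simp only [mem_filter, mem_product] at h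
      exact ⟨(b, a), by simp only [mem_filter, mem_product]; exact ⟨⟨h.1.2, h.1.1⟩, h.2.1, h.2.2.symm⟩,
        rfl⟩
  have h4 : Disjoint ((X ×ˢ X).filter (fun x => x.1 < x.2 ∧ G.Adj x.1 x.2))
      ((X ×ˢ X).filter (fun x => x.2 < x.1 ∧ G.Adj x.1 x.2)) := by
    rw [disjoint_left]
    intro x h h'
    simp only [mem_filter] at h h'
    exact absurd h.2.1 (not_lt.2 h'.2.1.le)
  rw [h1, h2, card_union_of_disjoint h4, h3]
  unfold eL
  ring

theorem gcol_bx {n : ℕ} (X : Finset (Fin n)) : 2 * (bx X X).card ≤ X.card ^ 2 := by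
  have h3 : ((X ×ˢ X).filter (fun x => x.2 < x.1)).card = (bx X X).card := by
    unfold bx
    refine card_bij (fun x _ => (x.2, x.1)) ?_ ?_ ?_
    · rintro ⟨a, b⟩ h
      simp only [mem_filter, mem_product] at h ⊢
      exact ⟨⟨h.1.2, h.1.1⟩, h.2⟩
    · rintro ⟨a, b⟩ _ ⟨a', b'⟩ _ h
      simp only [Prod.mk.injEq] at h
      simp [h.1, h.2]
    · rintro ⟨a, b⟩ h
      simp only [mem_filter, mem_product] at h
      exact ⟨(b, a), by simp only [mem_filter, mem_product]; exact ⟨⟨h.1.2, h.1.1⟩, h.2⟩, rfl⟩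
  have h4 : Disjoint (bx X X) ((X ×ˢ X).filter (fun x => x.2 < x.1)) := by
    unfold bx
    rw [disjoint_left]
    intro x h h'
    simp only [mem_filter] at h h'
    exact absurd h.2 (not_lt.2 h'.2.le)
  have h5 : (bx X X ∪ (X ×ˢ X).filter (fun x => x.2 < x.1)).card ≤ (X ×ˢ X).card := by
    refine card_le_card (union_subset ?_ (filter_subset _ _))
    unfold bx
    exact filter_subset _ _
  rw [card_union_of_disjoint h4, h3, card_product] at h5
  rw [sq]
  omega

open Classical in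
theorem gcol_low {n : ℕ} {d α : ℝ} {Δ K : ℕ} {G : SimpleGraph (Fin n)} (hn : 1 ≤ n)
    (hd : 0 < d) (hα : 0 < α) (hαΔ : α ≤ Δ) (hK : 2 + 2 * α < K) (hG : Disc n d α Δ G)
    {X : Finset (Fin n)} (hX : X.Nonempty) (hT : (X.card : ℝ) * d ≤ 2 * n) :
    ∃ v ∈ X, (X.filter (fun u => G.Adj v u)).card < K := by
  have hn0 : (0 : ℝ) < n := by exact_mod_cast hn
  have hXc : (0 : ℝ) < X.card := by exact_mod_cast card_pos.2 hX
  have hbal : α ^ 2 * X.card ≤ (Δ : ℝ) ^ 2 * X.card :=
    mul_le_mul_of_nonneg_right (pow_le_pow_left₀ hα.le hαΔ 2) hXc.le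
  have h1 := hG X X hbal hbal
  have h2 : (eL G X X : ℝ) ≤ d / n * (bx X X).card + α * X.card := by
    have h3 : Real.sqrt ((X.card : ℝ) * X.card) = X.card := Real.sqrt_mul_self hXc.le
    rw [h3] at h1
    have := (abs_le.1 h1).2
    linarith
  have h4 : (2 : ℝ) * (bx X X).card ≤ (X.card : ℝ) ^ 2 := by exact_mod_cast gcol_bx X
  have h5 : d / n * (bx X X).card ≤ X.card := by
    have h6 : d / n * (bx X X).card ≤ d / n * ((X.card : ℝ) ^ 2 / 2) :=
      mul_le_mul_of_nonneg_left (by linarith) (by positivity)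
    have h7 : d / n * ((X.card : ℝ) ^ 2 / 2) = (X.card : ℝ) * (X.card * d) / (2 * n) := by
      field_simp
    have h8 : (X.card : ℝ) * (X.card * d) / (2 * n) ≤ X.card := by
      rw [div_le_iff₀ (by positivity)]
      exact mul_le_mul_of_nonneg_left hT hXc.le
    linarith
  by_contra hcon
  push Not at hcon
  have h9 : ∑ _v ∈ X, K ≤ ∑ v ∈ X, (X.filter (fun u => G.Adj v u)).card :=
    sum_le_sum hcon
  rw [gcol_sum_deg, sum_const, smul_eq_mul] at h9
  have h10 : (X.card : ℝ) * K ≤ 2 * eL G X X := by exact_mod_cast h9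
  nlinarith

theorem bad_colour {n : ℕ} {d α : ℝ} {Δ K : ℕ} {G : SimpleGraph (Fin n)} (hn : 1 ≤ n)
    (hd : 0 < d) (hα : 0 < α) (hαΔ : α ≤ Δ) (hK : 2 + 2 * α < K) (hG : Disc n d α Δ G)
    {T : Finset (Fin n)} (hT : (T.card : ℝ) * d ≤ 2 * n) :
    ∃ χ : Fin n → Fin K, ∀ u ∈ T, ∀ v ∈ T, G.Adj u v → χ u ≠ χ v := by
  classical
  have hK0 : 0 < K := by
    have : (0 : ℝ) < K := by linarith
    exact_mod_cast this
  suffices h : ∀ m : ℕ, ∀ X : Finset (Fin n), X.card = m → (X.card : ℝ) * d ≤ 2 * n →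
      ∃ χ : Fin n → Fin K, ∀ u ∈ X, ∀ v ∈ X, G.Adj u v → χ u ≠ χ v from h _ T rfl hT
  intro m
  induction m with
  | zero =>
    intro X hX _
    rw [card_eq_zero] at hX
    subst hX
    exact ⟨fun _ => ⟨0, hK0⟩, fun u hu => absurd hu (notMem_empty u)⟩
  | succ m ih =>
    intro X hX hXd
    have hne : X.Nonempty := card_pos.1 (by omega)
    obtain ⟨v, hv, hlow⟩ := gcol_low hn hd hα hαΔ hK hG hne hXd
    have hc : (X.erase v).card = m := by rw [card_erase_of_mem hv]; omega
    obtain ⟨χ, hχ⟩ := ih (X.erase v) hc (by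
      refine le_trans ?_ hXd
      refine mul_le_mul_of_nonneg_right ?_ hd.le
      exact_mod_cast card_le_card (erase_subset v X))
    have hcol : ((X.filter (fun u => G.Adj v u)).image χ).card < Fintype.card (Fin K) := by
      rw [Fintype.card_fin]
      exact lt_of_le_of_lt card_image_le hlow
    obtain ⟨i, hi⟩ : ∃ i, i ∉ (X.filter (fun u => G.Adj v u)).image χ := by
      by_contra hcon
      push Not at hcon
      have : (X.filter (fun u => G.Adj v u)).image χ = univ := eq_univ_of_forall hcon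
      rw [this, card_univ] at hcol
      exact lt_irrefl _ hcol
    have hi' : ∀ u ∈ X, G.Adj v u → χ u ≠ i := by
      intro u hu huv h
      exact hi (mem_image.2 ⟨u, mem_filter.2 ⟨hu, huv⟩, h⟩)
    refine ⟨Function.update χ v i, fun u hu w hw huw => ?_⟩
    by_cases h1 : u = v
    · subst h1
      have h2 : w ≠ u := huw.ne'
      rw [Function.update_self, Function.update_of_ne h2]
      exact (hi' w hw huw).symm
    · by_cases h2 : w = v
      · subst h2
        rw [Function.update_self, Function.update_of_ne h1]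
        exact hi' u hu huw.symm
      · rw [Function.update_of_ne h1, Function.update_of_ne h2]
        exact hχ u (mem_erase.2 ⟨h1, hu⟩) w (mem_erase.2 ⟨h2, hw⟩) huw

end Pool.Agent.SOSC
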