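import Pool.Agent.SOSC.RandDefs
import Pool.Agent.SOSC.Form

/-!
# SOSC GDET: deterministic consequences of `Good`

`T` = `badT G Δ` = vertices of degree `> Δ` (`Δ : ℕ`) together with the vertices on short cycles.

* `bad_card`: let `X` be the set of vertices of degree `> Δ`.  If `n ≤ d |X|` then by `high`
  `∑_{v ∈ X} deg v = eL G X univ + eL G univ X ≤ Δ |X|`, but `∑_{v ∈ X} deg v > Δ |X|` (`X ≠ ∅`
  since `n ≥ 1`), contradiction.  So `d |X| < n`, and `d |T| ≤ 2 n` with `short`.
* `del_maxDeg`: a vertex outside `T` has degree `≤ Δ`, a vertex in `T` has degree `0` in `del G T`.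
* `del_sparse6`: all vertices of the cycles below are not in `T` (they have edges in `del G T`), so
  they are not in `shortV G`.  `three`: triangle.  `four`: `a ≠ c`, `b ≠ b'` gives the
  4-cycle `a, b, c, b'`.  `six`: suppose `s ≠ s'`.  If `y = y'`: 4-cycle `t, s, y, s'` (`t ≠ y`).
  If `y ≠ y'`: the six vertices `t, s, y, t', y', s'` are distinct: adjacent ones are distinct,
  `t ≠ y`, `t ≠ y'`, `t ≠ t'`, `s ≠ t'`, `s' ≠ t'` are given; `s = y'` would give the triangle
  `s, y, t'` (`s = y' ~ t'`), `s' = y` would give the triangle `t, s, y` (`t ~ s' = y`).  They form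
  a 6-cycle (`f = ![t, s, y, t', y', s']`).
-/

set_option autoImplicit false
set_option linter.unusedSectionVars false

namespace Pool.Agent.SOSC

open Finset

open Classical in
/-- Vertices of degree larger than `Δ` and vertices on short cycles. -/
noncomputable def badT {n : ℕ} (G : SimpleGraph (Fin n)) (Δ : ℕ) : Finset (Fin n) :=
  (univ.filter (fun v => Δ < (nb G v).card)) ∪ shortV G

private theorem gdet_deg {n : ℕ} (G : SimpleGraph (Fin n)) (X : Finset (Fin n)) :
    ∑ v ∈ X, (nb G v).card = eL G X univ + eL G univ X := by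
  classical
  have h1 : eL G X univ = ∑ v ∈ X, ∑ u : Fin n, if v < u ∧ G.Adj v u then 1 else 0 := by
    unfold eL
    rw [card_filter, sum_product]
  have h2 : eL G univ X = ∑ v ∈ X, ∑ u : Fin n, if u < v ∧ G.Adj u v then 1 else 0 := by
    unfold eL
    rw [card_filter, sum_product_right]
  rw [h1, h2, ← sum_add_distrib]
  refine sum_congr rfl fun v _ => ?_
  rw [← sum_add_distrib]
  unfold nb
  rw [card_filter]
  refine sum_congr rfl fun u _ => ?_
  by_cases h : G.Adj v u
  · rcases lt_trichotomy v u with h3 | h3 | h3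
    · have h4 : ¬ u < v := not_lt.2 h3.le
      simp [h, h3, h4]
    · exact absurd h3 h.ne
    · have h4 : ¬ v < u := not_lt.2 h3.le
      simp [h, h.symm, h3, h4]
  · have h' : ¬ G.Adj u v := fun h2 => h h2.symm
    simp [h, h']

theorem bad_card {n : ℕ} {d α : ℝ} {Δ : ℕ} {G : SimpleGraph (Fin n)} (hn : 1 ≤ n) (hd : 0 < d)
    (hG : Good n d α Δ G) : ((badT G Δ).card : ℝ) * d ≤ 2 * n := by
  classical
  set X : Finset (Fin n) := univ.filter (fun v => Δ < (nb G v).card) with hX
  have hn0 : (0 : ℝ) < n := by exact_mod_cast hn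
  have hXd : d * X.card ≤ n := by
    by_contra hcon
    push Not at hcon
    obtain ⟨h1, h2⟩ := hG.high X hcon.le
    have h3 := gdet_deg G X
    have h4 : X.card * (Δ + 1) ≤ ∑ v ∈ X, (nb G v).card := by
      rw [← smul_eq_mul]
      apply card_nsmul_le_sum
      intro v hv
      exact (mem_filter.1 hv).2
    rw [h3] at h4
    have h5 : (X.card : ℝ) * (Δ + 1) ≤ eL G X univ + eL G univ X := by exact_mod_cast h4
    have h6 : (X.card : ℝ) ≤ 0 := by nlinarith
    have h7 : d * (X.card : ℝ) ≤ 0 := by nlinarith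
    linarith
  have hc : (badT G Δ).card ≤ X.card + (shortV G).card := by
    unfold badT
    exact card_union_le _ _
  have hc' : ((badT G Δ).card : ℝ) ≤ X.card + (shortV G).card := by exact_mod_cast hc
  have hs := hG.short
  nlinarith

theorem del_maxDeg {n : ℕ} {Δ : ℕ} (G : SimpleGraph (Fin n)) : MaxDeg (del G (badT G Δ)) Δ := by
  classical
  intro v
  by_cases hv : v ∈ badT G Δ
  · have h1 : nb (del G (badT G Δ)) v = ∅ := by
      unfold nb
      rw [filter_eq_empty_iff]
      intro u _ h
      exact h.1 hv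
    rw [h1, card_empty]
    exact Nat.zero_le _
  · have h1 : (nb (del G (badT G Δ)) v).card ≤ (nb G v).card := by
      apply card_le_card
      intro u hu
      unfold nb at hu ⊢
      rw [mem_filter] at hu ⊢
      exact ⟨mem_univ u, hu.2.2.2⟩
    have h2 : (nb G v).card ≤ Δ := by
      by_contra hcon
      push Not at hcon
      apply hv
      unfold badT
      exact mem_union_left _ (mem_filter.2 ⟨mem_univ v, hcon⟩)
    exact h1.trans h2

private theorem gdet_short {n : ℕ} {Δ : ℕ} {G : SimpleGraph (Fin n)} {v : Fin n}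
    (h : v ∈ shortV G) : v ∈ badT G Δ := by
  unfold badT
  exact mem_union_right _ h

private theorem gdet_three {n : ℕ} {G : SimpleGraph (Fin n)} {v a b : Fin n}
    (h1 : G.Adj v a) (h2 : G.Adj a b) (h3 : G.Adj b v) : v ∈ shortV G := by
  classical
  unfold shortV
  exact mem_filter.2 ⟨mem_univ v, Or.inl ⟨a, b, h1, h2, h3⟩⟩

private theorem gdet_four {n : ℕ} {G : SimpleGraph (Fin n)} {v a b c : Fin n}
    (h1 : v ≠ b) (h2 : a ≠ c) (h3 : G.Adj v a) (h4 : G.Adj a b) (h5 : G.Adj b c)
    (h6 : G.Adj c v) : v ∈ shortV G := by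
  classical
  unfold shortV
  exact mem_filter.2 ⟨mem_univ v, Or.inr (Or.inl ⟨a, b, c, h1, h2, h3, h4, h5, h6⟩)⟩

private theorem gdet_six {n : ℕ} {G : SimpleGraph (Fin n)} {x0 x1 x2 x3 x4 x5 : Fin n}
    (h01 : x0 ≠ x1) (h02 : x0 ≠ x2) (h03 : x0 ≠ x3) (h04 : x0 ≠ x4) (h05 : x0 ≠ x5)
    (h12 : x1 ≠ x2) (h13 : x1 ≠ x3) (h14 : x1 ≠ x4) (h15 : x1 ≠ x5)
    (h23 : x2 ≠ x3) (h24 : x2 ≠ x4) (h25 : x2 ≠ x5)
    (h34 : x3 ≠ x4) (h35 : x3 ≠ x5) (h45 : x4 ≠ x5)
    (a0 : G.Adj x0 x1) (a1 : G.Adj x1 x2) (a2 : G.Adj x2 x3) (a3 : G.Adj x3 x4)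
    (a4 : G.Adj x4 x5) (a5 : G.Adj x5 x0) : x0 ∈ shortV G := by
  classical
  unfold shortV
  refine mem_filter.2 ⟨mem_univ x0, Or.inr (Or.inr ⟨![x0, x1, x2, x3, x4, x5], ?_, rfl, ?_⟩)⟩
  · intro i j h
    fin_cases i <;> fin_cases j <;> first
      | rfl
      | exact absurd h h01
      | exact absurd h h02
      | exact absurd h h03
      | exact absurd h h04
      | exact absurd h h05
      | exact absurd h h12
      | exact absurd h h13
      | exact absurd h h14
      | exact absurd h h15
      | exact absurd h h23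
      | exact absurd h h24
      | exact absurd h h25
      | exact absurd h h34
      | exact absurd h h35
      | exact absurd h h45
      | exact absurd h.symm h01
      | exact absurd h.symm h02
      | exact absurd h.symm h03
      | exact absurd h.symm h04
      | exact absurd h.symm h05
      | exact absurd h.symm h12
      | exact absurd h.symm h13
      | exact absurd h.symm h14
      | exact absurd h.symm h15
      | exact absurd h.symm h23
      | exact absurd h.symm h24
      | exact absurd h.symm h25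
      | exact absurd h.symm h34
      | exact absurd h.symm h35
      | exact absurd h.symm h45
  · intro i
    fin_cases i
    · exact a0
    · exact a1
    · exact a2
    · exact a3
    · exact a4
    · exact a5

theorem del_sparse6 {n : ℕ} {Δ : ℕ} (G : SimpleGraph (Fin n)) :
    Sparse6 (del G (badT G Δ)) := by
  constructor
  · intro a b c hab hbc hca
    exact hab.1 (gdet_short (gdet_three hab.2.2 hbc.2.2 hca.2.2))
  · intro a c b b' hac hab hbc hab' hbc'
    by_contra hne
    exact hab.1 (gdet_short (gdet_four hac hne hab.2.2 hbc.2.2 hbc'.2.2.symm hab'.2.2.symm))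
  · intro t t' s y s' y' htt hts hsy hyt hyt0 hst hts' hsy' hyt' hyt0' hst'
    by_contra hne
    by_cases hyy : y = y'
    · subst hyy
      exact hts.1 (gdet_short (gdet_four hyt0.symm hne hts.2.2 hsy.2.2 hsy'.2.2.symm
        hts'.2.2.symm))
    by_cases hsy1 : s = y'
    · subst hsy1
      exact hsy.1 (gdet_short (gdet_three hsy.2.2 hyt.2.2 hyt'.2.2.symm))
    by_cases hsy2 : s' = y
    · subst hsy2
      exact hts.1 (gdet_short (gdet_three hts.2.2 hsy.2.2 hts'.2.2.symm))
    exact hts.1 (gdet_short (gdet_six (x0 := t) (x1 := s) (x2 := y) (x3 := t') (x4 := y')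
      (x5 := s') hts.2.2.ne hyt0.symm htt hyt0'.symm hts'.2.2.ne hsy.2.2.ne hst hsy1 hne
      hyt.2.2.ne hyy (Ne.symm hsy2) hyt'.2.2.ne.symm hst'.symm hsy'.2.2.ne.symm
      hts.2.2 hsy.2.2 hyt.2.2 hyt'.2.2.symm hsy'.2.2.symm hts'.2.2.symm))

end Pool.Agent.SOSC
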