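import Pool.Agent.SOSC.RandDefs
import Pool.Agent.SOSC.Form
import Pool.Agent.SOSC.Bilin

/-!
# SOSC GSPEC: the spectral condition from the discrepancy condition

`p = d/n`.
* `spec_del`: Let `V' = univ \ T` and `a u v = 1[u < v] (1[u ~ v] - p)` for `u, v ∈ V'`, `0`
  otherwise.  (i) For `X, Y ⊆ V'`: `|∑_{X × Y} a| = |eL G X Y - p |bx X Y|| ≤ α √(|X||Y|)`: if the
  pair is balanced, by `disc`; if `α² |Y| > Δ² |X|` then `eL G X Y ≤ Δ |X|`, `p |bx X Y| ≤ d |X| ≤
  Δ |X|`, so `|..| ≤ Δ |X| ≤ α √(|X||Y|)`; same if `α² |X| > Δ² |Y|`.  For general `X, Y` intersect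
  with `V'`.  (ii) Row and column sums at most `Δ + d ≤ 2Δ`.  `bilin_bound` with `R = 2Δ`:
  `|∑∑ a F H| ≤ (8α(2γ+1) + 8Δ/2^γ) ‖F‖ ‖H‖`.
  For `F, H` put `F' = F 1_{V'}`, `H' = H 1_{V'}`:
  `∑_{u ~ v in del G T} F u H v = ∑∑ a F' H' + ∑∑ a H' F' + p ∑_{u ≠ v} F' u H' v`.
  The last term is at most `p |∑ F'| |∑ H'| + p ‖F‖ ‖H‖`; `|∑ F'| ≤ |∑ F| + √|T| ‖F‖`,
  `|∑ F| ≤ √n ‖F‖`, `p √(n |T|) = (d/√n) √|T| ≤ √(2d)`, `p |T| ≤ 2`, so
  `p |∑F'| |∑H'| ≤ p |∑F| |∑H| + (2 √(2d) + 2) ‖F‖ ‖H‖`.  Total: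
  `(16 α (2γ+1) + 16 Δ/2^γ + 2√(2d) + 3) ‖F‖‖H‖ + (d/n) |∑F| |∑H|`.
-/

set_option autoImplicit false
set_option linter.unusedSectionVars false

namespace Pool.Agent.SOSC

open Finset

private lemma gspec_row {n : ℕ} {Δ : ℕ} {G : SimpleGraph (Fin n)} {X Y : Finset (Fin n)}
    (hdeg : ∀ v ∈ X, (nb G v).card ≤ Δ) : eL G X Y ≤ Δ * X.card := by
  classical
  unfold eL
  have h1 : ((X ×ˢ Y).filter (fun x => x.1 < x.2 ∧ G.Adj x.1 x.2)).card ≤
      (X.sigma fun u => nb G u).card := by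
    refine card_le_card_of_injOn (fun x => (⟨x.1, x.2⟩ : Σ _ : Fin n, Fin n)) ?_ ?_
    · rintro ⟨u, v⟩ hx
      rw [mem_coe, mem_filter, mem_product] at hx
      rw [mem_coe, mem_sigma]
      refine ⟨hx.1.1, ?_⟩
      unfold nb
      rw [mem_filter]
      exact ⟨mem_univ _, hx.2.2⟩
    · rintro ⟨u, v⟩ _ ⟨u', v'⟩ _ h
      have h1 := Sigma.mk.inj_iff.1 h
      exact Prod.ext h1.1 (eq_of_heq h1.2)
  refine h1.trans ?_
  rw [card_sigma]
  refine (sum_le_sum fun u hu => hdeg u hu).trans ?_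
  rw [sum_const, smul_eq_mul, mul_comm]

private lemma gspec_col {n : ℕ} {Δ : ℕ} {G : SimpleGraph (Fin n)} {X Y : Finset (Fin n)}
    (hdeg : ∀ v ∈ Y, (nb G v).card ≤ Δ) : eL G X Y ≤ Δ * Y.card := by
  classical
  unfold eL
  have h1 : ((X ×ˢ Y).filter (fun x => x.1 < x.2 ∧ G.Adj x.1 x.2)).card ≤
      (Y.sigma fun u => nb G u).card := by
    refine card_le_card_of_injOn (fun x => (⟨x.2, x.1⟩ : Σ _ : Fin n, Fin n)) ?_ ?_
    · rintro ⟨u, v⟩ hx
      rw [mem_coe, mem_filter, mem_product] at hx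
      rw [mem_coe, mem_sigma]
      refine ⟨hx.1.2, ?_⟩
      unfold nb
      rw [mem_filter]
      exact ⟨mem_univ _, hx.2.2.symm⟩
    · rintro ⟨u, v⟩ _ ⟨u', v'⟩ _ h
      have h1 := Sigma.mk.inj_iff.1 h
      exact Prod.ext (eq_of_heq h1.2) h1.1
  refine h1.trans ?_
  rw [card_sigma]
  refine (sum_le_sum fun u hu => hdeg u hu).trans ?_
  rw [sum_const, smul_eq_mul, mul_comm]

private lemma gspec_bx {n : ℕ} (X Y : Finset (Fin n)) :
    ((bx X Y).card : ℝ) ≤ X.card * Y.card := by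
  unfold bx
  have h := card_filter_le (X ×ˢ Y) (fun x => x.1 < x.2)
  rw [card_product] at h
  exact_mod_cast h

private lemma gspec_cardle {n : ℕ} (X : Finset (Fin n)) : (X.card : ℝ) ≤ n := by
  have h := card_le_univ X
  rw [Fintype.card_fin] at h
  exact_mod_cast h

/-- the cut norm -/
private lemma gspec_cut {n : ℕ} {d α : ℝ} {Δ : ℕ} {G : SimpleGraph (Fin n)} (hn : 1 ≤ n)
    (hd : 0 < d) (hdΔ : d ≤ Δ) (hα : 0 < α) (hG : Disc n d α Δ G) {X Y : Finset (Fin n)}
    (hX : ∀ v ∈ X, (nb G v).card ≤ Δ) (hY : ∀ v ∈ Y, (nb G v).card ≤ Δ) :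
    |(eL G X Y : ℝ) - d / n * (bx X Y).card| ≤ α * Real.sqrt (X.card * Y.card) := by
  have hnR : (0 : ℝ) < n := by exact_mod_cast (by omega : 0 < n)
  have hx0 : (0 : ℝ) ≤ X.card := by positivity
  have hy0 : (0 : ℝ) ≤ Y.card := by positivity
  have hΔ0 : (0 : ℝ) ≤ Δ := by positivity
  have hbx := gspec_bx X Y
  have hxn := gspec_cardle X
  have hyn := gspec_cardle Y
  have hb0 : (0 : ℝ) ≤ (bx X Y).card := by positivity
  have he0 : (0 : ℝ) ≤ eL G X Y := by positivity
  have key : ∀ x y : ℝ, 0 ≤ x → 0 ≤ y → Δ ^ 2 * x < α ^ 2 * y →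
      Δ * x ≤ α * Real.sqrt (x * y) := by
    intro x y hx hy h
    have h1 : α * Real.sqrt (x * y) = Real.sqrt (α ^ 2 * (x * y)) := by
      rw [Real.sqrt_mul (sq_nonneg α), Real.sqrt_sq hα.le]
    rw [h1]
    apply Real.le_sqrt_of_sq_le
    calc ((Δ : ℝ) * x) ^ 2 = (Δ ^ 2 * x) * x := by ring
      _ ≤ (α ^ 2 * y) * x := mul_le_mul_of_nonneg_right h.le hx
      _ = α ^ 2 * (x * y) := by ring
  by_cases h1 : α ^ 2 * (Y.card : ℝ) ≤ Δ ^ 2 * X.card
  · by_cases h2 : α ^ 2 * (X.card : ℝ) ≤ Δ ^ 2 * Y.card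
    · exact hG X Y h1 h2
    · push Not at h2
      have h3 := key Y.card X.card hy0 hx0 h2
      rw [mul_comm (Y.card : ℝ)] at h3
      refine le_trans ?_ h3
      have h4 : (eL G X Y : ℝ) ≤ Δ * Y.card := by exact_mod_cast gspec_col hY
      have h5 : d / n * (bx X Y).card ≤ Δ * Y.card := by
        calc d / n * ((bx X Y).card : ℝ) ≤ d / n * (n * Y.card) := by
              apply mul_le_mul_of_nonneg_left _ (by positivity)
              exact hbx.trans (mul_le_mul_of_nonneg_right hxn hy0)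
          _ = d * Y.card := by field_simp
          _ ≤ Δ * Y.card := mul_le_mul_of_nonneg_right hdΔ hy0
      have h6 : 0 ≤ d / n * ((bx X Y).card : ℝ) := by positivity
      rw [abs_le]
      constructor <;> linarith
  · push Not at h1
    have h3 := key X.card Y.card hx0 hy0 h1
    refine le_trans ?_ h3
    have h4 : (eL G X Y : ℝ) ≤ Δ * X.card := by exact_mod_cast gspec_row hX
    have h5 : d / n * (bx X Y).card ≤ Δ * X.card := by
      calc d / n * ((bx X Y).card : ℝ) ≤ d / n * (X.card * n) := by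
            apply mul_le_mul_of_nonneg_left _ (by positivity)
            exact hbx.trans (mul_le_mul_of_nonneg_left hyn hx0)
        _ = d * X.card := by field_simp
        _ ≤ Δ * X.card := mul_le_mul_of_nonneg_right hdΔ hx0
    have h6 : 0 ≤ d / n * ((bx X Y).card : ℝ) := by positivity
    rw [abs_le]
    constructor <;> linarith

open Classical in
/-- the centred matrix -/
private noncomputable def gspecA {n : ℕ} (G : SimpleGraph (Fin n)) (T : Finset (Fin n)) (p : ℝ)
    (u v : Fin n) : ℝ :=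
  if u ∉ T ∧ v ∉ T ∧ u < v then (if G.Adj u v then 1 else 0) - p else 0

private lemma gspec_sum {n : ℕ} (G : SimpleGraph (Fin n)) (T X Y : Finset (Fin n)) (p : ℝ) :
    ∑ u ∈ X, ∑ v ∈ Y, gspecA G T p u v =
      (eL G (X \ T) (Y \ T) : ℝ) - p * (bx (X \ T) (Y \ T)).card := by
  classical
  rw [← sum_product']
  have h1 : ∑ x ∈ X ×ˢ Y, gspecA G T p x.1 x.2 =
      ∑ x ∈ bx (X \ T) (Y \ T), ((if G.Adj x.1 x.2 then (1 : ℝ) else 0) - p) := by
    symm
    refine sum_subset_zero_on_sdiff ?_ ?_ ?_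
    · rintro ⟨u, v⟩ hx
      simp only [bx, mem_filter, mem_product, mem_sdiff] at hx
      exact mem_product.2 ⟨hx.1.1.1, hx.1.2.1⟩
    · rintro ⟨u, v⟩ hx
      simp only [bx, mem_filter, mem_product, mem_sdiff] at hx
      unfold gspecA
      rw [if_neg]
      rintro ⟨h2, h3, h4⟩
      exact hx.2 ⟨⟨⟨hx.1.1, h2⟩, hx.1.2, h3⟩, h4⟩
    · rintro ⟨u, v⟩ hx
      simp only [bx, mem_filter, mem_product, mem_sdiff] at hx
      have h5 : u ∉ T ∧ v ∉ T ∧ u < v := ⟨hx.1.1.2, hx.1.2.2, hx.2⟩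
      unfold gspecA
      exact (if_pos h5).symm
  rw [h1, sum_sub_distrib, sum_const, nsmul_eq_mul, mul_comm p, sum_boole]
  congr 2
  unfold eL bx
  rw [filter_filter]

private lemma gspec_rowsum {n : ℕ} {d : ℝ} {Δ : ℕ} {G : SimpleGraph (Fin n)} (hn : 1 ≤ n)
    (hd : 0 < d) (hdΔ : d ≤ Δ) {T : Finset (Fin n)} (hdeg : ∀ v, v ∉ T → (nb G v).card ≤ Δ)
    (u : Fin n) (b : Fin n → ℝ)
    (hb : ∀ v, u ∉ T → |b v| ≤ (if v ∈ nb G u then (1 : ℝ) else 0) + d / n)
    (hb0 : u ∈ T → ∀ v, b v = 0) : ∑ v, |b v| ≤ 2 * Δ := by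
  classical
  have hnR : (0 : ℝ) < n := by exact_mod_cast (by omega : 0 < n)
  by_cases hu : u ∈ T
  · rw [sum_eq_zero fun v _ => by rw [hb0 hu v, abs_zero]]
    positivity
  · calc ∑ v, |b v| ≤ ∑ v, ((if v ∈ nb G u then (1 : ℝ) else 0) + d / n) :=
          sum_le_sum fun v _ => hb v hu
      _ = (nb G u).card + d := by
          rw [sum_add_distrib, sum_const, card_univ, Fintype.card_fin, nsmul_eq_mul, sum_boole]
          congr 1
          · simp
          · field_simp
      _ ≤ Δ + Δ := by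
          have : ((nb G u).card : ℝ) ≤ Δ := by exact_mod_cast hdeg u hu
          linarith
      _ = 2 * Δ := by ring

private lemma gspec_abs {n : ℕ} {p : ℝ} {G : SimpleGraph (Fin n)} (T : Finset (Fin n))
    (hp : 0 ≤ p) (u v : Fin n) [Decidable (G.Adj u v)] :
    |gspecA G T p u v| ≤ (if G.Adj u v then (1 : ℝ) else 0) + p := by
  unfold gspecA
  split_ifs with h1 h2
  · rw [abs_le]
    constructor <;> linarith
  · rw [abs_le]
    constructor <;> linarith
  · rw [abs_zero]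
    linarith
  · rw [abs_zero]
    linarith

private lemma gspec_T {n : ℕ} (F : Fin n → ℝ) (S : Finset (Fin n)) :
    |∑ u ∈ S, F u| ≤ Real.sqrt S.card * Real.sqrt (∑ u, F u ^ 2) := by
  rw [← Real.sqrt_mul (by positivity)]
  apply Real.abs_le_sqrt
  have h1 := sum_mul_sq_le_sq_mul_sq S (fun _ => (1 : ℝ)) F
  simp only [one_mul, one_pow, sum_const, nsmul_eq_mul, mul_one] at h1
  refine h1.trans ?_
  apply mul_le_mul_of_nonneg_left _ (by positivity)
  exact sum_le_sum_of_subset_of_nonneg (subset_univ _) fun _ _ _ => sq_nonneg _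

theorem spec_del {n : ℕ} {d α : ℝ} {Δ : ℕ} (γ : ℕ) {G : SimpleGraph (Fin n)} (hn : 1 ≤ n)
    (hd : 0 < d) (hdn : d ≤ n) (hdΔ : d ≤ Δ) (hα : 0 < α) (hG : Disc n d α Δ G)
    {T : Finset (Fin n)} (hT : (T.card : ℝ) * d ≤ 2 * n) (hdeg : ∀ v, v ∉ T → (nb G v).card ≤ Δ) :
    Spec (del G T) (16 * α * (2 * γ + 1) + 16 * Δ / 2 ^ γ + 3 * Real.sqrt d + 3) d := by
  classical
  intro F H
  have hnR : (0 : ℝ) < n := by exact_mod_cast (by omega : 0 < n)
  rw [Fintype.card_fin]
  set p : ℝ := d / n with hp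
  have hp0 : 0 < p := by positivity
  have hp1 : p ≤ 1 := by
    rw [hp, div_le_one hnR]
    exact hdn
  set F' : Fin n → ℝ := fun u => if u ∈ T then 0 else F u with hF'
  set H' : Fin n → ℝ := fun u => if u ∈ T then 0 else H u with hH'
  set A : ℝ := Real.sqrt (∑ u, F u ^ 2) with hA
  set B : ℝ := Real.sqrt (∑ v, H v ^ 2) with hB
  have hA0 : 0 ≤ A := Real.sqrt_nonneg _
  have hB0 : 0 ≤ B := Real.sqrt_nonneg _
  have hsq : ∀ E : Fin n → ℝ, Real.sqrt (∑ u, (if u ∈ T then 0 else E u) ^ 2) ≤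
      Real.sqrt (∑ u, E u ^ 2) := by
    intro E
    apply Real.sqrt_le_sqrt
    refine sum_le_sum fun u _ => ?_
    split_ifs
    · rw [zero_pow two_ne_zero]
      exact sq_nonneg _
    · exact le_rfl
  have hA' : Real.sqrt (∑ u, F' u ^ 2) ≤ A := hsq F
  have hB' : Real.sqrt (∑ u, H' u ^ 2) ≤ B := hsq H
  -- the bilinear form of the centred matrix
  have hcut : ∀ X Y : Finset (Fin n), |∑ u ∈ X, ∑ v ∈ Y, gspecA G T p u v| ≤
      α * Real.sqrt (X.card * Y.card) := by
    intro X Y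
    rw [gspec_sum]
    refine (gspec_cut hn hd hdΔ hα hG (X := X \ T) (Y := Y \ T)
      (fun v hv => hdeg v (mem_sdiff.1 hv).2) (fun v hv => hdeg v (mem_sdiff.1 hv).2)).trans ?_
    apply mul_le_mul_of_nonneg_left _ hα.le
    apply Real.sqrt_le_sqrt
    have h1 : ((X \ T).card : ℝ) ≤ X.card := by exact_mod_cast card_le_card sdiff_subset
    have h2 : ((Y \ T).card : ℝ) ≤ Y.card := by exact_mod_cast card_le_card sdiff_subset
    exact mul_le_mul h1 h2 (by positivity) (by positivity)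
  have hrow : ∀ u, ∑ v, |gspecA G T p u v| ≤ 2 * Δ := by
    intro u
    refine gspec_rowsum hn hd hdΔ hdeg u (fun v => gspecA G T p u v) ?_ ?_
    · intro v _
      refine (gspec_abs T hp0.le u v).trans (le_of_eq ?_)
      congr 1
      unfold nb
      simp
    · intro hu v
      unfold gspecA
      rw [if_neg]
      exact fun h => h.1 hu
  have hcol : ∀ v, ∑ u, |gspecA G T p u v| ≤ 2 * Δ := by
    intro v
    refine gspec_rowsum hn hd hdΔ hdeg v (fun u => gspecA G T p u v) ?_ ?_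
    · intro u _
      refine (gspec_abs T hp0.le u v).trans (le_of_eq ?_)
      congr 1
      unfold nb
      simp [SimpleGraph.adj_comm]
    · intro hv u
      unfold gspecA
      rw [if_neg]
      exact fun h => h.2.1 hv
  have hC0 : 0 ≤ 8 * α * (2 * γ + 1) + 4 * (2 * (Δ : ℝ)) / 2 ^ γ := by positivity
  have b1 := bilin_bound (gspecA G T p) α (2 * Δ) γ hα.le (by positivity) hcut hrow hcol F' H'
  have b2 := bilin_bound (gspecA G T p) α (2 * Δ) γ hα.le (by positivity) hcut hrow hcol H' F'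
  have b1' : |∑ u, ∑ v, gspecA G T p u v * F' u * H' v| ≤
      (8 * α * (2 * γ + 1) + 4 * (2 * (Δ : ℝ)) / 2 ^ γ) * (A * B) := by
    refine b1.trans (mul_le_mul_of_nonneg_left ?_ hC0)
    exact mul_le_mul hA' hB' (Real.sqrt_nonneg _) hA0
  have b2' : |∑ u, ∑ v, gspecA G T p u v * H' u * F' v| ≤
      (8 * α * (2 * γ + 1) + 4 * (2 * (Δ : ℝ)) / 2 ^ γ) * (A * B) := by
    refine b2.trans (mul_le_mul_of_nonneg_left ?_ hC0)
    rw [mul_comm A B]
    exact mul_le_mul hB' hA' (Real.sqrt_nonneg _) hB0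
  -- the decomposition
  have hdec : ∑ u, ∑ v, (if (del G T).Adj u v then F u * H v else 0) =
      ∑ u, ∑ v, gspecA G T p u v * F' u * H' v + ∑ u, ∑ v, gspecA G T p u v * H' u * F' v +
        p * ((∑ u, F' u) * (∑ v, H' v) - ∑ u, F' u * H' u) := by
    have e1 : ∑ u, ∑ v, gspecA G T p u v * H' u * F' v =
        ∑ u, ∑ v, gspecA G T p v u * F' u * H' v := by
      rw [sum_comm]
      refine sum_congr rfl fun u _ => sum_congr rfl fun v _ => by ring
    have e2 : (∑ u, F' u) * (∑ v, H' v) - ∑ u, F' u * H' u =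
        ∑ u, ∑ v, (if u = v then 0 else F' u * H' v) := by
      rw [sum_mul_sum, ← sum_sub_distrib]
      refine sum_congr rfl fun u _ => ?_
      have e3 : F' u * H' u = ∑ v, if u = v then F' u * H' v else 0 := by
        rw [sum_ite_eq]
        simp
      rw [e3, ← sum_sub_distrib]
      refine sum_congr rfl fun v _ => ?_
      split_ifs <;> ring
    rw [e1, e2, mul_sum, ← sum_add_distrib, ← sum_add_distrib]
    refine sum_congr rfl fun u _ => ?_
    rw [mul_sum, ← sum_add_distrib, ← sum_add_distrib]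
    refine sum_congr rfl fun v _ => ?_
    by_cases hu : u ∈ T
    · have h1 : ¬ (del G T).Adj u v := fun h => h.1 hu
      rw [if_neg h1, hF']
      simp [hu]
    · by_cases hv : v ∈ T
      · have h1 : ¬ (del G T).Adj u v := fun h => h.2.1 hv
        rw [if_neg h1, hH']
        simp [hv]
      · have h2 : F' u = F u := if_neg hu
        have h3 : H' v = H v := if_neg hv
        rw [h2, h3]
        have h4 : (del G T).Adj u v ↔ G.Adj u v := ⟨fun h => h.2.2, fun h => ⟨hu, hv, h⟩⟩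
        rcases lt_trichotomy u v with h | h | h
        · have a1 : gspecA G T p u v = (if G.Adj u v then 1 else 0) - p := by
            unfold gspecA
            rw [if_pos ⟨hu, hv, h⟩]
          have a2 : gspecA G T p v u = 0 := by
            unfold gspecA
            rw [if_neg]
            exact fun h5 => absurd h5.2.2 (not_lt.2 h.le)
          rw [a1, a2, if_neg h.ne]
          by_cases h6 : G.Adj u v
          · rw [if_pos (h4.2 h6), if_pos h6]
            ring
          · rw [if_neg (fun h7 => h6 (h4.1 h7)), if_neg h6]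
            ring
        · subst h
          have h1 : ¬ (del G T).Adj u u := (del G T).loopless.irrefl u
          have a2 : gspecA G T p u u = 0 := by
            unfold gspecA
            rw [if_neg]
            exact fun h5 => absurd h5.2.2 (lt_irrefl _)
          rw [if_neg h1, a2, if_pos rfl]
          ring
        · have a1 : gspecA G T p v u = (if G.Adj u v then 1 else 0) - p := by
            unfold gspecA
            rw [if_pos ⟨hv, hu, h⟩]
            simp only [SimpleGraph.adj_comm]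
          have a2 : gspecA G T p u v = 0 := by
            unfold gspecA
            rw [if_neg]
            exact fun h5 => absurd h5.2.2 (not_lt.2 h.le)
          rw [a1, a2, if_neg h.ne']
          by_cases h6 : G.Adj u v
          · rw [if_pos (h4.2 h6), if_pos h6]
            ring
          · rw [if_neg (fun h7 => h6 (h4.1 h7)), if_neg h6]
            ring
  -- the sums over the complement of `T`
  set t : ℝ := Real.sqrt T.card with ht
  have ht0 : 0 ≤ t := Real.sqrt_nonneg _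
  set m : ℝ := Real.sqrt n with hm
  have hm0 : 0 ≤ m := Real.sqrt_nonneg _
  have hs : ∀ E : Fin n → ℝ, |∑ u, (if u ∈ T then 0 else E u)| ≤
      |∑ u, E u| + t * Real.sqrt (∑ u, E u ^ 2) := by
    intro E
    have h1 : ∑ u, (if u ∈ T then 0 else E u) = ∑ u, E u - ∑ u ∈ T, E u := by
      have h2 : ∑ u ∈ T, E u = ∑ u, if u ∈ T then E u else 0 := by
        rw [sum_ite_mem, univ_inter]
      rw [h2, ← sum_sub_distrib]
      refine sum_congr rfl fun u _ => ?_
      split_ifs <;> ring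
    rw [h1]
    exact (abs_sub _ _).trans (add_le_add le_rfl (gspec_T E T))
  have hn2 : ∀ E : Fin n → ℝ, |∑ u, E u| ≤ m * Real.sqrt (∑ u, E u ^ 2) := by
    intro E
    have := gspec_T E univ
    rwa [card_univ, Fintype.card_fin] at this
  have s1 : |∑ u, F' u| ≤ |∑ u, F u| + t * A := hs F
  have s2 : |∑ u, H' u| ≤ |∑ u, H u| + t * B := hs H
  have n1 := hn2 F
  have n2 := hn2 H
  rw [← hA] at n1
  rw [← hB] at n2
  have hfh : |∑ u, F' u * H' u| ≤ A * B := by
    have h1 : |∑ u, F' u * H' u| ≤ Real.sqrt (∑ u, F' u ^ 2) * Real.sqrt (∑ u, H' u ^ 2) := by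
      rw [← Real.sqrt_mul (sum_nonneg fun _ _ => sq_nonneg _)]
      exact Real.abs_le_sqrt (sum_mul_sq_le_sq_mul_sq _ _ _)
    exact h1.trans (mul_le_mul hA' hB' (Real.sqrt_nonneg _) hA0)
  have hptm : p * (t * m) ≤ 3 / 2 * Real.sqrt d := by
    have h1 : p * (t * m) = Real.sqrt (p ^ 2 * (T.card * n)) := by
      rw [Real.sqrt_mul (sq_nonneg p), Real.sqrt_sq hp0.le, Real.sqrt_mul (by positivity)]
    have h2 : 3 / 2 * Real.sqrt d = Real.sqrt ((3 / 2) ^ 2 * d) := by
      rw [Real.sqrt_mul (by norm_num), Real.sqrt_sq (by norm_num)]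
    rw [h1, h2]
    apply Real.sqrt_le_sqrt
    have h3 : p ^ 2 * (T.card * n) = d * (T.card * d) / n := by
      rw [hp]
      field_simp
    rw [h3, div_le_iff₀ hnR]
    have h4 : d * (T.card * d) ≤ d * (2 * n) := mul_le_mul_of_nonneg_left hT hd.le
    have h5 : 0 ≤ d * n := by positivity
    linarith
  have hptt : p * (t * t) ≤ 2 := by
    rw [ht, Real.mul_self_sqrt (by positivity), hp, div_mul_eq_mul_div, div_le_iff₀ hnR]
    linarith
  have hprod : p * (|∑ u, F' u| * |∑ v, H' v|) ≤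
      p * (|∑ u, F u| * |∑ v, H v|) + (3 * Real.sqrt d + 2) * (A * B) := by
    have h1 : |∑ u, F' u| * |∑ v, H' v| ≤
        (|∑ u, F u| + t * A) * (|∑ u, H u| + t * B) :=
      mul_le_mul s1 s2 (abs_nonneg _) (by positivity)
    have h2 : |∑ u, F u| * (t * B) ≤ (m * A) * (t * B) :=
      mul_le_mul_of_nonneg_right n1 (by positivity)
    have h3 : (t * A) * |∑ u, H u| ≤ (t * A) * (m * B) :=
      mul_le_mul_of_nonneg_left n2 (by positivity)
    have hAB : 0 ≤ A * B := mul_nonneg hA0 hB0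
    calc p * (|∑ u, F' u| * |∑ v, H' v|)
        ≤ p * ((|∑ u, F u| + t * A) * (|∑ u, H u| + t * B)) :=
          mul_le_mul_of_nonneg_left h1 hp0.le
      _ ≤ p * (|∑ u, F u| * |∑ v, H v| + (m * A) * (t * B) + (t * A) * (m * B) +
            (t * A) * (t * B)) := by
          apply mul_le_mul_of_nonneg_left _ hp0.le
          linarith
      _ = p * (|∑ u, F u| * |∑ v, H v|) + 2 * ((p * (t * m)) * (A * B)) +
            (p * (t * t)) * (A * B) := by ring
      _ ≤ p * (|∑ u, F u| * |∑ v, H v|) + 2 * ((3 / 2 * Real.sqrt d) * (A * B)) +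
            2 * (A * B) := by
          have h4 := mul_le_mul_of_nonneg_right hptm hAB
          have h5 := mul_le_mul_of_nonneg_right hptt hAB
          linarith
      _ = _ := by ring
  rw [hdec]
  have hthird : |p * ((∑ u, F' u) * (∑ v, H' v) - ∑ u, F' u * H' u)| ≤
      p * (|∑ u, F u| * |∑ v, H v|) + (3 * Real.sqrt d + 3) * (A * B) := by
    rw [abs_mul, abs_of_pos hp0]
    have h1 : |(∑ u, F' u) * (∑ v, H' v) - ∑ u, F' u * H' u| ≤
        |∑ u, F' u| * |∑ v, H' v| + A * B := by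
      refine (abs_sub _ _).trans ?_
      rw [abs_mul]
      exact add_le_add le_rfl hfh
    have hAB : 0 ≤ A * B := mul_nonneg hA0 hB0
    calc p * |(∑ u, F' u) * (∑ v, H' v) - ∑ u, F' u * H' u|
        ≤ p * (|∑ u, F' u| * |∑ v, H' v| + A * B) := mul_le_mul_of_nonneg_left h1 hp0.le
      _ = p * (|∑ u, F' u| * |∑ v, H' v|) + p * (A * B) := by ring
      _ ≤ (p * (|∑ u, F u| * |∑ v, H v|) + (3 * Real.sqrt d + 2) * (A * B)) + 1 * (A * B) :=
          add_le_add hprod (mul_le_mul_of_nonneg_right hp1 hAB)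
      _ = _ := by ring
  refine (abs_add_le _ _).trans ?_
  refine (add_le_add (abs_add_le _ _) le_rfl).trans ?_
  refine (add_le_add (add_le_add b1' b2') hthird).trans (le_of_eq ?_)
  ring

end Pool.Agent.SOSC
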