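import Pool.Agent.SOSC.Defs

/-!
# SOSC LA: uniqueness and near orthogonality in the local algebra

## eq_zero_of_orth
If `h` depends only on `S`, vanishes on improper colourings of `G[S]` and is orthogonal to all
`w ∈ W_T`, `T ⊆ S`, then `h = 0`.

Proof.  Induction on `S.card` (generalising `S` and `h`).  Let `v ∈ S` and `g = av v h`.
`DepOn (S.erase v) g` (`DepOn.av`).  If `c` is not proper on `S.erase v` then no
`Function.update c v i` is proper on `S` (the two bad vertices are different from `v`), so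
`g c = 0`.  For `T ⊆ S.erase v` and `w ∈ W_T`: `w` does not depend on the colour of `v`, so by
`av_mul` and `ev_av`: `ev (w * g) = ev (av v (w * h)) = ev (w * h) = 0`.  By induction `g = 0`.
Hence `IsW G S h`, and the hypothesis with `T = S`, `w = h` gives `ev (h^2) = 0`, so `h = 0`
(`eq_zero_of_ev_sq`).

## near_orth
Write `‖w‖² = ev (w^2)` and `P = pind G S`.  The claim is
`(1/2) ∑_{T ⊆ S} ‖w_T‖² ≤ E[(∑_T w_T)² P]`.

Expand the square: `E[(∑ w_T)² P] = ∑_T E[w_T² P] + ∑_{T ≠ T'} E[w_T w_T' P]`.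

(1) `T = T'`: `E[w_T² P] = ‖w_T‖² - E[w_T² (1 - P)]`.  If `P(c) = 0` there are adjacent
`x, y ∈ S` with `c x = c y`; if both are in `T` then `w_T(c) = 0`.  Otherwise one of them, say `x`,
is not in `T`.  So `w_T² (1 - P) ≤ ∑_{x ∈ S \ T} ∑_{y ∈ S, y ≠ x} w_T² 1[c x = c y]`, and
`E[w_T² 1[c x = c y]] = ‖w_T‖²/k` for `x ∉ T`, `x ≠ y` (average over the colour of `x`).  Hence
`E[w_T² P] ≥ (1 - D²/k) ‖w_T‖²`.

(2) `T ≠ T'`: by symmetry there is `v ∈ T \ T'`.  Let `P' = pind G (S.erase v)`.
`E[w_T w_T' P'] = 0` by `ev_mul_pure` (`w_T'` and `P'` do not depend on the colour of `v`, `w_T` is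
pure in `v`).  `0 ≤ P' - P`, and if `w_T(c) (P'(c) - P(c)) ≠ 0` then `c` is proper on
`S.erase v` and on `T` but not on `S`, so `c v = c x` for some `x ∈ S` adjacent to `v`, and
`x ∉ T`.  So
`|E[w_T w_T' P]| = |E[w_T w_T' (P' - P)]| ≤ ∑_{x ∈ S, x ≠ v} E[|w_T| |w_T'| 1[c v = c x]]
≤ ∑_x ‖w_T‖ (E[w_T'² 1[c v = c x]])^{1/2} ≤ D k^{-1/2} ‖w_T‖ ‖w_T'‖`
(Cauchy–Schwarz `ev_abs_mul_abs_mul_le`; `v ∉ T'`, so `E[w_T'² 1[c v = c x]] = ‖w_T'‖²/k`).

(3) Since `∑_{T ≠ T'} x_T x_T' ≤ 2^D ∑ x_T²` (`x_T x_T' ≤ (x_T² + x_T'²)/2`, at most `2^D` sets),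
`E[(∑ w_T)² P] ≥ (1 - D²/k - D 2^D k^{-1/2}) ∑ ‖w_T‖² ≥ (1 - 1/16 - 1/4) ∑ ‖w_T‖²`
because `√k ≥ 4 D 2^D` and `k ≥ 16 D²`.
-/

set_option autoImplicit false
set_option linter.unusedSectionVars false

namespace Pool.Agent.SOSC

open Finset

variable {V : Type*} [Fintype V] [DecidableEq V] {k : ℕ}

/-- A colouring improper on `S.erase v` stays improper on `S` after recolouring `v`. -/
theorem not_proper_update {G : SimpleGraph V} {S : Finset V} {v : V} {c : V → Fin k}
    (hc : ¬ Proper G (S.erase v) c) (i : Fin k) : ¬ Proper G S (Function.update c v i) := by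
  intro h
  apply hc
  intro x hx y hy hxy
  have h1 := h x (mem_of_mem_erase hx) y (mem_of_mem_erase hy) hxy
  rwa [Function.update_of_ne (ne_of_mem_erase hx), Function.update_of_ne (ne_of_mem_erase hy)] at h1

theorem Proper.mono {G : SimpleGraph V} {S T : Finset V} {c : V → Fin k} (h : Proper G S c)
    (hT : T ⊆ S) : Proper G T c := fun x hx y hy hxy => h x (hT hx) y (hT hy) hxy

theorem eq_zero_of_orth [NeZero k] (G : SimpleGraph V) (S : Finset V) (h : Fn V k)
    (hdep : DepOn S h) (hprop : ∀ c, ¬ Proper G S c → h c = 0)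
    (horth : ∀ T ⊆ S, ∀ w : Fn V k, IsW G T w → ev (fun c => w c * h c) = 0) : h = 0 := by
  induction hn : S.card generalizing S h with
  | zero =>
    have hS : S = ∅ := Finset.card_eq_zero.1 hn
    subst hS
    have hW : IsW G ∅ h := ⟨hdep, hprop, fun v hv => absurd hv (notMem_empty v)⟩
    have h1 := horth ∅ (Finset.Subset.refl _) h hW
    apply eq_zero_of_ev_sq
    rw [← h1]
    exact ev_congr fun c => sq (h c)
  | succ n ih =>
    have hpure : ∀ v ∈ S, av v h = 0 := by
      intro v hv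
      refine ih (S.erase v) (av v h) (hdep.av v) ?_ ?_ ?_
      · intro c hc
        simp only [av]
        rw [sum_eq_zero fun i _ => hprop _ (not_proper_update hc i), zero_div]
      · intro T hT w hw
        have hvT : v ∉ T := fun hvT => (notMem_erase v S) (hT hvT)
        have h1 := av_mul hvT hw.dep h
        have h2 := horth T (hT.trans (erase_subset v S)) w hw
        rw [← ev_av v, h1] at h2
        exact h2
      · rw [card_erase_of_mem hv, hn]
        rfl
    have hW : IsW G S h := ⟨hdep, hprop, hpure⟩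
    have h1 := horth S (Finset.Subset.refl _) h hW
    apply eq_zero_of_ev_sq
    rw [← h1]
    exact ev_congr fun c => sq (h c)

/-- Average of `f * 1[c x = c y]` for `f` independent of the colour of `x`. -/
theorem ev_mul_eq_ind [NeZero k] {S : Finset V} {x y : V} (hx : x ∉ S) (hxy : x ≠ y) {f : Fn V k}
    (hf : DepOn S f) : ev (fun c => f c * (if c x = c y then 1 else 0)) = ev f / k := by
  rw [← ev_av x, av_mul hx hf]
  have h1 : ∀ c : V → Fin k, av x (fun c : V → Fin k => if c x = c y then (1 : ℝ) else 0) c =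
      1 / k := by
    intro c
    simp only [av]
    congr 1
    have h2 : ∀ i : Fin k, (if Function.update c x i x = Function.update c x i y then (1 : ℝ)
        else 0) = if i = c y then 1 else 0 := by
      intro i
      rw [Function.update_self, Function.update_of_ne hxy.symm]
    rw [sum_congr rfl fun i _ => h2 i]
    simp
  rw [div_eq_mul_one_div, ← ev_mul_const]
  exact ev_congr fun c => by rw [h1 c]

private theorem cross [NeZero k] (G : SimpleGraph V) (D : ℕ) {S T T' : Finset V}
    (hS : S.card ≤ D) (_hT : T ⊆ S) (hT' : T' ⊆ S) {v : V} (hv : v ∈ T) (hv' : v ∉ T')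
    {f g : Fn V k} (hf : IsW G T f) (hg : IsW G T' g) :
    |ev (fun c => f c * g c * pind G S c)| ≤
      D / Real.sqrt k * (Real.sqrt (ev fun c => f c ^ 2) * Real.sqrt (ev fun c => g c ^ 2)) := by
  classical
  have hk0 : (0 : ℝ) < k := by exact_mod_cast Nat.pos_of_ne_zero (NeZero.ne k)
  have hsub : T' ⊆ S.erase v := fun x hx =>
    mem_erase.2 ⟨fun h => hv' (h ▸ hx), hT' hx⟩
  have h0 : ev (fun c => (g c * pind G (S.erase v) c) * f c) = 0 :=
    ev_mul_pure (notMem_erase v S) ((hg.dep.mono hsub).mul (depOn_pind G _)) (hf.pure v hv)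
  have h1 : ev (fun c => f c * g c * pind G S c) =
      ev (fun c => f c * g c * (pind G S c - pind G (S.erase v) c)) := by
    have : ev (fun c => f c * g c * (pind G S c - pind G (S.erase v) c)) =
        ev (fun c => f c * g c * pind G S c) - ev (fun c => (g c * pind G (S.erase v) c) * f c) := by
      rw [← ev_sub]
      exact ev_congr fun c => by ring
    rw [this, h0, sub_zero]
  have h2 : ∀ c, |f c * g c * (pind G S c - pind G (S.erase v) c)| ≤
      ∑ x ∈ S.erase v, |f c| * |g c| * (if c v = c x then 1 else 0) := by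
    intro c
    have hnn : 0 ≤ ∑ x ∈ S.erase v, |f c| * |g c| * (if c v = c x then (1 : ℝ) else 0) := by
      refine sum_nonneg fun x _ => ?_
      split_ifs <;> positivity
    by_cases hp : Proper G S c
    · have hp' : Proper G (S.erase v) c := hp.mono (erase_subset v S)
      have : pind G S c - pind G (S.erase v) c = 0 := by simp [pind, hp, hp']
      rw [this, mul_zero, abs_zero]
      exact hnn
    · by_cases hp' : Proper G (S.erase v) c
      · have h3 : pind G S c - pind G (S.erase v) c = -1 := by simp [pind, hp, hp']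
        rw [h3, abs_mul, abs_mul, abs_neg, abs_one, mul_one]
        have : ∃ x ∈ S.erase v, c v = c x := by
          by_contra hcon
          push Not at hcon
          apply hp
          intro x hx y hy hxy hxy'
          by_cases hxv : x = v
          · subst hxv
            exact hcon y (mem_erase.2 ⟨hxy.ne', hy⟩) hxy'
          · by_cases hyv : y = v
            · subst hyv
              exact hcon x (mem_erase.2 ⟨hxy.ne, hx⟩) hxy'.symm
            · exact hp' x (mem_erase.2 ⟨hxv, hx⟩) y (mem_erase.2 ⟨hyv, hy⟩) hxy hxy'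
        obtain ⟨x, hx, hcx⟩ := this
        have h4 := single_le_sum (f := fun x => |f c| * |g c| * (if c v = c x then (1 : ℝ) else 0))
          (fun x _ => by split_ifs <;> positivity) hx
        simpa [hcx] using h4
      · have : pind G S c - pind G (S.erase v) c = 0 := by simp [pind, hp, hp']
        rw [this, mul_zero, abs_zero]
        exact hnn
  have h3 : ∀ x ∈ S.erase v, ev (fun c => |f c| * |g c| * (if c v = c x then (1 : ℝ) else 0)) ≤
      (Real.sqrt k)⁻¹ * (Real.sqrt (ev fun c => f c ^ 2) * Real.sqrt (ev fun c => g c ^ 2)) := by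
    intro x hx
    have h4 := ev_abs_mul_abs_mul_le f g (fun c => if c v = c x then (1 : ℝ) else 0)
      (fun c => by split_ifs <;> norm_num)
    have h5 : ev (fun c => f c ^ 2 * (if c v = c x then (1 : ℝ) else 0)) ≤
        ev (fun c => f c ^ 2) := by
      refine ev_mono fun c => ?_
      split_ifs
      · rw [mul_one]
      · rw [mul_zero]; positivity
    have hg2 : DepOn T' (fun c => g c ^ 2) := fun c c' hc => by simp only [hg.dep c c' hc]
    have h6 : ev (fun c => g c ^ 2 * (if c v = c x then (1 : ℝ) else 0)) =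
        ev (fun c => g c ^ 2) / k := ev_mul_eq_ind hv' (ne_of_mem_erase hx).symm hg2
    refine h4.trans ?_
    rw [h6, Real.sqrt_div' _ hk0.le]
    calc _ ≤ Real.sqrt (ev fun c => f c ^ 2) * (Real.sqrt (ev fun c => g c ^ 2) / Real.sqrt k) :=
          mul_le_mul_of_nonneg_right (Real.sqrt_le_sqrt h5) (by positivity)
      _ = _ := by ring
  rw [h1]
  refine (abs_ev_le _).trans ((ev_mono h2).trans ?_)
  rw [ev_sum]
  refine (sum_le_sum h3).trans ?_
  rw [sum_const, nsmul_eq_mul, ← mul_assoc, div_eq_mul_inv]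
  refine mul_le_mul_of_nonneg_right (mul_le_mul_of_nonneg_right ?_ (by positivity)) (by positivity)
  exact_mod_cast (card_le_card (erase_subset v S)).trans hS

private theorem diag [NeZero k] (G : SimpleGraph V) (D : ℕ) {S T : Finset V}
    (hS : S.card ≤ D) (_hT : T ⊆ S) {f : Fn V k} (hf : IsW G T f) :
    (1 - (D : ℝ) ^ 2 / k) * ev (fun c => f c ^ 2) ≤ ev (fun c => f c * f c * pind G S c) := by
  classical
  have hk0 : (0 : ℝ) < k := by exact_mod_cast Nat.pos_of_ne_zero (NeZero.ne k)
  have h2 : ∀ c, f c ^ 2 - f c * f c * pind G S c ≤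
      ∑ x ∈ S \ T, ∑ y ∈ S.erase x, f c ^ 2 * (if c x = c y then (1 : ℝ) else 0) := by
    intro c
    have hnn : ∀ x ∈ S \ T, 0 ≤ ∑ y ∈ S.erase x, f c ^ 2 * (if c x = c y then (1 : ℝ) else 0) := by
      intro x _
      refine sum_nonneg fun y _ => ?_
      split_ifs <;> positivity
    by_cases hp : Proper G S c
    · have : pind G S c = 1 := by simp [pind, hp]
      rw [this, mul_one, ← sq, sub_self]
      exact sum_nonneg hnn
    · have h3 : pind G S c = 0 := by simp [pind, hp]
      rw [h3, mul_zero, sub_zero]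
      by_cases hpT : Proper G T c
      · have : ∃ x ∈ S \ T, ∃ y ∈ S.erase x, c x = c y := by
          by_contra hcon
          push Not at hcon
          apply hp
          intro x hx y hy hxy hxy'
          by_cases hxT : x ∈ T
          · by_cases hyT : y ∈ T
            · exact hpT x hxT y hyT hxy hxy'
            · exact hcon y (mem_sdiff.2 ⟨hy, hyT⟩) x (mem_erase.2 ⟨hxy.ne, hx⟩) hxy'.symm
          · exact hcon x (mem_sdiff.2 ⟨hx, hxT⟩) y (mem_erase.2 ⟨hxy.ne', hy⟩) hxy'
        obtain ⟨x, hx, y, hy, hxy⟩ := this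
        have h4 := single_le_sum hnn hx
        have h5 := single_le_sum (f := fun y => f c ^ 2 * (if c x = c y then (1 : ℝ) else 0))
          (fun y _ => by split_ifs <;> positivity) hy
        simp only [hxy, if_true, mul_one] at h5
        refine le_trans ?_ h4
        simpa [hxy] using h5
      · rw [hf.prop c hpT]
        simp
  have hf2 : DepOn T (fun c => f c ^ 2) := fun c c' hc => by simp only [hf.dep c c' hc]
  have h3 := ev_mono h2
  rw [ev_sub, ev_sum] at h3
  have h4 : ∀ x ∈ S \ T, ev (fun c => ∑ y ∈ S.erase x, f c ^ 2 * (if c x = c y then (1 : ℝ) else 0))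
      ≤ D * (ev (fun c => f c ^ 2) / k) := by
    intro x hx
    rw [ev_sum]
    have h5 : ∀ y ∈ S.erase x, ev (fun c => f c ^ 2 * (if c x = c y then (1 : ℝ) else 0)) =
        ev (fun c => f c ^ 2) / k := fun y hy =>
      ev_mul_eq_ind (mem_sdiff.1 hx).2 (ne_of_mem_erase hy).symm hf2
    rw [sum_congr rfl h5, sum_const, nsmul_eq_mul]
    have h6 : 0 ≤ ev (fun c => f c ^ 2) / k := div_nonneg (ev_nonneg fun c => sq_nonneg _) hk0.le
    refine mul_le_mul_of_nonneg_right ?_ h6
    exact_mod_cast (card_le_card (erase_subset x S)).trans hS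
  have h7 : 0 ≤ ev (fun c => f c ^ 2) / k := div_nonneg (ev_nonneg fun c => sq_nonneg _) hk0.le
  have h5 : ∑ x ∈ S \ T, ev (fun c => ∑ y ∈ S.erase x, f c ^ 2 *
      (if c x = c y then (1 : ℝ) else 0)) ≤ D * (D * (ev (fun c => f c ^ 2) / k)) := by
    refine (sum_le_sum h4).trans ?_
    rw [sum_const, nsmul_eq_mul]
    refine mul_le_mul_of_nonneg_right ?_ (by positivity)
    exact_mod_cast (card_le_card (sdiff_subset)).trans hS
  have h6 : (1 - (D : ℝ) ^ 2 / k) * ev (fun c => f c ^ 2) =
      ev (fun c => f c ^ 2) - D * (D * (ev (fun c => f c ^ 2) / k)) := by ring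
  rw [h6]
  linarith

theorem near_orth [NeZero k] (G : SimpleGraph V) (D : ℕ) (hD : 1 ≤ D)
    (hk : (4 * D * 2 ^ D) ^ 2 ≤ k) (S : Finset V) (hS : S.card ≤ D) (w : Finset V → Fn V k)
    (hw : ∀ T ⊆ S, IsW G T (w T)) :
    (1 / 2) * ∑ T ∈ S.powerset, (ev fun c => w T c ^ 2) ≤
      ev (fun c => (∑ T ∈ S.powerset, w T c) ^ 2 * pind G S c) := by
  classical
  have hk0 : (0 : ℝ) < k := by exact_mod_cast Nat.pos_of_ne_zero (NeZero.ne k)
  have hDR : (1 : ℝ) ≤ D := by exact_mod_cast hD
  have hkR : (4 * (D : ℝ) * 2 ^ D) ^ 2 ≤ k := by exact_mod_cast hk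
  have hsk : 4 * (D : ℝ) * 2 ^ D ≤ Real.sqrt k := Real.le_sqrt_of_sq_le hkR
  have h2D : (1 : ℝ) ≤ 2 ^ D := one_le_pow₀ (by norm_num)
  have hsk0 : 0 < Real.sqrt k := Real.sqrt_pos.2 hk0
  set N : Finset V → ℝ := fun T => ev fun c => w T c ^ 2 with hN
  have hN0 : ∀ T, 0 ≤ N T := fun T => ev_nonneg fun c => sq_nonneg _
  have hexp : ev (fun c => (∑ T ∈ S.powerset, w T c) ^ 2 * pind G S c) =
      ∑ T ∈ S.powerset, ∑ T' ∈ S.powerset, ev (fun c => w T c * w T' c * pind G S c) := by
    have h1 : ∀ c, (∑ T ∈ S.powerset, w T c) ^ 2 * pind G S c =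
        ∑ T ∈ S.powerset, ∑ T' ∈ S.powerset, w T c * w T' c * pind G S c := by
      intro c
      rw [sq, sum_mul_sum, sum_mul]
      exact sum_congr rfl fun T _ => by rw [sum_mul]
    rw [ev_congr h1, ev_sum]
    exact sum_congr rfl fun T _ => ev_sum _ _
  have hoff : ∀ T ∈ S.powerset, ∀ T' ∈ S.powerset, T ≠ T' →
      -(D / Real.sqrt k * ((N T + N T') / 2)) ≤ ev (fun c => w T c * w T' c * pind G S c) := by
    intro T hT T' hT' hne
    rw [mem_powerset] at hT hT'
    have key : |ev (fun c => w T c * w T' c * pind G S c)| ≤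
        D / Real.sqrt k * (Real.sqrt (N T) * Real.sqrt (N T')) := by
      by_cases hsub : T ⊆ T'
      · have : ¬ T' ⊆ T := fun h => hne (hsub.antisymm h)
        obtain ⟨v, hv, hv'⟩ := not_subset.1 this
        have h1 := cross G D hS hT' hT hv hv' (hw T' hT') (hw T hT)
        rw [mul_comm (Real.sqrt (N T))]
        refine le_trans (le_of_eq ?_) h1
        congr 1
        exact ev_congr fun c => by ring
      · obtain ⟨v, hv, hv'⟩ := not_subset.1 hsub
        exact cross G D hS hT hT' hv hv' (hw T hT) (hw T' hT')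
    have h2 : Real.sqrt (N T) * Real.sqrt (N T') ≤ (N T + N T') / 2 := by
      have h3 := Real.sq_sqrt (hN0 T)
      have h4 := Real.sq_sqrt (hN0 T')
      nlinarith [sq_nonneg (Real.sqrt (N T) - Real.sqrt (N T'))]
    have h3 : D / Real.sqrt k * (Real.sqrt (N T) * Real.sqrt (N T')) ≤
        D / Real.sqrt k * ((N T + N T') / 2) := mul_le_mul_of_nonneg_left h2 (by positivity)
    have := (abs_le.1 key).1
    linarith
  have hterm : ∀ T ∈ S.powerset, ∀ T' ∈ S.powerset,
      (if T = T' then (1 - (D : ℝ) ^ 2 / k) * N T else 0) -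
        D / Real.sqrt k * ((N T + N T') / 2) ≤ ev (fun c => w T c * w T' c * pind G S c) := by
    intro T hT T' hT'
    have hpos : 0 ≤ D / Real.sqrt k * ((N T + N T') / 2) := by
      have := hN0 T
      have := hN0 T'
      positivity
    by_cases h : T = T'
    · subst h
      rw [if_pos rfl]
      have := diag G D hS (mem_powerset.1 hT) (hw T (mem_powerset.1 hT))
      linarith
    · rw [if_neg h, zero_sub]
      exact hoff T hT T' hT' h
  have hsum : ∑ T ∈ S.powerset, ∑ T' ∈ S.powerset,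
      ((if T = T' then (1 - (D : ℝ) ^ 2 / k) * N T else 0) -
        D / Real.sqrt k * ((N T + N T') / 2)) =
      (1 - (D : ℝ) ^ 2 / k - D / Real.sqrt k * S.powerset.card) * ∑ T ∈ S.powerset, N T := by
    have h1 : ∀ T ∈ S.powerset, ∑ T' ∈ S.powerset,
        ((if T = T' then (1 - (D : ℝ) ^ 2 / k) * N T else 0) -
        D / Real.sqrt k * ((N T + N T') / 2)) =
        (1 - (D : ℝ) ^ 2 / k) * N T - D / Real.sqrt k * ((S.powerset.card * N T +
          ∑ T' ∈ S.powerset, N T') / 2) := by
      intro T hT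
      rw [sum_sub_distrib, sum_ite_eq, if_pos hT, ← mul_sum, ← sum_div, sum_add_distrib, sum_const,
        nsmul_eq_mul]
    rw [sum_congr rfl h1, sum_sub_distrib, ← mul_sum, ← mul_sum, ← sum_div, sum_add_distrib,
      ← mul_sum, sum_const, nsmul_eq_mul]
    ring
  rw [hexp]
  refine le_trans ?_ (sum_le_sum fun T hT => sum_le_sum fun T' hT' => hterm T hT T' hT')
  rw [hsum]
  refine mul_le_mul_of_nonneg_right ?_ (sum_nonneg fun T _ => hN0 T)
  have hcard : (S.powerset.card : ℝ) ≤ 2 ^ D := by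
    rw [card_powerset]
    push_cast
    exact pow_le_pow_right₀ (by norm_num) hS
  have e1 : D / Real.sqrt k * S.powerset.card ≤ 1 / 4 := by
    calc D / Real.sqrt k * S.powerset.card ≤ D / Real.sqrt k * 2 ^ D := by gcongr
      _ = (4 * (D : ℝ) * 2 ^ D) / Real.sqrt k / 4 := by ring
      _ ≤ 1 / 4 := by
        apply div_le_div_of_nonneg_right _ (by norm_num)
        rw [div_le_one hsk0]
        exact hsk
  have e2 : (D : ℝ) ^ 2 / k ≤ 1 / 16 := by
    rw [div_le_iff₀ hk0]
    have : 16 * (D : ℝ) ^ 2 ≤ (4 * (D : ℝ) * 2 ^ D) ^ 2 := by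
      have h3 : (4 * (D : ℝ) * 2 ^ D) ^ 2 = 16 * (D : ℝ) ^ 2 * (2 ^ D) ^ 2 := by ring
      rw [h3]
      have h4 : (1 : ℝ) ≤ (2 ^ D) ^ 2 := one_le_pow₀ h2D
      nlinarith [sq_nonneg (D : ℝ)]
    linarith
  linarith

end Pool.Agent.SOSC
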