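import Pool.Agent.SOSC.Det0

/-!
# SOSC PARAM: choice of the parameters

`r = (D+1)/2` (so `D ≤ 2r ≤ D+1`), `Δ = ⌈40 d⌉₊`, `α = (32 d Δ)^(1/3)`, `γ = Nat.clog 2 Δ`
(so `Δ ≤ 2^γ`, `γ ≤ log₂ Δ + 1`), `k'' = k/2`, `k' = k - k/2`.
For `k` large and `2 k log k < d ≤ k^(1+1/(4D))`: `40 d ≤ Δ ≤ 41 d`, `k/2 ≤ k'`, `k ≤ d`.
* `α ≤ (32·41)^(1/3) d^(2/3) ≤ 11 d^(2/3) ≤ 11 k^((5/4)(2/3)) = 11 k^(5/6)`, so `2 + 2α < k/2 - 1`.
* `α ≤ d` because `32 Δ ≤ 32·41 d ≤ d²`.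
* `K0 (2r) ≤ k'`, `k' ≤ Δ` for large `k`.
* `(Δ/k')^r ≤ (82 k^(1/(4D)))^r ≤ 82^r k^(1/4)` (`r ≤ (D+1)/2 ≤ D`, `k ≥ 1`).
* `1/√k' ≤ 2 k^(-1/2)`, `1/√Δ ≤ k^(-1/2)`.
* `M/Δ` with `M = 16 α (2γ+1) + 16 Δ/2^γ + 3√d + 3`: `α/Δ ≤ 11 d^(2/3)/(40 d) ≤ d^(-1/3) ≤ k^(-1/3)`,
  `16 Δ/2^γ ≤ 16`, `3√d/Δ ≤ d^(-1/2)`, and `2γ + 1 ≤ C log k`; so `M/Δ ≤ C k^(-1/3) log k`.
So the product is at most `C k^(1/4) (k^(-1/2) + k^(-1/3) log k) → 0`.
-/

set_option autoImplicit false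
set_option linter.unusedSectionVars false

namespace Pool.Agent.SOSC

open Filter Real

private lemma lim_zero (A : ℝ) : Tendsto (fun k : ℕ => A * (k : ℝ) ^ (1 / 4 : ℝ) *
    (3 * (k : ℝ) ^ (-(1 / 2) : ℝ) + 400 * (k : ℝ) ^ (-(1 / 3) : ℝ) * (1 + Real.log k)))
    atTop (nhds 0) := by
  have hcast : Tendsto (fun k : ℕ => (k : ℝ)) atTop atTop := tendsto_natCast_atTop_atTop
  have h1 : Tendsto (fun k : ℕ => (k : ℝ) ^ (-(1 / 4) : ℝ)) atTop (nhds 0) :=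
    (tendsto_rpow_neg_atTop (by norm_num : (0 : ℝ) < 1 / 4)).comp hcast
  have h2 : Tendsto (fun k : ℕ => (k : ℝ) ^ (-(1 / 12) : ℝ)) atTop (nhds 0) :=
    (tendsto_rpow_neg_atTop (by norm_num : (0 : ℝ) < 1 / 12)).comp hcast
  have h3 : Tendsto (fun x : ℝ => Real.log x / x ^ (1 / 12 : ℝ)) atTop (nhds 0) :=
    (isLittleO_log_rpow_atTop (by norm_num : (0 : ℝ) < 1 / 12)).tendsto_div_nhds_zero
  have h4 : Tendsto (fun k : ℕ => Real.log (k : ℝ) / (k : ℝ) ^ (1 / 12 : ℝ)) atTop (nhds 0) :=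
    h3.comp hcast
  have h5 : Tendsto (fun k : ℕ => A * (3 * (k : ℝ) ^ (-(1 / 4) : ℝ) +
      400 * ((k : ℝ) ^ (-(1 / 12) : ℝ) + Real.log (k : ℝ) / (k : ℝ) ^ (1 / 12 : ℝ))))
      atTop (nhds (A * (3 * 0 + 400 * (0 + 0)))) :=
    ((h1.const_mul 3).add ((h2.add h4).const_mul 400)).const_mul A
  rw [show A * (3 * 0 + 400 * (0 + 0)) = (0 : ℝ) by ring] at h5
  refine h5.congr' ?_
  filter_upwards [eventually_ge_atTop 1] with k hk
  have hk0 : (0 : ℝ) < k := by exact_mod_cast hk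
  have e1 : (k : ℝ) ^ (-(1 / 4) : ℝ) = (k : ℝ) ^ (1 / 4 : ℝ) * (k : ℝ) ^ (-(1 / 2) : ℝ) := by
    rw [← Real.rpow_add hk0]
    norm_num
  have e2 : (k : ℝ) ^ (-(1 / 12) : ℝ) = (k : ℝ) ^ (1 / 4 : ℝ) * (k : ℝ) ^ (-(1 / 3) : ℝ) := by
    rw [← Real.rpow_add hk0]
    norm_num
  have e3 : Real.log (k : ℝ) / (k : ℝ) ^ (1 / 12 : ℝ) =
      Real.log k * ((k : ℝ) ^ (1 / 4 : ℝ) * (k : ℝ) ^ (-(1 / 3) : ℝ)) := by
    rw [← e2, Real.rpow_neg hk0.le]
    rfl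
  rw [e1, e3, e2]
  ring

theorem params (D : ℕ) (hD : 1 ≤ D) : ∃ k₁ : ℕ, ∀ k : ℕ, k₁ ≤ k → ∀ d : ℝ,
    2 * k * Real.log k < d → d ≤ (k : ℝ) ^ (1 + 1 / (4 * (D : ℝ))) →
    ∃ (r Δ γ k' k'' : ℕ) (α : ℝ), 1 ≤ r ∧ D ≤ 2 * r ∧ 1 ≤ k' ∧ k' + k'' = k ∧ 1 ≤ d ∧ 0 < α ∧
      α ≤ d ∧ 32 * d * Δ ≤ α ^ 3 ∧ 40 * d ≤ Δ ∧ 2 + 2 * α < k'' ∧ K0 (2 * r) ≤ k' ∧ k' ≤ Δ ∧
      C0 r * ((Δ : ℝ) / k') ^ r * (1 / Real.sqrt k' + 1 / Real.sqrt Δ +
        (16 * α * (2 * γ + 1) + 16 * Δ / 2 ^ γ + 3 * Real.sqrt d + 3) / Δ) ≤ 1 / 2 := by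
  set r := (D + 1) / 2 with hr
  have hr1 : 1 ≤ r := by omega
  have hDr : D ≤ 2 * r := by omega
  have hrD : r ≤ D := by omega
  have hcast : Tendsto (fun k : ℕ => (k : ℝ)) atTop atTop := tendsto_natCast_atTop_atTop
  have hlim := (lim_zero (|C0 r| * 82 ^ r)).eventually (gt_mem_nhds (show (0 : ℝ) < 1 / 2 by norm_num))
  have hlog : ∀ᶠ k : ℕ in atTop, (1 : ℝ) ≤ Real.log k :=
    (Real.tendsto_log_atTop.comp hcast).eventually_ge_atTop 1
  have hp : ∀ᶠ k : ℕ in atTop, (100 : ℝ) ≤ (k : ℝ) ^ (1 / 6 : ℝ) :=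
    ((tendsto_rpow_atTop (by norm_num : (0 : ℝ) < 1 / 6)).comp hcast).eventually_ge_atTop 100
  obtain ⟨k₁, hk₁⟩ := eventually_atTop.1 (hlim.and (hlog.and (hp.and
    ((eventually_ge_atTop 2000).and (eventually_ge_atTop (2 * K0 (2 * r) + 2))))))
  refine ⟨k₁, fun k hk d hd1 hd2 => ?_⟩
  obtain ⟨hA, hlogk, hpk, hk2000, hkK⟩ := hk₁ k hk
  have hK : (2000 : ℝ) ≤ k := by exact_mod_cast hk2000
  have hK0 : (0 : ℝ) < k := by linarith
  have hDr0 : (1 : ℝ) ≤ D := by exact_mod_cast hD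
  have hkd : (k : ℝ) ≤ d := by nlinarith
  have hd0 : 0 < d := by linarith
  have he : 1 / (4 * (D : ℝ)) ≤ 1 / 4 := by
    rw [div_le_div_iff₀ (by positivity) (by norm_num)]
    linarith
  have hd54 : d ≤ (k : ℝ) ^ (5 / 4 : ℝ) := by
    refine hd2.trans (Real.rpow_le_rpow_of_exponent_le (by linarith) ?_)
    linarith
  -- `Δ`
  set Δ := ⌈40 * d⌉₊ with hΔ
  have hΔ1 : 40 * d ≤ Δ := Nat.le_ceil _
  have hΔ2 : (Δ : ℝ) ≤ 41 * d := by
    have := Nat.ceil_lt_add_one (show 0 ≤ 40 * d by positivity)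
    linarith
  have hΔ0 : (0 : ℝ) < Δ := by linarith
  have hkΔ : (k : ℝ) ≤ Δ := by linarith
  -- `k'`
  have hk'k : ((k - k / 2 : ℕ) : ℝ) ≤ k := by
    exact_mod_cast Nat.sub_le k (k / 2)
  have hk'1 : (k : ℝ) / 2 ≤ ((k - k / 2 : ℕ) : ℝ) := by
    have h1 : k ≤ 2 * (k - k / 2) := by omega
    have h2 : (k : ℝ) ≤ 2 * ((k - k / 2 : ℕ) : ℝ) := by exact_mod_cast h1
    linarith
  have hk''1 : ((k : ℝ) - 1) / 2 ≤ ((k / 2 : ℕ) : ℝ) := by
    have h1 : k ≤ 2 * (k / 2) + 1 := by omega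
    have h2 : (k : ℝ) ≤ 2 * ((k / 2 : ℕ) : ℝ) + 1 := by exact_mod_cast h1
    linarith
  -- `α`
  set α := (32 * d * Δ) ^ (1 / 3 : ℝ) with hα
  have hα0 : 0 < α := by positivity
  have hα3 : α ^ 3 = 32 * d * Δ := by
    rw [hα, ← Real.rpow_natCast, ← Real.rpow_mul (by positivity)]
    norm_num
  set b := d ^ (1 / 3 : ℝ) with hb
  have hb0 : 0 < b := by positivity
  have hb3 : b ^ 3 = d := by
    rw [hb, ← Real.rpow_natCast, ← Real.rpow_mul (by positivity)]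
    norm_num
  have hαb : α ≤ 11 * b ^ 2 := by
    have h1 : α ^ 3 ≤ (11 * b ^ 2) ^ 3 := by
      rw [hα3]
      have : (11 * b ^ 2) ^ 3 = 1331 * (b ^ 3) ^ 2 := by ring
      rw [this, hb3]
      nlinarith
    exact le_of_pow_le_pow_left₀ (by norm_num) (by positivity) h1
  have hb11 : 11 ≤ b := by
    by_contra hlt
    push Not at hlt
    have : b ^ 3 < 11 ^ 3 := pow_lt_pow_left₀ hlt hb0.le (by norm_num)
    rw [hb3] at this
    norm_num at this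
    linarith
  have hαd : α ≤ d := by
    rw [← hb3]
    nlinarith [mul_pos hb0 hb0]
  -- `b² ≤ k^(5/6)`
  set y := (k : ℝ) ^ (1 / 6 : ℝ) with hy
  have hy0 : 0 < y := by positivity
  have hy6 : y ^ 6 = k := by
    rw [hy, ← Real.rpow_natCast, ← Real.rpow_mul (by positivity)]
    norm_num
  have hb2 : b ^ 2 ≤ y ^ 5 := by
    have h1 : b ≤ (k : ℝ) ^ (5 / 12 : ℝ) := by
      calc b ≤ ((k : ℝ) ^ (5 / 4 : ℝ)) ^ (1 / 3 : ℝ) :=
            Real.rpow_le_rpow hd0.le hd54 (by norm_num)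
        _ = (k : ℝ) ^ (5 / 12 : ℝ) := by
            rw [← Real.rpow_mul (by positivity)]
            norm_num
    calc b ^ 2 ≤ ((k : ℝ) ^ (5 / 12 : ℝ)) ^ 2 := pow_le_pow_left₀ hb0.le h1 2
      _ = y ^ 5 := by
          rw [hy, ← Real.rpow_natCast, ← Real.rpow_mul (by positivity), ← Real.rpow_natCast,
            ← Real.rpow_mul (by positivity)]
          norm_num
  have hk'' : 2 + 2 * α < ((k / 2 : ℕ) : ℝ) := by
    have h1 : α ≤ 11 * y ^ 5 := by linarith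
    have h2 : 100 * y ^ 5 ≤ k := by
      rw [← hy6]
      calc 100 * y ^ 5 ≤ y * y ^ 5 := mul_le_mul_of_nonneg_right hpk (by positivity)
        _ = y ^ 6 := by ring
    linarith
  -- the final estimate
  set γ := Nat.clog 2 Δ with hγ
  refine ⟨r, Δ, γ, k - k / 2, k / 2, α, hr1, hDr, by omega, by omega, by linarith, hα0, hαd,
    hα3.ge, hΔ1, hk'', by omega, ?_, ?_⟩
  · have : ((k - k / 2 : ℕ) : ℝ) ≤ Δ := hk'k.trans hkΔ
    exact_mod_cast this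
  set k' := k - k / 2 with hk'
  have hk'0 : (0 : ℝ) < k' := by linarith
  -- powers of `k`
  set u := (k : ℝ) ^ (-(1 / 2) : ℝ) with hu
  set w := (k : ℝ) ^ (-(1 / 3) : ℝ) with hw
  have hu0 : 0 < u := by positivity
  have hw0 : 0 < w := by positivity
  have husq : u = 1 / Real.sqrt k := by
    rw [hu, Real.rpow_neg hK0.le, Real.sqrt_eq_rpow, one_div]
    norm_num
  have huw : u ≤ w := Real.rpow_le_rpow_of_exponent_le (by linarith) (by norm_num)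
  have hkw : 1 / (k : ℝ) ≤ w := by
    have h1 : 1 / (k : ℝ) = (k : ℝ) ^ (-1 : ℝ) := by
      rw [Real.rpow_neg_one, one_div]
    rw [h1]
    exact Real.rpow_le_rpow_of_exponent_le (by linarith) (by norm_num)
  have s1 : 1 / Real.sqrt k' ≤ 2 * u := by
    rw [husq]
    have h1 : Real.sqrt k ≤ 2 * Real.sqrt k' := by
      have h2 : Real.sqrt k ≤ Real.sqrt (2 ^ 2 * k') := Real.sqrt_le_sqrt (by linarith)
      rwa [Real.sqrt_mul (by norm_num), Real.sqrt_sq (by norm_num)] at h2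
    have h3 : 0 < Real.sqrt k' := Real.sqrt_pos.2 hk'0
    have h4 : 0 < Real.sqrt k := Real.sqrt_pos.2 hK0
    rw [mul_one_div, div_le_div_iff₀ h3 h4]
    linarith
  have s2 : 1 / Real.sqrt Δ ≤ u := by
    rw [husq]
    exact one_div_le_one_div_of_le (Real.sqrt_pos.2 hK0) (Real.sqrt_le_sqrt hkΔ)
  -- `γ`
  have hγ1 : (Δ : ℝ) ≤ 2 ^ γ := by
    have : Δ ≤ 2 ^ γ := Nat.le_pow_clog (by norm_num) Δ
    exact_mod_cast this
  have hΔ1' : 1 < Δ := by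
    have : (1 : ℝ) < Δ := by linarith
    exact_mod_cast this
  have hγ2 : (2 : ℝ) ^ γ ≤ 2 * Δ := by
    have h1 : 2 ^ γ.pred < Δ := Nat.pow_pred_clog_lt_self (by norm_num) hΔ1'
    have h2 : 0 < γ := Nat.clog_pos (by norm_num) hΔ1'
    have h3 : (2 : ℝ) ^ γ = 2 * 2 ^ γ.pred := by
      rw [← pow_succ']
      congr 1
      exact (Nat.succ_pred_eq_of_pos h2).symm
    have h4 : (2 : ℝ) ^ γ.pred ≤ Δ := by exact_mod_cast h1.le
    linarith
  have hγ3 : (2 * (γ : ℝ) + 1) ≤ 21 * (1 + Real.log k) := by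
    have h1 : (γ : ℝ) * Real.log 2 ≤ 5 + 2 * Real.log k := by
      have h2 : Real.log ((2 : ℝ) ^ γ) ≤ Real.log (82 * (k : ℝ) ^ (5 / 4 : ℝ)) := by
        apply Real.log_le_log (by positivity)
        linarith
      rw [Real.log_pow, Real.log_mul (by norm_num) (by positivity), Real.log_rpow hK0] at h2
      have h3 : Real.log 82 ≤ 5 := by
        have h4 : (82 : ℝ) ≤ Real.exp 5 := by
          have h5 := Real.exp_one_gt_d9
          calc (82 : ℝ) ≤ 2.7 ^ 5 := by norm_num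
            _ ≤ (Real.exp 1) ^ 5 := by
                apply pow_le_pow_left₀ (by norm_num)
                norm_num at h5 ⊢
                linarith
            _ = Real.exp 5 := by rw [← Real.exp_nat_mul]; norm_num
        calc Real.log 82 ≤ Real.log (Real.exp 5) := Real.log_le_log (by norm_num) h4
          _ = 5 := Real.log_exp 5
      linarith
    have h6 := Real.log_two_gt_d9
    have h7 : (γ : ℝ) ≤ 10 + 3 * Real.log k := by
      by_contra hlt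
      push Not at hlt
      have h8 : (10 + 3 * Real.log k) * Real.log 2 < γ * Real.log 2 :=
        mul_lt_mul_of_pos_right hlt (by linarith)
      nlinarith
    linarith
  -- `M / Δ`
  have s3 : (16 * α * (2 * γ + 1) + 16 * Δ / 2 ^ γ + 3 * Real.sqrt d + 3) / Δ ≤
      400 * w * (1 + Real.log k) := by
    have hbw : 1 / b ≤ w := by
      rw [hw, Real.rpow_neg hK0.le, one_div]
      apply inv_anti₀ (by positivity)
      exact Real.rpow_le_rpow hK0.le hkd (by norm_num)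
    have m1 : 16 * α * (2 * γ + 1) / Δ ≤ 16 * w * (21 * (1 + Real.log k)) := by
      have h1 : α / Δ ≤ w := by
        refine le_trans ?_ hbw
        rw [div_le_div_iff₀ hΔ0 hb0]
        have : α * b ≤ 11 * b ^ 3 := by nlinarith
        rw [hb3] at this
        linarith
      calc 16 * α * (2 * γ + 1) / Δ = 16 * (α / Δ) * (2 * γ + 1) := by ring
        _ ≤ 16 * w * (2 * γ + 1) := by
            apply mul_le_mul_of_nonneg_right _ (by positivity)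
            linarith
        _ ≤ 16 * w * (21 * (1 + Real.log k)) :=
            mul_le_mul_of_nonneg_left hγ3 (by positivity)
    have m2 : 16 * Δ / 2 ^ γ / Δ ≤ 16 * w := by
      have h1 : 16 * (Δ : ℝ) / 2 ^ γ / Δ = 16 * (1 / 2 ^ γ) := by
        field_simp
      rw [h1]
      have h2 : 1 / (2 : ℝ) ^ γ ≤ 1 / k := one_div_le_one_div_of_le hK0 (hkΔ.trans hγ1)
      linarith
    have m3 : 3 * Real.sqrt d / Δ ≤ w := by
      refine le_trans ?_ huw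
      rw [husq, div_le_div_iff₀ hΔ0 (Real.sqrt_pos.2 hK0)]
      have h1 : Real.sqrt d * Real.sqrt k ≤ d := by
        calc Real.sqrt d * Real.sqrt k ≤ Real.sqrt d * Real.sqrt d :=
              mul_le_mul_of_nonneg_left (Real.sqrt_le_sqrt hkd) (Real.sqrt_nonneg _)
          _ = d := Real.mul_self_sqrt hd0.le
      nlinarith
    have m4 : 3 / (Δ : ℝ) ≤ 3 * w := by
      have h2 : 1 / (Δ : ℝ) ≤ 1 / k := one_div_le_one_div_of_le hK0 hkΔ
      calc 3 / (Δ : ℝ) = 3 * (1 / Δ) := by ring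
        _ ≤ 3 * w := by linarith
    have h5 : (16 * α * (2 * γ + 1) + 16 * Δ / 2 ^ γ + 3 * Real.sqrt d + 3) / Δ =
        16 * α * (2 * γ + 1) / Δ + 16 * Δ / 2 ^ γ / Δ + 3 * Real.sqrt d / Δ + 3 / Δ := by
      ring
    rw [h5]
    have h6 : 0 ≤ w * Real.log k := by positivity
    nlinarith
  -- the factor
  have s4 : ((Δ : ℝ) / k') ^ r ≤ 82 ^ r * (k : ℝ) ^ (1 / 4 : ℝ) := by
    have h1 : (Δ : ℝ) / k' ≤ 82 * (k : ℝ) ^ (1 / (4 * (D : ℝ))) := by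
      rw [div_le_iff₀ hk'0]
      have h2 : (k : ℝ) ^ (1 + 1 / (4 * (D : ℝ))) = k * (k : ℝ) ^ (1 / (4 * (D : ℝ))) := by
        rw [Real.rpow_add hK0, Real.rpow_one]
      rw [h2] at hd2
      have h3 : 0 < (k : ℝ) ^ (1 / (4 * (D : ℝ))) := by positivity
      nlinarith
    calc ((Δ : ℝ) / k') ^ r ≤ (82 * (k : ℝ) ^ (1 / (4 * (D : ℝ)))) ^ r :=
          pow_le_pow_left₀ (by positivity) h1 r
      _ = 82 ^ r * ((k : ℝ) ^ (1 / (4 * (D : ℝ)))) ^ r := mul_pow _ _ _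
      _ ≤ 82 ^ r * (k : ℝ) ^ (1 / 4 : ℝ) := by
          apply mul_le_mul_of_nonneg_left _ (by positivity)
          rw [← Real.rpow_natCast, ← Real.rpow_mul hK0.le]
          apply Real.rpow_le_rpow_of_exponent_le (by linarith)
          have h5 : (r : ℝ) ≤ D := by exact_mod_cast hrD
          rw [one_div_mul_eq_div, div_le_div_iff₀ (by positivity) (by norm_num)]
          linarith
  have hX0 : 0 ≤ 1 / Real.sqrt k' + 1 / Real.sqrt Δ +
      (16 * α * (2 * γ + 1) + 16 * Δ / 2 ^ γ + 3 * Real.sqrt d + 3) / Δ := by positivity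
  calc C0 r * ((Δ : ℝ) / k') ^ r * (1 / Real.sqrt k' + 1 / Real.sqrt Δ +
        (16 * α * (2 * γ + 1) + 16 * Δ / 2 ^ γ + 3 * Real.sqrt d + 3) / Δ)
      ≤ |C0 r| * ((Δ : ℝ) / k') ^ r * (1 / Real.sqrt k' + 1 / Real.sqrt Δ +
        (16 * α * (2 * γ + 1) + 16 * Δ / 2 ^ γ + 3 * Real.sqrt d + 3) / Δ) := by
        apply mul_le_mul_of_nonneg_right _ hX0
        exact mul_le_mul_of_nonneg_right (le_abs_self _) (by positivity)
    _ ≤ |C0 r| * (82 ^ r * (k : ℝ) ^ (1 / 4 : ℝ)) * (3 * u + 400 * w * (1 + Real.log k)) := by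
        apply mul_le_mul _ (by linarith) hX0 (by positivity)
        exact mul_le_mul_of_nonneg_left s4 (abs_nonneg _)
    _ = |C0 r| * 82 ^ r * (k : ℝ) ^ (1 / 4 : ℝ) * (3 * u + 400 * w * (1 + Real.log k)) := by ring
    _ ≤ 1 / 2 := hA.le

end Pool.Agent.SOSC
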