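import Pool.Agent.SOSC.RG2

/-!
# SOSC RG4: large sets do not have too many incident edges

`p = d/n`, `40 d ≤ Δ`, `1 ≤ d ≤ n`.  If `HighOk` fails there is `X` with `x = |X|`, `n ≤ d x`, and
`eL G X univ > Δ x/2` or `eL G univ X > Δ x/2`.  In both cases
`|(edg G ∩ A).card - p |A|| ≥ t := (Δ/2 - d) x`, `A = bx X univ` or `bx univ X`, `p |A| ≤ μ := d x`.
`t ≥ 19 d x`, `t/μ ≥ 19`, `log 20 ≥ 2`, so `pr_tail` gives a probability at most
`2 exp(-19 d x) ≤ 2 exp(-19 n)`.  Union bound over at most `2^n` sets and two cases: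
`4 · 2^n exp(-19 n) ≤ 4 exp(-18 n) ≤ 4/n`.
-/

set_option autoImplicit false
set_option linter.unusedSectionVars false

namespace Pool.Agent.SOSC

open Finset

private theorem pr_high_aux {d Δ : ℝ} (hd : 1 ≤ d) (h : 40 * d ≤ Δ) (n : ℕ) (hn : d ≤ n)
    (X : Finset (Fin n)) (hX : (n : ℝ) ≤ d * X.card) (A : Finset (Fin n × Fin n))
    (hA : A ⊆ prs n) (hA2 : (A.card : ℝ) ≤ X.card * n) :
    Pr n (d / n) (fun G => Δ / 2 * X.card < ((edg G ∩ A).card : ℝ)) ≤
      2 * Real.exp (-(19 * (n : ℝ))) := by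
  have hn0 : (0 : ℝ) < n := by linarith
  have h0 : 0 ≤ d / n := by positivity
  have h1 : d / n ≤ 1 := by rw [div_le_one hn0]; exact hn
  have hx : (0 : ℝ) < X.card := by
    by_contra hc
    push Not at hc
    nlinarith
  have hμ : 0 < d * X.card := by positivity
  have hpμ : d / n * A.card ≤ d * X.card := by
    calc d / n * A.card ≤ d / n * (X.card * n) := by gcongr
      _ = d * X.card := by field_simp
  have ht0 : 19 * (d * X.card) ≤ (Δ / 2 - d) * X.card := by nlinarith
  have ht : 0 ≤ (Δ / 2 - d) * X.card := by nlinarith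
  have htail := pr_tail n h0 h1 hA hμ hpμ ht
  refine (pr_mono n h0 h1 (B := fun G => (Δ / 2 - d) * X.card ≤
    |((edg G ∩ A).card : ℝ) - d / n * A.card|) ?_).trans (htail.trans ?_)
  · intro G hG
    refine le_trans ?_ (le_abs_self _)
    have h3 : Δ / 2 * X.card < ((edg G ∩ A).card : ℝ) := hG
    linarith
  · have h4 : (19 : ℝ) ≤ (Δ / 2 - d) * X.card / (d * X.card) := by
      rw [le_div_iff₀ hμ]; exact ht0
    have h5 : (2 : ℝ) ≤ Real.log (1 + (Δ / 2 - d) * X.card / (d * X.card)) := by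
      rw [Real.le_log_iff_exp_le (by linarith)]
      have h6 : Real.exp 2 = Real.exp 1 * Real.exp 1 := by rw [← Real.exp_add]; norm_num
      have h7 := Real.exp_one_lt_d9
      have h8 := Real.exp_pos 1
      nlinarith
    have h9 : 19 * (n : ℝ) ≤ (Δ / 2 - d) * X.card := by nlinarith
    have h10 : -((Δ / 2 - d) * X.card / 2) *
        Real.log (1 + (Δ / 2 - d) * X.card / (d * X.card)) ≤ -(19 * (n : ℝ)) := by
      nlinarith
    have := Real.exp_le_exp.2 h10
    linarith

theorem pr_high {d Δ : ℝ} (hd : 1 ≤ d) (h : 40 * d ≤ Δ) (n : ℕ) (hn : d ≤ n) :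
    Pr n (d / n) (fun G => ¬ HighOk n d Δ G) ≤ 4 / n := by
  classical
  have hn0 : (0 : ℝ) < n := by linarith
  have h0 : 0 ≤ d / n := by positivity
  have h1 : d / n ≤ 1 := by rw [div_le_one hn0]; exact hn
  set S : Finset (Finset (Fin n)) := univ.filter (fun X => (n : ℝ) ≤ d * X.card) with hS
  set B : Finset (Fin n) → SimpleGraph (Fin n) → Prop := fun X G =>
    Δ / 2 * X.card < ((edg G ∩ bx X univ).card : ℝ) ∨
      Δ / 2 * X.card < ((edg G ∩ bx univ X).card : ℝ) with hB
  have h2 : Pr n (d / n) (fun G => ¬ HighOk n d Δ G) ≤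
      Pr n (d / n) (fun G => ∃ X ∈ S, B X G) := by
    refine pr_mono n h0 h1 ?_
    intro G hG
    unfold HighOk at hG
    push Not at hG
    obtain ⟨X, hX, hX2⟩ := hG
    refine ⟨X, by rw [hS, mem_filter]; exact ⟨mem_univ _, hX⟩, ?_⟩
    rw [hB]
    simp only
    rw [← eL_eq, ← eL_eq]
    by_cases hc : (eL G X univ : ℝ) ≤ Δ / 2 * X.card
    · exact Or.inr (hX2 hc)
    · exact Or.inl (not_le.1 hc)
  have hsub : ∀ X Y : Finset (Fin n), bx X Y ⊆ prs n := by
    intro X Y x hx
    unfold bx at hx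
    unfold prs
    rw [mem_filter] at hx ⊢
    exact ⟨mem_univ _, hx.2⟩
  have h3 : ∀ X ∈ S, Pr n (d / n) (B X) ≤ 4 * Real.exp (-(19 * (n : ℝ))) := by
    intro X hX
    rw [hS, mem_filter] at hX
    refine (pr_or n h0 h1 _ _).trans ?_
    have h4 := pr_high_aux hd h n hn X hX.2 (bx X univ) (hsub _ _) (by
      have : (bx X univ).card ≤ X.card * n := by
        refine (card_filter_le _ _).trans ?_
        rw [card_product, card_univ, Fintype.card_fin]
      exact_mod_cast this)
    have h5 := pr_high_aux hd h n hn X hX.2 (bx univ X) (hsub _ _) (by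
      have : (bx univ X).card ≤ X.card * n := by
        refine (card_filter_le _ _).trans ?_
        rw [card_product, card_univ, Fintype.card_fin, mul_comm]
      exact_mod_cast this)
    linarith
  refine h2.trans ((pr_union n h0 h1 S B).trans ((sum_le_sum h3).trans ?_))
  rw [sum_const, nsmul_eq_mul]
  have h6 : (S.card : ℝ) ≤ Real.exp n := by
    have h7 : S.card ≤ 2 ^ n := by
      refine (card_filter_le _ _).trans ?_
      rw [card_univ, Fintype.card_finset, Fintype.card_fin]
    have h8 : (S.card : ℝ) ≤ 2 ^ n := by exact_mod_cast h7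
    refine h8.trans ?_
    have h9 : (2 : ℝ) ≤ Real.exp 1 := by
      have := Real.add_one_le_exp (1 : ℝ)
      linarith
    calc (2 : ℝ) ^ n ≤ (Real.exp 1) ^ n := pow_le_pow_left₀ (by norm_num) h9 _
      _ = Real.exp n := by rw [← Real.exp_nat_mul, mul_one]
  calc (S.card : ℝ) * (4 * Real.exp (-(19 * (n : ℝ))))
      ≤ Real.exp n * (4 * Real.exp (-(19 * (n : ℝ)))) := by gcongr
    _ = 4 * Real.exp (-(18 * (n : ℝ))) := by
      rw [show Real.exp (n : ℝ) * (4 * Real.exp (-(19 * (n : ℝ)))) =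
        4 * (Real.exp n * Real.exp (-(19 * (n : ℝ)))) by ring, ← Real.exp_add]
      congr 2
      ring
    _ ≤ 4 / n := by
      rw [div_eq_mul_inv]
      have h10 : Real.exp (-(18 * (n : ℝ))) ≤ (n : ℝ)⁻¹ := by
        rw [Real.exp_neg]
        refine inv_anti₀ hn0 ?_
        have := Real.add_one_le_exp (18 * (n : ℝ))
        linarith
      linarith

end Pool.Agent.SOSC
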