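import Pool.Agent.SOSC.RG1

/-!
# SOSC RG5: few vertices on short cycles

`p = d/n`.  `∑_G ms G * |shortV G| = ∑_v P(v ∈ shortV G)`.  For each `v`, union bound over the other
vertices of the cycle: for given distinct vertices the `l` edges of the cycle are distinct pairs, so
the probability is `p^l` (`pr_subset`; a set of `l` pairs `i < j`).
* triangles `v, a, b` (distinct, since adjacent): at most `n² p³`;
* `v, a, b, c` with `v ≠ b`, `a ≠ c` (all distinct since adjacent ones are distinct): at most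
  `n³ p⁴`;
* injective `f : Fin 6 → Fin n`, `f 0 = v`: at most `n⁵ p⁶` (the six pairs
  `{f i, f (i+1)}` are distinct by injectivity).
Sum over `v`: `E|shortV| ≤ d³ + d⁴ + d⁶`.  Markov:
`P(|shortV| d > n) ≤ (d/n) E|shortV|`.
-/

set_option autoImplicit false
set_option linter.unusedSectionVars false

namespace Pool.Agent.SOSC

open Finset

namespace RG5Aux

open Classical in
/-- injective closed walks of length `l` -/
noncomputable def cyc {n : ℕ} (l : ℕ) [NeZero l] (G : SimpleGraph (Fin n)) :
    Finset (Fin l → Fin n) :=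
  univ.filter (fun f => Function.Injective f ∧ ∀ i, G.Adj (f i) (f (i + 1)))

/-- the pair `i < j` of two vertices -/
def nrm {n : ℕ} (u v : Fin n) : Fin n × Fin n := (min u v, max u v)

theorem nrm_mem_prs {n : ℕ} {u v : Fin n} (h : u ≠ v) : nrm u v ∈ prs n := by
  unfold prs nrm
  rw [mem_filter]
  exact ⟨mem_univ _, min_lt_max.2 h⟩

open Classical in
theorem nrm_mem_edg {n : ℕ} (G : SimpleGraph (Fin n)) {u v : Fin n} (h : G.Adj u v) :
    nrm u v ∈ edg G := by
  refine Finset.mem_filter.2 ⟨nrm_mem_prs h.ne, ?_⟩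
  unfold nrm
  rcases le_total u v with h1 | h1
  · simpa [min_eq_left h1, max_eq_right h1] using h
  · simpa [min_eq_right h1, max_eq_left h1] using h.symm

theorem nrm_inj {n : ℕ} {a b c d : Fin n} (h : nrm a b = nrm c d) :
    (a = c ∧ b = d) ∨ (a = d ∧ b = c) := by
  unfold nrm at h
  obtain ⟨h1, h2⟩ := Prod.mk.inj h
  rcases le_total a b with h3 | h3 <;> rcases le_total c d with h4 | h4
  · rw [min_eq_left h3, min_eq_left h4] at h1
    rw [max_eq_right h3, max_eq_right h4] at h2
    exact Or.inl ⟨h1, h2⟩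
  · rw [min_eq_left h3, min_eq_right h4] at h1
    rw [max_eq_right h3, max_eq_left h4] at h2
    exact Or.inr ⟨h1, h2⟩
  · rw [min_eq_right h3, min_eq_left h4] at h1
    rw [max_eq_left h3, max_eq_right h4] at h2
    exact Or.inr ⟨h2, h1⟩
  · rw [min_eq_right h3, min_eq_right h4] at h1
    rw [max_eq_left h3, max_eq_left h4] at h2
    exact Or.inl ⟨h2, h1⟩

theorem pr_cyc {n : ℕ} {p : ℝ} (h0 : 0 ≤ p) (h1 : p ≤ 1) (l : ℕ) [NeZero l]
    (hl : ∀ j : Fin l, j + 1 + 1 ≠ j) (f : Fin l → Fin n) :
    Pr n p (fun G => Function.Injective f ∧ ∀ i, G.Adj (f i) (f (i + 1))) ≤ p ^ l := by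
  classical
  by_cases hf : Function.Injective f
  · have hne : ∀ i, f i ≠ f (i + 1) := by
      intro i h
      have h2 := hf h
      exact hl i (by rw [← h2, ← h2])
    have hinj : Function.Injective fun i => nrm (f i) (f (i + 1)) := by
      intro i j hij
      rcases nrm_inj hij with h | h
      · exact hf h.1
      · exfalso
        have e1 := hf h.1
        have e2 := hf h.2
        exact hl j (by rw [← e1, e2])
    set A : Finset (Fin n × Fin n) := univ.image fun i => nrm (f i) (f (i + 1)) with hA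
    have hAp : A ⊆ prs n := by
      intro x hx
      rw [hA, mem_image] at hx
      obtain ⟨i, _, rfl⟩ := hx
      exact nrm_mem_prs (hne i)
    have hcard : A.card = l := by
      rw [hA, card_image_of_injective _ hinj, card_univ, Fintype.card_fin]
    have h2 := pr_subset n p hAp
    rw [hcard] at h2
    rw [← h2]
    refine pr_mono n h0 h1 fun G hG => ?_
    intro x hx
    rw [hA, mem_image] at hx
    obtain ⟨i, _, rfl⟩ := hx
    exact nrm_mem_edg G (hG.2 i)
  · have h2 : Pr n p (fun G => Function.Injective f ∧ ∀ i, G.Adj (f i) (f (i + 1))) = 0 := by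
      rw [pr_eq]
      refine sum_eq_zero fun G _ => ?_
      rw [if_neg (fun h => hf h.1), mul_zero]
    rw [h2]
    positivity

theorem cyc_expect (l : ℕ) [NeZero l] (hl : ∀ j : Fin l, j + 1 + 1 ≠ j) {d : ℝ} (hd : 0 ≤ d)
    (n : ℕ) (hn : d ≤ n) (hn1 : 1 ≤ n) :
    ∑ G : SimpleGraph (Fin n), ms n (d / n) G * ((cyc l G).card : ℝ) ≤ d ^ l := by
  classical
  have hn0 : (0 : ℝ) < n := by exact_mod_cast hn1
  have h0 : 0 ≤ d / n := div_nonneg hd hn0.le
  have h1 : d / n ≤ 1 := (div_le_one hn0).2 hn
  calc ∑ G : SimpleGraph (Fin n), ms n (d / n) G * ((cyc l G).card : ℝ)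
      = ∑ G : SimpleGraph (Fin n), ∑ f : Fin l → Fin n, ms n (d / n) G *
        (if (Function.Injective f ∧ ∀ i, G.Adj (f i) (f (i + 1))) then 1 else 0) := by
        refine sum_congr rfl fun G _ => ?_
        rw [← mul_sum]
        congr 1
        unfold cyc
        rw [card_filter]
        push_cast
        refine sum_congr rfl fun f _ => ?_
        congr
    _ = ∑ f : Fin l → Fin n, ∑ G : SimpleGraph (Fin n), ms n (d / n) G *
        (if (Function.Injective f ∧ ∀ i, G.Adj (f i) (f (i + 1))) then 1 else 0) := sum_comm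
    _ = ∑ f : Fin l → Fin n, Pr n (d / n)
          (fun G => Function.Injective f ∧ ∀ i, G.Adj (f i) (f (i + 1))) := by
        refine sum_congr rfl fun f _ => ?_
        rw [pr_eq]
        refine sum_congr rfl fun G _ => ?_
        congr
    _ ≤ ∑ _f : Fin l → Fin n, (d / n) ^ l :=
        sum_le_sum fun f _ => pr_cyc h0 h1 l hl f
    _ = d ^ l := by
        rw [sum_const, card_univ, Fintype.card_fun, Fintype.card_fin, Fintype.card_fin,
          nsmul_eq_mul]
        push_cast
        rw [div_pow, mul_div_cancel₀ _ (pow_ne_zero _ hn0.ne')]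

theorem card_shortV_le {n : ℕ} (G : SimpleGraph (Fin n)) :
    (shortV G).card ≤ (cyc 3 G).card + (cyc 4 G).card + (cyc 6 G).card := by
  classical
  have hsub : shortV G ⊆ ((cyc 3 G).image fun f => f 0) ∪ ((cyc 4 G).image fun f => f 0) ∪
      ((cyc 6 G).image fun f => f 0) := by
    intro v hv
    unfold shortV at hv
    rw [mem_filter] at hv
    rw [mem_union, mem_union]
    rcases hv.2 with ⟨a, b, h1, h2, h3⟩ | ⟨a, b, c, h1, h2, h3, h4, h5, h6⟩ | ⟨f, h1, h2, h3⟩
    · refine Or.inl (Or.inl (mem_image.2 ⟨![v, a, b], ?_, rfl⟩))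
      unfold cyc
      rw [mem_filter]
      refine ⟨mem_univ _, ?_, ?_⟩
      · have k1 := h1.ne
        have k2 := h2.ne
        have k3 := h3.ne
        intro i j hij
        fin_cases i <;> fin_cases j <;> simp_all
      · intro i
        fin_cases i
        · exact h1
        · exact h2
        · exact h3
    · refine Or.inl (Or.inr (mem_image.2 ⟨![v, a, b, c], ?_, rfl⟩))
      unfold cyc
      rw [mem_filter]
      refine ⟨mem_univ _, ?_, ?_⟩
      · have k1 := h3.ne
        have k2 := h4.ne
        have k3 := h5.ne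
        have k4 := h6.ne
        intro i j hij
        fin_cases i <;> fin_cases j <;> simp_all
      · intro i
        fin_cases i
        · exact h3
        · exact h4
        · exact h5
        · exact h6
    · refine Or.inr (mem_image.2 ⟨f, ?_, h2⟩)
      unfold cyc
      rw [mem_filter]
      exact ⟨mem_univ _, h1, h3⟩
  refine (card_le_card hsub).trans ((card_union_le _ _).trans ?_)
  refine Nat.add_le_add ((card_union_le _ _).trans ?_) card_image_le
  exact Nat.add_le_add card_image_le card_image_le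

end RG5Aux

open RG5Aux

theorem short_expect {d : ℝ} (hd : 0 ≤ d) (n : ℕ) (hn : d ≤ n) (hn1 : 1 ≤ n) :
    ∑ G : SimpleGraph (Fin n), ms n (d / n) G * ((shortV G).card : ℝ) ≤
      d ^ 3 + d ^ 4 + d ^ 6 := by
  have hn0 : (0 : ℝ) < n := by exact_mod_cast hn1
  have h0 : 0 ≤ d / n := div_nonneg hd hn0.le
  have h1 : d / n ≤ 1 := (div_le_one hn0).2 hn
  have e3 := cyc_expect 3 (by decide) hd n hn hn1
  have e4 := cyc_expect 4 (by decide) hd n hn hn1
  have e6 := cyc_expect 6 (by decide) hd n hn hn1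
  calc ∑ G : SimpleGraph (Fin n), ms n (d / n) G * ((shortV G).card : ℝ)
      ≤ ∑ G : SimpleGraph (Fin n), ms n (d / n) G *
        (((cyc 3 G).card : ℝ) + ((cyc 4 G).card : ℝ) + ((cyc 6 G).card : ℝ)) := by
        refine sum_le_sum fun G _ => mul_le_mul_of_nonneg_left ?_ (ms_nonneg n h0 h1 G)
        exact_mod_cast card_shortV_le G
    _ = ∑ G : SimpleGraph (Fin n), ms n (d / n) G * ((cyc 3 G).card : ℝ) +
        ∑ G : SimpleGraph (Fin n), ms n (d / n) G * ((cyc 4 G).card : ℝ) +
        ∑ G : SimpleGraph (Fin n), ms n (d / n) G * ((cyc 6 G).card : ℝ) := by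
        rw [← sum_add_distrib, ← sum_add_distrib]
        refine sum_congr rfl fun G _ => ?_
        ring
    _ ≤ _ := by linarith

theorem pr_short {d : ℝ} (hd : 0 ≤ d) (n : ℕ) (hn : d ≤ n) (hn1 : 1 ≤ n) :
    Pr n (d / n) (fun G => ¬ ((shortV G).card : ℝ) * d ≤ n) ≤
      (d ^ 3 + d ^ 4 + d ^ 6) * d / n := by
  classical
  have hn0 : (0 : ℝ) < n := by exact_mod_cast hn1
  have h0 : 0 ≤ d / n := div_nonneg hd hn0.le
  have h1 : d / n ≤ 1 := (div_le_one hn0).2 hn
  rw [pr_eq]
  have hpt : ∀ G : SimpleGraph (Fin n), ¬ ((shortV G).card : ℝ) * d ≤ n →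
      (1 : ℝ) ≤ ((shortV G).card : ℝ) * (d / n) := by
    intro G h
    rw [← mul_div_assoc, le_div_iff₀ hn0, one_mul]
    exact (not_le.1 h).le
  refine (sum_le_sum (g := fun G => ms n (d / n) G * (((shortV G).card : ℝ) * (d / n)))
    fun G _ => mul_le_mul_of_nonneg_left ?_ (ms_nonneg n h0 h1 G)).trans ?_
  · by_cases h : ((shortV G).card : ℝ) * d ≤ n
    · rw [if_neg (not_not.2 h)]
      positivity
    · rw [if_pos h]
      exact hpt G h
  calc ∑ G : SimpleGraph (Fin n), ms n (d / n) G * (((shortV G).card : ℝ) * (d / n))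
      = (∑ G : SimpleGraph (Fin n), ms n (d / n) G * ((shortV G).card : ℝ)) * (d / n) := by
        rw [sum_mul]
        refine sum_congr rfl fun G _ => ?_
        ring
    _ ≤ (d ^ 3 + d ^ 4 + d ^ 6) * (d / n) :=
        mul_le_mul_of_nonneg_right (short_expect hd n hn hn1) h0
    _ = _ := by rw [mul_div_assoc]

end Pool.Agent.SOSC
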