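import Pool.Agent.SOSC.RG1

/-!
# SOSC RG6: the first moment: `G(n, d/n)` is not `k`-colourable for `d > 2 k log k`

If `G` is `k`-colourable there is `c : Fin n → Fin k` such that no edge is monochromatic, i.e.
`Disjoint (A_c) (edg G)` with `A_c = {(i,j) : i < j, c i = c j}`.  `|A_c| = ∑_i (n_i choose 2)` with
the class sizes `n_i`, `∑ n_i = n`, so `|A_c| ≥ (n²/k - n)/2` (Cauchy–Schwarz).  `pr_disjoint`:
`P = (1 - d/n)^|A_c| ≤ exp(-(d/n) |A_c|) ≤ exp(-(d/n)(n²/k - n)/2) = exp(-d n/(2k) + d/2)`.
Union bound over `k^n` maps: `P(k-colourable) ≤ exp(n (log k - d/(2k)) + d/2)`.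
-/

set_option autoImplicit false
set_option linter.unusedSectionVars false

namespace Pool.Agent.SOSC

open Finset

/-- the monochromatic pairs -/
private def rg6A {n k : ℕ} (c : Fin n → Fin k) : Finset (Fin n × Fin n) :=
  (prs n).filter (fun x => c x.1 = c x.2)

private theorem rg6_count {n k : ℕ} (c : Fin n → Fin k) :
    (n : ℝ) ^ 2 ≤ k * (2 * (rg6A c).card + n) := by
  classical
  -- class sizes
  set N : Fin k → ℝ := fun a => ∑ i : Fin n, if c i = a then (1 : ℝ) else 0 with hN
  have hNsum : ∑ a, N a = n := by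
    rw [hN]
    simp only
    rw [sum_comm]
    simp
  have hCS : (∑ a, N a) ^ 2 ≤ k * ∑ a, N a ^ 2 := by
    have h := sq_sum_le_card_mul_sum_sq (s := (univ : Finset (Fin k))) (f := N)
    simpa using h
  have hsq : ∑ a, N a ^ 2 = ∑ i : Fin n, ∑ j : Fin n, if c i = c j then (1 : ℝ) else 0 := by
    have h1 : ∀ a, N a ^ 2 = ∑ i : Fin n, ∑ j : Fin n,
        (if c i = a then (1 : ℝ) else 0) * (if c j = a then (1 : ℝ) else 0) := by
      intro a
      rw [sq, hN]
      simp only
      rw [sum_mul_sum]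
    simp only [h1]
    rw [sum_comm]
    refine sum_congr rfl fun i _ => ?_
    rw [sum_comm]
    refine sum_congr rfl fun j _ => ?_
    by_cases hij : c i = c j
    · rw [if_pos hij]
      simp [hij]
    · rw [if_neg hij]
      apply sum_eq_zero
      intro a _
      by_cases ha : c i = a
      · have : c j ≠ a := fun h => hij (ha.trans h.symm)
        simp [this]
      · simp [ha]
  have hcard : ∑ i : Fin n, ∑ j : Fin n, (if c i = c j then (1 : ℝ) else 0) =
      2 * (rg6A c).card + n := by
    have h2 : ∀ i j : Fin n, (if c i = c j then (1 : ℝ) else 0) =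
        (if i < j ∧ c i = c j then (1 : ℝ) else 0) + (if j < i ∧ c j = c i then (1 : ℝ) else 0) +
          (if i = j then (1 : ℝ) else 0) := by
      intro i j
      rcases lt_trichotomy i j with h | h | h
      · have h3 : ¬ j < i := not_lt.2 h.le
        have h4 : i ≠ j := h.ne
        simp [h, h3, h4]
      · subst h
        simp
      · have h3 : ¬ i < j := not_lt.2 h.le
        have h4 : i ≠ j := h.ne'
        simp [h, h3, h4, eq_comm]
    simp only [h2, sum_add_distrib]
    have h5 : ∑ i : Fin n, ∑ j : Fin n, (if i < j ∧ c i = c j then (1 : ℝ) else 0) =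
        (rg6A c).card := by
      have h6 : ((rg6A c).card : ℝ) = ∑ x : Fin n × Fin n,
          if x.1 < x.2 ∧ c x.1 = c x.2 then (1 : ℝ) else 0 := by
        rw [← sum_filter, sum_const, nsmul_eq_mul, mul_one]
        congr 2
        unfold rg6A prs
        rw [filter_filter]
      rw [h6, Fintype.sum_prod_type]
    have h7 : ∑ i : Fin n, ∑ j : Fin n, (if j < i ∧ c j = c i then (1 : ℝ) else 0) =
        (rg6A c).card := by
      rw [sum_comm]
      exact h5
    rw [h5, h7]
    simp
    ring
  rw [hNsum, hsq, hcard] at hCS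
  exact hCS

theorem pr_colorable {k : ℕ} (hk : 1 ≤ k) {d : ℝ} (hd : 0 < d) (n : ℕ) (hn : d ≤ n) :
    Pr n (d / n) (fun G => G.Colorable k) ≤
      Real.exp (n * (Real.log k - d / (2 * k)) + d / 2) := by
  classical
  have hn0 : (0 : ℝ) < n := hd.trans_le hn
  have hk0 : (0 : ℝ) < k := by exact_mod_cast hk
  set p : ℝ := d / n with hp
  have hp0 : 0 ≤ p := by positivity
  have hp1 : p ≤ 1 := (div_le_one hn0).2 hn
  have h1 : Pr n p (fun G => G.Colorable k) ≤
      Pr n p (fun G => ∃ c ∈ (univ : Finset (Fin n → Fin k)), Disjoint (rg6A c) (edg G)) := by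
    apply pr_mono n hp0 hp1
    rintro G ⟨c⟩
    refine ⟨c, mem_univ _, ?_⟩
    rw [Finset.disjoint_left]
    intro x hx hx'
    have h2 := (mem_filter.1 hx).2
    have h3 := (mem_filter.1 hx').2
    exact c.valid h3 h2
  have h2 := pr_union n hp0 hp1 (univ : Finset (Fin n → Fin k))
    (fun c G => Disjoint (rg6A c) (edg G))
  have h3 : ∀ c ∈ (univ : Finset (Fin n → Fin k)),
      Pr n p (fun G => Disjoint (rg6A c) (edg G)) ≤
        Real.exp (-(d * n / (2 * k)) + d / 2) := by
    intro c _
    have hsub : rg6A c ⊆ prs n := filter_subset _ _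
    rw [pr_disjoint n p hsub]
    have h4 : (1 - p) ^ (rg6A c).card ≤ Real.exp (-(p * (rg6A c).card)) := by
      have h5 : 1 - p ≤ Real.exp (-p) := by
        have := Real.add_one_le_exp (-p)
        linarith
      have h6 : (1 - p) ^ (rg6A c).card ≤ (Real.exp (-p)) ^ (rg6A c).card :=
        pow_le_pow_left₀ (by linarith) h5 _
      rw [← Real.exp_nat_mul] at h6
      refine h6.trans (le_of_eq ?_)
      congr 1
      ring
    refine h4.trans ?_
    rw [Real.exp_le_exp]
    have h7 := rg6_count c
    have h8 : (n : ℝ) ^ 2 / k - n ≤ 2 * (rg6A c).card := by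
      rw [sub_le_iff_le_add, div_le_iff₀ hk0]
      linarith
    have h9 : p * ((n : ℝ) ^ 2 / k - n) ≤ p * (2 * (rg6A c).card) :=
      mul_le_mul_of_nonneg_left h8 hp0
    have h10 : p * ((n : ℝ) ^ 2 / k - n) = d * n / k - d := by
      rw [hp]
      field_simp
    have h11 : d * n / (2 * k) = (d * n / k) / 2 := by ring
    rw [h11]
    linarith
  have h4 : ∑ c ∈ (univ : Finset (Fin n → Fin k)),
      Pr n p (fun G => Disjoint (rg6A c) (edg G)) ≤
      (k : ℝ) ^ n * Real.exp (-(d * n / (2 * k)) + d / 2) := by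
    refine (sum_le_sum h3).trans (le_of_eq ?_)
    rw [sum_const, nsmul_eq_mul]
    congr 1
    simp
  refine (h1.trans (h2.trans h4)).trans (le_of_eq ?_)
  have h5 : (k : ℝ) ^ n = Real.exp (n * Real.log k) := by
    rw [mul_comm, Real.exp_mul, Real.exp_log hk0, Real.rpow_natCast]
  rw [h5, ← Real.exp_add]
  congr 1
  ring

end Pool.Agent.SOSC
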