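import Pool.Agent.SOSC.SosL

/-!
# SOSC SOSBAD: colour a bad set of vertices with extra colours

Apply `no_refutation_of_family` with `k = k' + k''` and
`y v i c = if v ∈ T then (if i = k' + χ v then 1 else 0) else (if i = c v (as a number) then 1 else 0)`
(compare the values `(i : ℕ)`, `k' + (χ v : ℕ)`, `(c v : ℕ)`; `(c v : ℕ) < k' ≤ k' + χ v < k' + k''`).
`y v i` depends only on `c v`, has the values `0, 1`, and exactly one `i` gives `1`.  For an edge `uv`
of `G`: both in `T`: `χ u ≠ χ v`; exactly one in `T`: different ranges; none in `T`: `uv` is an edge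
of `G'`, so `c u ≠ c v`.
-/

set_option autoImplicit false
set_option linter.unusedSectionVars false

namespace Pool.Agent.SOSC

open Finset

variable {V : Type*} [Fintype V] [DecidableEq V] {k k' : ℕ}

/-- The version used later: the vertices of `T` are coloured with the last `k''` colours, the other
vertices with the first `k'` colours; `G'` contains all edges of `G` outside `T`. -/
theorem no_refutation_of_bad_set {k'' : ℕ} [NeZero k'] (G G' : SimpleGraph V) {r : ℕ}
    (hr : 1 ≤ r)
    (hk : (4 * (2 * r) * 2 ^ (2 * r)) ^ 2 ≤ k') {H : Finset V → Fn V k'}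
    (hH : PEfam G' (2 * r) r H) (T : Finset V) (χ : V → Fin k'')
    (hχ : ∀ u ∈ T, ∀ v ∈ T, G.Adj u v → χ u ≠ χ v)
    (hG' : ∀ u v, u ∉ T → v ∉ T → G.Adj u v → G'.Adj u v) :
    ¬ SoSRefutes G (k' + k'') (2 * r) := by
  -- the number of the colour of `v`
  set val : V → (V → Fin k') → ℕ := fun v c =>
    if v ∈ T then k' + (χ v : ℕ) else (c v : ℕ) with hval
  have hlt : ∀ v c, val v c < k' + k'' := by
    intro v c
    simp only [hval]
    split_ifs
    · have := (χ v).isLt
      omega
    · have := (c v).isLt
      omega
  refine no_refutation_of_family (k := k' + k'') G G' hr hk hH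
    (fun v i c => if (i : ℕ) = val v c then 1 else 0) ?_ ?_ ?_ ?_
  · intro v i c c' hcc
    have h1 : c v = c' v := hcc v (Finset.mem_singleton_self v)
    simp only [hval, h1]
  · intro v i c
    split_ifs <;> norm_num
  · intro v c
    rw [Finset.sum_eq_single (⟨val v c, hlt v c⟩ : Fin (k' + k''))]
    · simp
    · intro i _ hi
      rw [if_neg]
      intro h
      exact hi (Fin.ext h)
    · intro h
      exact absurd (Finset.mem_univ _) h
  · intro u v huv i c hc
    by_cases h1 : (i : ℕ) = val u c
    · by_cases h2 : (i : ℕ) = val v c
      · exfalso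
        have h3 : val u c = val v c := h1.symm.trans h2
        simp only [hval] at h3
        by_cases hu : u ∈ T
        · by_cases hv : v ∈ T
          · rw [if_pos hu, if_pos hv] at h3
            exact hχ u hu v hv huv (Fin.ext (by omega))
          · rw [if_pos hu, if_neg hv] at h3
            have := (c v).isLt
            omega
        · by_cases hv : v ∈ T
          · rw [if_neg hu, if_pos hv] at h3
            have := (c u).isLt
            omega
          · rw [if_neg hu, if_neg hv] at h3
            exact hc (hG' u v hu hv huv) (Fin.ext h3)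
      · rw [if_neg h2, mul_zero]
    · rw [if_neg h1, zero_mul]

end Pool.Agent.SOSC
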