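import Pool.Agent.SOSC.RG3
import Pool.Agent.SOSC.RG4
import Pool.Agent.SOSC.RG5
import Pool.Agent.SOSC.RG6
import Pool.Agent.SOSC.GDet
import Pool.Agent.SOSC.GCol
import Pool.Agent.SOSC.GSpec
import Pool.Agent.SOSC.Param
import Pool.Agent.SOSC.SosBad

/-!
# SOSC MAIN: assembly
-/

set_option autoImplicit false
set_option linter.unusedSectionVars false

namespace Pool.Agent.SOSC

open Filter Topology

/-- Deterministic part: for large `n` a good graph has no refutation. -/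
theorem good_no_refutation {D k : ℕ} {d : ℝ} {r Δ γ k' k'' : ℕ} {α : ℝ} (hr : 1 ≤ r)
    (hD : D ≤ 2 * r) (hk1 : 1 ≤ k') (hkk : k' + k'' = k) (hd1 : 1 ≤ d) (hα : 0 < α) (hαd : α ≤ d)
    (hΔ : 40 * d ≤ Δ) (hK : 2 + 2 * α < k'') (hK0 : K0 (2 * r) ≤ k') (hkΔ : k' ≤ Δ)
    (hsmall : C0 r * ((Δ : ℝ) / k') ^ r * (1 / Real.sqrt k' + 1 / Real.sqrt Δ +
        (16 * α * (2 * γ + 1) + 16 * Δ / 2 ^ γ + 3 * Real.sqrt d + 3) / Δ) ≤ 1 / 2) :
    ∃ n₀ : ℕ, ∀ n : ℕ, n₀ ≤ n → ∀ G : SimpleGraph (Fin n), Good n d α Δ G →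
      ¬ SoSRefutes G k D := by
  have : NeZero k' := ⟨by omega⟩
  have hM : 0 ≤ 16 * α * (2 * γ + 1) + 16 * Δ / 2 ^ γ + 3 * Real.sqrt d + 3 := by positivity
  obtain ⟨n₀, h0⟩ := psd r k' Δ _ d hr hM (by linarith) hK0 hkΔ hsmall
  refine ⟨max n₀ (max 1 ⌈d⌉₊), fun n hn G hG => ?_⟩
  have hn0 : n₀ ≤ n := le_trans (le_max_left _ _) hn
  have hn1 : 1 ≤ n := le_trans (le_trans (le_max_left _ _) (le_max_right _ _)) hn
  have hnd : d ≤ n := le_trans (Nat.le_ceil d)
    (by exact_mod_cast le_trans (le_trans (le_max_right _ _) (le_max_right _ _)) hn)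
  have hdΔ : d ≤ Δ := by linarith
  have hαΔ : α ≤ Δ := by linarith
  have hT := bad_card (Δ := Δ) hn1 (by linarith : 0 < d) hG
  obtain ⟨χ, hχ⟩ := bad_colour hn1 (by linarith : 0 < d) hα hαΔ hK hG.disc hT
  have hdeg : ∀ v, v ∉ badT G Δ → (nb G v).card ≤ Δ := by
    intro v hv
    by_contra h
    push Not at h
    apply hv
    simp only [badT, Finset.mem_union, Finset.mem_filter, Finset.mem_univ, true_and]
    exact Or.inl h
  have hspec := spec_del γ hn1 (by linarith : 0 < d) hnd hdΔ hα hG.disc hT hdeg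
  obtain ⟨H, hH⟩ := h0 n hn0 (del G (badT G Δ)) (del_maxDeg G) (del_sparse6 G) hspec
  have hk2 : (4 * (2 * r) * 2 ^ (2 * r)) ^ 2 ≤ k' := le_trans (le_max_left _ _) hK0
  have h1 := no_refutation_of_bad_set G (del G (badT G Δ)) hr hk2 hH (badT G Δ) χ hχ
    (fun u v hu hv huv => ⟨hu, hv, huv⟩)
  rw [hkk] at h1
  exact fun h => h1 (refutes_mono hD h)

/-- The random graph is good and not `k`-colourable with probability tending to one. -/
theorem pr_good_tendsto {k Δ : ℕ} {d α : ℝ} (hk : 1 ≤ k) (hd1 : 1 ≤ d) (hα : 0 < α) (hαd : α ≤ d)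
    (h32 : 32 * d * Δ ≤ α ^ 3) (hΔ : 40 * d ≤ Δ) (hdk : 2 * k * Real.log k < d) :
    Tendsto (fun n : ℕ => Pr n (d / n) (fun G => Good n d α Δ G ∧ ¬ G.Colorable k)) atTop
      (𝓝 1) := by
  have hΔ0 : (0 : ℝ) < Δ := by linarith
  have hd0 : 0 < d := by linarith
  have hk0 : (0 : ℝ) < k := by exact_mod_cast hk
  set C : ℝ := (d ^ 3 + d ^ 4 + d ^ 6) * d with hC
  set c : ℝ := Real.log k - d / (2 * k) with hc
  have hc0 : c < 0 := by
    rw [hc, sub_neg, lt_div_iff₀ (by positivity)]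
    linarith
  -- the error tends to zero
  have hlim : Tendsto (fun n : ℕ => 1 - (2 / (n : ℝ) + (4 / n + (C / n +
      Real.exp (n * c + d / 2))))) atTop (𝓝 1) := by
    have h1 := tendsto_const_div_atTop_nhds_zero_nat (2 : ℝ)
    have h2 := tendsto_const_div_atTop_nhds_zero_nat (4 : ℝ)
    have h3 := tendsto_const_div_atTop_nhds_zero_nat C
    have h4 : Tendsto (fun n : ℕ => Real.exp (n * c + d / 2)) atTop (𝓝 0) := by
      refine Real.tendsto_exp_atBot.comp ?_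
      refine tendsto_atBot_add_const_right _ _ ?_
      exact (tendsto_natCast_atTop_atTop (R := ℝ)).atTop_mul_const_of_neg hc0
    have h5 := (tendsto_const_nhds (x := (1 : ℝ)) (f := atTop (α := ℕ))).sub
      (h1.add (h2.add (h3.add h4)))
    simpa using h5
  refine tendsto_of_tendsto_of_tendsto_of_le_of_le' hlim tendsto_const_nhds ?_ ?_
  · filter_upwards [eventually_ge_atTop (max 1 ⌈d⌉₊)] with n hn
    have hn1 : 1 ≤ n := le_trans (le_max_left _ _) hn
    have hnd : d ≤ n := le_trans (Nat.le_ceil d) (by exact_mod_cast le_trans (le_max_right _ _) hn)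
    have hn' : (0 : ℝ) < n := by exact_mod_cast hn1
    have h0 : (0:ℝ) ≤ d / n := by positivity
    have h1 : d / n ≤ 1 := by rw [div_le_one hn']; exact hnd
    have e1 := pr_disc hd0 hα hαd hΔ0 h32 n hnd
    have e2 := pr_high (Δ := (Δ : ℝ)) hd1 hΔ n hnd
    have e3 := pr_short hd0.le n hnd hn1
    have e4 := pr_colorable hk hd0 n hnd
    have f3 := pr_or n h0 h1 (fun G => ¬ ((shortV G).card : ℝ) * d ≤ n) (fun G => G.Colorable k)
    have f2 := pr_or n h0 h1 (fun G => ¬ HighOk n d Δ G)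
      (fun G => ¬ ((shortV G).card : ℝ) * d ≤ n ∨ G.Colorable k)
    have f1 := pr_or n h0 h1 (fun G => ¬ Disc n d α Δ G)
      (fun G => ¬ HighOk n d Δ G ∨ (¬ ((shortV G).card : ℝ) * d ≤ n ∨ G.Colorable k))
    have f0 := pr_mono n h0 h1 (A := fun G => ¬ (Good n d α Δ G ∧ ¬ G.Colorable k))
      (B := fun G => ¬ Disc n d α Δ G ∨
        (¬ HighOk n d Δ G ∨ (¬ ((shortV G).card : ℝ) * d ≤ n ∨ G.Colorable k))) (by
        intro G h
        by_contra h'
        push Not at h'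
        exact h ⟨⟨h'.1, h'.2.1, h'.2.2.1⟩, h'.2.2.2⟩)
    have g0 := pr_compl n (d / n) (fun G => Good n d α Δ G ∧ ¬ G.Colorable k)
    have e3' : (d ^ 3 + d ^ 4 + d ^ 6) * d / (n : ℝ) = C / n := rfl
    linarith
  · filter_upwards [eventually_ge_atTop (max 1 ⌈d⌉₊)] with n hn
    have hn1 : 1 ≤ n := le_trans (le_max_left _ _) hn
    have hnd : d ≤ n := le_trans (Nat.le_ceil d) (by exact_mod_cast le_trans (le_max_right _ _) hn)
    have hn' : (0 : ℝ) < n := by exact_mod_cast hn1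
    have h0 : (0:ℝ) ≤ d / n := by positivity
    have h1 : d / n ≤ 1 := by rw [div_le_one hn']; exact hnd
    have h4 := pr_nonneg n h0 h1 (fun G => ¬ (Good n d α Δ G ∧ ¬ G.Colorable k))
    have h5 := pr_compl n (d / n) (fun G => Good n d α Δ G ∧ ¬ G.Colorable k)
    linarith

theorem main (D : ℕ) (hD : 1 ≤ D) : ∃ k₀ : ℕ, ∀ k : ℕ, k₀ ≤ k → ∀ d : ℝ,
    2 * k * Real.log k < d → d ≤ (k : ℝ) ^ (1 + 1 / (4 * (D : ℝ))) →
    Tendsto (fun n : ℕ => Pr n (d / n) (fun G => ¬ G.Colorable k ∧ ¬ SoSRefutes G k D)) atTop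
      (𝓝 1) := by
  obtain ⟨k₁, h1⟩ := params D hD
  refine ⟨max k₁ 1, fun k hk d hd1 hd2 => ?_⟩
  obtain ⟨r, Δ, γ, k', k'', α, hr, hD2, hk1, hkk, hd, hα, hαd, h32, hΔ, hK, hK0, hkΔ, hsmall⟩ :=
    h1 k (le_trans (le_max_left _ _) hk) d hd1 hd2
  obtain ⟨n₀, h2⟩ := good_no_refutation hr hD2 hk1 hkk hd hα hαd hΔ hK hK0 hkΔ hsmall
  have h3 := pr_good_tendsto (le_trans (le_max_right _ _) hk) hd hα hαd h32 hΔ hd1
  refine tendsto_of_tendsto_of_tendsto_of_le_of_le' h3 tendsto_const_nhds ?_ ?_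
  · filter_upwards [eventually_ge_atTop (max n₀ (max 1 ⌈d⌉₊))] with n hn
    have hn1 : 1 ≤ n := le_trans (le_trans (le_max_left _ _) (le_max_right _ _)) hn
    have hnd : d ≤ n := le_trans (Nat.le_ceil d)
      (by exact_mod_cast le_trans (le_trans (le_max_right _ _) (le_max_right _ _)) hn)
    have hn' : (0 : ℝ) < n := by exact_mod_cast hn1
    exact pr_mono n (by positivity) (by rw [div_le_one hn']; exact hnd)
      fun G hG => ⟨hG.2, h2 n (le_trans (le_max_left _ _) hn) G hG.1⟩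
  · filter_upwards [eventually_ge_atTop (max 1 ⌈d⌉₊)] with n hn
    have hn1 : 1 ≤ n := le_trans (le_max_left _ _) hn
    have hnd : d ≤ n := le_trans (Nat.le_ceil d) (by exact_mod_cast le_trans (le_max_right _ _) hn)
    have hn' : (0 : ℝ) < n := by exact_mod_cast hn1
    have h0 : (0:ℝ) ≤ d / n := by positivity
    have h1 : d / n ≤ 1 := by rw [div_le_one hn']; exact hnd
    have h4 := pr_nonneg n h0 h1 (fun G => ¬ (¬ G.Colorable k ∧ ¬ SoSRefutes G k D))
    have h5 := pr_compl n (d / n) (fun G => ¬ G.Colorable k ∧ ¬ SoSRefutes G k D)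
    linarith

end Pool.Agent.SOSC
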