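import Mathlib

/-!
# SOSC MARKOV: a Markov inequality on the points `0, …, r`

`Q = ∑_{j ≤ r} Q(j) ℓ_j` (Lagrange interpolation at `0, …, r`), so `Q'(a) = ∑_j Q(j) ℓ_j'(a)` and
`Q'(a)² ≤ (∑_j ℓ_j'(a)²) (∑_j Q(j)²)`; take the maximum over `a ∈ {0,…,r}`.
-/

set_option autoImplicit false

namespace Pool.Agent.SOSC

open Finset

theorem markov (r : ℕ) : ∃ C : ℝ, 0 ≤ C ∧ ∀ Q : Polynomial ℝ, Q.natDegree ≤ r →
    ∀ a : ℕ, a ≤ r → (Q.derivative.eval (a : ℝ)) ^ 2 ≤
      C * ∑ j ∈ range (r + 1), (Q.eval (j : ℝ)) ^ 2 := by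
  classical
  let ℓ : ℕ → Polynomial ℝ := Lagrange.basis (range (r + 1)) (fun i : ℕ => (i : ℝ))
  refine ⟨∑ a ∈ range (r + 1), ∑ j ∈ range (r + 1), ((ℓ j).derivative.eval (a : ℝ)) ^ 2,
    Finset.sum_nonneg fun a _ => Finset.sum_nonneg fun j _ => sq_nonneg _, ?_⟩
  intro Q hQ a ha
  have hinj : Set.InjOn (fun i : ℕ => (i : ℝ)) (range (r + 1) : Set ℕ) := by
    intro x _ y _ h
    exact Nat.cast_injective h
  have hdeg : Q.degree < (range (r + 1)).card := by
    rw [card_range]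
    exact lt_of_le_of_lt Polynomial.degree_le_natDegree (by exact_mod_cast Nat.lt_succ_of_le hQ)
  have h1 : Q = ∑ j ∈ range (r + 1), Polynomial.C (Q.eval (j : ℝ)) * ℓ j := by
    have := Lagrange.eq_interpolate hinj hdeg
    rw [Lagrange.interpolate_apply] at this
    exact this
  have h2 : Q.derivative.eval (a : ℝ) =
      ∑ j ∈ range (r + 1), (ℓ j).derivative.eval (a : ℝ) * Q.eval (j : ℝ) := by
    conv_lhs => rw [h1]
    rw [Polynomial.derivative_sum, Polynomial.eval_finsetSum]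
    refine Finset.sum_congr rfl fun j _ => ?_
    rw [Polynomial.derivative_C_mul, Polynomial.eval_mul, Polynomial.eval_C, mul_comm]
  rw [h2]
  refine (Finset.sum_mul_sq_le_sq_mul_sq _ _ _).trans ?_
  apply mul_le_mul_of_nonneg_right _ (Finset.sum_nonneg fun j _ => sq_nonneg _)
  exact Finset.single_le_sum (f := fun a : ℕ => ∑ j ∈ range (r + 1),
    ((ℓ j).derivative.eval (a : ℝ)) ^ 2)
    (fun a _ => Finset.sum_nonneg fun j _ => sq_nonneg _)
    (Finset.mem_range.2 (Nat.lt_succ_of_le ha))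

end Pool.Agent.SOSC
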