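import Pool.Agent.SOSC.Vanish
import Pool.Agent.SOSC.Count2
import Pool.Agent.SOSC.Est

/-!
# SOSC OFF: the pairs `S ≠ T` which are not matched

Let `x_S = sqrt (E[q_S²])`; `∑ x_S² = nrm q`; `x_S = 0` for `|S| > r`.  `D = 2 r`.
Fix `a, b ≤ r` and consider the pairs with `|S \ T| = a`, `|T \ S| = b`, `S ≠ T`, not `Mat`,
`|S|, |T| ≤ r`.

(0) Not `Adm G S T`: the term is `0` (`vanish_of_not_adm`).

(I) `Adm`, not `Lead`: `est_off` gives at most `CE (2r) (√k)^{-(a+b+1)} x_S x_T`.  `schur` with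
`N = (|S|,|T| ≤ r, Adm, |S \ T| = a, |T \ S| = b)`, `R = 2^r (2rΔ)^b`, `C = 2^r (2rΔ)^a`
(`card_adm`, `adm_symm`): total at most
`CE 2^r (√(2rΔ))^{a+b} (√k)^{-(a+b+1)} nrm q ≤ CE 2^r (2r)^r (Δ/k)^r (1/√k) nrm q`
(`a + b ≤ 2r`, `1 ≤ Δ/k`, `1 ≤ 2r`).

(II) `Lead`, not `Mat`: `est_off` gives at most `CE (√k)^{-(a+b)} x_S x_T`, and by `lead_cases` the
pair is of type (i) `∃ s ∈ S \ T, s ∈ Dset G T` or (ii) the same with `S, T` exchanged.
Type (i): `schur` with `R = 2^r (2rΔ)^b` (`adm_of_lead`, `card_adm`) and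
`C = 2^r (2r²) (rΔ)^(a-1) ≤ 2^r (2r)² (2rΔ)^a / Δ` (`card_lead`, `a ≥ 1`): total at most
`CE 2^r (2r) (2r)^r (Δ/k)^r (1/√Δ) nrm q`.  Type (ii) is the same (exchange the roles;
`Lead G S T ↔ Lead G T S`).

Sum over the at most `(r+1)²` pairs `(a, b)`: at most
`(r+1)² CE 2^r (2r)^r (Δ/k)^r (1/√k + 4r/√Δ) nrm q ≤ C1 r (Δ/k)^r (1/√k + 1/√Δ) nrm q`.
-/

set_option autoImplicit false
set_option linter.unusedSectionVars false

namespace Pool.Agent.SOSC

open Finset

variable {V : Type*} [Fintype V] [DecidableEq V] {k : ℕ}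

/-- Constant of `off_bound`. -/
noncomputable def C1 (r : ℕ) : ℝ := 4 * r * (r + 1) ^ 2 * CE (2 * r) * 2 ^ r * (2 * r) ^ r

theorem off_sqrt_le {u m : ℝ} (hu : 0 ≤ u) (hm : 0 ≤ m) {n : ℕ} {P : ℝ}
    (h : P ≤ m ^ 2 * u ^ n) : Real.sqrt P ≤ m * Real.sqrt u ^ n := by
  rw [Real.sqrt_le_iff]
  refine ⟨by positivity, le_trans h (le_of_eq ?_)⟩
  rw [mul_pow, ← pow_mul, mul_comm n 2, pow_mul, Real.sq_sqrt hu]

open Classical in
theorem off_I (G : SimpleGraph V) {r Δ : ℕ} (hΔ : MaxDeg G Δ) {x : Finset V → ℝ}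
    (hx0 : ∀ S, 0 ≤ x S) (hxr : ∀ S : Finset V, r < S.card → x S = 0) (a b : ℕ) :
    ∑ S, ∑ T, (if S.card ≤ r ∧ T.card ≤ r ∧ Adm G S T ∧ (S \ T).card = a ∧ (T \ S).card = b
      then x S * x T else 0) ≤
      2 ^ r * Real.sqrt (2 * r * Δ) ^ (a + b) * ∑ S, x S ^ 2 := by
  have h := schur (fun S T : Finset V => S.card ≤ r ∧ T.card ≤ r ∧ Adm G S T ∧ (S \ T).card = a ∧
    (T \ S).card = b) x x (2 ^ r * (2 * r * Δ) ^ b) (2 ^ r * (2 * r * Δ) ^ a) (by positivity)
    (by positivity) ?_ ?_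
  · simp only [abs_of_nonneg (hx0 _)] at h
    refine le_trans h ?_
    rw [Real.mul_self_sqrt (sum_nonneg fun S _ => sq_nonneg (x S))]
    refine mul_le_mul_of_nonneg_right ?_ (sum_nonneg fun S _ => sq_nonneg _)
    refine off_sqrt_le (by positivity) (by positivity) (le_of_eq ?_)
    rw [pow_add]; ring
  · intro S hS
    have hSr : S.card ≤ r := by
      by_contra hc
      exact hS (hxr S (by omega))
    have h1 := card_adm hΔ hSr b
    have h2 : (univ.filter (fun T : Finset V => S.card ≤ r ∧ T.card ≤ r ∧ Adm G S T ∧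
        (S \ T).card = a ∧ (T \ S).card = b)).card ≤ 2 ^ r * (2 * r * Δ) ^ b := by
      refine le_trans (card_le_card ?_) h1
      intro T hT
      rw [mem_filter] at hT ⊢
      exact ⟨mem_univ _, hT.2.2.1, hT.2.2.2.1, hT.2.2.2.2.2⟩
    exact_mod_cast h2
  · intro T hT
    have hTr : T.card ≤ r := by
      by_contra hc
      exact hT (hxr T (by omega))
    have h1 := card_adm hΔ hTr a
    have h2 : (univ.filter (fun S : Finset V => S.card ≤ r ∧ T.card ≤ r ∧ Adm G S T ∧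
        (S \ T).card = a ∧ (T \ S).card = b)).card ≤ 2 ^ r * (2 * r * Δ) ^ a := by
      refine le_trans (card_le_card ?_) h1
      intro S hS
      rw [mem_filter] at hS ⊢
      exact ⟨mem_univ _, hS.2.1, adm_symm.1 hS.2.2.2.1, hS.2.2.2.2.1⟩
    exact_mod_cast h2

open Classical in
theorem off_II (G : SimpleGraph V) {r Δ : ℕ} (hr : 1 ≤ r) (hΔ1 : 1 ≤ Δ) (hΔ : MaxDeg G Δ)
    (hG : Sparse6 G) {x : Finset V → ℝ}
    (hx0 : ∀ S, 0 ≤ x S) (hxr : ∀ S : Finset V, r < S.card → x S = 0) (a b : ℕ) :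
    ∑ S, ∑ T, (if S.card ≤ r ∧ T.card ≤ r ∧ Lead G S T ∧ (S \ T).card = a ∧ (T \ S).card = b ∧
      ∃ s ∈ S \ T, s ∈ Dset G T then x S * x T else 0) ≤
      2 ^ r * (2 * r) / Real.sqrt Δ * Real.sqrt (2 * r * Δ) ^ (a + b) * ∑ S, x S ^ 2 := by
  have hΔr : (1 : ℝ) ≤ Δ := by exact_mod_cast hΔ1
  have hΔ0 : (0 : ℝ) < Δ := by linarith
  have hrr : (1 : ℝ) ≤ r := by exact_mod_cast hr
  have hxx : 0 ≤ ∑ S, x S ^ 2 := sum_nonneg fun S _ => sq_nonneg _
  rcases Nat.eq_zero_or_pos a with ha | ha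
  · have hz : ∀ S T : Finset V, (if S.card ≤ r ∧ T.card ≤ r ∧ Lead G S T ∧ (S \ T).card = a ∧
        (T \ S).card = b ∧ ∃ s ∈ S \ T, s ∈ Dset G T then x S * x T else 0) = 0 := by
      intro S T
      rw [if_neg]
      rintro ⟨-, -, -, h4, -, s, hs, -⟩
      rw [ha, card_eq_zero] at h4
      rw [h4] at hs
      exact absurd hs (notMem_empty _)
    simp only [hz, sum_const_zero]
    positivity
  have h := schur (fun S T : Finset V => S.card ≤ r ∧ T.card ≤ r ∧ Lead G S T ∧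
    (S \ T).card = a ∧ (T \ S).card = b ∧ ∃ s ∈ S \ T, s ∈ Dset G T) x x
    (2 ^ r * (2 * r * Δ) ^ b) (2 ^ r * (2 * r ^ 2) * (r * Δ) ^ (a - 1)) (by positivity)
    (by positivity) ?_ ?_
  · simp only [abs_of_nonneg (hx0 _)] at h
    refine le_trans h ?_
    rw [Real.mul_self_sqrt (sum_nonneg fun S _ => sq_nonneg (x S))]
    refine mul_le_mul_of_nonneg_right ?_ (sum_nonneg fun S _ => sq_nonneg _)
    refine off_sqrt_le (by positivity) (by positivity) ?_
    obtain ⟨a', rfl⟩ : ∃ a', a = a' + 1 := ⟨a - 1, by omega⟩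
    simp only [Nat.add_sub_cancel]
    rw [div_pow, Real.sq_sqrt hΔ0.le]
    have hrΔ : (0 : ℝ) < (r : ℝ) * Δ := mul_pos (by linarith) hΔ0
    have e1 : ((r : ℝ) * Δ) ^ a' ≤ (2 * (r : ℝ) * Δ) ^ a' := by
      apply pow_le_pow_left₀ (by positivity)
      nlinarith
    calc (2 : ℝ) ^ r * (2 * (r : ℝ) * Δ) ^ b * ((2 : ℝ) ^ r * (2 * (r : ℝ) ^ 2) * ((r : ℝ) * Δ) ^ a') ≤
        (2 : ℝ) ^ r * (2 * (r : ℝ) * Δ) ^ b *
          ((2 : ℝ) ^ r * (2 * (r : ℝ) ^ 2) * (2 * (r : ℝ) * Δ) ^ a') := by gcongr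
      _ ≤ (2 : ℝ) ^ r * (2 * (r : ℝ) * Δ) ^ b *
          ((2 : ℝ) ^ r * (2 * (r : ℝ) ^ 2) * (2 * (r : ℝ) * Δ) ^ a') * (4 * (r : ℝ)) := by
          apply le_mul_of_one_le_right (by positivity)
          linarith
      _ = ((2 : ℝ) ^ r * (2 * (r : ℝ))) ^ 2 / Δ * (2 * (r : ℝ) * Δ) ^ (a' + 1 + b) := by
          rw [pow_add, pow_succ]; field_simp; ring
  · intro S hS
    have hSr : S.card ≤ r := by
      by_contra hc
      exact hS (hxr S (by omega))
    have h1 := card_adm hΔ hSr b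
    have h2 : (univ.filter (fun T : Finset V => S.card ≤ r ∧ T.card ≤ r ∧ Lead G S T ∧
        (S \ T).card = a ∧ (T \ S).card = b ∧ ∃ s ∈ S \ T, s ∈ Dset G T)).card ≤
        2 ^ r * (2 * r * Δ) ^ b := by
      refine le_trans (card_le_card ?_) h1
      intro T hT
      rw [mem_filter] at hT ⊢
      exact ⟨mem_univ _, hT.2.2.1, adm_of_lead hT.2.2.2.1, hT.2.2.2.2.2.1⟩
    exact_mod_cast h2
  · intro T hT
    have hTr : T.card ≤ r := by
      by_contra hc
      exact hT (hxr T (by omega))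
    have h1 := card_lead hG hΔ hTr a
    have h2 : (univ.filter (fun S : Finset V => S.card ≤ r ∧ T.card ≤ r ∧ Lead G S T ∧
        (S \ T).card = a ∧ (T \ S).card = b ∧ ∃ s ∈ S \ T, s ∈ Dset G T)).card ≤
        2 ^ r * (2 * r ^ 2) * (r * Δ) ^ (a - 1) := by
      refine le_trans (card_le_card ?_) h1
      intro S hS
      rw [mem_filter] at hS ⊢
      exact ⟨mem_univ _, hS.2.1, hS.2.2.2.1, hS.2.2.2.2.1, hS.2.2.2.2.2.2⟩
    exact_mod_cast h2

/-- the ratio of the powers -/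
theorem off_ratio {r Δ k n : ℕ} (hr : 1 ≤ r) (hk : 1 ≤ k) (hkΔ : k ≤ Δ) (hn : n ≤ 2 * r) :
    Real.sqrt (2 * r * Δ) ^ n / Real.sqrt k ^ n ≤ (2 * r) ^ r * ((Δ : ℝ) / k) ^ r := by
  have hk0 : (0 : ℝ) < k := by exact_mod_cast hk
  have hkr : (k : ℝ) ≤ Δ := by exact_mod_cast hkΔ
  have hrr : (1 : ℝ) ≤ r := by exact_mod_cast hr
  rw [← div_pow, ← Real.sqrt_div (by positivity), ← mul_pow]
  have hy : (1 : ℝ) ≤ 2 * r * Δ / k := by
    rw [le_div_iff₀ hk0]
    nlinarith
  have hs : 1 ≤ Real.sqrt (2 * r * Δ / k) := Real.one_le_sqrt.2 hy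
  calc Real.sqrt (2 * r * Δ / k) ^ n ≤ Real.sqrt (2 * r * Δ / k) ^ (2 * r) :=
        pow_le_pow_right₀ hs hn
    _ = (2 * r * (Δ / k)) ^ r := by
        rw [pow_mul, Real.sq_sqrt (by positivity), mul_div_assoc]

open Classical in
theorem off_bound [NeZero k] (G : SimpleGraph V) {r Δ : ℕ} (hr : 1 ≤ r) (hk : K0 (2 * r) ≤ k)
    (hkΔ : k ≤ Δ) (hΔ : MaxDeg G Δ) (hG : Sparse6 G) {q : Finset V → Fn V k} (hq : Fam G r q) :
    ∑ S, ∑ T, (if S ≠ T ∧ ¬ Mat G S T then
        |ev (fun c => q S c * q T c * dens G 0 (S ∪ T) c)| else 0) ≤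
      C1 r * ((Δ : ℝ) / k) ^ r * (1 / Real.sqrt k + 1 / Real.sqrt Δ) * nrm q := by
  have hk1 : 1 ≤ k := Nat.one_le_iff_ne_zero.2 (NeZero.ne k)
  have hk0 : (0 : ℝ) < k := by exact_mod_cast hk1
  have hsk : 0 < Real.sqrt k := Real.sqrt_pos.2 hk0
  have hΔ1 : 1 ≤ Δ := le_trans hk1 hkΔ
  have hΔ0 : (0 : ℝ) < Δ := by exact_mod_cast hΔ1
  have hsΔ : 0 < Real.sqrt Δ := Real.sqrt_pos.2 hΔ0
  have hrr : (1 : ℝ) ≤ r := by exact_mod_cast hr
  have hK : (4 * (2 * r) * 2 ^ (2 * r)) ^ 2 ≤ k := le_trans (le_max_left _ _) hk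
  set x : Finset V → ℝ := fun S => Real.sqrt (ev fun c => q S c ^ 2) with hx
  have hx0 : ∀ S, 0 ≤ x S := fun S => Real.sqrt_nonneg _
  have hxr : ∀ S : Finset V, r < S.card → x S = 0 := by
    intro S hS
    rw [hx]
    simp only [hq.big S hS]
    simp [ev_zero]
  have hnrm : ∑ S, x S ^ 2 = nrm q := by
    unfold nrm
    exact sum_congr rfl fun S _ => Real.sq_sqrt (ev_nonneg fun c => sq_nonneg _)
  have hnn : 0 ≤ nrm q := by rw [← hnrm]; exact sum_nonneg fun S _ => sq_nonneg _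
  set P1 : ℕ → ℕ → Finset V → Finset V → Prop := fun a b S T =>
    S.card ≤ r ∧ T.card ≤ r ∧ Adm G S T ∧ (S \ T).card = a ∧ (T \ S).card = b with hP1
  set P2 : ℕ → ℕ → Finset V → Finset V → Prop := fun a b S T =>
    S.card ≤ r ∧ T.card ≤ r ∧ Lead G S T ∧ (S \ T).card = a ∧ (T \ S).card = b ∧
      ∃ s ∈ S \ T, s ∈ Dset G T with hP2
  set E : ℕ → ℕ → ℝ := fun a b => CE (2 * r) / Real.sqrt k ^ (a + b) with hE
  have hE0 : ∀ a b, 0 ≤ E a b := fun a b => by rw [hE]; positivity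
  set W : ℕ → ℕ → Finset V → Finset V → ℝ := fun a b S T =>
    E a b * (1 / Real.sqrt k) * (if P1 a b S T then x S * x T else 0) +
    E a b * (if P2 a b S T then x S * x T else 0) +
    E a b * (if P2 b a T S then x T * x S else 0) with hW
  have hif0 : ∀ (p : Prop) [Decidable p] (S T : Finset V), 0 ≤ (if p then x S * x T else 0) := by
    intro p _ S T
    split_ifs
    · exact mul_nonneg (hx0 S) (hx0 T)
    · exact le_rfl
  have hW0 : ∀ a b S T, 0 ≤ W a b S T := by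
    intro a b S T
    rw [hW]
    have e0 := hE0 a b
    have i1 := hif0 (P1 a b S T) S T
    have i2 := hif0 (P2 a b S T) S T
    have i3 := hif0 (P2 b a T S) T S
    positivity
  -- pointwise bound
  have hpt : ∀ S T : Finset V, (if S ≠ T ∧ ¬ Mat G S T then
      |ev (fun c => q S c * q T c * dens G 0 (S ∪ T) c)| else 0) ≤
      ∑ a ∈ range (r + 1), ∑ b ∈ range (r + 1), W a b S T := by
    intro S T
    have hnn' : 0 ≤ ∑ a ∈ range (r + 1), ∑ b ∈ range (r + 1), W a b S T :=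
      sum_nonneg fun a _ => sum_nonneg fun b _ => hW0 a b S T
    split_ifs with hc
    swap
    · exact hnn'
    by_cases hSr : r < S.card
    · have : (fun c => q S c * q T c * dens G 0 (S ∪ T) c) = fun _ => 0 := by
        funext c; rw [hq.big S hSr]; simp
      rw [this, ev_zero, abs_zero]; exact hnn'
    by_cases hTr : r < T.card
    · have : (fun c => q S c * q T c * dens G 0 (S ∪ T) c) = fun _ => 0 := by
        funext c; rw [hq.big T hTr]; simp
      rw [this, ev_zero, abs_zero]; exact hnn'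
    push Not at hSr hTr
    have hU : (S ∪ T).card ≤ 2 * r := le_trans (card_union_le _ _) (by omega)
    by_cases hA : Adm G S T
    swap
    · rw [vanish_of_not_adm G (by omega) hK hU (hq.w S) (hq.w T) hA, abs_zero]; exact hnn'
    have ha : (S \ T).card ∈ range (r + 1) := by
      rw [mem_range]
      have := card_le_card (sdiff_subset (s := S) (t := T)); omega
    have hb : (T \ S).card ∈ range (r + 1) := by
      rw [mem_range]
      have := card_le_card (sdiff_subset (s := T) (t := S)); omega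
    have hest := est_off G (by omega : 1 ≤ 2 * r) hk hU (hq.w S) (hq.w T)
    have hsing : W (S \ T).card (T \ S).card S T ≤
        ∑ a ∈ range (r + 1), ∑ b ∈ range (r + 1), W a b S T :=
      le_trans (single_le_sum (f := fun b => W (S \ T).card b S T) (fun b _ => hW0 _ b S T) hb)
        (single_le_sum (f := fun a => ∑ b ∈ range (r + 1), W a b S T)
          (fun a _ => sum_nonneg fun b _ => hW0 a b S T) ha)
    refine le_trans hest (le_trans ?_ hsing)
    have e0 := hE0 (S \ T).card (T \ S).card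
    have i1 := hif0 (P1 (S \ T).card (T \ S).card S T) S T
    have i2 := hif0 (P2 (S \ T).card (T \ S).card S T) S T
    have i3 := hif0 (P2 (T \ S).card (S \ T).card T S) T S
    by_cases hL : Lead G S T
    · rw [if_pos hL, mul_one]
      rcases lead_cases hG hL hc.2 with h | h
      · have hp : P2 (S \ T).card (T \ S).card S T := ⟨hSr, hTr, hL, rfl, rfl, h⟩
        have j1 : 0 ≤ E (S \ T).card (T \ S).card * (1 / Real.sqrt k) *
          (if P1 (S \ T).card (T \ S).card S T then x S * x T else 0) := by positivity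
        have j3 : 0 ≤ E (S \ T).card (T \ S).card *
          (if P2 (T \ S).card (S \ T).card T S then x T * x S else 0) := by positivity
        rw [hW]
        simp only
        rw [if_pos hp]
        linarith
      · have hL' : Lead G T S := ⟨hL.2, hL.1⟩
        have hp : P2 (T \ S).card (S \ T).card T S := ⟨hTr, hSr, hL', rfl, rfl, h⟩
        have j1 : 0 ≤ E (S \ T).card (T \ S).card * (1 / Real.sqrt k) *
          (if P1 (S \ T).card (T \ S).card S T then x S * x T else 0) := by positivity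
        have j2 : 0 ≤ E (S \ T).card (T \ S).card *
          (if P2 (S \ T).card (T \ S).card S T then x S * x T else 0) := by positivity
        rw [hW]
        simp only
        rw [if_pos hp]
        have : x T * x S = x S * x T := mul_comm _ _
        rw [this]
        linarith
    · rw [if_neg hL]
      have hp : P1 (S \ T).card (T \ S).card S T := ⟨hSr, hTr, hA, rfl, rfl⟩
      have j2 : 0 ≤ E (S \ T).card (T \ S).card *
          (if P2 (S \ T).card (T \ S).card S T then x S * x T else 0) := by positivity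
      have j3 : 0 ≤ E (S \ T).card (T \ S).card *
          (if P2 (T \ S).card (S \ T).card T S then x T * x S else 0) := by positivity
      rw [hW]
      simp only
      rw [if_pos hp]
      linarith
  -- sums
  have hsumW : ∀ a ∈ range (r + 1), ∀ b ∈ range (r + 1), ∑ S, ∑ T, W a b S T ≤
      CE (2 * r) * 2 ^ r * ((2 * r) ^ r * ((Δ : ℝ) / k) ^ r) *
        (1 / Real.sqrt k + 4 * r / Real.sqrt Δ) * nrm q := by
    intro a ha b hb
    rw [mem_range] at ha hb
    have hab : a + b ≤ 2 * r := by omega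
    have hba : b + a ≤ 2 * r := by omega
    have k1 := off_I G hΔ hx0 hxr a b
    have k2 := off_II G hr hΔ1 hΔ hG hx0 hxr a b
    have k3 := off_II G hr hΔ1 hΔ hG hx0 hxr b a
    rw [hnrm] at k1 k2 k3
    have hsw : ∑ S, ∑ T, (if P2 b a T S then x T * x S else 0) =
        ∑ T, ∑ S, (if P2 b a T S then x T * x S else 0) := sum_comm
    have hsplit : ∑ S, ∑ T, W a b S T =
        E a b * (1 / Real.sqrt k) * (∑ S, ∑ T, (if P1 a b S T then x S * x T else 0)) +
        E a b * (∑ S, ∑ T, (if P2 a b S T then x S * x T else 0)) +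
        E a b * (∑ T, ∑ S, (if P2 b a T S then x T * x S else 0)) := by
      rw [← hsw]
      simp only [hW, sum_add_distrib, mul_sum]
    rw [hsplit]
    have e0 := hE0 a b
    have hr1 := off_ratio (n := a + b) hr hk1 hkΔ hab
    have hEs : E a b * Real.sqrt (2 * r * Δ) ^ (a + b) ≤
        CE (2 * r) * ((2 * r) ^ r * ((Δ : ℝ) / k) ^ r) := by
      rw [hE]
      simp only
      rw [div_mul_eq_mul_div, mul_div_assoc]
      exact mul_le_mul_of_nonneg_left hr1 (Nat.cast_nonneg _)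
    have l1 : E a b * (1 / Real.sqrt k) * (∑ S, ∑ T, (if P1 a b S T then x S * x T else 0)) ≤
        CE (2 * r) * 2 ^ r * ((2 * r) ^ r * ((Δ : ℝ) / k) ^ r) * (1 / Real.sqrt k) * nrm q := by
      calc _ ≤ E a b * (1 / Real.sqrt k) *
            (2 ^ r * Real.sqrt (2 * r * Δ) ^ (a + b) * nrm q) :=
            mul_le_mul_of_nonneg_left k1 (by positivity)
        _ = (E a b * Real.sqrt (2 * r * Δ) ^ (a + b)) * (2 ^ r * (1 / Real.sqrt k) * nrm q) := by
            ring
        _ ≤ (CE (2 * r) * ((2 * r) ^ r * ((Δ : ℝ) / k) ^ r)) *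
            (2 ^ r * (1 / Real.sqrt k) * nrm q) :=
            mul_le_mul_of_nonneg_right hEs (by positivity)
        _ = _ := by ring
    have l2 : E a b * (∑ S, ∑ T, (if P2 a b S T then x S * x T else 0)) ≤
        CE (2 * r) * 2 ^ r * ((2 * r) ^ r * ((Δ : ℝ) / k) ^ r) * (2 * r / Real.sqrt Δ) * nrm q := by
      calc _ ≤ E a b * (2 ^ r * (2 * r) / Real.sqrt Δ * Real.sqrt (2 * r * Δ) ^ (a + b) * nrm q) :=
            mul_le_mul_of_nonneg_left k2 e0
        _ = (E a b * Real.sqrt (2 * r * Δ) ^ (a + b)) *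
            (2 ^ r * (2 * r / Real.sqrt Δ) * nrm q) := by ring
        _ ≤ (CE (2 * r) * ((2 * r) ^ r * ((Δ : ℝ) / k) ^ r)) *
            (2 ^ r * (2 * r / Real.sqrt Δ) * nrm q) :=
            mul_le_mul_of_nonneg_right hEs (by positivity)
        _ = _ := by ring
    have l3 : E a b * (∑ T, ∑ S, (if P2 b a T S then x T * x S else 0)) ≤
        CE (2 * r) * 2 ^ r * ((2 * r) ^ r * ((Δ : ℝ) / k) ^ r) * (2 * r / Real.sqrt Δ) * nrm q := by
      calc _ ≤ E a b * (2 ^ r * (2 * r) / Real.sqrt Δ * Real.sqrt (2 * r * Δ) ^ (b + a) * nrm q) :=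
            mul_le_mul_of_nonneg_left k3 e0
        _ = (E a b * Real.sqrt (2 * r * Δ) ^ (a + b)) *
            (2 ^ r * (2 * r / Real.sqrt Δ) * nrm q) := by rw [add_comm b a]; ring
        _ ≤ (CE (2 * r) * ((2 * r) ^ r * ((Δ : ℝ) / k) ^ r)) *
            (2 ^ r * (2 * r / Real.sqrt Δ) * nrm q) :=
            mul_le_mul_of_nonneg_right hEs (by positivity)
        _ = _ := by ring
    calc _ ≤ CE (2 * r) * 2 ^ r * ((2 * r) ^ r * ((Δ : ℝ) / k) ^ r) * (1 / Real.sqrt k) * nrm q +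
          CE (2 * r) * 2 ^ r * ((2 * r) ^ r * ((Δ : ℝ) / k) ^ r) * (2 * r / Real.sqrt Δ) * nrm q +
          CE (2 * r) * 2 ^ r * ((2 * r) ^ r * ((Δ : ℝ) / k) ^ r) * (2 * r / Real.sqrt Δ) * nrm q := by
          linarith
      _ = _ := by ring
  calc _ ≤ ∑ S, ∑ T, ∑ a ∈ range (r + 1), ∑ b ∈ range (r + 1), W a b S T :=
        sum_le_sum fun S _ => sum_le_sum fun T _ => hpt S T
    _ = ∑ a ∈ range (r + 1), ∑ b ∈ range (r + 1), ∑ S, ∑ T, W a b S T := by
        have s1 : ∀ S : Finset V, ∑ T, ∑ a ∈ range (r + 1), ∑ b ∈ range (r + 1), W a b S T =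
            ∑ a ∈ range (r + 1), ∑ b ∈ range (r + 1), ∑ T, W a b S T := by
          intro S
          rw [sum_comm]
          exact sum_congr rfl fun a _ => sum_comm
        simp only [s1]
        rw [sum_comm]
        exact sum_congr rfl fun a _ => sum_comm
    _ ≤ ∑ a ∈ range (r + 1), ∑ b ∈ range (r + 1),
        CE (2 * r) * 2 ^ r * ((2 * r) ^ r * ((Δ : ℝ) / k) ^ r) *
        (1 / Real.sqrt k + 4 * r / Real.sqrt Δ) * nrm q :=
        sum_le_sum fun a ha => sum_le_sum fun b hb => hsumW a ha b hb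
    _ = (r + 1) ^ 2 * (CE (2 * r) * 2 ^ r * ((2 * r) ^ r * ((Δ : ℝ) / k) ^ r) *
        (1 / Real.sqrt k + 4 * r / Real.sqrt Δ) * nrm q) := by
        simp only [sum_const, card_range, nsmul_eq_mul]
        push_cast; ring
    _ ≤ (r + 1) ^ 2 * (CE (2 * r) * 2 ^ r * ((2 * r) ^ r * ((Δ : ℝ) / k) ^ r) *
        (4 * r * (1 / Real.sqrt k + 1 / Real.sqrt Δ)) * nrm q) := by
        have h1 : 1 / Real.sqrt k + 4 * r / Real.sqrt Δ ≤
            4 * r * (1 / Real.sqrt k + 1 / Real.sqrt Δ) := by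
          have h2 : 1 / Real.sqrt k ≤ 4 * r * (1 / Real.sqrt k) :=
            le_mul_of_one_le_left (by positivity) (by linarith)
          have h3 : 4 * r / Real.sqrt Δ = 4 * r * (1 / Real.sqrt Δ) := by ring
          rw [h3, mul_add]
          linarith
        gcongr
    _ = _ := by unfold C1; ring

end Pool.Agent.SOSC
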