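import Pool.Agent.SOSC.PInd

/-!
# SOSC PCOEF: expansion of symmetric functions in the functions `ind π`

## exists_col
If `S.card ≤ k` and `SuppOn S σ` there is a colouring `c` with `kerS S c = σ`: give different
colours to the at most `S.card` classes of `σ` which meet `S` (e.g. an injection from the set of
classes `{⟦v⟧ : v ∈ S}` of the quotient into `Fin k`, extended arbitrarily).

## exists_coef
Let `f` depend only on `S` and be invariant under permutations of the colours.
(1) If `kerS S c = kerS S c'` then `f c = f c'`: there is a permutation `g` of `Fin k` with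
`g (c v) = c' v` for `v ∈ S` (the map `c v ↦ c' v`, `v ∈ S`, is a bijection between two subsets of
`Fin k` of the same size, extend it: `Equiv.Perm` extension, e.g. `Equiv.extendSubtype` or
`Function.Injective` extension lemmas), so `f c = f (g ∘ c) = f c'`.
(2) For `σ` with `SuppOn S σ` put `φ σ = f c` for some `c` with `kerS S c = σ`.
(3) The setoids form a finite partial order; define `a σ = φ σ - ∑_{π < σ} a π` for `SuppOn S σ` by
well-founded recursion on `<` (or prove the existence of `a` by induction), `a σ = 0` otherwise.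
All `π ≤ σ` are supported on `S` if `σ` is, so `∑_{π ≤ σ} a π = φ σ`.
(4) `∑_π a π ind π c = ∑_{π ≤ kerS S c} a π = φ (kerS S c) = f c` (`ind_eq_one_iff`; `ind` has the
values `0` and `1`; `a π = 0` if `π` is not supported on `S`).

## coef_unique
Let `σ` be a minimal setoid with `a σ ≠ 0` (so `SuppOn S σ`), `kerS S c = σ`.  Then
`0 = ∑_π a π ind π c = ∑_{π ≤ σ} a π = a σ`, contradiction.
-/

set_option autoImplicit false
set_option linter.unusedSectionVars false

namespace Pool.Agent.SOSC

open Finset

variable {V : Type*} [Fintype V] [DecidableEq V] {k : ℕ}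

theorem exists_col [NeZero k] {S : Finset V} (hS : S.card ≤ k) {σ : Setoid V}
    (hσ : SuppOn S σ) : ∃ c : V → Fin k, kerS S c = σ := by
  classical
  set q : V → Quotient σ := Quotient.mk σ with hq
  set Q : Finset (Quotient σ) := S.image q with hQ
  have hQk : Q.card ≤ k := card_image_le.trans hS
  set c : V → Fin k := fun v =>
    if h : q v ∈ Q then Fin.castLE hQk (Q.equivFin ⟨q v, h⟩) else 0 with hc
  have hmem : ∀ v ∈ S, q v ∈ Q := fun v hv => mem_image_of_mem q hv
  have key : ∀ u ∈ S, ∀ v ∈ S, c u = c v ↔ σ u v := by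
    intro u hu v hv
    simp only [hc, dif_pos (hmem u hu), dif_pos (hmem v hv)]
    constructor
    · intro h
      have h1 := Q.equivFin.injective (Fin.castLE_injective hQk h)
      have h2 : q u = q v := congrArg Subtype.val h1
      exact Quotient.exact h2
    · intro h
      have h2 : q u = q v := Quotient.sound h
      congr 2
      exact Subtype.ext h2
  refine ⟨c, Setoid.ext fun x y => ?_⟩
  constructor
  · rintro (rfl | ⟨hx, hy, h⟩)
    · exact σ.refl x
    · exact (key x hx y hy).1 h
  · intro h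
    rcases hσ x y h with rfl | ⟨hx, hy⟩
    · exact Or.inl rfl
    · exact Or.inr ⟨hx, hy, (key x hx y hy).2 h⟩

/-- Extension of a partial injection of the colours to a permutation. -/
private theorem exists_perm {S : Finset V} {c c' : V → Fin k} (h : kerS S c = kerS S c') :
    ∃ g : Equiv.Perm (Fin k), ∀ v ∈ S, g (c v) = c' v := by
  classical
  have h0 : ∀ u ∈ S, ∀ v ∈ S, c u = c v ↔ c' u = c' v := by
    intro u hu v hv
    have h1 : kerS S c u v ↔ kerS S c' u v := by rw [h]
    constructor
    · intro h2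
      rcases h1.1 (Or.inr ⟨hu, hv, h2⟩) with rfl | ⟨_, _, h3⟩
      · rfl
      · exact h3
    · intro h2
      rcases h1.2 (Or.inr ⟨hu, hv, h2⟩) with rfl | ⟨_, _, h3⟩
      · rfl
      · exact h3
  set f : Fin k → Fin k := fun i => if h : ∃ v ∈ S, c v = i then c' h.choose else i with hf
  have hfc : ∀ v ∈ S, f (c v) = c' v := by
    intro v hv
    have hex : ∃ w ∈ S, c w = c v := ⟨v, hv, rfl⟩
    simp only [hf, dif_pos hex]
    exact (h0 _ hex.choose_spec.1 v hv).1 hex.choose_spec.2
  have hinj : Set.InjOn f (S.image c : Finset (Fin k)) := by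
    intro i hi j hj hij
    obtain ⟨u, hu, rfl⟩ := mem_image.1 (mem_coe.1 hi)
    obtain ⟨v, hv, rfl⟩ := mem_image.1 (mem_coe.1 hj)
    rw [hfc u hu, hfc v hv] at hij
    exact (h0 u hu v hv).2 hij
  obtain ⟨g, hg⟩ := exists_equiv_extend_of_card_eq (t := (univ : Finset (Fin k)))
    (card_univ (α := Fin k)).symm (subset_univ ((S.image c).image f)) hinj
  refine ⟨g.trans (Equiv.subtypeUnivEquiv fun x => mem_univ x), fun v hv => ?_⟩
  have := hg (c v) (mem_image_of_mem c hv)
  rw [hfc v hv] at this
  exact this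

/-- Moebius inversion: existence. -/
private theorem exists_sum_le {α : Type*} [Fintype α] [PartialOrder α] [DecidableEq α]
    [DecidableRel (α := α) (· ≤ ·)] [DecidableRel (α := α) (· < ·)] (φ : α → ℝ) :
    ∃ a : α → ℝ, ∀ σ, ∑ π ∈ univ.filter (· ≤ σ), a π = φ σ := by
  have hwf : WellFounded ((· < ·) : α → α → Prop) := Finite.to_wellFoundedLT.wf
  set F : ∀ σ : α, (∀ π : α, π < σ → ℝ) → ℝ := fun σ ih =>
    φ σ - ∑ π ∈ (univ.filter (· < σ)).attach, ih π.1 (mem_filter.1 π.2).2 with hF
  refine ⟨hwf.fix F, fun σ => ?_⟩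
  have h1 : hwf.fix F σ = φ σ - ∑ π ∈ univ.filter (· < σ), hwf.fix F π := by
    rw [hwf.fix_eq]
    simp only [hF]
    rw [sum_attach (univ.filter (· < σ)) (fun π => hwf.fix F π)]
  have h2 : (univ.filter (· ≤ σ) : Finset α) = insert σ (univ.filter (· < σ)) := by
    ext π
    simp only [mem_filter, mem_univ, true_and, mem_insert]
    exact le_iff_eq_or_lt
  rw [h2, sum_insert (by simp), h1]
  ring

open Classical in
/-- The value of a combination of the functions `ind π`. -/
theorem sum_ind_eq {S : Finset V} {a : Setoid V → ℝ} (ha : ∀ π, ¬ SuppOn S π → a π = 0)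
    (c : V → Fin k) :
    ∑ π, a π * ind π c = ∑ π ∈ univ.filter (· ≤ kerS S c), a π := by
  rw [sum_filter]
  refine sum_congr rfl fun π _ => ?_
  by_cases hπ : SuppOn S π
  · have h1 := ind_eq_one_iff hπ c
    by_cases h2 : π ≤ kerS S c
    · rw [if_pos h2, h1.2 h2, mul_one]
    · rw [if_neg h2]
      have h3 : ind π c = 0 := by
        have h4 : ind π c ≠ 1 := fun h => h2 (h1.1 h)
        unfold ind at h4 ⊢
        split_ifs at h4 ⊢ with h5
        · exact absurd rfl h4
        · rfl
      rw [h3, mul_zero]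
  · rw [ha π hπ, zero_mul, ite_self]

theorem exists_coef [NeZero k] {S : Finset V} (hS : S.card ≤ k) {f : Fn V k} (hf : DepOn S f)
    (hinv : ∀ (g : Equiv.Perm (Fin k)) (c : V → Fin k), f (fun v => g (c v)) = f c) :
    ∃ a : Setoid V → ℝ, (∀ π, ¬ SuppOn S π → a π = 0) ∧ ∀ c, f c = ∑ π, a π * ind π c := by
  classical
  have _ := hS
  have h1 : ∀ c c' : V → Fin k, kerS S c = kerS S c' → f c = f c' := by
    intro c c' h
    obtain ⟨g, hg⟩ := exists_perm h
    rw [← hinv g c]
    exact hf _ _ hg
  set φ : Setoid V → ℝ := fun σ => if h : ∃ c : V → Fin k, kerS S c = σ then f h.choose else 0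
    with hφ
  have h2 : ∀ c : V → Fin k, φ (kerS S c) = f c := by
    intro c
    have hex : ∃ c' : V → Fin k, kerS S c' = kerS S c := ⟨c, rfl⟩
    simp only [hφ, dif_pos hex]
    exact h1 _ _ hex.choose_spec
  obtain ⟨a, ha⟩ := exists_sum_le φ
  refine ⟨fun π => if SuppOn S π then a π else 0, fun π hπ => if_neg hπ, fun c => ?_⟩
  rw [sum_ind_eq (fun π hπ => if_neg hπ) c, ← h2 c, ← ha (kerS S c)]
  refine sum_congr rfl fun π hπ => ?_
  rw [if_pos (suppOn_of_le (mem_filter.1 hπ).2 (suppOn_kerS S c))]

theorem coef_unique [NeZero k] {S : Finset V} (hS : S.card ≤ k) {a : Setoid V → ℝ}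
    (ha : ∀ π, ¬ SuppOn S π → a π = 0) (h : ∀ c : V → Fin k, ∑ π, a π * ind π c = 0) : a = 0 := by
  classical
  by_contra hne
  have hne' : ∃ σ, a σ ≠ 0 := by
    by_contra hcon
    push Not at hcon
    exact hne (funext hcon)
  have hwf : WellFounded ((· < ·) : Setoid V → Setoid V → Prop) := Finite.to_wellFoundedLT.wf
  obtain ⟨σ, hσ, hmin⟩ := hwf.has_min {σ | a σ ≠ 0} hne'
  have hσS : SuppOn S σ := by
    by_contra hcon
    exact hσ (ha σ hcon)
  obtain ⟨c, hc⟩ := exists_col hS hσS
  have h1 := h c
  rw [sum_ind_eq ha c, hc, sum_eq_single σ] at h1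
  · exact hσ h1
  · intro π hπ hπσ
    by_contra hcon
    exact hmin π hcon (lt_of_le_of_ne (mem_filter.1 hπ).2 hπσ)
  · intro h2
    exfalso
    apply h2
    rw [mem_filter]
    exact ⟨mem_univ σ, le_refl σ⟩

end Pool.Agent.SOSC
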