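import Pool.Agent.SOSC.Part

/-!
# SOSC PIND: the functions `ind π`

All statements are elementary.
* `depOn_ind`: a class containing a pair `u ≠ v` with `π u v` lies in `S`.
* `ind_eq_one_iff`: if `SuppOn S π`: `ind π c = 1 ↔ π ≤ kerS S c`.
* `av_ind_single`: if `v` is alone in its class then `ind π` does not depend on the colour of `v`.
* `av_ind_not_single`: let `u ≠ v`, `π u v`.  `ind π (Function.update c v i) = 1` iff `c` is
  constant on the classes of `delv v π` and `i = c u`.  Sum over `i`.
* `ind_mul_pr`: `c` is constant on the classes of `π` and `c u = c v` iff `c` is constant on the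
  classes of `π ⊔ pr u v` (both say that `π ≤ Setoid.ker c` and `pr u v ≤ Setoid.ker c`).
* `suppOn_*`: closure properties.
* `card_suppOn`: a setoid supported on `S` is determined by its restriction to `S × S`, a subset of
  a set with at most `D^2` elements.
* `ind_perm`: composing with a permutation of the colours changes nothing.
-/

set_option autoImplicit false
set_option linter.unusedSectionVars false

namespace Pool.Agent.SOSC

open Finset

variable {V : Type*} [Fintype V] [DecidableEq V] {k : ℕ}

theorem ind_nonneg (π : Setoid V) (c : V → Fin k) : 0 ≤ ind π c := by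
  unfold ind; split_ifs <;> norm_num

theorem ind_le_one (π : Setoid V) (c : V → Fin k) : ind π c ≤ 1 := by
  unfold ind; split_ifs <;> norm_num

private theorem ind_congr' {π σ : Setoid V} {c c' : V → Fin k}
    (h : (∀ u v, π u v → c u = c v) ↔ (∀ u v, σ u v → c' u = c' v)) : ind π c = ind σ c' := by
  unfold ind
  by_cases h1 : ∀ u v, π u v → c u = c v
  · rw [if_pos h1, if_pos (h.1 h1)]
  · rw [if_neg h1, if_neg (fun h2 => h1 (h.2 h2))]

theorem depOn_ind {S : Finset V} {π : Setoid V} (h : SuppOn S π) : DepOn S (ind π : Fn V k) := by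
  have key : ∀ c c' : V → Fin k, (∀ v ∈ S, c v = c' v) → (∀ u v, π u v → c u = c v) →
      ∀ u v, π u v → c' u = c' v := by
    intro c c' hc h1 u v huv
    rcases h u v huv with rfl | ⟨hu, hv⟩
    · rfl
    · rw [← hc u hu, ← hc v hv]
      exact h1 u v huv
  intro c c' hc
  exact ind_congr' ⟨key c c' hc, key c' c fun v hv => (hc v hv).symm⟩

theorem ind_eq_one_iff {S : Finset V} {π : Setoid V} (h : SuppOn S π) (c : V → Fin k) :
    ind π c = 1 ↔ π ≤ kerS S c := by
  unfold ind
  constructor
  · intro h1
    have h2 : ∀ u v, π u v → c u = c v := by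
      by_contra hcon
      rw [if_neg hcon] at h1
      norm_num at h1
    intro u v huv
    rcases h u v huv with rfl | ⟨hu, hv⟩
    · exact Or.inl rfl
    · exact Or.inr ⟨hu, hv, h2 u v huv⟩
  · intro h1
    rw [if_pos]
    intro u v huv
    rcases h1 huv with rfl | ⟨_, _, h2⟩
    · rfl
    · exact h2

theorem ind_bot (c : V → Fin k) : ind (⊥ : Setoid V) c = 1 := by
  unfold ind
  rw [if_pos]
  intro u v huv
  have : u = v := huv
  rw [this]

theorem av_ind_single [NeZero k] {π : Setoid V} {v : V} (h : Single π v) :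
    av v (ind π : Fn V k) = ind π := by
  refine av_of_dep (S := univ.erase v) (notMem_erase v univ) (depOn_ind ?_)
  intro x y hxy
  by_cases hne : x = y
  · exact Or.inl hne
  · refine Or.inr ⟨mem_erase.2 ⟨?_, mem_univ x⟩, mem_erase.2 ⟨?_, mem_univ y⟩⟩
    · rintro rfl
      exact hne (h y (π.symm hxy)).symm
    · rintro rfl
      exact hne (h x hxy)

theorem av_ind_not_single [NeZero k] {π : Setoid V} {v : V} (h : ¬ Single π v) :
    av v (ind π : Fn V k) = fun c => (1 / (k : ℝ)) * ind (delv v π) c := by
  unfold Single at h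
  push Not at h
  obtain ⟨u, huv, hne⟩ := h
  funext c
  simp only [av]
  have h1 : ∀ i : Fin k, ind π (Function.update c v i) =
      if i = c u then ind (delv v π) c else 0 := by
    intro i
    by_cases hi : i = c u
    · rw [if_pos hi]
      apply ind_congr'
      constructor
      · intro h2 x y hxy
        rcases hxy with rfl | ⟨hx, hy, hxy⟩
        · rfl
        · have h3 := h2 x y hxy
          rwa [Function.update_of_ne hx, Function.update_of_ne hy] at h3
      · intro h2 x y hxy
        by_cases hx : x = v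
        · by_cases hy : y = v
          · rw [hx, hy]
          · rw [hx, Function.update_self, Function.update_of_ne hy, hi]
            exact h2 u y (Or.inr ⟨hne, hy, π.trans huv (hx ▸ hxy)⟩)
        · by_cases hy : y = v
          · rw [hy, Function.update_self, Function.update_of_ne hx, hi]
            exact h2 x u (Or.inr ⟨hx, hne, π.trans (hy ▸ hxy) (π.symm huv)⟩)
          · rw [Function.update_of_ne hx, Function.update_of_ne hy]
            exact h2 x y (Or.inr ⟨hx, hy, hxy⟩)
    · rw [if_neg hi]
      unfold ind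
      rw [if_neg]
      intro h2
      have h3 := h2 v u (π.symm huv)
      rw [Function.update_self, Function.update_of_ne hne] at h3
      exact hi h3
  rw [sum_congr rfl fun i _ => h1 i, sum_ite_eq', if_pos (mem_univ _)]
  ring

theorem ind_mul_pr (π : Setoid V) (u v : V) (c : V → Fin k) :
    ind π c * (if c u = c v then 1 else 0) = ind (π ⊔ pr u v) c := by
  have h1 : (∀ x y, (π ⊔ pr u v) x y → c x = c y) ↔
      (∀ x y, π x y → c x = c y) ∧ c u = c v := by
    have e1 : (∀ x y, (π ⊔ pr u v) x y → c x = c y) ↔ π ⊔ pr u v ≤ Setoid.ker c :=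
      ⟨fun h x y hxy => h x y hxy, fun h x y hxy => h hxy⟩
    have e2 : (∀ x y, π x y → c x = c y) ↔ π ≤ Setoid.ker c :=
      ⟨fun h x y hxy => h x y hxy, fun h x y hxy => h hxy⟩
    have e3 : c u = c v ↔ pr u v ≤ Setoid.ker c := by
      constructor
      · intro h x y hxy
        rcases hxy with rfl | ⟨rfl, rfl⟩ | ⟨rfl, rfl⟩
        · exact rfl
        · exact h
        · exact h.symm
      · intro h
        exact h (show (pr u v) u v from Or.inr (Or.inl ⟨rfl, rfl⟩))
    rw [e1, e2, e3, sup_le_iff]
  unfold ind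
  by_cases h2 : ∀ x y, π x y → c x = c y
  · by_cases h3 : c u = c v
    · rw [if_pos h2, if_pos h3, if_pos (h1.2 ⟨h2, h3⟩), mul_one]
    · rw [if_neg h3, if_neg (fun h => h3 (h1.1 h).2), mul_zero]
  · rw [if_neg h2, if_neg (fun h => h2 (h1.1 h).1), zero_mul]

theorem suppOn_mono {S T : Finset V} (h : S ⊆ T) {π : Setoid V} (hπ : SuppOn S π) :
    SuppOn T π := by
  intro u v huv
  rcases hπ u v huv with h1 | ⟨h1, h2⟩
  · exact Or.inl h1
  · exact Or.inr ⟨h h1, h h2⟩

theorem suppOn_bot (S : Finset V) : SuppOn S (⊥ : Setoid V) := fun _ _ huv => Or.inl huv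

theorem suppOn_empty {π : Setoid V} (h : SuppOn ∅ π) : π = ⊥ := by
  apply le_antisymm _ bot_le
  intro u v huv
  rcases h u v huv with h1 | ⟨h1, _⟩
  · exact h1
  · exact absurd h1 (notMem_empty u)

theorem suppOn_of_le {S : Finset V} {π σ : Setoid V} (h : π ≤ σ) (hσ : SuppOn S σ) :
    SuppOn S π := fun u v huv => hσ u v (h huv)

theorem suppOn_kerS (S : Finset V) (c : V → Fin k) : SuppOn S (kerS S c) := by
  rintro u v (h | ⟨h1, h2, _⟩)
  · exact Or.inl h
  · exact Or.inr ⟨h1, h2⟩

theorem suppOn_erase {S : Finset V} {v : V} {π : Setoid V} (h : SuppOn S π) (hv : Single π v) :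
    SuppOn (S.erase v) π := by
  intro x y hxy
  by_cases hne : x = y
  · exact Or.inl hne
  · rcases h x y hxy with h1 | ⟨h1, h2⟩
    · exact Or.inl h1
    · refine Or.inr ⟨mem_erase.2 ⟨?_, h1⟩, mem_erase.2 ⟨?_, h2⟩⟩
      · rintro rfl
        exact hne (hv y (π.symm hxy)).symm
      · rintro rfl
        exact hne (hv x hxy)

theorem single_of_suppOn {S : Finset V} {v : V} {π : Setoid V} (h : SuppOn S π) (hv : v ∉ S) :
    Single π v := by
  intro u huv
  rcases h u v huv with h1 | ⟨_, h2⟩
  · exact h1
  · exact absurd h2 hv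

theorem suppOn_delv {S : Finset V} {v : V} {π : Setoid V} (h : SuppOn S π) :
    SuppOn (S.erase v) (delv v π) := by
  rintro x y (h1 | ⟨hx, hy, h1⟩)
  · exact Or.inl h1
  · rcases h x y h1 with h2 | ⟨h2, h3⟩
    · exact Or.inl h2
    · exact Or.inr ⟨mem_erase.2 ⟨hx, h2⟩, mem_erase.2 ⟨hy, h3⟩⟩

theorem suppOn_sup_pr {S : Finset V} {u v : V} (hu : u ∈ S) (hv : v ∈ S) {π : Setoid V}
    (h : SuppOn S π) : SuppOn S (π ⊔ pr u v) := by
  have h1 : π ⊔ pr u v ≤ kerS S (fun _ => (0 : Fin 1)) := by
    apply sup_le
    · intro x y hxy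
      rcases h x y hxy with h1 | ⟨h1, h2⟩
      · exact Or.inl h1
      · exact Or.inr ⟨h1, h2, rfl⟩
    · intro x y hxy
      rcases hxy with h1 | ⟨rfl, rfl⟩ | ⟨rfl, rfl⟩
      · exact Or.inl h1
      · exact Or.inr ⟨hu, hv, rfl⟩
      · exact Or.inr ⟨hv, hu, rfl⟩
  exact suppOn_of_le h1 (suppOn_kerS S _)

open Classical in
theorem card_suppOn {D : ℕ} {S : Finset V} (hS : S.card ≤ D) :
    (univ.filter (fun π : Setoid V => SuppOn S π)).card ≤ NP D := by
  have h1 : (univ.filter (fun π : Setoid V => SuppOn S π)).card ≤ ((S ×ˢ S).powerset).card := by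
    refine card_le_card_of_injOn (fun π => (S ×ˢ S).filter fun p => π p.1 p.2) ?_ ?_
    · intro π _
      exact mem_coe.2 (mem_powerset.2 (filter_subset _ _))
    · intro π hπ σ hσ heq
      have hπ' : SuppOn S π := (mem_filter.1 (mem_coe.1 hπ)).2
      have hσ' : SuppOn S σ := (mem_filter.1 (mem_coe.1 hσ)).2
      have key : ∀ x ∈ S, ∀ y ∈ S, π x y ↔ σ x y := by
        intro x hx y hy
        have h2 : (x, y) ∈ (S ×ˢ S).filter (fun p => π p.1 p.2) ↔
            (x, y) ∈ (S ×ˢ S).filter (fun p => σ p.1 p.2) := by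
          have heq' : (S ×ˢ S).filter (fun p => π p.1 p.2) =
            (S ×ˢ S).filter (fun p => σ p.1 p.2) := heq
          rw [heq']
        simpa [hx, hy] using h2
      apply Setoid.ext
      intro x y
      constructor
      · intro hxy
        rcases hπ' x y hxy with rfl | ⟨hx, hy⟩
        · exact σ.refl x
        · exact (key x hx y hy).1 hxy
      · intro hxy
        rcases hσ' x y hxy with rfl | ⟨hx, hy⟩
        · exact π.refl x
        · exact (key x hx y hy).2 hxy
  refine h1.trans ?_
  rw [card_powerset, card_product]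
  unfold NP
  refine Nat.pow_le_pow_right (by norm_num) ?_
  rw [sq]
  exact Nat.mul_le_mul hS hS

theorem ind_perm (π : Setoid V) (g : Equiv.Perm (Fin k)) (c : V → Fin k) :
    ind π (fun v => g (c v)) = ind π c := by
  apply ind_congr'
  constructor
  · intro h u v huv
    exact g.injective (h u v huv)
  · intro h u v huv
    rw [h u v huv]

end Pool.Agent.SOSC
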