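import Pool.Agent.SOSC.PCoef
import Pool.Agent.SOSC.Fam3

/-!
# SOSC PSYS: the coefficient system (all equations except type C)

Let `a S` be the coefficients of `dens G 0 S` (`exists_coef`, `dens_perm`, `dens_spec`), for
`|S| ≤ D` (`D ≤ k` follows from `hk`).

* `supp_base`: `dens G 0 ∅ = 1` and only `π = ⊥` is supported on `∅`.
* `marg_eq`: Apply `av v` to `dens G 0 S = ∑ a_π ind π`; with `dens_av` (`θ = 0`),
  `av_ind_single`, `av_ind_not_single`:
  `∑_τ b_τ ind τ = ∑_π a_π av v (ind π) = ∑_{Single π v} a_π ind π + (1/k) ∑_{not Single} a_π ind (delv v π)`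
  where `b` are the coefficients of `dens G 0 (S.erase v)`.  The difference of the two sides is a
  combination of `ind τ`, `SuppOn (S.erase v) τ` (`suppOn_erase`, `suppOn_delv`), so
  `coef_unique` gives the equality of the coefficients of `τ`, `SuppOn (S.erase v) τ`
  (`τ` is single at `v`).
* `edge_eq`: multiply by `1[c u = c v]`: `dens G 0 S c * 1[c u = c v] = 0` and `ind_mul_pr`; so
  `∑_σ (∑_{π ⊔ pr u v = σ} a_π) ind σ = 0`; the coefficients are supported on `S`
  (`suppOn_sup_pr`), use `coef_unique`.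
-/

set_option autoImplicit false
set_option linter.unusedSectionVars false

namespace Pool.Agent.SOSC

open Finset

variable {V : Type*} [Fintype V] [DecidableEq V] {k : ℕ}

/-- `a` are the coefficients of the function `f` of the colours of `S`. -/
def IsCoef (S : Finset V) (f : Fn V k) (a : Setoid V → ℝ) : Prop :=
  (∀ π, ¬ SuppOn S π → a π = 0) ∧ ∀ c, f c = ∑ π, a π * ind π c

private theorem le_k {D : ℕ} (hk : (4 * D * 2 ^ D) ^ 2 ≤ k) : D ≤ k := by
  refine le_trans ?_ hk
  have h1 : 1 ≤ 2 ^ D := Nat.one_le_two_pow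
  have h2 : D ≤ 4 * D * 2 ^ D := by nlinarith
  nlinarith

theorem exists_isCoef [NeZero k] (G : SimpleGraph V) {D : ℕ} (hD : 1 ≤ D)
    (hk : (4 * D * 2 ^ D) ^ 2 ≤ k) {S : Finset V} (hS : S.card ≤ D) :
    ∃ a, IsCoef S (dens G (0 : Fin k → ℝ) S) a :=
  exists_coef (hS.trans (le_k hk)) (dens_spec G hD hk 0 hS).dep
    (fun g c => dens_perm G hD hk hS g c)

theorem supp_base [NeZero k] (G : SimpleGraph V) {a : Setoid V → ℝ}
    (ha : IsCoef ∅ (dens G (0 : Fin k → ℝ) ∅) a) : a ⊥ = 1 := by
  classical
  have h1 := ha.2 (fun _ => 0)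
  rw [dens_empty, sum_eq_single ⊥] at h1
  · rw [ind_bot, mul_one] at h1
    exact h1.symm
  · intro π _ hπ
    rw [ha.1 π (fun h => hπ (suppOn_empty h)), zero_mul]
  · intro h
    exact absurd (mem_univ _) h

open Classical in
theorem marg_eq [NeZero k] (G : SimpleGraph V) {D : ℕ} (hD : 1 ≤ D)
    (hk : (4 * D * 2 ^ D) ^ 2 ≤ k) {S : Finset V} (hS : S.card ≤ D) {v : V} (hv : v ∈ S)
    {a b : Setoid V → ℝ} (ha : IsCoef S (dens G (0 : Fin k → ℝ) S) a)
    (hb : IsCoef (S.erase v) (dens G (0 : Fin k → ℝ) (S.erase v)) b) (τ : Setoid V)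
    (hτ : SuppOn (S.erase v) τ) :
    b τ = a τ + (1 / (k : ℝ)) * ∑ π : Setoid V, if ¬ Single π v ∧ delv v π = τ then a π else 0 := by
  set e : Setoid V → ℝ := fun τ => (if Single τ v then a τ else 0) +
    (1 / (k : ℝ)) * ∑ π : Setoid V, if ¬ Single π v ∧ delv v π = τ then a π else 0 with he
  have hsupp : ∀ τ, ¬ SuppOn (S.erase v) τ → e τ = 0 := by
    intro τ hτ
    have h1 : (if Single τ v then a τ else 0) = 0 := by
      split_ifs with h
      · exact ha.1 τ fun h2 => hτ (suppOn_erase h2 h)
      · rfl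
    have h2 : (∑ π : Setoid V, if ¬ Single π v ∧ delv v π = τ then a π else 0) = 0 := by
      refine sum_eq_zero fun π _ => ?_
      split_ifs with h
      · exact ha.1 π fun h2 => hτ (h.2 ▸ suppOn_delv h2)
      · rfl
    simp only [he, h1, h2, mul_zero, add_zero]
  have hsum : ∀ c : V → Fin k, ∑ τ, e τ * ind τ c = ∑ τ, b τ * ind τ c := by
    intro c
    rw [← hb.2 c, ← dens_av G hD hk (by simp) hS hv]
    have h1 : (dens G (0 : Fin k → ℝ) S) = fun c => ∑ π, a π * ind π c := funext ha.2
    rw [h1, av_sum]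
    have h2 : ∀ π, av v (fun c : V → Fin k => a π * ind π c) c =
        (if Single π v then a π else 0) * ind π c +
          (1 / (k : ℝ)) * (if ¬ Single π v then a π * ind (delv v π) c else 0) := by
      intro π
      rw [av_smul]
      by_cases h : Single π v
      · rw [av_ind_single h, if_pos h, if_neg (not_not.2 h), mul_zero, add_zero]
      · rw [av_ind_not_single h, if_neg h, if_pos h, zero_mul, zero_add]
        ring
    simp only [h2]
    rw [sum_add_distrib, ← mul_sum]
    simp only [he, add_mul]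
    rw [sum_add_distrib]
    congr 1
    simp only [mul_assoc]
    rw [← mul_sum]
    congr 1
    simp only [sum_mul]
    rw [sum_comm]
    refine sum_congr rfl fun π _ => ?_
    by_cases h : Single π v
    · simp [h]
    · simp only [h, not_false_eq_true, true_and, if_true, ite_mul, zero_mul]
      rw [sum_ite_eq, if_pos (mem_univ _)]
  have hzero : (fun τ => b τ - e τ) = 0 := by
    refine coef_unique (k := k) (S := S.erase v)
      ((card_le_card (erase_subset v S)).trans (hS.trans (le_k hk))) ?_ ?_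
    · intro π hπ
      simp only [hb.1 π hπ, hsupp π hπ, sub_zero]
    · intro c
      simp only [sub_mul]
      rw [sum_sub_distrib, hsum c, sub_self]
  have h1 := congrFun hzero τ
  simp only [Pi.zero_apply, he, if_pos (single_of_suppOn hτ (notMem_erase v S))] at h1
  linarith

open Classical in
theorem edge_eq [NeZero k] (G : SimpleGraph V) {D : ℕ} (hD : 1 ≤ D)
    (hk : (4 * D * 2 ^ D) ^ 2 ≤ k) {S : Finset V} (hS : S.card ≤ D) {u v : V} (hu : u ∈ S)
    (hv : v ∈ S) (huv : G.Adj u v) {a : Setoid V → ℝ}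
    (ha : IsCoef S (dens G (0 : Fin k → ℝ) S) a) (σ : Setoid V) :
    (∑ π : Setoid V, if π ⊔ pr u v = σ then a π else 0) = 0 := by
  set e : Setoid V → ℝ := fun σ => ∑ π : Setoid V, if π ⊔ pr u v = σ then a π else 0 with he
  have hzero : e = 0 := by
    refine coef_unique (k := k) (S := S) (hS.trans (le_k hk)) ?_ ?_
    · intro τ hτ
      refine sum_eq_zero fun π _ => ?_
      split_ifs with h
      · exact ha.1 π fun h2 => hτ (h ▸ suppOn_sup_pr hu hv h2)
      · rfl
    · intro c
      have h1 : ∑ τ, e τ * ind τ c = ∑ π, a π * ind (π ⊔ pr u v) c := by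
        simp only [he, sum_mul, ite_mul, zero_mul]
        rw [sum_comm]
        refine sum_congr rfl fun π _ => ?_
        rw [sum_ite_eq, if_pos (mem_univ _)]
      rw [h1]
      have h2 : ∀ π, a π * ind (π ⊔ pr u v) c = (a π * ind π c) *
          (if c u = c v then 1 else 0) := by
        intro π
        rw [← ind_mul_pr, mul_assoc]
      rw [sum_congr rfl fun π _ => h2 π, ← sum_mul, ← ha.2 c]
      split_ifs with h
      · rw [(dens_spec G hD hk 0 hS).prop c (fun hp => hp u hu v hv huv h), zero_mul]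
      · rw [mul_zero]
  exact congrFun hzero σ

end Pool.Agent.SOSC
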