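import Pool.Agent.SOSC.PSys

/-!
# SOSC PSYS2: type C coefficients vanish; the coefficient system

## typeC_eq
Let `S ≠ ∅`, `h = dens G 0 S`, and let `K` be the span of the functions `ind π` with
`SuppOn S π` and (`Single π v` for some `v ∈ S`, or `π u v` for some adjacent `u, v`).
Decompose `h = κ + κ'` with `κ ∈ K` and `κ'` orthogonal to `K` for the inner product
`E[f g]` (e.g. orthogonal projection in `EuclideanSpace ℝ (V → Fin k)`, whose inner product is
`k^n E[f g]`).  `κ'` is a linear combination `∑ b_π ind π` of functions with `SuppOn S π`.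

Claim: `κ' ∈ W_S`.  It depends only on `S`.  Let `u, v ∈ S` be adjacent and `g = κ' 1[c u = c v]`.
By `ind_mul_pr`, `g` is a combination of the `ind (π ⊔ pr u v)`, so `g ∈ K` and
`0 = E[κ' g] = E[g²]`, so `g = 0`: `κ'` vanishes if `c u = c v`; hence `κ' = 0` on improper
colourings of `S`.  Let `v ∈ S` and `g = av v κ'`.  By `av_ind_single`, `av_ind_not_single`, `g`
is a combination of functions `ind π` with `Single π v`, `SuppOn S π`, so `g ∈ K` and
`0 = E[κ' g] = E[av v (κ' g)] = E[g²]` (`g` does not depend on the colour of `v`), so `g = 0`.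

Now `E[κ' h] = E[κ' rho 0 S] = E[κ'] = 0` (`IsDens.pair` with `T = S`; `κ'` is pure in some
`v ∈ S`), and `E[κ' κ] = 0`, so `E[κ'²] = 0`, `κ' = 0` and `h = κ ∈ K`.  By `coef_unique` the
coefficients of `h` vanish at all `σ` which are not among the generators of `K`.

## coefs_exist
Collect `exists_isCoef` (choose `a S` for `|S| ≤ D`, `0` otherwise), `supp_base`, `marg_eq`,
`edge_eq`, `typeC_eq`.
-/

set_option autoImplicit false
set_option linter.unusedSectionVars false

namespace Pool.Agent.SOSC

open Finset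

variable {V : Type*} [Fintype V] [DecidableEq V] {k : ℕ}

namespace PSys2Aux

/-- The generators. -/
def Gen (G : SimpleGraph V) (S : Finset V) (π : Setoid V) : Prop :=
  SuppOn S π ∧ ((∃ v ∈ S, Single π v) ∨ ∃ u v, G.Adj u v ∧ π u v)

open Classical in
/-- The linear map whose range is the span of the generators. -/
noncomputable def LL (G : SimpleGraph V) (S : Finset V) (k : ℕ) :
    (Setoid V → ℝ) →ₗ[ℝ] EuclideanSpace ℝ (V → Fin k) where
  toFun b := WithLp.toLp 2 (fun c => ∑ π, (if Gen G S π then b π else 0) * ind π c)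
  map_add' b b' := by
    ext c
    simp only [Pi.add_apply, PiLp.add_apply]
    rw [← sum_add_distrib]
    refine sum_congr rfl fun π _ => ?_
    split_ifs <;> ring
  map_smul' r b := by
    ext c
    simp only [Pi.smul_apply, PiLp.smul_apply, smul_eq_mul, RingHom.id_apply]
    rw [mul_sum]
    refine sum_congr rfl fun π _ => ?_
    split_ifs <;> ring

/-- `g` is a combination of the generators. -/
def InK (G : SimpleGraph V) (S : Finset V) (g : Fn V k) : Prop :=
  (WithLp.toLp 2 g : EuclideanSpace ℝ (V → Fin k)) ∈ LinearMap.range (LL G S k)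

theorem InK.ind {G : SimpleGraph V} {S : Finset V} {σ : Setoid V} (h : Gen G S σ) :
    InK G S (SOSC.ind σ : Fn V k) := by
  classical
  refine ⟨fun π => if π = σ then 1 else 0, ?_⟩
  ext c
  show ∑ π, (if Gen G S π then (if π = σ then (1 : ℝ) else 0) else 0) * SOSC.ind π c
    = SOSC.ind σ c
  rw [sum_eq_single σ]
  · rw [if_pos h, if_pos rfl, one_mul]
  · intro π _ hπ
    rw [if_neg hπ]
    split_ifs <;> simp
  · intro h2
    exact absurd (mem_univ σ) h2

theorem InK.sum {G : SimpleGraph V} {S : Finset V} {ι : Type*} (s : Finset ι)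
    (b : ι → ℝ) (f : ι → Fn V k) (h : ∀ i ∈ s, b i = 0 ∨ InK G S (f i)) :
    InK G S (fun c => ∑ i ∈ s, b i * f i c) := by
  have e : (WithLp.toLp 2 (fun c => ∑ i ∈ s, b i * f i c) : EuclideanSpace ℝ (V → Fin k))
      = ∑ i ∈ s, b i • (WithLp.toLp 2 (f i) : EuclideanSpace ℝ (V → Fin k)) := by
    ext c
    simp
  unfold InK
  rw [e]
  refine Submodule.sum_mem _ fun i hi => ?_
  rcases h i hi with h1 | h1
  · rw [h1, zero_smul]
    exact Submodule.zero_mem _
  · exact Submodule.smul_mem _ _ h1

/-- orthogonal decomposition -/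
theorem decomp [NeZero k] (G : SimpleGraph V) (S : Finset V) (h : Fn V k) :
    ∃ b : Setoid V → ℝ, (∀ π, ¬ Gen G S π → b π = 0) ∧
      ∀ g : Fn V k, InK G S g → ev (fun c => (h c - ∑ π, b π * ind π c) * g c) = 0 := by
  classical
  obtain ⟨y, hy, z, hz, hyz⟩ := Submodule.exists_add_mem_mem_orthogonal
    (K := LinearMap.range (LL G S k)) (WithLp.toLp 2 h : EuclideanSpace ℝ (V → Fin k))
  obtain ⟨b, rfl⟩ := hy
  refine ⟨fun π => if Gen G S π then b π else 0, fun π hπ => if_neg hπ, fun g hg => ?_⟩
  have h1 : ∀ c, z c = h c - ∑ π, (if Gen G S π then b π else 0) * ind π c := by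
    intro c
    have h2 := congrArg (fun w : EuclideanSpace ℝ (V → Fin k) => w c) hyz
    have h3 : h c = (∑ π, (if Gen G S π then b π else 0) * ind π c) + z c := h2
    rw [h3]
    ring
  have h4 := (Submodule.mem_orthogonal _ z).1 hz _ hg
  rw [PiLp.inner_apply] at h4
  unfold ev
  have h5 : ∑ c, (h c - ∑ π, (if Gen G S π then b π else 0) * ind π c) * g c = 0 := by
    refine Eq.trans (sum_congr rfl fun c _ => ?_) h4
    rw [← h1 c]
    simp [mul_comm]
  rw [h5, zero_div]

end PSys2Aux

open PSys2Aux

theorem typeC_eq [NeZero k] (G : SimpleGraph V) {D : ℕ} (hD : 1 ≤ D)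
    (hk : (4 * D * 2 ^ D) ^ 2 ≤ k) {S : Finset V} (hS : S.card ≤ D) (hne : S.Nonempty)
    {a : Setoid V → ℝ} (ha : IsCoef S (dens G (0 : Fin k → ℝ) S) a) (σ : Setoid V)
    (h1 : ∀ v ∈ S, ¬ Single σ v) (h2 : ∀ u v, G.Adj u v → ¬ σ u v) : a σ = 0 := by
  classical
  have hSk : S.card ≤ k := by
    refine hS.trans (le_trans ?_ hk)
    have e1 : 1 ≤ 2 ^ D := Nat.one_le_two_pow
    have e2 : D ≤ 4 * D * 2 ^ D := by nlinarith
    nlinarith
  set h : Fn V k := dens G (0 : Fin k → ℝ) S with hh
  have hdens : IsDens G (0 : Fin k → ℝ) S h := dens_spec G hD hk 0 hS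
  obtain ⟨b, hb0, horth⟩ := decomp G S h
  set b' : Setoid V → ℝ := fun π => a π - b π with hb'
  have hb'S : ∀ π, ¬ SuppOn S π → b' π = 0 := by
    intro π hπ
    show a π - b π = 0
    rw [ha.1 π hπ, hb0 π (fun hg => hπ hg.1), sub_zero]
  set f : Fn V k := fun c => ∑ π, b' π * ind π c with hf
  have hfh : ∀ c, h c - ∑ π, b π * ind π c = f c := by
    intro c
    rw [ha.2 c, hf]
    simp only [hb']
    rw [← sum_sub_distrib]
    refine sum_congr rfl fun π _ => ?_
    ring
  have horth' : ∀ g : Fn V k, InK G S g → ev (fun c => f c * g c) = 0 := by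
    intro g hg
    rw [← horth g hg]
    exact ev_congr fun c => by rw [hfh c]
  have hdep : DepOn S f := by
    refine DepOn.sum (f := fun π c => b' π * ind π c) fun π _ => ?_
    by_cases hπ : SuppOn S π
    · exact (depOn_ind hπ).smul _
    · intro c c' _
      simp only [hb'S π hπ, zero_mul]
  have hW : IsW G S f := by
    refine ⟨hdep, fun c hc => ?_, fun v hv => ?_⟩
    · unfold Proper at hc
      push Not at hc
      obtain ⟨u, hu, v, hv, huv, hcuv⟩ := hc
      set g : Fn V k := fun c => f c * (if c u = c v then 1 else 0) with hg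
      have hgK : InK G S g := by
        have e : g = fun c => ∑ π, b' π * ind (π ⊔ pr u v) c := by
          funext c
          rw [hg, hf]
          simp only
          rw [sum_mul]
          refine sum_congr rfl fun π _ => ?_
          rw [mul_assoc, ind_mul_pr]
        rw [e]
        refine InK.sum _ _ _ fun π _ => ?_
        by_cases hπ : SuppOn S π
        · right
          refine InK.ind ⟨suppOn_sup_pr hu hv hπ, Or.inr ⟨u, v, huv, ?_⟩⟩
          have h3 : pr u v ≤ π ⊔ pr u v := le_sup_right
          exact h3 (Or.inr (Or.inl ⟨rfl, rfl⟩))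
        · exact Or.inl (hb'S π hπ)
      have h3 := horth' g hgK
      have h4 : g = 0 := by
        apply eq_zero_of_ev_sq
        rw [← h3]
        refine ev_congr fun c => ?_
        rw [hg]
        simp only
        split_ifs <;> ring
      have h5 := congrFun h4 c
      rw [hg] at h5
      simp only [hcuv, if_true, mul_one, Pi.zero_apply] at h5
      exact h5
    · set g : Fn V k := av v f with hg
      have hgK : InK G S g := by
        have e : g = fun c => ∑ π, b' π * av v (ind π : Fn V k) c := by
          rw [hg, hf, av_sum]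
          funext c
          refine sum_congr rfl fun π _ => ?_
          rw [av_smul]
        rw [e]
        refine InK.sum _ _ _ fun π _ => ?_
        by_cases hπ : SuppOn S π
        · right
          by_cases hs : Single π v
          · rw [av_ind_single hs]
            exact InK.ind ⟨hπ, Or.inl ⟨v, hv, hs⟩⟩
          · rw [av_ind_not_single hs]
            have hgen : Gen G S (delv v π) := by
              refine ⟨suppOn_mono (erase_subset v S) (suppOn_delv hπ), Or.inl ⟨v, hv, ?_⟩⟩
              rintro u (h3 | ⟨_, h3, _⟩)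
              · exact h3
              · exact absurd rfl h3
            have h4 := InK.sum (G := G) (S := S) {()} (fun _ => 1 / (k : ℝ))
              (fun _ => (ind (delv v π) : Fn V k)) (fun _ _ => Or.inr (InK.ind hgen))
            simpa using h4
        · exact Or.inl (hb'S π hπ)
      have hgdep : DepOn (S.erase v) g := hdep.av v
      have h3 := horth' g hgK
      apply eq_zero_of_ev_sq
      have h4 : av v (fun c => g c * f c) = fun c => g c * av v f c :=
        av_mul (notMem_erase v S) hgdep f
      have h5 : ev (fun c => g c * f c) = ev (fun c => g c ^ 2) := by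
        rw [← ev_av v, h4]
        refine ev_congr fun c => ?_
        rw [← hg]
        ring
      rw [← h5, ← h3]
      exact ev_congr fun c => mul_comm _ _
  have hfK : InK (k := k) G S (fun c => ∑ π, b π * ind π c) := by
    refine InK.sum _ _ _ fun π _ => ?_
    by_cases hπ : Gen G S π
    · exact Or.inr (InK.ind hπ)
    · exact Or.inl (hb0 π hπ)
  have hf0 : f = 0 := by
    apply eq_zero_of_ev_sq
    have e1 : ev (fun c => f c * h c) = 0 := by
      rw [hdens.pair S (Finset.Subset.refl S) f hW]
      obtain ⟨v, hv⟩ := hne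
      have e2 : ev (fun c => f c * rho (0 : Fin k → ℝ) S c) = ev f := by
        refine ev_congr fun c => ?_
        unfold rho
        simp
      rw [e2, ← ev_av v, hW.pure v hv]
      exact ev_zero
    have e3 := horth' _ hfK
    have e4 : ev (fun c => f c ^ 2) = ev (fun c => f c * h c) -
        ev (fun c => f c * ∑ π, b π * ind π c) := by
      rw [← ev_sub]
      refine ev_congr fun c => ?_
      rw [← mul_sub, hfh c]
      ring
    rw [e4, e1, e3, sub_zero]
  have hb'0 : b' = 0 := coef_unique hSk hb'S fun c => congrFun hf0 c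
  have h3 : a σ - b σ = 0 := congrFun hb'0 σ
  have h4 : b σ = 0 := by
    refine hb0 σ ?_
    rintro ⟨_, ⟨v, hv, hs⟩ | ⟨u, v, huv, hs⟩⟩
    · exact h1 v hv hs
    · exact h2 u v huv hs
  rw [h4, sub_zero] at h3
  exact h3

theorem coefs_exist [NeZero k] (G : SimpleGraph V) {D : ℕ} (hD : 1 ≤ D)
    (hk : (4 * D * 2 ^ D) ^ 2 ≤ k) :
    ∃ a : Finset V → Setoid V → ℝ, CoefSys G k D a ∧
      ∀ S : Finset V, S.card ≤ D → IsCoef S (dens G (0 : Fin k → ℝ) S) (a S) := by
  classical
  have hex : ∀ S : Finset V, ∃ a : Setoid V → ℝ, S.card ≤ D →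
      IsCoef S (dens G (0 : Fin k → ℝ) S) a := by
    intro S
    by_cases hS : S.card ≤ D
    · obtain ⟨a, ha⟩ := exists_isCoef G hD hk hS
      exact ⟨a, fun _ => ha⟩
    · exact ⟨0, fun h => absurd h hS⟩
  choose a ha using hex
  refine ⟨a, ⟨?_, ?_, ?_, ?_, ?_⟩, ha⟩
  · intro S hS π hπ
    exact (ha S hS).1 π hπ
  · exact supp_base G (ha ∅ (by simp))
  · intro S hS v hv τ hτ
    exact marg_eq G hD hk hS hv (ha S hS)
      (ha (S.erase v) ((card_le_card (erase_subset v S)).trans hS)) τ hτ
  · intro S hS u hu v hv huv σ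
    exact edge_eq G hD hk hS hu hv huv (ha S hS) σ
  · intro S hS hne σ h1 h2
    exact typeC_eq G hD hk hS hne (ha S hS) σ h1 h2

end Pool.Agent.SOSC
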