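import Pool.Agent.SOSC.Defs

/-!
# SOSC: partitions (setoids) and constants

Partitions of a set `S` of vertices are represented by setoids on `V` all of whose nontrivial
classes are contained in `S` (`SuppOn S π`).  `ind π c = 1` if the colouring `c` is constant on the
classes of `π` and `0` otherwise.
-/

set_option autoImplicit false
set_option linter.unusedSectionVars false

namespace Pool.Agent.SOSC

open Finset

variable {V : Type*} [Fintype V] [DecidableEq V] {k : ℕ}

instance : Finite (Setoid V) := by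
  apply Finite.of_injective (fun π : Setoid V => (π.r : V → V → Prop))
  intro a b h
  apply Setoid.ext
  intro x y
  exact iff_of_eq (congrFun (congrFun h x) y)

noncomputable instance : Fintype (Setoid V) := Fintype.ofFinite _

/-- All nontrivial classes of `π` are contained in `S`. -/
def SuppOn (S : Finset V) (π : Setoid V) : Prop := ∀ u v, π u v → u = v ∨ (u ∈ S ∧ v ∈ S)

/-- `v` is alone in its class. -/
def Single (π : Setoid V) (v : V) : Prop := ∀ u, π u v → u = v

/-- The partition of `S` into colour classes of `c`. -/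
def kerS (S : Finset V) (c : V → Fin k) : Setoid V where
  r u v := u = v ∨ (u ∈ S ∧ v ∈ S ∧ c u = c v)
  iseqv := by
    refine ⟨fun x => Or.inl rfl, ?_, ?_⟩
    · rintro x y (h | ⟨h1, h2, h3⟩)
      · exact Or.inl h.symm
      · exact Or.inr ⟨h2, h1, h3.symm⟩
    · rintro x y z (h | ⟨h1, h2, h3⟩) (h' | ⟨h1', h2', h3'⟩)
      · exact Or.inl (h.trans h')
      · subst h; exact Or.inr ⟨h1', h2', h3'⟩
      · subst h'; exact Or.inr ⟨h1, h2, h3⟩
      · exact Or.inr ⟨h1, h2', h3.trans h3'⟩

/-- Make `v` a class of its own. -/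
def delv (v : V) (π : Setoid V) : Setoid V where
  r x y := x = y ∨ (x ≠ v ∧ y ≠ v ∧ π x y)
  iseqv := by
    refine ⟨fun x => Or.inl rfl, ?_, ?_⟩
    · rintro x y (h | ⟨h1, h2, h3⟩)
      · exact Or.inl h.symm
      · exact Or.inr ⟨h2, h1, π.symm h3⟩
    · rintro x y z (h | ⟨h1, h2, h3⟩) (h' | ⟨h1', h2', h3'⟩)
      · exact Or.inl (h.trans h')
      · subst h; exact Or.inr ⟨h1', h2', h3'⟩
      · subst h'; exact Or.inr ⟨h1, h2, h3⟩
      · exact Or.inr ⟨h1, h2', π.trans h3 h3'⟩

/-- The partition whose only nontrivial class is `{u, v}`. -/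
def pr (u v : V) : Setoid V where
  r x y := x = y ∨ (x = u ∧ y = v) ∨ (x = v ∧ y = u)
  iseqv := by
    refine ⟨fun x => Or.inl rfl, ?_, ?_⟩
    · rintro x y (h | h | h)
      · exact Or.inl h.symm
      · exact Or.inr (Or.inr ⟨h.2, h.1⟩)
      · exact Or.inr (Or.inl ⟨h.2, h.1⟩)
    · rintro x y z (h | h | h) (h' | h' | h')
      · exact Or.inl (h.trans h')
      · subst h; exact Or.inr (Or.inl h')
      · subst h; exact Or.inr (Or.inr h')
      · subst h'; exact Or.inr (Or.inl h)
      · exact Or.inr (Or.inl ⟨h.1, h'.2⟩)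
      · exact Or.inl (h.1.trans h'.2.symm)
      · subst h'; exact Or.inr (Or.inr h)
      · exact Or.inl (h.1.trans h'.2.symm)
      · exact Or.inr (Or.inr ⟨h.1, h'.2⟩)

open Classical in
/-- Indicator of the colourings which are constant on the classes of `π`. -/
noncomputable def ind (π : Setoid V) : Fn V k := fun c => if ∀ u v, π u v → c u = c v then 1 else 0

/-- Number of classes of `π` which do not induce a connected subgraph. -/
noncomputable def nu (G : SimpleGraph V) (π : Setoid V) : ℕ :=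
  {b : Set V | b ∈ π.classes ∧ ¬ (G.induce b).Connected}.ncard

open Classical in
/-- The linear equations satisfied by the coefficients `a S π` of the densities `dens G 0 S`,
`|S| ≤ D`. -/
structure CoefSys (G : SimpleGraph V) (k D : ℕ) (a : Finset V → Setoid V → ℝ) : Prop where
  supp : ∀ S : Finset V, S.card ≤ D → ∀ π, ¬ SuppOn S π → a S π = 0
  base : a ∅ ⊥ = 1
  marg : ∀ S : Finset V, S.card ≤ D → ∀ v ∈ S, ∀ τ : Setoid V, SuppOn (S.erase v) τ →
    a (S.erase v) τ = a S τ +
      (1 / (k : ℝ)) * ∑ π : Setoid V, if ¬ Single π v ∧ delv v π = τ then a S π else 0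
  edge : ∀ S : Finset V, S.card ≤ D → ∀ u ∈ S, ∀ v ∈ S, G.Adj u v → ∀ σ : Setoid V,
    (∑ π : Setoid V, if π ⊔ pr u v = σ then a S π else 0) = 0
  typeC : ∀ S : Finset V, S.card ≤ D → S.Nonempty → ∀ σ : Setoid V, (∀ v ∈ S, ¬ Single σ v) →
    (∀ u v, G.Adj u v → ¬ σ u v) → a S σ = 0

/-! ### Constants -/

/-- Bound for the number of partitions of a set of at most `D` elements. -/
def NP (D : ℕ) : ℕ := 2 ^ (D ^ 2)

/-- Constant of the recursion. -/
def KK (D : ℕ) : ℕ := (NP D + 1) ^ ((D + 1) * (NP D + 1) + 1)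

/-- Bound for the coefficients: `|a S π| ≤ CA D / k ^ ν(π)`. -/
def CA (D : ℕ) : ℕ := (2 * KK D) ^ D

/-- The number of colours has to be at least `K0 D`. -/
def K0 (D : ℕ) : ℕ := max ((4 * D * 2 ^ D) ^ 2) (2 * KK D)

/-- `∑_π |a S π| ≤ CE D`. -/
def CE (D : ℕ) : ℕ := NP D * CA D

end Pool.Agent.SOSC
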