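import Pool.Agent.SOSC.Deriv
import Pool.Agent.SOSC.Markov

/-!
# SOSC TAVG: averaging over `t`

For fixed `t` (values in `{0,…,r}`), `U, i, c` let `Q_t` be the polynomial of `pt_poly`:
`(ε/k)² (sgm (pt ε (ctr t) q) U i c)² = Q_t'(t i)² ≤ C ∑_{j ≤ r} Q_t(j)²
 = C ∑_{j ≤ r} (pt ε (ctr (update t i j)) q U c)²`.  Sum over `t : Fin k → Fin (r+1)`: every
`t'` is `update t i j` for exactly `r + 1` pairs `(t, j)`.  Then take `ev` and sum over `U`, `i`.
-/

set_option autoImplicit false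
set_option linter.unusedSectionVars false

namespace Pool.Agent.SOSC

open Finset

variable {V : Type*} [Fintype V] [DecidableEq V] {k : ℕ}

/-- The real vector of a vector with entries in `{0, …, r}`. -/
def tr {r : ℕ} (t : Fin k → Fin (r + 1)) : Fin k → ℝ := fun i => ((t i : ℕ) : ℝ)

private lemma sum_update {k r : ℕ} (i : Fin k) (F : (Fin k → Fin (r + 1)) → ℝ) :
    ∑ t : Fin k → Fin (r + 1), ∑ j : Fin (r + 1), F (Function.update t i j) =
      (r + 1) * ∑ t : Fin k → Fin (r + 1), F t := by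
  have h1 : (∑ t : Fin k → Fin (r + 1), ∑ j : Fin (r + 1), F (Function.update t i j)) =
      ∑ t : Fin k → Fin (r + 1), ∑ _j : Fin (r + 1), F t := by
    rw [← sum_product', ← sum_product']
    refine sum_bij' (fun x _ => (Function.update x.1 i x.2, x.1 i))
      (fun x _ => (Function.update x.1 i x.2, x.1 i)) ?_ ?_ ?_ ?_ ?_
    · intro x _; simp
    · intro x _; simp
    · intro x _; simp
    · intro x _; simp
    · intro x _; simp
  rw [h1]
  simp [mul_sum]

private lemma tr_update {k r : ℕ} (t : Fin k → Fin (r + 1)) (i : Fin k) (j : Fin (r + 1)) :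
    tr (Function.update t i j) = Function.update (tr t) i ((j : ℕ) : ℝ) := by
  funext l
  unfold tr
  by_cases h : l = i
  · subst h; simp
  · simp [h]

theorem tavg (r : ℕ) : ∃ C : ℝ, 0 ≤ C ∧ ∀ (V : Type) [Fintype V] [DecidableEq V] (k : ℕ)
    [NeZero k] (G : SimpleGraph V) (q : Finset V → Fn V k), Fam G r q → ∀ ε : ℝ, 0 < ε →
    ∑ t : Fin k → Fin (r + 1), sig (pt ε (ctr (tr t)) q) ≤
      C * k * ((k : ℝ) / ε) ^ 2 * ∑ t : Fin k → Fin (r + 1), nrm (pt ε (ctr (tr t)) q) := by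
  obtain ⟨C, hC, hM⟩ := markov r
  refine ⟨C * (r + 1), by positivity, ?_⟩
  intro V _ _ k _ G q hq ε hε
  have hk : (k : ℝ) ≠ 0 := Nat.cast_ne_zero.2 (NeZero.ne k)
  -- the pointwise bound
  have h1 : ∀ (U : Finset V) (i : Fin k) (c : V → Fin k) (t : Fin k → Fin (r + 1)),
      (sgm (pt ε (ctr (tr t)) q) U i c) ^ 2 ≤ ((k : ℝ) / ε) ^ 2 * (C *
        ∑ j : Fin (r + 1), (pt ε (ctr (tr (Function.update t i j))) q U c) ^ 2) := by
    intro U i c t
    obtain ⟨Q, hQd, hQe, hQ'⟩ := pt_poly hq ε (tr t) i U c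
    have h2 := hM Q hQd (t i : ℕ) (Nat.lt_succ_iff.1 (t i).2)
    have h3 : Q.derivative.eval (((t i : ℕ) : ℝ)) =
        ε / k * sgm (pt ε (ctr (tr t)) q) U i c := hQ'
    rw [h3] at h2
    have h4 : sgm (pt ε (ctr (tr t)) q) U i c ^ 2 =
        ((k : ℝ) / ε) ^ 2 * (ε / k * sgm (pt ε (ctr (tr t)) q) U i c) ^ 2 := by
      field_simp
    rw [h4]
    apply mul_le_mul_of_nonneg_left _ (by positivity)
    refine h2.trans (le_of_eq ?_)
    congr 1
    rw [Finset.sum_range]
    refine Finset.sum_congr rfl fun j _ => ?_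
    rw [hQe, tr_update]
  have h5 : ∀ (U : Finset V) (i : Fin k) (c : V → Fin k),
      ∑ t : Fin k → Fin (r + 1), (sgm (pt ε (ctr (tr t)) q) U i c) ^ 2 ≤
        ((k : ℝ) / ε) ^ 2 * (C * (r + 1)) *
          ∑ t : Fin k → Fin (r + 1), (pt ε (ctr (tr t)) q U c) ^ 2 := by
    intro U i c
    calc _ ≤ ∑ t : Fin k → Fin (r + 1), ((k : ℝ) / ε) ^ 2 * (C *
        ∑ j : Fin (r + 1), (pt ε (ctr (tr (Function.update t i j))) q U c) ^ 2) :=
          Finset.sum_le_sum fun t _ => h1 U i c t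
      _ = ((k : ℝ) / ε) ^ 2 * (C * ∑ t : Fin k → Fin (r + 1),
        ∑ j : Fin (r + 1), (pt ε (ctr (tr (Function.update t i j))) q U c) ^ 2) := by
          rw [← mul_sum, ← mul_sum]
      _ = _ := by
          rw [sum_update i (fun t => (pt ε (ctr (tr t)) q U c) ^ 2)]
          ring
  calc ∑ t : Fin k → Fin (r + 1), sig (pt ε (ctr (tr t)) q)
      = ∑ U : Finset V, ∑ i : Fin k, ev (fun c => ∑ t : Fin k → Fin (r + 1),
          (sgm (pt ε (ctr (tr t)) q) U i c) ^ 2) := by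
        unfold sig
        rw [Finset.sum_comm]
        refine Finset.sum_congr rfl fun U _ => ?_
        rw [Finset.sum_comm]
        refine Finset.sum_congr rfl fun i _ => ?_
        rw [ev_sum]
    _ ≤ ∑ U : Finset V, ∑ i : Fin k, ev (fun c => ((k : ℝ) / ε) ^ 2 * (C * (r + 1)) *
          ∑ t : Fin k → Fin (r + 1), (pt ε (ctr (tr t)) q U c) ^ 2) :=
        Finset.sum_le_sum fun U _ => Finset.sum_le_sum fun i _ => ev_mono fun c => h5 U i c
    _ = ∑ U : Finset V, k * (((k : ℝ) / ε) ^ 2 * (C * (r + 1)) *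
          ∑ t : Fin k → Fin (r + 1), ev (fun c => (pt ε (ctr (tr t)) q U c) ^ 2)) := by
        refine Finset.sum_congr rfl fun U _ => ?_
        rw [Finset.sum_const, card_univ, Fintype.card_fin, nsmul_eq_mul, ev_smul, ev_sum]
    _ = C * (r + 1) * k * ((k : ℝ) / ε) ^ 2 *
          ∑ t : Fin k → Fin (r + 1), nrm (pt ε (ctr (tr t)) q) := by
        unfold nrm
        rw [Finset.sum_comm (s := (univ : Finset (Fin k → Fin (r + 1)))), ← mul_sum, ← mul_sum]
        ring

end Pool.Agent.SOSC
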