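import Pool.Agent.SOSC.Det0
import Pool.Agent.SOSC.Compare2
import Pool.Agent.SOSC.Tavg

/-!
# SOSC PSD: the pseudo-expectation densities

`Nt = (r+1)^k`, `H S = (1/Nt) ∑_{t : Fin k → Fin (r+1)} dens G (ε ctr (tr t)) S`, `ε = κ/√n`.
The properties (empty, dep, prop, marg) hold for every `dens G θ` with `∑ θ = 0` (`dens_empty`,
`dens_spec`, `dens_av`, `sum_ctr`) and pass to averages.

Positivity.  `B = max r 1` bounds `|ctr (tr t) i|`.  Let `C` be the constant of `tavg r`,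
`κ ≥ 1` with `κ² ≥ 8 r K3 r Δ P C k³`, `K` the constant of `compare`.  Write
`p_t = pt ε (ctr (tr t)) q` (a `Fam G r`, `pt_fam`).  Then
`∑_{S,T} E[q_S q_T H(S ∪ T)] = (1/Nt) ∑_t frm G (ε ctr (tr t)) q
 ≥ (1/Nt) ∑_t (frm G 0 p_t - (K/√n) nrm q)` (`compare`, needs `ε B ≤ 1`)
`≥ (1/Nt) ∑_t ((1 - 1/2) nrm p_t - (r K3/n)(sig p_t + nrm p_t)) - (K/√n) nrm q` (`det0`, `hsmall`).
By `tavg`, `(r K3/n) ∑_t sig p_t ≤ (r K3/n) C k (k² n/κ²) ∑_t nrm p_t ≤ (1/8) ∑_t nrm p_t`, and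
`r K3/n ≤ 1/8` for large `n`.  So the form is at least
`(1/Nt)(1/2 - 1/8 - 1/8) ∑_t nrm p_t - (K/√n) nrm q ≥ (1/(4 Nt)) nrm q - (K/√n) nrm q ≥ 0`
for `√n ≥ 4 K Nt`, because all `nrm p_t ≥ 0` and for `t = 0`, `ctr (tr 0) = 0`, `p_0 = q`
(`pt_zero`).
-/

set_option autoImplicit false
set_option linter.unusedSectionVars false

namespace Pool.Agent.SOSC

open Finset

variable {V : Type*} [Fintype V] [DecidableEq V] {k : ℕ}

/-- Consistent families of densities on the sets of at most `D` vertices which are supported on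
proper colourings and positive on families of degree at most `r`. -/
structure PEfam (G : SimpleGraph V) (D r : ℕ) (H : Finset V → Fn V k) : Prop where
  empty : ∀ c, H ∅ c = 1
  dep : ∀ S : Finset V, S.card ≤ D → DepOn S (H S)
  prop : ∀ S : Finset V, S.card ≤ D → ∀ c, ¬ Proper G S c → H S c = 0
  marg : ∀ S : Finset V, S.card ≤ D → ∀ v ∈ S, av v (H S) = H (S.erase v)
  pos : ∀ q : Finset V → Fn V k, Fam G r q →
    0 ≤ ∑ S, ∑ T, ev (fun c => q S c * q T c * H (S ∪ T) c)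

/-- The tilted weights. -/
private noncomputable def th {r : ℕ} (ε : ℝ) (t : Fin k → Fin (r + 1)) : Fin k → ℝ :=
  fun i => ε * ctr (tr t) i

private lemma sum_th [NeZero k] {r : ℕ} (ε : ℝ) (t : Fin k → Fin (r + 1)) :
    ∑ i, th ε t i = 0 := by
  unfold th
  rw [← mul_sum, sum_ctr, mul_zero]

private lemma abs_ctr_le [NeZero k] {r : ℕ} (t : Fin k → Fin (r + 1)) (i : Fin k) :
    |ctr (tr t) i| ≤ r := by
  have hk : (0 : ℝ) < k := Nat.cast_pos.2 (Nat.pos_of_ne_zero (NeZero.ne k))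
  have h1 : ∀ j, 0 ≤ tr t j := fun j => by unfold tr; positivity
  have h2 : ∀ j, tr t j ≤ r := fun j => by
    unfold tr
    exact_mod_cast Nat.lt_succ_iff.1 (t j).2
  have h3 : 0 ≤ (∑ j, tr t j) / k := div_nonneg (sum_nonneg fun j _ => h1 j) hk.le
  have h4 : (∑ j, tr t j) / k ≤ r := by
    rw [div_le_iff₀ hk]
    calc ∑ j, tr t j ≤ ∑ _j : Fin k, (r : ℝ) := sum_le_sum fun j _ => h2 j
      _ = r * k := by simp [mul_comm]
  unfold ctr
  rw [abs_le]
  constructor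
  · have := h1 i
    linarith
  · have := h2 i
    linarith

private lemma card_t (k r : ℕ) :
    (Fintype.card (Fin k → Fin (r + 1)) : ℝ) = ((r : ℝ) + 1) ^ k := by
  rw [Fintype.card_fun, Fintype.card_fin, Fintype.card_fin]
  push_cast
  ring

/-- The averaged density. -/
private noncomputable def HH (G : SimpleGraph V) (k r : ℕ) (ε : ℝ) (S : Finset V) : Fn V k :=
  fun c => (1 / ((r : ℝ) + 1) ^ k) * ∑ t : Fin k → Fin (r + 1), dens G (th ε t) S c

private lemma HH_form (G : SimpleGraph V) (k r : ℕ) (ε : ℝ) (q : Finset V → Fn V k) :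
    ∑ S, ∑ T, ev (fun c => q S c * q T c * HH G k r ε (S ∪ T) c) =
      (1 / ((r : ℝ) + 1) ^ k) * ∑ t : Fin k → Fin (r + 1), frm G (th ε t) q := by
  have h1 : ∀ S T : Finset V, ev (fun c => q S c * q T c * HH G k r ε (S ∪ T) c) =
      (1 / ((r : ℝ) + 1) ^ k) * ∑ t : Fin k → Fin (r + 1),
        ev (fun c => q S c * q T c * dens G (th ε t) (S ∪ T) c) := by
    intro S T
    rw [← ev_sum, ← ev_smul]
    refine ev_congr fun c => ?_
    unfold HH
    rw [← mul_sum]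
    ring
  simp only [h1, ← mul_sum]
  congr 1
  unfold frm
  calc ∑ S, ∑ T, ∑ t : Fin k → Fin (r + 1), ev (fun c => q S c * q T c *
        dens G (th ε t) (S ∪ T) c)
      = ∑ S, ∑ t : Fin k → Fin (r + 1), ∑ T, ev (fun c => q S c * q T c *
        dens G (th ε t) (S ∪ T) c) := sum_congr rfl fun S _ => sum_comm
    _ = _ := sum_comm

private lemma nrm_nonneg (q : Finset V → Fn V k) : 0 ≤ nrm q :=
  sum_nonneg fun _ _ => ev_nonneg fun _ => sq_nonneg _

private lemma sig_nonneg (q : Finset V → Fn V k) : 0 ≤ sig q :=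
  sum_nonneg fun _ _ => sum_nonneg fun _ _ => ev_nonneg fun _ => sq_nonneg _

private lemma sum_nrm_ge [NeZero k] {r : ℕ} (ε : ℝ) (q : Finset V → Fn V k) :
    nrm q ≤ ∑ t : Fin k → Fin (r + 1), nrm (pt ε (ctr (tr t)) q) := by
  have h1 : ctr (tr (fun _ : Fin k => (0 : Fin (r + 1)))) = fun _ => 0 := by
    funext j
    simp [ctr, tr]
  have h2 := single_le_sum (f := fun t : Fin k → Fin (r + 1) => nrm (pt ε (ctr (tr t)) q))
    (fun t _ => nrm_nonneg _) (mem_univ (fun _ : Fin k => (0 : Fin (r + 1))))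
  simp only [h1, pt_zero] at h2
  exact h2

theorem psd (r k Δ : ℕ) [NeZero k] (M P : ℝ) (hr : 1 ≤ r) (hM : 0 ≤ M) (hP : 0 ≤ P)
    (hk : K0 (2 * r) ≤ k) (hkΔ : k ≤ Δ)
    (hsmall : C0 r * ((Δ : ℝ) / k) ^ r * (1 / Real.sqrt k + 1 / Real.sqrt Δ + M / Δ) ≤ 1 / 2) :
    ∃ n₀ : ℕ, ∀ n : ℕ, n₀ ≤ n → ∀ G : SimpleGraph (Fin n), MaxDeg G Δ → Sparse6 G →
      Spec G M P → ∃ H : Finset (Fin n) → Fn (Fin n) k, PEfam G (2 * r) r H := by
  have hD : 1 ≤ 2 * r := by omega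
  have hkD : (4 * (2 * r) * 2 ^ (2 * r)) ^ 2 ≤ k := le_trans (le_max_left _ _) hk
  obtain ⟨C, hC, htavg⟩ := tavg r
  have hkpos : (0 : ℝ) < k := Nat.cast_pos.2 (Nat.pos_of_ne_zero (NeZero.ne k))
  set A : ℝ := r * K3 r Δ P with hA
  have hA0 : 0 ≤ A := by
    rw [hA]
    unfold K3
    positivity
  -- the tilt
  set κ : ℝ := 1 + 8 * A * C * (k : ℝ) ^ 3 with hκdef
  have hκ0 : 0 ≤ 8 * A * C * (k : ℝ) ^ 3 := by positivity
  have hκ1 : 1 ≤ κ := by rw [hκdef]; linarith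
  have hκ2 : 8 * A * C * (k : ℝ) ^ 3 ≤ κ ^ 2 := by
    have : κ ≤ κ ^ 2 := by nlinarith
    refine le_trans ?_ this
    rw [hκdef]
    linarith
  have hr' : (1 : ℝ) ≤ r := by exact_mod_cast hr
  obtain ⟨K, hK, hcomp⟩ := compare r k Δ κ r hr hkD hκ1 hr'
  set Nt : ℝ := ((r : ℝ) + 1) ^ k with hNt
  have hNt0 : 0 < Nt := by rw [hNt]; positivity
  refine ⟨⌈(κ * r) ^ 2 + 8 * A + (4 * K * Nt) ^ 2 + 1⌉₊, ?_⟩
  intro n hn G hΔ hG hspec
  have hn1 : (κ * r) ^ 2 + 8 * A + (4 * K * Nt) ^ 2 + 1 ≤ n := (Nat.le_ceil _).trans (by exact_mod_cast hn)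
  have hsq1 : 0 ≤ (κ * r) ^ 2 := sq_nonneg _
  have hsq2 : 0 ≤ (4 * K * Nt) ^ 2 := sq_nonneg _
  have hn2 : (1 : ℝ) ≤ n := by linarith
  have hn0 : (0 : ℝ) < n := by linarith
  have hn3 : 1 ≤ n := by exact_mod_cast hn2
  have hs0 : 0 < Real.sqrt n := Real.sqrt_pos.2 hn0
  have hss : Real.sqrt n * Real.sqrt n = n := Real.mul_self_sqrt hn0.le
  have hs1 : κ * r ≤ Real.sqrt n := by
    apply Real.le_sqrt_of_sq_le
    linarith
  have hs2 : 4 * K * Nt ≤ Real.sqrt n := by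
    apply Real.le_sqrt_of_sq_le
    linarith
  set ε : ℝ := κ / Real.sqrt n with hε
  have hε0 : 0 < ε := by rw [hε]; positivity
  have hεB : ε * r ≤ 1 := by
    rw [hε, div_mul_eq_mul_div, div_le_one hs0]
    exact hs1
  refine ⟨HH G k r ε, ?_, ?_, ?_, ?_, ?_⟩
  · intro c
    unfold HH
    simp only [dens_empty, sum_const, card_univ, nsmul_eq_mul, mul_one]
    rw [card_t]
    field_simp
  · intro S hS
    unfold HH
    exact DepOn.smul _ (DepOn.sum fun t _ => (dens_spec G hD hkD _ hS).dep)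
  · intro S hS c hc
    unfold HH
    rw [sum_eq_zero fun t _ => (dens_spec G hD hkD (th ε t) hS).prop c hc, mul_zero]
  · intro S hS v hv
    unfold HH
    rw [av_smul, av_sum]
    funext c
    congr 1
    refine sum_congr rfl fun t _ => ?_
    rw [dens_av G hD hkD (sum_th ε t) hS hv]
  · intro q hq
    rw [HH_form]
    apply mul_nonneg (by positivity)
    -- abbreviations
    set N : ℝ := ∑ t : Fin k → Fin (r + 1), nrm (pt ε (ctr (tr t)) q) with hN
    set Sg : ℝ := ∑ t : Fin k → Fin (r + 1), sig (pt ε (ctr (tr t)) q) with hSg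
    have hNq : nrm q ≤ N := sum_nrm_ge ε q
    have hN0 : 0 ≤ N := (nrm_nonneg q).trans hNq
    have hSgN : Sg ≤ C * k * ((k : ℝ) / ε) ^ 2 * N := htavg (Fin n) k G q hq ε hε0
    -- each term
    have hterm : ∀ t : Fin k → Fin (r + 1),
        1 / 2 * nrm (pt ε (ctr (tr t)) q) - A / n * (sig (pt ε (ctr (tr t)) q) +
          nrm (pt ε (ctr (tr t)) q)) - K / Real.sqrt n * nrm q ≤ frm G (th ε t) q := by
      intro t
      have h1 := hcomp n hn3 hεB G hΔ (ctr (tr t)) (abs_ctr_le t) q hq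
      have h2 := det0 G hr hM hP hk hkΔ hΔ hG hspec (pt_fam hq ε (ctr (tr t)))
      have h3 : frm G (fun i => κ / Real.sqrt n * ctr (tr t) i) q = frm G (th ε t) q := rfl
      have h4 : frm G (fun _ => 0) (pt (κ / Real.sqrt n) (ctr (tr t)) q) =
          frm G 0 (pt ε (ctr (tr t)) q) := rfl
      rw [h3, h4] at h1
      have h5 := (abs_le.1 h1).1
      rw [Fintype.card_fin] at h2
      have h6 : 1 / 2 * nrm (pt ε (ctr (tr t)) q) ≤
          (1 - C0 r * ((Δ : ℝ) / k) ^ r * (1 / Real.sqrt k + 1 / Real.sqrt Δ + M / Δ)) *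
            nrm (pt ε (ctr (tr t)) q) :=
        mul_le_mul_of_nonneg_right (by linarith) (nrm_nonneg _)
      have h7 : A / n * (sig (pt ε (ctr (tr t)) q) + nrm (pt ε (ctr (tr t)) q)) =
        r * K3 r Δ P / n * (sig (pt ε (ctr (tr t)) q) + nrm (pt ε (ctr (tr t)) q)) := rfl
      rw [h7]
      linarith
    have hsum := sum_le_sum fun (t : Fin k → Fin (r + 1)) (_ : t ∈ univ) => hterm t
    refine le_trans ?_ hsum
    rw [sum_sub_distrib, sum_sub_distrib, ← mul_sum, ← mul_sum, sum_add_distrib, sum_const,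
      card_univ, nsmul_eq_mul, card_t, ← hN, ← hSg, ← hNt]
    -- numerical estimates
    have e1 : A / n ≤ 1 / 8 := by
      rw [div_le_iff₀ hn0]
      linarith
    have e2 : A / n * Sg ≤ 1 / 8 * N := by
      have hkε : ((k : ℝ) / ε) ^ 2 = (k : ℝ) ^ 2 * n / κ ^ 2 := by
        rw [hε, div_pow, div_pow, Real.sq_sqrt hn0.le]
        field_simp
      rw [hkε] at hSgN
      have h1 : A / n * Sg ≤ A / n * (C * k * ((k : ℝ) ^ 2 * n / κ ^ 2) * N) :=
        mul_le_mul_of_nonneg_left hSgN (by positivity)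
      refine h1.trans ?_
      have h2 : A / n * (C * k * ((k : ℝ) ^ 2 * n / κ ^ 2) * N) =
          (A * C * (k : ℝ) ^ 3 / κ ^ 2) * N := by
        field_simp
      rw [h2]
      apply mul_le_mul_of_nonneg_right _ hN0
      rw [div_le_iff₀ (by positivity)]
      linarith
    have e3 : A / n * N ≤ 1 / 8 * N := mul_le_mul_of_nonneg_right e1 hN0
    have e4 : Nt * (K / Real.sqrt n * nrm q) ≤ 1 / 4 * nrm q := by
      rw [← mul_assoc]
      apply mul_le_mul_of_nonneg_right _ (nrm_nonneg q)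
      rw [← mul_div_assoc, div_le_iff₀ hs0]
      linarith
    rw [mul_add]
    linarith

end Pool.Agent.SOSC
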