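import Pool.Agent.SOSC.RandDefs

/-!
# SOSC RG1: product structure of the random graph

* `card_prs`: `|prs n| = n choose 2`.  `card_edg`: `|edg G| = G.edgeSet.ncard` (the map
  `(i,j) ↦ s(i,j)` is injective on pairs `i < j`).
* `pr_sum`: the map `G ↦ edg G` is a bijection from the graphs on `Fin n` to the subsets of `prs n`
  (inverse: `E ↦` the graph with `u ~ v` iff `(min u v, max u v) ∈ E`, `u ≠ v`).
* `sum_pow`: `Finset.prod_add` (`∏_{x ∈ Ω} (a_x + b_x) = ∑_{E ⊆ Ω} ∏_{E} a ∏_{Ω \ E} b`) with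
  `a_x = p w_x`, `b_x = 1 - p`.
* `pr_nonneg`, `pr_mono`, `pr_le_one`, `pr_compl`, `pr_union`, `pr_or` are immediate (total mass 1
  from `pr_sum`, `sum_pow` with `w = 1`).
* `pr_subset`: `P(A ⊆ edg G) = p^|A|`: `a_x = p`, and `b_x = 0` for `x ∈ A`, `b_x = 1 - p` otherwise.
* `pr_disjoint`: `P(A ∩ edg G = ∅) = (1-p)^|A|`.
* `mgf`: `w_x = exp s` for `x ∈ A`, `1` otherwise.
-/

set_option autoImplicit false
set_option linter.unusedSectionVars false

namespace Pool.Agent.SOSC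

open Finset

/-- The mass of a graph. -/
noncomputable def ms (n : ℕ) (p : ℝ) (G : SimpleGraph (Fin n)) : ℝ :=
  p ^ G.edgeSet.ncard * (1 - p) ^ (n.choose 2 - G.edgeSet.ncard)

open Classical in
/-- The graph with given edges. -/
private noncomputable def ofE {n : ℕ} (E : Finset (Fin n × Fin n)) : SimpleGraph (Fin n) where
  Adj u v := (u < v ∧ (u, v) ∈ E) ∨ (v < u ∧ (v, u) ∈ E)
  symm := ⟨fun _ _ h => h.symm⟩
  loopless := ⟨fun _ h => by
    rcases h with h | h
    · exact lt_irrefl _ h.1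
    · exact lt_irrefl _ h.1⟩

private lemma mem_prs {n : ℕ} (x : Fin n × Fin n) : x ∈ prs n ↔ x.1 < x.2 := by
  simp [prs]

private lemma mem_edg {n : ℕ} (G : SimpleGraph (Fin n)) (x : Fin n × Fin n) :
    x ∈ edg G ↔ x.1 < x.2 ∧ G.Adj x.1 x.2 := by
  simp [edg, prs]

private lemma edg_ofE {n : ℕ} {E : Finset (Fin n × Fin n)} (hE : E ⊆ prs n) :
    edg (ofE E) = E := by
  ext ⟨u, v⟩
  rw [mem_edg]
  constructor
  · rintro ⟨h1, h2⟩
    rcases h2 with h2 | h2
    · exact h2.2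
    · exact absurd (h1.trans h2.1) (lt_irrefl _)
  · intro h
    have h1 := (mem_prs _).1 (hE h)
    exact ⟨h1, Or.inl ⟨h1, h⟩⟩

private lemma ofE_edg {n : ℕ} (G : SimpleGraph (Fin n)) : ofE (edg G) = G := by
  ext u v
  constructor
  · intro h
    rcases h with h | h
    · exact ((mem_edg G _).1 h.2).2
    · exact ((mem_edg G _).1 h.2).2.symm
  · intro h
    rcases lt_trichotomy u v with h1 | h1 | h1
    · exact Or.inl ⟨h1, (mem_edg G _).2 ⟨h1, h⟩⟩
    · exact absurd h1 h.ne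
    · exact Or.inr ⟨h1, (mem_edg G _).2 ⟨h1, h.symm⟩⟩

private lemma edg_subset {n : ℕ} (G : SimpleGraph (Fin n)) : edg G ⊆ prs n := by
  intro x hx
  exact (mem_prs x).2 ((mem_edg G x).1 hx).1

theorem card_edg {n : ℕ} (G : SimpleGraph (Fin n)) : (edg G).card = G.edgeSet.ncard := by
  classical
  have h1 : G.edgeSet = (((edg G).image (fun x => s(x.1, x.2)) : Finset (Sym2 (Fin n))) :
      Set (Sym2 (Fin n))) := by
    ext e
    induction e using Sym2.ind with
    | _ u v =>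
      rw [SimpleGraph.mem_edgeSet, Finset.mem_coe, Finset.mem_image]
      constructor
      · intro h
        rcases lt_trichotomy u v with h1 | h1 | h1
        · exact ⟨(u, v), (mem_edg G _).2 ⟨h1, h⟩, rfl⟩
        · exact absurd h1 h.ne
        · exact ⟨(v, u), (mem_edg G _).2 ⟨h1, h.symm⟩, Sym2.eq_swap⟩
      · rintro ⟨x, hx, hxe⟩
        have h2 := ((mem_edg G _).1 hx).2
        rw [← SimpleGraph.mem_edgeSet, ← hxe]
        exact h2
  rw [h1, Set.ncard_coe_finset, Finset.card_image_of_injOn]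
  intro x hx y hy hxy
  have hx1 := ((mem_edg G _).1 (Finset.mem_coe.1 hx)).1
  have hy1 := ((mem_edg G _).1 (Finset.mem_coe.1 hy)).1
  simp only [Sym2.eq_iff] at hxy
  rcases hxy with h | h
  · exact Prod.ext h.1 h.2
  · rw [h.1, h.2] at hx1
    exact absurd (hx1.trans hy1) (lt_irrefl _)

theorem card_prs (n : ℕ) : (prs n).card = n.choose 2 := by
  classical
  have h1 : edg (⊤ : SimpleGraph (Fin n)) = prs n := by
    ext x
    rw [mem_edg, mem_prs, SimpleGraph.top_adj]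
    exact ⟨fun h => h.1, fun h => ⟨h, h.ne⟩⟩
  rw [← h1, card_edg, ← SimpleGraph.coe_edgeFinset, Set.ncard_coe_finset,
    SimpleGraph.card_edgeFinset_top_eq_card_choose_two, Fintype.card_fin]

theorem eL_eq {n : ℕ} (G : SimpleGraph (Fin n)) (X Y : Finset (Fin n)) :
    eL G X Y = (edg G ∩ bx X Y).card := by
  unfold eL
  congr 1
  ext x
  simp only [mem_filter, mem_inter, mem_edg, bx]
  tauto

open Classical in
theorem pr_sum (n : ℕ) (p : ℝ) (Φ : Finset (Fin n × Fin n) → ℝ) :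
    ∑ G : SimpleGraph (Fin n), ms n p G * Φ (edg G) =
      ∑ E ∈ (prs n).powerset, p ^ E.card * (1 - p) ^ ((prs n).card - E.card) * Φ E := by
  refine sum_bij' (fun G _ => edg G) (fun E _ => ofE E) ?_ ?_ ?_ ?_ ?_
  · intro G _
    exact mem_powerset.2 (edg_subset G)
  · intro E _
    exact mem_univ _
  · intro G _
    exact ofE_edg G
  · intro E hE
    exact edg_ofE (mem_powerset.1 hE)
  · intro G _
    unfold ms
    rw [card_edg, card_prs]

theorem sum_pow {α : Type*} [DecidableEq α] (Ω : Finset α) (p : ℝ) (w : α → ℝ) :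
    ∑ E ∈ Ω.powerset, p ^ E.card * (1 - p) ^ (Ω.card - E.card) * ∏ x ∈ E, w x =
      ∏ x ∈ Ω, (1 - p + p * w x) := by
  have h1 : ∏ x ∈ Ω, (1 - p + p * w x) = ∏ x ∈ Ω, (p * w x + (1 - p)) :=
    prod_congr rfl fun x _ => by ring
  rw [h1, prod_add]
  refine sum_congr rfl fun E hE => ?_
  rw [prod_mul_distrib, prod_const, prod_const, card_sdiff_of_subset (mem_powerset.1 hE)]
  ring

open Classical in
theorem pr_eq (n : ℕ) (p : ℝ) (A : SimpleGraph (Fin n) → Prop) :
    Pr n p A = ∑ G : SimpleGraph (Fin n), ms n p G * (if A G then 1 else 0) := by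
  unfold Pr ms
  refine sum_congr rfl fun G _ => ?_
  split_ifs <;> simp

theorem ms_nonneg (n : ℕ) {p : ℝ} (h0 : 0 ≤ p) (h1 : p ≤ 1) (G : SimpleGraph (Fin n)) :
    0 ≤ ms n p G := by
  unfold ms
  exact mul_nonneg (pow_nonneg h0 _) (pow_nonneg (by linarith) _)

theorem ms_sum (n : ℕ) (p : ℝ) : ∑ G : SimpleGraph (Fin n), ms n p G = 1 := by
  classical
  have h1 := pr_sum n p (fun E => ∏ x ∈ E, (fun _ : Fin n × Fin n => (1 : ℝ)) x)
  rw [sum_pow] at h1
  simpa using h1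

theorem pr_nonneg (n : ℕ) {p : ℝ} (h0 : 0 ≤ p) (h1 : p ≤ 1) (A : SimpleGraph (Fin n) → Prop) :
    0 ≤ Pr n p A := by
  rw [pr_eq]
  refine sum_nonneg fun G _ => mul_nonneg (ms_nonneg n h0 h1 G) ?_
  split_ifs <;> norm_num

theorem pr_mono (n : ℕ) {p : ℝ} (h0 : 0 ≤ p) (h1 : p ≤ 1) {A B : SimpleGraph (Fin n) → Prop}
    (h : ∀ G, A G → B G) : Pr n p A ≤ Pr n p B := by
  rw [pr_eq, pr_eq]
  refine sum_le_sum fun G _ => mul_le_mul_of_nonneg_left ?_ (ms_nonneg n h0 h1 G)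
  by_cases hA : A G
  · simp [hA, h G hA]
  · simp only [hA, if_false]
    split_ifs <;> norm_num

theorem pr_compl (n : ℕ) (p : ℝ) (A : SimpleGraph (Fin n) → Prop) :
    Pr n p (fun G => ¬ A G) = 1 - Pr n p A := by
  rw [eq_sub_iff_add_eq, pr_eq, pr_eq, ← sum_add_distrib]
  refine Eq.trans (sum_congr rfl fun G _ => ?_) (ms_sum n p)
  by_cases hA : A G <;> simp [hA]

theorem pr_or (n : ℕ) {p : ℝ} (h0 : 0 ≤ p) (h1 : p ≤ 1) (A B : SimpleGraph (Fin n) → Prop) :
    Pr n p (fun G => A G ∨ B G) ≤ Pr n p A + Pr n p B := by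
  rw [pr_eq, pr_eq, pr_eq, ← sum_add_distrib]
  refine sum_le_sum fun G _ => ?_
  rw [← mul_add]
  refine mul_le_mul_of_nonneg_left ?_ (ms_nonneg n h0 h1 G)
  by_cases hA : A G <;> by_cases hB : B G <;> simp [hA, hB]

theorem pr_union (n : ℕ) {p : ℝ} (h0 : 0 ≤ p) (h1 : p ≤ 1) {ι : Type*} (s : Finset ι)
    (A : ι → SimpleGraph (Fin n) → Prop) :
    Pr n p (fun G => ∃ i ∈ s, A i G) ≤ ∑ i ∈ s, Pr n p (A i) := by
  classical
  induction s using Finset.induction_on with
  | empty =>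
    rw [sum_empty, pr_eq]
    simp
  | insert a s ha ih =>
    rw [sum_insert ha]
    refine le_trans (pr_mono n h0 h1 (B := fun G => A a G ∨ ∃ i ∈ s, A i G) ?_)
      ((pr_or n h0 h1 _ _).trans (by linarith))
    rintro G ⟨i, hi, hiG⟩
    rcases mem_insert.1 hi with rfl | hi
    · exact Or.inl hiG
    · exact Or.inr ⟨i, hi, hiG⟩

theorem pr_subset (n : ℕ) (p : ℝ) {A : Finset (Fin n × Fin n)} (hA : A ⊆ prs n) :
    Pr n p (fun G => A ⊆ edg G) = p ^ A.card := by
  classical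
  have h1 := prod_add (fun _ : Fin n × Fin n => p)
    (fun x => if x ∈ A then (0 : ℝ) else 1 - p) (prs n)
  have h2 : ∏ x ∈ prs n, (p + if x ∈ A then (0 : ℝ) else 1 - p) = p ^ A.card := by
    have h3 : ∏ x ∈ prs n, (p + if x ∈ A then (0 : ℝ) else 1 - p) =
        ∏ x ∈ prs n, if x ∈ A then p else 1 := by
      refine prod_congr rfl fun x _ => ?_
      split_ifs <;> ring
    rw [h3, prod_ite_mem, inter_eq_right.2 hA, prod_const]
  rw [← h2, h1, pr_eq]
  have h4 := pr_sum n p (fun E => if A ⊆ E then 1 else 0)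
  refine Eq.trans ?_ (h4.trans ?_)
  · exact sum_congr rfl fun G _ => by by_cases h : A ⊆ edg G <;> simp [h]
  · refine sum_congr rfl fun E hE => ?_
    have hE' := mem_powerset.1 hE
    rw [prod_const, mul_assoc]
    congr 1
    by_cases hAE : A ⊆ E
    · rw [if_pos hAE, mul_one, ← card_sdiff_of_subset hE', ← prod_const]
      refine prod_congr rfl fun x hx => ?_
      rw [if_neg fun hxA => (mem_sdiff.1 hx).2 (hAE hxA)]
    · rw [if_neg hAE, mul_zero]
      obtain ⟨x, hxA, hxE⟩ := not_subset.1 hAE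
      exact (prod_eq_zero (mem_sdiff.2 ⟨hA hxA, hxE⟩) (by rw [if_pos hxA])).symm

theorem pr_disjoint (n : ℕ) (p : ℝ) {A : Finset (Fin n × Fin n)} (hA : A ⊆ prs n) :
    Pr n p (fun G => Disjoint A (edg G)) = (1 - p) ^ A.card := by
  classical
  have h1 := pr_sum n p (fun E => ∏ x ∈ E, (fun x => if x ∈ A then (0 : ℝ) else 1) x)
  rw [sum_pow] at h1
  have h2 : ∏ x ∈ prs n, (1 - p + p * if x ∈ A then (0 : ℝ) else 1) = (1 - p) ^ A.card := by
    have h3 : ∏ x ∈ prs n, (1 - p + p * if x ∈ A then (0 : ℝ) else 1) =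
        ∏ x ∈ prs n, if x ∈ A then 1 - p else 1 := by
      refine prod_congr rfl fun x _ => ?_
      split_ifs <;> ring
    rw [h3, prod_ite_mem, inter_eq_right.2 hA, prod_const]
  rw [h2] at h1
  rw [← h1, pr_eq]
  refine sum_congr rfl fun G _ => ?_
  congr 1
  by_cases hd : Disjoint A (edg G)
  · rw [if_pos hd]
    exact (prod_eq_one fun x hx => if_neg fun hxA => disjoint_left.1 hd hxA hx).symm
  · rw [if_neg hd]
    obtain ⟨x, hxA, hxE⟩ := not_disjoint_iff.1 hd
    exact (prod_eq_zero hxE (by simp [hxA])).symm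

theorem mgf (n : ℕ) (p s : ℝ) {A : Finset (Fin n × Fin n)} (hA : A ⊆ prs n) :
    ∑ G : SimpleGraph (Fin n), ms n p G * Real.exp (s * ((edg G ∩ A).card : ℝ)) =
      (1 - p + p * Real.exp s) ^ A.card := by
  classical
  have h1 := pr_sum n p (fun E => ∏ x ∈ E, (fun x => if x ∈ A then Real.exp s else 1) x)
  rw [sum_pow] at h1
  have h2 : ∏ x ∈ prs n, (1 - p + p * if x ∈ A then Real.exp s else 1) =
      (1 - p + p * Real.exp s) ^ A.card := by
    have h3 : ∏ x ∈ prs n, (1 - p + p * if x ∈ A then Real.exp s else 1) =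
        ∏ x ∈ prs n, if x ∈ A then 1 - p + p * Real.exp s else 1 := by
      refine prod_congr rfl fun x _ => ?_
      split_ifs <;> ring
    rw [h3, prod_ite_mem, inter_eq_right.2 hA, prod_const]
  rw [h2] at h1
  rw [← h1]
  refine sum_congr rfl fun G _ => ?_
  congr 1
  rw [prod_ite_mem, prod_const, ← Real.exp_nat_mul, mul_comm]

end Pool.Agent.SOSC
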