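import Pool.Agent.SOSC.RG1

/-!
# SOSC RG2: tail bound

Let `X = |edg G ∩ A|`, `ν = p |A| ≤ μ`, `x = t/μ`, `s = log (1 + x) ≥ 0`.

Upper tail.  `P(X ≥ ν + t) ≤ exp(-s(ν+t)) E[exp(sX)] = exp(-s(ν+t)) (1 - p + p e^s)^|A|
≤ exp(-s(ν+t) + ν(e^s - 1))` (`mgf`, `1 + y ≤ e^y`).  `e^s - 1 = x`.  The exponent is
`-s t + ν (x - s) ≤ -s t + μ (x - s) = t - s (t + μ) = -μ((1+x) log(1+x) - x) ≤ -(t/2) log(1+x)`,
since `(1+x) log(1+x) - x ≥ (x/2) log(1+x)` for `x ≥ 0` (equality at `0`; the derivative of the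
difference is `(1/2)(log(1+x) - x/(1+x)) ≥ 0`; equivalently `log(1+x) ≥ x/(1+x/2)`, a known
inequality, cf. `Real.le_log_one_add_of_nonneg : 2 * x / (x + 2) ≤ log (1 + x)`).

Lower tail.  `P(X ≤ ν - t) ≤ exp(s(ν-t)) E[exp(-sX)] ≤ exp(-s t + ν(e^{-s} - 1 + s))
≤ exp(-s t + μ s²/2)` (`e^{-s} ≤ 1 - s + s²/2` for `s ≥ 0`), and `s ≤ x` gives
`μ s²/2 ≤ μ x s/2 = t s/2`.

Markov's inequality: `1[X ≥ ν + t] ≤ exp(s(X - ν - t))`.
-/

set_option autoImplicit false
set_option linter.unusedSectionVars false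

namespace Pool.Agent.SOSC

open Finset


private theorem rg2_exp_neg {s : ℝ} (hs : 0 ≤ s) : Real.exp (-s) ≤ 1 - s + s ^ 2 / 2 := by
  have h1 := Real.quadratic_le_exp_of_nonneg hs
  rw [Real.exp_neg]
  have h2 : 0 < Real.exp s := Real.exp_pos s
  rw [inv_le_iff_one_le_mul₀ h2]
  have h3 : 0 ≤ 1 - s + s ^ 2 / 2 := by nlinarith [sq_nonneg (s - 1)]
  calc (1 : ℝ) ≤ (1 - s + s ^ 2 / 2) * (1 + s + s ^ 2 / 2) := by nlinarith [sq_nonneg (s ^ 2)]
    _ ≤ (1 - s + s ^ 2 / 2) * Real.exp s := mul_le_mul_of_nonneg_left h1 h3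

private theorem rg2_mgf {n : ℕ} {p : ℝ} (h0 : 0 ≤ p) (h1 : p ≤ 1) {A : Finset (Fin n × Fin n)}
    (hA : A ⊆ prs n) (s c : ℝ) :
    ∑ G : SimpleGraph (Fin n), ms n p G * Real.exp (s * ((edg G ∩ A).card : ℝ) + c) ≤
      Real.exp (p * A.card * (Real.exp s - 1) + c) := by
  have e1 : ∑ G : SimpleGraph (Fin n), ms n p G * Real.exp (s * ((edg G ∩ A).card : ℝ) + c) =
      (1 - p + p * Real.exp s) ^ A.card * Real.exp c := by
    rw [← mgf n p s hA, sum_mul]
    refine sum_congr rfl fun G _ => ?_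
    rw [Real.exp_add]
    ring
  rw [e1, Real.exp_add]
  refine mul_le_mul_of_nonneg_right ?_ (Real.exp_pos c).le
  have h2 : 0 ≤ 1 - p + p * Real.exp s := by
    have := mul_nonneg h0 (Real.exp_pos s).le
    linarith
  have h3 : 1 - p + p * Real.exp s ≤ Real.exp (p * (Real.exp s - 1)) := by
    have := Real.add_one_le_exp (p * (Real.exp s - 1))
    linarith
  calc (1 - p + p * Real.exp s) ^ A.card ≤ (Real.exp (p * (Real.exp s - 1))) ^ A.card :=
        pow_le_pow_left₀ h2 h3 _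
    _ = Real.exp (p * A.card * (Real.exp s - 1)) := by
        rw [← Real.exp_nat_mul]
        congr 1
        ring

theorem pr_tail (n : ℕ) {p : ℝ} (h0 : 0 ≤ p) (h1 : p ≤ 1) {A : Finset (Fin n × Fin n)}
    (hA : A ⊆ prs n) {μ t : ℝ} (hμ : 0 < μ) (hpμ : p * A.card ≤ μ) (ht : 0 ≤ t) :
    Pr n p (fun G => t ≤ |((edg G ∩ A).card : ℝ) - p * A.card|) ≤
      2 * Real.exp (-(t / 2) * Real.log (1 + t / μ)) := by
  set x : ℝ := t / μ with hx
  have hx0 : 0 ≤ x := div_nonneg ht hμ.le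
  have htx : t = μ * x := by
    rw [hx]
    field_simp
  set s : ℝ := Real.log (1 + x) with hs
  have hs0 : 0 ≤ s := Real.log_nonneg (by linarith)
  have hes : Real.exp s = 1 + x := Real.exp_log (by linarith)
  have hsx : s ≤ x := by
    have := Real.log_le_sub_one_of_pos (show 0 < 1 + x by linarith)
    linarith
  set ν : ℝ := p * A.card with hν
  have hν0 : 0 ≤ ν := mul_nonneg h0 (Nat.cast_nonneg _)
  have hlow : 2 * x / (x + 2) ≤ s := Real.le_log_one_add_of_nonneg hx0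
  rw [div_le_iff₀ (by linarith)] at hlow
  -- upper tail
  have hup : ∑ G : SimpleGraph (Fin n), ms n p G *
      Real.exp (s * ((edg G ∩ A).card : ℝ) + (-s * (ν + t))) ≤
      Real.exp (-(t / 2) * s) := by
    refine (rg2_mgf h0 h1 hA s _).trans ?_
    rw [Real.exp_le_exp, ← hν, hes]
    have h2 : ν * (x - s) ≤ μ * (x - s) := mul_le_mul_of_nonneg_right hpμ (by linarith)
    have h3 : μ * (2 * x) ≤ μ * (s * (x + 2)) := mul_le_mul_of_nonneg_left hlow hμ.le
    rw [htx]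
    nlinarith
  have hdn : ∑ G : SimpleGraph (Fin n), ms n p G *
      Real.exp (-s * ((edg G ∩ A).card : ℝ) + s * (ν - t)) ≤
      Real.exp (-(t / 2) * s) := by
    refine (rg2_mgf h0 h1 hA (-s) _).trans ?_
    rw [Real.exp_le_exp, ← hν]
    have h2 := rg2_exp_neg hs0
    have h3 : 0 ≤ Real.exp (-s) - 1 + s := by
      have := Real.add_one_le_exp (-s)
      linarith
    have h4 : ν * (Real.exp (-s) - 1 + s) ≤ μ * (Real.exp (-s) - 1 + s) :=
      mul_le_mul_of_nonneg_right hpμ h3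
    have h5 : μ * (Real.exp (-s) - 1 + s) ≤ μ * (s ^ 2 / 2) :=
      mul_le_mul_of_nonneg_left (by linarith) hμ.le
    have h6 : μ * (s * s) ≤ μ * (x * s) :=
      mul_le_mul_of_nonneg_left (mul_le_mul_of_nonneg_right hsx hs0) hμ.le
    rw [htx]
    nlinarith
  classical
  rw [pr_eq]
  calc ∑ G : SimpleGraph (Fin n), ms n p G *
        (if t ≤ |((edg G ∩ A).card : ℝ) - ν| then (1 : ℝ) else 0)
      ≤ ∑ G : SimpleGraph (Fin n), (ms n p G *
          Real.exp (s * ((edg G ∩ A).card : ℝ) + (-s * (ν + t))) + ms n p G *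
          Real.exp (-s * ((edg G ∩ A).card : ℝ) + s * (ν - t))) := by
        refine sum_le_sum fun G _ => ?_
        rw [← mul_add]
        refine mul_le_mul_of_nonneg_left ?_ (ms_nonneg n h0 h1 G)
        have p1 := Real.exp_pos (s * ((edg G ∩ A).card : ℝ) + (-s * (ν + t)))
        have p2 := Real.exp_pos (-s * ((edg G ∩ A).card : ℝ) + s * (ν - t))
        split_ifs with hc
        · rcases le_abs.mp hc with h2 | h2
          · have h3 : 0 ≤ s * ((edg G ∩ A).card : ℝ) + (-s * (ν + t)) := by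
              have := mul_nonneg hs0 (show 0 ≤ ((edg G ∩ A).card : ℝ) - ν - t by linarith)
              linarith
            have := Real.one_le_exp h3
            linarith
          · have h3 : 0 ≤ -s * ((edg G ∩ A).card : ℝ) + s * (ν - t) := by
              have := mul_nonneg hs0 (show 0 ≤ ν - t - ((edg G ∩ A).card : ℝ) by linarith)
              linarith
            have := Real.one_le_exp h3
            linarith
        · linarith
    _ ≤ 2 * Real.exp (-(t / 2) * s) := by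
        rw [sum_add_distrib]
        linarith

end Pool.Agent.SOSC
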