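import Pool.Agent.SOSC.RG2

/-!
# SOSC RG3: the discrepancy property holds with high probability

`p = d/n`.  If `Disc` fails there are `X, Y` (both nonempty: if one is empty, so is the other, and
the inequality holds) with `x = |X|`, `y = |Y|`, `α² y ≤ Δ² x`, `α² x ≤ Δ² y` and
`|eL G X Y - p |bx X Y|| > t := α √(x y)`.  Let `m = max x y`, `μ = (d/n) x y ≥ p |bx X Y|`.
`t ≥ α (α/Δ) m = α² m/Δ` and `t/μ = α n/(d √(xy)) ≥ (α/d)(n/m)`.  With `a = α/d ≤ 1`,
`ρ = n/m ≥ 1`: `log(1 + aρ) ≥ a log(1+ρ)` (concavity) and `log(1+ρ) ≥ (1/2)(1 + log ρ)`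
(true at `ρ = 1` since `log 2 ≥ 1/2`; derivatives `1/(1+ρ) ≥ 1/(2ρ)`).  So by `pr_tail` the
probability for this pair is at most
`2 exp(-(α² m/(2Δ)) (α/(2d)) (1 + log(n/m))) ≤ 2 exp(-8 m (1 + log(n/m)))`, because `32 d Δ ≤ α³`.

The function `g(j) = j (1 + log(n/j))` is increasing for `1 ≤ j ≤ n`, so
`8 g(m) ≥ 4 g(x) + 4 g(y)`, and the union bound gives
`P(¬ Disc) ≤ 2 (∑_{X ≠ ∅} exp(-4 g(|X|)))²`.  `∑_{X ≠ ∅} exp(-4 g(|X|)) = ∑_{j=1}^n (n choose j) exp(-4 g(j))`,
`(n choose j) ≤ (e n/j)^j = exp(g(j))`, so it is at most `∑_{j=1}^n exp(-3 g(j)) ≤ n exp(-3 g(1))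
= n exp(-3 (1 + log n)) ≤ 1/n²`.  So `P(¬ Disc) ≤ 2/n⁴ ≤ 2/n`.
-/

set_option autoImplicit false
set_option linter.unusedSectionVars false

namespace Pool.Agent.SOSC

open Finset


/-- `g(a) = a (1 + log (n / a))` is increasing -/
private theorem rg3_mono {n a b : ℝ} (ha : 0 < a) (hab : a ≤ b) (hbn : b ≤ n) :
    a * (1 + Real.log (n / a)) ≤ b * (1 + Real.log (n / b)) := by
  have hb : 0 < b := lt_of_lt_of_le ha hab
  have hn : 0 < n := lt_of_lt_of_le hb hbn
  have h1 : Real.log (n / a) = Real.log (n / b) + Real.log (b / a) := by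
    rw [← Real.log_mul (by positivity) (by positivity)]
    congr 1
    field_simp
  have h2 : 0 ≤ Real.log (n / b) := Real.log_nonneg (by rw [le_div_iff₀ hb]; linarith)
  have h3 : Real.log (b / a) ≤ b / a - 1 := Real.log_le_sub_one_of_pos (by positivity)
  have h4 : a * Real.log (b / a) ≤ b - a := by
    have := mul_le_mul_of_nonneg_left h3 ha.le
    have e : a * (b / a - 1) = b - a := by field_simp
    linarith
  rw [h1]
  nlinarith [mul_nonneg (sub_nonneg.mpr hab) h2]

/-- `(n choose j) ≤ exp (j (1 + log (n / j)))` -/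
private theorem rg3_choose {n j : ℕ} (hj : 0 < j) (hn : 0 < n) :
    (n.choose j : ℝ) ≤ Real.exp (j * (1 + Real.log (n / j))) := by
  have hj0 : (0 : ℝ) < j := by exact_mod_cast hj
  have hn0 : (0 : ℝ) < n := by exact_mod_cast hn
  have h1 : (n.choose j : ℝ) ≤ (n : ℝ) ^ j / (j.factorial : ℝ) := Nat.choose_le_pow_div j n
  have h2 := Real.pow_div_factorial_le_exp (j : ℝ) hj0.le j
  have h3 : (n : ℝ) ^ j / (j.factorial : ℝ) ≤ (n / j : ℝ) ^ j * Real.exp j := by
    have : (n : ℝ) ^ j / (j.factorial : ℝ) = (n / j : ℝ) ^ j * ((j : ℝ) ^ j / (j.factorial : ℝ)) := by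
      rw [div_pow]
      field_simp
    rw [this]
    exact mul_le_mul_of_nonneg_left h2 (by positivity)
  have h4 : (n / j : ℝ) ^ j * Real.exp j = Real.exp (j * (1 + Real.log (n / j))) := by
    rw [mul_add, mul_one, Real.exp_add, mul_comm, ← Real.exp_log (show (0 : ℝ) < n / j by positivity),
      ← Real.exp_nat_mul, Real.log_exp]
  linarith

/-- `log (1 + a ρ) ≥ (a / 2) (1 + log ρ)` -/
private theorem rg3_log {a ρ : ℝ} (ha : 0 < a) (ha1 : a ≤ 1) (hρ : 1 ≤ ρ) :
    a / 2 * (1 + Real.log ρ) ≤ Real.log (1 + a * ρ) := by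
  have h1 : a * Real.log (1 + ρ) ≤ Real.log (1 + a * ρ) := by
    have h2 := rpow_one_add_le_one_add_mul_self (show (-1 : ℝ) ≤ ρ by linarith) ha.le ha1
    have h3 : 0 < (1 + ρ) ^ a := Real.rpow_pos_of_pos (by linarith) _
    have h4 := Real.log_le_log h3 h2
    rwa [Real.log_rpow (by linarith)] at h4
  have h5 : 1 + Real.log ρ ≤ 2 * Real.log (1 + ρ) := by
    have h6 : Real.exp 1 * ρ ≤ (1 + ρ) ^ 2 := by
      have := Real.exp_one_lt_d9
      nlinarith [sq_nonneg (ρ - 1)]
    have h7 := Real.log_le_log (by positivity) h6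
    rw [Real.log_mul (Real.exp_pos 1).ne' (by positivity), Real.log_exp, Real.log_pow] at h7
    exact_mod_cast h7
  nlinarith

/-- the exponent -/
private noncomputable def gg (n : ℕ) (j : ℕ) : ℝ := (j : ℝ) * (1 + Real.log (n / j))

private theorem gg_mono {n i j : ℕ} (hi : 0 < i) (hij : i ≤ j) (hj : j ≤ n) : gg n i ≤ gg n j := by
  unfold gg
  exact rg3_mono (by exact_mod_cast hi) (by exact_mod_cast hij) (by exact_mod_cast hj)

private theorem gg_sum {n : ℕ} (hn : 0 < n) :
    ∑ X ∈ (univ : Finset (Finset (Fin n))).filter (fun X => X.Nonempty),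
      Real.exp (-4 * gg n X.card) ≤ 1 / (n : ℝ) ^ 2 := by
  have hn0 : (0 : ℝ) < n := by exact_mod_cast hn
  have e1 : ∑ X ∈ (univ : Finset (Finset (Fin n))).filter (fun X => X.Nonempty),
      Real.exp (-4 * gg n X.card) =
      ∑ X ∈ (univ : Finset (Fin n)).powerset,
        (fun j : ℕ => if j = 0 then (0 : ℝ) else Real.exp (-4 * gg n j)) X.card := by
    rw [sum_filter]
    refine sum_congr (by simp) fun X _ => ?_
    by_cases hX : X.Nonempty
    · rw [if_pos hX]
      simp only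
      rw [if_neg hX.card_pos.ne']
    · rw [if_neg hX]
      rw [not_nonempty_iff_eq_empty] at hX
      simp [hX]
  rw [e1, sum_powerset_apply_card (fun j : ℕ => if j = 0 then (0 : ℝ) else
    Real.exp (-4 * gg n j)), card_univ, Fintype.card_fin, sum_range_succ']
  simp only [Nat.succ_ne_zero, if_false, if_true, smul_zero, add_zero, nsmul_eq_mul]
  have hb : ∀ j ∈ range n, (n.choose (j + 1) : ℝ) * Real.exp (-4 * gg n (j + 1)) ≤
      Real.exp (-3 * gg n 1) := by
    intro j hj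
    rw [mem_range] at hj
    have h1 := rg3_choose (n := n) (Nat.succ_pos j) hn
    have h2 : gg n 1 ≤ gg n (j + 1) := gg_mono (by omega) (by omega) (by omega)
    have h3 : Real.exp (gg n (j + 1)) * Real.exp (-4 * gg n (j + 1)) =
        Real.exp (-3 * gg n (j + 1)) := by
      rw [← Real.exp_add]
      congr 1
      ring
    calc (n.choose (j + 1) : ℝ) * Real.exp (-4 * gg n (j + 1))
        ≤ Real.exp (gg n (j + 1)) * Real.exp (-4 * gg n (j + 1)) :=
          mul_le_mul_of_nonneg_right h1 (Real.exp_pos _).le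
      _ = Real.exp (-3 * gg n (j + 1)) := h3
      _ ≤ Real.exp (-3 * gg n 1) := by
          rw [Real.exp_le_exp]
          linarith
  have hs := sum_le_sum hb
  rw [sum_const, card_range, nsmul_eq_mul] at hs
  refine hs.trans ?_
  have h1 : gg n 1 = 1 + Real.log n := by
    unfold gg
    simp
  have h1' : Real.exp (-(((3 : ℕ) : ℝ) * Real.log n)) = ((n : ℝ) ^ 3)⁻¹ := by
    rw [Real.exp_neg, Real.exp_nat_mul, Real.exp_log hn0]
  rw [h1, show -3 * (1 + Real.log (n : ℝ)) = -3 + -(((3 : ℕ) : ℝ) * Real.log n) by push_cast; ring,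
    Real.exp_add, h1']
  have h2 : Real.exp (-3) ≤ 1 := Real.exp_le_one_iff.mpr (by norm_num)
  have h3 : (n : ℝ) * (Real.exp (-3) * ((n : ℝ) ^ 3)⁻¹) = Real.exp (-3) * (1 / (n : ℝ) ^ 2) := by
    field_simp
  rw [h3]
  have h4 : 0 ≤ 1 / (n : ℝ) ^ 2 := by positivity
  nlinarith

private theorem rg3_pair {d α Δ : ℝ} (hd : 0 < d) (hα : 0 < α) (hαd : α ≤ d) (hΔ : 0 < Δ)
    (h : 32 * d * Δ ≤ α ^ 3) {n : ℕ} (hn : d ≤ n) {X Y : Finset (Fin n)} (hX : X.Nonempty)
    (hY : Y.Nonempty) (h1 : α ^ 2 * Y.card ≤ Δ ^ 2 * X.card)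
    (h2 : α ^ 2 * X.card ≤ Δ ^ 2 * Y.card) :
    Pr n (d / n) (fun G => α * Real.sqrt (X.card * Y.card) ≤
      |(eL G X Y : ℝ) - d / n * (bx X Y).card|) ≤
      2 * (Real.exp (-4 * gg n X.card) * Real.exp (-4 * gg n Y.card)) := by
  have hn0 : (0 : ℝ) < n := lt_of_lt_of_le hd hn
  have hx : (0 : ℝ) < X.card := by exact_mod_cast hX.card_pos
  have hy : (0 : ℝ) < Y.card := by exact_mod_cast hY.card_pos
  have hxn : X.card ≤ n := by
    have := card_le_univ X
    rwa [Fintype.card_fin] at this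
  have hyn : Y.card ≤ n := by
    have := card_le_univ Y
    rwa [Fintype.card_fin] at this
  set x : ℝ := (X.card : ℝ) with hxd
  set y : ℝ := (Y.card : ℝ) with hyd
  set m : ℕ := max X.card Y.card with hm
  have hm0 : 0 < m := lt_of_lt_of_le hX.card_pos (le_max_left _ _)
  have hmn : m ≤ n := max_le hxn hyn
  have hmr : (0 : ℝ) < m := by exact_mod_cast hm0
  have hmnr : (m : ℝ) ≤ n := by exact_mod_cast hmn
  have hxm : x ≤ m := by
    have : X.card ≤ m := le_max_left _ _
    rw [hxd]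
    exact_mod_cast this
  have hym : y ≤ m := by
    have : Y.card ≤ m := le_max_right _ _
    rw [hyd]
    exact_mod_cast this
  set t : ℝ := α * Real.sqrt (x * y) with ht
  set μ : ℝ := d / n * (x * y) with hμ
  have hxy : 0 < x * y := mul_pos hx hy
  have hs0 : 0 < Real.sqrt (x * y) := Real.sqrt_pos.mpr hxy
  have ht0 : 0 < t := mul_pos hα hs0
  have hμ0 : 0 < μ := by positivity
  -- lower bound for the geometric mean
  have hmin : α ^ 2 * (m : ℝ) ^ 2 ≤ Δ ^ 2 * (x * y) := by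
    rcases max_choice X.card Y.card with hc | hc
    · have e : (m : ℝ) = x := by rw [hm, hc]
      rw [e]
      nlinarith
    · have e : (m : ℝ) = y := by rw [hm, hc]
      rw [e]
      nlinarith
  have hsm : α * m ≤ Δ * Real.sqrt (x * y) := by
    have h3 : (α * m) ^ 2 ≤ (Δ * Real.sqrt (x * y)) ^ 2 := by
      rw [mul_pow, mul_pow, Real.sq_sqrt hxy.le]
      exact hmin
    exact (sq_le_sq₀ (by positivity) (by positivity)).mp h3
  have hsm2 : Real.sqrt (x * y) ≤ m := by
    rw [Real.sqrt_le_left hmr.le]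
    nlinarith
  have htm : α ^ 2 * m / Δ ≤ t := by
    rw [div_le_iff₀ hΔ, ht]
    nlinarith
  have htμ : α / d * (n / m) ≤ t / μ := by
    have e : t / μ = α / d * (n / Real.sqrt (x * y)) := by
      rw [ht, hμ]
      have : x * y = Real.sqrt (x * y) * Real.sqrt (x * y) := (Real.mul_self_sqrt hxy.le).symm
      rw [this, Real.sqrt_mul_self hs0.le]
      field_simp
    rw [e]
    refine mul_le_mul_of_nonneg_left ?_ (by positivity)
    exact div_le_div_of_nonneg_left hn0.le hs0 hsm2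
  have hlog : α / (2 * d) * (1 + Real.log (n / m)) ≤ Real.log (1 + t / μ) := by
    have h3 := rg3_log (a := α / d) (ρ := n / m) (by positivity)
      (by rw [div_le_one hd]; exact hαd) (by rw [le_div_iff₀ hmr]; linarith)
    have h4 : Real.log (1 + α / d * (n / m)) ≤ Real.log (1 + t / μ) :=
      Real.log_le_log (by positivity) (by linarith)
    have e : α / (2 * d) = α / d / 2 := by
      field_simp
    rw [e]
    exact h3.trans h4
  have hlm : 0 ≤ 1 + Real.log (n / m) := by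
    have := Real.log_nonneg (show 1 ≤ (n : ℝ) / m by rw [le_div_iff₀ hmr]; linarith)
    linarith
  have hexp : 8 * gg n m ≤ t / 2 * Real.log (1 + t / μ) := by
    have h3 : 8 * gg n m = 8 * m * (1 + Real.log (n / m)) := by
      unfold gg
      ring
    rw [h3]
    have h4 : 8 * (m : ℝ) ≤ α ^ 2 * m / Δ / 2 * (α / (2 * d)) := by
      have e : α ^ 2 * m / Δ / 2 * (α / (2 * d)) = α ^ 3 * m / (4 * d * Δ) := by
        field_simp
        ring
      rw [e, le_div_iff₀ (by positivity)]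
      nlinarith
    calc 8 * (m : ℝ) * (1 + Real.log (n / m))
        ≤ α ^ 2 * m / Δ / 2 * (α / (2 * d)) * (1 + Real.log (n / m)) :=
          mul_le_mul_of_nonneg_right h4 hlm
      _ = α ^ 2 * m / Δ / 2 * (α / (2 * d) * (1 + Real.log (n / m))) := by ring
      _ ≤ t / 2 * (α / (2 * d) * (1 + Real.log (n / m))) := by
          refine mul_le_mul_of_nonneg_right (by linarith) ?_
          exact mul_nonneg (by positivity) hlm
      _ ≤ t / 2 * Real.log (1 + t / μ) := mul_le_mul_of_nonneg_left hlog (by positivity)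
  have hgx : gg n X.card ≤ gg n m := gg_mono hX.card_pos (le_max_left _ _) hmn
  have hgy : gg n Y.card ≤ gg n m := gg_mono hY.card_pos (le_max_right _ _) hmn
  -- tail bound
  have hp0 : 0 ≤ d / n := by positivity
  have hp1 : d / n ≤ 1 := by rw [div_le_one hn0]; exact hn
  have hsub : bx X Y ⊆ prs n := by
    intro z hz
    unfold bx at hz
    rw [mem_filter] at hz
    unfold prs
    rw [mem_filter]
    exact ⟨mem_univ _, hz.2⟩
  have hcard : ((bx X Y).card : ℝ) ≤ x * y := by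
    have h3 : (bx X Y).card ≤ X.card * Y.card := by
      unfold bx
      exact (card_filter_le _ _).trans (card_product X Y).le
    rw [hxd, hyd]
    exact_mod_cast h3
  have htail := pr_tail n hp0 hp1 hsub hμ0
    (mul_le_mul_of_nonneg_left hcard hp0) ht0.le
  have e1 : Pr n (d / n) (fun G => t ≤ |(eL G X Y : ℝ) - d / n * (bx X Y).card|) =
      Pr n (d / n) (fun G => t ≤ |((edg G ∩ bx X Y).card : ℝ) - d / n * (bx X Y).card|) := by
    simp only [eL_eq]
  rw [e1]
  refine htail.trans ?_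
  rw [← Real.exp_add]
  refine mul_le_mul_of_nonneg_left ?_ (by norm_num)
  rw [Real.exp_le_exp]
  linarith

theorem pr_disc {d α Δ : ℝ} (hd : 0 < d) (hα : 0 < α) (hαd : α ≤ d) (hΔ : 0 < Δ)
    (h : 32 * d * Δ ≤ α ^ 3) (n : ℕ) (hn : d ≤ n) :
    Pr n (d / n) (fun G => ¬ Disc n d α Δ G) ≤ 2 / n := by
  classical
  have hn0 : (0 : ℝ) < n := lt_of_lt_of_le hd hn
  have hn1 : 0 < n := by exact_mod_cast hn0
  have hp0 : 0 ≤ d / n := by positivity
  have hp1 : d / n ≤ 1 := by rw [div_le_one hn0]; exact hn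
  set NE : Finset (Finset (Fin n)) := (univ : Finset (Finset (Fin n))).filter (fun X => X.Nonempty)
    with hNE
  set I : Finset (Finset (Fin n) × Finset (Fin n)) := (NE ×ˢ NE).filter (fun z =>
    α ^ 2 * z.2.card ≤ Δ ^ 2 * z.1.card ∧ α ^ 2 * z.1.card ≤ Δ ^ 2 * z.2.card) with hI
  have h1 : Pr n (d / n) (fun G => ¬ Disc n d α Δ G) ≤
      Pr n (d / n) (fun G => ∃ z ∈ I, α * Real.sqrt (z.1.card * z.2.card) ≤
        |(eL G z.1 z.2 : ℝ) - d / n * (bx z.1 z.2).card|) := by
    refine pr_mono n hp0 hp1 fun G hG => ?_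
    unfold Disc at hG
    push Not at hG
    obtain ⟨X, Y, h1, h2, h3⟩ := hG
    have hα2 : 0 < α ^ 2 := by positivity
    have hne : X.Nonempty ∧ Y.Nonempty := by
      by_contra hc
      have h0 : X = ∅ ∧ Y = ∅ := by
        by_cases hX : X.Nonempty
        · have hY : Y = ∅ := by
            rw [← not_nonempty_iff_eq_empty]
            exact fun hY => hc ⟨hX, hY⟩
          rw [hY] at h2
          simp only [card_empty, Nat.cast_zero, mul_zero] at h2
          have h5 : (0 : ℝ) < X.card := by exact_mod_cast hX.card_pos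
          nlinarith
        · rw [not_nonempty_iff_eq_empty] at hX
          rw [hX] at h1
          simp only [card_empty, Nat.cast_zero, mul_zero] at h1
          refine ⟨hX, ?_⟩
          by_contra hY
          have h5 : (0 : ℝ) < Y.card := by
            exact_mod_cast (nonempty_iff_ne_empty.mpr hY).card_pos
          nlinarith
      rw [h0.1, h0.2] at h3
      simp [eL, bx] at h3
    refine ⟨(X, Y), ?_, h3.le⟩
    rw [hI, mem_filter, mem_product, hNE, mem_filter, mem_filter]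
    exact ⟨⟨⟨mem_univ _, hne.1⟩, ⟨mem_univ _, hne.2⟩⟩, h1, h2⟩
  have h2 : ∀ z ∈ I, Pr n (d / n) (fun G => α * Real.sqrt (z.1.card * z.2.card) ≤
        |(eL G z.1 z.2 : ℝ) - d / n * (bx z.1 z.2).card|) ≤
      2 * (Real.exp (-4 * gg n z.1.card) * Real.exp (-4 * gg n z.2.card)) := by
    intro z hz
    rw [hI, mem_filter, mem_product, hNE, mem_filter, mem_filter] at hz
    exact rg3_pair hd hα hαd hΔ h hn hz.1.1.2 hz.1.2.2 hz.2.1 hz.2.2
  have hG := gg_sum hn1
  have hG0 : 0 ≤ ∑ X ∈ NE, Real.exp (-4 * gg n X.card) := sum_nonneg fun X _ => (Real.exp_pos _).le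
  calc Pr n (d / n) (fun G => ¬ Disc n d α Δ G)
      ≤ ∑ z ∈ I, Pr n (d / n) (fun G => α * Real.sqrt (z.1.card * z.2.card) ≤
        |(eL G z.1 z.2 : ℝ) - d / n * (bx z.1 z.2).card|) := h1.trans (pr_union n hp0 hp1 I _)
    _ ≤ ∑ z ∈ I, 2 * (Real.exp (-4 * gg n z.1.card) * Real.exp (-4 * gg n z.2.card)) :=
        sum_le_sum h2
    _ ≤ ∑ z ∈ NE ×ˢ NE, 2 * (Real.exp (-4 * gg n z.1.card) * Real.exp (-4 * gg n z.2.card)) :=
        sum_le_sum_of_subset_of_nonneg (filter_subset _ _) fun z _ _ => by positivity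
    _ = 2 * ((∑ X ∈ NE, Real.exp (-4 * gg n X.card)) *
          ∑ X ∈ NE, Real.exp (-4 * gg n X.card)) := by
        rw [← mul_sum, sum_product, sum_mul_sum]
    _ ≤ 2 * (1 / (n : ℝ) ^ 2 * (1 / (n : ℝ) ^ 2)) := by
        refine mul_le_mul_of_nonneg_left ?_ (by norm_num)
        exact mul_le_mul hG hG hG0 (by positivity)
    _ ≤ 2 / n := by
        have h5 : (1 : ℝ) ≤ n := by exact_mod_cast hn1
        rw [show 2 * (1 / (n : ℝ) ^ 2 * (1 / (n : ℝ) ^ 2)) = 2 / (n : ℝ) ^ 4 by field_simp]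
        exact div_le_div_of_nonneg_left (by norm_num) hn0 (le_self_pow₀ h5 (by norm_num))

end Pool.Agent.SOSC
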