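import Mathlib

/-!
# SOSC: the binomial random graph, definitions
-/

set_option autoImplicit false
set_option linter.unusedSectionVars false

namespace Pool.Agent.SOSC

open Finset

open Classical in
/-- Probability that the random graph `G(n,p)` has the property `A`. -/
noncomputable def Pr (n : ℕ) (p : ℝ) (A : SimpleGraph (Fin n) → Prop) : ℝ :=
  ∑ G : SimpleGraph (Fin n),
    if A G then p ^ G.edgeSet.ncard * (1 - p) ^ (n.choose 2 - G.edgeSet.ncard) else 0

/-- The pairs `i < j`. -/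
def prs (n : ℕ) : Finset (Fin n × Fin n) := univ.filter (fun x => x.1 < x.2)

open Classical in
/-- The edges of `G` as pairs `i < j`. -/
noncomputable def edg {n : ℕ} (G : SimpleGraph (Fin n)) : Finset (Fin n × Fin n) :=
  (prs n).filter (fun x => G.Adj x.1 x.2)

/-- The pairs `(u, v) ∈ X × Y` with `u < v`. -/
def bx {n : ℕ} (X Y : Finset (Fin n)) : Finset (Fin n × Fin n) :=
  (X ×ˢ Y).filter (fun x => x.1 < x.2)

open Classical in
/-- Number of edges `u < v` with `u ∈ X`, `v ∈ Y`. -/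
noncomputable def eL {n : ℕ} (G : SimpleGraph (Fin n)) (X Y : Finset (Fin n)) : ℕ :=
  ((X ×ˢ Y).filter (fun x => x.1 < x.2 ∧ G.Adj x.1 x.2)).card

/-- Discrepancy condition for balanced pairs of sets. -/
def Disc (n : ℕ) (d α Δ : ℝ) (G : SimpleGraph (Fin n)) : Prop :=
  ∀ X Y : Finset (Fin n), α ^ 2 * Y.card ≤ Δ ^ 2 * X.card → α ^ 2 * X.card ≤ Δ ^ 2 * Y.card →
    |(eL G X Y : ℝ) - d / n * (bx X Y).card| ≤ α * Real.sqrt (X.card * Y.card)

/-- Large sets do not have too many incident edges. -/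
def HighOk (n : ℕ) (d Δ : ℝ) (G : SimpleGraph (Fin n)) : Prop :=
  ∀ X : Finset (Fin n), (n : ℝ) ≤ d * X.card →
    (eL G X univ : ℝ) ≤ Δ / 2 * X.card ∧ (eL G univ X : ℝ) ≤ Δ / 2 * X.card

open Classical in
/-- The vertices on cycles of length 3, 4 or 6. -/
noncomputable def shortV {n : ℕ} (G : SimpleGraph (Fin n)) : Finset (Fin n) :=
  univ.filter (fun v =>
    (∃ a b, G.Adj v a ∧ G.Adj a b ∧ G.Adj b v) ∨
    (∃ a b c, v ≠ b ∧ a ≠ c ∧ G.Adj v a ∧ G.Adj a b ∧ G.Adj b c ∧ G.Adj c v) ∨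
    (∃ f : Fin 6 → Fin n, Function.Injective f ∧ f 0 = v ∧ ∀ i, G.Adj (f i) (f (i + 1))))

/-- The graph obtained by deleting all edges with an end in `T`. -/
def del {V : Type*} (G : SimpleGraph V) (T : Finset V) : SimpleGraph V where
  Adj u v := u ∉ T ∧ v ∉ T ∧ G.Adj u v
  symm := ⟨fun _ _ h => ⟨h.2.1, h.1, h.2.2.symm⟩⟩
  loopless := ⟨fun _ h => G.loopless.irrefl _ h.2.2⟩

/-- The typical properties of the random graph. -/
structure Good (n : ℕ) (d α Δ : ℝ) (G : SimpleGraph (Fin n)) : Prop where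
  disc : Disc n d α Δ G
  high : HighOk n d Δ G
  short : ((shortV G).card : ℝ) * d ≤ n

end Pool.Agent.SOSC
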