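import Pool.Agent.SOSC.Form

/-!
# SOSC REIDX: reindexing the sum over matched pairs

* `mat_insert`: if `Mat G S0 T0`, `u` and `v` are adjacent, not in `X = S0 ∪ T0` and without
  neighbours in `X`, then `(insert u S0, insert v T0)` is matched, with one more edge:
  `insert u S0 \ insert v T0 = insert u (S0 \ T0)`.
* `jj_insert`: the product `JJ` gets the additional factor `1[c u = c v]` (`u ~ v`, and `u`, `v` are
  not adjacent to the other vertices).
* `reindex`: the map `(S0, T0, u, v) ↦ (insert u S0, insert v T0, u)` is a bijection from the set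
  of quadruples with `Mat G S0 T0`, `|S0 \ T0| = m - 1`, `u ~ v`, `u, v` allowed for `S0 ∪ T0`, onto
  the set of triples `(S, T, s)` with `Mat G S T`, `|S \ T| = m`, `s ∈ S \ T`; the inverse is
  `(S, T, s) ↦ (S.erase s, T.erase t, s, t)` with `t` the partner of `s`.  The sum over the triples
  counts every pair `(S, T)` exactly `m` times.
-/

set_option autoImplicit false
set_option linter.unusedSectionVars false

namespace Pool.Agent.SOSC

open Finset

variable {V : Type*} [Fintype V] [DecidableEq V] {k : ℕ}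

private theorem reidx_sdiff {G : SimpleGraph V} {S T : Finset V} {u v : V}
    (huv : G.Adj u v) (hu : Alw G (S ∪ T) u) (hv : Alw G (S ∪ T) v) :
    (insert u S \ insert v T) = insert u (S \ T) := by
  have hne : u ≠ v := huv.ne
  have hu1 := hu.1
  have hv1 := hv.1
  rw [mem_union, not_or] at hu1 hv1
  ext x
  simp only [mem_sdiff, mem_insert]
  constructor
  · rintro ⟨h1 | h1, h2⟩
    · exact Or.inl h1
    · exact Or.inr ⟨h1, fun h => h2 (Or.inr h)⟩
  · rintro (h1 | ⟨h1, h2⟩)
    · subst h1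
      refine ⟨Or.inl rfl, ?_⟩
      rintro (h | h)
      · exact hne h
      · exact hu1.2 h
    · refine ⟨Or.inr h1, ?_⟩
      rintro (h | h)
      · subst h
        exact hv1.1 h1
      · exact h2 h

private theorem alw_comm {G : SimpleGraph V} {S T : Finset V} {u : V}
    (hu : Alw G (S ∪ T) u) : Alw G (T ∪ S) u := by
  rwa [union_comm]

private theorem reidx_half {G : SimpleGraph V} {S T : Finset V}
    (h : ∀ s ∈ S \ T, ∃ t ∈ T \ S, G.Adj s t ∧ ∀ x ∈ S ∪ T, G.Adj s x → x = t) {u v : V}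
    (huv : G.Adj u v) (hu : Alw G (S ∪ T) u) (hv : Alw G (S ∪ T) v) :
    ∀ s ∈ insert u S \ insert v T, ∃ t ∈ insert v T \ insert u S, G.Adj s t ∧
      ∀ x ∈ insert u S ∪ insert v T, G.Adj s x → x = t := by
  intro s hs
  rw [reidx_sdiff huv hu hv, mem_insert] at hs
  rw [reidx_sdiff huv.symm (alw_comm hv) (alw_comm hu)]
  rcases hs with rfl | hs
  · refine ⟨v, mem_insert_self _ _, huv, ?_⟩
    intro x hx hsx
    simp only [mem_union, mem_insert] at hx
    rcases hx with (h1 | h1) | (h1 | h1)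
    · subst h1
      exact absurd hsx (G.loopless.irrefl _)
    · exact absurd hsx (hu.2 x (mem_union_left _ h1))
    · exact h1
    · exact absurd hsx (hu.2 x (mem_union_right _ h1))
  · obtain ⟨t, ht, hst, huniq⟩ := h s hs
    refine ⟨t, mem_insert_of_mem ht, hst, ?_⟩
    intro x hx hsx
    have hsS : s ∈ S ∪ T := mem_union_left _ (mem_sdiff.1 hs).1
    simp only [mem_union, mem_insert] at hx
    rcases hx with (h1 | h1) | (h1 | h1)
    · subst h1
      exact absurd hsx.symm (hu.2 s hsS)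
    · exact huniq x (mem_union_left _ h1) hsx
    · subst h1
      exact absurd hsx.symm (hv.2 s hsS)
    · exact huniq x (mem_union_right _ h1) hsx

theorem mat_insert {G : SimpleGraph V} {S T : Finset V} (h : Mat G S T) {u v : V}
    (huv : G.Adj u v) (hu : Alw G (S ∪ T) u) (hv : Alw G (S ∪ T) v) :
    Mat G (insert u S) (insert v T) ∧ (insert u S \ insert v T) = insert u (S \ T) ∧
      (insert u S ∩ insert v T) = S ∩ T := by
  refine ⟨⟨reidx_half h.1 huv hu hv, ?_⟩, reidx_sdiff huv hu hv, ?_⟩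
  · have h2 : ∀ s ∈ T \ S, ∃ t ∈ S \ T, G.Adj s t ∧ ∀ x ∈ T ∪ S, G.Adj s x → x = t := by
      rw [union_comm]
      exact h.2
    have h3 := reidx_half h2 huv.symm (alw_comm hv) (alw_comm hu)
    rw [union_comm]
    exact h3
  · have hne : u ≠ v := huv.ne
    have hu1 := hu.1
    have hv1 := hv.1
    rw [mem_union, not_or] at hu1 hv1
    ext x
    simp only [mem_inter, mem_insert]
    constructor
    · rintro ⟨h1 | h1, h2 | h2⟩
      · exact absurd (h1.symm.trans h2) hne
      · subst h1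
        exact absurd h2 hu1.2
      · subst h2
        exact absurd h1 hv1.1
      · exact ⟨h1, h2⟩
    · rintro ⟨h1, h2⟩
      exact ⟨Or.inr h1, Or.inr h2⟩

theorem jj_insert {G : SimpleGraph V} {S T : Finset V} (h : Mat G S T) {u v : V}
    (huv : G.Adj u v) (hu : Alw G (S ∪ T) u) (hv : Alw G (S ∪ T) v) (c : V → Fin k) :
    JJ G (insert u S) (insert v T) c = JJ G S T c * (if c u = c v then 1 else 0) := by
  classical
  have huST : u ∉ S \ T := fun h1 => hu.1 (mem_union_left _ (mem_sdiff.1 h1).1)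
  have hvTS : v ∉ T \ S := fun h1 => hv.1 (mem_union_right _ (mem_sdiff.1 h1).1)
  unfold JJ
  rw [reidx_sdiff huv hu hv, reidx_sdiff huv.symm (alw_comm hv) (alw_comm hu),
    prod_insert huST, prod_insert hvTS, if_pos huv]
  have h1 : ∏ t ∈ T \ S, (if G.Adj u t then (if c u = c t then (1 : ℝ) else 0) else 1) = 1 := by
    apply prod_eq_one
    intro t ht
    rw [if_neg (hu.2 t (mem_union_right _ (mem_sdiff.1 ht).1))]
  have h2 : ∏ s ∈ S \ T, ∏ t ∈ insert v (T \ S),
      (if G.Adj s t then (if c s = c t then (1 : ℝ) else 0) else 1) =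
      ∏ s ∈ S \ T, ∏ t ∈ T \ S,
        (if G.Adj s t then (if c s = c t then (1 : ℝ) else 0) else 1) := by
    refine prod_congr rfl fun s hs => ?_
    rw [prod_insert hvTS, if_neg, one_mul]
    intro h3
    exact hv.2 s (mem_union_left _ (mem_sdiff.1 hs).1) h3.symm
  rw [h1, h2]
  ring

/-- removing a matched pair -/
private theorem reidx_erase {G : SimpleGraph V} {S T : Finset V} (h : Mat G S T) {s : V}
    (hs : s ∈ S \ T) : ∃ t, t ∈ T \ S ∧ G.Adj s t ∧ Mat G (S.erase s) (T.erase t) ∧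
      (S.erase s \ T.erase t).card + 1 = (S \ T).card ∧
      Alw G (S.erase s ∪ T.erase t) s ∧ Alw G (S.erase s ∪ T.erase t) t := by
  obtain ⟨t, ht, hst, huniq⟩ := h.1 s hs
  obtain ⟨s', hs', hts', huniq'⟩ := h.2 t ht
  have hsS := (mem_sdiff.1 hs).1
  have hsT := (mem_sdiff.1 hs).2
  have htT := (mem_sdiff.1 ht).1
  have htS := (mem_sdiff.1 ht).2
  have hss' : s = s' := huniq' s (mem_union_left _ hsS) hst.symm
  subst hss'
  have hsub : ∀ x ∈ S.erase s ∪ T.erase t, x ∈ S ∪ T := by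
    intro x hx
    rcases mem_union.1 hx with h1 | h1
    · exact mem_union_left _ (mem_of_mem_erase h1)
    · exact mem_union_right _ (mem_of_mem_erase h1)
  have hs0 : s ∉ S.erase s ∪ T.erase t := by
    intro h1
    rcases mem_union.1 h1 with h2 | h2
    · exact (ne_of_mem_erase h2) rfl
    · exact hsT (mem_of_mem_erase h2)
  have ht0 : t ∉ S.erase s ∪ T.erase t := by
    intro h1
    rcases mem_union.1 h1 with h2 | h2
    · exact htS (mem_of_mem_erase h2)
    · exact (ne_of_mem_erase h2) rfl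
  have hd1 : ∀ x, x ∈ S.erase s \ T.erase t ↔ x ≠ s ∧ x ∈ S \ T := by
    intro x
    simp only [mem_sdiff, mem_erase]
    constructor
    · rintro ⟨⟨h1, h2⟩, h3⟩
      refine ⟨h1, h2, fun h4 => h3 ⟨fun h5 => htS (h5 ▸ h2), h4⟩⟩
    · rintro ⟨h1, h2, h3⟩
      exact ⟨⟨h1, h2⟩, fun h4 => h3 h4.2⟩
  have hd2 : ∀ x, x ∈ T.erase t \ S.erase s ↔ x ≠ t ∧ x ∈ T \ S := by
    intro x
    simp only [mem_sdiff, mem_erase]
    constructor
    · rintro ⟨⟨h1, h2⟩, h3⟩
      refine ⟨h1, h2, fun h4 => h3 ⟨fun h5 => hsT (h5 ▸ h2), h4⟩⟩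
    · rintro ⟨h1, h2, h3⟩
      exact ⟨⟨h1, h2⟩, fun h4 => h3 h4.2⟩
  refine ⟨t, ht, hst, ⟨?_, ?_⟩, ?_, ⟨hs0, ?_⟩, ⟨ht0, ?_⟩⟩
  · intro x hx
    rw [hd1] at hx
    obtain ⟨y, hy, hxy, hu⟩ := h.1 x hx.2
    have hyt : y ≠ t := by
      intro e
      subst e
      exact hx.1 (huniq' x (mem_union_left _ (mem_sdiff.1 hx.2).1) hxy.symm)
    exact ⟨y, (hd2 y).2 ⟨hyt, hy⟩, hxy, fun z hz => hu z (hsub z hz)⟩
  · intro x hx
    rw [hd2] at hx
    obtain ⟨y, hy, hxy, hu⟩ := h.2 x hx.2
    have hys : y ≠ s := by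
      intro e
      subst e
      exact hx.1 (huniq x (mem_union_right _ (mem_sdiff.1 hx.2).1) hxy.symm)
    exact ⟨y, (hd1 y).2 ⟨hys, hy⟩, hxy, fun z hz => hu z (hsub z hz)⟩
  · have e : S.erase s \ T.erase t = (S \ T).erase s := by
      ext x
      rw [hd1, mem_erase]
    rw [e, card_erase_add_one hs]
  · intro x hx hsx
    have := huniq x (hsub x hx) hsx
    subst this
    exact ht0 hx
  · intro x hx htx
    have := huniq' x (hsub x hx) htx
    subst this
    exact hs0 hx

open Classical in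
theorem reindex (G : SimpleGraph V) (X : Finset V → Finset V → ℝ) {m : ℕ} (hm : 1 ≤ m) :
    (m : ℝ) * ∑ S, ∑ T, (if Mat G S T ∧ (S \ T).card = m then X S T else 0) =
      ∑ S, ∑ T, (if Mat G S T ∧ (S \ T).card = m - 1 then
        ∑ u, ∑ v, (if G.Adj u v ∧ Alw G (S ∪ T) u ∧ Alw G (S ∪ T) v then
          X (insert u S) (insert v T) else 0) else 0) := by
  have hL : (m : ℝ) * ∑ S, ∑ T, (if Mat G S T ∧ (S \ T).card = m then X S T else 0) =
      ∑ y ∈ (univ : Finset (Finset V × Finset V × V)).filter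
        (fun y => (Mat G y.1 y.2.1 ∧ (y.1 \ y.2.1).card = m) ∧ y.2.2 ∈ y.1 \ y.2.1),
        X y.1 y.2.1 := by
    rw [sum_filter, Fintype.sum_prod_type, mul_sum]
    refine sum_congr rfl fun S _ => ?_
    rw [Fintype.sum_prod_type, mul_sum]
    refine sum_congr rfl fun T _ => ?_
    by_cases hP : Mat G S T ∧ (S \ T).card = m
    · simp only [hP, and_self, true_and, if_true]
      rw [← sum_filter, sum_const, nsmul_eq_mul]
      congr 2
      have e : (univ : Finset V).filter (fun x => x ∈ S \ T) = S \ T := by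
        ext x
        simp
      rw [e, hP.2]
    · simp [hP]
  have hR : ∑ S, ∑ T, (if Mat G S T ∧ (S \ T).card = m - 1 then
        ∑ u, ∑ v, (if G.Adj u v ∧ Alw G (S ∪ T) u ∧ Alw G (S ∪ T) v then
          X (insert u S) (insert v T) else 0) else 0) =
      ∑ x ∈ (univ : Finset (Finset V × Finset V × V × V)).filter
        (fun x => (Mat G x.1 x.2.1 ∧ (x.1 \ x.2.1).card = m - 1) ∧
          (G.Adj x.2.2.1 x.2.2.2 ∧ Alw G (x.1 ∪ x.2.1) x.2.2.1 ∧
            Alw G (x.1 ∪ x.2.1) x.2.2.2)),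
        X (insert x.2.2.1 x.1) (insert x.2.2.2 x.2.1) := by
    rw [sum_filter, Fintype.sum_prod_type]
    refine sum_congr rfl fun S _ => ?_
    rw [Fintype.sum_prod_type]
    refine sum_congr rfl fun T _ => ?_
    rw [Fintype.sum_prod_type]
    by_cases hP : Mat G S T ∧ (S \ T).card = m - 1
    · simp only [hP, and_self, true_and, if_true]
    · simp [hP]
  rw [hL, hR]
  symm
  refine sum_bij (fun x _ => (insert x.2.2.1 x.1, insert x.2.2.2 x.2.1, x.2.2.1)) ?_ ?_ ?_ ?_
  · rintro ⟨S, T, u, v⟩ hx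
    simp only [mem_filter, mem_univ, true_and] at hx ⊢
    obtain ⟨⟨h1, h2⟩, h3, h4, h5⟩ := hx
    obtain ⟨g1, g2, -⟩ := mat_insert h1 h3 h4 h5
    have huST : u ∉ S \ T := fun h1 => h4.1 (mem_union_left _ (mem_sdiff.1 h1).1)
    refine ⟨⟨g1, ?_⟩, ?_⟩
    · rw [g2, card_insert_of_notMem huST, h2]
      omega
    · rw [g2]
      exact mem_insert_self _ _
  · rintro ⟨S, T, u, v⟩ hx ⟨S', T', u', v'⟩ hx' heq
    simp only [mem_filter, mem_univ, true_and] at hx hx'
    simp only [Prod.mk.injEq] at heq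
    obtain ⟨⟨h1, h2⟩, h3, h4, h5⟩ := hx
    obtain ⟨⟨h1', h2'⟩, h3', h4', h5'⟩ := hx'
    obtain ⟨e1, e2, rfl⟩ := heq
    have huS : u ∉ S := fun h => h4.1 (mem_union_left _ h)
    have huS' : u ∉ S' := fun h => h4'.1 (mem_union_left _ h)
    have hSS : S = S' := by
      rw [← erase_insert huS, e1, erase_insert huS']
    subst hSS
    obtain ⟨g1, g2, -⟩ := mat_insert h1 h3 h4 h5
    obtain ⟨t, -, -, huniq⟩ := g1.1 u (by rw [g2]; exact mem_insert_self _ _)
    have hv1 : v = t := huniq v (mem_union_right _ (mem_insert_self _ _)) h3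
    have hv2 : v' = t := huniq v' (by
      rw [e2]
      exact mem_union_right _ (mem_insert_self _ _)) h3'
    have hvv : v = v' := hv1.trans hv2.symm
    subst hvv
    have hvT : v ∉ T := fun h => h5.1 (mem_union_right _ h)
    have hvT' : v ∉ T' := fun h => h5'.1 (mem_union_right _ h)
    have hTT : T = T' := by
      rw [← erase_insert hvT, e2, erase_insert hvT']
    subst hTT
    rfl
  · rintro ⟨S, T, s⟩ hy
    simp only [mem_filter, mem_univ, true_and] at hy
    obtain ⟨⟨h1, h2⟩, h3⟩ := hy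
    obtain ⟨t, ht, hst, g1, g2, g3, g4⟩ := reidx_erase h1 h3
    refine ⟨(S.erase s, T.erase t, s, t), ?_, ?_⟩
    · simp only [mem_filter, mem_univ, true_and]
      exact ⟨⟨g1, by omega⟩, hst, g3, g4⟩
    · simp only [insert_erase (mem_sdiff.1 h3).1, insert_erase (mem_sdiff.1 ht).1]
  · rintro ⟨S, T, u, v⟩ _
    rfl

end Pool.Agent.SOSC
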