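import Pool.Agent.SOSC.Form
import Pool.Agent.SOSC.Fam2
import Pool.Agent.SOSC.Fam3

/-!
# SOSC REP: the form on matched pairs

Let `Mat G S T`, `m = |S \ T|`.  Claim:
`E[p q dens G 0 (S ∪ T)] = (-k/(k-1))^m E[p q dens G 0 (S ∩ T) JJ G S T]`.

Proof.  More generally, show by induction on `m` the following.  For all `S, T` with `Mat G S T`,
`|S ∪ T| ≤ D`:
(a) `dens G 0 (S ∪ T) = dens G 0 (S ∩ T) ∏_{s ∈ S \ T} ∏_{t ∈ T \ S, s ~ t} (k/(k-1)) (1 - 1[c s = c t])`.
(b) the claim for all `p ∈ W_S`, `q ∈ W_T`.
For (a): `m = 0` means `S = T` (also `T \ S = ∅` by `Mat`).  For `m ≥ 1` take `s ∈ S \ T` with its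
partner `t`.  There is no edge between `{s, t}` and `(S ∪ T) \ {s, t} = (S.erase s) ∪ (T.erase t)`
(`t` has a unique neighbour in `S ∪ T`, which must be `s`).  Use `dens_union`, `dens_edge` and the
induction hypothesis for `(S.erase s, T.erase t)`, which is again matched, with
`S.erase s ∩ T.erase t = S ∩ T`.
For (b), expand the product (a) one matched edge after the other: if `g` does not depend on the
colour of `s ∈ S \ T` then `E[p q g (1 - 1[c s = c t])] = - E[p q g 1[c s = c t]]`, because
`E[p q g] = 0` (`ev_mul_pure`: `q`, `g` do not depend on the colour of `s`, `av s p = 0`).  Here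
`g` is the product of `dens G 0 (S ∩ T)` and the factors of the other matched edges (either
`1 - 1[..]` or `1[..]`).  A convenient formulation: for every `A ⊆ S \ T`,
`E[p q dens(S ∩ T) ∏_{s ∈ A}(partner factor (1 - 1)) ∏_{s ∈ (S \ T) \ A} (partner factor 1)]
 = (-1)^|A| E[p q dens(S ∩ T) JJ]`, by induction on `A`.
-/

set_option autoImplicit false
set_option linter.unusedSectionVars false

namespace Pool.Agent.SOSC

open Finset

variable {V : Type*} [Fintype V] [DecidableEq V] {k : ℕ}

theorem mat_symm {G : SimpleGraph V} {S T : Finset V} : Mat G S T ↔ Mat G T S := by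
  unfold Mat
  rw [union_comm T S]
  exact and_comm

private theorem mat_card_le {G : SimpleGraph V} {S T : Finset V} (h : Mat G S T) :
    (S \ T).card ≤ (T \ S).card := by
  classical
  have h1 : ∀ s : V, ∃ t : V, s ∈ S \ T → t ∈ T \ S ∧ G.Adj s t := by
    intro s
    by_cases hs : s ∈ S \ T
    · obtain ⟨t, ht, hst, -⟩ := h.1 s hs
      exact ⟨t, fun _ => ⟨ht, hst⟩⟩
    · exact ⟨s, fun hs' => absurd hs' hs⟩
  choose f hf using h1
  refine card_le_card_of_injOn f (fun s hs => (hf s hs).1) ?_
  intro s hs s' hs' he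
  obtain ⟨r, hr, -, hu⟩ := h.2 (f s) (hf s hs).1
  have e1 := hu s (mem_union_left _ (mem_sdiff.1 hs).1) (hf s hs).2.symm
  have e2 := hu s' (mem_union_left _ (mem_sdiff.1 hs').1) (by rw [he]; exact (hf s' hs').2.symm)
  rw [e1, e2]

theorem mat_card {G : SimpleGraph V} {S T : Finset V} (h : Mat G S T) :
    (S \ T).card = (T \ S).card :=
  le_antisymm (mat_card_le h) (mat_card_le (mat_symm.1 h))

private theorem rep_pair [NeZero k] {s t : V} (hst : s ≠ t) (F : Fn V k) :
    ev (fun c => F c * if c s = c t then 1 else 0) =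
      (∑ i : Fin k, ev (fun c => F (Function.update (Function.update c s i) t i))) *
        (1 / (k : ℝ) ^ 2) := by
  have h1 : ∀ c : V → Fin k, av s (av t (fun c => F c * if c s = c t then 1 else 0)) c =
      (∑ i : Fin k, F (Function.update (Function.update c s i) t i)) * (1 / (k : ℝ) ^ 2) := by
    intro c
    simp only [av]
    have h2 : ∀ i : Fin k, ∑ j : Fin k, F (Function.update (Function.update c s i) t j) *
        (if Function.update (Function.update c s i) t j s =
          Function.update (Function.update c s i) t j t then (1 : ℝ) else 0) =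
        F (Function.update (Function.update c s i) t i) := by
      intro i
      rw [sum_eq_single i]
      · simp [hst]
      · intro j _ hj
        have : ¬ (i = j) := fun h => hj h.symm
        simp [hst, this]
      · intro h
        exact absurd (mem_univ i) h
    simp only [h2]
    rw [← sum_div, div_div, ← sq, div_eq_mul_one_div]
  rw [← ev_av t, ← ev_av s, ev_congr h1, ev_mul_const, ev_sum]

private theorem rep_slice {G : SimpleGraph V} {S S' : Finset V} {s : V} (hS' : S' = S.erase s)
    {p : Fn V k} (hp : IsW G S p) (i : Fin k) :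
    IsW G S' (fun d => p (Function.update d s i)) := by
  have h1 := hp.slice (Y := S') (by rw [hS']; exact erase_subset _ _) (fun _ => i)
  have h2 : (fun d => p (S'.piecewise d (fun _ => i))) = fun d => p (Function.update d s i) := by
    funext d
    apply hp.dep
    intro v hv
    by_cases hvs : v = s
    · subst hvs
      simp [hS']
    · have : v ∈ S' := by
        rw [hS']
        exact mem_erase.2 ⟨hvs, hv⟩
      simp [this, hvs]
  rwa [h2] at h1

private theorem rep_upd {A : Finset V} {g : Fn V k} (hg : DepOn A g) {s : V} (hs : s ∉ A)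
    (c : V → Fin k) (i : Fin k) : g (Function.update c s i) = g c := by
  apply hg
  intro v hv
  have : v ≠ s := fun h => hs (h ▸ hv)
  simp [this]

private theorem rep_JJ_dep (G : SimpleGraph V) (S T : Finset V) :
    DepOn (S ∪ T) (JJ G S T : Fn V k) := by
  classical
  intro c c' hc
  unfold JJ
  refine prod_congr rfl fun a ha => prod_congr rfl fun b hb => ?_
  rw [hc a (mem_union_left _ (mem_sdiff.1 ha).1), hc b (mem_union_right _ (mem_sdiff.1 hb).1)]

/-- the step: data of a matched pair -/
private theorem rep_step {G : SimpleGraph V} {S T : Finset V} (h : Mat G S T) {s t : V}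
    (hs : s ∈ S \ T) (ht : t ∈ T \ S) (hst : G.Adj s t) :
    (∀ x ∈ S ∪ T, G.Adj s x → x = t) ∧ (∀ x ∈ S ∪ T, G.Adj t x → x = s) ∧
      Mat G (S.erase s) (T.erase t) := by
  obtain ⟨hsS, hsT⟩ := mem_sdiff.1 hs
  obtain ⟨htT, htS⟩ := mem_sdiff.1 ht
  have h1 : ∀ x ∈ S ∪ T, G.Adj s x → x = t := by
    obtain ⟨t', -, -, hu⟩ := h.1 s hs
    have e := hu t (mem_union_right _ htT) hst
    intro x hx hsx
    rw [hu x hx hsx, e]
  have h2 : ∀ x ∈ S ∪ T, G.Adj t x → x = s := by
    obtain ⟨s', -, -, hu⟩ := h.2 t ht
    have e := hu s (mem_union_left _ hsS) hst.symm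
    intro x hx hsx
    rw [hu x hx hsx, e]
  refine ⟨h1, h2, ?_, ?_⟩
  · intro a ha
    rw [mem_sdiff, mem_erase, mem_erase, not_and] at ha
    have haT : a ∉ T := by
      intro haT
      have hat : a ≠ t := fun e => htS (e ▸ ha.1.2)
      exact ha.2 hat haT
    obtain ⟨b, hb, hab, hu⟩ := h.1 a (mem_sdiff.2 ⟨ha.1.2, haT⟩)
    obtain ⟨hbT, hbS⟩ := mem_sdiff.1 hb
    have hbt : b ≠ t := by
      rintro rfl
      exact ha.1.1 (h2 a (mem_union_left _ ha.1.2) hab.symm)
    refine ⟨b, mem_sdiff.2 ⟨mem_erase.2 ⟨hbt, hbT⟩, fun hb' => hbS (mem_erase.1 hb').2⟩, hab,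
      fun x hx => hu x ?_⟩
    rcases mem_union.1 hx with hx | hx
    · exact mem_union_left _ (mem_erase.1 hx).2
    · exact mem_union_right _ (mem_erase.1 hx).2
  · intro b hb
    rw [mem_sdiff, mem_erase, mem_erase, not_and] at hb
    have hbS : b ∉ S := by
      intro hbS
      have hbs : b ≠ s := fun e => hsT (e ▸ hb.1.2)
      exact hb.2 hbs hbS
    obtain ⟨a, ha, hab, hu⟩ := h.2 b (mem_sdiff.2 ⟨hb.1.2, hbS⟩)
    obtain ⟨haS, haT⟩ := mem_sdiff.1 ha
    have has : a ≠ s := by
      rintro rfl
      exact hb.1.1 (h1 b (mem_union_right _ hb.1.2) hab.symm)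
    refine ⟨a, mem_sdiff.2 ⟨mem_erase.2 ⟨has, haS⟩, fun ha' => haT (mem_erase.1 ha').2⟩, hab,
      fun x hx => hu x ?_⟩
    rcases mem_union.1 hx with hx | hx
    · exact mem_union_left _ (mem_erase.1 hx).2
    · exact mem_union_right _ (mem_erase.1 hx).2

private theorem rep_JJ {G : SimpleGraph V} {S T : Finset V} {s t : V}
    (hs : s ∈ S \ T) (ht : t ∈ T \ S) (hst : G.Adj s t)
    (h1 : ∀ x ∈ S ∪ T, G.Adj s x → x = t) (h2 : ∀ x ∈ S ∪ T, G.Adj t x → x = s)
    (c : V → Fin k) :
    JJ G S T c = JJ G (S.erase s) (T.erase t) c * if c s = c t then 1 else 0 := by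
  classical
  obtain ⟨hsS, hsT⟩ := mem_sdiff.1 hs
  obtain ⟨htT, htS⟩ := mem_sdiff.1 ht
  have e1 : S.erase s \ T.erase t = (S \ T).erase s := by
    ext x
    simp only [mem_sdiff, mem_erase, not_and]
    constructor
    · rintro ⟨⟨h3, h4⟩, h5⟩
      refine ⟨h3, h4, fun h6 => ?_⟩
      have : x ≠ t := fun e => htS (e ▸ h4)
      exact h5 this h6
    · rintro ⟨h3, h4, h5⟩
      exact ⟨⟨h3, h4⟩, fun _ => h5⟩
  have e2 : T.erase t \ S.erase s = (T \ S).erase t := by
    ext x
    simp only [mem_sdiff, mem_erase, not_and]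
    constructor
    · rintro ⟨⟨h3, h4⟩, h5⟩
      refine ⟨h3, h4, fun h6 => ?_⟩
      have : x ≠ s := fun e => hsT (e ▸ h4)
      exact h5 this h6
    · rintro ⟨h3, h4, h5⟩
      exact ⟨⟨h3, h4⟩, fun _ => h5⟩
  unfold JJ
  rw [e1, e2, ← prod_erase_mul (S \ T) _ hs]
  congr 1
  · refine prod_congr rfl fun a ha => ?_
    rw [← prod_erase_mul (T \ S) _ ht]
    have h3 : ¬ G.Adj a t := by
      intro h3
      rw [mem_erase, mem_sdiff] at ha
      exact ha.1 (h2 a (mem_union_left _ ha.2.1) h3.symm)
    rw [if_neg h3, mul_one]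
  · rw [← prod_erase_mul (T \ S) _ ht, if_pos hst]
    have h3 : ∏ b ∈ (T \ S).erase t,
        (if G.Adj s b then (if c s = c b then (1 : ℝ) else 0) else 1) = 1 := by
      refine prod_eq_one fun b hb => ?_
      rw [mem_erase, mem_sdiff] at hb
      have h4 : ¬ G.Adj s b := fun h4 => hb.1 (h1 b (mem_union_right _ hb.2.1) h4)
      rw [if_neg h4]
    rw [h3, one_mul]

theorem rep [NeZero k] (G : SimpleGraph V) {D : ℕ} (hD : 2 ≤ D)
    (hk : (4 * D * 2 ^ D) ^ 2 ≤ k) {S T : Finset V} (hST : (S ∪ T).card ≤ D) (hm : Mat G S T)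
    {p q : Fn V k} (hp : IsW G S p) (hq : IsW G T q) :
    ev (fun c => p c * q c * dens G 0 (S ∪ T) c) =
      (-((k : ℝ) / (k - 1))) ^ (S \ T).card *
        ev (fun c => p c * q c * dens G 0 (S ∩ T) c * JJ G S T c) := by
  classical
  obtain ⟨m, hmc⟩ : ∃ m, (S \ T).card = m := ⟨_, rfl⟩
  induction m generalizing S T p q with
  | zero =>
    have h1 : S \ T = ∅ := card_eq_zero.1 hmc
    have h2 : T \ S = ∅ := by
      rw [← card_eq_zero, ← mat_card hm, hmc]
    have h3 : S = T :=
      Subset.antisymm (sdiff_eq_empty_iff_subset.1 h1) (sdiff_eq_empty_iff_subset.1 h2)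
    subst h3
    rw [hmc, pow_zero, one_mul, union_self, inter_self]
    refine ev_congr fun c => ?_
    unfold JJ
    rw [h1, prod_empty, mul_one]
  | succ m ih =>
    obtain ⟨s, hs⟩ : (S \ T).Nonempty := by
      rw [← card_pos]
      omega
    obtain ⟨t, ht, hst, -⟩ := hm.1 s hs
    obtain ⟨h1, h2, hM⟩ := rep_step hm hs ht hst
    obtain ⟨hsS, hsT⟩ := mem_sdiff.1 hs
    obtain ⟨htT, htS⟩ := mem_sdiff.1 ht
    have hsne : s ≠ t := hst.ne
    set S' := S.erase s with hS'
    set T' := T.erase t with hT'
    set A := S' ∪ T' with hA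
    have hsA : s ∉ A := by
      rw [hA, mem_union, hS', hT']
      rintro (h | h)
      · exact (mem_erase.1 h).1 rfl
      · exact hsT (mem_erase.1 h).2
    have htA : t ∉ A := by
      rw [hA, mem_union, hS', hT']
      rintro (h | h)
      · exact htS (mem_erase.1 h).2
      · exact (mem_erase.1 h).1 rfl
    have hunion : S ∪ T = A ∪ {s, t} := by
      ext x
      rw [hA, hS', hT']
      simp only [mem_union, mem_erase, mem_insert, mem_singleton]
      constructor
      · rintro (h | h)
        · by_cases hx : x = s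
          · exact Or.inr (Or.inl hx)
          · exact Or.inl (Or.inl ⟨hx, h⟩)
        · by_cases hx : x = t
          · exact Or.inr (Or.inr hx)
          · exact Or.inl (Or.inr ⟨hx, h⟩)
      · rintro ((h | h) | (rfl | rfl))
        · exact Or.inl h.2
        · exact Or.inr h.2
        · exact Or.inl hsS
        · exact Or.inr htT
    have hAsub : A ⊆ S ∪ T := by
      rw [hunion]
      exact subset_union_left
    have hAcard : A.card ≤ D := (card_le_card hAsub).trans hST
    have hdisj : Disjoint A {s, t} := by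
      rw [disjoint_right]
      intro x hx
      rw [mem_insert, mem_singleton] at hx
      rcases hx with rfl | rfl
      · exact hsA
      · exact htA
    have hadj : ∀ u ∈ A, ∀ v ∈ ({s, t} : Finset V), ¬ G.Adj u v := by
      intro u hu v hv huv
      rw [mem_insert, mem_singleton] at hv
      rcases hv with rfl | rfl
      · exact htA ((h1 u (hAsub hu) huv.symm) ▸ hu)
      · exact hsA ((h2 u (hAsub hu) huv.symm) ▸ hu)
    have hdens : ∀ c : V → Fin k, dens G 0 (S ∪ T) c =
        dens G 0 A c * ((k / (k - 1 : ℝ)) * (1 - if c s = c t then 1 else 0)) := by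
      intro c
      rw [hunion, dens_union G (by omega) hk 0 hdisj (by rw [← hunion]; exact hST) hadj,
        dens_edge G hD hk hst]
    have hdA : DepOn A (dens G 0 A : Fn V k) := (dens_spec G (by omega) hk 0 hAcard).dep
    have hinter : S' ∩ T' = S ∩ T := by
      ext x
      rw [hS', hT']
      simp only [mem_inter, mem_erase]
      constructor
      · rintro ⟨h3, h4⟩
        exact ⟨h3.2, h4.2⟩
      · rintro ⟨h3, h4⟩
        exact ⟨⟨fun e => hsT (e ▸ h4), h3⟩, ⟨fun e => htS (e ▸ h3), h4⟩⟩
    have hcard : (S' \ T').card = m := by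
      have e1 : S' \ T' = (S \ T).erase s := by
        ext x
        rw [hS', hT']
        simp only [mem_sdiff, mem_erase, not_and]
        constructor
        · rintro ⟨⟨h3, h4⟩, h5⟩
          refine ⟨h3, h4, fun h6 => ?_⟩
          have : x ≠ t := fun e => htS (e ▸ h4)
          exact h5 this h6
        · rintro ⟨h3, h4, h5⟩
          exact ⟨⟨h3, h4⟩, fun _ => h5⟩
      rw [e1, card_erase_of_mem hs, hmc]
      omega
    -- the first term vanishes
    have hfirst : ev (fun c => p c * q c * dens G 0 A c) = 0 := by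
      have h3 : DepOn (T ∪ A) (fun c => q c * dens G 0 A c) :=
        (hq.dep.mono subset_union_left).mul (hdA.mono subset_union_right)
      have h4 := ev_mul_pure (v := s) (by
        rw [mem_union]
        rintro (h | h)
        · exact hsT h
        · exact hsA h) h3 (hp.pure s hsS)
      rw [← h4]
      exact ev_congr fun c => by ring
    -- conditioning on the colours of `s` and `t`
    have hcond : ∀ g : Fn V k, DepOn A g →
        ev (fun c => p c * q c * g c * if c s = c t then 1 else 0) =
        (∑ i : Fin k, ev (fun c => p (Function.update c s i) * q (Function.update c t i) * g c)) *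
          (1 / (k : ℝ) ^ 2) := by
      intro g hg
      rw [rep_pair hsne (fun c => p c * q c * g c)]
      congr 1
      refine sum_congr rfl fun i _ => ev_congr fun c => ?_
      rw [rep_upd hg htA, rep_upd hg hsA, rep_upd hp.dep htS,
        Function.update_comm hsne, rep_upd hq.dep hsT]
    have hIH : ∀ i : Fin k,
        ev (fun c => p (Function.update c s i) * q (Function.update c t i) * dens G 0 A c) =
        (-((k : ℝ) / (k - 1))) ^ m *
          ev (fun c => p (Function.update c s i) * q (Function.update c t i) *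
            (dens G 0 (S ∩ T) c * JJ G S' T' c)) := by
      intro i
      have h3 := ih (S := S') (T := T') hAcard hM (rep_slice hS' hp i) (rep_slice hT' hq i) hcard
      rw [hcard, hinter] at h3
      rw [h3]
      congr 1
      exact ev_congr fun c => by ring
    have hinterA : S ∩ T ⊆ A := by
      rw [← hinter, hA]
      exact inter_subset_left.trans subset_union_left
    have hintD : (S ∩ T).card ≤ D := (card_le_card hinterA).trans hAcard
    have hdI : DepOn A (fun c => dens G 0 (S ∩ T) c * JJ G S' T' c : Fn V k) :=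
      ((dens_spec G (by omega) hk 0 hintD).dep.mono hinterA).mul (rep_JJ_dep G S' T')
    have hR : ev (fun c => p c * q c * dens G 0 (S ∩ T) c * JJ G S T c) =
        ev (fun c => p c * q c * (dens G 0 (S ∩ T) c * JJ G S' T' c) *
          if c s = c t then 1 else 0) := by
      refine ev_congr fun c => ?_
      rw [rep_JJ hs ht hst h1 h2 c]
      ring
    have hL : ev (fun c => p c * q c * dens G 0 (S ∪ T) c) =
        (k / (k - 1 : ℝ)) * (ev (fun c => p c * q c * dens G 0 A c) -
          ev (fun c => p c * q c * dens G 0 A c * if c s = c t then 1 else 0)) := by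
      rw [← ev_sub, ← ev_smul]
      refine ev_congr fun c => ?_
      rw [hdens c]
      ring
    rw [hL, hfirst, hcond _ hdA, hR, hcond _ hdI, hmc]
    simp only [hIH]
    rw [← mul_sum]
    ring

end Pool.Agent.SOSC
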