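import Mathlib

/-!
# SOSC: sum-of-squares refutations of `k`-colourability

Variables `x_{v,i}`, `v ∈ V`, `i ∈ Fin k`.
-/

set_option autoImplicit false
set_option linter.unusedSectionVars false

namespace Pool.Agent.SOSC

open MvPolynomial

variable {V : Type*} [Fintype V] [DecidableEq V] {k : ℕ}

/-- `x_{v,i}² - x_{v,i}`. -/
noncomputable def boolP (x : V × Fin k) : MvPolynomial (V × Fin k) ℝ := X x ^ 2 - X x

/-- `∑_i x_{v,i} - 1`. -/
noncomputable def sumP (k : ℕ) (v : V) : MvPolynomial (V × Fin k) ℝ := (∑ i : Fin k, X (v, i)) - 1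

/-- `x_{u,i} x_{v,i}`. -/
noncomputable def edgeP (u v : V) (i : Fin k) : MvPolynomial (V × Fin k) ℝ := X (u, i) * X (v, i)

/-- A degree `D` sum-of-squares refutation of `k`-colourability of `G`: an identity
`-1 = σ + ∑ a_x (x² - x) + ∑_v b_v (∑_i x_{v,i} - 1) + ∑_{uv ∈ E} ∑_i e_{u,v,i} x_{u,i} x_{v,i}`
with `σ` a sum of squares of degree at most `D` and all products of degree at most `D`. -/
def SoSRefutes (G : SimpleGraph V) (k D : ℕ) : Prop :=
  ∃ (m : ℕ) (q : Fin m → MvPolynomial (V × Fin k) ℝ)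
    (a : V × Fin k → MvPolynomial (V × Fin k) ℝ)
    (b : V → MvPolynomial (V × Fin k) ℝ)
    (e : V → V → Fin k → MvPolynomial (V × Fin k) ℝ),
    (∑ j, q j ^ 2).totalDegree ≤ D ∧
    (∀ x, (a x * boolP x).totalDegree ≤ D) ∧
    (∀ v, (b v * sumP k v).totalDegree ≤ D) ∧
    (∀ u v i, (e u v i * edgeP u v i).totalDegree ≤ D) ∧
    (∀ u v i, ¬ G.Adj u v → e u v i = 0) ∧
    (-1 : MvPolynomial (V × Fin k) ℝ) = ∑ j, q j ^ 2 + ∑ x, a x * boolP x +
      ∑ v, b v * sumP k v + ∑ u, ∑ v, ∑ i, e u v i * edgeP u v i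

end Pool.Agent.SOSC
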