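import Pool.Agent.SOSC.SosDefs

/-!
# SOSC SOSDEG: degrees in sums of squares; no refutation from a functional

## sumsq_degree
Let `m` be the maximum of the degrees of the `q j` and suppose `m > r`.  The homogeneous component
of degree `2m` of `∑ q_j²` is `∑ (h_j)²` with `h_j = homogeneousComponent m (q j)`
(`q_j - h_j` has degree `< m`; products of components).  It is `0` since the degree of `∑ q_j²` is
at most `2r < 2m`.  Evaluate at a real point: `∑ (eval x h_j)² = 0`, so `eval x h_j = 0` for all
`x`, so `h_j = 0` (`MvPolynomial.funext`), contradicting `deg q_j = m` for some `j`.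

## no_refutation
Apply `L` to the identity of a refutation of degree `2r`: `L(-1) = -1`, and the right hand side is
`∑ L(q_j²) ≥ 0` (`sumsq_degree`) plus zeros.  (`L (q_j^2)` with `deg q_j ≤ r`; the products have
degree at most `2r`.)

## refutes_mono
A refutation of degree `D` is a refutation of degree `D' ≥ D`.
-/

set_option autoImplicit false
set_option linter.unusedSectionVars false

namespace Pool.Agent.SOSC

open MvPolynomial

variable {V : Type*} [Fintype V] [DecidableEq V] {k : ℕ}

private theorem sosdeg_coeff_zero {σ : Type*} {f : MvPolynomial σ ℝ} {d : σ →₀ ℕ}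
    (h : f.totalDegree < d.degree) : coeff d f = 0 :=
  coeff_eq_zero_of_totalDegree_lt h

private theorem sosdeg_sq {σ : Type*} {f : MvPolynomial σ ℝ} {M : ℕ} (hf : f.totalDegree ≤ M)
    {d : σ →₀ ℕ} (hd : d.degree = 2 * M) :
    coeff d (f ^ 2) = coeff d ((homogeneousComponent M f) ^ 2) := by
  classical
  rw [sq, sq, coeff_mul, coeff_mul]
  refine Finset.sum_congr rfl fun x hx => ?_
  have h1 : x.1 + x.2 = d := Finset.HasAntidiagonal.mem_antidiagonal.1 hx
  have h2 : x.1.degree + x.2.degree = 2 * M := by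
    rw [← map_add, h1, hd]
  rw [coeff_homogeneousComponent, coeff_homogeneousComponent]
  rcases lt_trichotomy x.1.degree M with h3 | h3 | h3
  · rw [if_neg h3.ne, zero_mul, sosdeg_coeff_zero (d := x.2) (by omega), mul_zero]
  · rw [if_pos h3, if_pos (by omega)]
  · rw [if_neg h3.ne', zero_mul, sosdeg_coeff_zero (d := x.1) (by omega), zero_mul]

theorem sumsq_degree {σ : Type*} {m : ℕ} (q : Fin m → MvPolynomial σ ℝ) (r : ℕ)
    (h : (∑ j, q j ^ 2).totalDegree ≤ 2 * r) (j : Fin m) : (q j).totalDegree ≤ r := by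
  classical
  by_contra hcon
  push Not at hcon
  obtain ⟨M, hM⟩ : ∃ M, M = Finset.univ.sup fun j => (q j).totalDegree := ⟨_, rfl⟩
  have hle : ∀ j, (q j).totalDegree ≤ M := fun j => by
    rw [hM]
    exact Finset.le_sup (f := fun j => (q j).totalDegree) (Finset.mem_univ j)
  have hrM : r < M := lt_of_lt_of_le hcon (hle j)
  obtain ⟨j₁, -, hj₁⟩ := Finset.exists_mem_eq_sup (Finset.univ : Finset (Fin m))
    ⟨j, Finset.mem_univ j⟩ fun j => (q j).totalDegree
  rw [← hM] at hj₁
  have hj₁ : M = (q j₁).totalDegree := hj₁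
  -- the sum of the squares of the components vanishes
  have hsum : ∑ j, (homogeneousComponent M (q j)) ^ 2 = 0 := by
    ext d
    rw [coeff_sum, coeff_zero]
    by_cases hd : d.degree = 2 * M
    · have h1 : ∀ i, coeff d ((homogeneousComponent M (q i)) ^ 2) = coeff d (q i ^ 2) :=
        fun i => (sosdeg_sq (hle i) hd).symm
      simp only [h1]
      rw [← coeff_sum]
      exact sosdeg_coeff_zero (by omega)
    · refine Finset.sum_eq_zero fun i _ => ?_
      have h1 : ((homogeneousComponent M (q i)) ^ 2).IsHomogeneous (M * 2) :=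
        (homogeneousComponent_isHomogeneous M (q i)).pow 2
      by_contra h2
      have h3 := h1 h2
      have h4 : d.degree = M * 2 := by
        rw [Finsupp.degree_eq_weight_one]
        exact h3
      exact hd (h4.trans (mul_comm M 2))
  have hz : homogeneousComponent M (q j₁) = 0 := by
    apply MvPolynomial.funext
    intro x
    have h1 := congrArg (eval x) hsum
    rw [map_sum, map_zero] at h1
    simp only [map_pow] at h1
    have h2 := (Finset.sum_eq_zero_iff_of_nonneg fun i _ => sq_nonneg _).1 h1 j₁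
      (Finset.mem_univ j₁)
    rw [map_zero]
    exact pow_eq_zero_iff (two_ne_zero) |>.1 h2
  -- but the degree is `M`
  have hne : (q j₁).support.Nonempty := by
    rw [Finset.nonempty_iff_ne_empty]
    intro h0
    rw [support_eq_empty] at h0
    rw [h0, totalDegree_zero] at hj₁
    omega
  obtain ⟨d, hd, hdM⟩ := Finset.exists_mem_eq_sup (q j₁).support hne
    fun s => s.sum fun _ e => e
  have h4 : d.degree = M := by
    rw [hj₁]
    exact hdM.symm
  have h5 := congrArg (coeff d) hz
  rw [coeff_homogeneousComponent, if_pos h4, coeff_zero] at h5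
  exact mem_support_iff.1 hd h5

theorem refutes_mono {G : SimpleGraph V} {D D' : ℕ} (h : D ≤ D') (hG : SoSRefutes G k D) :
    SoSRefutes G k D' := by
  obtain ⟨m, q, a, b, e, h1, h2, h3, h4, h5, h6⟩ := hG
  exact ⟨m, q, a, b, e, h1.trans h, fun x => (h2 x).trans h, fun v => (h3 v).trans h,
    fun u v i => (h4 u v i).trans h, h5, h6⟩

theorem no_refutation (G : SimpleGraph V) (r : ℕ) (L : MvPolynomial (V × Fin k) ℝ →ₗ[ℝ] ℝ)
    (h1 : L 1 = 1) (hsq : ∀ q, q.totalDegree ≤ r → 0 ≤ L (q ^ 2))
    (hbool : ∀ p x, (p * boolP x).totalDegree ≤ 2 * r → L (p * boolP x) = 0)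
    (hsum : ∀ p (v : V), (p * sumP k v).totalDegree ≤ 2 * r → L (p * sumP k v) = 0)
    (hedge : ∀ p u v (i : Fin k), G.Adj u v → (p * edgeP u v i).totalDegree ≤ 2 * r →
      L (p * edgeP u v i) = 0) : ¬ SoSRefutes G k (2 * r) := by
  rintro ⟨m, q, a, b, e, c1, c2, c3, c4, c5, c6⟩
  have h2 := congrArg L c6
  rw [map_add, map_add, map_add, map_neg, h1, map_sum, map_sum, map_sum, map_sum] at h2
  have h3 : ∑ x, L (a x * boolP x) = 0 := Finset.sum_eq_zero fun x _ => hbool _ _ (c2 x)
  have h4 : ∑ v, L (b v * sumP k v) = 0 := Finset.sum_eq_zero fun v _ => hsum _ _ (c3 v)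
  have h5 : ∑ u, L (∑ v, ∑ i, e u v i * edgeP u v i) = 0 := by
    refine Finset.sum_eq_zero fun u _ => ?_
    rw [map_sum]
    refine Finset.sum_eq_zero fun v _ => ?_
    rw [map_sum]
    refine Finset.sum_eq_zero fun i _ => ?_
    by_cases h : G.Adj u v
    · exact hedge _ u v i h (c4 u v i)
    · rw [c5 u v i h, zero_mul, map_zero]
  have h6 : 0 ≤ ∑ j, L (q j ^ 2) := Finset.sum_nonneg fun j _ => hsq _ (sumsq_degree q r c1 j)
  rw [h3, h4, h5] at h2
  linarith

end Pool.Agent.SOSC
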