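import Pool.Agent.SOSC.SosDeg
import Pool.Agent.SOSC.Psd
import Pool.Agent.SOSC.Exist

/-!
# SOSC SOSL: from a family of densities to a functional on polynomials

`G` is the graph to be coloured with `k` colours; `G'` is a graph on the same vertices and `H` a
family of densities (`PEfam G' (2r) r H`) for `k'` colours.  `y v i : Fn V k'` is the value of the
variable `x_{v,i}`: it depends only on the colour of `v`, is `0` or `1`, `∑_i y v i = 1`, and
`y u i * y v i = 0` for edges `uv` of `G`, whenever the colouring is proper on `{u, v}` for `G'`.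

For a monomial `m : V × Fin k →₀ ℕ` put `fm m c = ∏_{x ∈ supp m} (y x.1 x.2 c)^(m x)` and
`sm m = {v : ∃ i, m (v,i) ≠ 0}` (`= m.support.image Prod.fst`); `(sm m).card ≤ deg m`;
`fm (m + m') = fm m * fm m'`, `sm (m + m') = sm m ∪ sm m'`, `fm m` depends only on `sm m`.
`L (monomial m a) = a E[fm m * H (sm m)]` if `(sm m).card ≤ 2r` and `0` otherwise, extended
linearly (`Finsupp.lsum`, or `(MvPolynomial.basisMonomials ..).constr`).

Key fact (K): if `sm m ⊆ S`, `S.card ≤ 2r` then `L(x^m) = E[fm m * H S]`: remove the vertices of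
`S \ sm m` one by one: `E[f H S] = E[av v (f H S)] = E[f av v (H S)] = E[f H (S.erase v)]`.

* `L 1 = E[H ∅] = 1`.
* Constraints: write `p = ∑ p_m x^m`.  The degree condition gives `deg m + deg g ≤ 2r` for all `m`
  in the support of `p` (`p ≠ 0`; `totalDegree_mul_of_isDomain`; `deg boolP = 2`,
  `deg sumP = 1`, `deg edgeP = 2`), so with `S = sm m ∪ {vertices of g}`, `S.card ≤ 2r`, (K) gives
  `L(x^m g) = E[fm m * (value of g) * H S]`, and `y² - y = 0`, `∑ y - 1 = 0`, resp.
  `y u i * y v i * H S = 0` (`H S` vanishes on colourings which are not proper on `S ∋ u, v`).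
* Positivity: let `deg q ≤ r`, `q = ∑ q_m x^m`; every `m` in the support has `(sm m).card ≤ r`.
  By `spanning` (for `G'`, `D = 2r`): functions `w_{m,T} ∈ W_T`, `T ⊆ sm m`, with
  `fm m = ∑_T w_{m,T}` on the colourings proper on `sm m`.  Put `Q_T = ∑_m q_m w_{m,T}` (`w_{m,T} = 0`
  if not `T ⊆ sm m`): `Fam G' r Q`.  By (K),
  `L(q²) = ∑_{m,m'} q_m q_m' E[fm m fm m' H(sm m ∪ sm m')]`, `H(sm m ∪ sm m')` vanishes unless the
  colouring is proper on `sm m ∪ sm m'`, so this is
  `∑_{m,m'} q_m q_m' ∑_{T,T'} E[w_{m,T} w_{m',T'} H(sm m ∪ sm m')]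
   = ∑_{T,T'} ∑_{m,m'} q_m q_m' E[w_{m,T} w_{m',T'} H(T ∪ T')] = ∑_{T,T'} E[Q_T Q_T' H(T ∪ T')] ≥ 0`
  (marginals as in (K)).
Conclude with `no_refutation`.
-/

set_option autoImplicit false
set_option linter.unusedSectionVars false

namespace Pool.Agent.SOSC

open Finset

variable {V : Type*} [Fintype V] [DecidableEq V] {k k' : ℕ}

/-- the value of a polynomial -/
private noncomputable def pv (y : V → Fin k → Fn V k') (p : MvPolynomial (V × Fin k) ℝ) :
    Fn V k' := fun c => MvPolynomial.eval (fun x : V × Fin k => y x.1 x.2 c) p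

/-- the vertices of a monomial -/
private def smv (m : V × Fin k →₀ ℕ) : Finset V := m.support.image Prod.fst

/-- the value of a monomial -/
private noncomputable def fm (y : V → Fin k → Fn V k') (m : V × Fin k →₀ ℕ) : Fn V k' :=
  fun c => m.prod fun x e => y x.1 x.2 c ^ e

/-- the functional on monomials -/
private noncomputable def lm (y : V → Fin k → Fn V k') (H : Finset V → Fn V k')
    (m : V × Fin k →₀ ℕ) : ℝ := ev (fun c => fm y m c * H (smv m) c)

/-- the functional -/
private noncomputable def LL (y : V → Fin k → Fn V k') (H : Finset V → Fn V k') :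
    MvPolynomial (V × Fin k) ℝ →ₗ[ℝ] ℝ :=
  (MvPolynomial.basisMonomials (V × Fin k) ℝ).constr ℝ (fun m => lm y H m)

private lemma LL_monomial (y : V → Fin k → Fn V k') (H : Finset V → Fn V k')
    (m : V × Fin k →₀ ℕ) (a : ℝ) : LL y H (MvPolynomial.monomial m a) = a * lm y H m := by
  have h1 : MvPolynomial.monomial m a = a • (MvPolynomial.basisMonomials (V × Fin k) ℝ) m := by
    rw [MvPolynomial.coe_basisMonomials, MvPolynomial.smul_monomial, smul_eq_mul, mul_one]
  rw [h1, map_smul, LL, Module.Basis.constr_basis, smul_eq_mul]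

private lemma fm_add (y : V → Fin k → Fn V k') (m m' : V × Fin k →₀ ℕ) (c : V → Fin k') :
    fm y (m + m') c = fm y m c * fm y m' c :=
  Finsupp.prod_add_index' (fun _ => pow_zero _) (fun _ _ _ => pow_add _ _ _)

private lemma smv_add (m m' : V × Fin k →₀ ℕ) : smv (m + m') ⊆ smv m ∪ smv m' := by
  intro v hv
  obtain ⟨x, hx, rfl⟩ := mem_image.1 hv
  rcases mem_union.1 (Finsupp.support_add hx) with h | h
  · exact mem_union_left _ (mem_image_of_mem _ h)
  · exact mem_union_right _ (mem_image_of_mem _ h)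

private lemma card_smv (m : V × Fin k →₀ ℕ) : (smv m).card ≤ m.sum fun _ e => e := by
  refine card_image_le.trans ?_
  rw [Finsupp.sum, card_eq_sum_ones]
  exact sum_le_sum fun x hx => Nat.one_le_iff_ne_zero.2 (Finsupp.mem_support_iff.1 hx)

private lemma card_smv_le {q : MvPolynomial (V × Fin k) ℝ} {m : V × Fin k →₀ ℕ}
    (hm : m ∈ q.support) : (smv m).card ≤ q.totalDegree :=
  (card_smv m).trans (MvPolynomial.le_totalDegree hm)

private lemma depOn_prod {S : Finset V} {ι : Type*} {s : Finset ι} {f : ι → Fn V k'}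
    (hf : ∀ i ∈ s, DepOn S (f i)) : DepOn S (fun c => ∏ i ∈ s, f i c) :=
  fun c c' hc => prod_congr rfl fun i hi => hf i hi c c' hc

private lemma depOn_fm {y : V → Fin k → Fn V k'} (hdep : ∀ v i, DepOn {v} (y v i))
    (m : V × Fin k →₀ ℕ) : DepOn (smv m) (fm y m) := by
  refine depOn_prod fun x hx => ?_
  intro c c' hc
  have h1 := hdep x.1 x.2 c c' (fun v hv => by
    rw [mem_singleton.1 hv]
    exact hc x.1 (mem_image_of_mem _ hx))
  show y x.1 x.2 c ^ m x = y x.1 x.2 c' ^ m x
  rw [h1]

private lemma ev_marg [NeZero k'] {G' : SimpleGraph V} {r : ℕ} {H : Finset V → Fn V k'}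
    (hH : PEfam G' (2 * r) r H) {f : Fn V k'} {S0 : Finset V} (hf : DepOn S0 f) :
    ∀ (n : ℕ) (S : Finset V), (S \ S0).card = n → S0 ⊆ S → S.card ≤ 2 * r →
      ev (fun c => f c * H S c) = ev (fun c => f c * H S0 c) := by
  intro n
  induction n with
  | zero =>
    intro S h1 h2 _
    rw [card_eq_zero, sdiff_eq_empty_iff_subset] at h1
    rw [Subset.antisymm h1 h2]
  | succ n ih =>
    intro S h1 h2 h3
    have hne : (S \ S0).Nonempty := by
      rw [← card_pos]
      omega
    obtain ⟨v, hv⟩ := hne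
    obtain ⟨hvS, hv0⟩ := mem_sdiff.1 hv
    have h4 : ev (fun c => f c * H S c) = ev (fun c => f c * H (S.erase v) c) := by
      rw [← ev_av v, av_mul hv0 hf, hH.marg S h3 v hvS]
    rw [h4]
    apply ih
    · have h5 : (S.erase v) \ S0 = (S \ S0).erase v := by
        ext x
        simp only [mem_sdiff, mem_erase]
        tauto
      rw [h5, card_erase_of_mem hv]
      omega
    · intro x hx
      refine mem_erase.2 ⟨?_, h2 hx⟩
      rintro rfl
      exact hv0 hx
    · exact (card_le_card (erase_subset _ _)).trans h3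

private lemma ev_marg' [NeZero k'] {G' : SimpleGraph V} {r : ℕ} {H : Finset V → Fn V k'}
    (hH : PEfam G' (2 * r) r H) {f : Fn V k'} {S0 S : Finset V} (hf : DepOn S0 f)
    (h0 : S0 ⊆ S) (hS : S.card ≤ 2 * r) :
    ev (fun c => f c * H S c) = ev (fun c => f c * H S0 c) :=
  ev_marg hH hf _ S rfl h0 hS

private lemma lm_eq [NeZero k'] {G' : SimpleGraph V} {r : ℕ} {H : Finset V → Fn V k'}
    (hH : PEfam G' (2 * r) r H) {y : V → Fin k → Fn V k'} (hdep : ∀ v i, DepOn {v} (y v i))
    {m : V × Fin k →₀ ℕ} {S : Finset V} (hm : smv m ⊆ S) (hS : S.card ≤ 2 * r) :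
    lm y H m = ev (fun c => fm y m c * H S c) :=
  (ev_marg' hH (depOn_fm hdep m) hm hS).symm

private lemma pv_eq (y : V → Fin k → Fn V k') (p : MvPolynomial (V × Fin k) ℝ)
    (c : V → Fin k') : pv y p c = ∑ m ∈ p.support, p.coeff m * fm y m c := by
  unfold pv
  rw [MvPolynomial.eval_eq]
  rfl

private lemma LL_eq [NeZero k'] {G' : SimpleGraph V} {r : ℕ} {H : Finset V → Fn V k'}
    (hH : PEfam G' (2 * r) r H) {y : V → Fin k → Fn V k'} (hdep : ∀ v i, DepOn {v} (y v i))
    (p : MvPolynomial (V × Fin k) ℝ) {S : Finset V} (hp : ∀ m ∈ p.support, smv m ⊆ S)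
    (hS : S.card ≤ 2 * r) : LL y H p = ev (fun c => pv y p c * H S c) := by
  have h1 := congrArg (LL y H) p.as_sum
  rw [map_sum] at h1
  rw [h1]
  have h2 : ∀ m ∈ p.support, LL y H (MvPolynomial.monomial m (p.coeff m)) =
      ev (fun c => p.coeff m * (fm y m c * H S c)) := by
    intro m hm
    rw [LL_monomial, lm_eq hH hdep (hp m hm) hS, ev_smul]
  rw [sum_congr rfl h2, ← ev_sum]
  refine ev_congr fun c => ?_
  rw [pv_eq, sum_mul]
  exact sum_congr rfl fun m _ => by ring

private lemma constr_zero [NeZero k'] {G' : SimpleGraph V} {r : ℕ} {H : Finset V → Fn V k'}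
    (hH : PEfam G' (2 * r) r H) {y : V → Fin k → Fn V k'} (hdep : ∀ v i, DepOn {v} (y v i))
    (g : MvPolynomial (V × Fin k) ℝ) (Sg : Finset V) (hvars : ∀ x ∈ g.vars, x.1 ∈ Sg)
    (hcard : Sg.card ≤ g.totalDegree) (hg : g ≠ 0)
    (hz : ∀ S : Finset V, Sg ⊆ S → S.card ≤ 2 * r → ∀ c, pv y g c * H S c = 0)
    (p : MvPolynomial (V × Fin k) ℝ) (hp : (p * g).totalDegree ≤ 2 * r) :
    LL y H (p * g) = 0 := by
  by_cases hp0 : p = 0
  · rw [hp0, zero_mul, map_zero]
  rw [MvPolynomial.totalDegree_mul_of_isDomain hp0 hg] at hp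
  have h1 : p * g = ∑ m ∈ p.support, MvPolynomial.monomial m (p.coeff m) * g := by
    rw [← sum_mul, ← p.as_sum]
  rw [h1, map_sum]
  refine sum_eq_zero fun m hm => ?_
  have hS : (smv m ∪ Sg).card ≤ 2 * r := by
    have h2 := card_union_le (smv m) Sg
    have h3 := card_smv_le hm
    omega
  have hsg : ∀ m' ∈ g.support, smv m' ⊆ Sg := by
    intro m' hm' v hv
    obtain ⟨x, hx, rfl⟩ := mem_image.1 hv
    exact hvars x ((MvPolynomial.mem_vars_iff_mem_support x).2 ⟨m', hm', hx⟩)
  rw [LL_eq hH hdep (S := smv m ∪ Sg) _ ?_ hS]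
  · have h4 : ∀ c, pv y (MvPolynomial.monomial m (p.coeff m) * g) c * H (smv m ∪ Sg) c = 0 := by
      intro c
      have h5 : pv y (MvPolynomial.monomial m (p.coeff m) * g) c =
          pv y (MvPolynomial.monomial m (p.coeff m)) c * pv y g c := map_mul _ _ _
      rw [h5, mul_assoc, hz _ subset_union_right hS c, mul_zero]
    rw [ev_congr h4, ev_zero]
  · intro m' hm'
    obtain ⟨m1, h1, m2, h2, rfl⟩ := mem_add.1 (MvPolynomial.support_mul _ _ hm')
    have h3 : m1 = m := mem_singleton.1 (MvPolynomial.support_monomial_subset h1)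
    subst h3
    exact (smv_add m1 m2).trans (union_subset_union_right (hsg m2 h2))

private lemma bool_facts (x : V × Fin k) : 1 ≤ (boolP x).totalDegree ∧ boolP x ≠ 0 ∧
    ∀ z ∈ (boolP x).vars, z.1 ∈ ({x.1} : Finset V) := by
  have h1 : (Finsupp.single x 2 : V × Fin k →₀ ℕ) ∈ (boolP x).support := by
    rw [MvPolynomial.mem_support_iff, boolP, MvPolynomial.coeff_sub, MvPolynomial.coeff_X_pow,
      MvPolynomial.coeff_X, if_pos rfl, if_neg]
    · norm_num
    · intro h
      have h2 := DFunLike.congr_fun h x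
      simp at h2
  refine ⟨?_, ?_, ?_⟩
  · have h2 := MvPolynomial.le_totalDegree h1
    rw [Finsupp.sum_single_index rfl] at h2
    omega
  · intro h
    rw [h] at h1
    simp at h1
  · intro z hz
    rcases mem_union.1 (MvPolynomial.vars_sub_subset _ hz) with h | h
    · have h3 := MvPolynomial.vars_pow _ _ h
      rw [MvPolynomial.vars_X, mem_singleton] at h3
      rw [h3]
      exact mem_singleton_self _
    · rw [MvPolynomial.vars_X, mem_singleton] at h
      rw [h]
      exact mem_singleton_self _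

private lemma sum_facts (v : V) (hk : 0 < k) : 1 ≤ (sumP k v).totalDegree ∧ sumP k v ≠ 0 ∧
    ∀ z ∈ (sumP k v).vars, z.1 ∈ ({v} : Finset V) := by
  have h1 : (Finsupp.single (v, (⟨0, hk⟩ : Fin k)) 1 : V × Fin k →₀ ℕ) ∈ (sumP k v).support := by
    rw [MvPolynomial.mem_support_iff, sumP, MvPolynomial.coeff_sub, MvPolynomial.coeff_sum,
      MvPolynomial.coeff_one, if_neg]
    · rw [sum_eq_single (⟨0, hk⟩ : Fin k)]
      · rw [MvPolynomial.coeff_X, if_pos rfl]
        norm_num
      · intro i _ hi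
        rw [MvPolynomial.coeff_X, if_neg]
        intro h
        apply hi
        have h2 := (Finsupp.single_left_inj (one_ne_zero)).1 h
        exact (Prod.ext_iff.1 h2).2
      · intro h
        exact absurd (mem_univ _) h
    · intro h
      have h2 := DFunLike.congr_fun h (v, (⟨0, hk⟩ : Fin k))
      simp at h2
  refine ⟨?_, ?_, ?_⟩
  · have h2 := MvPolynomial.le_totalDegree h1
    rw [Finsupp.sum_single_index rfl] at h2
    omega
  · intro h
    rw [h] at h1
    simp at h1
  · intro z hz
    rcases mem_union.1 (MvPolynomial.vars_sub_subset _ hz) with h | h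
    · obtain ⟨i, -, hi⟩ := mem_biUnion.1 (MvPolynomial.vars_sum_subset _ _ h)
      rw [MvPolynomial.vars_X, mem_singleton] at hi
      rw [hi]
      exact mem_singleton_self _
    · rw [MvPolynomial.vars_one] at h
      exact absurd h (notMem_empty _)

private lemma edge_facts (u v : V) (i : Fin k) :
    ({u, v} : Finset V).card ≤ (edgeP u v i).totalDegree ∧ edgeP u v i ≠ 0 ∧
    ∀ z ∈ (edgeP u v i).vars, z.1 ∈ ({u, v} : Finset V) := by
  refine ⟨?_, ?_, ?_⟩
  · rw [edgeP, MvPolynomial.totalDegree_mul_of_isDomain (MvPolynomial.X_ne_zero _)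
      (MvPolynomial.X_ne_zero _), MvPolynomial.totalDegree_X, MvPolynomial.totalDegree_X]
    exact card_le_two
  · exact mul_ne_zero (MvPolynomial.X_ne_zero _) (MvPolynomial.X_ne_zero _)
  · intro z hz
    rcases mem_union.1 (MvPolynomial.vars_mul _ _ hz) with h | h
    · rw [MvPolynomial.vars_X, mem_singleton] at h
      rw [h]
      exact mem_insert_self _ _
    · rw [MvPolynomial.vars_X, mem_singleton] at h
      rw [h]
      exact mem_insert_of_mem (mem_singleton_self _)

/-- positivity -/
private lemma LL_pos [NeZero k'] {G' : SimpleGraph V} {r : ℕ} (hr : 1 ≤ r)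
    (hk : (4 * (2 * r) * 2 ^ (2 * r)) ^ 2 ≤ k') {H : Finset V → Fn V k'}
    (hH : PEfam G' (2 * r) r H) {y : V → Fin k → Fn V k'} (hdep : ∀ v i, DepOn {v} (y v i))
    (q : MvPolynomial (V × Fin k) ℝ) (hq : q.totalDegree ≤ r) : 0 ≤ LL y H (q ^ 2) := by
  classical
  have hsp : ∀ m : V × Fin k →₀ ℕ, ∃ w : Finset V → Fn V k', m ∈ q.support →
      ((∀ T ⊆ smv m, IsW G' T (w T)) ∧
        ∀ c, Proper G' (smv m) c → fm y m c = ∑ T ∈ (smv m).powerset, w T c) := by
    intro m
    by_cases hm : m ∈ q.support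
    · have h1 : (smv m).card ≤ 2 * r := by
        have := card_smv_le hm
        omega
      obtain ⟨w, hw1, hw2⟩ := spanning G' (2 * r) (by omega) hk (smv m) h1 (fm y m)
        (depOn_fm hdep m)
      exact ⟨w, fun _ => ⟨hw1, hw2⟩⟩
    · exact ⟨0, fun h => absurd h hm⟩
  choose w hw using hsp
  -- the family cut off
  set w' : (V × Fin k →₀ ℕ) → Finset V → Fn V k' :=
    fun m T => if T ⊆ smv m then w m T else 0 with hw'
  have hW : ∀ m ∈ q.support, ∀ T, IsW G' T (w' m T) := by
    intro m hm T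
    rw [hw']
    dsimp only
    split_ifs with h
    · exact (hw m hm).1 T h
    · exact IsW.zero G' T
  have hexp : ∀ m ∈ q.support, ∀ c, Proper G' (smv m) c → fm y m c = ∑ T, w' m T c := by
    intro m hm c hc
    rw [(hw m hm).2 c hc, ← sum_subset (subset_univ (smv m).powerset)]
    · refine sum_congr rfl fun T hT => ?_
      rw [hw']
      dsimp only
      rw [if_pos (mem_powerset.1 hT)]
    · intro T _ hT
      rw [hw']
      dsimp only
      rw [if_neg (fun h => hT (mem_powerset.2 h))]
      rfl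
  set Q : Finset V → Fn V k' := fun T c => ∑ m ∈ q.support, q.coeff m * w' m T c with hQ
  have hFam : Fam G' r Q := by
    refine ⟨fun T => ?_, fun T hT => ?_⟩
    · exact IsW.sum fun m hm => (hW m hm T).smul _
    · funext c
      refine sum_eq_zero fun m hm => ?_
      have h1 : ¬ T ⊆ smv m := by
        intro h
        have h2 := card_le_card h
        have h3 := card_smv_le hm
        omega
      have h2 : w' m T = 0 := if_neg h1
      rw [h2, Pi.zero_apply, mul_zero]
  have hpos := hH.pos Q hFam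
  -- the terms
  have hterm : ∀ m ∈ q.support, ∀ m' ∈ q.support, lm y H (m + m') =
      ∑ T, ∑ T', ev (fun c => w' m T c * w' m' T' c * H (T ∪ T') c) := by
    intro m hm m' hm'
    have hS : (smv m ∪ smv m').card ≤ 2 * r := by
      have h1 := card_union_le (smv m) (smv m')
      have h2 := card_smv_le hm
      have h3 := card_smv_le hm'
      omega
    rw [lm_eq hH hdep (smv_add m m') hS]
    have h1 : ∀ c, fm y (m + m') c * H (smv m ∪ smv m') c =
        ∑ T, ∑ T', w' m T c * w' m' T' c * H (smv m ∪ smv m') c := by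
      intro c
      by_cases hc : Proper G' (smv m ∪ smv m') c
      · rw [fm_add, hexp m hm c (hc.mono subset_union_left),
          hexp m' hm' c (hc.mono subset_union_right), sum_mul_sum, sum_mul]
        exact sum_congr rfl fun T _ => by rw [sum_mul]
      · rw [hH.prop _ hS c hc, mul_zero]
        symm
        refine sum_eq_zero fun T _ => sum_eq_zero fun T' _ => ?_
        rw [mul_zero]
    rw [ev_congr h1, ev_sum]
    refine sum_congr rfl fun T _ => ?_
    rw [ev_sum]
    refine sum_congr rfl fun T' _ => ?_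
    by_cases hT : T ⊆ smv m
    · by_cases hT' : T' ⊆ smv m'
      · have h2 : DepOn (T ∪ T') (fun c => w' m T c * w' m' T' c) :=
          ((hW m hm T).dep.mono subset_union_left).mul
            ((hW m' hm' T').dep.mono subset_union_right)
        exact ev_marg' hH h2 (union_subset_union hT hT') hS
      · have h2 : w' m' T' = 0 := if_neg hT'
        simp only [h2, Pi.zero_apply, mul_zero, zero_mul]
    · have h2 : w' m T = 0 := if_neg hT
      simp only [h2, Pi.zero_apply, zero_mul]
  have hL : LL y H (q ^ 2) = ∑ m ∈ q.support, ∑ m' ∈ q.support,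
      q.coeff m * q.coeff m' * lm y H (m + m') := by
    have h1 : q ^ 2 = ∑ m ∈ q.support, ∑ m' ∈ q.support,
        MvPolynomial.monomial (m + m') (q.coeff m * q.coeff m') := by
      have h2 : q ^ 2 = (∑ m ∈ q.support, MvPolynomial.monomial m (q.coeff m)) *
          ∑ m ∈ q.support, MvPolynomial.monomial m (q.coeff m) := by
        rw [← q.as_sum, sq]
      rw [h2, sum_mul_sum]
      exact sum_congr rfl fun m _ => sum_congr rfl fun m' _ => MvPolynomial.monomial_mul
    rw [h1, map_sum]
    refine sum_congr rfl fun m _ => ?_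
    rw [map_sum]
    exact sum_congr rfl fun m' _ => LL_monomial _ _ _ _
  have hR : ∑ S, ∑ T, ev (fun c => Q S c * Q T c * H (S ∪ T) c) = LL y H (q ^ 2) := by
    rw [hL]
    have h1 : ∀ S T : Finset V, ev (fun c => Q S c * Q T c * H (S ∪ T) c) =
        ∑ m ∈ q.support, ∑ m' ∈ q.support, q.coeff m * q.coeff m' *
          ev (fun c => w' m S c * w' m' T c * H (S ∪ T) c) := by
      intro S T
      have h2 : ∀ c, Q S c * Q T c * H (S ∪ T) c = ∑ m ∈ q.support, ∑ m' ∈ q.support,
          q.coeff m * q.coeff m' * (w' m S c * w' m' T c * H (S ∪ T) c) := by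
        intro c
        rw [hQ]
        dsimp only
        rw [sum_mul_sum, sum_mul]
        refine sum_congr rfl fun m _ => ?_
        rw [sum_mul]
        exact sum_congr rfl fun m' _ => by ring
      rw [ev_congr h2, ev_sum]
      refine sum_congr rfl fun m _ => ?_
      rw [ev_sum]
      exact sum_congr rfl fun m' _ => ev_smul _ _
    simp only [h1]
    calc ∑ S : Finset V, ∑ T : Finset V, ∑ m ∈ q.support, ∑ m' ∈ q.support,
          q.coeff m * q.coeff m' * ev (fun c => w' m S c * w' m' T c * H (S ∪ T) c)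
        = ∑ S : Finset V, ∑ m ∈ q.support, ∑ T : Finset V, ∑ m' ∈ q.support,
          q.coeff m * q.coeff m' * ev (fun c => w' m S c * w' m' T c * H (S ∪ T) c) :=
          sum_congr rfl fun S _ => sum_comm
      _ = ∑ m ∈ q.support, ∑ S : Finset V, ∑ T : Finset V, ∑ m' ∈ q.support,
          q.coeff m * q.coeff m' * ev (fun c => w' m S c * w' m' T c * H (S ∪ T) c) :=
          sum_comm
      _ = ∑ m ∈ q.support, ∑ S : Finset V, ∑ m' ∈ q.support, ∑ T : Finset V,
          q.coeff m * q.coeff m' * ev (fun c => w' m S c * w' m' T c * H (S ∪ T) c) :=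
          sum_congr rfl fun m _ => sum_congr rfl fun S _ => sum_comm
      _ = ∑ m ∈ q.support, ∑ m' ∈ q.support, ∑ S : Finset V, ∑ T : Finset V,
          q.coeff m * q.coeff m' * ev (fun c => w' m S c * w' m' T c * H (S ∪ T) c) :=
          sum_congr rfl fun m _ => sum_comm
      _ = _ := by
          refine sum_congr rfl fun m hm => sum_congr rfl fun m' hm' => ?_
          rw [hterm m hm m' hm', mul_sum]
          exact sum_congr rfl fun S _ => by rw [mul_sum]
  rw [← hR]
  exact hpos

theorem no_refutation_of_family [NeZero k'] (G G' : SimpleGraph V) {r : ℕ} (hr : 1 ≤ r)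
    (hk : (4 * (2 * r) * 2 ^ (2 * r)) ^ 2 ≤ k') {H : Finset V → Fn V k'}
    (hH : PEfam G' (2 * r) r H) (y : V → Fin k → Fn V k') (hdep : ∀ v i, DepOn {v} (y v i))
    (hbool : ∀ v i c, y v i c ^ 2 = y v i c) (hsum : ∀ v c, ∑ i, y v i c = 1)
    (hedge : ∀ u v, G.Adj u v → ∀ i c, (G'.Adj u v → c u ≠ c v) → y u i c * y v i c = 0) :
    ¬ SoSRefutes G k (2 * r) := by
  refine no_refutation G r (LL y H) ?_ (fun q hq => LL_pos hr hk hH hdep q hq) ?_ ?_ ?_
  · have h1 : (1 : MvPolynomial (V × Fin k) ℝ) = MvPolynomial.monomial 0 1 := rfl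
    rw [h1, LL_monomial, one_mul, lm]
    have h2 : ∀ c, fm y (0 : V × Fin k →₀ ℕ) c * H (smv (0 : V × Fin k →₀ ℕ)) c = 1 := by
      intro c
      have h3 : smv (0 : V × Fin k →₀ ℕ) = ∅ := rfl
      have h4 : fm y (0 : V × Fin k →₀ ℕ) c = 1 := Finsupp.prod_zero_index
      rw [h3, h4, hH.empty, mul_one]
    rw [ev_congr h2, ev_const]
  · intro p x hp
    obtain ⟨h1, h2, h3⟩ := bool_facts x
    refine constr_zero hH hdep _ {x.1} h3 (by rw [card_singleton]; exact h1) h2 ?_ p hp
    intro S _ _ c
    have h4 : pv y (boolP x) c = y x.1 x.2 c ^ 2 - y x.1 x.2 c := by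
      simp [pv, boolP]
    rw [h4, hbool, sub_self, zero_mul]
  · intro p v hp
    have hk0 : 0 < k := by
      rcases Nat.eq_zero_or_pos k with h | h
      · exfalso
        subst h
        have h1 := hsum v (fun _ => 0)
        rw [univ_eq_empty, sum_empty] at h1
        exact zero_ne_one h1
      · exact h
    obtain ⟨h1, h2, h3⟩ := sum_facts v hk0
    refine constr_zero hH hdep _ {v} h3 (by rw [card_singleton]; exact h1) h2 ?_ p hp
    intro S _ _ c
    have h4 : pv y (sumP k v) c = ∑ i, y v i c - 1 := by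
      simp [pv, sumP]
    rw [h4, hsum, sub_self, zero_mul]
  · intro p u v i huv hp
    obtain ⟨h1, h2, h3⟩ := edge_facts u v i
    refine constr_zero hH hdep _ {u, v} h3 h1 h2 ?_ p hp
    intro S hS hcard c
    have h4 : pv y (edgeP u v i) c = y u i c * y v i c := by
      simp [pv, edgeP]
    by_cases hc : Proper G' S c
    · have h5 := hedge u v huv i c (fun h =>
        hc u (hS (mem_insert_self _ _)) v (hS (mem_insert_of_mem (mem_singleton_self _))) h)
      rw [h4, h5, zero_mul]
    · rw [hH.prop S hcard c hc, mul_zero]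

end Pool.Agent.SOSC
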