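import Pool.Agent.SOSC.Rep
import Pool.Agent.SOSC.Reidx
import Pool.Agent.SOSC.Est

/-!
# SOSC SPECTRAL: the sum over the allowed edges for fixed `(S, T)`

Let `Mat G S T`, `|S \ T| = m - 1`, `S.card + 1 ≤ r`, `T.card + 1 ≤ r`, `X = S ∪ T`, `D = 2r`.
For allowed adjacent `u, v` put `S' = insert u S`, `T' = insert v T`.  By `mat_insert`, `rep`,
`jj_insert`,
`E[q_S' q_T' dens G 0 (S' ∪ T')] = (-k/(k-1))^m E[q_S' q_T' g 1[c u = c v]]`,
`g = dens G 0 (S ∩ T) JJ G S T`, which does not depend on the colours of `u, v`, and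
`|g| ≤ CE (2r) JJ G S T` (`est_sup`).  Averaging over the colours of `u` and `v`:
`E[q_S' q_T' g 1[c u = c v]] = (1/k²) ∑_z E[g q_S'(c[u ↦ z]) q_T'(c[v ↦ z])]`.
Put `F_u(c,z) = 1[Alw G X u] q_{insert u S}(c[u ↦ z])`, `H_v(c,z) = 1[Alw G X v] q_{insert v T}(c[v ↦ z])`.
Then the sum over all allowed adjacent `(u, v)` is
`(-k/(k-1))^m (1/k²) ∑_z E[g(c) ∑_{u ~ v} F_u(c,z) H_v(c,z)]` and `Spec` gives
`|∑_{u ~ v} F_u H_v| ≤ M (∑ F_u²)^{1/2} (∑ H_v²)^{1/2} + (P/n) |∑ F_u| |∑ H_v|` for all `c, z`.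

M-part.  `E[JJ (∑ F²)^{1/2} (∑ H²)^{1/2}] ≤ (E[JJ ∑ F²])^{1/2} (E[JJ ∑ H²])^{1/2}`.  `∑_u F_u(c,z)²`
depends only on the colours of `S`; `JJ` is a product of `m - 1` factors `1[c s = c t]` with
different `t ∈ T \ S`, so `E[JJ ∑ F²] = k^{-(m-1)} E[∑ F²]` (`ev_prod_link` with `Z = T \ S`, `g t` the
partner of `t`); same for `H` (`Z = S \ T`).  With
`(1/k) ∑_z √a_z √b_z ≤ ((1/k) ∑ a_z)^{1/2} ((1/k) ∑ b_z)^{1/2}` and
`(1/k) ∑_z E[q_{insert u S}(c[u ↦ z])²] = E[q_{insert u S}²]`, and `k/(k-1) ≤ 2`, the M-part is at most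
`2^m CE M k^{-m} (∑_{u ∉ S} E[q_{insert u S}²])^{1/2} (∑_{v ∉ T} E[q_{insert v T}²])^{1/2}`.

P-part.  `JJ ≤ 1` and `|∑F| |∑H| ≤ ((∑F)² + (∑H)²)/2`.  `∑_u F_u(c,z) = sgm q S z c - ∑_{u ∉ S, not Alw} q_{insert u S}(c[u ↦ z])`;
there are at most `|X| (Δ+1) ≤ 2r(Δ+1)` vertices which are not allowed, so
`(∑ F)² ≤ 2 (sgm q S z c)² + 4r(Δ+1) ∑_{u ∉ S} q_{insert u S}(c[u ↦ z])²`.  So the P-part is at most
`2^m CE (P/n) (1/k²) ∑_z E[...] ≤ 2^m CE (P/n) (sgS S + sgS T + 2r(Δ+1) (nS S + nS T))` where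
`sgS S = ∑_z E[(sgm q S z)²]`, `nS S = ∑_{u ∉ S} E[q_{insert u S}²]`.
-/

set_option autoImplicit false
set_option linter.unusedSectionVars false

namespace Pool.Agent.SOSC

open Finset

variable {V : Type*} [Fintype V] [DecidableEq V] {k : ℕ}

/-- `∑_{u ∉ S} E[q_{insert u S}²]`. -/
noncomputable def nS (q : Finset V → Fn V k) (S : Finset V) : ℝ :=
  ∑ u ∈ univ \ S, ev (fun c => q (insert u S) c ^ 2)

/-- `∑_z E[(sgm q S z)²]`. -/
noncomputable def sgS (q : Finset V → Fn V k) (S : Finset V) : ℝ :=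
  ∑ z : Fin k, ev (fun c => sgm q S z c ^ 2)

theorem two_le_k [NeZero k] {r : ℕ} (hr : 1 ≤ r) (hk : K0 (2 * r) ≤ k) : 2 ≤ k := by
  have h1 : (4 * (2 * r) * 2 ^ (2 * r)) ^ 2 ≤ k := le_trans (le_max_left _ _) hk
  have h2 : 1 ≤ 2 ^ (2 * r) := Nat.one_le_two_pow
  have h3 : 8 ≤ 4 * (2 * r) * 2 ^ (2 * r) := by nlinarith
  nlinarith

open Classical in
/-- The functions `F_u(c, z)`. -/
noncomputable def FF (G : SimpleGraph V) (X : Finset V) (q : Finset V → Fn V k) (S : Finset V)
    (z : Fin k) (u : V) : Fn V k :=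
  fun c => if Alw G X u then q (insert u S) (Function.update c u z) else 0

theorem depOn_update {S : Finset V} {u : V} {f : Fn V k} (hf : DepOn (insert u S) f) (z : Fin k) :
    DepOn S (fun c => f (Function.update c u z)) := by
  intro c c' hc
  apply hf
  intro v hv
  by_cases h : v = u
  · subst h; simp
  · simp [h, hc v ((mem_insert.1 hv).resolve_left h)]

theorem FF_dep {G : SimpleGraph V} {X : Finset V} {q : Finset V → Fn V k}
    (hq : ∀ S, DepOn S (q S)) (S : Finset V) (z : Fin k) (u : V) : DepOn S (FF G X q S z u) := by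
  intro c c' hc
  unfold FF
  split_ifs
  · exact depOn_update (hq _) z c c' hc
  · rfl

theorem sum_ev_update [NeZero k] (u : V) (f : Fn V k) :
    ∑ z : Fin k, ev (fun c => f (Function.update c u z)) = k * ev f := by
  have hk : (k : ℝ) ≠ 0 := Nat.cast_ne_zero.2 (NeZero.ne k)
  rw [← ev_av u f, ← ev_sum]
  rw [← ev_smul]
  refine ev_congr fun c => ?_
  simp only [av]
  field_simp

/-- `∑_z E[∑_u F_u(c,z)²] ≤ k nS`. -/
theorem sum_FF_sq [NeZero k] (G : SimpleGraph V) {X : Finset V} (q : Finset V → Fn V k)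
    {S : Finset V} (hSX : S ⊆ X) :
    ∑ z : Fin k, ev (fun c => ∑ u, FF G X q S z u c ^ 2) ≤ k * nS q S := by
  classical
  simp only [ev_sum]
  rw [sum_comm, nS, mul_sum]
  have h1 : ∀ u : V, ∑ z : Fin k, ev (fun c => FF G X q S z u c ^ 2) ≤
      if u ∈ univ \ S then k * ev (fun c => q (insert u S) c ^ 2) else 0 := by
    intro u
    by_cases hu : Alw G X u
    · have hu' : u ∈ univ \ S := by
        simp only [mem_sdiff, mem_univ, true_and]
        exact fun h => hu.1 (hSX h)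
      rw [if_pos hu']
      refine le_of_eq ?_
      rw [← sum_ev_update u (fun c => q (insert u S) c ^ 2)]
      refine sum_congr rfl fun z _ => ev_congr fun c => ?_
      simp only [FF, if_pos hu]
    · have h2 : ∑ z : Fin k, ev (fun c => FF G X q S z u c ^ 2) = 0 := by
        refine sum_eq_zero fun z _ => ?_
        have : (fun c => FF G X q S z u c ^ 2) = fun _ : V → Fin k => (0 : ℝ) := by
          funext c
          simp only [FF, if_neg hu]
          norm_num
        rw [this, ev_zero]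
      rw [h2]
      split_ifs
      · exact mul_nonneg (by positivity) (ev_nonneg fun c => sq_nonneg _)
      · exact le_refl _
  refine (sum_le_sum fun u _ => h1 u).trans (le_of_eq ?_)
  rw [← sum_filter]
  refine sum_congr ?_ fun _ _ => rfl
  ext u; simp

open Classical in
/-- `JJ` as a product over `T \ S`. -/
theorem jj_right {G : SimpleGraph V} {S T : Finset V} (hm : Mat G S T) :
    ∃ g : V → V, (∀ t ∈ T \ S, g t ∉ T \ S) ∧
      ∀ c : V → Fin k, JJ G S T c = ∏ t ∈ T \ S, (if c t = c (g t) then 1 else 0) := by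
  have hex : ∀ t : V, ∃ s : V, t ∈ T \ S → (s ∈ S \ T ∧ G.Adj t s ∧
      ∀ x ∈ S ∪ T, G.Adj t x → x = s) := by
    intro t
    by_cases ht : t ∈ T \ S
    · obtain ⟨s, hs, h1, h2⟩ := hm.2 t ht
      exact ⟨s, fun _ => ⟨hs, h1, h2⟩⟩
    · exact ⟨t, fun h => absurd h ht⟩
  choose g hg using hex
  refine ⟨g, fun t ht h => ?_, fun c => ?_⟩
  · exact (mem_sdiff.1 h).2 (mem_sdiff.1 (hg t ht).1).1
  · unfold JJ
    rw [prod_comm]
    refine prod_congr rfl fun t ht => ?_
    obtain ⟨h1, h2, h3⟩ := hg t ht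
    rw [prod_eq_single (g t)]
    · rw [if_pos h2.symm]
      simp only [eq_comm]
    · intro s hs hne
      rw [if_neg]
      intro hadj
      exact hne (h3 s (mem_union_left _ (mem_sdiff.1 hs).1) hadj.symm)
    · intro h; exact absurd h1 h

open Classical in
/-- `JJ` as a product over `S \ T`. -/
theorem jj_left {G : SimpleGraph V} {S T : Finset V} (hm : Mat G S T) :
    ∃ g : V → V, (∀ s ∈ S \ T, g s ∉ S \ T) ∧
      ∀ c : V → Fin k, JJ G S T c = ∏ s ∈ S \ T, (if c s = c (g s) then 1 else 0) := by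
  have hex : ∀ s : V, ∃ t : V, s ∈ S \ T → (t ∈ T \ S ∧ G.Adj s t ∧
      ∀ x ∈ S ∪ T, G.Adj s x → x = t) := by
    intro s
    by_cases hs : s ∈ S \ T
    · obtain ⟨t, ht, h1, h2⟩ := hm.1 s hs
      exact ⟨t, fun _ => ⟨ht, h1, h2⟩⟩
    · exact ⟨s, fun h => absurd h hs⟩
  choose g hg using hex
  refine ⟨g, fun s hs h => ?_, fun c => ?_⟩
  · exact (mem_sdiff.1 h).2 (mem_sdiff.1 (hg s hs).1).1
  · unfold JJ
    refine prod_congr rfl fun s hs => ?_
    obtain ⟨h1, h2, h3⟩ := hg s hs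
    rw [prod_eq_single (g s)]
    · rw [if_pos h2]
    · intro t ht hne
      rw [if_neg]
      intro hadj
      exact hne (h3 t (mem_union_right _ (mem_sdiff.1 ht).1) hadj)
    · intro h; exact absurd h1 h

theorem jj_nonneg (G : SimpleGraph V) (S T : Finset V) (c : V → Fin k) : 0 ≤ JJ G S T c := by
  unfold JJ
  refine prod_nonneg fun s _ => prod_nonneg fun t _ => ?_
  split_ifs <;> norm_num

theorem jj_le_one (G : SimpleGraph V) (S T : Finset V) (c : V → Fin k) : JJ G S T c ≤ 1 := by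
  unfold JJ
  refine prod_le_one (fun s _ => prod_nonneg fun t _ => ?_) (fun s _ => prod_le_one
    (fun t _ => ?_) (fun t _ => ?_))
  all_goals split_ifs <;> norm_num

theorem jj_dep (G : SimpleGraph V) (S T : Finset V) : DepOn (S ∪ T) (JJ G S T : Fn V k) := by
  intro c c' hc
  unfold JJ
  refine prod_congr rfl fun s hs => prod_congr rfl fun t ht => ?_
  rw [hc s (mem_union_left _ (mem_sdiff.1 hs).1), hc t (mem_union_right _ (mem_sdiff.1 ht).1)]

/-- Averaging over the colours of `u` and `v` when they are forced to be equal. -/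
theorem ev_two [NeZero k] {X A B : Finset V} {u v : V} (huv : u ≠ v) (hu : u ∉ X) (hv : v ∉ X)
    (huB : u ∉ B) (hvA : v ∉ A) {g f h : Fn V k} (hg : DepOn X g) (hf : DepOn A f)
    (hh : DepOn B h) :
    ev (fun c => f c * h c * g c * (if c u = c v then 1 else 0)) =
      (1 / (k : ℝ) ^ 2) * ∑ z : Fin k, ev (fun c => g c * f (Function.update c u z) *
        h (Function.update c v z)) := by
  have hk : (k : ℝ) ≠ 0 := Nat.cast_ne_zero.2 (NeZero.ne k)
  rw [← ev_av u, ← ev_av v, ← ev_sum, ← ev_smul]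
  refine ev_congr fun c => ?_
  simp only [av]
  have key : ∀ i j : Fin k,
      f (Function.update (Function.update c v i) u j) *
        h (Function.update (Function.update c v i) u j) *
        g (Function.update (Function.update c v i) u j) *
        (if (Function.update (Function.update c v i) u j) u =
          (Function.update (Function.update c v i) u j) v then 1 else 0) =
      if j = i then g c * f (Function.update c u j) * h (Function.update c v j) else 0 := by
    intro i j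
    have e1 : (Function.update (Function.update c v i) u j) u = j := by simp
    have e2 : (Function.update (Function.update c v i) u j) v = i := by simp [huv.symm]
    rw [e1, e2]
    by_cases hij : j = i
    · subst hij
      have e3 : f (Function.update (Function.update c v j) u j) = f (Function.update c u j) := by
        apply hf
        intro w hw
        have hwv : w ≠ v := fun h => hvA (h ▸ hw)
        by_cases hwu : w = u
        · subst hwu; simp
        · simp [hwu, hwv]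
      have e4 : h (Function.update (Function.update c v j) u j) = h (Function.update c v j) := by
        apply hh
        intro w hw
        have hwu : w ≠ u := fun h => huB (h ▸ hw)
        simp [hwu]
      have e5 : g (Function.update (Function.update c v j) u j) = g c := by
        apply hg
        intro w hw
        have hwu : w ≠ u := fun h => hu (h ▸ hw)
        have hwv : w ≠ v := fun h => hv (h ▸ hw)
        simp [hwu, hwv]
      rw [e3, e4, e5]
      simp only [if_true, mul_one]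
      ring
    · simp [hij]
  simp only [key, sum_ite_eq', mem_univ, if_true]
  rw [← sum_div, div_div, ← sq, div_eq_inv_mul, one_div]

theorem term_eq [NeZero k] (G : SimpleGraph V) {r : ℕ} (hr : 1 ≤ r)
    (hk : K0 (2 * r) ≤ k) {q : Finset V → Fn V k}
    (hq : Fam G r q) {S T : Finset V} (hS : S.card + 1 ≤ r) (hT : T.card + 1 ≤ r)
    (hm : Mat G S T) {u v : V} (huv : G.Adj u v) (hu : Alw G (S ∪ T) u) (hv : Alw G (S ∪ T) v) :
    ev (fun c => q (insert u S) c * q (insert v T) c *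
          dens G 0 (insert u S ∪ insert v T) c) =
      (-((k : ℝ) / (k - 1))) ^ ((S \ T).card + 1) * ((1 / (k : ℝ) ^ 2) *
        ∑ z : Fin k, ev (fun c => (dens G 0 (S ∩ T) c * JJ G S T c) *
          FF G (S ∪ T) q S z u c * FF G (S ∪ T) q T z v c)) := by
  obtain ⟨m1, m2, m3⟩ := mat_insert hm huv hu hv
  have hk1 : (4 * (2 * r) * 2 ^ (2 * r)) ^ 2 ≤ k := le_trans (le_max_left _ _) hk
  have huS : u ∉ S ∪ T := hu.1
  have hvS : v ∉ S ∪ T := hv.1
  have hcard : (insert u S ∪ insert v T).card ≤ 2 * r := by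
    refine (card_union_le _ _).trans ?_
    have := card_insert_le u S
    have := card_insert_le v T
    omega
  rw [rep G (by omega : 2 ≤ 2 * r) hk1 hcard m1 (hq.w _) (hq.w _), m2, m3]
  have hcard2 : (insert u (S \ T)).card = (S \ T).card + 1 :=
    card_insert_of_notMem fun h => huS (mem_union_left _ (mem_sdiff.1 h).1)
  rw [hcard2]
  congr 1
  have hne : u ≠ v := huv.ne
  have hdens : DepOn (S ∪ T) (dens G (0 : Fin k → ℝ) (S ∩ T)) := by
    have : (S ∩ T).card ≤ 2 * r := by
      have := card_le_card (inter_subset_left : S ∩ T ⊆ S)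
      omega
    exact (dens_spec G (by omega : 1 ≤ 2 * r) hk1 0 this).dep.mono
      (fun x hx => mem_union_left _ (mem_inter.1 hx).1)
  have hg : DepOn (S ∪ T) (fun c : V → Fin k => dens G 0 (S ∩ T) c * JJ G S T c) :=
    hdens.mul (jj_dep G S T)
  have huT : u ∉ insert v T := by
    intro h
    rcases mem_insert.1 h with h | h
    · exact hne h
    · exact huS (mem_union_right _ h)
  have hvS' : v ∉ insert u S := by
    intro h
    rcases mem_insert.1 h with h | h
    · exact hne h.symm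
    · exact hvS (mem_union_left _ h)
  have h1 := ev_two hne huS hvS huT hvS' hg (hq.w (insert u S)).dep (hq.w (insert v T)).dep
  have h2 : ev (fun c => q (insert u S) c * q (insert v T) c * dens G 0 (S ∩ T) c *
      JJ G (insert u S) (insert v T) c) =
      ev (fun c => q (insert u S) c * q (insert v T) c * (dens G 0 (S ∩ T) c * JJ G S T c) *
        (if c u = c v then 1 else 0)) := by
    refine ev_congr fun c => ?_
    rw [jj_insert hm huv hu hv c]
    ring
  rw [h2, h1]
  congr 1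
  refine sum_congr rfl fun z _ => ev_congr fun c => ?_
  simp only [FF, if_pos hu, if_pos hv]

/-- The pointwise bound from the spectral condition. -/
theorem spec_pt [NeZero k] (G : SimpleGraph V) {M P : ℝ} (hspec : Spec G M P)
    {q : Finset V → Fn V k} (X S T : Finset V) (z : Fin k) (c : V → Fin k) :
    |∑ u, ∑ v, (open Classical in if G.Adj u v then FF G X q S z u c * FF G X q T z v c else 0)| ≤
      M * (Real.sqrt (∑ u, FF G X q S z u c ^ 2) * Real.sqrt (∑ v, FF G X q T z v c ^ 2)) +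
      P / Fintype.card V * (|∑ u, FF G X q S z u c| * |∑ v, FF G X q T z v c|) :=
  hspec (fun u => FF G X q S z u c) (fun v => FF G X q T z v c)

open Classical in
/-- The whole inner sum. -/
theorem inner_eq [NeZero k] (G : SimpleGraph V) {r : ℕ} (hr : 1 ≤ r)
    (hk : K0 (2 * r) ≤ k) {q : Finset V → Fn V k}
    (hq : Fam G r q) {S T : Finset V} (hS : S.card + 1 ≤ r) (hT : T.card + 1 ≤ r)
    (hm : Mat G S T) :
    ∑ u, ∑ v, (if G.Adj u v ∧ Alw G (S ∪ T) u ∧ Alw G (S ∪ T) v then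
        ev (fun c => q (insert u S) c * q (insert v T) c *
          dens G 0 (insert u S ∪ insert v T) c) else 0) =
      (-((k : ℝ) / (k - 1))) ^ ((S \ T).card + 1) * ((1 / (k : ℝ) ^ 2) *
        ∑ z : Fin k, ev (fun c => (dens G 0 (S ∩ T) c * JJ G S T c) *
          ∑ u, ∑ v, (if G.Adj u v then
            FF G (S ∪ T) q S z u c * FF G (S ∪ T) q T z v c else 0))) := by
  have h1 : ∀ u v : V, (if G.Adj u v ∧ Alw G (S ∪ T) u ∧ Alw G (S ∪ T) v then
        ev (fun c => q (insert u S) c * q (insert v T) c *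
          dens G 0 (insert u S ∪ insert v T) c) else 0) =
      (-((k : ℝ) / (k - 1))) ^ ((S \ T).card + 1) * ((1 / (k : ℝ) ^ 2) *
        ∑ z : Fin k, ev (fun c => (dens G 0 (S ∩ T) c * JJ G S T c) *
          (if G.Adj u v then FF G (S ∪ T) q S z u c * FF G (S ∪ T) q T z v c else 0))) := by
    intro u v
    by_cases h : G.Adj u v ∧ Alw G (S ∪ T) u ∧ Alw G (S ∪ T) v
    · rw [if_pos h, term_eq G hr hk hq hS hT hm h.1 h.2.1 h.2.2]
      congr 2
      refine sum_congr rfl fun z _ => ev_congr fun c => ?_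
      rw [if_pos h.1]; ring
    · rw [if_neg h]
      symm
      have h2 : ∀ z : Fin k, ev (fun c => (dens G 0 (S ∩ T) c * JJ G S T c) *
          (if G.Adj u v then FF G (S ∪ T) q S z u c * FF G (S ∪ T) q T z v c else 0)) = 0 := by
        intro z
        have : (fun c => (dens G 0 (S ∩ T) c * JJ G S T c) *
          (if G.Adj u v then FF G (S ∪ T) q S z u c * FF G (S ∪ T) q T z v c else 0)) =
            fun _ : V → Fin k => (0 : ℝ) := by
          funext c
          by_cases huv : G.Adj u v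
          · rw [if_pos huv]
            by_cases hu : Alw G (S ∪ T) u
            · have hv : ¬ Alw G (S ∪ T) v := fun hv => h ⟨huv, hu, hv⟩
              simp [FF, hv]
            · simp [FF, hu]
          · simp [huv]
        rw [this, ev_zero]
      rw [sum_eq_zero fun z _ => h2 z, mul_zero, mul_zero]
  simp only [h1, ← mul_sum]
  congr 2
  have h3 : ∀ u : V, ∑ v, ∑ z : Fin k, ev (fun c => (dens G 0 (S ∩ T) c * JJ G S T c) *
          (if G.Adj u v then FF G (S ∪ T) q S z u c * FF G (S ∪ T) q T z v c else 0)) =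
      ∑ z : Fin k, ∑ v, ev (fun c => (dens G 0 (S ∩ T) c * JJ G S T c) *
          (if G.Adj u v then FF G (S ∪ T) q S z u c * FF G (S ∪ T) q T z v c else 0)) :=
    fun u => sum_comm
  simp only [h3]
  rw [sum_comm]
  refine sum_congr rfl fun z _ => ?_
  simp only [← ev_sum, ← mul_sum]

theorem jj_sq_left [NeZero k] {G : SimpleGraph V} {q : Finset V → Fn V k}
    (hq : ∀ S, DepOn S (q S)) {S T : Finset V} (hm : Mat G S T) (X : Finset V) (z : Fin k) :
    ev (fun c => (∑ u, FF G X q S z u c ^ 2) * JJ G S T c) =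
      ev (fun c => ∑ u, FF G X q S z u c ^ 2) / (k : ℝ) ^ (T \ S).card := by
  obtain ⟨g, hg, hJ⟩ := jj_right (k := k) hm
  simp only [hJ]
  refine ev_prod_link Finset.disjoint_sdiff ?_ g hg
  refine DepOn.sum fun u _ => ?_
  intro c c' hc
  simp only [FF_dep hq S z u c c' hc]

theorem jj_sq_right [NeZero k] {G : SimpleGraph V} {q : Finset V → Fn V k}
    (hq : ∀ S, DepOn S (q S)) {S T : Finset V} (hm : Mat G S T) (X : Finset V) (z : Fin k) :
    ev (fun c => (∑ u, FF G X q T z u c ^ 2) * JJ G S T c) =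
      ev (fun c => ∑ u, FF G X q T z u c ^ 2) / (k : ℝ) ^ (S \ T).card := by
  obtain ⟨g, hg, hJ⟩ := jj_left (k := k) hm
  simp only [hJ]
  refine ev_prod_link Finset.disjoint_sdiff ?_ g hg
  refine DepOn.sum fun u _ => ?_
  intro c c' hc
  simp only [FF_dep hq T z u c c' hc]

/-- `(1/k²) ∑_z E[JJ √A_z √B_z] ≤ k^{-m} √nS √nT`. -/
theorem mpart [NeZero k] (G : SimpleGraph V) {q : Finset V → Fn V k}
    (hq : ∀ S, DepOn S (q S)) {S T : Finset V} (hm : Mat G S T) :
    (1 / (k : ℝ) ^ 2) * ∑ z : Fin k, ev (fun c =>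
        Real.sqrt (∑ u, FF G (S ∪ T) q S z u c ^ 2) *
        Real.sqrt (∑ v, FF G (S ∪ T) q T z v c ^ 2) * JJ G S T c) ≤
      1 / (k : ℝ) ^ ((S \ T).card + 1) * (Real.sqrt (nS q S) * Real.sqrt (nS q T)) := by
  have hk1 : (1 : ℝ) ≤ k := one_le_k
  have hcard : (T \ S).card = (S \ T).card := (mat_card hm).symm
  have h1 : ∀ z : Fin k, ev (fun c =>
        Real.sqrt (∑ u, FF G (S ∪ T) q S z u c ^ 2) *
        Real.sqrt (∑ v, FF G (S ∪ T) q T z v c ^ 2) * JJ G S T c) ≤
      1 / (k : ℝ) ^ (S \ T).card *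
      (Real.sqrt (ev (fun c => ∑ u, FF G (S ∪ T) q S z u c ^ 2)) *
        Real.sqrt (ev (fun c => ∑ u, FF G (S ∪ T) q T z u c ^ 2))) := by
    intro z
    have h2 := ev_abs_mul_abs_mul_le
      (fun c => Real.sqrt (∑ u, FF G (S ∪ T) q S z u c ^ 2))
      (fun c => Real.sqrt (∑ v, FF G (S ∪ T) q T z v c ^ 2)) (JJ G S T)
      (fun c => jj_nonneg G S T c)
    simp only [abs_of_nonneg (Real.sqrt_nonneg _)] at h2
    have h3 : ∀ (S' : Finset V) (c : V → Fin k),
        Real.sqrt (∑ u, FF G (S ∪ T) q S' z u c ^ 2) ^ 2 = ∑ u, FF G (S ∪ T) q S' z u c ^ 2 :=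
      fun S' c => Real.sq_sqrt (sum_nonneg fun _ _ => sq_nonneg _)
    simp only [h3] at h2
    rw [jj_sq_left hq hm, jj_sq_right hq hm, hcard, sqrt_div_pow, sqrt_div_pow] at h2
    refine h2.trans (le_of_eq ?_)
    have h4 : (k : ℝ) ^ (S \ T).card = Real.sqrt k ^ (S \ T).card * Real.sqrt k ^ (S \ T).card := by
      rw [← mul_pow, Real.mul_self_sqrt (by positivity)]
    rw [h4]
    field_simp
  have h5 : ∑ z : Fin k, (Real.sqrt (ev (fun c => ∑ u, FF G (S ∪ T) q S z u c ^ 2)) *
        Real.sqrt (ev (fun c => ∑ u, FF G (S ∪ T) q T z u c ^ 2))) ≤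
      k * (Real.sqrt (nS q S) * Real.sqrt (nS q T)) := by
    have h6 := Finset.sum_mul_sq_le_sq_mul_sq univ
      (fun z : Fin k => Real.sqrt (ev (fun c => ∑ u, FF G (S ∪ T) q S z u c ^ 2)))
      (fun z : Fin k => Real.sqrt (ev (fun c => ∑ u, FF G (S ∪ T) q T z u c ^ 2)))
    have h7 : ∀ S' : Finset V, S' ⊆ S ∪ T → ∑ z : Fin k,
        Real.sqrt (ev (fun c => ∑ u, FF G (S ∪ T) q S' z u c ^ 2)) ^ 2 ≤ k * nS q S' := by
      intro S' hS'
      have : ∀ z : Fin k, Real.sqrt (ev (fun c => ∑ u, FF G (S ∪ T) q S' z u c ^ 2)) ^ 2 =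
          ev (fun c => ∑ u, FF G (S ∪ T) q S' z u c ^ 2) :=
        fun z => Real.sq_sqrt (ev_nonneg fun c => sum_nonneg fun _ _ => sq_nonneg _)
      simp only [this]
      exact sum_FF_sq G q hS'
    have h8 := h7 S subset_union_left
    have h9 := h7 T subset_union_right
    have hn : ∀ S' : Finset V, 0 ≤ nS q S' := fun S' =>
      sum_nonneg fun u _ => ev_nonneg fun c => sq_nonneg _
    have h10 : (∑ z : Fin k, (Real.sqrt (ev (fun c => ∑ u, FF G (S ∪ T) q S z u c ^ 2)) *
        Real.sqrt (ev (fun c => ∑ u, FF G (S ∪ T) q T z u c ^ 2)))) ^ 2 ≤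
        (k * nS q S) * (k * nS q T) :=
      h6.trans (mul_le_mul h8 h9 (sum_nonneg fun _ _ => sq_nonneg _)
        (mul_nonneg (by positivity) (hn S)))
    have h11 := Real.le_sqrt_of_sq_le h10
    refine h11.trans (le_of_eq ?_)
    have : (k : ℝ) * nS q S * (k * nS q T) = (k : ℝ) ^ 2 * (nS q S * nS q T) := by ring
    rw [this, Real.sqrt_mul (by positivity), Real.sqrt_sq (by positivity), Real.sqrt_mul (hn S)]
  calc (1 / (k : ℝ) ^ 2) * ∑ z : Fin k, ev (fun c =>
        Real.sqrt (∑ u, FF G (S ∪ T) q S z u c ^ 2) *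
        Real.sqrt (∑ v, FF G (S ∪ T) q T z v c ^ 2) * JJ G S T c)
      ≤ (1 / (k : ℝ) ^ 2) * ∑ z : Fin k, (1 / (k : ℝ) ^ (S \ T).card *
      (Real.sqrt (ev (fun c => ∑ u, FF G (S ∪ T) q S z u c ^ 2)) *
        Real.sqrt (ev (fun c => ∑ u, FF G (S ∪ T) q T z u c ^ 2)))) :=
        mul_le_mul_of_nonneg_left (sum_le_sum fun z _ => h1 z) (by positivity)
    _ = (1 / (k : ℝ) ^ 2) * (1 / (k : ℝ) ^ (S \ T).card) * ∑ z : Fin k,
      (Real.sqrt (ev (fun c => ∑ u, FF G (S ∪ T) q S z u c ^ 2)) *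
        Real.sqrt (ev (fun c => ∑ u, FF G (S ∪ T) q T z u c ^ 2))) := by
        rw [← mul_sum, mul_assoc]
    _ ≤ (1 / (k : ℝ) ^ 2) * (1 / (k : ℝ) ^ (S \ T).card) *
        (k * (Real.sqrt (nS q S) * Real.sqrt (nS q T))) :=
        mul_le_mul_of_nonneg_left h5 (by positivity)
    _ = _ := by
        have hk0 : (k : ℝ) ≠ 0 := by positivity
        rw [pow_succ, pow_succ]
        field_simp
        try ring

open Classical in
/-- At most `2r(Δ+1)` vertices are not allowed. -/
theorem card_not_alw (G : SimpleGraph V) {r Δ : ℕ} (hΔ : MaxDeg G Δ) {X : Finset V}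
    (hX : X.card ≤ 2 * r) :
    (univ.filter (fun u => ¬ Alw G X u)).card ≤ 2 * r * (Δ + 1) := by
  have hsub : univ.filter (fun u => ¬ Alw G X u) ⊆ X ∪ X.biUnion (nb G) := by
    intro u hu
    simp only [mem_filter, mem_univ, true_and, Alw, not_and, not_forall, not_not] at hu
    by_cases h : u ∈ X
    · exact mem_union_left _ h
    · obtain ⟨x, hx, hux⟩ := hu h
      refine mem_union_right _ (mem_biUnion.2 ⟨x, hx, ?_⟩)
      simp only [nb, mem_filter, mem_univ, true_and]
      exact hux.symm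
  calc (univ.filter (fun u => ¬ Alw G X u)).card ≤ (X ∪ X.biUnion (nb G)).card :=
        card_le_card hsub
    _ ≤ X.card + (X.biUnion (nb G)).card := card_union_le _ _
    _ ≤ X.card + X.card * Δ := Nat.add_le_add_left (card_biUnion_le_card_mul _ _ _
        fun x _ => hΔ x) _
    _ = X.card * (Δ + 1) := by ring
    _ ≤ 2 * r * (Δ + 1) := Nat.mul_le_mul_right _ hX

/-- `(∑ F)² ≤ 2 sgm² + 4r(Δ+1) ∑ q²`. -/
theorem sum_FF_le [NeZero k] (G : SimpleGraph V) {r Δ : ℕ} (hΔ : MaxDeg G Δ) {X S : Finset V}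
    (hSX : S ⊆ X) (hX : X.card ≤ 2 * r) (q : Finset V → Fn V k) (z : Fin k) (c : V → Fin k) :
    (∑ u, FF G X q S z u c) ^ 2 ≤ 2 * sgm q S z c ^ 2 +
      4 * r * (Δ + 1) * ∑ u ∈ univ \ S, q (insert u S) (Function.update c u z) ^ 2 := by
  classical
  set N := (univ \ S).filter (fun u => ¬ Alw G X u) with hN
  have h1 : ∑ u, FF G X q S z u c =
      sgm q S z c - ∑ u ∈ N, q (insert u S) (Function.update c u z) := by
    rw [eq_sub_iff_add_eq]
    unfold sgm
    rw [← sum_filter_add_sum_filter_not (univ \ S) (fun u => Alw G X u)]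
    congr 1
    unfold FF
    rw [← sum_filter]
    refine sum_congr ?_ fun _ _ => rfl
    ext u
    simp only [mem_filter, mem_univ, true_and, mem_sdiff]
    exact ⟨fun h => ⟨fun hu => h.1 (hSX hu), h⟩, fun h => h.2⟩
  have h2 : (∑ u ∈ N, q (insert u S) (Function.update c u z)) ^ 2 ≤
      2 * r * (Δ + 1) * ∑ u ∈ univ \ S, q (insert u S) (Function.update c u z) ^ 2 := by
    have h3 := sq_sum_le_card_mul_sum_sq (s := N)
      (f := fun u => q (insert u S) (Function.update c u z))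
    have h4 : (N.card : ℝ) ≤ 2 * r * (Δ + 1) := by
      have h5 : N.card ≤ 2 * r * (Δ + 1) := by
        refine (card_le_card ?_).trans (card_not_alw G hΔ hX)
        intro u hu
        rw [hN, mem_filter] at hu
        exact mem_filter.2 ⟨mem_univ _, hu.2⟩
      exact_mod_cast h5
    have h6 : ∑ u ∈ N, q (insert u S) (Function.update c u z) ^ 2 ≤
        ∑ u ∈ univ \ S, q (insert u S) (Function.update c u z) ^ 2 :=
      sum_le_sum_of_subset_of_nonneg (filter_subset _ _) fun _ _ _ => sq_nonneg _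
    calc _ ≤ _ := h3
      _ ≤ _ := mul_le_mul h4 h6 (sum_nonneg fun _ _ => sq_nonneg _) (by positivity)
  rw [h1]
  nlinarith [sq_nonneg (sgm q S z c + ∑ u ∈ N, q (insert u S) (Function.update c u z))]

/-- `∑_z E[(∑ F)²] ≤ 2 sgS + 4r(Δ+1) k nS`. -/
theorem ev_sum_FF_le [NeZero k] (G : SimpleGraph V) {r Δ : ℕ} (hΔ : MaxDeg G Δ)
    {X S : Finset V}
    (hSX : S ⊆ X) (hX : X.card ≤ 2 * r) (q : Finset V → Fn V k) :
    ∑ z : Fin k, ev (fun c => (∑ u, FF G X q S z u c) ^ 2) ≤ 2 * sgS q S +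
      4 * r * (Δ + 1) * (k * nS q S) := by
  have h1 : ∀ z : Fin k, ev (fun c => (∑ u, FF G X q S z u c) ^ 2) ≤
      2 * ev (fun c => sgm q S z c ^ 2) + 4 * r * (Δ + 1) *
        ∑ u ∈ univ \ S, ev (fun c => q (insert u S) (Function.update c u z) ^ 2) := by
    intro z
    have h2 := ev_mono (fun c => sum_FF_le G hΔ hSX hX q z c)
    refine h2.trans (le_of_eq ?_)
    rw [ev_add, ev_smul, ev_smul, ev_sum]
  refine (sum_le_sum fun z _ => h1 z).trans (le_of_eq ?_)
  rw [sum_add_distrib, ← mul_sum, ← mul_sum, sgS]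
  congr 2
  rw [sum_comm, nS, mul_sum]
  refine sum_congr rfl fun u _ => ?_
  exact sum_ev_update u (fun c => q (insert u S) c ^ 2)

open Classical in
theorem edge_sum_bound [NeZero k] (G : SimpleGraph V) {r Δ : ℕ} {M P : ℝ} (hr : 1 ≤ r)
    (hM : 0 ≤ M) (hP : 0 ≤ P)
    (hk : K0 (2 * r) ≤ k) (hΔ : MaxDeg G Δ) (hspec : Spec G M P) {q : Finset V → Fn V k}
    (hq : Fam G r q) {S T : Finset V} (hS : S.card + 1 ≤ r) (hT : T.card + 1 ≤ r)
    (hm : Mat G S T) :
    |∑ u, ∑ v, (if G.Adj u v ∧ Alw G (S ∪ T) u ∧ Alw G (S ∪ T) v then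
        ev (fun c => q (insert u S) c * q (insert v T) c *
          dens G 0 (insert u S ∪ insert v T) c) else 0)| ≤
      2 ^ r * CE (2 * r) * (M / (k : ℝ) ^ ((S \ T).card + 1) *
          (Real.sqrt (nS q S) * Real.sqrt (nS q T)) +
        P / Fintype.card V * (sgS q S + sgS q T + 2 * r * (Δ + 1) * (nS q S + nS q T))) := by
  have hk2 := two_le_k hr hk
  have hk1 : (1 : ℝ) ≤ k := one_le_k
  have hk2' : (2 : ℝ) ≤ k := by exact_mod_cast hk2
  have hdep : ∀ S, DepOn S (q S) := fun S => (hq.w S).dep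
  have hX : (S ∪ T).card ≤ 2 * r := by
    have := card_union_le S T
    omega
  rw [inner_eq G hr hk hq hS hT hm]
  -- the sign factor
  have hfac : |(-((k : ℝ) / (k - 1))) ^ ((S \ T).card + 1)| ≤ 2 ^ r := by
    rw [abs_pow, abs_neg, abs_of_nonneg (div_nonneg (by linarith) (by linarith))]
    have h1 : (k : ℝ) / (k - 1) ≤ 2 := by
      rw [div_le_iff₀ (by linarith)]; linarith
    have h2 : (S \ T).card + 1 ≤ r := by
      have := card_le_card (sdiff_subset : S \ T ⊆ S)
      omega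
    calc ((k : ℝ) / (k - 1)) ^ ((S \ T).card + 1) ≤ 2 ^ ((S \ T).card + 1) :=
          pow_le_pow_left₀ (div_nonneg (by linarith) (by linarith)) h1 _
      _ ≤ 2 ^ r := pow_le_pow_right₀ (by norm_num) h2
  -- the bound for each `z`
  set A : Fin k → (V → Fin k) → ℝ := fun z c =>
    Real.sqrt (∑ u, FF G (S ∪ T) q S z u c ^ 2) *
        Real.sqrt (∑ v, FF G (S ∪ T) q T z v c ^ 2) * JJ G S T c with hA
  have hz : ∀ z : Fin k, |ev (fun c => (dens G 0 (S ∩ T) c * JJ G S T c) *
          ∑ u, ∑ v, (if G.Adj u v then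
            FF G (S ∪ T) q S z u c * FF G (S ∪ T) q T z v c else 0))| ≤
      CE (2 * r) * (M * ev (A z) + P / Fintype.card V *
        ((ev (fun c => (∑ u, FF G (S ∪ T) q S z u c) ^ 2) +
          ev (fun c => (∑ u, FF G (S ∪ T) q T z u c) ^ 2)) / 2)) := by
    intro z
    refine (abs_ev_le _).trans ?_
    have h3 : ∀ c : V → Fin k, |(dens G 0 (S ∩ T) c * JJ G S T c) *
          ∑ u, ∑ v, (if G.Adj u v then
            FF G (S ∪ T) q S z u c * FF G (S ∪ T) q T z v c else 0)| ≤
        CE (2 * r) * (M * A z c + P / Fintype.card V *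
          (((∑ u, FF G (S ∪ T) q S z u c) ^ 2 + (∑ u, FF G (S ∪ T) q T z u c) ^ 2) / 2)) := by
      intro c
      have hcardI : (S ∩ T).card ≤ 2 * r := by
        have := card_le_card (inter_subset_left : S ∩ T ⊆ S)
        omega
      have h4 := est_sup G (by omega : 1 ≤ 2 * r) hk hcardI c
      have h5 := spec_pt G hspec (q := q) (S ∪ T) S T z c
      have hJ0 := jj_nonneg G S T c
      have hJ1 := jj_le_one G S T c
      set a := |∑ u, FF G (S ∪ T) q S z u c|
      set b := |∑ v, FF G (S ∪ T) q T z v c|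
      have hab : a * b ≤ ((∑ u, FF G (S ∪ T) q S z u c) ^ 2 +
          (∑ u, FF G (S ∪ T) q T z u c) ^ 2) / 2 := by
        rw [← sq_abs (∑ u, FF G (S ∪ T) q S z u c), ← sq_abs (∑ u, FF G (S ∪ T) q T z u c)]
        nlinarith [sq_nonneg (a - b)]
      have hPn : 0 ≤ P / Fintype.card V := by positivity
      rw [abs_mul, abs_mul, abs_of_nonneg hJ0]
      calc |dens G 0 (S ∩ T) c| * JJ G S T c * |∑ u, ∑ v, (if G.Adj u v then
            FF G (S ∪ T) q S z u c * FF G (S ∪ T) q T z v c else 0)|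
          ≤ (CE (2 * r) * JJ G S T c) * (M * (Real.sqrt (∑ u, FF G (S ∪ T) q S z u c ^ 2) *
            Real.sqrt (∑ v, FF G (S ∪ T) q T z v c ^ 2)) + P / Fintype.card V * (a * b)) :=
            mul_le_mul (mul_le_mul_of_nonneg_right h4 hJ0) h5 (abs_nonneg _) (by positivity)
        _ = CE (2 * r) * (M * A z c + JJ G S T c * (P / Fintype.card V * (a * b))) := by
            rw [hA]; ring
        _ ≤ CE (2 * r) * (M * A z c + 1 * (P / Fintype.card V *
          (((∑ u, FF G (S ∪ T) q S z u c) ^ 2 + (∑ u, FF G (S ∪ T) q T z u c) ^ 2) / 2))) := by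
            refine mul_le_mul_of_nonneg_left (add_le_add_right ?_ _) (by positivity)
            refine mul_le_mul hJ1 (mul_le_mul_of_nonneg_left hab hPn) (by positivity) (by norm_num)
        _ = _ := by rw [one_mul]
    refine (ev_mono h3).trans (le_of_eq ?_)
    rw [ev_smul, ev_add, ev_smul, ev_smul]
    congr 3
    rw [← ev_add]
    have : ∀ f : Fn V k, ev (fun c => f c / 2) = ev f / 2 := by
      intro f
      simp only [div_eq_mul_inv]
      exact ev_mul_const _ _
    rw [this]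
  rw [abs_mul, abs_mul, abs_of_nonneg (by positivity : (0:ℝ) ≤ 1 / (k : ℝ) ^ 2)]
  have hsum : |∑ z : Fin k, ev (fun c => (dens G 0 (S ∩ T) c * JJ G S T c) *
          ∑ u, ∑ v, (if G.Adj u v then
            FF G (S ∪ T) q S z u c * FF G (S ∪ T) q T z v c else 0))| ≤
      CE (2 * r) * (M * ∑ z, ev (A z) + P / Fintype.card V *
        ((∑ z : Fin k, ev (fun c => (∑ u, FF G (S ∪ T) q S z u c) ^ 2) +
          ∑ z : Fin k, ev (fun c => (∑ u, FF G (S ∪ T) q T z u c) ^ 2)) / 2)) := by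
    refine (abs_sum_le_sum_abs _ _).trans ((sum_le_sum fun z _ => hz z).trans (le_of_eq ?_))
    rw [← mul_sum, sum_add_distrib, ← mul_sum, ← mul_sum, ← sum_div, sum_add_distrib]
  have hmp := mpart G hdep hm (k := k)
  have hp1 := ev_sum_FF_le G hΔ (subset_union_left : S ⊆ S ∪ T) hX q
  have hp2 := ev_sum_FF_le G hΔ (subset_union_right : T ⊆ S ∪ T) hX q
  have hn : ∀ S' : Finset V, 0 ≤ nS q S' := fun S' =>
    sum_nonneg fun u _ => ev_nonneg fun c => sq_nonneg _
  have hsg : ∀ S' : Finset V, 0 ≤ sgS q S' := fun S' =>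
    sum_nonneg fun u _ => ev_nonneg fun c => sq_nonneg _
  have hPn : 0 ≤ P / Fintype.card V := by positivity
  have hfin : (1 / (k : ℝ) ^ 2) * |∑ z : Fin k, ev (fun c =>
          (dens G 0 (S ∩ T) c * JJ G S T c) *
          ∑ u, ∑ v, (if G.Adj u v then
            FF G (S ∪ T) q S z u c * FF G (S ∪ T) q T z v c else 0))| ≤
      CE (2 * r) * (M / (k : ℝ) ^ ((S \ T).card + 1) *
          (Real.sqrt (nS q S) * Real.sqrt (nS q T)) +
        P / Fintype.card V * (sgS q S + sgS q T + 2 * r * (Δ + 1) * (nS q S + nS q T))) := by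
    calc _ ≤ (1 / (k : ℝ) ^ 2) * (CE (2 * r) * (M * ∑ z, ev (A z) + P / Fintype.card V *
        ((∑ z : Fin k, ev (fun c => (∑ u, FF G (S ∪ T) q S z u c) ^ 2) +
          ∑ z : Fin k, ev (fun c => (∑ u, FF G (S ∪ T) q T z u c) ^ 2)) / 2))) :=
          mul_le_mul_of_nonneg_left hsum (by positivity)
      _ ≤ (1 / (k : ℝ) ^ 2) * (CE (2 * r) * (M * ∑ z, ev (A z) + P / Fintype.card V *
        ((2 * sgS q S + 4 * r * (Δ + 1) * (k * nS q S) +
          (2 * sgS q T + 4 * r * (Δ + 1) * (k * nS q T))) / 2))) := by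
          have : ((∑ z : Fin k, ev (fun c => (∑ u, FF G (S ∪ T) q S z u c) ^ 2) +
            ∑ z : Fin k, ev (fun c => (∑ u, FF G (S ∪ T) q T z u c) ^ 2)) / 2) ≤
            ((2 * sgS q S + 4 * r * (Δ + 1) * (k * nS q S) +
          (2 * sgS q T + 4 * r * (Δ + 1) * (k * nS q T))) / 2) := by linarith
          gcongr
      _ = CE (2 * r) * (M * ((1 / (k : ℝ) ^ 2) * ∑ z, ev (A z)) + P / Fintype.card V *
          ((1 / (k : ℝ) ^ 2) * (sgS q S + sgS q T) +
            (1 / (k : ℝ) ^ 2 * k) * (2 * r * (Δ + 1) * (nS q S + nS q T)))) := by ring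
      _ ≤ CE (2 * r) * (M * (1 / (k : ℝ) ^ ((S \ T).card + 1) *
          (Real.sqrt (nS q S) * Real.sqrt (nS q T))) + P / Fintype.card V *
          (1 * (sgS q S + sgS q T) + 1 * (2 * r * (Δ + 1) * (nS q S + nS q T)))) := by
          have e1 : 1 / (k : ℝ) ^ 2 ≤ 1 := by
            rw [div_le_one (by positivity)]; exact one_le_pow₀ hk1
          have e2 : 1 / (k : ℝ) ^ 2 * k ≤ 1 := by
            rw [sq, one_div, mul_inv, mul_assoc, inv_mul_cancel₀ (by positivity), mul_one]
            exact inv_le_one_of_one_le₀ hk1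
          have := hn S
          have := hn T
          have := hsg S
          have := hsg T
          gcongr
      _ = _ := by ring
  calc _ ≤ 2 ^ r * (CE (2 * r) * (M / (k : ℝ) ^ ((S \ T).card + 1) *
          (Real.sqrt (nS q S) * Real.sqrt (nS q T)) +
        P / Fintype.card V * (sgS q S + sgS q T + 2 * r * (Δ + 1) * (nS q S + nS q T)))) :=
        mul_le_mul hfac hfin (mul_nonneg (by positivity) (abs_nonneg _)) (by positivity)
    _ = _ := by ring

end Pool.Agent.SOSC
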